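import Pool.Agent.H49.PQS.Lnk

/-!
The 108 permutations.
-/

namespace Pool.Agent.H49.PQS

def BL : List (List ℕ) := [
  [2, 4, 3, 6, 5, 1], [2, 4, 6, 3, 5, 1], [2, 4, 6, 5, 1, 3], [2, 5, 3, 6, 4, 1], [2, 5, 4, 6,
  1, 3], [2, 6, 3, 5, 4, 1], [2, 6, 5, 4, 1, 3], [3, 2, 4, 6, 5, 1], [3, 2, 6, 5, 1, 4], [3, 5,
  1, 4, 6, 2], [3, 5, 2, 4, 6, 1], [3, 5, 4, 1, 6, 2], [3, 5, 4, 2, 6, 1], [3, 6, 4, 1, 5, 2],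
  [3, 6, 4, 2, 5, 1], [3, 6, 5, 1, 4, 2], [3, 6, 5, 2, 4, 1], [4, 2, 5, 3, 6, 1], [4, 2, 6, 3,
  5, 1], [4, 2, 6, 5, 1, 3], [4, 3, 5, 1, 6, 2], [4, 3, 6, 1, 5, 2], [4, 3, 6, 2, 5, 1], [4, 6,
  2, 5, 1, 3], [4, 6, 5, 1, 3, 2], [5, 1, 3, 6, 2, 4], [5, 2, 4, 3, 6, 1], [5, 2, 4, 6, 1, 3],
  [5, 2, 6, 3, 1, 4], [5, 2, 6, 4, 1, 3], [5, 3, 1, 6, 2, 4], [5, 3, 6, 1, 4, 2], [5, 3, 6, 2,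
  4, 1], [5, 4, 2, 6, 1, 3], [5, 4, 6, 1, 3, 2], [2, 6, 4, 1, 5, 7, 3], [4, 1, 6, 2, 7, 3, 5],
  [4, 1, 6, 3, 7, 2, 5], [5, 1, 4, 6, 3, 7, 2], [5, 4, 1, 6, 3, 7, 2], [5, 7, 3, 2, 4, 6, 1],
  [6, 1, 4, 3, 5, 7, 2], [6, 3, 2, 5, 7, 4, 1], [6, 4, 1, 3, 5, 7, 2], [6, 4, 2, 5, 7, 3, 1],
  [6, 4, 3, 1, 5, 7, 2], [2, 5, 1, 3, 6, 8, 7, 4], [2, 5, 1, 3, 8, 7, 4, 6], [2, 5, 3, 1, 6, 8,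
  7, 4], [2, 5, 3, 1, 8, 7, 4, 6], [2, 5, 3, 7, 1, 8, 4, 6], [2, 5, 7, 1, 3, 8, 4, 6], [2, 5, 7,
  3, 1, 8, 4, 6], [2, 6, 1, 3, 7, 4, 8, 5], [2, 6, 1, 3, 7, 5, 8, 4], [2, 6, 1, 3, 8, 4, 7, 5],
  [2, 6, 1, 3, 8, 5, 7, 4], [2, 6, 3, 1, 7, 4, 8, 5], [2, 6, 3, 1, 7, 5, 8, 4], [2, 6, 3, 1, 8,
  4, 7, 5], [2, 6, 3, 1, 8, 5, 7, 4], [2, 7, 1, 3, 8, 4, 6, 5], [2, 7, 3, 1, 8, 4, 6, 5], [2, 8,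
  4, 1, 5, 7, 6, 3], [2, 8, 4, 1, 7, 6, 3, 5], [2, 8, 4, 6, 1, 7, 3, 5], [2, 8, 5, 1, 6, 3, 7,
  4], [2, 8, 5, 1, 6, 4, 7, 3], [2, 8, 5, 1, 7, 3, 6, 4], [2, 8, 5, 1, 7, 4, 6, 3], [2, 8, 6, 1,
  7, 3, 5, 4], [3, 1, 5, 2, 6, 8, 7, 4], [3, 1, 5, 2, 8, 7, 4, 6], [3, 1, 5, 7, 2, 8, 4, 6], [3,
  1, 6, 2, 7, 4, 8, 5], [3, 1, 6, 2, 7, 5, 8, 4], [3, 1, 6, 2, 8, 4, 7, 5], [3, 1, 6, 2, 8, 5,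
  7, 4], [3, 1, 7, 2, 8, 4, 6, 5], [4, 1, 5, 2, 6, 8, 7, 3], [4, 1, 5, 2, 8, 7, 3, 6], [5, 1, 3,
  2, 6, 8, 7, 4], [5, 1, 3, 2, 8, 7, 4, 6], [5, 1, 6, 2, 7, 3, 8, 4], [5, 1, 6, 2, 7, 4, 8, 3],
  [5, 1, 6, 2, 8, 3, 7, 4], [5, 1, 6, 2, 8, 4, 7, 3], [5, 7, 1, 3, 2, 8, 4, 6], [6, 1, 3, 2, 7,
  4, 8, 5], [6, 1, 3, 2, 7, 5, 8, 4], [6, 1, 3, 2, 8, 4, 7, 5], [6, 1, 3, 2, 8, 5, 7, 4], [6, 1,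
  7, 2, 8, 3, 5, 4], [7, 1, 3, 2, 8, 4, 6, 5], [7, 2, 5, 1, 3, 6, 8, 4], [7, 2, 5, 3, 1, 6, 8,
  4], [7, 3, 1, 5, 2, 6, 8, 4], [7, 4, 1, 5, 2, 6, 8, 3], [7, 5, 1, 3, 2, 6, 8, 4], [2, 4, 3, 6,
  1, 7, 9, 8, 5], [2, 4, 3, 6, 1, 9, 8, 5, 7], [2, 4, 3, 6, 8, 1, 9, 5, 7], [2, 4, 3, 7, 1, 8,
  5, 9, 6], [2, 4, 3, 7, 1, 8, 6, 9, 5], [2, 4, 3, 7, 1, 9, 5, 8, 6], [2, 4, 3, 7, 1, 9, 6, 8,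
  5], [2, 4, 3, 8, 1, 9, 5, 7, 6], [8, 2, 4, 3, 6, 1, 7, 9, 5]]

def BB : List (List ℕ) :=
  (TT.filter (fun t => t.px.all (fun e => Nat.beq e.2 1))).map permOf

theorem BB_eq : BB = BL := by decide +kernel

theorem BL_len : BL.length = 108 := by decide +kernel

theorem BL_nodup : BL.Nodup := by decide +kernel

theorem BL_le : BL.all (fun b => decide (b.length ≤ 9)) = true := by decide +kernel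

theorem BL_perm : BL.all (fun b => decide (b.Perm (List.range' 1 b.length))) = true := by
  decide +kernel

theorem BL_srch : BL.all (fun b => !(srch b [] [])) = true := by decide +kernel

theorem BL_del : BL.all (fun b => (List.range b.length).all
    (fun i => srch (b.eraseIdx i) [] [])) = true := by decide +kernel

end Pool.Agent.H49.PQS
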