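import Mathlib

/-!
The checker: a branching argument which shows that two overlapping configurations contain one of
finitely many obstructions.  Everything is written with recursors, for evaluation by the kernel.
-/

namespace Pool.Agent.H49.PQS

/-- an element of the second configuration: the name of a new point, the label, the rank by
position, the rank by value, and a flag (1: value at least the threshold, 2: below it) -/
structure PE where
  w : ℕ
  l : ℕ
  x : ℕ
  y : ℕ
  f : ℕ

/-- a labelled pattern: elements with labels in the order of position, elements in the order of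
value -/
structure Pat where
  px : List (ℕ × ℕ)
  py : List ℕ

/-- a pattern with a distinguished element; the elements up to it and above it by value -/
structure UPat where
  px : List (ℕ × ℕ)
  xs : List ℕ
  ys : List ℕ
  pm : List ℕ
  pr : List ℕ
  mi : ℕ

noncomputable def dig (js i : ℕ) : ℕ := Nat.land (Nat.shiftRight js (Nat.mul 4 i)) 15

noncomputable def upd (a : ℕ → ℕ) (w v : ℕ) : ℕ → ℕ := fun u => cond (Nat.beq u w) v (a u)

noncomputable def elem (u : ℕ) (L : List ℕ) : Bool :=
  List.rec (motive := fun _ => Bool) false (fun c _ ih => cond (Nat.beq c u) true ih) L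

noncomputable def walkx (g : ℕ → ℕ) (ok : ℕ → ℕ → Bool) (cs : List ℕ) : List (ℕ × ℕ) → Bool :=
  List.rec (motive := fun _ => List (ℕ × ℕ) → Bool)
    (fun ps => List.rec (motive := fun _ => Bool) true (fun _ _ _ => false) ps)
    (fun c _ ih ps => List.rec (motive := fun _ => Bool) true
      (fun e ps' _ => cond (Nat.beq c (g e.1)) (cond (ok c e.2) (ih ps') false) (ih (e :: ps'))) ps)
    cs

noncomputable def walky (g : ℕ → ℕ) (k : List ℕ → Bool) (cs : List ℕ) : List ℕ → Bool :=
  List.rec (motive := fun _ => List ℕ → Bool)
    (fun ps => List.rec (motive := fun _ => Bool) (k []) (fun _ _ _ => false) ps)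
    (fun c cs' ih ps => List.rec (motive := fun _ => Bool) (k (c :: cs'))
      (fun e ps' _ => cond (Nat.beq c (g e)) (ih ps') (ih (e :: ps'))) ps)
    cs

noncomputable def nthC {α : Type} (L : List α) (f : α → Bool) : ℕ → Bool :=
  List.rec (motive := fun _ => ℕ → Bool) (fun _ => false)
    (fun x _ ih i => Nat.rec (motive := fun _ => Bool) (f x) (fun j _ => ih j) i) L

noncomputable def revOnto (pre : List ℕ) : List ℕ → List ℕ :=
  List.rec (motive := fun _ => List ℕ → List ℕ) (fun post => post)
    (fun x _ ih post => ih (x :: post)) pre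

/-- all places where a new point may be inserted -/
noncomputable def ins (w : ℕ) (high low : ℕ → Bool) (xs : List ℕ) :
    List ℕ → List (List ℕ) → List (List ℕ) :=
  List.rec (motive := fun _ => List ℕ → List (List ℕ) → List (List ℕ))
    (fun pre acc => revOnto pre [w] :: acc)
    (fun x xs' ih pre acc => cond (high x) (cond (low x) [] (revOnto pre (w :: x :: xs') :: acc))
      (cond (low x) (ih (x :: pre) []) (ih (x :: pre) (revOnto pre (w :: x :: xs') :: acc)))) xs

/-- the old points which can be the next element -/
noncomputable def cand (high low res : ℕ → Bool) (xs : List ℕ) : List ℕ → List ℕ :=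
  List.rec (motive := fun _ => List ℕ → List ℕ)
    (fun acc => acc)
    (fun x _ ih acc => cond (high x) (cond (low x) [] (cond (res x) [] acc))
      (cond (low x) (ih []) (cond (res x) (ih [x])
      (ih (x :: acc))))) xs

noncomputable def loop {α : Type} (f : α → (List ℕ → Bool) → List ℕ → Bool)
    (k : List ℕ → Bool) (L : List α) : List ℕ → Bool :=
  List.rec (motive := fun _ => List ℕ → Bool) k (fun x _ ih => f x ih) L

noncomputable def fresh (a : ℕ → ℕ) (w x : ℕ) (xs : List ℕ) : Bool :=
  List.rec (motive := fun _ => Bool) true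
    (fun u _ ih => cond (Nat.beq u w) false (cond (Nat.beq (a u) x) false ih)) xs

noncomputable def highx (lab a : ℕ → ℕ) (l x : ℕ) (u : ℕ) : Bool :=
  cond (Nat.ble (lab u) l) (cond (Nat.ble (a u) x) false true) true

noncomputable def lowx (lab a : ℕ → ℕ) (l x : ℕ) (u : ℕ) : Bool :=
  cond (Nat.ble l (lab u)) (cond (Nat.beq (a u) 0) false (cond (Nat.ble x (a u)) false true)) true

noncomputable def highy (b : ℕ → ℕ) (y f mk : ℕ) (u : ℕ) : Bool :=
  cond (Nat.beq u 0) true (cond (Nat.ble (b u) y) (cond (Nat.beq u mk) (Nat.beq f 2) false) true)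

noncomputable def lowy (b : ℕ → ℕ) (y : ℕ) (u : ℕ) : Bool :=
  cond (Nat.beq (b u) 0) false (cond (Nat.ble y (b u)) false true)

noncomputable def lowy' (b : ℕ → ℕ) (y f mk : ℕ) (u : ℕ) : Bool :=
  cond (Nat.beq u mk) (cond (Nat.beq f 1) true (lowy b y u)) (lowy b y u)

noncomputable def resy (f mk : ℕ) (u : ℕ) : Bool :=
  cond (Nat.beq u mk) (Nat.beq f 1) false

noncomputable def tcl (lab : ℕ → ℕ) (xs ys : List ℕ) (js : ℕ) (t : Pat) : Bool :=
  cond (walkx (dig js) (fun c l => Nat.beq (Nat.div (Nat.add (lab c) 2) 3) l) xs t.px)
    (walky (dig js) (fun _ => true) ys t.py) false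

noncomputable def ucl (lab : ℕ → ℕ) (mk : ℕ) (xs ys : List ℕ) (js : ℕ) (u : UPat) : Bool :=
  cond (walkx (dig js) (fun c l => Nat.beq (lab c) l) xs u.px)
    (walky (dig js) (fun r => cond (elem mk r) (walky (dig js) (fun _ => true) r u.pr) false)
      ys u.pm) false

noncomputable def run (TT : List Pat) (UT : List UPat) (lab : ℕ → ℕ) (mk : ℕ) (P : List PE)
    (fuel : ℕ) : List ℕ → List ℕ → (ℕ → ℕ) → (ℕ → ℕ) → (List ℕ → Bool) → List ℕ → Bool :=
  Nat.rec (motive := fun _ =>
      List ℕ → List ℕ → (ℕ → ℕ) → (ℕ → ℕ) → (List ℕ → Bool) → List ℕ → Bool)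
    (fun _ _ _ _ _ _ => false)
    (fun _ ih xs ys a b k cs => List.rec (motive := fun _ => Bool) false
      (fun c cs' _ =>
        cond (Nat.beq (Nat.land c 3) 0)
          (nthC P (fun e => PE.rec (motive := fun _ => Bool) (fun w l x y f =>
            cond (cond (Nat.beq (lab w) l) (cond (Nat.beq l 2) false (fresh a w x xs)) false)
              (loop (fun u k' cs => cond (cond (Nat.beq (lab u) l) (cond (Nat.beq (a u) 0)
                  (elem u (cand (highy b y f mk) (lowy b y) (resy f mk) ys [])) false) false)
                  (ih xs ys (upd a u x) (upd b u y) k' cs) (k' cs))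
                (loop (fun xs' k' => loop (fun ys' k'' =>
                      ih xs' ys' (upd a w x) (upd b w y) k'') k'
                    (ins w (highy b y f mk) (lowy' b y f mk) ys [] []))
                  k (ins w (highx lab a l x) (lowx lab a l x) xs [] []))
                (cand (highx lab a l x) (lowx lab a l x) (fun _ => false) xs []) cs')
              false) e) (Nat.div c 4))
          (cond (Nat.beq (Nat.land c 3) 1)
            (cond (nthC TT (tcl lab xs ys (Nat.div c 1024)) (Nat.land (Nat.div c 4) 255))
              (k cs') false)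
            (cond (nthC UT (ucl lab mk xs ys (Nat.div c 1024)) (Nat.land (Nat.div c 4) 255))
              (k cs') false))) cs) fuel

noncomputable def labOf (L : List (ℕ × ℕ)) (P : List PE) (w : ℕ) : ℕ :=
  List.rec (motive := fun _ => ℕ)
    (List.rec (motive := fun _ => ℕ) 9 (fun e _ ih => cond (Nat.beq e.w w) e.l ih) P)
    (fun e _ ih => cond (Nat.beq e.1 w) e.2 ih) L

noncomputable def chk (TT : List Pat) (UT : List UPat) (u : UPat) (Ps : List (List PE × List ℕ))
    (cs : List ℕ) : Bool :=
  UPat.rec (motive := fun _ => Bool) (fun px xs ys _ _ mk =>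
    loop (fun P k => run TT UT (labOf px P.1) mk P.1 8 xs ys (fun _ => 0) (fun _ => 0) k)
      (fun _ => true) Ps cs) u

end Pool.Agent.H49.PQS
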