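import Pool.Agent.H49.PQS.Tab

/-!
Branching arguments, checked by the kernel.
-/

namespace Pool.Agent.H49.PQS

def s0_0 : List ℕ :=   [nat_lit 0, nat_lit 270345, nat_lit 0, nat_lit 4, nat_lit 8, nat_lit 6971421, nat_lit 4,
   nat_lit 8, nat_lit 4367393, nat_lit 6963222, nat_lit 4, nat_lit 0, nat_lit 417801, nat_lit 8,
   nat_lit 111419465, nat_lit 0, nat_lit 4, nat_lit 4349985, nat_lit 4, nat_lit 8,
   nat_lit 4367393, nat_lit 6963222, nat_lit 4, nat_lit 8, nat_lit 4367393, nat_lit 6963222,
   nat_lit 8, nat_lit 12, nat_lit 4384801, nat_lit 7241750, nat_lit 8, nat_lit 0,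
   nat_lit 6823965, nat_lit 12, nat_lit 7241754, nat_lit 0, nat_lit 4, nat_lit 4349985,
   nat_lit 6684694, nat_lit 0, nat_lit 4, nat_lit 4349985, nat_lit 6684694, nat_lit 0, nat_lit 4,
   nat_lit 4349985, nat_lit 6684694, nat_lit 0, nat_lit 4, nat_lit 4349985, nat_lit 6684694,
   nat_lit 12, nat_lit 0, nat_lit 450569, nat_lit 8, nat_lit 4, nat_lit 116023365, nat_lit 16,
   nat_lit 30805746025, nat_lit 12, nat_lit 16, nat_lit 4402209, nat_lit 7520278, nat_lit 16,
   nat_lit 0, nat_lit 7348253, nat_lit 8, nat_lit 4, nat_lit 7349277, nat_lit 20,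
   nat_lit 7798810, nat_lit 16, nat_lit 0, nat_lit 7348253, nat_lit 12, nat_lit 4,
   nat_lit 7349277, nat_lit 20, nat_lit 7798810, nat_lit 16, nat_lit 0, nat_lit 7348253,
   nat_lit 4, nat_lit 12, nat_lit 8, nat_lit 7350301, nat_lit 20, nat_lit 511150023249,
   nat_lit 16, nat_lit 0, nat_lit 7348253, nat_lit 20, nat_lit 7798810, nat_lit 16, nat_lit 0,
   nat_lit 7348253, nat_lit 20, nat_lit 7798810, nat_lit 20, nat_lit 0, nat_lit 7610397,
   nat_lit 16, nat_lit 4, nat_lit 7611421, nat_lit 8, nat_lit 12, nat_lit 7613469, nat_lit 24,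
   nat_lit 8470529729173, nat_lit 0, nat_lit 4, nat_lit 6684694, nat_lit 0, nat_lit 4,
   nat_lit 6684698]

theorem c0_0 : chk TT UT (gU 0) (sub 0 23) s0_0 = true := by decide +kernel

def s1_0 : List ℕ :=   [nat_lit 0, nat_lit 209985601, nat_lit 209985589, nat_lit 0, nat_lit 4, nat_lit 8,
   nat_lit 3362414773, nat_lit 4, nat_lit 8, nat_lit 3362414737, nat_lit 3362414729, nat_lit 8,
   nat_lit 3362414721, nat_lit 4, nat_lit 8, nat_lit 3359810781, nat_lit 3359810769,
   nat_lit 141180990, nat_lit 3362406494, nat_lit 8, nat_lit 3359810729, nat_lit 208289854,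
   nat_lit 3362406482, nat_lit 0, nat_lit 209985601, nat_lit 209985589, nat_lit 8, nat_lit 4,
   nat_lit 207888425, nat_lit 207888425, nat_lit 683941941, nat_lit 683941945, nat_lit 243802153,
   nat_lit 243802153, nat_lit 4, nat_lit 245637161, nat_lit 245637161, nat_lit 245637161,
   nat_lit 245637161, nat_lit 4, nat_lit 245637161, nat_lit 245637161, nat_lit 245637161,
   nat_lit 245637161, nat_lit 4, nat_lit 245637161, nat_lit 245637161, nat_lit 4,
   nat_lit 245637161, nat_lit 245637161, nat_lit 8, nat_lit 684220453, nat_lit 243802153,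
   nat_lit 4, nat_lit 245637161, nat_lit 245637161, nat_lit 245637161, nat_lit 245637161,
   nat_lit 6946826, nat_lit 0, nat_lit 4, nat_lit 3359793373, nat_lit 3359793361, nat_lit 4,
   nat_lit 3359793321, nat_lit 4, nat_lit 8, nat_lit 3359810781, nat_lit 3359810769,
   nat_lit 141180990, nat_lit 3362406494, nat_lit 8, nat_lit 3359810729, nat_lit 208289854,
   nat_lit 3362406482, nat_lit 4, nat_lit 8, nat_lit 3359810781, nat_lit 3359810769,
   nat_lit 141180990, nat_lit 3362406494, nat_lit 8, nat_lit 3359810729, nat_lit 208289854,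
   nat_lit 3362406482, nat_lit 8, nat_lit 12, nat_lit 3359828189, nat_lit 3359828177,
   nat_lit 141459518, nat_lit 3362685022, nat_lit 12, nat_lit 3359828137, nat_lit 208568382,
   nat_lit 3362685010, nat_lit 0, nat_lit 4, nat_lit 3359793373, nat_lit 3359793361,
   nat_lit 140902462, nat_lit 3362127966, nat_lit 4, nat_lit 3359793321, nat_lit 208011326,
   nat_lit 3362127954, nat_lit 4, nat_lit 12, nat_lit 8, nat_lit 3330433141, nat_lit 3330433141,
   nat_lit 12016836777, nat_lit 12016836781, nat_lit 3967967349, nat_lit 3967967349, nat_lit 8,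
   nat_lit 4001521781, nat_lit 4001521781, nat_lit 4001521781, nat_lit 4001521781, nat_lit 8,
   nat_lit 4001521781, nat_lit 4001521781, nat_lit 4001521781, nat_lit 4001521781, nat_lit 8,
   nat_lit 4001521781, nat_lit 4001521781, nat_lit 8, nat_lit 4001521781, nat_lit 4001521781,
   nat_lit 12, nat_lit 12016836765, nat_lit 3967967349, nat_lit 8, nat_lit 4001521781,
   nat_lit 4001521781, nat_lit 4001521781, nat_lit 4001521781, nat_lit 7225358, nat_lit 4,
   nat_lit 12, nat_lit 12021293169, nat_lit 3967967349, nat_lit 8, nat_lit 4001521781,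
   nat_lit 4001521781, nat_lit 4001521781, nat_lit 4001521781, nat_lit 7208974, nat_lit 0,
   nat_lit 4, nat_lit 3359793373, nat_lit 3359793361, nat_lit 140902462, nat_lit 3362127966,
   nat_lit 4, nat_lit 3359793321, nat_lit 208011326, nat_lit 3362127954, nat_lit 0, nat_lit 4,
   nat_lit 3359793373, nat_lit 3359793361, nat_lit 140902462, nat_lit 3362127966, nat_lit 4,
   nat_lit 3359793321, nat_lit 208011326, nat_lit 3362127954, nat_lit 0, nat_lit 4,
   nat_lit 3359793373, nat_lit 3359793361, nat_lit 140902462, nat_lit 3362127966, nat_lit 4,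
   nat_lit 3359793321, nat_lit 208011326, nat_lit 3362127954, nat_lit 0, nat_lit 4,
   nat_lit 3359793373, nat_lit 3359793361, nat_lit 140902462, nat_lit 3362127966, nat_lit 4,
   nat_lit 3359793321, nat_lit 208011326, nat_lit 3362127954, nat_lit 0, nat_lit 209985601,
   nat_lit 209985589, nat_lit 8, nat_lit 4, nat_lit 69886001, nat_lit 69886001, nat_lit 69886001,
   nat_lit 4, nat_lit 69885997, nat_lit 69885997, nat_lit 69885997, nat_lit 8, nat_lit 4,
   nat_lit 53756977509, nat_lit 53756977501, nat_lit 16, nat_lit 12, nat_lit 53354324301,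
   nat_lit 53354324301, nat_lit 209449541981, nat_lit 209449541985, nat_lit 64561504589,
   nat_lit 64561504589, nat_lit 12, nat_lit 65165484365, nat_lit 65165484365,
   nat_lit 65165484365, nat_lit 65165484365, nat_lit 12, nat_lit 65165484365,
   nat_lit 65165484365, nat_lit 65165484365, nat_lit 65165484365, nat_lit 12,
   nat_lit 65165484365, nat_lit 65165484365, nat_lit 12, nat_lit 65165484365,
   nat_lit 65165484365, nat_lit 16, nat_lit 13094888553, nat_lit 64561504589, nat_lit 12,
   nat_lit 65165484365, nat_lit 65165484365, nat_lit 65165484365, nat_lit 65165484365,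
   nat_lit 7487502, nat_lit 12, nat_lit 16, nat_lit 3359845597, nat_lit 3359845585,
   nat_lit 141738046, nat_lit 3362963550, nat_lit 16, nat_lit 3359845545, nat_lit 208846910,
   nat_lit 3362963538, nat_lit 0, nat_lit 8, nat_lit 3359809757, nat_lit 3359809745,
   nat_lit 141164606, nat_lit 3362390110, nat_lit 8, nat_lit 3359809705, nat_lit 208273470,
   nat_lit 3362390098, nat_lit 8, nat_lit 4, nat_lit 141180990, nat_lit 208289854, nat_lit 12,
   nat_lit 1122656381, nat_lit 4, nat_lit 2259025998, nat_lit 3332767822, nat_lit 12,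
   nat_lit 1122656377, nat_lit 8, nat_lit 4, nat_lit 3362406494, nat_lit 3362406482, nat_lit 12,
   nat_lit 20, nat_lit 14028809401, nat_lit 14028809401, nat_lit 14028809401, nat_lit 16,
   nat_lit 2265113717, nat_lit 3338855541, nat_lit 20, nat_lit 16, nat_lit 854747406709,
   nat_lit 854747406709, nat_lit 3626075054485, nat_lit 3626075054489, nat_lit 1050168418677,
   nat_lit 1050168418677, nat_lit 16, nat_lit 1060905836917, nat_lit 1060905836917,
   nat_lit 1060905836917, nat_lit 1060905836917, nat_lit 16, nat_lit 1060905836917,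
   nat_lit 1060905836917, nat_lit 1060905836917, nat_lit 1060905836917, nat_lit 16,
   nat_lit 1060905836917, nat_lit 1060905836917, nat_lit 16, nat_lit 1060905836917,
   nat_lit 1060905836917, nat_lit 12, nat_lit 20, nat_lit 14168630377, nat_lit 1050168418677,
   nat_lit 16, nat_lit 1060905836917, nat_lit 1060905836917, nat_lit 1060905836917,
   nat_lit 1060905836917, nat_lit 7749646, nat_lit 0, nat_lit 12, nat_lit 3359826141,
   nat_lit 3359826129, nat_lit 141426750, nat_lit 3362652254, nat_lit 12, nat_lit 3359826089,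
   nat_lit 208535614, nat_lit 3362652242, nat_lit 12, nat_lit 4, nat_lit 141443134,
   nat_lit 208551998, nat_lit 8, nat_lit 1122656389, nat_lit 4, nat_lit 2263220302,
   nat_lit 3336962126, nat_lit 8, nat_lit 1122656385, nat_lit 12, nat_lit 4, nat_lit 3362668638,
   nat_lit 3362668626, nat_lit 8, nat_lit 20, nat_lit 14028809421, nat_lit 14028809421,
   nat_lit 14028809421, nat_lit 16, nat_lit 2265097333, nat_lit 3338839157, nat_lit 20,
   nat_lit 16, nat_lit 854747406717, nat_lit 854747406717, nat_lit 3626075054501,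
   nat_lit 3626075054505, nat_lit 1050168418685, nat_lit 1050168418685, nat_lit 16,
   nat_lit 1060905836925, nat_lit 1060905836925, nat_lit 1060905836925, nat_lit 1060905836925,
   nat_lit 16, nat_lit 1060905836925, nat_lit 1060905836925, nat_lit 1060905836925,
   nat_lit 1060905836925, nat_lit 16, nat_lit 1060905836925, nat_lit 1060905836925, nat_lit 16,
   nat_lit 1060905836925, nat_lit 1060905836925, nat_lit 8, nat_lit 20, nat_lit 14168630377,
   nat_lit 1050168418685, nat_lit 16, nat_lit 1060905836925, nat_lit 1060905836925,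
   nat_lit 1060905836925, nat_lit 1060905836925, nat_lit 7749646, nat_lit 0, nat_lit 4,
   nat_lit 3359793373, nat_lit 3359793361, nat_lit 140902462, nat_lit 3362127966, nat_lit 4,
   nat_lit 3359793321, nat_lit 208011326, nat_lit 3362127954, nat_lit 4, nat_lit 12, nat_lit 8,
   nat_lit 1122656409, nat_lit 1122656409, nat_lit 1122656409, nat_lit 12, nat_lit 8,
   nat_lit 52662264097, nat_lit 52662264097, nat_lit 20, nat_lit 224460955937,
   nat_lit 224460955937, nat_lit 224460955937, nat_lit 16, nat_lit 2265112693,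
   nat_lit 3338854517, nat_lit 8, nat_lit 52662264093, nat_lit 52662264093, nat_lit 20,
   nat_lit 224460955933, nat_lit 224460955933, nat_lit 224460955933, nat_lit 16,
   nat_lit 1060905837017, nat_lit 1060905837017, nat_lit 4, nat_lit 12, nat_lit 8,
   nat_lit 860116115953, nat_lit 860116115945, nat_lit 20, nat_lit 16, nat_lit 854747406809,
   nat_lit 854747406809, nat_lit 3626075054569, nat_lit 3626075054573, nat_lit 1050168418777,
   nat_lit 1050168418777, nat_lit 16, nat_lit 1060905837017, nat_lit 1060905837017,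
   nat_lit 1060905837017, nat_lit 1060905837017, nat_lit 16, nat_lit 1060905837017,
   nat_lit 1060905837017, nat_lit 1060905837017, nat_lit 1060905837017, nat_lit 16,
   nat_lit 1060905837017, nat_lit 1060905837017, nat_lit 16, nat_lit 1060905837017,
   nat_lit 1060905837017, nat_lit 20, nat_lit 14168631401, nat_lit 1050168418777, nat_lit 16,
   nat_lit 1060905837017, nat_lit 1060905837017, nat_lit 1060905837017, nat_lit 1060905837017,
   nat_lit 7766030, nat_lit 0, nat_lit 4, nat_lit 3359793373, nat_lit 3359793361,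
   nat_lit 140902462, nat_lit 3362127966, nat_lit 4, nat_lit 3359793321, nat_lit 208011326,
   nat_lit 3362127954, nat_lit 4, nat_lit 12, nat_lit 8, nat_lit 1122656409, nat_lit 1122656409,
   nat_lit 1122656409, nat_lit 12, nat_lit 8, nat_lit 52662264097, nat_lit 52662264097,
   nat_lit 20, nat_lit 14028791993, nat_lit 14028791993, nat_lit 14028791993, nat_lit 16,
   nat_lit 2265112693, nat_lit 3338854517, nat_lit 8, nat_lit 52662264093, nat_lit 52662264093,
   nat_lit 20, nat_lit 16, nat_lit 854747406841, nat_lit 854747406841, nat_lit 3626075054605,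
   nat_lit 3626075054609, nat_lit 1050168418809, nat_lit 1050168418809, nat_lit 16,
   nat_lit 1060905837049, nat_lit 1060905837049, nat_lit 1060905837049, nat_lit 1060905837049,
   nat_lit 16, nat_lit 1060905837049, nat_lit 1060905837049, nat_lit 1060905837049,
   nat_lit 1060905837049, nat_lit 16, nat_lit 1060905837049, nat_lit 1060905837049, nat_lit 16,
   nat_lit 1060905837049, nat_lit 1060905837049, nat_lit 4, nat_lit 12, nat_lit 20,
   nat_lit 14168629353, nat_lit 256507934, nat_lit 16, nat_lit 192020510, nat_lit 259129374,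
   nat_lit 192020510, nat_lit 259129374, nat_lit 7733262, nat_lit 0, nat_lit 4,
   nat_lit 3359793373, nat_lit 3359793361, nat_lit 140902462, nat_lit 3362127966, nat_lit 4,
   nat_lit 3359793321, nat_lit 208011326, nat_lit 3362127954, nat_lit 4, nat_lit 8, nat_lit 12,
   nat_lit 1122656445, nat_lit 8, nat_lit 20, nat_lit 14028529849, nat_lit 14028529849,
   nat_lit 14028529849, nat_lit 16, nat_lit 3338838133, nat_lit 3338838133, nat_lit 12,
   nat_lit 20, nat_lit 16, nat_lit 854747406849, nat_lit 854747406849, nat_lit 3626075054625,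
   nat_lit 3626075054629, nat_lit 1050168418817, nat_lit 1050168418817, nat_lit 16,
   nat_lit 1060905837057, nat_lit 1060905837057, nat_lit 1060905837057, nat_lit 1060905837057,
   nat_lit 16, nat_lit 1060905837057, nat_lit 1060905837057, nat_lit 1060905837057,
   nat_lit 1060905837057, nat_lit 16, nat_lit 1060905837057, nat_lit 1060905837057, nat_lit 16,
   nat_lit 1060905837057, nat_lit 1060905837057, nat_lit 4, nat_lit 8, nat_lit 12, nat_lit 20,
   nat_lit 14168629353, nat_lit 1050168418817, nat_lit 16, nat_lit 1060905837057,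
   nat_lit 1060905837057, nat_lit 1060905837057, nat_lit 1060905837057, nat_lit 7733262,
   nat_lit 0, nat_lit 16, nat_lit 3359842525, nat_lit 3359842513, nat_lit 141688894,
   nat_lit 3362914398, nat_lit 16, nat_lit 3359842473, nat_lit 208797758, nat_lit 3362914386,
   nat_lit 16, nat_lit 4, nat_lit 141705278, nat_lit 208814142, nat_lit 8, nat_lit 1126850693,
   nat_lit 4, nat_lit 2267414606, nat_lit 3341156430, nat_lit 8, nat_lit 1126850689, nat_lit 16,
   nat_lit 4, nat_lit 3362930782, nat_lit 3362930770, nat_lit 12, nat_lit 2267955278,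
   nat_lit 3341697102, nat_lit 8, nat_lit 1927962725, nat_lit 24, nat_lit 3866324787585,
   nat_lit 3866324787585, nat_lit 3866324787585, nat_lit 20, nat_lit 580947435901,
   nat_lit 855825342845, nat_lit 8, nat_lit 12, nat_lit 13761929437837, nat_lit 13761929437829,
   nat_lit 24, nat_lit 20, nat_lit 13693209961077, nat_lit 13693209961077,
   nat_lit 62415318966917, nat_lit 62415318966921, nat_lit 17077644190325,
   nat_lit 17077644190325, nat_lit 20, nat_lit 17266622751349, nat_lit 17266622751349,
   nat_lit 17266622751349, nat_lit 17266622751349, nat_lit 20, nat_lit 17266622751349,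
   nat_lit 17266622751349, nat_lit 17266622751349, nat_lit 17266622751349, nat_lit 20,
   nat_lit 17266622751349, nat_lit 17266622751349, nat_lit 20, nat_lit 17266622751349,
   nat_lit 17266622751349, nat_lit 24, nat_lit 15242374249, nat_lit 17077644190325, nat_lit 20,
   nat_lit 17266622751349, nat_lit 17266622751349, nat_lit 17266622751349,
   nat_lit 17266622751349, nat_lit 8044558, nat_lit 0, nat_lit 4, nat_lit 140902462,
   nat_lit 3362127966, nat_lit 4, nat_lit 208011326, nat_lit 3362127954, nat_lit 4, nat_lit 0,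
   nat_lit 210108474, nat_lit 210108462, nat_lit 38289414, nat_lit 617103402, nat_lit 38289414,
   nat_lit 239616034, nat_lit 0, nat_lit 39862278, nat_lit 39862278, nat_lit 210108474,
   nat_lit 210108462, nat_lit 0, nat_lit 174080034, nat_lit 241188898, nat_lit 210108474,
   nat_lit 210108462, nat_lit 0, nat_lit 212205626, nat_lit 212205614, nat_lit 0,
   nat_lit 212205626, nat_lit 212205614]

theorem c1_0 : chk TT UT (gU 1) (sub 0 23) s1_0 = true := by decide +kernel

def s2_0 : List ℕ :=   [nat_lit 0, nat_lit 209847377, nat_lit 548881, nat_lit 0, nat_lit 4, nat_lit 8,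
   nat_lit 178652197, nat_lit 4, nat_lit 8, nat_lit 212485161, nat_lit 11026450,
   nat_lit 136987697, nat_lit 136987693, nat_lit 4, nat_lit 8, nat_lit 42762246,
   nat_lit 684196917, nat_lit 684196921, nat_lit 8, nat_lit 0, nat_lit 709632053, nat_lit 548881,
   nat_lit 42762246, nat_lit 709362741, nat_lit 709362745, nat_lit 8, nat_lit 0,
   nat_lit 239607861, nat_lit 548881, nat_lit 0, nat_lit 709369909, nat_lit 548881,
   nat_lit 44335110, nat_lit 709362741, nat_lit 709362745, nat_lit 0, nat_lit 709369909,
   nat_lit 548881, nat_lit 44335110, nat_lit 245629993, nat_lit 245629993, nat_lit 212075561,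
   nat_lit 0, nat_lit 4, nat_lit 212206633, nat_lit 4, nat_lit 8, nat_lit 212485161,
   nat_lit 11026450, nat_lit 136987697, nat_lit 136987693, nat_lit 4, nat_lit 8,
   nat_lit 212485161, nat_lit 11026450, nat_lit 136987697, nat_lit 136987693, nat_lit 8,
   nat_lit 12, nat_lit 212763689, nat_lit 11288594, nat_lit 137266225, nat_lit 137266221,
   nat_lit 0, nat_lit 4, nat_lit 212206633, nat_lit 10764306, nat_lit 136709169,
   nat_lit 136709165, nat_lit 10502162, nat_lit 4, nat_lit 8, nat_lit 12, nat_lit 751305781,
   nat_lit 751305785, nat_lit 12, nat_lit 751305781, nat_lit 751305785, nat_lit 12,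
   nat_lit 751305781, nat_lit 751305785, nat_lit 780665909, nat_lit 780665913, nat_lit 212337705,
   nat_lit 12, nat_lit 751305785, nat_lit 8, nat_lit 780665913, nat_lit 212337705,
   nat_lit 180503613, nat_lit 4, nat_lit 12, nat_lit 751305785, nat_lit 8, nat_lit 780665913,
   nat_lit 212337705, nat_lit 180503613, nat_lit 0, nat_lit 4, nat_lit 212206633,
   nat_lit 10764306, nat_lit 136709169, nat_lit 136709165, nat_lit 0, nat_lit 4,
   nat_lit 212206633, nat_lit 10764306, nat_lit 136709169, nat_lit 136709165, nat_lit 0,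
   nat_lit 4, nat_lit 212206633, nat_lit 10764306, nat_lit 136709169, nat_lit 136709165,
   nat_lit 0, nat_lit 4, nat_lit 212206633, nat_lit 10764306, nat_lit 136709169,
   nat_lit 136709165, nat_lit 4, nat_lit 8, nat_lit 212485161, nat_lit 11026450,
   nat_lit 136987697, nat_lit 136987693, nat_lit 10764306, nat_lit 8, nat_lit 0, nat_lit 2753553,
   nat_lit 136994865, nat_lit 0, nat_lit 2753553, nat_lit 2753553, nat_lit 136994861, nat_lit 12,
   nat_lit 16, nat_lit 818414645, nat_lit 818414649, nat_lit 16, nat_lit 818414645,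
   nat_lit 818414649, nat_lit 16, nat_lit 818414645, nat_lit 818414649, nat_lit 851969077,
   nat_lit 851969081, nat_lit 212599849, nat_lit 8, nat_lit 0, nat_lit 2753553, nat_lit 16,
   nat_lit 818414649, nat_lit 12, nat_lit 851969081, nat_lit 212599849, nat_lit 184697917,
   nat_lit 12, nat_lit 16, nat_lit 213042217, nat_lit 11550738, nat_lit 137544753,
   nat_lit 137544749, nat_lit 0, nat_lit 8, nat_lit 212468777, nat_lit 11026450,
   nat_lit 136971313, nat_lit 136971309, nat_lit 10502162, nat_lit 8, nat_lit 4,
   nat_lit 136987697, nat_lit 136987697, nat_lit 12, nat_lit 2196398205, nat_lit 4,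
   nat_lit 136987693, nat_lit 136987693, nat_lit 12, nat_lit 2196398201, nat_lit 8, nat_lit 4,
   nat_lit 178652221, nat_lit 178652221, nat_lit 12, nat_lit 20, nat_lit 885523509,
   nat_lit 880985149, nat_lit 16, nat_lit 212861993, nat_lit 16, nat_lit 20, nat_lit 885523509,
   nat_lit 885523513, nat_lit 20, nat_lit 885523509, nat_lit 885523513, nat_lit 20,
   nat_lit 885523509, nat_lit 885523513, nat_lit 923272245, nat_lit 923272249, nat_lit 212861993,
   nat_lit 12, nat_lit 20, nat_lit 885523513, nat_lit 16, nat_lit 923272249, nat_lit 212861993,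
   nat_lit 188892221, nat_lit 0, nat_lit 12, nat_lit 212730921, nat_lit 11288594,
   nat_lit 137233457, nat_lit 137233453, nat_lit 10502162, nat_lit 12, nat_lit 4,
   nat_lit 137249841, nat_lit 137249841, nat_lit 8, nat_lit 2196398213, nat_lit 4,
   nat_lit 137249837, nat_lit 137249837, nat_lit 8, nat_lit 2196398209, nat_lit 12, nat_lit 4,
   nat_lit 182846525, nat_lit 182846525, nat_lit 8, nat_lit 20, nat_lit 885523509,
   nat_lit 880968765, nat_lit 16, nat_lit 212861993, nat_lit 16, nat_lit 20, nat_lit 885523509,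
   nat_lit 885523513, nat_lit 20, nat_lit 885523509, nat_lit 885523513, nat_lit 20,
   nat_lit 885523509, nat_lit 885523513, nat_lit 923272245, nat_lit 923272249, nat_lit 212861993,
   nat_lit 8, nat_lit 20, nat_lit 885523513, nat_lit 16, nat_lit 923272249, nat_lit 212861993,
   nat_lit 188892221, nat_lit 0, nat_lit 4, nat_lit 212206633, nat_lit 10764306,
   nat_lit 136709169, nat_lit 136709165, nat_lit 10502162, nat_lit 4, nat_lit 12, nat_lit 8,
   nat_lit 137266225, nat_lit 137266225, nat_lit 2196398233, nat_lit 12, nat_lit 8,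
   nat_lit 137266225, nat_lit 137266225, nat_lit 20, nat_lit 885523509, nat_lit 880935997,
   nat_lit 16, nat_lit 212861993, nat_lit 8, nat_lit 137266221, nat_lit 137266221, nat_lit 20,
   nat_lit 885523509, nat_lit 880935997, nat_lit 16, nat_lit 212861993, nat_lit 4, nat_lit 12,
   nat_lit 8, nat_lit 183108669, nat_lit 183108669, nat_lit 16, nat_lit 20, nat_lit 885523509,
   nat_lit 885523513, nat_lit 20, nat_lit 885523509, nat_lit 885523513, nat_lit 20,
   nat_lit 885523509, nat_lit 885523513, nat_lit 923272245, nat_lit 923272249, nat_lit 212861993,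
   nat_lit 20, nat_lit 885523513, nat_lit 16, nat_lit 923272249, nat_lit 212861993,
   nat_lit 188908605, nat_lit 0, nat_lit 4, nat_lit 212206633, nat_lit 10764306,
   nat_lit 136709169, nat_lit 136709165, nat_lit 10502162, nat_lit 4, nat_lit 12, nat_lit 8,
   nat_lit 137266225, nat_lit 137266225, nat_lit 2196398233, nat_lit 12, nat_lit 8,
   nat_lit 137266225, nat_lit 137266225, nat_lit 20, nat_lit 885523509, nat_lit 880985149,
   nat_lit 16, nat_lit 212861993, nat_lit 8, nat_lit 137266221, nat_lit 137266221, nat_lit 16,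
   nat_lit 20, nat_lit 885523509, nat_lit 885523513, nat_lit 20, nat_lit 885523509,
   nat_lit 885523513, nat_lit 20, nat_lit 885523509, nat_lit 885523513, nat_lit 923272245,
   nat_lit 923272249, nat_lit 212861993, nat_lit 4, nat_lit 12, nat_lit 20, nat_lit 885523513,
   nat_lit 16, nat_lit 258999337, nat_lit 258999337, nat_lit 188875837, nat_lit 0, nat_lit 4,
   nat_lit 212206633, nat_lit 10764306, nat_lit 136709169, nat_lit 136709165, nat_lit 10502162,
   nat_lit 4, nat_lit 8, nat_lit 12, nat_lit 2196398269, nat_lit 8, nat_lit 20,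
   nat_lit 885523509, nat_lit 880968765, nat_lit 16, nat_lit 212861993, nat_lit 12, nat_lit 16,
   nat_lit 20, nat_lit 885523509, nat_lit 885523513, nat_lit 20, nat_lit 885523509,
   nat_lit 885523513, nat_lit 20, nat_lit 885523509, nat_lit 885523513, nat_lit 923272245,
   nat_lit 923272249, nat_lit 212861993, nat_lit 4, nat_lit 8, nat_lit 12, nat_lit 20,
   nat_lit 885523513, nat_lit 16, nat_lit 923272249, nat_lit 212861993, nat_lit 188875837,
   nat_lit 0, nat_lit 16, nat_lit 212993065, nat_lit 11550738, nat_lit 137495601,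
   nat_lit 137495597, nat_lit 10502162, nat_lit 16, nat_lit 4, nat_lit 137511985,
   nat_lit 137511985, nat_lit 8, nat_lit 2200592517, nat_lit 4, nat_lit 137511981,
   nat_lit 137511981, nat_lit 8, nat_lit 2200592513, nat_lit 16, nat_lit 4, nat_lit 187040829,
   nat_lit 187040829, nat_lit 12, nat_lit 187565117, nat_lit 187565117, nat_lit 8,
   nat_lit 3001704549, nat_lit 24, nat_lit 952632373, nat_lit 948061245, nat_lit 20,
   nat_lit 213124137, nat_lit 8, nat_lit 12, nat_lit 137544749, nat_lit 137544749, nat_lit 20,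
   nat_lit 24, nat_lit 952632373, nat_lit 952632377, nat_lit 24, nat_lit 952632373,
   nat_lit 952632377, nat_lit 24, nat_lit 952632373, nat_lit 952632377, nat_lit 994575413,
   nat_lit 994575417, nat_lit 213124137, nat_lit 24, nat_lit 952632377, nat_lit 20,
   nat_lit 994575417, nat_lit 213124137, nat_lit 193119293, nat_lit 0, nat_lit 4,
   nat_lit 10764306, nat_lit 136709169, nat_lit 136709165, nat_lit 0, nat_lit 4,
   nat_lit 38567942, nat_lit 617088053, nat_lit 617088057, nat_lit 4, nat_lit 38567942,
   nat_lit 638059573, nat_lit 638059577, nat_lit 4, nat_lit 39878662, nat_lit 638059573,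
   nat_lit 638059577, nat_lit 39878662, nat_lit 241173545, nat_lit 241173545, nat_lit 211813417]

theorem c2_0 : chk TT UT (gU 2) (sub 0 23) s2_0 = true := by decide +kernel

def s3_0 : List ℕ :=   [nat_lit 0, nat_lit 209739837, nat_lit 0, nat_lit 4, nat_lit 8, nat_lit 3399877725,
   nat_lit 210108478, nat_lit 4, nat_lit 8, nat_lit 3358213221, nat_lit 178536486,
   nat_lit 212484158, nat_lit 3399761998, nat_lit 210124862, nat_lit 0, nat_lit 209739837,
   nat_lit 4, nat_lit 8, nat_lit 684204085, nat_lit 684204085, nat_lit 684204089, nat_lit 8,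
   nat_lit 709369909, nat_lit 709369909, nat_lit 709369913, nat_lit 8, nat_lit 709369909,
   nat_lit 709369909, nat_lit 709369913, nat_lit 245637161, nat_lit 245637161, nat_lit 245637161,
   nat_lit 212082729, nat_lit 8781842, nat_lit 8, nat_lit 683696165, nat_lit 42336274,
   nat_lit 11141130, nat_lit 0, nat_lit 4, nat_lit 3357934693, nat_lit 210108478, nat_lit 4,
   nat_lit 8, nat_lit 3358213221, nat_lit 178536486, nat_lit 212484158, nat_lit 3399761998,
   nat_lit 210124862, nat_lit 4, nat_lit 8, nat_lit 3358213221, nat_lit 178536486,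
   nat_lit 212484158, nat_lit 3399761998, nat_lit 210124862, nat_lit 8, nat_lit 12,
   nat_lit 3358491749, nat_lit 182992934, nat_lit 212762686, nat_lit 3404218446,
   nat_lit 210141246, nat_lit 8, nat_lit 12, nat_lit 46956550, nat_lit 46956550,
   nat_lit 751321142, nat_lit 12, nat_lit 0, nat_lit 4, nat_lit 12494987433, nat_lit 210108478,
   nat_lit 46956550, nat_lit 46956550, nat_lit 751321142, nat_lit 12, nat_lit 0, nat_lit 4,
   nat_lit 3900858537, nat_lit 210108478, nat_lit 0, nat_lit 4, nat_lit 12490793129,
   nat_lit 210108478, nat_lit 48791558, nat_lit 48791558, nat_lit 753434666, nat_lit 0,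
   nat_lit 4, nat_lit 12490793129, nat_lit 746979390, nat_lit 48791558, nat_lit 48791558,
   nat_lit 250101790, nat_lit 212353054, nat_lit 0, nat_lit 4, nat_lit 3357934693,
   nat_lit 174080038, nat_lit 212205630, nat_lit 3395305550, nat_lit 210108478, nat_lit 0,
   nat_lit 4, nat_lit 3357934693, nat_lit 174080038, nat_lit 212205630, nat_lit 3395305550,
   nat_lit 210108478, nat_lit 0, nat_lit 4, nat_lit 3357934693, nat_lit 174080038,
   nat_lit 212205630, nat_lit 3395305550, nat_lit 210108478, nat_lit 0, nat_lit 4,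
   nat_lit 3357934693, nat_lit 174080038, nat_lit 212205630, nat_lit 3395305550,
   nat_lit 210108478, nat_lit 0, nat_lit 209739837, nat_lit 4, nat_lit 8, nat_lit 136994865,
   nat_lit 136994865, nat_lit 136994861, nat_lit 10878994, nat_lit 134635569, nat_lit 134635569,
   nat_lit 8781842, nat_lit 8, nat_lit 12, nat_lit 16, nat_lit 51150854, nat_lit 209516519773,
   nat_lit 209516519777, nat_lit 16, nat_lit 4, nat_lit 218173694301, nat_lit 176578601,
   nat_lit 51150854, nat_lit 218106454365, nat_lit 218106454369, nat_lit 16, nat_lit 4,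
   nat_lit 63487762781, nat_lit 176578601, nat_lit 4, nat_lit 218106585437, nat_lit 176578601,
   nat_lit 53248006, nat_lit 218106454365, nat_lit 218106454369, nat_lit 4, nat_lit 218106585437,
   nat_lit 176578601, nat_lit 53248006, nat_lit 65165353293, nat_lit 65165353293,
   nat_lit 54427935053, nat_lit 4, nat_lit 3355878585, nat_lit 12, nat_lit 16,
   nat_lit 13019555001, nat_lit 13094642857, nat_lit 13094642861, nat_lit 16,
   nat_lit 13019555001, nat_lit 13094642857, nat_lit 13094642861, nat_lit 16,
   nat_lit 13019555001, nat_lit 13094642857, nat_lit 13094642861, nat_lit 13019555001,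
   nat_lit 13631513769, nat_lit 13631513773, nat_lit 3401606261, nat_lit 2259025986, nat_lit 16,
   nat_lit 13094642777, nat_lit 12996444226, nat_lit 11681806, nat_lit 12, nat_lit 16,
   nat_lit 3358770277, nat_lit 187449382, nat_lit 213041214, nat_lit 3408674894,
   nat_lit 210157630, nat_lit 16, nat_lit 20, nat_lit 55345158, nat_lit 55345158,
   nat_lit 885538870, nat_lit 20, nat_lit 4, nat_lit 8, nat_lit 3358213221, nat_lit 178536486,
   nat_lit 212484158, nat_lit 3399761998, nat_lit 210124862, nat_lit 55345158, nat_lit 55345158,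
   nat_lit 885538870, nat_lit 20, nat_lit 4, nat_lit 8, nat_lit 178536486, nat_lit 212484158,
   nat_lit 3399761998, nat_lit 210124862, nat_lit 4, nat_lit 8, nat_lit 14210999501,
   nat_lit 178536486, nat_lit 212484158, nat_lit 3399761998, nat_lit 210124862, nat_lit 57704454,
   nat_lit 57704454, nat_lit 888176682, nat_lit 4, nat_lit 8, nat_lit 4102202577,
   nat_lit 178536486, nat_lit 883572798, nat_lit 14137180238, nat_lit 881213502,
   nat_lit 57704454, nat_lit 57704454, nat_lit 259014686, nat_lit 212877342, nat_lit 16,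
   nat_lit 20, nat_lit 55345158, nat_lit 55345158, nat_lit 885538870, nat_lit 20, nat_lit 4,
   nat_lit 8, nat_lit 3358213221, nat_lit 178536486, nat_lit 212484158, nat_lit 3399761998,
   nat_lit 210124862, nat_lit 55345158, nat_lit 55345158, nat_lit 885538870, nat_lit 20,
   nat_lit 4, nat_lit 8, nat_lit 178536486, nat_lit 212484158, nat_lit 3399761998,
   nat_lit 210124862, nat_lit 4, nat_lit 8, nat_lit 14210999501, nat_lit 178536486,
   nat_lit 212484158, nat_lit 3399761998, nat_lit 210124862, nat_lit 57704454, nat_lit 57704454,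
   nat_lit 888176682, nat_lit 4, nat_lit 8, nat_lit 4102202577, nat_lit 178536486,
   nat_lit 883572798, nat_lit 14137180238, nat_lit 881213502, nat_lit 57704454, nat_lit 57704454,
   nat_lit 259014686, nat_lit 212877342, nat_lit 16, nat_lit 20, nat_lit 55345158,
   nat_lit 55345158, nat_lit 885538870, nat_lit 20, nat_lit 8, nat_lit 12, nat_lit 3358491749,
   nat_lit 182992934, nat_lit 212762686, nat_lit 3404218446, nat_lit 210141246, nat_lit 55345158,
   nat_lit 55345158, nat_lit 885538870, nat_lit 20, nat_lit 8, nat_lit 12, nat_lit 182992934,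
   nat_lit 212762686, nat_lit 3404218446, nat_lit 210141246, nat_lit 8, nat_lit 12,
   nat_lit 14211016909, nat_lit 182992934, nat_lit 212762686, nat_lit 3404218446,
   nat_lit 210141246, nat_lit 57704454, nat_lit 57704454, nat_lit 888176682, nat_lit 8,
   nat_lit 12, nat_lit 4102219985, nat_lit 182992934, nat_lit 883851326, nat_lit 14141636686,
   nat_lit 881229886, nat_lit 57704454, nat_lit 57704454, nat_lit 259014686, nat_lit 212877342,
   nat_lit 16, nat_lit 20, nat_lit 55345158, nat_lit 55345158, nat_lit 885538870, nat_lit 20,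
   nat_lit 0, nat_lit 4, nat_lit 3357934693, nat_lit 174080038, nat_lit 212205630,
   nat_lit 3395305550, nat_lit 210108478, nat_lit 55345158, nat_lit 55345158, nat_lit 885538870,
   nat_lit 20, nat_lit 0, nat_lit 4, nat_lit 174080038, nat_lit 212205630, nat_lit 3395305550,
   nat_lit 210108478, nat_lit 0, nat_lit 4, nat_lit 14210982093, nat_lit 174080038,
   nat_lit 212205630, nat_lit 3395305550, nat_lit 210108478, nat_lit 57704454, nat_lit 57704454,
   nat_lit 888176682, nat_lit 0, nat_lit 4, nat_lit 4102185169, nat_lit 174080038,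
   nat_lit 883294270, nat_lit 14132723790, nat_lit 881197118, nat_lit 57704454, nat_lit 57704454,
   nat_lit 259014686, nat_lit 212877342, nat_lit 16, nat_lit 20, nat_lit 55345158,
   nat_lit 55345158, nat_lit 885538870, nat_lit 20, nat_lit 0, nat_lit 4, nat_lit 3357934693,
   nat_lit 174080038, nat_lit 212205630, nat_lit 3395305550, nat_lit 210108478, nat_lit 55345158,
   nat_lit 55345158, nat_lit 885538870, nat_lit 20, nat_lit 0, nat_lit 4, nat_lit 174080038,
   nat_lit 212205630, nat_lit 3395305550, nat_lit 210108478, nat_lit 0, nat_lit 4,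
   nat_lit 14210982093, nat_lit 174080038, nat_lit 212205630, nat_lit 3395305550,
   nat_lit 210108478, nat_lit 57704454, nat_lit 57704454, nat_lit 888176682, nat_lit 0,
   nat_lit 4, nat_lit 4102185169, nat_lit 174080038, nat_lit 883294270, nat_lit 14132723790,
   nat_lit 881197118, nat_lit 57704454, nat_lit 57704454, nat_lit 259014686, nat_lit 212877342,
   nat_lit 20, nat_lit 24, nat_lit 59539462, nat_lit 59539462, nat_lit 952647734, nat_lit 24,
   nat_lit 12, nat_lit 16, nat_lit 3358770277, nat_lit 187449382, nat_lit 213041214,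
   nat_lit 3408674894, nat_lit 210157630, nat_lit 59539462, nat_lit 59539462, nat_lit 952647734,
   nat_lit 24, nat_lit 12, nat_lit 16, nat_lit 187449382, nat_lit 213041214, nat_lit 3408674894,
   nat_lit 210157630, nat_lit 12, nat_lit 16, nat_lit 15288970445, nat_lit 187449382,
   nat_lit 213041214, nat_lit 3408674894, nat_lit 210157630, nat_lit 62160902, nat_lit 62160902,
   nat_lit 955547690, nat_lit 12, nat_lit 16, nat_lit 4169346257, nat_lit 187449382,
   nat_lit 951238718, nat_lit 15219834958, nat_lit 948355134, nat_lit 62160902, nat_lit 62160902,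
   nat_lit 263471134, nat_lit 213139486, nat_lit 0, nat_lit 4, nat_lit 174080038,
   nat_lit 212205630, nat_lit 3395305550, nat_lit 210108478, nat_lit 0, nat_lit 4,
   nat_lit 38567942, nat_lit 38567942, nat_lit 617103414, nat_lit 4, nat_lit 38567942,
   nat_lit 38567942, nat_lit 617103414, nat_lit 4, nat_lit 39878662, nat_lit 39878662,
   nat_lit 618692650, nat_lit 39878662, nat_lit 39878662, nat_lit 241188894, nat_lit 211828766]

theorem c3_0 : chk TT UT (gU 3) (sub 0 23) s3_0 = true := by decide +kernel

def s4_0 : List ℕ :=   [nat_lit 0, nat_lit 201983053, nat_lit 811025, nat_lit 0, nat_lit 4, nat_lit 8,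
   nat_lit 245662757, nat_lit 4, nat_lit 8, nat_lit 245761061, nat_lit 4, nat_lit 8,
   nat_lit 245761061, nat_lit 8, nat_lit 245761061, nat_lit 245761061, nat_lit 4, nat_lit 8,
   nat_lit 15220754, nat_lit 203981873, nat_lit 203981869, nat_lit 8, nat_lit 245662757,
   nat_lit 15220754, nat_lit 204096561, nat_lit 204096557, nat_lit 8, nat_lit 0,
   nat_lit 202006577, nat_lit 811025, nat_lit 0, nat_lit 204103729, nat_lit 811025,
   nat_lit 15220754, nat_lit 204096561, nat_lit 204096557, nat_lit 0, nat_lit 204103729,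
   nat_lit 811025, nat_lit 15220754, nat_lit 212485177, nat_lit 212485173, nat_lit 4, nat_lit 8,
   nat_lit 0, nat_lit 709632053, nat_lit 811025, nat_lit 44351494, nat_lit 709657645,
   nat_lit 709657649, nat_lit 239109157, nat_lit 8, nat_lit 0, nat_lit 4, nat_lit 686162985,
   nat_lit 4, nat_lit 686162985, nat_lit 686162985, nat_lit 243303461, nat_lit 4, nat_lit 8,
   nat_lit 15220754, nat_lit 203981873, nat_lit 203981869, nat_lit 8, nat_lit 245662757,
   nat_lit 15220754, nat_lit 204096561, nat_lit 204096557, nat_lit 0, nat_lit 12,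
   nat_lit 249955365, nat_lit 249955365, nat_lit 212206629, nat_lit 8, nat_lit 203981873,
   nat_lit 203981869, nat_lit 212485177, nat_lit 212485173, nat_lit 8, nat_lit 245761085,
   nat_lit 245761085, nat_lit 4, nat_lit 8, nat_lit 15220754, nat_lit 203981873,
   nat_lit 203981869, nat_lit 8, nat_lit 245662757, nat_lit 15220754, nat_lit 204096561,
   nat_lit 204096557, nat_lit 0, nat_lit 8, nat_lit 245761061, nat_lit 245761061,
   nat_lit 212206629, nat_lit 12, nat_lit 204244017, nat_lit 204244013, nat_lit 212747321,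
   nat_lit 212747317, nat_lit 12, nat_lit 249955389, nat_lit 249955389, nat_lit 8, nat_lit 12,
   nat_lit 15482898, nat_lit 204244017, nat_lit 204244013, nat_lit 12, nat_lit 250119205,
   nat_lit 15482898, nat_lit 204375089, nat_lit 204375085, nat_lit 0, nat_lit 4, nat_lit 12,
   nat_lit 250233893, nat_lit 250233893, nat_lit 212485157, nat_lit 245761073, nat_lit 245761069,
   nat_lit 212468773, nat_lit 12, nat_lit 204244017, nat_lit 204244013, nat_lit 212763705,
   nat_lit 212763701, nat_lit 12, nat_lit 250217533, nat_lit 250217533, nat_lit 8, nat_lit 12,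
   nat_lit 0, nat_lit 4, nat_lit 753271849, nat_lit 4, nat_lit 753271849, nat_lit 753271849,
   nat_lit 48807942, nat_lit 780960813, nat_lit 780960817, nat_lit 243303461, nat_lit 0,
   nat_lit 4, nat_lit 14958610, nat_lit 203719729, nat_lit 203719725, nat_lit 4,
   nat_lit 241206309, nat_lit 14958610, nat_lit 203818033, nat_lit 203818029, nat_lit 4,
   nat_lit 8, nat_lit 12, nat_lit 250119205, nat_lit 8, nat_lit 12, nat_lit 250233893,
   nat_lit 14958610, nat_lit 203818033, nat_lit 203818029, nat_lit 8, nat_lit 12,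
   nat_lit 250233893, nat_lit 12, nat_lit 250233893, nat_lit 250233893, nat_lit 14958610,
   nat_lit 212206649, nat_lit 212206645, nat_lit 0, nat_lit 4, nat_lit 14958610,
   nat_lit 203719729, nat_lit 203719725, nat_lit 4, nat_lit 241206309, nat_lit 14958610,
   nat_lit 203818033, nat_lit 203818029, nat_lit 4, nat_lit 8, nat_lit 12, nat_lit 753533993,
   nat_lit 250119205, nat_lit 8, nat_lit 12, nat_lit 753533993, nat_lit 250233893,
   nat_lit 14958610, nat_lit 203818033, nat_lit 203818029, nat_lit 12, nat_lit 8,
   nat_lit 753533993, nat_lit 753533993, nat_lit 247612453, nat_lit 14958610, nat_lit 212206649,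
   nat_lit 212206645, nat_lit 0, nat_lit 4, nat_lit 14958610, nat_lit 203719729,
   nat_lit 203719725, nat_lit 4, nat_lit 241206309, nat_lit 14958610, nat_lit 203818033,
   nat_lit 203818029, nat_lit 4, nat_lit 8, nat_lit 12, nat_lit 751436841, nat_lit 781059125,
   nat_lit 781059129, nat_lit 243303461, nat_lit 8, nat_lit 12, nat_lit 753271849,
   nat_lit 753271849, nat_lit 781075501, nat_lit 781075505, nat_lit 243418149, nat_lit 14958610,
   nat_lit 203818033, nat_lit 203818029, nat_lit 8, nat_lit 12, nat_lit 753271849,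
   nat_lit 753271849, nat_lit 781075501, nat_lit 781075505, nat_lit 243418149, nat_lit 14958610,
   nat_lit 212206649, nat_lit 212206645, nat_lit 0, nat_lit 4, nat_lit 14958610,
   nat_lit 203719729, nat_lit 203719725, nat_lit 4, nat_lit 241206309, nat_lit 14958610,
   nat_lit 203818033, nat_lit 203818029, nat_lit 4, nat_lit 8, nat_lit 15220754,
   nat_lit 204080177, nat_lit 204080173, nat_lit 8, nat_lit 245662757, nat_lit 15220754,
   nat_lit 204096561, nat_lit 204096557, nat_lit 14958610, nat_lit 203818033, nat_lit 203818029,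
   nat_lit 8, nat_lit 12, nat_lit 753271849, nat_lit 247497765, nat_lit 12, nat_lit 753271849,
   nat_lit 247628837, nat_lit 15220754, nat_lit 204096561, nat_lit 204096557, nat_lit 12,
   nat_lit 753271849, nat_lit 247628837, nat_lit 15220754, nat_lit 178652201, nat_lit 178652201,
   nat_lit 14958610, nat_lit 212206649, nat_lit 212206645, nat_lit 12, nat_lit 16, nat_lit 4,
   nat_lit 8, nat_lit 245662757, nat_lit 15220754, nat_lit 204096561, nat_lit 204096557,
   nat_lit 8, nat_lit 0, nat_lit 202006577, nat_lit 811025, nat_lit 0, nat_lit 204103729,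
   nat_lit 811025, nat_lit 15220754, nat_lit 204096561, nat_lit 203981869, nat_lit 0,
   nat_lit 204103729, nat_lit 811025, nat_lit 15220754, nat_lit 212485177, nat_lit 212485173,
   nat_lit 53264390, nat_lit 852263981, nat_lit 852263985, nat_lit 247497765, nat_lit 12,
   nat_lit 16, nat_lit 15745042, nat_lit 204506161, nat_lit 204506157, nat_lit 16,
   nat_lit 254575653, nat_lit 15745042, nat_lit 204653617, nat_lit 204653613, nat_lit 0,
   nat_lit 4, nat_lit 8, nat_lit 245761061, nat_lit 212730917, nat_lit 16, nat_lit 204506161,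
   nat_lit 204506157, nat_lit 213042233, nat_lit 213042229, nat_lit 16, nat_lit 254673981,
   nat_lit 254673981, nat_lit 16, nat_lit 20, nat_lit 4, nat_lit 8, nat_lit 245662757,
   nat_lit 15220754, nat_lit 204096561, nat_lit 204096557, nat_lit 0, nat_lit 12,
   nat_lit 249955365, nat_lit 249955365, nat_lit 212206629, nat_lit 8, nat_lit 203981873,
   nat_lit 203981869, nat_lit 212485177, nat_lit 212485173, nat_lit 8, nat_lit 245761085,
   nat_lit 245761085, nat_lit 57720838, nat_lit 923567149, nat_lit 923567153, nat_lit 251692069,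
   nat_lit 16, nat_lit 20, nat_lit 4, nat_lit 8, nat_lit 245662757, nat_lit 15220754,
   nat_lit 204096561, nat_lit 204096557, nat_lit 0, nat_lit 8, nat_lit 245761061,
   nat_lit 245761061, nat_lit 212206629, nat_lit 12, nat_lit 204244017, nat_lit 204244013,
   nat_lit 212747321, nat_lit 212747317, nat_lit 12, nat_lit 249955389, nat_lit 249955389,
   nat_lit 57720838, nat_lit 923567149, nat_lit 923567153, nat_lit 251692069, nat_lit 16,
   nat_lit 20, nat_lit 8, nat_lit 12, nat_lit 250119205, nat_lit 15482898, nat_lit 204375089,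
   nat_lit 204375085, nat_lit 0, nat_lit 4, nat_lit 12, nat_lit 250233893, nat_lit 250233893,
   nat_lit 212485157, nat_lit 245761073, nat_lit 245761069, nat_lit 212468773, nat_lit 12,
   nat_lit 204244017, nat_lit 204244013, nat_lit 212763705, nat_lit 212763701, nat_lit 12,
   nat_lit 250217533, nat_lit 250217533, nat_lit 57720838, nat_lit 923567149, nat_lit 923567153,
   nat_lit 251692069, nat_lit 16, nat_lit 20, nat_lit 0, nat_lit 4, nat_lit 241206309,
   nat_lit 14958610, nat_lit 203818033, nat_lit 203818029, nat_lit 8, nat_lit 12,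
   nat_lit 250119205, nat_lit 15482898, nat_lit 204375089, nat_lit 204244013, nat_lit 4,
   nat_lit 12, nat_lit 250233893, nat_lit 250233893, nat_lit 212485157, nat_lit 203818033,
   nat_lit 245761069, nat_lit 57720838, nat_lit 923567149, nat_lit 923567153, nat_lit 251692069,
   nat_lit 16, nat_lit 20, nat_lit 0, nat_lit 4, nat_lit 241206309, nat_lit 14958610,
   nat_lit 203818033, nat_lit 203818029, nat_lit 4, nat_lit 8, nat_lit 12, nat_lit 250119205,
   nat_lit 8, nat_lit 12, nat_lit 250233893, nat_lit 14958610, nat_lit 203818033,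
   nat_lit 203719725, nat_lit 8, nat_lit 12, nat_lit 250233893, nat_lit 12, nat_lit 250233893,
   nat_lit 250233893, nat_lit 14958610, nat_lit 212206649, nat_lit 212206645, nat_lit 57720838,
   nat_lit 923567149, nat_lit 923567153, nat_lit 251692069, nat_lit 20, nat_lit 24, nat_lit 12,
   nat_lit 16, nat_lit 254575653, nat_lit 15745042, nat_lit 204653617, nat_lit 204653613,
   nat_lit 0, nat_lit 4, nat_lit 8, nat_lit 245761061, nat_lit 212730917, nat_lit 16,
   nat_lit 204506161, nat_lit 204506157, nat_lit 213042233, nat_lit 213042229, nat_lit 16,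
   nat_lit 254673981, nat_lit 254673981, nat_lit 62177286, nat_lit 994870317, nat_lit 994870321,
   nat_lit 255886373, nat_lit 4, nat_lit 14958610, nat_lit 203719729, nat_lit 203719725,
   nat_lit 14958610, nat_lit 0, nat_lit 212206649, nat_lit 0, nat_lit 212206645, nat_lit 0,
   nat_lit 4, nat_lit 39895046, nat_lit 638354477, nat_lit 638354481, nat_lit 234914853]

theorem c4_0 : chk TT UT (gU 4) (sub 0 23) s4_0 = true := by decide +kernel

def s5_0 : List ℕ :=   [nat_lit 0, nat_lit 794633, nat_lit 811017, nat_lit 201875525, nat_lit 0, nat_lit 4, nat_lit 8,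
   nat_lit 15352861, nat_lit 12756001, nat_lit 3265561849, nat_lit 12731425, nat_lit 8,
   nat_lit 3265561853, nat_lit 4, nat_lit 8, nat_lit 15352861, nat_lit 8, nat_lit 15352861,
   nat_lit 15352861, nat_lit 4, nat_lit 8, nat_lit 15360029, nat_lit 12715041, nat_lit 4,
   nat_lit 8, nat_lit 15352861, nat_lit 12756001, nat_lit 3265660153, nat_lit 12731425,
   nat_lit 8, nat_lit 3265660157, nat_lit 4, nat_lit 8, nat_lit 15360029, nat_lit 8,
   nat_lit 15360029, nat_lit 15360029, nat_lit 12715041, nat_lit 4, nat_lit 8, nat_lit 15352861,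
   nat_lit 12756001, nat_lit 3265660153, nat_lit 12731425, nat_lit 8, nat_lit 3265660157,
   nat_lit 8, nat_lit 15352861, nat_lit 12756001, nat_lit 3263848673, nat_lit 15352861,
   nat_lit 12747809, nat_lit 3399877893, nat_lit 12731425, nat_lit 8, nat_lit 3265660157,
   nat_lit 3265660157, nat_lit 12607521, nat_lit 4, nat_lit 8, nat_lit 15228957,
   nat_lit 15228957, nat_lit 8, nat_lit 15360029, nat_lit 15360029, nat_lit 14966813, nat_lit 8,
   nat_lit 15360029, nat_lit 15360029, nat_lit 15360029, nat_lit 15360029, nat_lit 14966813,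
   nat_lit 13000733, nat_lit 8, nat_lit 15360029, nat_lit 15360029, nat_lit 15360029, nat_lit 4,
   nat_lit 8, nat_lit 12747809, nat_lit 3263717601, nat_lit 12747809, nat_lit 3232260325,
   nat_lit 8, nat_lit 15352861, nat_lit 12756001, nat_lit 3265561849, nat_lit 12731425,
   nat_lit 3259523297, nat_lit 8, nat_lit 15352861, nat_lit 12756001, nat_lit 3263848673,
   nat_lit 15352861, nat_lit 12756001, nat_lit 3232391397, nat_lit 12731425, nat_lit 3231998181,
   nat_lit 12608545, nat_lit 8, nat_lit 12756001, nat_lit 3263848673, nat_lit 12756001,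
   nat_lit 3232391397, nat_lit 13018145, nat_lit 3232391397, nat_lit 8, nat_lit 3263717601,
   nat_lit 3232260325, nat_lit 51680796997, nat_lit 0, nat_lit 794633, nat_lit 811017,
   nat_lit 201875525, nat_lit 8, nat_lit 203972677, nat_lit 203972677, nat_lit 4,
   nat_lit 204103749, nat_lit 208298053, nat_lit 3230049521, nat_lit 0, nat_lit 794633,
   nat_lit 811017, nat_lit 201875525, nat_lit 8, nat_lit 4, nat_lit 245637193, nat_lit 245653577,
   nat_lit 708878373, nat_lit 8, nat_lit 15205405, nat_lit 0, nat_lit 4, nat_lit 12731425,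
   nat_lit 12731425, nat_lit 4, nat_lit 15074333, nat_lit 12738593, nat_lit 12715041, nat_lit 4,
   nat_lit 15074333, nat_lit 12738593, nat_lit 15074333, nat_lit 12738593, nat_lit 12715041,
   nat_lit 12607521, nat_lit 4, nat_lit 12738593, nat_lit 12738593, nat_lit 13000737, nat_lit 0,
   nat_lit 4, nat_lit 12731425, nat_lit 3894707457, nat_lit 12731425, nat_lit 3892987149,
   nat_lit 4, nat_lit 15074333, nat_lit 12738593, nat_lit 3894707457, nat_lit 12715041,
   nat_lit 3894445313, nat_lit 4, nat_lit 15074333, nat_lit 12738593, nat_lit 3894714625,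
   nat_lit 15074333, nat_lit 12738593, nat_lit 3892994317, nat_lit 12715041, nat_lit 3892970765,
   nat_lit 12607521, nat_lit 4, nat_lit 12738593, nat_lit 3894714625, nat_lit 12738593,
   nat_lit 3892994317, nat_lit 13000737, nat_lit 3892994317, nat_lit 4, nat_lit 3894707457,
   nat_lit 3892987149, nat_lit 10746224805, nat_lit 4, nat_lit 8, nat_lit 15220758, nat_lit 0,
   nat_lit 12, nat_lit 15491101, nat_lit 15491101, nat_lit 12, nat_lit 12764193,
   nat_lit 3267911905, nat_lit 12764193, nat_lit 3232522469, nat_lit 8, nat_lit 3263717605,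
   nat_lit 3232260321, nat_lit 8, nat_lit 15352861, nat_lit 12756001, nat_lit 3265561849,
   nat_lit 15220758, nat_lit 12731425, nat_lit 8, nat_lit 3265561853, nat_lit 15220758,
   nat_lit 8, nat_lit 12, nat_lit 15615005, nat_lit 12772385, nat_lit 0, nat_lit 3268042977,
   nat_lit 3268042977, nat_lit 15352861, nat_lit 12756001, nat_lit 12, nat_lit 15615005,
   nat_lit 12772385, nat_lit 0, nat_lit 3270140129, nat_lit 3270140129, nat_lit 15220758,
   nat_lit 15352861, nat_lit 12756001, nat_lit 12, nat_lit 15615005, nat_lit 12772385, nat_lit 0,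
   nat_lit 3270140129, nat_lit 3270140129, nat_lit 15615005, nat_lit 12772385, nat_lit 0,
   nat_lit 2930115797, nat_lit 3270140129, nat_lit 15220758, nat_lit 12731425, nat_lit 0,
   nat_lit 12, nat_lit 3269854461, nat_lit 3269854461, nat_lit 3232105725, nat_lit 3231998181,
   nat_lit 8, nat_lit 3265552613, nat_lit 3265552613, nat_lit 12608545, nat_lit 0, nat_lit 12,
   nat_lit 15622173, nat_lit 15622173, nat_lit 15622173, nat_lit 12, nat_lit 12772385,
   nat_lit 3268042977, nat_lit 12772385, nat_lit 3232653541, nat_lit 13034529,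
   nat_lit 3232653541, nat_lit 8, nat_lit 3263848677, nat_lit 3232391393, nat_lit 3232391393,
   nat_lit 0, nat_lit 12, nat_lit 3267911905, nat_lit 3232522469, nat_lit 51681059141, nat_lit 8,
   nat_lit 3263717605, nat_lit 3232260321, nat_lit 3230049521, nat_lit 4, nat_lit 8,
   nat_lit 15220758, nat_lit 0, nat_lit 8, nat_lit 15228957, nat_lit 15228957, nat_lit 8,
   nat_lit 12747809, nat_lit 3263717601, nat_lit 12747809, nat_lit 3232260325, nat_lit 12,
   nat_lit 3267911909, nat_lit 3232522465, nat_lit 8, nat_lit 15352861, nat_lit 12756001,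
   nat_lit 3265561849, nat_lit 15220758, nat_lit 12731425, nat_lit 8, nat_lit 3265561853,
   nat_lit 15220758, nat_lit 8, nat_lit 12, nat_lit 15482902, nat_lit 15352861, nat_lit 12756001,
   nat_lit 12, nat_lit 3270026493, nat_lit 15482902, nat_lit 15220758, nat_lit 15352861,
   nat_lit 12756001, nat_lit 0, nat_lit 3399877893, nat_lit 3265660153, nat_lit 3232391397,
   nat_lit 12, nat_lit 3270140133, nat_lit 3270140133, nat_lit 15220758, nat_lit 12731425,
   nat_lit 0, nat_lit 8, nat_lit 3265660157, nat_lit 3265660157, nat_lit 3232105725,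
   nat_lit 3231998181, nat_lit 12, nat_lit 3269746917, nat_lit 3269746917, nat_lit 12608545,
   nat_lit 0, nat_lit 8, nat_lit 15360029, nat_lit 15360029, nat_lit 15360029, nat_lit 8,
   nat_lit 12756001, nat_lit 3263848673, nat_lit 12756001, nat_lit 3232391397, nat_lit 13018145,
   nat_lit 3232391397, nat_lit 12, nat_lit 3268042981, nat_lit 3232653537, nat_lit 3232653537,
   nat_lit 0, nat_lit 8, nat_lit 3263717601, nat_lit 3232260325, nat_lit 51680796997, nat_lit 12,
   nat_lit 3267911909, nat_lit 3232522465, nat_lit 3230065905, nat_lit 8, nat_lit 12,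
   nat_lit 15482902, nat_lit 0, nat_lit 4, nat_lit 13000737, nat_lit 12, nat_lit 12771361,
   nat_lit 3267780857, nat_lit 12764193, nat_lit 3401998597, nat_lit 3230032121, nat_lit 4,
   nat_lit 12, nat_lit 3267780849, nat_lit 3267780849, nat_lit 3230032113, nat_lit 12,
   nat_lit 3267911909, nat_lit 3232522465, nat_lit 12, nat_lit 15631389, nat_lit 12773409,
   nat_lit 3270018297, nat_lit 15482902, nat_lit 12747809, nat_lit 12, nat_lit 3270018301,
   nat_lit 15482902, nat_lit 12, nat_lit 4, nat_lit 3232384249, nat_lit 0, nat_lit 15228961,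
   nat_lit 3232391417, nat_lit 3232391409, nat_lit 15631389, nat_lit 12773409, nat_lit 4,
   nat_lit 3268060385, nat_lit 3270132985, nat_lit 3268060385, nat_lit 0, nat_lit 15228961,
   nat_lit 3270140153, nat_lit 3270140145, nat_lit 15482902, nat_lit 15631389, nat_lit 12773409,
   nat_lit 4, nat_lit 3404350725, nat_lit 3270132985, nat_lit 3232670949, nat_lit 0,
   nat_lit 15228961, nat_lit 3270140153, nat_lit 3270140145, nat_lit 15482902, nat_lit 12747809,
   nat_lit 0, nat_lit 4, nat_lit 12, nat_lit 3270132989, nat_lit 3270132989, nat_lit 3232384253,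
   nat_lit 3232367869, nat_lit 3232260325, nat_lit 12, nat_lit 3270009061, nat_lit 3270009061,
   nat_lit 12609569, nat_lit 0, nat_lit 4, nat_lit 15360033, nat_lit 12, nat_lit 12773409,
   nat_lit 3270140153, nat_lit 12764193, nat_lit 3404357893, nat_lit 12771361,
   nat_lit 3404357893, nat_lit 3232391417, nat_lit 4, nat_lit 12, nat_lit 3270140145,
   nat_lit 3270140145, nat_lit 3337249009, nat_lit 3232391409, nat_lit 12, nat_lit 3268059365,
   nat_lit 3232669921, nat_lit 3232669921, nat_lit 0, nat_lit 4, nat_lit 12, nat_lit 3267780849,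
   nat_lit 3267780849, nat_lit 2263507097, nat_lit 3230032113, nat_lit 12, nat_lit 3267911909,
   nat_lit 3232522465, nat_lit 3230066929, nat_lit 8, nat_lit 15205405, nat_lit 12, nat_lit 0,
   nat_lit 15212573, nat_lit 15212573, nat_lit 15228957, nat_lit 0, nat_lit 15212573,
   nat_lit 4001498377, nat_lit 15212573, nat_lit 4001498377, nat_lit 15228957, nat_lit 4,
   nat_lit 4001521909, nat_lit 4001521909, nat_lit 4001784053, nat_lit 4001400073, nat_lit 12,
   nat_lit 0, nat_lit 4001498373, nat_lit 4001498373, nat_lit 4, nat_lit 4001514757,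
   nat_lit 4001514757, nat_lit 12491055273, nat_lit 4001400069, nat_lit 0, nat_lit 4,
   nat_lit 14958614, nat_lit 4, nat_lit 8, nat_lit 12747809, nat_lit 12, nat_lit 3270018301,
   nat_lit 12731425, nat_lit 8, nat_lit 12747809, nat_lit 12, nat_lit 3270132989,
   nat_lit 14958614, nat_lit 12731425, nat_lit 8, nat_lit 12747809, nat_lit 12,
   nat_lit 3270132989, nat_lit 12747809, nat_lit 12, nat_lit 3270132989, nat_lit 3270132989,
   nat_lit 14958614, nat_lit 4, nat_lit 15074333, nat_lit 12738593, nat_lit 3261105401,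
   nat_lit 14958614, nat_lit 12715041, nat_lit 4, nat_lit 3261105405, nat_lit 14958614,
   nat_lit 4, nat_lit 8, nat_lit 15336477, nat_lit 12754977, nat_lit 12, nat_lit 3270025469,
   nat_lit 15074333, nat_lit 12738593, nat_lit 8, nat_lit 15336477, nat_lit 12754977, nat_lit 12,
   nat_lit 3270140157, nat_lit 14958614, nat_lit 15074333, nat_lit 12738593, nat_lit 8,
   nat_lit 15336477, nat_lit 12754977, nat_lit 12, nat_lit 3270140157, nat_lit 15336477,
   nat_lit 12754977, nat_lit 12, nat_lit 3270140157, nat_lit 3270140157, nat_lit 14958614,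
   nat_lit 12715041, nat_lit 4, nat_lit 8, nat_lit 12, nat_lit 3270018301, nat_lit 8, nat_lit 12,
   nat_lit 3270132989, nat_lit 14958614, nat_lit 8, nat_lit 12, nat_lit 3270132989, nat_lit 12,
   nat_lit 3270132989, nat_lit 3270132989, nat_lit 14958614, nat_lit 12607521, nat_lit 4,
   nat_lit 8, nat_lit 12754977, nat_lit 12, nat_lit 3270025469, nat_lit 12738593, nat_lit 8,
   nat_lit 12754977, nat_lit 12, nat_lit 3270140157, nat_lit 15073302, nat_lit 12738593,
   nat_lit 8, nat_lit 12754977, nat_lit 12, nat_lit 3270140157, nat_lit 12754977, nat_lit 12,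
   nat_lit 3270140157, nat_lit 3270140157, nat_lit 15073302, nat_lit 13000737, nat_lit 8,
   nat_lit 12754977, nat_lit 3263586553, nat_lit 12747809, nat_lit 3397804293, nat_lit 13017121,
   nat_lit 12, nat_lit 3966394625, nat_lit 3966394625, nat_lit 3337249021, nat_lit 3230032121,
   nat_lit 4, nat_lit 8, nat_lit 12, nat_lit 3270018301, nat_lit 8, nat_lit 12,
   nat_lit 3270132989, nat_lit 14958614, nat_lit 8, nat_lit 12, nat_lit 3270132989, nat_lit 12,
   nat_lit 3270132989, nat_lit 3270132989, nat_lit 14958614, nat_lit 8, nat_lit 3263586545,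
   nat_lit 3263586545, nat_lit 12, nat_lit 11952349377, nat_lit 3267780849, nat_lit 2263507133,
   nat_lit 3230032113, nat_lit 12, nat_lit 15467549, nat_lit 0, nat_lit 8, nat_lit 12747809,
   nat_lit 12747809, nat_lit 8, nat_lit 15336477, nat_lit 12754977, nat_lit 12715041, nat_lit 8,
   nat_lit 15336477, nat_lit 12754977, nat_lit 15336477, nat_lit 12754977, nat_lit 12715041,
   nat_lit 12607521, nat_lit 8, nat_lit 12754977, nat_lit 12754977, nat_lit 13017121, nat_lit 4,
   nat_lit 8, nat_lit 0, nat_lit 15336477, nat_lit 12754977, nat_lit 12747809,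
   nat_lit 3962078465, nat_lit 8, nat_lit 0, nat_lit 15336477, nat_lit 15336477,
   nat_lit 12754977, nat_lit 12747809, nat_lit 3962193153, nat_lit 14958614, nat_lit 8,
   nat_lit 0, nat_lit 15336477, nat_lit 12754977, nat_lit 12747809, nat_lit 3962193153,
   nat_lit 0, nat_lit 15336477, nat_lit 12754977, nat_lit 12747809, nat_lit 3962193153,
   nat_lit 14958614, nat_lit 0, nat_lit 12607521, nat_lit 8, nat_lit 12754977,
   nat_lit 3962200321, nat_lit 12747809, nat_lit 11987738825, nat_lit 13017121,
   nat_lit 3966394625, nat_lit 8, nat_lit 3263586545, nat_lit 11987738825, nat_lit 11952349377,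
   nat_lit 0, nat_lit 12607521, nat_lit 3230032121, nat_lit 3230032113, nat_lit 4,
   nat_lit 3961816333, nat_lit 3960096001, nat_lit 0, nat_lit 12607521, nat_lit 3960103169,
   nat_lit 3230032113, nat_lit 8, nat_lit 15205405, nat_lit 12, nat_lit 4, nat_lit 15213597,
   nat_lit 15213597, nat_lit 15229981, nat_lit 4, nat_lit 15213597, nat_lit 4001514761,
   nat_lit 15213597, nat_lit 4001514761, nat_lit 15229981, nat_lit 0, nat_lit 12607521,
   nat_lit 4001784073, nat_lit 4001400073, nat_lit 12, nat_lit 4, nat_lit 4001514757,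
   nat_lit 4001514757, nat_lit 0, nat_lit 12607521, nat_lit 4001784069, nat_lit 12491055313,
   nat_lit 4001400069, nat_lit 12, nat_lit 4, nat_lit 4001514757, nat_lit 4001514757, nat_lit 0,
   nat_lit 12607521, nat_lit 4001784069, nat_lit 11819966617, nat_lit 12, nat_lit 15467549,
   nat_lit 0, nat_lit 4, nat_lit 12731425, nat_lit 12731425, nat_lit 4, nat_lit 15074333,
   nat_lit 12738593, nat_lit 12715041, nat_lit 4, nat_lit 15074333, nat_lit 12738593,
   nat_lit 15074333, nat_lit 12738593, nat_lit 12715041, nat_lit 12607521, nat_lit 4,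
   nat_lit 12738593, nat_lit 12738593, nat_lit 13000737, nat_lit 8, nat_lit 0, nat_lit 4,
   nat_lit 12731425, nat_lit 3960096013, nat_lit 4, nat_lit 15074333, nat_lit 12738593,
   nat_lit 3960103181, nat_lit 12715041, nat_lit 3960079629, nat_lit 12607521, nat_lit 4,
   nat_lit 12738593, nat_lit 3960103181, nat_lit 13000737, nat_lit 3960103181, nat_lit 4,
   nat_lit 3960096013, nat_lit 11819966629, nat_lit 0, nat_lit 4, nat_lit 12731425,
   nat_lit 3962193165, nat_lit 12731425, nat_lit 3962193165, nat_lit 3265299705,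
   nat_lit 12715041, nat_lit 3962176781, nat_lit 4, nat_lit 15074333, nat_lit 12738593,
   nat_lit 3962200333, nat_lit 15074333, nat_lit 12738593, nat_lit 3962200333, nat_lit 12715041,
   nat_lit 3962176781, nat_lit 12607521, nat_lit 4, nat_lit 12738593, nat_lit 3962200333,
   nat_lit 12738593, nat_lit 3962200333, nat_lit 13000737, nat_lit 3962200333, nat_lit 4,
   nat_lit 3962193165, nat_lit 3962193165, nat_lit 11853521061, nat_lit 15220758, nat_lit 0,
   nat_lit 4, nat_lit 12731425, nat_lit 3962193165, nat_lit 4, nat_lit 15074333,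
   nat_lit 12738593, nat_lit 3962200333, nat_lit 12715041, nat_lit 3962176781, nat_lit 12607521,
   nat_lit 4, nat_lit 12738593, nat_lit 3962200333, nat_lit 13000737, nat_lit 3962200333,
   nat_lit 4, nat_lit 3962193165, nat_lit 11853521061, nat_lit 15220758, nat_lit 0,
   nat_lit 12607521, nat_lit 4, nat_lit 13000737, nat_lit 3966394637, nat_lit 4,
   nat_lit 11952349401, nat_lit 0, nat_lit 12607521, nat_lit 3230048505, nat_lit 3230048497,
   nat_lit 8, nat_lit 3962078477, nat_lit 3960112385, nat_lit 0, nat_lit 12607521,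
   nat_lit 3960119553, nat_lit 3230048497, nat_lit 0, nat_lit 794633, nat_lit 811017,
   nat_lit 201875525, nat_lit 8, nat_lit 203972677, nat_lit 203972677, nat_lit 4,
   nat_lit 204103749, nat_lit 208298053, nat_lit 3230049521, nat_lit 16, nat_lit 12,
   nat_lit 15467549, nat_lit 4072703241, nat_lit 4072703237, nat_lit 12, nat_lit 16,
   nat_lit 15745046, nat_lit 0, nat_lit 4, nat_lit 8, nat_lit 15360029, nat_lit 4, nat_lit 8,
   nat_lit 13018145, nat_lit 3232391397, nat_lit 8, nat_lit 51680796997, nat_lit 16,
   nat_lit 3272106213, nat_lit 3232784609, nat_lit 16, nat_lit 15909917, nat_lit 12790817,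
   nat_lit 3274474745, nat_lit 15745046, nat_lit 12764193, nat_lit 16, nat_lit 3274474749,
   nat_lit 15745046, nat_lit 16, nat_lit 0, nat_lit 4, nat_lit 8, nat_lit 15639585, nat_lit 4,
   nat_lit 8, nat_lit 15639585, nat_lit 15598625, nat_lit 4, nat_lit 8, nat_lit 15639585,
   nat_lit 15639585, nat_lit 4003857657, nat_lit 15615009, nat_lit 8, nat_lit 4003857661,
   nat_lit 15491105, nat_lit 4, nat_lit 8, nat_lit 15631393, nat_lit 8, nat_lit 15639585,
   nat_lit 15639585, nat_lit 15615009, nat_lit 15492129, nat_lit 8, nat_lit 15639585,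
   nat_lit 15639585, nat_lit 4, nat_lit 8, nat_lit 15631393, nat_lit 3232260325, nat_lit 8,
   nat_lit 15639585, nat_lit 15639585, nat_lit 3232391397, nat_lit 15615009, nat_lit 3231998181,
   nat_lit 15492129, nat_lit 8, nat_lit 15639585, nat_lit 3232391397, nat_lit 15639585,
   nat_lit 3232391397, nat_lit 8, nat_lit 3232260325, nat_lit 51722740037, nat_lit 15909917,
   nat_lit 12790817, nat_lit 0, nat_lit 4, nat_lit 8, nat_lit 15639585, nat_lit 4, nat_lit 8,
   nat_lit 15639585, nat_lit 15598625, nat_lit 4, nat_lit 8, nat_lit 15639585, nat_lit 15639585,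
   nat_lit 13667533977, nat_lit 15615009, nat_lit 8, nat_lit 13667534013, nat_lit 15491105,
   nat_lit 4, nat_lit 8, nat_lit 15631393, nat_lit 8, nat_lit 15639585, nat_lit 15639585,
   nat_lit 15615009, nat_lit 15492129, nat_lit 8, nat_lit 15639585, nat_lit 15639585, nat_lit 4,
   nat_lit 8, nat_lit 15631393, nat_lit 3274203365, nat_lit 8, nat_lit 15639585,
   nat_lit 15639585, nat_lit 3274334437, nat_lit 15615009, nat_lit 3273941221, nat_lit 15492129,
   nat_lit 8, nat_lit 15639585, nat_lit 3274334437, nat_lit 15639585, nat_lit 3274334437,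
   nat_lit 8, nat_lit 3232260325, nat_lit 52393828677, nat_lit 15745046, nat_lit 15909917,
   nat_lit 12790817, nat_lit 0, nat_lit 4, nat_lit 8, nat_lit 15639585, nat_lit 4, nat_lit 8,
   nat_lit 15639585, nat_lit 15598625, nat_lit 4, nat_lit 8, nat_lit 15639585, nat_lit 15639585,
   nat_lit 13667533977, nat_lit 15615009, nat_lit 8, nat_lit 13667534013, nat_lit 15491105,
   nat_lit 4, nat_lit 8, nat_lit 15631393, nat_lit 8, nat_lit 15639585, nat_lit 15639585,
   nat_lit 15615009, nat_lit 15492129, nat_lit 8, nat_lit 15639585, nat_lit 15639585, nat_lit 4,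
   nat_lit 8, nat_lit 15631393, nat_lit 3274203365, nat_lit 8, nat_lit 15639585,
   nat_lit 15639585, nat_lit 3274334437, nat_lit 15615009, nat_lit 3273941221, nat_lit 15492129,
   nat_lit 8, nat_lit 15639585, nat_lit 3274334437, nat_lit 15639585, nat_lit 3274334437,
   nat_lit 8, nat_lit 3232260325, nat_lit 52393828677, nat_lit 15745046, nat_lit 12764193,
   nat_lit 0, nat_lit 4, nat_lit 8, nat_lit 3265660157, nat_lit 3232630013, nat_lit 3232522469,
   nat_lit 16, nat_lit 3274465509, nat_lit 3274465509, nat_lit 12610593, nat_lit 0, nat_lit 4,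
   nat_lit 8, nat_lit 15639585, nat_lit 4, nat_lit 8, nat_lit 15639585, nat_lit 3232391397,
   nat_lit 8, nat_lit 51722740037, nat_lit 16, nat_lit 3272270053, nat_lit 3232948449,
   nat_lit 3232948449, nat_lit 0, nat_lit 4, nat_lit 8, nat_lit 51680796997, nat_lit 16,
   nat_lit 3272106213, nat_lit 3232784609, nat_lit 3230084337, nat_lit 16, nat_lit 15729693,
   nat_lit 20, nat_lit 4, nat_lit 15737885, nat_lit 15737885, nat_lit 15754269, nat_lit 4,
   nat_lit 15737885, nat_lit 4144121097, nat_lit 15737885, nat_lit 4144121097, nat_lit 15754269,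
   nat_lit 0, nat_lit 12, nat_lit 3267911905, nat_lit 3232522469, nat_lit 51681059141, nat_lit 8,
   nat_lit 3263717605, nat_lit 3232260321, nat_lit 3230049521, nat_lit 4144006409, nat_lit 20,
   nat_lit 4, nat_lit 4144121093, nat_lit 4144121093, nat_lit 0, nat_lit 12, nat_lit 3267911905,
   nat_lit 3232522469, nat_lit 51681059141, nat_lit 8, nat_lit 3263717605, nat_lit 3232260321,
   nat_lit 3230049521, nat_lit 4144006405, nat_lit 16, nat_lit 15729693, nat_lit 20, nat_lit 4,
   nat_lit 15737885, nat_lit 15737885, nat_lit 15754269, nat_lit 4, nat_lit 15737885,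
   nat_lit 4144121097, nat_lit 15737885, nat_lit 4144121097, nat_lit 15754269, nat_lit 0,
   nat_lit 8, nat_lit 3263717601, nat_lit 3232260325, nat_lit 51680796997, nat_lit 12,
   nat_lit 3267911909, nat_lit 3232522465, nat_lit 3230065905, nat_lit 4144006409, nat_lit 20,
   nat_lit 4, nat_lit 4144121093, nat_lit 4144121093, nat_lit 0, nat_lit 8, nat_lit 3263717601,
   nat_lit 3232260325, nat_lit 51680796997, nat_lit 12, nat_lit 3267911909, nat_lit 3232522465,
   nat_lit 3230065905, nat_lit 4144006405, nat_lit 16, nat_lit 15729693, nat_lit 20, nat_lit 8,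
   nat_lit 15738909, nat_lit 15738909, nat_lit 15755293, nat_lit 8, nat_lit 15738909,
   nat_lit 4144137481, nat_lit 15738909, nat_lit 4144137481, nat_lit 15755293, nat_lit 0,
   nat_lit 4, nat_lit 12, nat_lit 3267912929, nat_lit 3232523493, nat_lit 2263507097,
   nat_lit 3230032113, nat_lit 12, nat_lit 3267911909, nat_lit 3232522465, nat_lit 3230066929,
   nat_lit 4144006409, nat_lit 20, nat_lit 8, nat_lit 4144137477, nat_lit 4144137477, nat_lit 0,
   nat_lit 4, nat_lit 12, nat_lit 3267780849, nat_lit 3267780849, nat_lit 2263507097,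
   nat_lit 3230032113, nat_lit 12, nat_lit 3267911909, nat_lit 3232522465, nat_lit 3230066929,
   nat_lit 4144006405, nat_lit 16, nat_lit 15729693, nat_lit 20, nat_lit 0, nat_lit 15736861,
   nat_lit 15736861, nat_lit 15753245, nat_lit 0, nat_lit 15736861, nat_lit 4144104713,
   nat_lit 15736861, nat_lit 4144104713, nat_lit 15753245, nat_lit 8, nat_lit 15738909,
   nat_lit 14766596193, nat_lit 12747809, nat_lit 14774984841, nat_lit 15755293, nat_lit 4,
   nat_lit 12, nat_lit 3267912929, nat_lit 14141776069, nat_lit 14141776069, nat_lit 3230032113,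
   nat_lit 4144006409, nat_lit 20, nat_lit 0, nat_lit 4144104709, nat_lit 4144104709, nat_lit 8,
   nat_lit 14766596193, nat_lit 14774984841, nat_lit 4, nat_lit 12, nat_lit 3267780849,
   nat_lit 14141776069, nat_lit 14141776069, nat_lit 3230032113, nat_lit 4144006405, nat_lit 16,
   nat_lit 15729693, nat_lit 20, nat_lit 0, nat_lit 15736861, nat_lit 15736861, nat_lit 15753245,
   nat_lit 0, nat_lit 15736861, nat_lit 4144104713, nat_lit 15736861, nat_lit 4144104713,
   nat_lit 15753245, nat_lit 4, nat_lit 8, nat_lit 12, nat_lit 3270018301, nat_lit 8, nat_lit 12,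
   nat_lit 3270018301, nat_lit 14958614, nat_lit 8, nat_lit 12, nat_lit 3270018301, nat_lit 12,
   nat_lit 3270132989, nat_lit 3270132989, nat_lit 14958614, nat_lit 8, nat_lit 3263586545,
   nat_lit 14135222469, nat_lit 12, nat_lit 14703812793, nat_lit 14703812793, nat_lit 2263507133,
   nat_lit 3230032113, nat_lit 4144006409, nat_lit 20, nat_lit 0, nat_lit 4144104709,
   nat_lit 4144104709, nat_lit 4, nat_lit 8, nat_lit 12, nat_lit 3270018301, nat_lit 8,
   nat_lit 12, nat_lit 3270132989, nat_lit 14958614, nat_lit 8, nat_lit 12, nat_lit 3270132989,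
   nat_lit 12, nat_lit 3270132989, nat_lit 3270132989, nat_lit 14958614, nat_lit 8,
   nat_lit 3263586545, nat_lit 14135222469, nat_lit 12, nat_lit 14703812793, nat_lit 14703812793,
   nat_lit 2263507133, nat_lit 3230032113, nat_lit 4144006405, nat_lit 20, nat_lit 15991837,
   nat_lit 24, nat_lit 12, nat_lit 16002077, nat_lit 16002077, nat_lit 16018461, nat_lit 12,
   nat_lit 16002077, nat_lit 4215457033, nat_lit 16002077, nat_lit 4215457033, nat_lit 16018461,
   nat_lit 0, nat_lit 4, nat_lit 8, nat_lit 51680796997, nat_lit 16, nat_lit 3272106213,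
   nat_lit 3232784609, nat_lit 3230084337, nat_lit 4215309577, nat_lit 24, nat_lit 12,
   nat_lit 4215457029, nat_lit 4215457029, nat_lit 0, nat_lit 4, nat_lit 8, nat_lit 51680796997,
   nat_lit 16, nat_lit 3272106213, nat_lit 3232784609, nat_lit 3230084337, nat_lit 4215309573,
   nat_lit 4, nat_lit 14958614, nat_lit 14958614, nat_lit 0, nat_lit 12607521,
   nat_lit 3230032121, nat_lit 3230032113, nat_lit 4, nat_lit 0, nat_lit 14681117,
   nat_lit 3858793737, nat_lit 3858793733]

theorem c5_0 : chk TT UT (gU 5) (sub 0 23) s5_0 = true := by decide +kernel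

def s6_0 : List ℕ :=   [nat_lit 0, nat_lit 794633, nat_lit 811017, nat_lit 209985609, nat_lit 0, nat_lit 4, nat_lit 8,
   nat_lit 15360029, nat_lit 12853277, nat_lit 4, nat_lit 8, nat_lit 12756001, nat_lit 12756001,
   nat_lit 2217369697, nat_lit 12854301, nat_lit 8, nat_lit 2217369685, nat_lit 0,
   nat_lit 794633, nat_lit 811017, nat_lit 209985609, nat_lit 8, nat_lit 4, nat_lit 204103749,
   nat_lit 208298053, nat_lit 53756977513, nat_lit 0, nat_lit 794633, nat_lit 811017,
   nat_lit 209985609, nat_lit 8, nat_lit 243540041, nat_lit 243540041, nat_lit 4,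
   nat_lit 245637193, nat_lit 208298053, nat_lit 178528297, nat_lit 0, nat_lit 4,
   nat_lit 12738593, nat_lit 12738593, nat_lit 3359793417, nat_lit 12853277, nat_lit 4,
   nat_lit 3359793397, nat_lit 4, nat_lit 8, nat_lit 12756001, nat_lit 12756001,
   nat_lit 3359810825, nat_lit 15351830, nat_lit 12854301, nat_lit 8, nat_lit 3359810805,
   nat_lit 3362406474, nat_lit 4, nat_lit 8, nat_lit 12756001, nat_lit 12756001,
   nat_lit 3359810825, nat_lit 15351830, nat_lit 12854301, nat_lit 8, nat_lit 3359810805,
   nat_lit 3362406474, nat_lit 8, nat_lit 12, nat_lit 12773409, nat_lit 12773409,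
   nat_lit 3359828233, nat_lit 15630358, nat_lit 12855325, nat_lit 12, nat_lit 3359828213,
   nat_lit 3362685002, nat_lit 0, nat_lit 8, nat_lit 15228961, nat_lit 15228961,
   nat_lit 15212573, nat_lit 12853277, nat_lit 4, nat_lit 3359793397, nat_lit 3362127946,
   nat_lit 4, nat_lit 12, nat_lit 3963773173, nat_lit 3963773173, nat_lit 8, nat_lit 4001521909,
   nat_lit 4001521909, nat_lit 2927779957, nat_lit 0, nat_lit 4, nat_lit 12738593,
   nat_lit 12738593, nat_lit 3359793417, nat_lit 15073302, nat_lit 12853277, nat_lit 4,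
   nat_lit 3359793397, nat_lit 3362127946, nat_lit 0, nat_lit 4, nat_lit 12738593,
   nat_lit 12738593, nat_lit 3359793417, nat_lit 15073302, nat_lit 12853277, nat_lit 4,
   nat_lit 3359793397, nat_lit 3362127946, nat_lit 0, nat_lit 4, nat_lit 12738593,
   nat_lit 12738593, nat_lit 3359793417, nat_lit 15073302, nat_lit 12853277, nat_lit 4,
   nat_lit 3359793397, nat_lit 3362127946, nat_lit 0, nat_lit 4, nat_lit 12738593,
   nat_lit 12738593, nat_lit 3359793417, nat_lit 15073302, nat_lit 12853277, nat_lit 4,
   nat_lit 3359793397, nat_lit 3362127946, nat_lit 0, nat_lit 794633, nat_lit 811017,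
   nat_lit 209985609, nat_lit 8, nat_lit 4, nat_lit 204103749, nat_lit 208298053,
   nat_lit 53756977513, nat_lit 16, nat_lit 64494395753, nat_lit 64494395753, nat_lit 12,
   nat_lit 65165484393, nat_lit 3341722865, nat_lit 47985615181, nat_lit 12, nat_lit 16,
   nat_lit 12790817, nat_lit 12790817, nat_lit 3359845641, nat_lit 15908886, nat_lit 12856349,
   nat_lit 16, nat_lit 3359845621, nat_lit 3362963530, nat_lit 0, nat_lit 16, nat_lit 15753249,
   nat_lit 15753249, nat_lit 15736861, nat_lit 12853277, nat_lit 8, nat_lit 3359809781,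
   nat_lit 3362390090, nat_lit 8, nat_lit 4, nat_lit 15351830, nat_lit 12854301,
   nat_lit 3362406474, nat_lit 12, nat_lit 20, nat_lit 1049094677061, nat_lit 1049094677061,
   nat_lit 16, nat_lit 1060905837125, nat_lit 3346195697, nat_lit 786027929973, nat_lit 0,
   nat_lit 16, nat_lit 15753249, nat_lit 15753249, nat_lit 15736861, nat_lit 12853277,
   nat_lit 12, nat_lit 3359826165, nat_lit 3362652234, nat_lit 12, nat_lit 4, nat_lit 15613974,
   nat_lit 12854301, nat_lit 3362668618, nat_lit 8, nat_lit 20, nat_lit 1049094677065,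
   nat_lit 1049094677065, nat_lit 16, nat_lit 1060905837129, nat_lit 3346195697,
   nat_lit 786027929981, nat_lit 0, nat_lit 16, nat_lit 15753249, nat_lit 15753249,
   nat_lit 15736861, nat_lit 12853277, nat_lit 4, nat_lit 3359793397, nat_lit 3362127946,
   nat_lit 4, nat_lit 12, nat_lit 8, nat_lit 3270140145, nat_lit 12855325, nat_lit 860116116049,
   nat_lit 20, nat_lit 1049094677073, nat_lit 1049094677073, nat_lit 16, nat_lit 1060905837137,
   nat_lit 3346196721, nat_lit 786027930073, nat_lit 0, nat_lit 16, nat_lit 15753249,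
   nat_lit 15753249, nat_lit 15736861, nat_lit 12853277, nat_lit 4, nat_lit 3359793397,
   nat_lit 3362127946, nat_lit 4, nat_lit 12, nat_lit 20, nat_lit 16007194, nat_lit 16007194,
   nat_lit 16, nat_lit 16187418, nat_lit 3346194673, nat_lit 192020510, nat_lit 0, nat_lit 16,
   nat_lit 15753249, nat_lit 15753249, nat_lit 15736861, nat_lit 12853277, nat_lit 4,
   nat_lit 3359793397, nat_lit 3362127946, nat_lit 4, nat_lit 8, nat_lit 12, nat_lit 20,
   nat_lit 1049094677081, nat_lit 1049094677081, nat_lit 16, nat_lit 1060905837145,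
   nat_lit 3346194673, nat_lit 786027930113, nat_lit 0, nat_lit 20, nat_lit 16015393,
   nat_lit 16015393, nat_lit 15999005, nat_lit 12853277, nat_lit 16, nat_lit 3359842549,
   nat_lit 3362914378, nat_lit 16, nat_lit 4, nat_lit 15876118, nat_lit 12854301,
   nat_lit 3362930762, nat_lit 8, nat_lit 12, nat_lit 52393828677, nat_lit 12856349,
   nat_lit 13761929437845, nat_lit 24, nat_lit 17060464321173, nat_lit 17060464321173,
   nat_lit 20, nat_lit 17266622751381, nat_lit 3350670577, nat_lit 12868576240245, nat_lit 4,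
   nat_lit 0, nat_lit 15073302, nat_lit 12853277, nat_lit 3362127946, nat_lit 4,
   nat_lit 14958618, nat_lit 14958618, nat_lit 0, nat_lit 15073306, nat_lit 15073306,
   nat_lit 140902446]

theorem c6_0 : chk TT UT (gU 6) (sub 0 23) s6_0 = true := by decide +kernel

def s7_0 : List ℕ :=   [nat_lit 0, nat_lit 281043005, nat_lit 281567293, nat_lit 281550889, nat_lit 281550889,
   nat_lit 0, nat_lit 4, nat_lit 8, nat_lit 4507452525, nat_lit 4499063909, nat_lit 4504855753,
   nat_lit 4504831069, nat_lit 8, nat_lit 4504855669, nat_lit 4, nat_lit 8, nat_lit 4540728413,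
   nat_lit 4504814685, nat_lit 4, nat_lit 8, nat_lit 4507459693, nat_lit 4499071077,
   nat_lit 3358220385, nat_lit 4504838237, nat_lit 8, nat_lit 3358220373, nat_lit 4504814709,
   nat_lit 4504707273, nat_lit 4504707233, nat_lit 4504707189, nat_lit 4, nat_lit 8,
   nat_lit 3358089301, nat_lit 8, nat_lit 4507459693, nat_lit 4499071077, nat_lit 3358220385,
   nat_lit 3399770201, nat_lit 4504838237, nat_lit 8, nat_lit 3358220373, nat_lit 3358220373,
   nat_lit 3357827157, nat_lit 3355861089, nat_lit 4504838237, nat_lit 3355861077, nat_lit 8,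
   nat_lit 3358220373, nat_lit 3358220373, nat_lit 0, nat_lit 281043005, nat_lit 281567293,
   nat_lit 281550889, nat_lit 281550889, nat_lit 8, nat_lit 72077566285, nat_lit 4,
   nat_lit 4496729273, nat_lit 4505117881, nat_lit 4504708213, nat_lit 72077697357, nat_lit 0,
   nat_lit 281043005, nat_lit 281567293, nat_lit 281550889, nat_lit 281550889, nat_lit 8,
   nat_lit 688414757, nat_lit 310911017, nat_lit 310911017, nat_lit 4, nat_lit 312746025,
   nat_lit 245637161, nat_lit 245637161, nat_lit 245653545, nat_lit 0, nat_lit 4,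
   nat_lit 4504831093, nat_lit 4, nat_lit 4507173997, nat_lit 4498785381, nat_lit 4504838345,
   nat_lit 4504838345, nat_lit 4504814685, nat_lit 4, nat_lit 4504838261, nat_lit 4504838261,
   nat_lit 4504814709, nat_lit 4504707273, nat_lit 4504707233, nat_lit 4504707189, nat_lit 4,
   nat_lit 4504838261, nat_lit 4504838261, nat_lit 4, nat_lit 8, nat_lit 4504847477,
   nat_lit 4507320390, nat_lit 8, nat_lit 4507452525, nat_lit 4499063909, nat_lit 4504855753,
   nat_lit 4504855753, nat_lit 4507320390, nat_lit 4504831069, nat_lit 8, nat_lit 4504855669,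
   nat_lit 4504855669, nat_lit 4507320390, nat_lit 4504831093, nat_lit 4504708297,
   nat_lit 4504708257, nat_lit 4504708213, nat_lit 8, nat_lit 4504855669, nat_lit 4507451462,
   nat_lit 4504855669, nat_lit 4507451462, nat_lit 4, nat_lit 8, nat_lit 4504847477,
   nat_lit 4507320390, nat_lit 8, nat_lit 4507452525, nat_lit 4499063909, nat_lit 4504855753,
   nat_lit 4504855753, nat_lit 4507320390, nat_lit 4504831069, nat_lit 8, nat_lit 4504855669,
   nat_lit 4504855669, nat_lit 4507320390, nat_lit 4504831093, nat_lit 4504708297,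
   nat_lit 4504708257, nat_lit 4504708213, nat_lit 8, nat_lit 4504855669, nat_lit 4507451462,
   nat_lit 4504855669, nat_lit 4507451462, nat_lit 8, nat_lit 12, nat_lit 4504863861,
   nat_lit 4507582534, nat_lit 12, nat_lit 4507731053, nat_lit 4499342437, nat_lit 4504873161,
   nat_lit 4504873161, nat_lit 4507582534, nat_lit 4504847453, nat_lit 12, nat_lit 4504873077,
   nat_lit 4504873077, nat_lit 4507582534, nat_lit 4504847477, nat_lit 4504709321,
   nat_lit 4504709281, nat_lit 4504709237, nat_lit 12, nat_lit 4504873077, nat_lit 4507729990,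
   nat_lit 4504873077, nat_lit 4507729990, nat_lit 0, nat_lit 4, nat_lit 4504831093,
   nat_lit 4507058246, nat_lit 4, nat_lit 4507173997, nat_lit 4498785381, nat_lit 4504838345,
   nat_lit 4504838345, nat_lit 4507058246, nat_lit 4504814685, nat_lit 4, nat_lit 4504838261,
   nat_lit 4504838261, nat_lit 4507058246, nat_lit 4504814709, nat_lit 4506796102,
   nat_lit 4504707273, nat_lit 4504707233, nat_lit 4504707189, nat_lit 4, nat_lit 4504838261,
   nat_lit 4507172934, nat_lit 4504838261, nat_lit 4507172934, nat_lit 4, nat_lit 4507058246,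
   nat_lit 12, nat_lit 12088402033, nat_lit 5041709173, nat_lit 5041709173, nat_lit 8,
   nat_lit 5075263605, nat_lit 5075263605, nat_lit 4001521781, nat_lit 4001783925, nat_lit 0,
   nat_lit 4, nat_lit 4504831093, nat_lit 4507058246, nat_lit 4, nat_lit 4507173997,
   nat_lit 4498785381, nat_lit 4504838345, nat_lit 4504838345, nat_lit 4507058246,
   nat_lit 4504814685, nat_lit 4, nat_lit 4504838261, nat_lit 4504838261, nat_lit 4507058246,
   nat_lit 4504814709, nat_lit 4504707273, nat_lit 4504707233, nat_lit 4504707189, nat_lit 4,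
   nat_lit 4504838261, nat_lit 4507172934, nat_lit 4504838261, nat_lit 4507172934, nat_lit 0,
   nat_lit 4, nat_lit 4504831093, nat_lit 4507058246, nat_lit 4, nat_lit 4507173997,
   nat_lit 4498785381, nat_lit 4504838345, nat_lit 4504838345, nat_lit 4507058246,
   nat_lit 4504814685, nat_lit 4, nat_lit 4504838261, nat_lit 4504838261, nat_lit 4507058246,
   nat_lit 4504814709, nat_lit 4504707273, nat_lit 4504707233, nat_lit 4504707189, nat_lit 4,
   nat_lit 4504838261, nat_lit 4507172934, nat_lit 4504838261, nat_lit 4507172934, nat_lit 0,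
   nat_lit 4, nat_lit 4504831093, nat_lit 4507058246, nat_lit 4, nat_lit 4507173997,
   nat_lit 4498785381, nat_lit 4504838345, nat_lit 4504838345, nat_lit 4507058246,
   nat_lit 4504814685, nat_lit 4, nat_lit 4504838261, nat_lit 4504838261, nat_lit 4507058246,
   nat_lit 4504814709, nat_lit 4504707273, nat_lit 4504707233, nat_lit 4504707189, nat_lit 4,
   nat_lit 4504838261, nat_lit 4507172934, nat_lit 4504838261, nat_lit 4507172934, nat_lit 0,
   nat_lit 4, nat_lit 4504831093, nat_lit 4507058246, nat_lit 4, nat_lit 4507173997,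
   nat_lit 4498785381, nat_lit 4504838345, nat_lit 4504838345, nat_lit 4507058246,
   nat_lit 4504814685, nat_lit 4, nat_lit 4504838261, nat_lit 4504838261, nat_lit 4507058246,
   nat_lit 4504814709, nat_lit 4504707273, nat_lit 4504707233, nat_lit 4504707189, nat_lit 4,
   nat_lit 4504838261, nat_lit 4507172934, nat_lit 4504838261, nat_lit 4507172934, nat_lit 0,
   nat_lit 281043005, nat_lit 281567293, nat_lit 281550889, nat_lit 281550889, nat_lit 8,
   nat_lit 72077566285, nat_lit 4, nat_lit 4496729273, nat_lit 4505117881, nat_lit 4504708213,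
   nat_lit 72077697357, nat_lit 16, nat_lit 13166445717, nat_lit 81741373773, nat_lit 4034946141,
   nat_lit 12, nat_lit 4507567213, nat_lit 3408659593, nat_lit 3408659593, nat_lit 65169678669,
   nat_lit 12, nat_lit 16, nat_lit 4504880245, nat_lit 4507844678, nat_lit 16,
   nat_lit 4508009581, nat_lit 4499620965, nat_lit 4504890569, nat_lit 4504890569,
   nat_lit 4507844678, nat_lit 4504863837, nat_lit 16, nat_lit 4504890485, nat_lit 4504890485,
   nat_lit 4507844678, nat_lit 4504863861, nat_lit 4504710345, nat_lit 4504710305,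
   nat_lit 4504710261, nat_lit 16, nat_lit 4504890485, nat_lit 4508008518, nat_lit 4504890485,
   nat_lit 4508008518, nat_lit 0, nat_lit 8, nat_lit 4504847477, nat_lit 4507320390, nat_lit 8,
   nat_lit 4507436141, nat_lit 4499047525, nat_lit 4504854729, nat_lit 4504854729,
   nat_lit 4507320390, nat_lit 4504814685, nat_lit 8, nat_lit 4504854645, nat_lit 4504854645,
   nat_lit 4507320390, nat_lit 4504814709, nat_lit 4506796102, nat_lit 4504707273,
   nat_lit 4504707233, nat_lit 4504707189, nat_lit 8, nat_lit 4504854645, nat_lit 4507435078,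
   nat_lit 4504854645, nat_lit 4507435078, nat_lit 8, nat_lit 4507320390, nat_lit 4,
   nat_lit 4496729273, nat_lit 4505117881, nat_lit 4504708213, nat_lit 4507451462, nat_lit 12,
   nat_lit 1153245291993, nat_lit 20, nat_lit 14240187541, nat_lit 1325046325621,
   nat_lit 4102055005, nat_lit 16, nat_lit 4507829357, nat_lit 3413116041, nat_lit 3413116041,
   nat_lit 1060972945781, nat_lit 0, nat_lit 12, nat_lit 4504863861, nat_lit 4507582534,
   nat_lit 12, nat_lit 4507698285, nat_lit 4499309669, nat_lit 4504871113, nat_lit 4504871113,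
   nat_lit 4507582534, nat_lit 4504814685, nat_lit 12, nat_lit 4504871029, nat_lit 4504871029,
   nat_lit 4507582534, nat_lit 4504814709, nat_lit 4506796102, nat_lit 4504707273,
   nat_lit 4504707233, nat_lit 4504707189, nat_lit 12, nat_lit 4504871029, nat_lit 4507697222,
   nat_lit 4504871029, nat_lit 4507697222, nat_lit 12, nat_lit 4507582534, nat_lit 4,
   nat_lit 4496745657, nat_lit 4505134265, nat_lit 4504708213, nat_lit 4507713606, nat_lit 8,
   nat_lit 20, nat_lit 14240187541, nat_lit 1325046325629, nat_lit 4102055005, nat_lit 16,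
   nat_lit 4507829357, nat_lit 3413116041, nat_lit 3413116041, nat_lit 1060972945789, nat_lit 0,
   nat_lit 4, nat_lit 4504831093, nat_lit 4507058246, nat_lit 4, nat_lit 4507173997,
   nat_lit 4498785381, nat_lit 4504838345, nat_lit 4504838345, nat_lit 4507058246,
   nat_lit 4504814685, nat_lit 4, nat_lit 4504838261, nat_lit 4504838261, nat_lit 4507058246,
   nat_lit 4504814709, nat_lit 4506796102, nat_lit 4504707273, nat_lit 4504707233,
   nat_lit 4504707189, nat_lit 4, nat_lit 4504838261, nat_lit 4507172934, nat_lit 4504838261,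
   nat_lit 4507172934, nat_lit 4, nat_lit 4507058246, nat_lit 12, nat_lit 1153245274585,
   nat_lit 8, nat_lit 4496746681, nat_lit 4505135289, nat_lit 4504709237, nat_lit 1153247633881,
   nat_lit 20, nat_lit 14240187541, nat_lit 1325046325721, nat_lit 4102056029, nat_lit 16,
   nat_lit 4507829357, nat_lit 3413116041, nat_lit 3413116041, nat_lit 1060972945881, nat_lit 0,
   nat_lit 4, nat_lit 4504831093, nat_lit 4507058246, nat_lit 4, nat_lit 4507173997,
   nat_lit 4498785381, nat_lit 4504838345, nat_lit 4504838345, nat_lit 4507058246,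
   nat_lit 4504814685, nat_lit 4, nat_lit 4504838261, nat_lit 4504838261, nat_lit 4507058246,
   nat_lit 4504814709, nat_lit 4506796102, nat_lit 4504707273, nat_lit 4504707233,
   nat_lit 4504707189, nat_lit 4, nat_lit 4504838261, nat_lit 4507172934, nat_lit 4504838261,
   nat_lit 4507172934, nat_lit 4, nat_lit 4507058246, nat_lit 12, nat_lit 1153245274585,
   nat_lit 20, nat_lit 14240211033, nat_lit 323616798, nat_lit 4102053981, nat_lit 16,
   nat_lit 4143997021, nat_lit 3413116041, nat_lit 4143997021, nat_lit 259129374, nat_lit 0,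
   nat_lit 4, nat_lit 4504831093, nat_lit 4507058246, nat_lit 4, nat_lit 4507173997,
   nat_lit 4498785381, nat_lit 4504838345, nat_lit 4504838345, nat_lit 4507058246,
   nat_lit 4504814685, nat_lit 4, nat_lit 4504838261, nat_lit 4504838261, nat_lit 4507058246,
   nat_lit 4504814709, nat_lit 4506796102, nat_lit 4504707273, nat_lit 4504707233,
   nat_lit 4504707189, nat_lit 4, nat_lit 4504838261, nat_lit 4507172934, nat_lit 4504838261,
   nat_lit 4507172934, nat_lit 4, nat_lit 4507058246, nat_lit 8, nat_lit 1153241080281,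
   nat_lit 12, nat_lit 1153245274585, nat_lit 20, nat_lit 14240187541, nat_lit 1325046325761,
   nat_lit 4102053981, nat_lit 16, nat_lit 4507829357, nat_lit 3413116041, nat_lit 3413116041,
   nat_lit 1060972945921, nat_lit 0, nat_lit 16, nat_lit 4504880245, nat_lit 4507844678,
   nat_lit 16, nat_lit 4507960429, nat_lit 4499571813, nat_lit 4504887497, nat_lit 4504887497,
   nat_lit 4507844678, nat_lit 4504814685, nat_lit 16, nat_lit 4504887413, nat_lit 4504887413,
   nat_lit 4507844678, nat_lit 4504814709, nat_lit 4506796102, nat_lit 4504707273,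
   nat_lit 4504707233, nat_lit 4504707189, nat_lit 16, nat_lit 4504887413, nat_lit 4507959366,
   nat_lit 4504887413, nat_lit 4507959366, nat_lit 16, nat_lit 4507844678, nat_lit 4,
   nat_lit 4496762041, nat_lit 4505150649, nat_lit 4504708213, nat_lit 4507975750, nat_lit 8,
   nat_lit 12, nat_lit 4496764089, nat_lit 4505152697, nat_lit 4504710261,
   nat_lit 18452033725045, nat_lit 24, nat_lit 15313929365, nat_lit 21475690701429,
   nat_lit 4169165917, nat_lit 20, nat_lit 4508091501, nat_lit 3417572489, nat_lit 3417572489,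
   nat_lit 17267696493173, nat_lit 4, nat_lit 4507058246, nat_lit 0, nat_lit 4496711865,
   nat_lit 4505100473, nat_lit 4504707189, nat_lit 4507172934, nat_lit 4, nat_lit 9945220245,
   nat_lit 306724894, nat_lit 306724894, nat_lit 0, nat_lit 3395290257, nat_lit 3395290249,
   nat_lit 3395290249, nat_lit 212205614]

theorem c7_0 : chk TT UT (gU 7) (sub 0 23) s7_0 = true := by decide +kernel

def s8_0 : List ℕ :=   [nat_lit 0, nat_lit 277094465, nat_lit 281567293, nat_lit 281550889, nat_lit 281550889,
   nat_lit 0, nat_lit 4, nat_lit 8, nat_lit 4436156597, nat_lit 4504953009, nat_lit 4, nat_lit 8,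
   nat_lit 4507459693, nat_lit 3362414733, nat_lit 3362414733, nat_lit 4504838237, nat_lit 8,
   nat_lit 3362414725, nat_lit 4, nat_lit 8, nat_lit 4507459693, nat_lit 4499071077,
   nat_lit 3358220385, nat_lit 3358220385, nat_lit 4504838237, nat_lit 3359793241, nat_lit 8,
   nat_lit 3358220373, nat_lit 0, nat_lit 277094465, nat_lit 281567293, nat_lit 281550889,
   nat_lit 281550889, nat_lit 8, nat_lit 4, nat_lit 70936846693, nat_lit 4505117881,
   nat_lit 72077697357, nat_lit 72077697357, nat_lit 0, nat_lit 277094465, nat_lit 281567293,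
   nat_lit 281550889, nat_lit 281550889, nat_lit 8, nat_lit 688414757, nat_lit 310911017,
   nat_lit 310911017, nat_lit 243540009, nat_lit 4, nat_lit 312746025, nat_lit 111419433,
   nat_lit 245637161, nat_lit 245637161, nat_lit 0, nat_lit 4, nat_lit 4433535197,
   nat_lit 4433535185, nat_lit 4504838345, nat_lit 4504838345, nat_lit 4504953009, nat_lit 4,
   nat_lit 4504838261, nat_lit 4504838261, nat_lit 4, nat_lit 4504838261, nat_lit 4, nat_lit 8,
   nat_lit 4433552605, nat_lit 4433552593, nat_lit 4504855753, nat_lit 4504855753,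
   nat_lit 4436148318, nat_lit 4504954033, nat_lit 8, nat_lit 4504855669, nat_lit 4504855669,
   nat_lit 4507451462, nat_lit 8, nat_lit 4504855669, nat_lit 4507451462, nat_lit 4, nat_lit 8,
   nat_lit 4433552605, nat_lit 4433552593, nat_lit 4504855753, nat_lit 4504855753,
   nat_lit 4436148318, nat_lit 4504954033, nat_lit 8, nat_lit 4504855669, nat_lit 4504855669,
   nat_lit 4507451462, nat_lit 8, nat_lit 4504855669, nat_lit 4507451462, nat_lit 8, nat_lit 12,
   nat_lit 4433570013, nat_lit 4433570001, nat_lit 4504873161, nat_lit 4504873161,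
   nat_lit 4436426846, nat_lit 4504955057, nat_lit 12, nat_lit 4504873077, nat_lit 4504873077,
   nat_lit 4507729990, nat_lit 12, nat_lit 4504873077, nat_lit 4507729990, nat_lit 0, nat_lit 4,
   nat_lit 4433535197, nat_lit 4433535185, nat_lit 4504838345, nat_lit 4504838345,
   nat_lit 4435869790, nat_lit 4504953009, nat_lit 4, nat_lit 4504838261, nat_lit 4504838261,
   nat_lit 4507172934, nat_lit 4, nat_lit 4504838261, nat_lit 4507172934, nat_lit 4, nat_lit 12,
   nat_lit 12088402033, nat_lit 5041709173, nat_lit 5041709173, nat_lit 3963773045, nat_lit 8,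
   nat_lit 5075263605, nat_lit 4505135289, nat_lit 4001521781, nat_lit 4001521781, nat_lit 0,
   nat_lit 4, nat_lit 4433535197, nat_lit 4433535185, nat_lit 4504838345, nat_lit 4504838345,
   nat_lit 4435869790, nat_lit 4504953009, nat_lit 4, nat_lit 4504838261, nat_lit 4504838261,
   nat_lit 4507172934, nat_lit 4, nat_lit 4504838261, nat_lit 4507172934, nat_lit 0, nat_lit 4,
   nat_lit 4433535197, nat_lit 4433535185, nat_lit 4504838345, nat_lit 4504838345,
   nat_lit 4435869790, nat_lit 4504953009, nat_lit 4, nat_lit 4504838261, nat_lit 4504838261,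
   nat_lit 4507172934, nat_lit 4, nat_lit 4504838261, nat_lit 4507172934, nat_lit 0, nat_lit 4,
   nat_lit 4433535197, nat_lit 4433535185, nat_lit 4504838345, nat_lit 4504838345,
   nat_lit 4435869790, nat_lit 4504953009, nat_lit 4, nat_lit 4504838261, nat_lit 4504838261,
   nat_lit 4507172934, nat_lit 4, nat_lit 4504838261, nat_lit 4507172934, nat_lit 0, nat_lit 4,
   nat_lit 4433535197, nat_lit 4433535185, nat_lit 4504838345, nat_lit 4504838345,
   nat_lit 4435869790, nat_lit 4504953009, nat_lit 4, nat_lit 4504838261, nat_lit 4504838261,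
   nat_lit 4507172934, nat_lit 4, nat_lit 4504838261, nat_lit 4507172934, nat_lit 0,
   nat_lit 277094465, nat_lit 281567293, nat_lit 281550889, nat_lit 281550889, nat_lit 8,
   nat_lit 4, nat_lit 70936846693, nat_lit 4505117881, nat_lit 72077697357, nat_lit 72077697357,
   nat_lit 16, nat_lit 13161997417, nat_lit 81741373773, nat_lit 81741373773,
   nat_lit 64494395725, nat_lit 12, nat_lit 82345353549, nat_lit 4505152697, nat_lit 65165484365,
   nat_lit 65165484365, nat_lit 12, nat_lit 16, nat_lit 4433587421, nat_lit 4433587409,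
   nat_lit 4504890569, nat_lit 4504890569, nat_lit 4436705374, nat_lit 4504956081, nat_lit 16,
   nat_lit 4504890485, nat_lit 4504890485, nat_lit 4508008518, nat_lit 16, nat_lit 4504890485,
   nat_lit 4508008518, nat_lit 0, nat_lit 8, nat_lit 4433551581, nat_lit 4433551569,
   nat_lit 4504854729, nat_lit 4504854729, nat_lit 4436131934, nat_lit 4504953009, nat_lit 8,
   nat_lit 4504854645, nat_lit 4504854645, nat_lit 4507435078, nat_lit 8, nat_lit 4504854645,
   nat_lit 4507435078, nat_lit 8, nat_lit 4, nat_lit 4436148318, nat_lit 4505117881,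
   nat_lit 4507451462, nat_lit 4507451462, nat_lit 12, nat_lit 20, nat_lit 14235739241,
   nat_lit 1325046325621, nat_lit 1325046325621, nat_lit 1049094676853, nat_lit 16,
   nat_lit 1335783743861, nat_lit 4505170105, nat_lit 1060905836917, nat_lit 1060905836917,
   nat_lit 0, nat_lit 12, nat_lit 4433567965, nat_lit 4433567953, nat_lit 4504871113,
   nat_lit 4504871113, nat_lit 4436394078, nat_lit 4504953009, nat_lit 12, nat_lit 4504871029,
   nat_lit 4504871029, nat_lit 4507697222, nat_lit 12, nat_lit 4504871029, nat_lit 4507697222,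
   nat_lit 12, nat_lit 4, nat_lit 4436410462, nat_lit 4505134265, nat_lit 4507713606,
   nat_lit 4507713606, nat_lit 8, nat_lit 20, nat_lit 14235739241, nat_lit 1325046325629,
   nat_lit 1325046325629, nat_lit 1049094676861, nat_lit 16, nat_lit 1335783743869,
   nat_lit 4505170105, nat_lit 1060905836925, nat_lit 1060905836925, nat_lit 0, nat_lit 4,
   nat_lit 4433535197, nat_lit 4433535185, nat_lit 4504838345, nat_lit 4504838345,
   nat_lit 4435869790, nat_lit 4504953009, nat_lit 4, nat_lit 4504838261, nat_lit 4504838261,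
   nat_lit 4507172934, nat_lit 4, nat_lit 4504838261, nat_lit 4507172934, nat_lit 4, nat_lit 12,
   nat_lit 8, nat_lit 1134994022897, nat_lit 4505135289, nat_lit 1153247633881,
   nat_lit 1153247633881, nat_lit 20, nat_lit 14235740265, nat_lit 1325046325721,
   nat_lit 1325046325721, nat_lit 1049094676953, nat_lit 16, nat_lit 1335783743961,
   nat_lit 4505170105, nat_lit 1060905837017, nat_lit 1060905837017, nat_lit 0, nat_lit 4,
   nat_lit 4433535197, nat_lit 4433535185, nat_lit 4504838345, nat_lit 4504838345,
   nat_lit 4435869790, nat_lit 4504953009, nat_lit 4, nat_lit 4504838261, nat_lit 4504838261,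
   nat_lit 4507172934, nat_lit 4, nat_lit 4504838261, nat_lit 4507172934, nat_lit 4, nat_lit 12,
   nat_lit 8, nat_lit 1134994022897, nat_lit 4505135289, nat_lit 1153247633881,
   nat_lit 1153247633881, nat_lit 20, nat_lit 14235738217, nat_lit 1325046325753,
   nat_lit 1325046325753, nat_lit 1049094676985, nat_lit 16, nat_lit 1335783743993,
   nat_lit 4505170105, nat_lit 1060905837049, nat_lit 1060905837049, nat_lit 0, nat_lit 4,
   nat_lit 4433535197, nat_lit 4433535185, nat_lit 4504838345, nat_lit 4504838345,
   nat_lit 4435869790, nat_lit 4504953009, nat_lit 4, nat_lit 4504838261, nat_lit 4504838261,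
   nat_lit 4507172934, nat_lit 4, nat_lit 4504838261, nat_lit 4507172934, nat_lit 4, nat_lit 8,
   nat_lit 12, nat_lit 20, nat_lit 14235738217, nat_lit 1325046325761, nat_lit 1325046325761,
   nat_lit 1049094676993, nat_lit 16, nat_lit 1335783744001, nat_lit 4505170105,
   nat_lit 1060905837057, nat_lit 1060905837057, nat_lit 0, nat_lit 16, nat_lit 4433584349,
   nat_lit 4433584337, nat_lit 4504887497, nat_lit 4504887497, nat_lit 4436656222,
   nat_lit 4504953009, nat_lit 16, nat_lit 4504887413, nat_lit 4504887413, nat_lit 4507959366,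
   nat_lit 16, nat_lit 4504887413, nat_lit 4507959366, nat_lit 16, nat_lit 4, nat_lit 4436672606,
   nat_lit 4505150649, nat_lit 4507975750, nat_lit 4507975750, nat_lit 8, nat_lit 12,
   nat_lit 18159975948941, nat_lit 4505152697, nat_lit 18452033725045, nat_lit 18452033725045,
   nat_lit 24, nat_lit 15309483113, nat_lit 21475690701429, nat_lit 21475690701429,
   nat_lit 17060464321141, nat_lit 20, nat_lit 21664669262453, nat_lit 4505187513,
   nat_lit 17266622751349, nat_lit 17266622751349, nat_lit 4, nat_lit 0, nat_lit 4435869790,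
   nat_lit 4505100473, nat_lit 4507172934, nat_lit 4507172934, nat_lit 4, nat_lit 621297706,
   nat_lit 306724898, nat_lit 306724898, nat_lit 212090926, nat_lit 0, nat_lit 208011322,
   nat_lit 4505100473, nat_lit 212205614, nat_lit 208011310]

theorem c8_0 : chk TT UT (gU 8) (sub 0 23) s8_0 = true := by decide +kernel

def s9_0 : List ℕ :=   [nat_lit 0, nat_lit 4308099345, nat_lit 269262897, nat_lit 0, nat_lit 4, nat_lit 8,
   nat_lit 5004624981, nat_lit 5004624993, nat_lit 8, nat_lit 5004625001, nat_lit 4, nat_lit 8,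
   nat_lit 5004624981, nat_lit 8, nat_lit 4981032025, nat_lit 4310321285, nat_lit 4, nat_lit 8,
   nat_lit 5005953137, nat_lit 4, nat_lit 8, nat_lit 5005935701, nat_lit 5005935713, nat_lit 8,
   nat_lit 5005935721, nat_lit 4, nat_lit 8, nat_lit 5004723285, nat_lit 8, nat_lit 4981130329,
   nat_lit 4310327429, nat_lit 4, nat_lit 8, nat_lit 5004723285, nat_lit 5004723285, nat_lit 8,
   nat_lit 5004723285, nat_lit 8, nat_lit 4981131437, nat_lit 4981131477, nat_lit 5005935701,
   nat_lit 5005935713, nat_lit 8, nat_lit 4981130329, nat_lit 5005935721, nat_lit 4, nat_lit 8,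
   nat_lit 5004723285, nat_lit 8, nat_lit 4981039277, nat_lit 5004461141, nat_lit 8,
   nat_lit 4981130329, nat_lit 4976936025, nat_lit 4310327429, nat_lit 4, nat_lit 8,
   nat_lit 4979295321, nat_lit 4310212741, nat_lit 8, nat_lit 5004723285, nat_lit 5004723285,
   nat_lit 4912186457, nat_lit 8, nat_lit 4981130329, nat_lit 4981130329, nat_lit 4310327429,
   nat_lit 4310327429, nat_lit 4309950597, nat_lit 4308230277, nat_lit 8, nat_lit 4981130329,
   nat_lit 4310327429, nat_lit 4310327429, nat_lit 4308099261, nat_lit 4308099225, nat_lit 0,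
   nat_lit 4308099345, nat_lit 269262897, nat_lit 8, nat_lit 4, nat_lit 281436217,
   nat_lit 281436217, nat_lit 271114289, nat_lit 271114289, nat_lit 271114285, nat_lit 283680825,
   nat_lit 283680825, nat_lit 283680821, nat_lit 4, nat_lit 283795513, nat_lit 283795513,
   nat_lit 283795513, nat_lit 283795513, nat_lit 4, nat_lit 283795513, nat_lit 283795513,
   nat_lit 283795513, nat_lit 283795513, nat_lit 4, nat_lit 283795509, nat_lit 283795509,
   nat_lit 283795509, nat_lit 283795509, nat_lit 4, nat_lit 283795513, nat_lit 283795513,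
   nat_lit 4, nat_lit 283795513, nat_lit 283795513, nat_lit 4, nat_lit 283795509,
   nat_lit 283795509, nat_lit 281567269, nat_lit 8, nat_lit 311205929, nat_lit 4310205561,
   nat_lit 4, nat_lit 4310320249, nat_lit 4310320249, nat_lit 310796329, nat_lit 310796329,
   nat_lit 4, nat_lit 4308100285, nat_lit 4308100249, nat_lit 4, nat_lit 0, nat_lit 4308099345,
   nat_lit 269262897, nat_lit 8, nat_lit 709943341, nat_lit 709943341, nat_lit 709943345,
   nat_lit 281567269, nat_lit 8, nat_lit 684220453, nat_lit 8, nat_lit 0, nat_lit 709926965,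
   nat_lit 11358226641, nat_lit 11358995593, nat_lit 11358995597, nat_lit 4899767381,
   nat_lit 4899767393, nat_lit 8, nat_lit 0, nat_lit 4, nat_lit 11045750901, nat_lit 4,
   nat_lit 4913661017, nat_lit 11006795993, nat_lit 4, nat_lit 11008270529, nat_lit 11006795993,
   nat_lit 11006795993, nat_lit 4308099261, nat_lit 0, nat_lit 4, nat_lit 11008264385,
   nat_lit 11006789849, nat_lit 4, nat_lit 11045750945, nat_lit 11045750985, nat_lit 11008002241,
   nat_lit 4, nat_lit 11044522161, nat_lit 11008270529, nat_lit 11045733469, nat_lit 11006795993,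
   nat_lit 11006773465, nat_lit 11006681305, nat_lit 4, nat_lit 11008270529, nat_lit 11006795993,
   nat_lit 11016733797, nat_lit 11006681305, nat_lit 11018985669, nat_lit 4966876245,
   nat_lit 4966876257, nat_lit 4, nat_lit 8, nat_lit 310919206, nat_lit 4337730693,
   nat_lit 4337730689, nat_lit 8, nat_lit 12, nat_lit 0, nat_lit 5046404185, nat_lit 5046296733,
   nat_lit 12, nat_lit 0, nat_lit 5075764313, nat_lit 5075656861, nat_lit 310919206,
   nat_lit 4337730693, nat_lit 4337730689, nat_lit 0, nat_lit 12, nat_lit 5075764313,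
   nat_lit 5075764313, nat_lit 4310196413, nat_lit 310919206, nat_lit 4310205565,
   nat_lit 4310205561, nat_lit 8, nat_lit 5004624981, nat_lit 5004624993, nat_lit 310919206,
   nat_lit 4337730693, nat_lit 4339320997, nat_lit 8, nat_lit 5004625001, nat_lit 310919206,
   nat_lit 4339303557, nat_lit 4339303553, nat_lit 8, nat_lit 12, nat_lit 5048140889, nat_lit 0,
   nat_lit 5048240341, nat_lit 5048239193, nat_lit 5048131741, nat_lit 4981032025, nat_lit 12,
   nat_lit 5077501017, nat_lit 0, nat_lit 5077600469, nat_lit 5077599321, nat_lit 5077491869,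
   nat_lit 310919206, nat_lit 4337845381, nat_lit 4337845377, nat_lit 4310321285, nat_lit 12,
   nat_lit 5077501017, nat_lit 0, nat_lit 5077600469, nat_lit 5077599321, nat_lit 5077491869,
   nat_lit 5077501017, nat_lit 0, nat_lit 5077600469, nat_lit 5077599321, nat_lit 5077491869,
   nat_lit 310919206, nat_lit 4310320253, nat_lit 4310320249, nat_lit 8, nat_lit 12, nat_lit 0,
   nat_lit 5048239193, nat_lit 5048148117, nat_lit 5048148117, nat_lit 12, nat_lit 0,
   nat_lit 5077599321, nat_lit 5077508245, nat_lit 5077508245, nat_lit 310919206,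
   nat_lit 4337845381, nat_lit 4337845377, nat_lit 0, nat_lit 12, nat_lit 5077599321,
   nat_lit 5077599321, nat_lit 4339310725, nat_lit 4339310725, nat_lit 310919206,
   nat_lit 4540630165, nat_lit 4540630161, nat_lit 0, nat_lit 8, nat_lit 4337845381,
   nat_lit 4337845377, nat_lit 4538909845, nat_lit 4538909841, nat_lit 4308247741,
   nat_lit 4310320249, nat_lit 12, nat_lit 5048239193, nat_lit 5044044889, nat_lit 4310589573,
   nat_lit 4308230277, nat_lit 8, nat_lit 4337852549, nat_lit 4337852549, nat_lit 4337852545,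
   nat_lit 4538917013, nat_lit 4538917013, nat_lit 4538917009, nat_lit 4540728409,
   nat_lit 4310327421, nat_lit 4310327417, nat_lit 8, nat_lit 4337852549, nat_lit 4337852545,
   nat_lit 4538917013, nat_lit 4538917009, nat_lit 4540728493, nat_lit 4540728489, nat_lit 8,
   nat_lit 4979318893, nat_lit 4976936097, nat_lit 4310320249, nat_lit 4309934233,
   nat_lit 4308230277, nat_lit 8, nat_lit 4337852549, nat_lit 4337852549, nat_lit 4337852545,
   nat_lit 4538917013, nat_lit 4538917013, nat_lit 4538917009, nat_lit 4540620957,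
   nat_lit 4540620973, nat_lit 4540620969, nat_lit 8, nat_lit 4337852549, nat_lit 4337852545,
   nat_lit 4538917013, nat_lit 4538917009, nat_lit 4310327421, nat_lit 4310327417, nat_lit 8,
   nat_lit 4979318893, nat_lit 4976828509, nat_lit 4310320249, nat_lit 8, nat_lit 12, nat_lit 0,
   nat_lit 5048239193, nat_lit 5048131741, nat_lit 12, nat_lit 0, nat_lit 5077599321,
   nat_lit 5077491869, nat_lit 312754214, nat_lit 4337845381, nat_lit 4337845377, nat_lit 0,
   nat_lit 12, nat_lit 5077599321, nat_lit 5077599321, nat_lit 4339294361, nat_lit 312754214,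
   nat_lit 4310320253, nat_lit 4310320249, nat_lit 0, nat_lit 12, nat_lit 5046445269,
   nat_lit 5077599321, nat_lit 4478099581, nat_lit 4473512089, nat_lit 4507452513,
   nat_lit 4308247705, nat_lit 4310320249, nat_lit 4308100285, nat_lit 4308100249, nat_lit 4,
   nat_lit 8, nat_lit 310919206, nat_lit 4337730693, nat_lit 4337730689, nat_lit 8, nat_lit 12,
   nat_lit 315113510, nat_lit 4341924997, nat_lit 4341924993, nat_lit 12, nat_lit 5075928169,
   nat_lit 315113510, nat_lit 4343760005, nat_lit 4343760001, nat_lit 310919206,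
   nat_lit 4337730693, nat_lit 4337730689, nat_lit 12, nat_lit 0, nat_lit 4310212741,
   nat_lit 4310212741, nat_lit 0, nat_lit 4343767173, nat_lit 4343767173, nat_lit 315113510,
   nat_lit 4342056069, nat_lit 4342056065, nat_lit 0, nat_lit 4343767173, nat_lit 4343767173,
   nat_lit 315113510, nat_lit 4545086613, nat_lit 4545086609, nat_lit 310919206,
   nat_lit 4310205565, nat_lit 4310205561, nat_lit 8, nat_lit 5004624981, nat_lit 5004624993,
   nat_lit 310919206, nat_lit 4337730693, nat_lit 4339320997, nat_lit 8, nat_lit 5004625001,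
   nat_lit 310919206, nat_lit 4339303557, nat_lit 4339303553, nat_lit 8, nat_lit 12,
   nat_lit 315113510, nat_lit 4342039685, nat_lit 4342039681, nat_lit 4981032025, nat_lit 12,
   nat_lit 5076042857, nat_lit 315113510, nat_lit 4343874693, nat_lit 4343874689,
   nat_lit 310919206, nat_lit 4337845381, nat_lit 4337845377, nat_lit 4310321285, nat_lit 12,
   nat_lit 0, nat_lit 5005935713, nat_lit 4310327429, nat_lit 4310327429, nat_lit 0,
   nat_lit 5005935713, nat_lit 4343881861, nat_lit 4343881861, nat_lit 315113510,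
   nat_lit 4343874693, nat_lit 4343874689, nat_lit 0, nat_lit 5005935713, nat_lit 4343881861,
   nat_lit 4343881861, nat_lit 315113510, nat_lit 4545201301, nat_lit 4545201297,
   nat_lit 310919206, nat_lit 4310320253, nat_lit 4310320249, nat_lit 8, nat_lit 12,
   nat_lit 315113510, nat_lit 4342039685, nat_lit 4342039681, nat_lit 12, nat_lit 5076042857,
   nat_lit 315113510, nat_lit 4343874693, nat_lit 4343874689, nat_lit 310919206,
   nat_lit 4337845381, nat_lit 4337845377, nat_lit 12, nat_lit 0, nat_lit 5005935721,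
   nat_lit 4310327429, nat_lit 4310327429, nat_lit 0, nat_lit 5005935721, nat_lit 4343881861,
   nat_lit 4343881861, nat_lit 315113510, nat_lit 4343874693, nat_lit 4343874689, nat_lit 0,
   nat_lit 5005935721, nat_lit 4343881861, nat_lit 4343881861, nat_lit 315113510,
   nat_lit 4545201301, nat_lit 4545201297, nat_lit 310919206, nat_lit 4540630165,
   nat_lit 4540630161, nat_lit 0, nat_lit 12, nat_lit 4342039685, nat_lit 4342039681,
   nat_lit 4543104149, nat_lit 4543104145, nat_lit 4308264125, nat_lit 4310582393, nat_lit 8,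
   nat_lit 4981130329, nat_lit 4976936025, nat_lit 4310327429, nat_lit 4308230277, nat_lit 12,
   nat_lit 4342046853, nat_lit 4342046853, nat_lit 4342046849, nat_lit 4543111317,
   nat_lit 4543111317, nat_lit 4543111313, nat_lit 4544922713, nat_lit 4310589565,
   nat_lit 4310589561, nat_lit 12, nat_lit 4342046853, nat_lit 4342046849, nat_lit 4543111317,
   nat_lit 4543111313, nat_lit 4544922797, nat_lit 4544922793, nat_lit 12, nat_lit 5046427757,
   nat_lit 5044044961, nat_lit 4310582393, nat_lit 4309934233, nat_lit 4308230277, nat_lit 12,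
   nat_lit 4342046853, nat_lit 4342046853, nat_lit 4342046849, nat_lit 4543111317,
   nat_lit 4543111317, nat_lit 4543111313, nat_lit 4544815261, nat_lit 4544815277,
   nat_lit 4544815273, nat_lit 12, nat_lit 4342046853, nat_lit 4342046849, nat_lit 4543111317,
   nat_lit 4543111313, nat_lit 4310589565, nat_lit 4310589561, nat_lit 12, nat_lit 5046427757,
   nat_lit 5043937373, nat_lit 4310582393, nat_lit 8, nat_lit 12, nat_lit 316948518,
   nat_lit 4342039685, nat_lit 4342039681, nat_lit 12, nat_lit 5076042857, nat_lit 316948518,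
   nat_lit 4343874693, nat_lit 4343874689, nat_lit 312754214, nat_lit 4337845381,
   nat_lit 4337845377, nat_lit 12, nat_lit 0, nat_lit 4310327429, nat_lit 4310327429, nat_lit 0,
   nat_lit 4343881861, nat_lit 4343881861, nat_lit 316948518, nat_lit 4343874693,
   nat_lit 4343874689, nat_lit 0, nat_lit 4343881861, nat_lit 4343881861, nat_lit 316948518,
   nat_lit 4545201301, nat_lit 4545201297, nat_lit 312754214, nat_lit 4310320253,
   nat_lit 4310320249, nat_lit 12, nat_lit 0, nat_lit 4310327429, nat_lit 4310327429, nat_lit 0,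
   nat_lit 4343881861, nat_lit 4343881861, nat_lit 316948518, nat_lit 4343874693,
   nat_lit 4341802149, nat_lit 0, nat_lit 4343881861, nat_lit 4343881861, nat_lit 316948518,
   nat_lit 4545201301, nat_lit 4543128797, nat_lit 0, nat_lit 4478099589, nat_lit 4478099589,
   nat_lit 4507731041, nat_lit 4545201301, nat_lit 4545201297, nat_lit 4507452513,
   nat_lit 4308247705, nat_lit 4310320249, nat_lit 4308100285, nat_lit 4308100249, nat_lit 8,
   nat_lit 12, nat_lit 315113510, nat_lit 4341924997, nat_lit 4341924993, nat_lit 12, nat_lit 0,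
   nat_lit 4, nat_lit 4507173985, nat_lit 4308230297, nat_lit 4310041721, nat_lit 4308099225,
   nat_lit 0, nat_lit 4, nat_lit 5046427861, nat_lit 5044044897, nat_lit 4341784729,
   nat_lit 4343596153, nat_lit 4341653657, nat_lit 315113510, nat_lit 4341924997,
   nat_lit 4341924993, nat_lit 0, nat_lit 4, nat_lit 5044044897, nat_lit 4544922729,
   nat_lit 4310589629, nat_lit 4343596153, nat_lit 4310458557, nat_lit 315113510,
   nat_lit 4310467709, nat_lit 4310467705, nat_lit 12, nat_lit 5075928149, nat_lit 5075928161,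
   nat_lit 315113510, nat_lit 4341924997, nat_lit 4343777445, nat_lit 12, nat_lit 5075928169,
   nat_lit 315113510, nat_lit 4343760005, nat_lit 4343760001, nat_lit 12, nat_lit 0, nat_lit 4,
   nat_lit 4540630113, nat_lit 4310321305, nat_lit 4309943417, nat_lit 4, nat_lit 4540728417,
   nat_lit 4310327449, nat_lit 4310041721, nat_lit 4, nat_lit 4540728417, nat_lit 5005935749,
   nat_lit 5005935745, nat_lit 4, nat_lit 4540728417, nat_lit 5004461189, nat_lit 5004461185,
   nat_lit 4540728417, nat_lit 4976936061, nat_lit 4976936057, nat_lit 4, nat_lit 4540728417,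
   nat_lit 4310327449, nat_lit 4310041721, nat_lit 4540728417, nat_lit 4310327449,
   nat_lit 4310041721, nat_lit 4310196377, nat_lit 4310196377, nat_lit 5048403033, nat_lit 0,
   nat_lit 4, nat_lit 5048518869, nat_lit 5077501025, nat_lit 4343875737, nat_lit 4343497849,
   nat_lit 4, nat_lit 5048525013, nat_lit 5077599329, nat_lit 4343881881, nat_lit 4343596153,
   nat_lit 4, nat_lit 5048525013, nat_lit 5077599329, nat_lit 5073044629, nat_lit 5073044625,
   nat_lit 4, nat_lit 5048525013, nat_lit 5077599329, nat_lit 5071570069, nat_lit 5071570065,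
   nat_lit 5048525013, nat_lit 5077599329, nat_lit 4976936061, nat_lit 4976936057, nat_lit 4,
   nat_lit 5048525013, nat_lit 5077599329, nat_lit 4343881881, nat_lit 4343596153,
   nat_lit 5048525013, nat_lit 5077599329, nat_lit 4343881881, nat_lit 4343596153,
   nat_lit 4343750809, nat_lit 4343750809, nat_lit 315113510, nat_lit 4342056069,
   nat_lit 4342056065, nat_lit 4310599813, nat_lit 0, nat_lit 4, nat_lit 5077501025,
   nat_lit 5077501025, nat_lit 4343875737, nat_lit 4343497849, nat_lit 4, nat_lit 5077599329,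
   nat_lit 5077599329, nat_lit 4343881881, nat_lit 4343596153, nat_lit 4, nat_lit 5077599329,
   nat_lit 5077599329, nat_lit 5073044629, nat_lit 5073044625, nat_lit 4, nat_lit 5077599329,
   nat_lit 5077599329, nat_lit 5071570069, nat_lit 5071570065, nat_lit 5077599329,
   nat_lit 5077599329, nat_lit 4976936061, nat_lit 4976936057, nat_lit 4, nat_lit 5077599329,
   nat_lit 5077599329, nat_lit 4343881881, nat_lit 4343596153, nat_lit 5077599329,
   nat_lit 5077599329, nat_lit 4343881881, nat_lit 4343596153, nat_lit 4343750809,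
   nat_lit 4343750809, nat_lit 315113510, nat_lit 4310598781, nat_lit 4310598777, nat_lit 12,
   nat_lit 0, nat_lit 4, nat_lit 4540728417, nat_lit 5005935757, nat_lit 5005935753,
   nat_lit 4310212741, nat_lit 4310212741, nat_lit 0, nat_lit 4, nat_lit 5048525013,
   nat_lit 5077599329, nat_lit 5073044629, nat_lit 5073044625, nat_lit 4343767173,
   nat_lit 4343767173, nat_lit 315113510, nat_lit 4342056069, nat_lit 4342056065, nat_lit 0,
   nat_lit 4, nat_lit 5077599329, nat_lit 5077599329, nat_lit 5073044629, nat_lit 5073044625,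
   nat_lit 4343767173, nat_lit 4343767173, nat_lit 315113510, nat_lit 4545086613,
   nat_lit 4545086609, nat_lit 0, nat_lit 12, nat_lit 4342056069, nat_lit 4342056065,
   nat_lit 4543120533, nat_lit 4543120529, nat_lit 4308265149, nat_lit 4310598777, nat_lit 4,
   nat_lit 12, nat_lit 5048525013, nat_lit 5044330709, nat_lit 5077599329, nat_lit 4473619553,
   nat_lit 4540728417, nat_lit 4310327449, nat_lit 4310041721, nat_lit 4308246661, nat_lit 12,
   nat_lit 4342063237, nat_lit 4342063237, nat_lit 4342063233, nat_lit 4543127701,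
   nat_lit 4543127701, nat_lit 4543127697, nat_lit 4545184857, nat_lit 4310605949,
   nat_lit 4310605945, nat_lit 12, nat_lit 4342063237, nat_lit 4342063233, nat_lit 4543127701,
   nat_lit 4543127697, nat_lit 4545184941, nat_lit 4545184937, nat_lit 12, nat_lit 5046444141,
   nat_lit 5044307105, nat_lit 4310598777, nat_lit 4310196377, nat_lit 4308246661, nat_lit 12,
   nat_lit 4342063237, nat_lit 4342063237, nat_lit 4342063233, nat_lit 4543127701,
   nat_lit 4543127701, nat_lit 4543127697, nat_lit 4545077405, nat_lit 4545077421,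
   nat_lit 4545077417, nat_lit 12, nat_lit 4342063237, nat_lit 4342063233, nat_lit 4543127701,
   nat_lit 4543127697, nat_lit 4310605949, nat_lit 4310605945, nat_lit 12, nat_lit 5046444141,
   nat_lit 5044199517, nat_lit 4310598777, nat_lit 12, nat_lit 0, nat_lit 4, nat_lit 4540728417,
   nat_lit 4310327449, nat_lit 4310041721, nat_lit 4310196377, nat_lit 0, nat_lit 4,
   nat_lit 5048525013, nat_lit 5077599329, nat_lit 4343881881, nat_lit 4343596153,
   nat_lit 4343750809, nat_lit 317210662, nat_lit 4342056069, nat_lit 4342056065, nat_lit 0,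
   nat_lit 4, nat_lit 5077599329, nat_lit 5077599329, nat_lit 4343881881, nat_lit 4343596153,
   nat_lit 4343750809, nat_lit 317210662, nat_lit 4310598781, nat_lit 4310598777, nat_lit 0,
   nat_lit 4, nat_lit 4478099609, nat_lit 4478099609, nat_lit 4478099609, nat_lit 4477813881,
   nat_lit 4477968537, nat_lit 4507731041, nat_lit 4308265113, nat_lit 4310598777,
   nat_lit 4308101309, nat_lit 4308101273, nat_lit 8, nat_lit 12, nat_lit 0, nat_lit 4,
   nat_lit 12119492725, nat_lit 4, nat_lit 4913661017, nat_lit 12499181737, nat_lit 4,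
   nat_lit 12499181737, nat_lit 12499181737, nat_lit 12499181737, nat_lit 4308099261, nat_lit 0,
   nat_lit 4, nat_lit 12499175593, nat_lit 12499175593, nat_lit 4, nat_lit 12501518465,
   nat_lit 12119492809, nat_lit 12499159209, nat_lit 4, nat_lit 12501518465, nat_lit 12499181737,
   nat_lit 12501518465, nat_lit 12499181737, nat_lit 12499159209, nat_lit 12499067049, nat_lit 4,
   nat_lit 12499181737, nat_lit 12499181737, nat_lit 12499706021, nat_lit 12499067049,
   nat_lit 12092727493, nat_lit 12499077289, nat_lit 12499846273, nat_lit 12499846277,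
   nat_lit 12, nat_lit 0, nat_lit 12499159249, nat_lit 12499159249, nat_lit 4,
   nat_lit 12499181737, nat_lit 12499181737, nat_lit 12499706025, nat_lit 12092727493,
   nat_lit 12499077329, nat_lit 12499846281, nat_lit 12499846285, nat_lit 4966876245,
   nat_lit 4966876257, nat_lit 0, nat_lit 4, nat_lit 306724902, nat_lit 4333536389,
   nat_lit 4333536385, nat_lit 4, nat_lit 8, nat_lit 12, nat_lit 5075928169, nat_lit 8,
   nat_lit 12, nat_lit 5077501033, nat_lit 306724902, nat_lit 4333536389, nat_lit 4333536385,
   nat_lit 8, nat_lit 12, nat_lit 5076042837, nat_lit 12, nat_lit 5048517721, nat_lit 5077501033,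
   nat_lit 306724902, nat_lit 4309943421, nat_lit 4309943417, nat_lit 4, nat_lit 4933321813,
   nat_lit 4933321825, nat_lit 306724902, nat_lit 4333536389, nat_lit 4334864549, nat_lit 4,
   nat_lit 4933321833, nat_lit 306724902, nat_lit 4334847109, nat_lit 4334847105, nat_lit 4,
   nat_lit 8, nat_lit 4980769881, nat_lit 12, nat_lit 5076026473, nat_lit 4913661017, nat_lit 8,
   nat_lit 5005935705, nat_lit 12, nat_lit 5077599337, nat_lit 306724902, nat_lit 4333634693,
   nat_lit 4333634689, nat_lit 4310042757, nat_lit 8, nat_lit 5005935705, nat_lit 12,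
   nat_lit 5077599337, nat_lit 5005935705, nat_lit 12, nat_lit 5077599337, nat_lit 5077599337,
   nat_lit 306724902, nat_lit 4310041725, nat_lit 4310041721, nat_lit 4, nat_lit 8, nat_lit 12,
   nat_lit 5076026473, nat_lit 8, nat_lit 12, nat_lit 5077599337, nat_lit 306724902,
   nat_lit 4333634693, nat_lit 4333634689, nat_lit 8, nat_lit 12, nat_lit 5077599337, nat_lit 12,
   nat_lit 5077599337, nat_lit 5077599337, nat_lit 306724902, nat_lit 4536173717,
   nat_lit 4536173713, nat_lit 4, nat_lit 8, nat_lit 12, nat_lit 5076026473, nat_lit 5076026473,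
   nat_lit 12, nat_lit 5076026473, nat_lit 8, nat_lit 12, nat_lit 5076026473, nat_lit 12,
   nat_lit 5075764329, nat_lit 5075764329, nat_lit 8, nat_lit 12, nat_lit 5077518449, nat_lit 8,
   nat_lit 12, nat_lit 5077599337, nat_lit 5077599337, nat_lit 12, nat_lit 5077599337,
   nat_lit 308297766, nat_lit 4333634693, nat_lit 4333634689, nat_lit 8, nat_lit 12,
   nat_lit 5077599337, nat_lit 12, nat_lit 5077599337, nat_lit 5077599337, nat_lit 8, nat_lit 12,
   nat_lit 5077599337, nat_lit 5077599337, nat_lit 12, nat_lit 5077599337, nat_lit 12,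
   nat_lit 5048518829, nat_lit 5048518869, nat_lit 5077599337, nat_lit 5077599337, nat_lit 12,
   nat_lit 5077599337, nat_lit 5077599337, nat_lit 308297766, nat_lit 4534699157,
   nat_lit 4534699153, nat_lit 8, nat_lit 12, nat_lit 5077599337, nat_lit 12, nat_lit 5048411309,
   nat_lit 5077599337, nat_lit 12, nat_lit 5077599337, nat_lit 5077599337, nat_lit 5077599337,
   nat_lit 8, nat_lit 12, nat_lit 5044044905, nat_lit 5044044905, nat_lit 12, nat_lit 5077599337,
   nat_lit 5077599337, nat_lit 4976936041, nat_lit 12, nat_lit 5077599337, nat_lit 5077599337,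
   nat_lit 5077599337, nat_lit 5077599337, nat_lit 4976936041, nat_lit 4473619561, nat_lit 12,
   nat_lit 5077599337, nat_lit 5077599337, nat_lit 5077599337, nat_lit 4507173993,
   nat_lit 4308230333, nat_lit 4310041721, nat_lit 4, nat_lit 8, nat_lit 12, nat_lit 5076026473,
   nat_lit 8, nat_lit 12, nat_lit 5077599337, nat_lit 308297766, nat_lit 4333634693,
   nat_lit 4333634689, nat_lit 8, nat_lit 12, nat_lit 5077599337, nat_lit 12, nat_lit 5077599337,
   nat_lit 5077599337, nat_lit 308297766, nat_lit 4310041725, nat_lit 4310041721, nat_lit 8,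
   nat_lit 4979318997, nat_lit 4976936033, nat_lit 12, nat_lit 12023652545, nat_lit 5077599337,
   nat_lit 4478099645, nat_lit 4507173985, nat_lit 4308230297, nat_lit 4310041721,
   nat_lit 4308099261, nat_lit 4308099225, nat_lit 0, nat_lit 4, nat_lit 306724902,
   nat_lit 4333536389, nat_lit 4333536385, nat_lit 4, nat_lit 8, nat_lit 12, nat_lit 12082268353,
   nat_lit 5075928169, nat_lit 8, nat_lit 12, nat_lit 12082366657, nat_lit 5077501033,
   nat_lit 306724902, nat_lit 4333536389, nat_lit 4333536385, nat_lit 12, nat_lit 8,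
   nat_lit 12082366657, nat_lit 12082366657, nat_lit 5034099797, nat_lit 306724902,
   nat_lit 4309943421, nat_lit 4309943417, nat_lit 4, nat_lit 4933321813, nat_lit 4933321825,
   nat_lit 306724902, nat_lit 4333536389, nat_lit 4334864549, nat_lit 4, nat_lit 4933321833,
   nat_lit 306724902, nat_lit 4334847109, nat_lit 4334847105, nat_lit 4, nat_lit 8,
   nat_lit 4980769881, nat_lit 12, nat_lit 12082274497, nat_lit 5076026473, nat_lit 4913661017,
   nat_lit 8, nat_lit 5005935705, nat_lit 12, nat_lit 12082372801, nat_lit 5077599337,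
   nat_lit 306724902, nat_lit 4333634693, nat_lit 4333634689, nat_lit 4310042757, nat_lit 8,
   nat_lit 5005935705, nat_lit 12, nat_lit 12082372801, nat_lit 5077599337, nat_lit 5005935705,
   nat_lit 12, nat_lit 12082372801, nat_lit 5077599337, nat_lit 306724902, nat_lit 4310041725,
   nat_lit 4310041721, nat_lit 4, nat_lit 12, nat_lit 12080515289, nat_lit 5034083425,
   nat_lit 12, nat_lit 12082088153, nat_lit 5035656289, nat_lit 306724902, nat_lit 4333634693,
   nat_lit 4333634689, nat_lit 12, nat_lit 12082088153, nat_lit 5035656289, nat_lit 306724902,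
   nat_lit 4536173717, nat_lit 4536173713, nat_lit 12, nat_lit 4, nat_lit 4333634689,
   nat_lit 4534699153, nat_lit 4310041721, nat_lit 8, nat_lit 12082274497, nat_lit 12080554201,
   nat_lit 12080554201, nat_lit 12080423129, nat_lit 12092834925, nat_lit 4, nat_lit 12082012377,
   nat_lit 11849827457, nat_lit 12094670001, nat_lit 12050891921, nat_lit 12094670001,
   nat_lit 11826234489, nat_lit 4, nat_lit 12118262965, nat_lit 12118000821, nat_lit 11826234489,
   nat_lit 5034083425, nat_lit 5034083425, nat_lit 4, nat_lit 5035656289, nat_lit 5071832213,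
   nat_lit 5071832209, nat_lit 5048239209, nat_lit 5071570069, nat_lit 5071570065,
   nat_lit 5048239209, nat_lit 4308230333, nat_lit 4310041721, nat_lit 4, nat_lit 11849827457,
   nat_lit 5071832245, nat_lit 12050891921, nat_lit 5071570101, nat_lit 4308230333,
   nat_lit 11826234489, nat_lit 4, nat_lit 11849827457, nat_lit 12050891921, nat_lit 11826234489,
   nat_lit 4, nat_lit 8, nat_lit 12, nat_lit 12082274497, nat_lit 5076026473, nat_lit 8,
   nat_lit 12, nat_lit 12082372801, nat_lit 5077599337, nat_lit 308297766, nat_lit 4333634693,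
   nat_lit 4333634689, nat_lit 12, nat_lit 8, nat_lit 12082372801, nat_lit 12082372801,
   nat_lit 5035656289, nat_lit 308297766, nat_lit 4310041725, nat_lit 4310041721, nat_lit 12,
   nat_lit 8, nat_lit 12122218697, nat_lit 12122218697, nat_lit 12090761409, nat_lit 5046427861,
   nat_lit 4507173985, nat_lit 4308230297, nat_lit 4310041721, nat_lit 4308099261,
   nat_lit 4308099225, nat_lit 0, nat_lit 4, nat_lit 306724902, nat_lit 4333536389,
   nat_lit 4333536385, nat_lit 4, nat_lit 8, nat_lit 12, nat_lit 12499077329,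
   nat_lit 12499846281, nat_lit 12499846285, nat_lit 4966876257, nat_lit 8, nat_lit 12,
   nat_lit 12499175633, nat_lit 12499175633, nat_lit 12501419145, nat_lit 12501419149,
   nat_lit 4968449121, nat_lit 306724902, nat_lit 4333536389, nat_lit 4333536385, nat_lit 8,
   nat_lit 12, nat_lit 12499175633, nat_lit 12094571629, nat_lit 12499960961,
   nat_lit 12499960965, nat_lit 4966990933, nat_lit 306724902, nat_lit 4309943421,
   nat_lit 4309943417, nat_lit 4, nat_lit 4933321813, nat_lit 4933321825, nat_lit 306724902,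
   nat_lit 4333536389, nat_lit 4334864549, nat_lit 4, nat_lit 4933321833, nat_lit 306724902,
   nat_lit 4334847109, nat_lit 4334847105, nat_lit 4, nat_lit 8, nat_lit 12, nat_lit 12499083473,
   nat_lit 12499944585, nat_lit 12499944589, nat_lit 12, nat_lit 12499083473,
   nat_lit 12499944585, nat_lit 12499944589, nat_lit 4980769881, nat_lit 4966974561,
   nat_lit 4913661017, nat_lit 8, nat_lit 12, nat_lit 12499181777, nat_lit 12499181777,
   nat_lit 12501517449, nat_lit 12501517453, nat_lit 12, nat_lit 12499181777,
   nat_lit 12499181777, nat_lit 12501517449, nat_lit 12501517453, nat_lit 5005935705,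
   nat_lit 4968547425, nat_lit 306724902, nat_lit 4333634693, nat_lit 4333634689,
   nat_lit 4310042757, nat_lit 8, nat_lit 12, nat_lit 12499181777, nat_lit 12094669933,
   nat_lit 12501517449, nat_lit 12501517453, nat_lit 12, nat_lit 12499181777,
   nat_lit 12094669933, nat_lit 12501517449, nat_lit 12501517453, nat_lit 5005935705,
   nat_lit 4968547425, nat_lit 306724902, nat_lit 4310041725, nat_lit 4310041721, nat_lit 4,
   nat_lit 8, nat_lit 11006773465, nat_lit 4966974561, nat_lit 8, nat_lit 11008346329,
   nat_lit 4968547425, nat_lit 306724902, nat_lit 4333634693, nat_lit 4333634689, nat_lit 8,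
   nat_lit 11008346329, nat_lit 4968547425, nat_lit 306724902, nat_lit 4536173717,
   nat_lit 4536173713, nat_lit 8, nat_lit 4, nat_lit 4333634689, nat_lit 4534699153,
   nat_lit 4310041721, nat_lit 12, nat_lit 4, nat_lit 12499181777, nat_lit 12499181777,
   nat_lit 12499181777, nat_lit 12499067089, nat_lit 12092834925, nat_lit 12499944585,
   nat_lit 12499944589, nat_lit 11006681305, nat_lit 11019093101, nat_lit 4, nat_lit 11008270553,
   nat_lit 10776085633, nat_lit 11020928177, nat_lit 10977150097, nat_lit 11020928177,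
   nat_lit 10752492665, nat_lit 4, nat_lit 11044521141, nat_lit 11044258997, nat_lit 10752492665,
   nat_lit 4966974561, nat_lit 4966974561, nat_lit 4, nat_lit 4968547425, nat_lit 5004723349,
   nat_lit 5004723345, nat_lit 4981130345, nat_lit 5004461205, nat_lit 5004461201,
   nat_lit 4981130345, nat_lit 4308230333, nat_lit 4310041721, nat_lit 4, nat_lit 10776085633,
   nat_lit 5004723381, nat_lit 10977150097, nat_lit 5004461237, nat_lit 4308230333,
   nat_lit 10752492665, nat_lit 4, nat_lit 10776085633, nat_lit 10977150097, nat_lit 10752492665,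
   nat_lit 4, nat_lit 8, nat_lit 12, nat_lit 12499083473, nat_lit 12499944585,
   nat_lit 12499944589, nat_lit 4966974561, nat_lit 8, nat_lit 12, nat_lit 12499181777,
   nat_lit 12499181777, nat_lit 12501517449, nat_lit 12501517453, nat_lit 4968547425,
   nat_lit 308297766, nat_lit 4333634693, nat_lit 4333634689, nat_lit 8, nat_lit 12,
   nat_lit 12499181777, nat_lit 12094669933, nat_lit 12501517449, nat_lit 12501517453,
   nat_lit 4968547425, nat_lit 308297766, nat_lit 4310041725, nat_lit 4310041721, nat_lit 8,
   nat_lit 12, nat_lit 12499706065, nat_lit 12499706065, nat_lit 12499706065,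
   nat_lit 12499706069, nat_lit 4979318997, nat_lit 4507173985, nat_lit 4308230297,
   nat_lit 4310041721, nat_lit 4308099261, nat_lit 4308099225, nat_lit 0, nat_lit 4,
   nat_lit 306724902, nat_lit 4333536389, nat_lit 4333536385, nat_lit 4, nat_lit 8,
   nat_lit 310919206, nat_lit 4337730693, nat_lit 4337730689, nat_lit 8, nat_lit 5004625001,
   nat_lit 310919206, nat_lit 4339303557, nat_lit 4339303553, nat_lit 306724902,
   nat_lit 4333536389, nat_lit 4333536385, nat_lit 8, nat_lit 12, nat_lit 12080531673,
   nat_lit 5034099809, nat_lit 12, nat_lit 12082366681, nat_lit 5035934817, nat_lit 310919206,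
   nat_lit 4337845381, nat_lit 4337845377, nat_lit 12, nat_lit 12082366681, nat_lit 5035934817,
   nat_lit 310919206, nat_lit 4540630165, nat_lit 4540630161, nat_lit 306724902,
   nat_lit 4309943421, nat_lit 4309943417, nat_lit 4, nat_lit 4933321813, nat_lit 4933321825,
   nat_lit 306724902, nat_lit 4333536389, nat_lit 4334864549, nat_lit 4, nat_lit 4933321833,
   nat_lit 306724902, nat_lit 4334847109, nat_lit 4334847105, nat_lit 4, nat_lit 8,
   nat_lit 310919206, nat_lit 4337828997, nat_lit 4337828993, nat_lit 4913661017, nat_lit 8,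
   nat_lit 5004723305, nat_lit 310919206, nat_lit 4339401861, nat_lit 4339401857,
   nat_lit 306724902, nat_lit 4333634693, nat_lit 4333634689, nat_lit 4310042757, nat_lit 8,
   nat_lit 12, nat_lit 12080537817, nat_lit 5034099809, nat_lit 12, nat_lit 12082372825,
   nat_lit 5035934817, nat_lit 310919206, nat_lit 4339401861, nat_lit 4339401857, nat_lit 12,
   nat_lit 12082372825, nat_lit 5035934817, nat_lit 310919206, nat_lit 4540728469,
   nat_lit 4540728465, nat_lit 306724902, nat_lit 4310041725, nat_lit 4310041721, nat_lit 4,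
   nat_lit 8, nat_lit 310919206, nat_lit 4337828997, nat_lit 4337828993, nat_lit 8,
   nat_lit 5004723305, nat_lit 310919206, nat_lit 4339401861, nat_lit 4339401857,
   nat_lit 306724902, nat_lit 4333634693, nat_lit 4333634689, nat_lit 8, nat_lit 12,
   nat_lit 12119475309, nat_lit 5034099809, nat_lit 12, nat_lit 12119475309, nat_lit 5035934817,
   nat_lit 310919206, nat_lit 4339401861, nat_lit 4339401857, nat_lit 12, nat_lit 12119475309,
   nat_lit 5035934817, nat_lit 310919206, nat_lit 4540728469, nat_lit 4540728465,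
   nat_lit 306724902, nat_lit 4536173717, nat_lit 4536173713, nat_lit 12, nat_lit 8,
   nat_lit 4337828993, nat_lit 4538893457, nat_lit 4310303865, nat_lit 4, nat_lit 12082012353,
   nat_lit 12080537817, nat_lit 12080537817, nat_lit 12080423129, nat_lit 12092834925, nat_lit 8,
   nat_lit 12082274521, nat_lit 11854021761, nat_lit 12094932145, nat_lit 12055086225,
   nat_lit 12094932145, nat_lit 11826496633, nat_lit 8, nat_lit 12122457269, nat_lit 12122195125,
   nat_lit 11826496633, nat_lit 5034083425, nat_lit 5034083425, nat_lit 8, nat_lit 5035918433,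
   nat_lit 5076026517, nat_lit 5076026513, nat_lit 5048501353, nat_lit 5075764373,
   nat_lit 5075764369, nat_lit 5048501353, nat_lit 4308246717, nat_lit 4310303865, nat_lit 8,
   nat_lit 11854021761, nat_lit 5076026549, nat_lit 12055086225, nat_lit 5075764405,
   nat_lit 4308246717, nat_lit 11826496633, nat_lit 8, nat_lit 11854021761, nat_lit 12055086225,
   nat_lit 11826496633, nat_lit 4, nat_lit 8, nat_lit 312492070, nat_lit 4337828997,
   nat_lit 4337828993, nat_lit 8, nat_lit 5004723305, nat_lit 312492070, nat_lit 4339401861,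
   nat_lit 4339401857, nat_lit 308297766, nat_lit 4333634693, nat_lit 4333634689, nat_lit 8,
   nat_lit 12, nat_lit 12080537817, nat_lit 5034099809, nat_lit 12, nat_lit 12082372825,
   nat_lit 5035934817, nat_lit 312492070, nat_lit 4339401861, nat_lit 4339401857, nat_lit 12,
   nat_lit 12082372825, nat_lit 5035934817, nat_lit 312492070, nat_lit 4540728469,
   nat_lit 4540728465, nat_lit 308297766, nat_lit 4310041725, nat_lit 4310041721, nat_lit 8,
   nat_lit 12, nat_lit 12090475621, nat_lit 11824423077, nat_lit 12, nat_lit 12090475621,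
   nat_lit 11853783205, nat_lit 312492070, nat_lit 4339401861, nat_lit 4337590437, nat_lit 12,
   nat_lit 12090475621, nat_lit 11853783205, nat_lit 312492070, nat_lit 4540728469,
   nat_lit 4538917085, nat_lit 12, nat_lit 12090761433, nat_lit 12023652569, nat_lit 4507452513,
   nat_lit 4540728469, nat_lit 4540728465, nat_lit 4507173985, nat_lit 4308230297,
   nat_lit 4310041721, nat_lit 4308099261, nat_lit 4308099225, nat_lit 12, nat_lit 0,
   nat_lit 4308099345, nat_lit 269262897, nat_lit 16, nat_lit 4, nat_lit 8, nat_lit 271212593,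
   nat_lit 271212593, nat_lit 271212589, nat_lit 8, nat_lit 271212593, nat_lit 271212593,
   nat_lit 271212589, nat_lit 283795513, nat_lit 283795513, nat_lit 283795509, nat_lit 8,
   nat_lit 271212593, nat_lit 271212593, nat_lit 271212589, nat_lit 283795513, nat_lit 283795513,
   nat_lit 283795509, nat_lit 283795513, nat_lit 283795513, nat_lit 283795509, nat_lit 281436217,
   nat_lit 4, nat_lit 8, nat_lit 271114289, nat_lit 271114289, nat_lit 271114285,
   nat_lit 283680825, nat_lit 283680825, nat_lit 283680821, nat_lit 8, nat_lit 271212593,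
   nat_lit 271212593, nat_lit 271212589, nat_lit 824483881, nat_lit 8, nat_lit 271212593,
   nat_lit 271212593, nat_lit 271212589, nat_lit 283795513, nat_lit 283795513, nat_lit 283795509,
   nat_lit 824483881, nat_lit 822763561, nat_lit 8, nat_lit 271212593, nat_lit 271212593,
   nat_lit 271212589, nat_lit 283795513, nat_lit 283795513, nat_lit 283795509, nat_lit 283795513,
   nat_lit 283795513, nat_lit 283795509, nat_lit 822763561, nat_lit 281436217, nat_lit 822911017,
   nat_lit 281567269, nat_lit 8, nat_lit 311205929, nat_lit 4310205561, nat_lit 16, nat_lit 4,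
   nat_lit 4306125945, nat_lit 310796329, nat_lit 4, nat_lit 4306125945, nat_lit 4310320249,
   nat_lit 310796329, nat_lit 4308100249, nat_lit 13154157669, nat_lit 13623919701,
   nat_lit 13623919701, nat_lit 4, nat_lit 4308100285, nat_lit 4308100249, nat_lit 16,
   nat_lit 13154157669, nat_lit 13623919701, nat_lit 13623919701, nat_lit 72081891657,
   nat_lit 16, nat_lit 13639935065, nat_lit 16, nat_lit 4, nat_lit 13640026321,
   nat_lit 13640026321, nat_lit 0, nat_lit 269377585, nat_lit 8, nat_lit 271212593,
   nat_lit 271212593, nat_lit 271212589, nat_lit 283795513, nat_lit 283795513, nat_lit 283795509,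
   nat_lit 283795513, nat_lit 283795513, nat_lit 283795509, nat_lit 283402277, nat_lit 8,
   nat_lit 311320617, nat_lit 4310205561, nat_lit 4310320249, nat_lit 13166470341,
   nat_lit 13639928017, nat_lit 13640696969, nat_lit 13640696973, nat_lit 5033985109,
   nat_lit 5033985121, nat_lit 12, nat_lit 16, nat_lit 319307814, nat_lit 4346119301,
   nat_lit 4346119297, nat_lit 16, nat_lit 0, nat_lit 4, nat_lit 8, nat_lit 4310327429,
   nat_lit 4308099225, nat_lit 0, nat_lit 4, nat_lit 8, nat_lit 4348076165, nat_lit 4345847961,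
   nat_lit 319307814, nat_lit 4346119301, nat_lit 4346119297, nat_lit 0, nat_lit 4, nat_lit 8,
   nat_lit 4348076165, nat_lit 4310720701, nat_lit 319307814, nat_lit 4310729853,
   nat_lit 4310729849, nat_lit 16, nat_lit 5147231317, nat_lit 5147231329, nat_lit 319307814,
   nat_lit 4346119301, nat_lit 4348233893, nat_lit 16, nat_lit 5147231337, nat_lit 319307814,
   nat_lit 4348216453, nat_lit 4348216449, nat_lit 16, nat_lit 0, nat_lit 4, nat_lit 8,
   nat_lit 4310321285, nat_lit 4, nat_lit 8, nat_lit 4310327429, nat_lit 4, nat_lit 8,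
   nat_lit 5005935701, nat_lit 5077600409, nat_lit 8, nat_lit 5077600445, nat_lit 4, nat_lit 8,
   nat_lit 5004461141, nat_lit 8, nat_lit 5075787901, nat_lit 5044330629, nat_lit 4, nat_lit 8,
   nat_lit 4310212741, nat_lit 8, nat_lit 4310327429, nat_lit 4310327429, nat_lit 4309950597,
   nat_lit 4308230277, nat_lit 8, nat_lit 4310327429, nat_lit 4310327429, nat_lit 4310458521,
   nat_lit 4310458521, nat_lit 5115774041, nat_lit 0, nat_lit 4, nat_lit 8, nat_lit 4348070021,
   nat_lit 4, nat_lit 8, nat_lit 4348076165, nat_lit 4, nat_lit 8, nat_lit 5005935701,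
   nat_lit 13667535001, nat_lit 8, nat_lit 13667535037, nat_lit 4, nat_lit 8, nat_lit 5004461141,
   nat_lit 8, nat_lit 13665722493, nat_lit 13634265221, nat_lit 4, nat_lit 8, nat_lit 4347961477,
   nat_lit 8, nat_lit 4348076165, nat_lit 4348076165, nat_lit 4347699333, nat_lit 4345979013,
   nat_lit 8, nat_lit 4348076165, nat_lit 4348076165, nat_lit 4348207257, nat_lit 4348207257,
   nat_lit 319307814, nat_lit 4346266757, nat_lit 4346266753, nat_lit 4310878341, nat_lit 0,
   nat_lit 4, nat_lit 8, nat_lit 4348070021, nat_lit 4, nat_lit 8, nat_lit 4348076165, nat_lit 4,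
   nat_lit 8, nat_lit 5005935701, nat_lit 13667535001, nat_lit 8, nat_lit 13667535037, nat_lit 4,
   nat_lit 8, nat_lit 5004461141, nat_lit 8, nat_lit 13665722493, nat_lit 13634265221, nat_lit 4,
   nat_lit 8, nat_lit 4347961477, nat_lit 8, nat_lit 4348076165, nat_lit 4348076165,
   nat_lit 4347699333, nat_lit 4345979013, nat_lit 8, nat_lit 4348076165, nat_lit 4348076165,
   nat_lit 4348207257, nat_lit 4348207257, nat_lit 319307814, nat_lit 4310877309,
   nat_lit 4310877305, nat_lit 16, nat_lit 0, nat_lit 4, nat_lit 8, nat_lit 5005935721,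
   nat_lit 4310474885, nat_lit 4310474885, nat_lit 0, nat_lit 4, nat_lit 8, nat_lit 5005935721,
   nat_lit 4348223621, nat_lit 4348223621, nat_lit 319307814, nat_lit 4346266757,
   nat_lit 4346266753, nat_lit 0, nat_lit 4, nat_lit 8, nat_lit 5005935721, nat_lit 4348223621,
   nat_lit 4348223621, nat_lit 319307814, nat_lit 4549543061, nat_lit 4549543057, nat_lit 0,
   nat_lit 16, nat_lit 4346266757, nat_lit 4346266753, nat_lit 4547331221, nat_lit 4547331217,
   nat_lit 4308282557, nat_lit 4310877305, nat_lit 4, nat_lit 8, nat_lit 4310327429,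
   nat_lit 4308263045, nat_lit 16, nat_lit 4346273925, nat_lit 4346273925, nat_lit 4346273921,
   nat_lit 4547338389, nat_lit 4547338389, nat_lit 4547338385, nat_lit 4549641305,
   nat_lit 4310884477, nat_lit 4310884473, nat_lit 16, nat_lit 4346273925, nat_lit 4346273921,
   nat_lit 4547338389, nat_lit 4547338385, nat_lit 4549641389, nat_lit 4549641385, nat_lit 16,
   nat_lit 5113569389, nat_lit 5111678113, nat_lit 4310877305, nat_lit 4310458521,
   nat_lit 4308263045, nat_lit 16, nat_lit 4346273925, nat_lit 4346273925, nat_lit 4346273921,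
   nat_lit 4547338389, nat_lit 4547338389, nat_lit 4547338385, nat_lit 4549533853,
   nat_lit 4549533869, nat_lit 4549533865, nat_lit 16, nat_lit 4346273925, nat_lit 4346273921,
   nat_lit 4547338389, nat_lit 4547338385, nat_lit 4310884477, nat_lit 4310884473, nat_lit 16,
   nat_lit 5113569389, nat_lit 5111570525, nat_lit 4310877305, nat_lit 16, nat_lit 0, nat_lit 4,
   nat_lit 8, nat_lit 4310327429, nat_lit 4310458521, nat_lit 0, nat_lit 4, nat_lit 8,
   nat_lit 4348076165, nat_lit 4348207257, nat_lit 321667110, nat_lit 4346266757,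
   nat_lit 4346266753, nat_lit 0, nat_lit 4, nat_lit 8, nat_lit 4348076165, nat_lit 4348207257,
   nat_lit 321667110, nat_lit 4310877309, nat_lit 4310877305, nat_lit 0, nat_lit 4, nat_lit 8,
   nat_lit 4482293893, nat_lit 4482424985, nat_lit 4508009569, nat_lit 4308282521,
   nat_lit 4310877305, nat_lit 4308102333, nat_lit 4308102297, nat_lit 16, nat_lit 20, nat_lit 4,
   nat_lit 8, nat_lit 5004624981, nat_lit 5004624993, nat_lit 310919206, nat_lit 4337730693,
   nat_lit 4339320997, nat_lit 8, nat_lit 12, nat_lit 5048140889, nat_lit 0, nat_lit 5048240341,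
   nat_lit 5048239193, nat_lit 5048131741, nat_lit 4981032025, nat_lit 12, nat_lit 5077501017,
   nat_lit 0, nat_lit 5077600469, nat_lit 5077599321, nat_lit 5077491869, nat_lit 310919206,
   nat_lit 4337845381, nat_lit 14229759181, nat_lit 4310321285, nat_lit 12, nat_lit 5077501017,
   nat_lit 0, nat_lit 5077600469, nat_lit 5077599321, nat_lit 5077491869, nat_lit 5077501017,
   nat_lit 0, nat_lit 5077600469, nat_lit 5077599321, nat_lit 5077491869, nat_lit 310919206,
   nat_lit 4310320253, nat_lit 14228038841, nat_lit 0, nat_lit 8, nat_lit 4337845381,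
   nat_lit 14229759181, nat_lit 4538909845, nat_lit 4538909841, nat_lit 4308247741,
   nat_lit 14228038841, nat_lit 12, nat_lit 5048239193, nat_lit 5044044889, nat_lit 4310589573,
   nat_lit 4308230277, nat_lit 8, nat_lit 4337852549, nat_lit 4337852549, nat_lit 14229759181,
   nat_lit 4538917013, nat_lit 4538917013, nat_lit 4538917009, nat_lit 4540728409,
   nat_lit 4310327421, nat_lit 14228038841, nat_lit 8, nat_lit 4337852549, nat_lit 14229759181,
   nat_lit 4538917013, nat_lit 4538917009, nat_lit 4540728493, nat_lit 4540728489, nat_lit 8,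
   nat_lit 4979318893, nat_lit 4976936097, nat_lit 14228038841, nat_lit 4309934233,
   nat_lit 4308230277, nat_lit 8, nat_lit 4337852549, nat_lit 4337852549, nat_lit 14229759181,
   nat_lit 4538917013, nat_lit 4538917013, nat_lit 4538917009, nat_lit 4540620957,
   nat_lit 4540620973, nat_lit 4540620969, nat_lit 8, nat_lit 4337852549, nat_lit 14229759181,
   nat_lit 4538917013, nat_lit 4538917009, nat_lit 4310327421, nat_lit 14228038841, nat_lit 8,
   nat_lit 4979318893, nat_lit 4976828509, nat_lit 14228038841, nat_lit 4308100285, nat_lit 4,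
   nat_lit 8, nat_lit 12, nat_lit 0, nat_lit 5046404185, nat_lit 5046296733, nat_lit 12,
   nat_lit 0, nat_lit 5075764313, nat_lit 5075656861, nat_lit 310919206, nat_lit 4337730693,
   nat_lit 14229752013, nat_lit 0, nat_lit 12, nat_lit 5075764313, nat_lit 5075764313,
   nat_lit 4310196413, nat_lit 310919206, nat_lit 4310205565, nat_lit 14228031673, nat_lit 8,
   nat_lit 14271432901, nat_lit 310919206, nat_lit 4337730693, nat_lit 14229752013,
   nat_lit 14780876969, nat_lit 8, nat_lit 12, nat_lit 0, nat_lit 14275709125,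
   nat_lit 5048239193, nat_lit 5048131741, nat_lit 12, nat_lit 0, nat_lit 14275709125,
   nat_lit 5077599321, nat_lit 5077491869, nat_lit 310919206, nat_lit 4337845381,
   nat_lit 14229759181, nat_lit 12, nat_lit 0, nat_lit 14275709125, nat_lit 5077599321,
   nat_lit 5077491869, nat_lit 0, nat_lit 14275709125, nat_lit 5077599321, nat_lit 5077491869,
   nat_lit 310919206, nat_lit 4310320253, nat_lit 14228038841, nat_lit 14780876969,
   nat_lit 14780769449, nat_lit 8, nat_lit 12, nat_lit 0, nat_lit 5048239193, nat_lit 5048131741,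
   nat_lit 12, nat_lit 0, nat_lit 5077599321, nat_lit 5077491869, nat_lit 312754214,
   nat_lit 4337845381, nat_lit 14229759181, nat_lit 0, nat_lit 12, nat_lit 5077599321,
   nat_lit 5077599321, nat_lit 4339294361, nat_lit 312754214, nat_lit 4310320253,
   nat_lit 14228038841, nat_lit 0, nat_lit 12, nat_lit 14273914053, nat_lit 14273914053,
   nat_lit 4478099581, nat_lit 4473512089, nat_lit 14240359621, nat_lit 14240359621,
   nat_lit 14228038841, nat_lit 14780769449, nat_lit 14240212165, nat_lit 14780778665,
   nat_lit 14781547649, nat_lit 14781547653, nat_lit 20, nat_lit 4, nat_lit 14780877009,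
   nat_lit 14780877009, nat_lit 8, nat_lit 12, nat_lit 0, nat_lit 5048239193, nat_lit 5048131741,
   nat_lit 12, nat_lit 0, nat_lit 5077599321, nat_lit 5077491869, nat_lit 312754214,
   nat_lit 4337845381, nat_lit 14229759181, nat_lit 0, nat_lit 12, nat_lit 5077599321,
   nat_lit 5077599321, nat_lit 4339294361, nat_lit 312754214, nat_lit 4310320253,
   nat_lit 14228038841, nat_lit 0, nat_lit 12, nat_lit 14273914053, nat_lit 14273914053,
   nat_lit 4478099581, nat_lit 4473512089, nat_lit 14240359621, nat_lit 14240359621,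
   nat_lit 14228038841, nat_lit 14240212165, nat_lit 14780778705, nat_lit 14781547657,
   nat_lit 14781547661, nat_lit 5101093973, nat_lit 5101093985, nat_lit 16, nat_lit 20,
   nat_lit 4, nat_lit 8, nat_lit 5004624981, nat_lit 5004624993, nat_lit 310919206,
   nat_lit 4337730693, nat_lit 4339320997, nat_lit 8, nat_lit 12, nat_lit 315113510,
   nat_lit 4342039685, nat_lit 14230021325, nat_lit 4981032025, nat_lit 12, nat_lit 5076042857,
   nat_lit 315113510, nat_lit 4343874693, nat_lit 14230136013, nat_lit 310919206,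
   nat_lit 4337845381, nat_lit 14229759181, nat_lit 4310321285, nat_lit 12, nat_lit 0,
   nat_lit 5005935713, nat_lit 4310327429, nat_lit 4310327429, nat_lit 0, nat_lit 5005935713,
   nat_lit 4343881861, nat_lit 4343881861, nat_lit 315113510, nat_lit 4343874693,
   nat_lit 14230136013, nat_lit 0, nat_lit 5005935713, nat_lit 4343881861, nat_lit 4343881861,
   nat_lit 315113510, nat_lit 4545201301, nat_lit 4545201297, nat_lit 310919206,
   nat_lit 4310320253, nat_lit 14228038841, nat_lit 0, nat_lit 12, nat_lit 4342039685,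
   nat_lit 14230021325, nat_lit 4543104149, nat_lit 4543104145, nat_lit 4308264125,
   nat_lit 14228055225, nat_lit 8, nat_lit 4981130329, nat_lit 4976936025, nat_lit 4310327429,
   nat_lit 4308230277, nat_lit 12, nat_lit 4342046853, nat_lit 4342046853, nat_lit 14230021325,
   nat_lit 4543111317, nat_lit 4543111317, nat_lit 4543111313, nat_lit 4544922713,
   nat_lit 4310589565, nat_lit 14228055225, nat_lit 12, nat_lit 4342046853, nat_lit 14230021325,
   nat_lit 4543111317, nat_lit 4543111313, nat_lit 4544922797, nat_lit 4544922793, nat_lit 12,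
   nat_lit 5046427757, nat_lit 5044044961, nat_lit 14228055225, nat_lit 4309934233,
   nat_lit 4308230277, nat_lit 12, nat_lit 4342046853, nat_lit 4342046853, nat_lit 14230021325,
   nat_lit 4543111317, nat_lit 4543111317, nat_lit 4543111313, nat_lit 4544815261,
   nat_lit 4544815277, nat_lit 4544815273, nat_lit 12, nat_lit 4342046853, nat_lit 14230021325,
   nat_lit 4543111317, nat_lit 4543111313, nat_lit 4310589565, nat_lit 14228055225, nat_lit 12,
   nat_lit 5046427757, nat_lit 5043937373, nat_lit 14228055225, nat_lit 4308100285, nat_lit 4,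
   nat_lit 8, nat_lit 12, nat_lit 315113510, nat_lit 4341924997, nat_lit 14230014157, nat_lit 12,
   nat_lit 5075928169, nat_lit 315113510, nat_lit 4343760005, nat_lit 14230128845,
   nat_lit 310919206, nat_lit 4337730693, nat_lit 14229752013, nat_lit 12, nat_lit 0,
   nat_lit 4310212741, nat_lit 4310212741, nat_lit 0, nat_lit 4343767173, nat_lit 4343767173,
   nat_lit 315113510, nat_lit 4342056069, nat_lit 14230128845, nat_lit 0, nat_lit 4343767173,
   nat_lit 4343767173, nat_lit 315113510, nat_lit 4545086613, nat_lit 4545086609,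
   nat_lit 310919206, nat_lit 4310205565, nat_lit 14228031673, nat_lit 8, nat_lit 14271432901,
   nat_lit 310919206, nat_lit 4337730693, nat_lit 14229752013, nat_lit 14780876969, nat_lit 8,
   nat_lit 12, nat_lit 315113510, nat_lit 4342039685, nat_lit 14230021325, nat_lit 12,
   nat_lit 5076042857, nat_lit 315113510, nat_lit 4343874693, nat_lit 14230136013,
   nat_lit 310919206, nat_lit 4337845381, nat_lit 14229759181, nat_lit 12, nat_lit 0,
   nat_lit 14271514821, nat_lit 4310327429, nat_lit 4310327429, nat_lit 0, nat_lit 14741276869,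
   nat_lit 4343881861, nat_lit 4343881861, nat_lit 315113510, nat_lit 4343874693,
   nat_lit 14230136013, nat_lit 0, nat_lit 14741276869, nat_lit 4343881861, nat_lit 4343881861,
   nat_lit 315113510, nat_lit 4545201301, nat_lit 4545201297, nat_lit 310919206,
   nat_lit 4310320253, nat_lit 14228038841, nat_lit 14780876969, nat_lit 14780769449, nat_lit 8,
   nat_lit 12, nat_lit 316948518, nat_lit 4342039685, nat_lit 14230021325, nat_lit 12,
   nat_lit 5076042857, nat_lit 316948518, nat_lit 4343874693, nat_lit 14230136013,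
   nat_lit 312754214, nat_lit 4337845381, nat_lit 14229759181, nat_lit 12, nat_lit 0,
   nat_lit 4310327429, nat_lit 4310327429, nat_lit 0, nat_lit 4343881861, nat_lit 4343881861,
   nat_lit 316948518, nat_lit 4343874693, nat_lit 14230136013, nat_lit 0, nat_lit 4343881861,
   nat_lit 4343881861, nat_lit 316948518, nat_lit 4545201301, nat_lit 4545201297,
   nat_lit 312754214, nat_lit 4310320253, nat_lit 14228038841, nat_lit 12, nat_lit 0,
   nat_lit 4310327429, nat_lit 4310327429, nat_lit 0, nat_lit 4343881861, nat_lit 4343881861,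
   nat_lit 316948518, nat_lit 4343874693, nat_lit 14230136013, nat_lit 0, nat_lit 4343881861,
   nat_lit 4343881861, nat_lit 316948518, nat_lit 4545201301, nat_lit 4543128797, nat_lit 0,
   nat_lit 4478099589, nat_lit 4478099589, nat_lit 14171415757, nat_lit 14171415757,
   nat_lit 14238524621, nat_lit 14240359621, nat_lit 14240359621, nat_lit 14228038841,
   nat_lit 14780769449, nat_lit 14240212165, nat_lit 14780778665, nat_lit 14781547649,
   nat_lit 14781547653, nat_lit 20, nat_lit 4, nat_lit 14780877009, nat_lit 14780877009,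
   nat_lit 8, nat_lit 12, nat_lit 316948518, nat_lit 4342039685, nat_lit 14230021325, nat_lit 12,
   nat_lit 5076042857, nat_lit 316948518, nat_lit 4343874693, nat_lit 14230136013,
   nat_lit 312754214, nat_lit 4337845381, nat_lit 14229759181, nat_lit 12, nat_lit 0,
   nat_lit 4310327429, nat_lit 4310327429, nat_lit 0, nat_lit 4343881861, nat_lit 4343881861,
   nat_lit 316948518, nat_lit 4343874693, nat_lit 14230136013, nat_lit 0, nat_lit 4343881861,
   nat_lit 4343881861, nat_lit 316948518, nat_lit 4545201301, nat_lit 4545201297,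
   nat_lit 312754214, nat_lit 4310320253, nat_lit 14228038841, nat_lit 12, nat_lit 0,
   nat_lit 4310327429, nat_lit 4310327429, nat_lit 0, nat_lit 4343881861, nat_lit 4343881861,
   nat_lit 316948518, nat_lit 4343874693, nat_lit 14230136013, nat_lit 0, nat_lit 4343881861,
   nat_lit 4343881861, nat_lit 316948518, nat_lit 4545201301, nat_lit 4543128797, nat_lit 0,
   nat_lit 4478099589, nat_lit 4478099589, nat_lit 14171415757, nat_lit 14171415757,
   nat_lit 14238524621, nat_lit 14240359621, nat_lit 14240359621, nat_lit 14228038841,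
   nat_lit 14240212165, nat_lit 14780778705, nat_lit 14781547657, nat_lit 14781547661,
   nat_lit 5101093973, nat_lit 5101093985, nat_lit 16, nat_lit 20, nat_lit 8, nat_lit 12,
   nat_lit 5075928149, nat_lit 5075928161, nat_lit 315113510, nat_lit 4341924997,
   nat_lit 4343777445, nat_lit 12, nat_lit 0, nat_lit 4, nat_lit 4540630113, nat_lit 4310321305,
   nat_lit 4309943417, nat_lit 4, nat_lit 4540728417, nat_lit 4310327449, nat_lit 4309943417,
   nat_lit 4, nat_lit 4540728417, nat_lit 5005935749, nat_lit 5005935745, nat_lit 4,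
   nat_lit 4540728417, nat_lit 5004461189, nat_lit 5004461185, nat_lit 4540728417,
   nat_lit 4976936061, nat_lit 4976936057, nat_lit 4, nat_lit 4540728417, nat_lit 4310327449,
   nat_lit 4309943417, nat_lit 4540728417, nat_lit 4310327449, nat_lit 4310041721,
   nat_lit 4310196377, nat_lit 4310196377, nat_lit 5048403033, nat_lit 0, nat_lit 4,
   nat_lit 5048518869, nat_lit 5077501025, nat_lit 4343875737, nat_lit 4309943417, nat_lit 4,
   nat_lit 5048525013, nat_lit 5077599329, nat_lit 4343881881, nat_lit 4309943417, nat_lit 4,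
   nat_lit 5048525013, nat_lit 5077599329, nat_lit 5073044629, nat_lit 5073044625, nat_lit 4,
   nat_lit 5048525013, nat_lit 5077599329, nat_lit 5071570069, nat_lit 5071570065,
   nat_lit 5048525013, nat_lit 5077599329, nat_lit 4976936061, nat_lit 4976936057, nat_lit 4,
   nat_lit 5048525013, nat_lit 5077599329, nat_lit 4343881881, nat_lit 4309943417,
   nat_lit 5048525013, nat_lit 5077599329, nat_lit 4343881881, nat_lit 4310041721,
   nat_lit 4343750809, nat_lit 4343750809, nat_lit 315113510, nat_lit 4342056069,
   nat_lit 14230022349, nat_lit 4310599813, nat_lit 0, nat_lit 4, nat_lit 5077501025,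
   nat_lit 5077501025, nat_lit 4343875737, nat_lit 4309943417, nat_lit 4, nat_lit 5077599329,
   nat_lit 5077599329, nat_lit 4343881881, nat_lit 4309943417, nat_lit 4, nat_lit 5077599329,
   nat_lit 5077599329, nat_lit 5073044629, nat_lit 5073044625, nat_lit 4, nat_lit 5077599329,
   nat_lit 5077599329, nat_lit 5071570069, nat_lit 5071570065, nat_lit 5077599329,
   nat_lit 5077599329, nat_lit 4976936061, nat_lit 4976936057, nat_lit 4, nat_lit 5077599329,
   nat_lit 5077599329, nat_lit 4343881881, nat_lit 4309943417, nat_lit 5077599329,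
   nat_lit 5077599329, nat_lit 4343881881, nat_lit 4310041721, nat_lit 4343750809,
   nat_lit 4343750809, nat_lit 315113510, nat_lit 4310598781, nat_lit 14228056249, nat_lit 0,
   nat_lit 12, nat_lit 4342056069, nat_lit 14230022349, nat_lit 4543120533, nat_lit 4543120529,
   nat_lit 4308265149, nat_lit 14228056249, nat_lit 4, nat_lit 12, nat_lit 5048525013,
   nat_lit 5044330709, nat_lit 5077599329, nat_lit 4473619553, nat_lit 4540728417,
   nat_lit 4310327449, nat_lit 4305847417, nat_lit 4308246661, nat_lit 12, nat_lit 4342063237,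
   nat_lit 4342063237, nat_lit 14230022349, nat_lit 4543127701, nat_lit 4543127701,
   nat_lit 4543127697, nat_lit 4545184857, nat_lit 4310605949, nat_lit 14228056249, nat_lit 12,
   nat_lit 4342063237, nat_lit 14230022349, nat_lit 4543127701, nat_lit 4543127697,
   nat_lit 4545184941, nat_lit 4545184937, nat_lit 12, nat_lit 5046444141, nat_lit 5044307105,
   nat_lit 14228056249, nat_lit 4310196377, nat_lit 4308246661, nat_lit 12, nat_lit 4342063237,
   nat_lit 4342063237, nat_lit 14230022349, nat_lit 4543127701, nat_lit 4543127701,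
   nat_lit 4543127697, nat_lit 4545077405, nat_lit 4545077421, nat_lit 4545077417, nat_lit 12,
   nat_lit 4342063237, nat_lit 14230022349, nat_lit 4543127701, nat_lit 4543127697,
   nat_lit 4310605949, nat_lit 14228056249, nat_lit 12, nat_lit 5046444141, nat_lit 5044199517,
   nat_lit 14228056249, nat_lit 4308101309, nat_lit 8, nat_lit 12, nat_lit 0, nat_lit 4,
   nat_lit 4507173985, nat_lit 4308230297, nat_lit 4310041721, nat_lit 4308099225, nat_lit 0,
   nat_lit 4, nat_lit 5046427861, nat_lit 5044044897, nat_lit 4341784729, nat_lit 4310041721,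
   nat_lit 4341653657, nat_lit 315113510, nat_lit 4341924997, nat_lit 14230014157, nat_lit 0,
   nat_lit 4, nat_lit 5044044897, nat_lit 4544922729, nat_lit 4310589629, nat_lit 4310041721,
   nat_lit 4310458557, nat_lit 315113510, nat_lit 4310467709, nat_lit 14228048057, nat_lit 12,
   nat_lit 14275889349, nat_lit 315113510, nat_lit 4341924997, nat_lit 14230014157,
   nat_lit 14780893353, nat_lit 12, nat_lit 0, nat_lit 4, nat_lit 14204405965,
   nat_lit 14204405965, nat_lit 14271514829, nat_lit 4, nat_lit 14242433221, nat_lit 14242433221,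
   nat_lit 4309943417, nat_lit 4540728417, nat_lit 4310327449, nat_lit 4310041721,
   nat_lit 4310196377, nat_lit 0, nat_lit 4, nat_lit 5048525013, nat_lit 14741276877,
   nat_lit 14741276877, nat_lit 14741276877, nat_lit 4, nat_lit 5048525013, nat_lit 14275987653,
   nat_lit 14275987653, nat_lit 4309943417, nat_lit 5048525013, nat_lit 5077599329,
   nat_lit 4343881881, nat_lit 4310041721, nat_lit 4343750809, nat_lit 315113510,
   nat_lit 4342056069, nat_lit 14230022349, nat_lit 0, nat_lit 4, nat_lit 14741276877,
   nat_lit 14741276877, nat_lit 14741276877, nat_lit 14741276877, nat_lit 4, nat_lit 14275987653,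
   nat_lit 14275987653, nat_lit 14275987653, nat_lit 4309943417, nat_lit 5077599329,
   nat_lit 5077599329, nat_lit 4343881881, nat_lit 4310041721, nat_lit 4343750809,
   nat_lit 315113510, nat_lit 4310598781, nat_lit 14228056249, nat_lit 14780893353,
   nat_lit 14780770473, nat_lit 12, nat_lit 0, nat_lit 4, nat_lit 4540728417, nat_lit 4310327449,
   nat_lit 4310041721, nat_lit 4310196377, nat_lit 0, nat_lit 4, nat_lit 5048525013,
   nat_lit 5077599329, nat_lit 4343881881, nat_lit 4310041721, nat_lit 4343750809,
   nat_lit 317210662, nat_lit 4342056069, nat_lit 14230022349, nat_lit 0, nat_lit 4,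
   nat_lit 5077599329, nat_lit 5077599329, nat_lit 4343881881, nat_lit 4310041721,
   nat_lit 4343750809, nat_lit 317210662, nat_lit 4310598781, nat_lit 14228056249, nat_lit 0,
   nat_lit 4, nat_lit 4478099609, nat_lit 4478099609, nat_lit 4478099609, nat_lit 4310041721,
   nat_lit 4477968537, nat_lit 14240377029, nat_lit 14240377029, nat_lit 14228056249,
   nat_lit 14780770473, nat_lit 14240213189, nat_lit 14780778665, nat_lit 14781547649,
   nat_lit 14781547653, nat_lit 20, nat_lit 8, nat_lit 14780893393, nat_lit 14780893393,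
   nat_lit 12, nat_lit 0, nat_lit 4, nat_lit 4540728417, nat_lit 4310327449, nat_lit 4310041721,
   nat_lit 4310196377, nat_lit 0, nat_lit 4, nat_lit 5048525013, nat_lit 5077599329,
   nat_lit 4343881881, nat_lit 4310041721, nat_lit 4343750809, nat_lit 317210662,
   nat_lit 4342056069, nat_lit 14230022349, nat_lit 0, nat_lit 4, nat_lit 5077599329,
   nat_lit 5077599329, nat_lit 4343881881, nat_lit 4310041721, nat_lit 4343750809,
   nat_lit 317210662, nat_lit 4310598781, nat_lit 14228056249, nat_lit 0, nat_lit 4,
   nat_lit 4478099609, nat_lit 4478099609, nat_lit 4478099609, nat_lit 4310041721,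
   nat_lit 4477968537, nat_lit 14240377029, nat_lit 14240377029, nat_lit 14228056249,
   nat_lit 14240213189, nat_lit 14780778705, nat_lit 14781547657, nat_lit 14781547661,
   nat_lit 5101093973, nat_lit 5101093985, nat_lit 16, nat_lit 20, nat_lit 0, nat_lit 4,
   nat_lit 4933321813, nat_lit 4933321825, nat_lit 306724902, nat_lit 4333536389,
   nat_lit 4334864549, nat_lit 8, nat_lit 12, nat_lit 14275895493, nat_lit 14275895493,
   nat_lit 315113510, nat_lit 4342023301, nat_lit 14230020301, nat_lit 4, nat_lit 4310042757,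
   nat_lit 12, nat_lit 14275993797, nat_lit 14275993797, nat_lit 14275993797,
   nat_lit 14275993797, nat_lit 14242439365, nat_lit 14242439365, nat_lit 14228021433, nat_lit 8,
   nat_lit 12, nat_lit 14275895493, nat_lit 14275895493, nat_lit 316686374, nat_lit 4342023301,
   nat_lit 14230020301, nat_lit 12, nat_lit 4, nat_lit 14242439365, nat_lit 14242439365,
   nat_lit 14271422669, nat_lit 14242439365, nat_lit 14242439365, nat_lit 14269702329,
   nat_lit 14275879109, nat_lit 4, nat_lit 14275993797, nat_lit 14275993797, nat_lit 14275993797,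
   nat_lit 14741184717, nat_lit 14275993797, nat_lit 14275993797, nat_lit 14275993797,
   nat_lit 14739464377, nat_lit 316686374, nat_lit 4342056069, nat_lit 14230022349,
   nat_lit 14275879109, nat_lit 4, nat_lit 14275993797, nat_lit 14275993797, nat_lit 14275993797,
   nat_lit 14741184717, nat_lit 14275993797, nat_lit 14275993797, nat_lit 14275993797,
   nat_lit 14739464377, nat_lit 316686374, nat_lit 4002022501, nat_lit 4545093853, nat_lit 4,
   nat_lit 12, nat_lit 14275993797, nat_lit 14275993797, nat_lit 14275993797,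
   nat_lit 14238245061, nat_lit 14242439365, nat_lit 14242439365, nat_lit 14228021433,
   nat_lit 4308099261, nat_lit 0, nat_lit 8, nat_lit 12, nat_lit 14275889349, nat_lit 315113510,
   nat_lit 4341924997, nat_lit 14230014157, nat_lit 4, nat_lit 12, nat_lit 14275987653,
   nat_lit 14275987653, nat_lit 14242433221, nat_lit 14242433221, nat_lit 14228015289, nat_lit 4,
   nat_lit 14266976453, nat_lit 306724902, nat_lit 4333536389, nat_lit 14229489869,
   nat_lit 14780860585, nat_lit 8, nat_lit 12, nat_lit 14275895493, nat_lit 315113510,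
   nat_lit 4342023301, nat_lit 14230020301, nat_lit 4, nat_lit 12, nat_lit 14275993797,
   nat_lit 14275993797, nat_lit 14242439365, nat_lit 14242439365, nat_lit 14228021433,
   nat_lit 14780860585, nat_lit 14780768425, nat_lit 8, nat_lit 4, nat_lit 12,
   nat_lit 14273896645, nat_lit 14273896645, nat_lit 14240342213, nat_lit 14240342213,
   nat_lit 14228021433, nat_lit 12, nat_lit 14275895493, nat_lit 316686374, nat_lit 4342023301,
   nat_lit 14230020301, nat_lit 14783389825, nat_lit 4, nat_lit 12, nat_lit 14275993797,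
   nat_lit 14275993797, nat_lit 14242439365, nat_lit 14242439365, nat_lit 14228021433,
   nat_lit 12, nat_lit 14275993797, nat_lit 14275993797, nat_lit 14242439365,
   nat_lit 14242439365, nat_lit 14228021433, nat_lit 14783389825, nat_lit 14781423745, nat_lit 4,
   nat_lit 12, nat_lit 14275993797, nat_lit 14275993797, nat_lit 14275993797,
   nat_lit 14242439365, nat_lit 14242439365, nat_lit 14228021433, nat_lit 14780768425,
   nat_lit 14240211141, nat_lit 14780778665, nat_lit 14781547649, nat_lit 14781547653,
   nat_lit 20, nat_lit 0, nat_lit 14780860625, nat_lit 14780860625, nat_lit 8,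
   nat_lit 14783389833, nat_lit 14783389833, nat_lit 4, nat_lit 12, nat_lit 14275993797,
   nat_lit 14275993797, nat_lit 14275993797, nat_lit 14242439365, nat_lit 14242439365,
   nat_lit 14228021433, nat_lit 14240211141, nat_lit 14780778705, nat_lit 14781547657,
   nat_lit 14781547661, nat_lit 5101093973, nat_lit 5101093985, nat_lit 16, nat_lit 20,
   nat_lit 0, nat_lit 4, nat_lit 4933321813, nat_lit 4933321825, nat_lit 306724902,
   nat_lit 4333536389, nat_lit 4334864549, nat_lit 4, nat_lit 8, nat_lit 4980769881, nat_lit 12,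
   nat_lit 5076026473, nat_lit 4913661017, nat_lit 8, nat_lit 5005935705, nat_lit 12,
   nat_lit 5077599337, nat_lit 306724902, nat_lit 4333634693, nat_lit 14229496013,
   nat_lit 4310042757, nat_lit 8, nat_lit 5005935705, nat_lit 12, nat_lit 5077599337,
   nat_lit 5005935705, nat_lit 12, nat_lit 5077599337, nat_lit 5077599337, nat_lit 306724902,
   nat_lit 4310041725, nat_lit 14228021433, nat_lit 4, nat_lit 8, nat_lit 12, nat_lit 5076026473,
   nat_lit 5076026473, nat_lit 12, nat_lit 5076026473, nat_lit 8, nat_lit 12, nat_lit 5076026473,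
   nat_lit 12, nat_lit 5075764329, nat_lit 5075764329, nat_lit 8, nat_lit 12, nat_lit 5077518449,
   nat_lit 8, nat_lit 12, nat_lit 5077599337, nat_lit 5077599337, nat_lit 12, nat_lit 5077599337,
   nat_lit 308297766, nat_lit 4333634693, nat_lit 14229496013, nat_lit 8, nat_lit 12,
   nat_lit 5077599337, nat_lit 12, nat_lit 5077599337, nat_lit 5077599337, nat_lit 8, nat_lit 12,
   nat_lit 5077599337, nat_lit 5077599337, nat_lit 12, nat_lit 5077599337, nat_lit 12,
   nat_lit 5048518829, nat_lit 5048518869, nat_lit 5077599337, nat_lit 5077599337, nat_lit 12,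
   nat_lit 5077599337, nat_lit 5077599337, nat_lit 308297766, nat_lit 4534699157,
   nat_lit 4534699153, nat_lit 8, nat_lit 12, nat_lit 5077599337, nat_lit 12, nat_lit 5048411309,
   nat_lit 5077599337, nat_lit 12, nat_lit 5077599337, nat_lit 5077599337, nat_lit 5077599337,
   nat_lit 8, nat_lit 12, nat_lit 5044044905, nat_lit 5044044905, nat_lit 12, nat_lit 5077599337,
   nat_lit 5077599337, nat_lit 4976936041, nat_lit 12, nat_lit 5077599337, nat_lit 5077599337,
   nat_lit 5077599337, nat_lit 5077599337, nat_lit 4976936041, nat_lit 4473619561, nat_lit 12,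
   nat_lit 5077599337, nat_lit 5077599337, nat_lit 5077599337, nat_lit 4507173993,
   nat_lit 4308230333, nat_lit 14228021433, nat_lit 4308099261, nat_lit 0, nat_lit 4, nat_lit 8,
   nat_lit 12, nat_lit 5075928169, nat_lit 8, nat_lit 12, nat_lit 5077501033, nat_lit 306724902,
   nat_lit 4333536389, nat_lit 14229489869, nat_lit 8, nat_lit 12, nat_lit 5076042837,
   nat_lit 12, nat_lit 5048517721, nat_lit 5077501033, nat_lit 306724902, nat_lit 4309943421,
   nat_lit 14228015289, nat_lit 4, nat_lit 14266976453, nat_lit 306724902, nat_lit 4333536389,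
   nat_lit 14229489869, nat_lit 14780860585, nat_lit 4, nat_lit 8, nat_lit 12,
   nat_lit 5076026473, nat_lit 8, nat_lit 12, nat_lit 5077599337, nat_lit 306724902,
   nat_lit 4333634693, nat_lit 14229496013, nat_lit 8, nat_lit 12, nat_lit 5077599337,
   nat_lit 12, nat_lit 5077599337, nat_lit 5077599337, nat_lit 306724902, nat_lit 4310041725,
   nat_lit 14228021433, nat_lit 14780860585, nat_lit 14780768425, nat_lit 4, nat_lit 8,
   nat_lit 12, nat_lit 5076026473, nat_lit 8, nat_lit 12, nat_lit 5077599337, nat_lit 308297766,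
   nat_lit 4333634693, nat_lit 14229496013, nat_lit 8, nat_lit 12, nat_lit 5077599337,
   nat_lit 12, nat_lit 5077599337, nat_lit 5077599337, nat_lit 308297766, nat_lit 4310041725,
   nat_lit 14228021433, nat_lit 8, nat_lit 14269702341, nat_lit 14269702341, nat_lit 12,
   nat_lit 14708007097, nat_lit 14708007097, nat_lit 4478099645, nat_lit 14240342213,
   nat_lit 14240342213, nat_lit 14228021433, nat_lit 14780768425, nat_lit 14240211141,
   nat_lit 14780778665, nat_lit 14781547649, nat_lit 14781547653, nat_lit 20, nat_lit 0,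
   nat_lit 14780860625, nat_lit 14780860625, nat_lit 4, nat_lit 8, nat_lit 12,
   nat_lit 5076026473, nat_lit 8, nat_lit 12, nat_lit 5077599337, nat_lit 308297766,
   nat_lit 4333634693, nat_lit 14229496013, nat_lit 8, nat_lit 12, nat_lit 5077599337,
   nat_lit 12, nat_lit 5077599337, nat_lit 5077599337, nat_lit 308297766, nat_lit 4310041725,
   nat_lit 14228021433, nat_lit 8, nat_lit 14269702341, nat_lit 14269702341, nat_lit 12,
   nat_lit 14708007097, nat_lit 14708007097, nat_lit 4478099645, nat_lit 14240342213,
   nat_lit 14240342213, nat_lit 14228021433, nat_lit 14240211141, nat_lit 14780778705,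
   nat_lit 14781547657, nat_lit 14781547661, nat_lit 5101093973, nat_lit 5101093985]

theorem c9_0 : chk TT UT (gU 9) (sub 0 20) s9_0 = true := by decide +kernel

def s9_20 : List ℕ :=   [nat_lit 20, nat_lit 24, nat_lit 12, nat_lit 16, nat_lit 5147231317, nat_lit 5147231329,
   nat_lit 319307814, nat_lit 4346119301, nat_lit 4348233893, nat_lit 16, nat_lit 0, nat_lit 4,
   nat_lit 8, nat_lit 4310321285, nat_lit 4, nat_lit 8, nat_lit 4310327429, nat_lit 4, nat_lit 8,
   nat_lit 5005935701, nat_lit 5077600409, nat_lit 8, nat_lit 5077600445, nat_lit 4, nat_lit 8,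
   nat_lit 5004461141, nat_lit 8, nat_lit 5075787901, nat_lit 5044330629, nat_lit 4, nat_lit 8,
   nat_lit 4310212741, nat_lit 8, nat_lit 4310327429, nat_lit 4310327429, nat_lit 4309950597,
   nat_lit 4308230277, nat_lit 8, nat_lit 4310327429, nat_lit 4310327429, nat_lit 4310458521,
   nat_lit 4310458521, nat_lit 5115774041, nat_lit 0, nat_lit 4, nat_lit 8, nat_lit 4348070021,
   nat_lit 4, nat_lit 8, nat_lit 4348076165, nat_lit 4, nat_lit 8, nat_lit 5005935701,
   nat_lit 13667535001, nat_lit 8, nat_lit 13667535037, nat_lit 4, nat_lit 8, nat_lit 5004461141,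
   nat_lit 8, nat_lit 13665722493, nat_lit 13634265221, nat_lit 4, nat_lit 8, nat_lit 4347961477,
   nat_lit 8, nat_lit 4348076165, nat_lit 4348076165, nat_lit 4347699333, nat_lit 4345979013,
   nat_lit 8, nat_lit 4348076165, nat_lit 4348076165, nat_lit 4348207257, nat_lit 4348207257,
   nat_lit 319307814, nat_lit 4346266757, nat_lit 15304027341, nat_lit 4310878341, nat_lit 0,
   nat_lit 4, nat_lit 8, nat_lit 4348070021, nat_lit 4, nat_lit 8, nat_lit 4348076165, nat_lit 4,
   nat_lit 8, nat_lit 5005935701, nat_lit 13667535001, nat_lit 8, nat_lit 13667535037, nat_lit 4,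
   nat_lit 8, nat_lit 5004461141, nat_lit 8, nat_lit 13665722493, nat_lit 13634265221, nat_lit 4,
   nat_lit 8, nat_lit 4347961477, nat_lit 8, nat_lit 4348076165, nat_lit 4348076165,
   nat_lit 4347699333, nat_lit 4345979013, nat_lit 8, nat_lit 4348076165, nat_lit 4348076165,
   nat_lit 4348207257, nat_lit 4348207257, nat_lit 319307814, nat_lit 4310877309,
   nat_lit 15301815481, nat_lit 0, nat_lit 16, nat_lit 4346266757, nat_lit 15304027341,
   nat_lit 4547331221, nat_lit 4547331217, nat_lit 4308282557, nat_lit 15301815481, nat_lit 4,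
   nat_lit 8, nat_lit 4310327429, nat_lit 4308263045, nat_lit 16, nat_lit 4346273925,
   nat_lit 4346273925, nat_lit 15304027341, nat_lit 4547338389, nat_lit 4547338389,
   nat_lit 4547338385, nat_lit 4549641305, nat_lit 4310884477, nat_lit 15301815481, nat_lit 16,
   nat_lit 4346273925, nat_lit 15304027341, nat_lit 4547338389, nat_lit 4547338385,
   nat_lit 4549641389, nat_lit 4549641385, nat_lit 16, nat_lit 5113569389, nat_lit 5111678113,
   nat_lit 15301815481, nat_lit 4310458521, nat_lit 4308263045, nat_lit 16, nat_lit 4346273925,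
   nat_lit 4346273925, nat_lit 15304027341, nat_lit 4547338389, nat_lit 4547338389,
   nat_lit 4547338385, nat_lit 4549533853, nat_lit 4549533869, nat_lit 4549533865, nat_lit 16,
   nat_lit 4346273925, nat_lit 15304027341, nat_lit 4547338389, nat_lit 4547338385,
   nat_lit 4310884477, nat_lit 15301815481, nat_lit 16, nat_lit 5113569389, nat_lit 5111570525,
   nat_lit 15301815481, nat_lit 4308102333, nat_lit 12, nat_lit 16, nat_lit 0, nat_lit 4,
   nat_lit 8, nat_lit 4310327429, nat_lit 4308099225, nat_lit 0, nat_lit 4, nat_lit 8,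
   nat_lit 4348076165, nat_lit 4345847961, nat_lit 319307814, nat_lit 4346119301,
   nat_lit 15304018125, nat_lit 0, nat_lit 4, nat_lit 8, nat_lit 4348076165, nat_lit 4310720701,
   nat_lit 319307814, nat_lit 4310729853, nat_lit 15301806265, nat_lit 16, nat_lit 15354087621,
   nat_lit 319307814, nat_lit 4346119301, nat_lit 15304018125, nat_lit 15921760425, nat_lit 16,
   nat_lit 0, nat_lit 4, nat_lit 8, nat_lit 5077600445, nat_lit 4, nat_lit 4309950597, nat_lit 8,
   nat_lit 4310327429, nat_lit 4310327429, nat_lit 4310458521, nat_lit 0, nat_lit 4, nat_lit 8,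
   nat_lit 13667535037, nat_lit 4, nat_lit 4347699333, nat_lit 8, nat_lit 4348076165,
   nat_lit 4348076165, nat_lit 4348207257, nat_lit 319307814, nat_lit 4346266757,
   nat_lit 15304027341, nat_lit 0, nat_lit 4, nat_lit 8, nat_lit 13667535037, nat_lit 4,
   nat_lit 4347699333, nat_lit 8, nat_lit 4348076165, nat_lit 4348076165, nat_lit 4348207257,
   nat_lit 319307814, nat_lit 4310877309, nat_lit 15301815481, nat_lit 15921760425,
   nat_lit 15921622185, nat_lit 16, nat_lit 0, nat_lit 4, nat_lit 8, nat_lit 4310327429,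
   nat_lit 4310458521, nat_lit 0, nat_lit 4, nat_lit 8, nat_lit 4348076165, nat_lit 4348207257,
   nat_lit 321667110, nat_lit 4346266757, nat_lit 15304027341, nat_lit 0, nat_lit 4, nat_lit 8,
   nat_lit 4348076165, nat_lit 4348207257, nat_lit 321667110, nat_lit 4310877309,
   nat_lit 15301815481, nat_lit 0, nat_lit 4, nat_lit 8, nat_lit 4482293893, nat_lit 4482424985,
   nat_lit 15314136261, nat_lit 15314136261, nat_lit 15301815481, nat_lit 15921622185,
   nat_lit 15313956037, nat_lit 15921629353, nat_lit 15922398337, nat_lit 15922398341,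
   nat_lit 24, nat_lit 12, nat_lit 15921760465, nat_lit 15921760465, nat_lit 16, nat_lit 0,
   nat_lit 4, nat_lit 8, nat_lit 4310327429, nat_lit 4310458521, nat_lit 0, nat_lit 4, nat_lit 8,
   nat_lit 4348076165, nat_lit 4348207257, nat_lit 321667110, nat_lit 4346266757,
   nat_lit 15304027341, nat_lit 0, nat_lit 4, nat_lit 8, nat_lit 4348076165, nat_lit 4348207257,
   nat_lit 321667110, nat_lit 4310877309, nat_lit 15301815481, nat_lit 0, nat_lit 4, nat_lit 8,
   nat_lit 4482293893, nat_lit 4482424985, nat_lit 15314136261, nat_lit 15314136261,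
   nat_lit 15301815481, nat_lit 15313956037, nat_lit 15921629393, nat_lit 15922398345,
   nat_lit 15922398349, nat_lit 5168202837, nat_lit 5168202849, nat_lit 4, nat_lit 0,
   nat_lit 4308099261, nat_lit 4308099225, nat_lit 306724902, nat_lit 4333536389,
   nat_lit 4333536385, nat_lit 306724902, nat_lit 4309943421, nat_lit 4309943417, nat_lit 0,
   nat_lit 4507173993, nat_lit 4507173985, nat_lit 4308230333, nat_lit 4308230297, nat_lit 0,
   nat_lit 4308230333, nat_lit 4308230297, nat_lit 4308230333, nat_lit 4308230297, nat_lit 0,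
   nat_lit 4310041721, nat_lit 4310041721, nat_lit 4308099261, nat_lit 4308099225, nat_lit 0,
   nat_lit 4308230333, nat_lit 4308230297, nat_lit 0, nat_lit 4308230333, nat_lit 4308230297,
   nat_lit 0, nat_lit 4308099261, nat_lit 4308099225, nat_lit 0, nat_lit 4, nat_lit 10217375913,
   nat_lit 10218144897, nat_lit 10218144901, nat_lit 4, nat_lit 10217375953, nat_lit 10218144905,
   nat_lit 10218144909, nat_lit 4832658517, nat_lit 4832658529]

theorem c9_20 : chk TT UT (gU 9) (sub 20 3) s9_20 = true := by decide +kernel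

end Pool.Agent.H49.PQS
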