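import Pool.Agent.H49.PQS.Tab

/-!
Branching arguments, checked by the kernel.
-/

namespace Pool.Agent.H49.PQS

def s10_0 : List ℕ :=   [nat_lit 0, nat_lit 209985601, nat_lit 277094457, nat_lit 281288761, nat_lit 281567269,
   nat_lit 0, nat_lit 4, nat_lit 8, nat_lit 3362414773, nat_lit 4, nat_lit 8, nat_lit 4436156565,
   nat_lit 4436156557, nat_lit 8, nat_lit 4436156549, nat_lit 4, nat_lit 8, nat_lit 4503265429,
   nat_lit 4503265429, nat_lit 4507459689, nat_lit 8, nat_lit 4503265429, nat_lit 4507459681,
   nat_lit 8, nat_lit 4507459669, nat_lit 4504952937, nat_lit 0, nat_lit 209985601,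
   nat_lit 277094457, nat_lit 281288761, nat_lit 281567269, nat_lit 8, nat_lit 4,
   nat_lit 53756977509, nat_lit 70936846689, nat_lit 72010588513, nat_lit 4504953961, nat_lit 0,
   nat_lit 209985601, nat_lit 277094457, nat_lit 281288761, nat_lit 281567269, nat_lit 8,
   nat_lit 684220453, nat_lit 311205929, nat_lit 310911017, nat_lit 310648873, nat_lit 4,
   nat_lit 312746025, nat_lit 312746025, nat_lit 312746025, nat_lit 312746025, nat_lit 0,
   nat_lit 4, nat_lit 3359793373, nat_lit 4433535189, nat_lit 4500644053, nat_lit 4504953961,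
   nat_lit 4, nat_lit 4433535149, nat_lit 4500644053, nat_lit 4433535133, nat_lit 4,
   nat_lit 4500644013, nat_lit 4500643997, nat_lit 4504952937, nat_lit 4, nat_lit 8,
   nat_lit 3359810781, nat_lit 4433552597, nat_lit 4500661461, nat_lit 4504954985,
   nat_lit 3362406494, nat_lit 8, nat_lit 4433552557, nat_lit 4500661461, nat_lit 4433552541,
   nat_lit 3362406482, nat_lit 8, nat_lit 4500661421, nat_lit 4500661405, nat_lit 4436148310,
   nat_lit 4504953961, nat_lit 4, nat_lit 8, nat_lit 3359810781, nat_lit 4433552597,
   nat_lit 4500661461, nat_lit 4504954985, nat_lit 3362406494, nat_lit 8, nat_lit 4433552557,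
   nat_lit 4500661461, nat_lit 4433552541, nat_lit 3362406482, nat_lit 8, nat_lit 4500661421,
   nat_lit 4500661405, nat_lit 4436148310, nat_lit 4504953961, nat_lit 8, nat_lit 12,
   nat_lit 3359828189, nat_lit 4433570005, nat_lit 4500678869, nat_lit 4504956009,
   nat_lit 3362685022, nat_lit 12, nat_lit 4433569965, nat_lit 4500678869, nat_lit 4433569949,
   nat_lit 3362685010, nat_lit 12, nat_lit 4500678829, nat_lit 4500678813, nat_lit 4436426838,
   nat_lit 4504954985, nat_lit 0, nat_lit 4, nat_lit 3359793373, nat_lit 4433535189,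
   nat_lit 4500644053, nat_lit 4504953961, nat_lit 3362127966, nat_lit 4, nat_lit 4433535149,
   nat_lit 4500644053, nat_lit 4433535133, nat_lit 3362127954, nat_lit 4, nat_lit 4500644013,
   nat_lit 4500643997, nat_lit 4435869782, nat_lit 4504952937, nat_lit 4, nat_lit 12,
   nat_lit 12021293169, nat_lit 5046427765, nat_lit 5041709173, nat_lit 5037514869, nat_lit 8,
   nat_lit 5075263605, nat_lit 5075263605, nat_lit 5075263605, nat_lit 5075263605, nat_lit 0,
   nat_lit 4, nat_lit 3359793373, nat_lit 4433535189, nat_lit 4500644053, nat_lit 4504953961,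
   nat_lit 3362127966, nat_lit 4, nat_lit 4433535149, nat_lit 4500644053, nat_lit 4433535133,
   nat_lit 3362127954, nat_lit 4, nat_lit 4500644013, nat_lit 4500643997, nat_lit 4435869782,
   nat_lit 4504952937, nat_lit 0, nat_lit 4, nat_lit 3359793373, nat_lit 4433535189,
   nat_lit 4500644053, nat_lit 4504953961, nat_lit 3362127966, nat_lit 4, nat_lit 4433535149,
   nat_lit 4500644053, nat_lit 4433535133, nat_lit 3362127954, nat_lit 4, nat_lit 4500644013,
   nat_lit 4500643997, nat_lit 4435869782, nat_lit 4504952937, nat_lit 0, nat_lit 4,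
   nat_lit 3359793373, nat_lit 4433535189, nat_lit 4500644053, nat_lit 4504953961,
   nat_lit 3362127966, nat_lit 4, nat_lit 4433535149, nat_lit 4500644053, nat_lit 4433535133,
   nat_lit 3362127954, nat_lit 4, nat_lit 4500644013, nat_lit 4500643997, nat_lit 4435869782,
   nat_lit 4504952937, nat_lit 0, nat_lit 4, nat_lit 3359793373, nat_lit 4433535189,
   nat_lit 4500644053, nat_lit 4504953961, nat_lit 3362127966, nat_lit 4, nat_lit 4433535149,
   nat_lit 4500644053, nat_lit 4433535133, nat_lit 3362127954, nat_lit 4, nat_lit 4500644013,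
   nat_lit 4500643997, nat_lit 4435869782, nat_lit 4504952937, nat_lit 0, nat_lit 209985601,
   nat_lit 277094457, nat_lit 281288761, nat_lit 281567269, nat_lit 8, nat_lit 4,
   nat_lit 53756977509, nat_lit 70936846689, nat_lit 72010588513, nat_lit 4504953961, nat_lit 16,
   nat_lit 13094888553, nat_lit 13094888553, nat_lit 81741373773, nat_lit 81674264909,
   nat_lit 12, nat_lit 82345353549, nat_lit 82345353549, nat_lit 82345353549,
   nat_lit 82345353549, nat_lit 12, nat_lit 16, nat_lit 3359845597, nat_lit 4433587413,
   nat_lit 4500696277, nat_lit 4504957033, nat_lit 3362963550, nat_lit 16, nat_lit 4433587373,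
   nat_lit 4500696277, nat_lit 4433587357, nat_lit 3362963538, nat_lit 16, nat_lit 4500696237,
   nat_lit 4500696221, nat_lit 4436705366, nat_lit 4504956009, nat_lit 0, nat_lit 8,
   nat_lit 3359809757, nat_lit 4433551573, nat_lit 4500660437, nat_lit 4504954985,
   nat_lit 3362390110, nat_lit 8, nat_lit 4433551533, nat_lit 4500660437, nat_lit 4433551517,
   nat_lit 3362390098, nat_lit 8, nat_lit 4500660397, nat_lit 4500660381, nat_lit 4436131926,
   nat_lit 4504952937, nat_lit 8, nat_lit 4, nat_lit 3362406494, nat_lit 3362406482,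
   nat_lit 4436148310, nat_lit 4504953961, nat_lit 12, nat_lit 20, nat_lit 14168630377,
   nat_lit 14168630377, nat_lit 1325046325621, nat_lit 1323972583797, nat_lit 16,
   nat_lit 1335783743861, nat_lit 1335783743861, nat_lit 1335783743861, nat_lit 1153323689429,
   nat_lit 0, nat_lit 12, nat_lit 3359826141, nat_lit 4433567957, nat_lit 4500676821,
   nat_lit 4504956009, nat_lit 3362652254, nat_lit 12, nat_lit 4433567917, nat_lit 4500676821,
   nat_lit 4433567901, nat_lit 3362652242, nat_lit 12, nat_lit 4500676781, nat_lit 4500676765,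
   nat_lit 4436394070, nat_lit 4504952937, nat_lit 12, nat_lit 4, nat_lit 3362668638,
   nat_lit 3362668626, nat_lit 4436410454, nat_lit 4504953961, nat_lit 8, nat_lit 20,
   nat_lit 14168630377, nat_lit 14168630377, nat_lit 1325046325629, nat_lit 1323972583805,
   nat_lit 16, nat_lit 1335783743869, nat_lit 1335783743869, nat_lit 1335783743869,
   nat_lit 1153323689429, nat_lit 0, nat_lit 4, nat_lit 3359793373, nat_lit 4433535189,
   nat_lit 4500644053, nat_lit 4504953961, nat_lit 3362127966, nat_lit 4, nat_lit 4433535149,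
   nat_lit 4500644053, nat_lit 4433535133, nat_lit 3362127954, nat_lit 4, nat_lit 4500644013,
   nat_lit 4500643997, nat_lit 4435869782, nat_lit 4504952937, nat_lit 4, nat_lit 12, nat_lit 8,
   nat_lit 860116115953, nat_lit 1134994022893, nat_lit 1152173892077, nat_lit 4504954985,
   nat_lit 20, nat_lit 14168631401, nat_lit 14168631401, nat_lit 1325046325721,
   nat_lit 1323972583897, nat_lit 16, nat_lit 1335783743961, nat_lit 1335783743961,
   nat_lit 1335783743961, nat_lit 1153323690453, nat_lit 0, nat_lit 4, nat_lit 3359793373,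
   nat_lit 4433535189, nat_lit 4500644053, nat_lit 4504953961, nat_lit 3362127966, nat_lit 4,
   nat_lit 4433535149, nat_lit 4500644053, nat_lit 4433535133, nat_lit 3362127954, nat_lit 4,
   nat_lit 4500644013, nat_lit 4500643997, nat_lit 4435869782, nat_lit 4504952937, nat_lit 4,
   nat_lit 12, nat_lit 8, nat_lit 860116115953, nat_lit 1134994022893, nat_lit 1152173892077,
   nat_lit 4504954985, nat_lit 20, nat_lit 14168629353, nat_lit 14168629353,
   nat_lit 1325046325753, nat_lit 1323972583929, nat_lit 16, nat_lit 1335783743993,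
   nat_lit 1335783743993, nat_lit 1335783743993, nat_lit 1153323690453, nat_lit 0, nat_lit 4,
   nat_lit 3359793373, nat_lit 4433535189, nat_lit 4500644053, nat_lit 4504953961,
   nat_lit 3362127966, nat_lit 4, nat_lit 4433535149, nat_lit 4500644053, nat_lit 4433535133,
   nat_lit 3362127954, nat_lit 4, nat_lit 4500644013, nat_lit 4500643997, nat_lit 4435869782,
   nat_lit 4504952937, nat_lit 4, nat_lit 8, nat_lit 12, nat_lit 20, nat_lit 14168629353,
   nat_lit 14168629353, nat_lit 1325046325761, nat_lit 1323972583937, nat_lit 16,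
   nat_lit 1335783744001, nat_lit 1335783744001, nat_lit 1335783744001, nat_lit 1153323688405,
   nat_lit 0, nat_lit 16, nat_lit 3359842525, nat_lit 4433584341, nat_lit 4500693205,
   nat_lit 4504957033, nat_lit 3362914398, nat_lit 16, nat_lit 4433584301, nat_lit 4500693205,
   nat_lit 4433584285, nat_lit 3362914386, nat_lit 16, nat_lit 4500693165, nat_lit 4500693149,
   nat_lit 4436656214, nat_lit 4504952937, nat_lit 16, nat_lit 4, nat_lit 3362930782,
   nat_lit 3362930770, nat_lit 4436672598, nat_lit 4504953961, nat_lit 8, nat_lit 12,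
   nat_lit 13761929437837, nat_lit 18159975948937, nat_lit 18434853855881, nat_lit 4504956009,
   nat_lit 24, nat_lit 15242374249, nat_lit 15242374249, nat_lit 21475690701429,
   nat_lit 21458510832245, nat_lit 20, nat_lit 21664669262453, nat_lit 21664669262453,
   nat_lit 21664669262453, nat_lit 1153328164309, nat_lit 4, nat_lit 0, nat_lit 3362127966,
   nat_lit 3362127954, nat_lit 4435869782, nat_lit 4504952937, nat_lit 4, nat_lit 617103402,
   nat_lit 617103402, nat_lit 239616034, nat_lit 279199790, nat_lit 0, nat_lit 275120186,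
   nat_lit 212205614, nat_lit 279314478, nat_lit 275120174]

theorem c10_0 : chk TT UT (gU 10) (sub 0 23) s10_0 = true := by decide +kernel

def s11_0 : List ℕ :=   [nat_lit 0, nat_lit 281550913, nat_lit 281550901, nat_lit 281567277, nat_lit 277094441,
   nat_lit 0, nat_lit 4, nat_lit 8, nat_lit 4507459765, nat_lit 4, nat_lit 8, nat_lit 4507459729,
   nat_lit 4507459721, nat_lit 8, nat_lit 4507459713, nat_lit 4504952969, nat_lit 4, nat_lit 8,
   nat_lit 4436156525, nat_lit 4436156525, nat_lit 4431962213, nat_lit 2217369697, nat_lit 8,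
   nat_lit 4436156525, nat_lit 4431962213, nat_lit 2217369697, nat_lit 4433535069, nat_lit 8,
   nat_lit 2217369685, nat_lit 0, nat_lit 281550913, nat_lit 281550901, nat_lit 281567277,
   nat_lit 277094441, nat_lit 8, nat_lit 4, nat_lit 72077697381, nat_lit 72077697373,
   nat_lit 4504953993, nat_lit 70936846669, nat_lit 0, nat_lit 281550913, nat_lit 281550901,
   nat_lit 281567277, nat_lit 277094441, nat_lit 8, nat_lit 688693285, nat_lit 311173161,
   nat_lit 310648873, nat_lit 310648873, nat_lit 4, nat_lit 312746025, nat_lit 312746025,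
   nat_lit 178528297, nat_lit 178528297, nat_lit 0, nat_lit 4, nat_lit 4504838365,
   nat_lit 4504838353, nat_lit 4504838353, nat_lit 4433535177, nat_lit 4, nat_lit 4504838313,
   nat_lit 4504838313, nat_lit 4433535177, nat_lit 4504952969, nat_lit 4, nat_lit 4433535093,
   nat_lit 4, nat_lit 8, nat_lit 4504855773, nat_lit 4504855761, nat_lit 4504855761,
   nat_lit 4433552585, nat_lit 4507451486, nat_lit 8, nat_lit 4504855721, nat_lit 4504855721,
   nat_lit 4433552585, nat_lit 4507451474, nat_lit 4504953993, nat_lit 8, nat_lit 4433552501,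
   nat_lit 4436148294, nat_lit 4, nat_lit 8, nat_lit 4504855773, nat_lit 4504855761,
   nat_lit 4504855761, nat_lit 4433552585, nat_lit 4507451486, nat_lit 8, nat_lit 4504855721,
   nat_lit 4504855721, nat_lit 4433552585, nat_lit 4507451474, nat_lit 4504953993, nat_lit 8,
   nat_lit 4433552501, nat_lit 4436148294, nat_lit 8, nat_lit 12, nat_lit 4504873181,
   nat_lit 4504873169, nat_lit 4504873169, nat_lit 4433569993, nat_lit 4507730014, nat_lit 12,
   nat_lit 4504873129, nat_lit 4504873129, nat_lit 4433569993, nat_lit 4507730002,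
   nat_lit 4504955017, nat_lit 12, nat_lit 4433569909, nat_lit 4436426822, nat_lit 0, nat_lit 4,
   nat_lit 4504838365, nat_lit 4504838353, nat_lit 4504838353, nat_lit 4433535177,
   nat_lit 4507172958, nat_lit 4, nat_lit 4504838313, nat_lit 4504838313, nat_lit 4433535177,
   nat_lit 4507172946, nat_lit 4504952969, nat_lit 4, nat_lit 4433535093, nat_lit 4435869766,
   nat_lit 4, nat_lit 12, nat_lit 12092858481, nat_lit 5045903477, nat_lit 5037514869,
   nat_lit 5037514869, nat_lit 8, nat_lit 5075263605, nat_lit 5075263605, nat_lit 5075263605,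
   nat_lit 2927779957, nat_lit 0, nat_lit 4, nat_lit 4504838365, nat_lit 4504838353,
   nat_lit 4504838353, nat_lit 4433535177, nat_lit 4507172958, nat_lit 4, nat_lit 4504838313,
   nat_lit 4504838313, nat_lit 4433535177, nat_lit 4507172946, nat_lit 4504952969, nat_lit 4,
   nat_lit 4433535093, nat_lit 4435869766, nat_lit 0, nat_lit 4, nat_lit 4504838365,
   nat_lit 4504838353, nat_lit 4504838353, nat_lit 4433535177, nat_lit 4507172958, nat_lit 4,
   nat_lit 4504838313, nat_lit 4504838313, nat_lit 4433535177, nat_lit 4507172946,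
   nat_lit 4504952969, nat_lit 4, nat_lit 4433535093, nat_lit 4435869766, nat_lit 0, nat_lit 4,
   nat_lit 4504838365, nat_lit 4504838353, nat_lit 4504838353, nat_lit 4433535177,
   nat_lit 4507172958, nat_lit 4, nat_lit 4504838313, nat_lit 4504838313, nat_lit 4433535177,
   nat_lit 4507172946, nat_lit 4504952969, nat_lit 4, nat_lit 4433535093, nat_lit 4435869766,
   nat_lit 0, nat_lit 4, nat_lit 4504838365, nat_lit 4504838353, nat_lit 4504838353,
   nat_lit 4433535177, nat_lit 4507172958, nat_lit 4, nat_lit 4504838313, nat_lit 4504838313,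
   nat_lit 4433535177, nat_lit 4507172946, nat_lit 4504952969, nat_lit 4, nat_lit 4433535093,
   nat_lit 4435869766, nat_lit 0, nat_lit 281550913, nat_lit 281550901, nat_lit 281567277,
   nat_lit 277094441, nat_lit 8, nat_lit 4, nat_lit 72077697381, nat_lit 72077697373,
   nat_lit 4504953993, nat_lit 70936846669, nat_lit 16, nat_lit 13166453865, nat_lit 81808482637,
   nat_lit 81674264909, nat_lit 81674264909, nat_lit 12, nat_lit 82345353549,
   nat_lit 82345353549, nat_lit 47985615181, nat_lit 47985615181, nat_lit 12, nat_lit 16,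
   nat_lit 4504890589, nat_lit 4504890577, nat_lit 4504890577, nat_lit 4433587401,
   nat_lit 4508008542, nat_lit 16, nat_lit 4504890537, nat_lit 4504890537, nat_lit 4433587401,
   nat_lit 4508008530, nat_lit 4504956041, nat_lit 16, nat_lit 4433587317, nat_lit 4436705350,
   nat_lit 0, nat_lit 8, nat_lit 4504854749, nat_lit 4504854737, nat_lit 4504854737,
   nat_lit 4433551561, nat_lit 4507435102, nat_lit 8, nat_lit 4504854697, nat_lit 4504854697,
   nat_lit 4433551561, nat_lit 4507435090, nat_lit 4504952969, nat_lit 8, nat_lit 4433551477,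
   nat_lit 4436131910, nat_lit 8, nat_lit 4, nat_lit 4507451486, nat_lit 4507451474,
   nat_lit 4504953993, nat_lit 4436148294, nat_lit 12, nat_lit 20, nat_lit 14240195689,
   nat_lit 1326120067445, nat_lit 1323972583797, nat_lit 1323972583797, nat_lit 16,
   nat_lit 1335783743861, nat_lit 1335783743861, nat_lit 1153323689441, nat_lit 786027929973,
   nat_lit 0, nat_lit 12, nat_lit 4504871133, nat_lit 4504871121, nat_lit 4504871121,
   nat_lit 4433567945, nat_lit 4507697246, nat_lit 12, nat_lit 4504871081, nat_lit 4504871081,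
   nat_lit 4433567945, nat_lit 4507697234, nat_lit 4504952969, nat_lit 12, nat_lit 4433567861,
   nat_lit 4436394054, nat_lit 12, nat_lit 4, nat_lit 4507713630, nat_lit 4507713618,
   nat_lit 4504953993, nat_lit 4436410438, nat_lit 8, nat_lit 20, nat_lit 14240195689,
   nat_lit 1326120067453, nat_lit 1323972583805, nat_lit 1323972583805, nat_lit 16,
   nat_lit 1335783743869, nat_lit 1335783743869, nat_lit 1153323689441, nat_lit 786027929981,
   nat_lit 0, nat_lit 4, nat_lit 4504838365, nat_lit 4504838353, nat_lit 4504838353,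
   nat_lit 4433535177, nat_lit 4507172958, nat_lit 4, nat_lit 4504838313, nat_lit 4504838313,
   nat_lit 4433535177, nat_lit 4507172946, nat_lit 4504952969, nat_lit 4, nat_lit 4433535093,
   nat_lit 4435869766, nat_lit 4, nat_lit 12, nat_lit 8, nat_lit 1153247633905,
   nat_lit 1153247633897, nat_lit 4504955017, nat_lit 1134994022873, nat_lit 20,
   nat_lit 14240196713, nat_lit 1326120067545, nat_lit 1323972583897, nat_lit 1323972583897,
   nat_lit 16, nat_lit 1335783743961, nat_lit 1335783743961, nat_lit 1153323690465,
   nat_lit 786027930073, nat_lit 0, nat_lit 4, nat_lit 4504838365, nat_lit 4504838353,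
   nat_lit 4504838353, nat_lit 4433535177, nat_lit 4507172958, nat_lit 4, nat_lit 4504838313,
   nat_lit 4504838313, nat_lit 4433535177, nat_lit 4507172946, nat_lit 4504952969, nat_lit 4,
   nat_lit 4433535093, nat_lit 4435869766, nat_lit 4, nat_lit 12, nat_lit 8,
   nat_lit 1153247633905, nat_lit 1153247633897, nat_lit 4504955017, nat_lit 1134994022873,
   nat_lit 20, nat_lit 14240194665, nat_lit 1326120067577, nat_lit 1323972583929,
   nat_lit 1323972583929, nat_lit 16, nat_lit 1335783743993, nat_lit 1335783743993,
   nat_lit 1153323690465, nat_lit 786027930105, nat_lit 0, nat_lit 4, nat_lit 4504838365,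
   nat_lit 4504838353, nat_lit 4504838353, nat_lit 4433535177, nat_lit 4507172958, nat_lit 4,
   nat_lit 4504838313, nat_lit 4504838313, nat_lit 4433535177, nat_lit 4507172946,
   nat_lit 4504952969, nat_lit 4, nat_lit 4433535093, nat_lit 4435869766, nat_lit 4, nat_lit 8,
   nat_lit 12, nat_lit 20, nat_lit 14240194665, nat_lit 1326120067585, nat_lit 1323972583937,
   nat_lit 1323972583937, nat_lit 16, nat_lit 1335783744001, nat_lit 1335783744001,
   nat_lit 1153323688417, nat_lit 786027930113, nat_lit 0, nat_lit 16, nat_lit 4504887517,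
   nat_lit 4504887505, nat_lit 4504887505, nat_lit 4433584329, nat_lit 4507959390, nat_lit 16,
   nat_lit 4504887465, nat_lit 4504887465, nat_lit 4433584329, nat_lit 4507959378,
   nat_lit 4504952969, nat_lit 16, nat_lit 4433584245, nat_lit 4436656198, nat_lit 16, nat_lit 4,
   nat_lit 4507975774, nat_lit 4507975762, nat_lit 4504953993, nat_lit 4436672582, nat_lit 8,
   nat_lit 12, nat_lit 18452033725069, nat_lit 18452033725061, nat_lit 4504956041,
   nat_lit 18159975948917, nat_lit 24, nat_lit 15313939561, nat_lit 21492870570613,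
   nat_lit 21458510832245, nat_lit 21458510832245, nat_lit 20, nat_lit 21664669262453,
   nat_lit 21664669262453, nat_lit 1153328164321, nat_lit 12868576240245, nat_lit 4, nat_lit 0,
   nat_lit 4507172958, nat_lit 4507172946, nat_lit 4504952969, nat_lit 4435869766, nat_lit 4,
   nat_lit 621576234, nat_lit 307003426, nat_lit 283394094, nat_lit 283394094, nat_lit 0,
   nat_lit 140902458, nat_lit 283508782, nat_lit 140902446, nat_lit 140902446]

theorem c11_0 : chk TT UT (gU 11) (sub 0 23) s11_0 = true := by decide +kernel

def s12_0 : List ℕ :=   [nat_lit 0, nat_lit 4308099349, nat_lit 0, nat_lit 4, nat_lit 8, nat_lit 5004625009, nat_lit 4,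
   nat_lit 8, nat_lit 5005935729, nat_lit 4, nat_lit 8, nat_lit 5004724309, nat_lit 8,
   nat_lit 4981131353, nat_lit 5005935729, nat_lit 4308206717, nat_lit 4505075810, nat_lit 0,
   nat_lit 4308099349, nat_lit 4, nat_lit 8, nat_lit 271114289, nat_lit 271114289,
   nat_lit 271114289, nat_lit 271114285, nat_lit 8, nat_lit 271212593, nat_lit 271212593,
   nat_lit 271212593, nat_lit 271212589, nat_lit 8, nat_lit 271212593, nat_lit 271212593,
   nat_lit 271212593, nat_lit 271212589, nat_lit 283795513, nat_lit 283795513, nat_lit 283795513,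
   nat_lit 283795509, nat_lit 281698361, nat_lit 281698361, nat_lit 281567281, nat_lit 17170450,
   nat_lit 8, nat_lit 310927401, nat_lit 310927401, nat_lit 4, nat_lit 4310320249,
   nat_lit 310796329, nat_lit 4, nat_lit 68929627441, nat_lit 4, nat_lit 8, nat_lit 0,
   nat_lit 709894197, nat_lit 44367878, nat_lit 44367878, nat_lit 11358995621,
   nat_lit 11358209197, nat_lit 4899767409, nat_lit 8, nat_lit 0, nat_lit 4, nat_lit 11045733493,
   nat_lit 4, nat_lit 11045733493, nat_lit 11045733493, nat_lit 4308206717, nat_lit 688259134,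
   nat_lit 4966876273, nat_lit 4, nat_lit 8, nat_lit 311181350, nat_lit 4337730713,
   nat_lit 4979179610, nat_lit 4337730725, nat_lit 8, nat_lit 5004625009, nat_lit 311181350,
   nat_lit 4339303577, nat_lit 4979179610, nat_lit 4339303589, nat_lit 8, nat_lit 12, nat_lit 0,
   nat_lit 5048240217, nat_lit 5048148125, nat_lit 5048148125, nat_lit 12, nat_lit 0,
   nat_lit 5077600345, nat_lit 5077508253, nat_lit 5077508253, nat_lit 312754214,
   nat_lit 4337845381, nat_lit 4337846405, nat_lit 4337846401, nat_lit 0, nat_lit 12,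
   nat_lit 5077600345, nat_lit 5077600345, nat_lit 4339310745, nat_lit 4339310745,
   nat_lit 312754214, nat_lit 4540630173, nat_lit 4540630189, nat_lit 4540630185,
   nat_lit 4308223101, nat_lit 4505092194, nat_lit 4, nat_lit 8, nat_lit 311181350,
   nat_lit 4337730713, nat_lit 4979179610, nat_lit 4337730725, nat_lit 8, nat_lit 5004625009,
   nat_lit 311181350, nat_lit 4339303577, nat_lit 4979179610, nat_lit 4339303589, nat_lit 8,
   nat_lit 12, nat_lit 316948518, nat_lit 4342039685, nat_lit 4342040709, nat_lit 4342040705,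
   nat_lit 12, nat_lit 5076043881, nat_lit 316948518, nat_lit 4343874693, nat_lit 4343875717,
   nat_lit 4343875713, nat_lit 312754214, nat_lit 4337845381, nat_lit 4337846405,
   nat_lit 4337846401, nat_lit 12, nat_lit 0, nat_lit 5005935729, nat_lit 4310327429,
   nat_lit 4310327429, nat_lit 0, nat_lit 5005935729, nat_lit 4343881861, nat_lit 4343881861,
   nat_lit 316948518, nat_lit 4343874693, nat_lit 4343875717, nat_lit 4343875713, nat_lit 0,
   nat_lit 5005935729, nat_lit 4343881861, nat_lit 4343881861, nat_lit 316948518,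
   nat_lit 4545201301, nat_lit 4545202325, nat_lit 4545202321, nat_lit 312754214,
   nat_lit 4540630173, nat_lit 4540630189, nat_lit 4540630185, nat_lit 4308223101,
   nat_lit 4505092194, nat_lit 8, nat_lit 12, nat_lit 315375654, nat_lit 4341925017,
   nat_lit 5046288474, nat_lit 4341925029, nat_lit 12, nat_lit 5075928177, nat_lit 315375654,
   nat_lit 4343760025, nat_lit 5046288474, nat_lit 4343760037, nat_lit 12, nat_lit 0, nat_lit 4,
   nat_lit 4540729441, nat_lit 4540729441, nat_lit 4536173741, nat_lit 5005935781,
   nat_lit 4310212761, nat_lit 4310212761, nat_lit 0, nat_lit 4, nat_lit 5048525013,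
   nat_lit 5077600353, nat_lit 5077600353, nat_lit 5073044653, nat_lit 5073044649,
   nat_lit 4343767193, nat_lit 4343767193, nat_lit 317210662, nat_lit 4342056069,
   nat_lit 4342057093, nat_lit 4342057089, nat_lit 0, nat_lit 4, nat_lit 5077600353,
   nat_lit 5077600353, nat_lit 5077600353, nat_lit 5073044653, nat_lit 5073044649,
   nat_lit 4343767193, nat_lit 4343767193, nat_lit 317210662, nat_lit 4545086621,
   nat_lit 4545086637, nat_lit 4545086633, nat_lit 4308239485, nat_lit 4505108578, nat_lit 8,
   nat_lit 12, nat_lit 0, nat_lit 4, nat_lit 12119475317, nat_lit 4, nat_lit 12119475317,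
   nat_lit 12119475317, nat_lit 4308206717, nat_lit 755367998, nat_lit 48824326,
   nat_lit 48824326, nat_lit 12499846309, nat_lit 12499059885, nat_lit 4966876273, nat_lit 0,
   nat_lit 4, nat_lit 306987046, nat_lit 4333536409, nat_lit 4912070746, nat_lit 4333536421,
   nat_lit 4, nat_lit 4933321841, nat_lit 306987046, nat_lit 4334847129, nat_lit 4912070746,
   nat_lit 4334847141, nat_lit 4, nat_lit 8, nat_lit 12, nat_lit 5076027497, nat_lit 8,
   nat_lit 12, nat_lit 5077600361, nat_lit 308297766, nat_lit 4333634693, nat_lit 4333635717,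
   nat_lit 4333635713, nat_lit 8, nat_lit 12, nat_lit 5077600361, nat_lit 12, nat_lit 5077600361,
   nat_lit 5077600361, nat_lit 308297766, nat_lit 4536173725, nat_lit 4536173741,
   nat_lit 4536173737, nat_lit 4308206717, nat_lit 4505075810, nat_lit 0, nat_lit 4,
   nat_lit 306987046, nat_lit 4333536409, nat_lit 4912070746, nat_lit 4333536421, nat_lit 4,
   nat_lit 4933321841, nat_lit 306987046, nat_lit 4334847129, nat_lit 4912070746,
   nat_lit 4334847141, nat_lit 4, nat_lit 8, nat_lit 12, nat_lit 12123669621, nat_lit 5076027497,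
   nat_lit 8, nat_lit 12, nat_lit 12123669621, nat_lit 5077600361, nat_lit 308297766,
   nat_lit 4333634693, nat_lit 4333635717, nat_lit 4333635713, nat_lit 12, nat_lit 8,
   nat_lit 12123669621, nat_lit 12123669621, nat_lit 5035657313, nat_lit 308297766,
   nat_lit 4536173725, nat_lit 4536173741, nat_lit 4536173737, nat_lit 4308206717,
   nat_lit 4505075810, nat_lit 0, nat_lit 4, nat_lit 306987046, nat_lit 4333536409,
   nat_lit 4912070746, nat_lit 4333536421, nat_lit 4, nat_lit 4933321841, nat_lit 306987046,
   nat_lit 4334847129, nat_lit 4912070746, nat_lit 4334847141, nat_lit 4, nat_lit 8, nat_lit 12,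
   nat_lit 12094309493, nat_lit 12499944585, nat_lit 12499945609, nat_lit 12499945613,
   nat_lit 4966975585, nat_lit 8, nat_lit 12, nat_lit 12119475317, nat_lit 12119475317,
   nat_lit 12501517449, nat_lit 12501518473, nat_lit 12501518477, nat_lit 4968548449,
   nat_lit 308297766, nat_lit 4333634693, nat_lit 4333635717, nat_lit 4333635713, nat_lit 8,
   nat_lit 12, nat_lit 12119475317, nat_lit 12094670957, nat_lit 12094670957,
   nat_lit 12501518473, nat_lit 12501518477, nat_lit 4968548449, nat_lit 308297766,
   nat_lit 4536173725, nat_lit 4536173741, nat_lit 4536173737, nat_lit 4308206717,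
   nat_lit 4505075810, nat_lit 0, nat_lit 4, nat_lit 306987046, nat_lit 4333536409,
   nat_lit 4912070746, nat_lit 4333536421, nat_lit 4, nat_lit 4933321841, nat_lit 306987046,
   nat_lit 4334847129, nat_lit 4912070746, nat_lit 4334847141, nat_lit 4, nat_lit 8,
   nat_lit 312492070, nat_lit 4337828997, nat_lit 4337830021, nat_lit 4337830017, nat_lit 8,
   nat_lit 5004724329, nat_lit 312492070, nat_lit 4339401861, nat_lit 4339402885,
   nat_lit 4339402881, nat_lit 308297766, nat_lit 4333634693, nat_lit 4333635717,
   nat_lit 4333635713, nat_lit 8, nat_lit 12, nat_lit 12119475317, nat_lit 5034100833,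
   nat_lit 12, nat_lit 12119475317, nat_lit 5035935841, nat_lit 312492070, nat_lit 4339401861,
   nat_lit 4339402885, nat_lit 4339402881, nat_lit 12, nat_lit 12119475317, nat_lit 5035935841,
   nat_lit 312492070, nat_lit 4540728469, nat_lit 4540729493, nat_lit 4540729489,
   nat_lit 308297766, nat_lit 4536173725, nat_lit 4536173741, nat_lit 4536173737,
   nat_lit 4308206717, nat_lit 4505075810, nat_lit 12, nat_lit 16, nat_lit 4, nat_lit 8,
   nat_lit 5004625009, nat_lit 311181350, nat_lit 4339303577, nat_lit 824852542,
   nat_lit 4339303589, nat_lit 0, nat_lit 269377585, nat_lit 8, nat_lit 271212593,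
   nat_lit 271212593, nat_lit 271212593, nat_lit 271212589, nat_lit 283795513, nat_lit 283795513,
   nat_lit 283795513, nat_lit 283795509, nat_lit 283402277, nat_lit 283418661, nat_lit 8,
   nat_lit 311320617, nat_lit 310927401, nat_lit 4308223101, nat_lit 822493246, nat_lit 53280774,
   nat_lit 53280774, nat_lit 13640696997, nat_lit 13639910573, nat_lit 5033985137, nat_lit 12,
   nat_lit 16, nat_lit 319569958, nat_lit 4346119321, nat_lit 5113397338, nat_lit 4346119333,
   nat_lit 16, nat_lit 5147231345, nat_lit 319569958, nat_lit 4348216473, nat_lit 5113397338,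
   nat_lit 4348216485, nat_lit 16, nat_lit 0, nat_lit 4, nat_lit 8, nat_lit 5005935729,
   nat_lit 4310474905, nat_lit 4310474905, nat_lit 0, nat_lit 4, nat_lit 8, nat_lit 5005935729,
   nat_lit 4348223641, nat_lit 4348223641, nat_lit 321667110, nat_lit 4346266757,
   nat_lit 4346267781, nat_lit 4346267777, nat_lit 0, nat_lit 4, nat_lit 8, nat_lit 5005935729,
   nat_lit 4348223641, nat_lit 4348223641, nat_lit 321667110, nat_lit 4549543069,
   nat_lit 4549543085, nat_lit 4549543081, nat_lit 4308255869, nat_lit 4505124962, nat_lit 16,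
   nat_lit 20, nat_lit 4, nat_lit 8, nat_lit 5004625009, nat_lit 311181350, nat_lit 4339303577,
   nat_lit 891961406, nat_lit 4339303589, nat_lit 8, nat_lit 12, nat_lit 0, nat_lit 5048240217,
   nat_lit 5048148125, nat_lit 5048148125, nat_lit 12, nat_lit 0, nat_lit 5077600345,
   nat_lit 5077508253, nat_lit 5077508253, nat_lit 312754214, nat_lit 4337845381,
   nat_lit 4337846405, nat_lit 14229759181, nat_lit 0, nat_lit 12, nat_lit 5077600345,
   nat_lit 5077600345, nat_lit 4339310745, nat_lit 4339310745, nat_lit 312754214,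
   nat_lit 4540630173, nat_lit 4540630189, nat_lit 4540630185, nat_lit 4308223101,
   nat_lit 889602110, nat_lit 57737222, nat_lit 57737222, nat_lit 14781547685,
   nat_lit 14780761261, nat_lit 5101094001, nat_lit 16, nat_lit 20, nat_lit 4, nat_lit 8,
   nat_lit 5004625009, nat_lit 311181350, nat_lit 4339303577, nat_lit 891961406,
   nat_lit 4339303589, nat_lit 8, nat_lit 12, nat_lit 316948518, nat_lit 4342039685,
   nat_lit 4342040709, nat_lit 14230021325, nat_lit 12, nat_lit 5076043881, nat_lit 316948518,
   nat_lit 4343874693, nat_lit 4343875717, nat_lit 14230136013, nat_lit 312754214,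
   nat_lit 4337845381, nat_lit 4337846405, nat_lit 14229759181, nat_lit 12, nat_lit 0,
   nat_lit 5005935729, nat_lit 4310327429, nat_lit 4310327429, nat_lit 0, nat_lit 5005935729,
   nat_lit 4343881861, nat_lit 4343881861, nat_lit 316948518, nat_lit 4343874693,
   nat_lit 4343875717, nat_lit 14230136013, nat_lit 0, nat_lit 5005935729, nat_lit 4343881861,
   nat_lit 4343881861, nat_lit 316948518, nat_lit 4545201301, nat_lit 4545202325,
   nat_lit 4545202321, nat_lit 312754214, nat_lit 4540630173, nat_lit 4540630189,
   nat_lit 4540630185, nat_lit 4308223101, nat_lit 889602110, nat_lit 57737222, nat_lit 57737222,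
   nat_lit 14781547685, nat_lit 14780761261, nat_lit 5101094001, nat_lit 16, nat_lit 20,
   nat_lit 8, nat_lit 12, nat_lit 5075928177, nat_lit 315375654, nat_lit 4343760025,
   nat_lit 892239934, nat_lit 4343760037, nat_lit 12, nat_lit 0, nat_lit 4, nat_lit 4540729441,
   nat_lit 4540729441, nat_lit 4536173741, nat_lit 5005935781, nat_lit 4310212761,
   nat_lit 4310212761, nat_lit 0, nat_lit 4, nat_lit 5048525013, nat_lit 5077600353,
   nat_lit 5077600353, nat_lit 5073044653, nat_lit 5073044649, nat_lit 4343767193,
   nat_lit 4343767193, nat_lit 317210662, nat_lit 4342056069, nat_lit 4342057093,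
   nat_lit 14230022349, nat_lit 0, nat_lit 4, nat_lit 5077600353, nat_lit 5077600353,
   nat_lit 5077600353, nat_lit 5073044653, nat_lit 5073044649, nat_lit 4343767193,
   nat_lit 4343767193, nat_lit 317210662, nat_lit 4545086621, nat_lit 4545086637,
   nat_lit 4545086633, nat_lit 4308239485, nat_lit 889618494, nat_lit 57737222, nat_lit 57737222,
   nat_lit 14781547685, nat_lit 14780761261, nat_lit 5101094001, nat_lit 16, nat_lit 20,
   nat_lit 0, nat_lit 4, nat_lit 4933321841, nat_lit 306987046, nat_lit 4334847129,
   nat_lit 891682878, nat_lit 4334847141, nat_lit 8, nat_lit 12, nat_lit 14275895493,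
   nat_lit 316686374, nat_lit 4342023301, nat_lit 4342024325, nat_lit 14230020301, nat_lit 4,
   nat_lit 12, nat_lit 14275993797, nat_lit 14275993797, nat_lit 14242439365,
   nat_lit 14242439365, nat_lit 14242439365, nat_lit 5005935781, nat_lit 4308206717,
   nat_lit 889585726, nat_lit 57737222, nat_lit 57737222, nat_lit 14781547685,
   nat_lit 14780761261, nat_lit 5101094001, nat_lit 16, nat_lit 20, nat_lit 0, nat_lit 4,
   nat_lit 4933321841, nat_lit 306987046, nat_lit 4334847129, nat_lit 891682878,
   nat_lit 4334847141, nat_lit 4, nat_lit 8, nat_lit 12, nat_lit 5076027497, nat_lit 8,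
   nat_lit 12, nat_lit 5077600361, nat_lit 308297766, nat_lit 4333634693, nat_lit 4333635717,
   nat_lit 14229496013, nat_lit 8, nat_lit 12, nat_lit 5077600361, nat_lit 12,
   nat_lit 5077600361, nat_lit 5077600361, nat_lit 308297766, nat_lit 4536173725,
   nat_lit 4536173741, nat_lit 4536173737, nat_lit 4308206717, nat_lit 889585726,
   nat_lit 57737222, nat_lit 57737222, nat_lit 14781547685, nat_lit 14780761261,
   nat_lit 5101094001, nat_lit 20, nat_lit 24, nat_lit 12, nat_lit 16, nat_lit 5147231345,
   nat_lit 319569958, nat_lit 4348216473, nat_lit 959627326, nat_lit 4348216485, nat_lit 16,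
   nat_lit 0, nat_lit 4, nat_lit 8, nat_lit 5005935729, nat_lit 4310474905, nat_lit 4310474905,
   nat_lit 0, nat_lit 4, nat_lit 8, nat_lit 5005935729, nat_lit 4348223641, nat_lit 4348223641,
   nat_lit 321667110, nat_lit 4346266757, nat_lit 4346267781, nat_lit 15304027341, nat_lit 0,
   nat_lit 4, nat_lit 8, nat_lit 5005935729, nat_lit 4348223641, nat_lit 4348223641,
   nat_lit 321667110, nat_lit 4549543069, nat_lit 4549543085, nat_lit 4549543081,
   nat_lit 4308255869, nat_lit 956743742, nat_lit 62193670, nat_lit 62193670,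
   nat_lit 15922398373, nat_lit 15921611949, nat_lit 5168202865, nat_lit 0, nat_lit 4,
   nat_lit 306987046, nat_lit 4333536409, nat_lit 4912070746, nat_lit 4333536421, nat_lit 4,
   nat_lit 306987046, nat_lit 4334847129, nat_lit 4912070746, nat_lit 4334847141, nat_lit 4,
   nat_lit 308297766, nat_lit 4333634693, nat_lit 4333635717, nat_lit 4333635713,
   nat_lit 308297766, nat_lit 4536173725, nat_lit 4536173741, nat_lit 4536173737,
   nat_lit 4308206717, nat_lit 4505075810, nat_lit 0, nat_lit 4, nat_lit 39911430,
   nat_lit 39911430, nat_lit 10218144933, nat_lit 10217358509, nat_lit 4832658545]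

theorem c12_0 : chk TT UT (gU 12) (sub 0 23) s12_0 = true := by decide +kernel

def s13_0 : List ℕ :=   [nat_lit 0, nat_lit 209739837, nat_lit 281550905, nat_lit 281567281, nat_lit 281042981,
   nat_lit 0, nat_lit 4, nat_lit 8, nat_lit 4507452565, nat_lit 4507452557, nat_lit 8,
   nat_lit 4507452549, nat_lit 4, nat_lit 8, nat_lit 3399877725, nat_lit 4, nat_lit 8,
   nat_lit 4507459733, nat_lit 4507459725, nat_lit 8, nat_lit 4507459717, nat_lit 4504814765,
   nat_lit 4504814749, nat_lit 4504707285, nat_lit 4504707245, nat_lit 4, nat_lit 8,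
   nat_lit 4507328645, nat_lit 8, nat_lit 4507459733, nat_lit 4507459725, nat_lit 4507459725,
   nat_lit 8, nat_lit 4507459717, nat_lit 4507459717, nat_lit 4507066501, nat_lit 4505100429,
   nat_lit 4505100421, nat_lit 8, nat_lit 4507459717, nat_lit 4507459717, nat_lit 4504707161,
   nat_lit 0, nat_lit 209739837, nat_lit 281550905, nat_lit 281567281, nat_lit 281042981,
   nat_lit 8, nat_lit 72077566305, nat_lit 4, nat_lit 3355878585, nat_lit 4504708269,
   nat_lit 72081891673, nat_lit 4504708185, nat_lit 0, nat_lit 209739837, nat_lit 281550905,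
   nat_lit 281567281, nat_lit 281042981, nat_lit 8, nat_lit 683696165, nat_lit 310927401,
   nat_lit 310927401, nat_lit 4, nat_lit 312746025, nat_lit 312746025, nat_lit 312762409,
   nat_lit 312762409, nat_lit 0, nat_lit 4, nat_lit 4504831149, nat_lit 4504831133, nat_lit 4,
   nat_lit 4507174037, nat_lit 4507174029, nat_lit 4504838357, nat_lit 4504831133, nat_lit 4,
   nat_lit 4507174021, nat_lit 4504838317, nat_lit 4504838301, nat_lit 4504814765,
   nat_lit 4504814749, nat_lit 4504707285, nat_lit 4504707245, nat_lit 4, nat_lit 4504838317,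
   nat_lit 4504838301, nat_lit 4504838317, nat_lit 4505100441, nat_lit 4504707161, nat_lit 4,
   nat_lit 8, nat_lit 4504847533, nat_lit 4504847517, nat_lit 4507320406, nat_lit 8,
   nat_lit 4507452565, nat_lit 4507452557, nat_lit 4504855765, nat_lit 4504847517,
   nat_lit 3399761998, nat_lit 8, nat_lit 4507452549, nat_lit 4504855725, nat_lit 4504855709,
   nat_lit 4507320406, nat_lit 4504831149, nat_lit 4504831133, nat_lit 4504708309,
   nat_lit 4504708269, nat_lit 8, nat_lit 4504855725, nat_lit 4504855709, nat_lit 4507451478,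
   nat_lit 4504855725, nat_lit 4505117849, nat_lit 4507451478, nat_lit 4504708185, nat_lit 4,
   nat_lit 8, nat_lit 4504847533, nat_lit 4504847517, nat_lit 4507320406, nat_lit 8,
   nat_lit 4507452565, nat_lit 4507452557, nat_lit 4504855765, nat_lit 4504847517,
   nat_lit 3399761998, nat_lit 8, nat_lit 4507452549, nat_lit 4504855725, nat_lit 4504855709,
   nat_lit 4507320406, nat_lit 4504831149, nat_lit 4504831133, nat_lit 4504708309,
   nat_lit 4504708269, nat_lit 8, nat_lit 4504855725, nat_lit 4504855709, nat_lit 4507451478,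
   nat_lit 4504855725, nat_lit 4505117849, nat_lit 4507451478, nat_lit 4504708185, nat_lit 8,
   nat_lit 12, nat_lit 4504863917, nat_lit 4504863901, nat_lit 4507582550, nat_lit 12,
   nat_lit 4507731093, nat_lit 4507731085, nat_lit 4504873173, nat_lit 4504863901,
   nat_lit 3404218446, nat_lit 12, nat_lit 4507731077, nat_lit 4504873133, nat_lit 4504873117,
   nat_lit 4507582550, nat_lit 4504847533, nat_lit 4504847517, nat_lit 4504709333,
   nat_lit 4504709293, nat_lit 12, nat_lit 4504873133, nat_lit 4504873117, nat_lit 4507730006,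
   nat_lit 4504873133, nat_lit 4505135257, nat_lit 4507730006, nat_lit 4504709209, nat_lit 0,
   nat_lit 4, nat_lit 4504831149, nat_lit 4504831133, nat_lit 4507058262, nat_lit 4,
   nat_lit 4507174037, nat_lit 4507174029, nat_lit 4504838357, nat_lit 4504831133,
   nat_lit 3395305550, nat_lit 4, nat_lit 4507174021, nat_lit 4504838317, nat_lit 4504838301,
   nat_lit 4507058262, nat_lit 4504814765, nat_lit 4504814749, nat_lit 4506796118,
   nat_lit 4504707285, nat_lit 4504707245, nat_lit 4, nat_lit 4504838317, nat_lit 4504838301,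
   nat_lit 4507172950, nat_lit 4504838317, nat_lit 4505100441, nat_lit 4507172950,
   nat_lit 4504707161, nat_lit 4, nat_lit 4507058262, nat_lit 12, nat_lit 12012904561,
   nat_lit 5041971317, nat_lit 5041971317, nat_lit 8, nat_lit 5075263605, nat_lit 5075263605,
   nat_lit 5075525749, nat_lit 5075525749, nat_lit 0, nat_lit 4, nat_lit 4504831149,
   nat_lit 4504831133, nat_lit 4507058262, nat_lit 4, nat_lit 4507174037, nat_lit 4507174029,
   nat_lit 4504838357, nat_lit 4504831133, nat_lit 3395305550, nat_lit 4, nat_lit 4507174021,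
   nat_lit 4504838317, nat_lit 4504838301, nat_lit 4507058262, nat_lit 4504814765,
   nat_lit 4504814749, nat_lit 4504707285, nat_lit 4504707245, nat_lit 4, nat_lit 4504838317,
   nat_lit 4504838301, nat_lit 4507172950, nat_lit 4504838317, nat_lit 4505100441,
   nat_lit 4507172950, nat_lit 4504707161, nat_lit 0, nat_lit 4, nat_lit 4504831149,
   nat_lit 4504831133, nat_lit 4507058262, nat_lit 4, nat_lit 4507174037, nat_lit 4507174029,
   nat_lit 4504838357, nat_lit 4504831133, nat_lit 3395305550, nat_lit 4, nat_lit 4507174021,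
   nat_lit 4504838317, nat_lit 4504838301, nat_lit 4507058262, nat_lit 4504814765,
   nat_lit 4504814749, nat_lit 4504707285, nat_lit 4504707245, nat_lit 4, nat_lit 4504838317,
   nat_lit 4504838301, nat_lit 4507172950, nat_lit 4504838317, nat_lit 4505100441,
   nat_lit 4507172950, nat_lit 4504707161, nat_lit 0, nat_lit 4, nat_lit 4504831149,
   nat_lit 4504831133, nat_lit 4507058262, nat_lit 4, nat_lit 4507174037, nat_lit 4507174029,
   nat_lit 4504838357, nat_lit 4504831133, nat_lit 3395305550, nat_lit 4, nat_lit 4507174021,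
   nat_lit 4504838317, nat_lit 4504838301, nat_lit 4507058262, nat_lit 4504814765,
   nat_lit 4504814749, nat_lit 4504707285, nat_lit 4504707245, nat_lit 4, nat_lit 4504838317,
   nat_lit 4504838301, nat_lit 4507172950, nat_lit 4504838317, nat_lit 4505100441,
   nat_lit 4507172950, nat_lit 4504707161, nat_lit 0, nat_lit 4, nat_lit 4504831149,
   nat_lit 4504831133, nat_lit 4507058262, nat_lit 4, nat_lit 4507174037, nat_lit 4507174029,
   nat_lit 4504838357, nat_lit 4504831133, nat_lit 3395305550, nat_lit 4, nat_lit 4507174021,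
   nat_lit 4504838317, nat_lit 4504838301, nat_lit 4507058262, nat_lit 4504814765,
   nat_lit 4504814749, nat_lit 4504707285, nat_lit 4504707245, nat_lit 4, nat_lit 4504838317,
   nat_lit 4504838301, nat_lit 4507172950, nat_lit 4504838317, nat_lit 4505100441,
   nat_lit 4507172950, nat_lit 4504707161, nat_lit 0, nat_lit 209739837, nat_lit 281550905,
   nat_lit 281567281, nat_lit 281042981, nat_lit 8, nat_lit 72077566305, nat_lit 4,
   nat_lit 3355878585, nat_lit 4504708269, nat_lit 72081891673, nat_lit 4504708185, nat_lit 16,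
   nat_lit 13094642777, nat_lit 13094642777, nat_lit 81745568077, nat_lit 12, nat_lit 4507567253,
   nat_lit 4507567245, nat_lit 82349547853, nat_lit 82349547853, nat_lit 12, nat_lit 16,
   nat_lit 4504880301, nat_lit 4504880285, nat_lit 4507844694, nat_lit 16, nat_lit 4508009621,
   nat_lit 4508009613, nat_lit 4504890581, nat_lit 4504880285, nat_lit 3408674894, nat_lit 16,
   nat_lit 4508009605, nat_lit 4504890541, nat_lit 4504890525, nat_lit 4507844694,
   nat_lit 4504863917, nat_lit 4504863901, nat_lit 4504710357, nat_lit 4504710317, nat_lit 16,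
   nat_lit 4504890541, nat_lit 4504890525, nat_lit 4508008534, nat_lit 4504890541,
   nat_lit 4505152665, nat_lit 4508008534, nat_lit 4504710233, nat_lit 0, nat_lit 8,
   nat_lit 4504847533, nat_lit 4504847517, nat_lit 4507320406, nat_lit 8, nat_lit 4507436181,
   nat_lit 4507436173, nat_lit 4504854741, nat_lit 4504847517, nat_lit 3399499854, nat_lit 8,
   nat_lit 4507436165, nat_lit 4504854701, nat_lit 4504854685, nat_lit 4507320406,
   nat_lit 4504814765, nat_lit 4504814749, nat_lit 4506796118, nat_lit 4504707285,
   nat_lit 4504707245, nat_lit 8, nat_lit 4504854701, nat_lit 4504854685, nat_lit 4507435094,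
   nat_lit 4504854701, nat_lit 4505116825, nat_lit 4507435094, nat_lit 4504707161, nat_lit 8,
   nat_lit 4507320406, nat_lit 4, nat_lit 3355878585, nat_lit 4504708269, nat_lit 4507451478,
   nat_lit 4504708185, nat_lit 12, nat_lit 1153245292013, nat_lit 20, nat_lit 14168384601,
   nat_lit 14168384601, nat_lit 1325113434485, nat_lit 16, nat_lit 4507829397,
   nat_lit 4507829389, nat_lit 1335850852725, nat_lit 72132617497, nat_lit 0, nat_lit 12,
   nat_lit 4504863917, nat_lit 4504863901, nat_lit 4507582550, nat_lit 12, nat_lit 4507698325,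
   nat_lit 4507698317, nat_lit 4504871125, nat_lit 4504863901, nat_lit 3403694158, nat_lit 12,
   nat_lit 4507698309, nat_lit 4504871085, nat_lit 4504871069, nat_lit 4507582550,
   nat_lit 4504814765, nat_lit 4504814749, nat_lit 4506796118, nat_lit 4504707285,
   nat_lit 4504707245, nat_lit 12, nat_lit 4504871085, nat_lit 4504871069, nat_lit 4507697238,
   nat_lit 4504871085, nat_lit 4505133209, nat_lit 4507697238, nat_lit 4504707161, nat_lit 12,
   nat_lit 4507582550, nat_lit 4, nat_lit 3355894969, nat_lit 4504708269, nat_lit 4507713622,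
   nat_lit 4504708185, nat_lit 8, nat_lit 20, nat_lit 14168384601, nat_lit 14168384601,
   nat_lit 1325113434493, nat_lit 16, nat_lit 4507829397, nat_lit 4507829389,
   nat_lit 1335850852733, nat_lit 72132617497, nat_lit 0, nat_lit 4, nat_lit 4504831149,
   nat_lit 4504831133, nat_lit 4507058262, nat_lit 4, nat_lit 4507174037, nat_lit 4507174029,
   nat_lit 4504838357, nat_lit 4504831133, nat_lit 3395305550, nat_lit 4, nat_lit 4507174021,
   nat_lit 4504838317, nat_lit 4504838301, nat_lit 4507058262, nat_lit 4504814765,
   nat_lit 4504814749, nat_lit 4506796118, nat_lit 4504707285, nat_lit 4504707245, nat_lit 4,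
   nat_lit 4504838317, nat_lit 4504838301, nat_lit 4507172950, nat_lit 4504838317,
   nat_lit 4505100441, nat_lit 4507172950, nat_lit 4504707161, nat_lit 4, nat_lit 4507058262,
   nat_lit 12, nat_lit 1153245274605, nat_lit 8, nat_lit 3355895993, nat_lit 4504709293,
   nat_lit 1153314742757, nat_lit 4504709209, nat_lit 20, nat_lit 14168385625,
   nat_lit 14168385625, nat_lit 1325113434585, nat_lit 16, nat_lit 4507829397,
   nat_lit 4507829389, nat_lit 1335850852825, nat_lit 72132618521, nat_lit 0, nat_lit 4,
   nat_lit 4504831149, nat_lit 4504831133, nat_lit 4507058262, nat_lit 4, nat_lit 4507174037,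
   nat_lit 4507174029, nat_lit 4504838357, nat_lit 4504831133, nat_lit 3395305550, nat_lit 4,
   nat_lit 4507174021, nat_lit 4504838317, nat_lit 4504838301, nat_lit 4507058262,
   nat_lit 4504814765, nat_lit 4504814749, nat_lit 4506796118, nat_lit 4504707285,
   nat_lit 4504707245, nat_lit 4, nat_lit 4504838317, nat_lit 4504838301, nat_lit 4507172950,
   nat_lit 4504838317, nat_lit 4505100441, nat_lit 4507172950, nat_lit 4504707161, nat_lit 4,
   nat_lit 4507058262, nat_lit 12, nat_lit 1153245274605, nat_lit 20, nat_lit 14168383577,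
   nat_lit 5180514405, nat_lit 323616798, nat_lit 16, nat_lit 5217738845, nat_lit 5217738845,
   nat_lit 192020510, nat_lit 72132616473, nat_lit 0, nat_lit 4, nat_lit 4504831149,
   nat_lit 4504831133, nat_lit 4507058262, nat_lit 4, nat_lit 4507174037, nat_lit 4507174029,
   nat_lit 4504838357, nat_lit 4504831133, nat_lit 3395305550, nat_lit 4, nat_lit 4507174021,
   nat_lit 4504838317, nat_lit 4504838301, nat_lit 4507058262, nat_lit 4504814765,
   nat_lit 4504814749, nat_lit 4506796118, nat_lit 4504707285, nat_lit 4504707245, nat_lit 4,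
   nat_lit 4504838317, nat_lit 4504838301, nat_lit 4507172950, nat_lit 4504838317,
   nat_lit 4505100441, nat_lit 4507172950, nat_lit 4504707161, nat_lit 4, nat_lit 4507058262,
   nat_lit 8, nat_lit 1153241080301, nat_lit 12, nat_lit 1153245274605, nat_lit 20,
   nat_lit 14168383577, nat_lit 14168383577, nat_lit 1325113434625, nat_lit 16,
   nat_lit 4507829397, nat_lit 4507829389, nat_lit 1335850852865, nat_lit 72132616473, nat_lit 0,
   nat_lit 16, nat_lit 4504880301, nat_lit 4504880285, nat_lit 4507844694, nat_lit 16,
   nat_lit 4507960469, nat_lit 4507960461, nat_lit 4504887509, nat_lit 4504880285,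
   nat_lit 3407888462, nat_lit 16, nat_lit 4507960453, nat_lit 4504887469, nat_lit 4504887453,
   nat_lit 4507844694, nat_lit 4504814765, nat_lit 4504814749, nat_lit 4506796118,
   nat_lit 4504707285, nat_lit 4504707245, nat_lit 16, nat_lit 4504887469, nat_lit 4504887453,
   nat_lit 4507959382, nat_lit 4504887469, nat_lit 4505149593, nat_lit 4507959382,
   nat_lit 4504707161, nat_lit 16, nat_lit 4507844694, nat_lit 4, nat_lit 3355911353,
   nat_lit 4504708269, nat_lit 4507975766, nat_lit 4504708185, nat_lit 8, nat_lit 12,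
   nat_lit 3355913401, nat_lit 4504710317, nat_lit 18453107466881, nat_lit 4504710233,
   nat_lit 24, nat_lit 15242128473, nat_lit 15242128473, nat_lit 21476764443253, nat_lit 20,
   nat_lit 4508091541, nat_lit 4508091533, nat_lit 21665743004277, nat_lit 72137075993,
   nat_lit 4, nat_lit 4507058262, nat_lit 0, nat_lit 3355861177, nat_lit 4504707245,
   nat_lit 4507172950, nat_lit 4504707161, nat_lit 4, nat_lit 617103414, nat_lit 617103414,
   nat_lit 283410478, nat_lit 0, nat_lit 4536140945, nat_lit 4536140937, nat_lit 283508782,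
   nat_lit 279314478]

theorem c13_0 : chk TT UT (gU 13) (sub 0 23) s13_0 = true := by decide +kernel

def s14_0 : List ℕ :=   [nat_lit 0, nat_lit 281550913, nat_lit 281567297, nat_lit 281567285, nat_lit 277094441,
   nat_lit 0, nat_lit 4, nat_lit 8, nat_lit 4507459765, nat_lit 4504953013, nat_lit 4504952977,
   nat_lit 4, nat_lit 8, nat_lit 4436156525, nat_lit 4431962213, nat_lit 4431962213,
   nat_lit 2217369697, nat_lit 4433535069, nat_lit 4433535069, nat_lit 8, nat_lit 2217369685,
   nat_lit 0, nat_lit 281550913, nat_lit 281567297, nat_lit 281567285, nat_lit 277094441,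
   nat_lit 8, nat_lit 4, nat_lit 72077697381, nat_lit 4504954037, nat_lit 4504954001,
   nat_lit 70936846669, nat_lit 0, nat_lit 281550913, nat_lit 281567297, nat_lit 281567285,
   nat_lit 277094441, nat_lit 8, nat_lit 688693285, nat_lit 311189545, nat_lit 310648873,
   nat_lit 310648873, nat_lit 4, nat_lit 312746025, nat_lit 178528297, nat_lit 178528297,
   nat_lit 178528297, nat_lit 0, nat_lit 4, nat_lit 4504838365, nat_lit 4504838365,
   nat_lit 4504838353, nat_lit 4433535177, nat_lit 4504953013, nat_lit 4504952977, nat_lit 4,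
   nat_lit 4433535093, nat_lit 4, nat_lit 8, nat_lit 4504855773, nat_lit 4504855773,
   nat_lit 4504855761, nat_lit 4433552585, nat_lit 4507451486, nat_lit 4504954037,
   nat_lit 4504954001, nat_lit 8, nat_lit 4433552501, nat_lit 3362406470, nat_lit 4, nat_lit 8,
   nat_lit 4504855773, nat_lit 4504855773, nat_lit 4504855761, nat_lit 4433552585,
   nat_lit 4507451486, nat_lit 4504954037, nat_lit 4504954001, nat_lit 8, nat_lit 4433552501,
   nat_lit 3362406470, nat_lit 8, nat_lit 12, nat_lit 4504873181, nat_lit 4504873181,
   nat_lit 4504873169, nat_lit 4433569993, nat_lit 4507730014, nat_lit 4504955061,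
   nat_lit 4504955025, nat_lit 12, nat_lit 4433569909, nat_lit 3362684998, nat_lit 0, nat_lit 4,
   nat_lit 4504838365, nat_lit 4504838365, nat_lit 4504838353, nat_lit 4433535177,
   nat_lit 4507172958, nat_lit 4504953013, nat_lit 4504952977, nat_lit 4, nat_lit 4433535093,
   nat_lit 3362127942, nat_lit 4, nat_lit 12, nat_lit 12092858481, nat_lit 5046165621,
   nat_lit 5037514869, nat_lit 5037514869, nat_lit 8, nat_lit 5075263605, nat_lit 5075263605,
   nat_lit 5075263605, nat_lit 2927779957, nat_lit 0, nat_lit 4, nat_lit 4504838365,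
   nat_lit 4504838365, nat_lit 4504838353, nat_lit 4433535177, nat_lit 4507172958,
   nat_lit 4504953013, nat_lit 4504952977, nat_lit 4, nat_lit 4433535093, nat_lit 3362127942,
   nat_lit 0, nat_lit 4, nat_lit 4504838365, nat_lit 4504838365, nat_lit 4504838353,
   nat_lit 4433535177, nat_lit 4507172958, nat_lit 4504953013, nat_lit 4504952977, nat_lit 4,
   nat_lit 4433535093, nat_lit 3362127942, nat_lit 0, nat_lit 4, nat_lit 4504838365,
   nat_lit 4504838365, nat_lit 4504838353, nat_lit 4433535177, nat_lit 4507172958,
   nat_lit 4504953013, nat_lit 4504952977, nat_lit 4, nat_lit 4433535093, nat_lit 3362127942,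
   nat_lit 0, nat_lit 4, nat_lit 4504838365, nat_lit 4504838365, nat_lit 4504838353,
   nat_lit 4433535177, nat_lit 4507172958, nat_lit 4504953013, nat_lit 4504952977, nat_lit 4,
   nat_lit 4433535093, nat_lit 3362127942, nat_lit 0, nat_lit 281550913, nat_lit 281567297,
   nat_lit 281567285, nat_lit 277094441, nat_lit 8, nat_lit 4, nat_lit 72077697381,
   nat_lit 4504954037, nat_lit 4504954001, nat_lit 70936846669, nat_lit 16, nat_lit 13166453865,
   nat_lit 5113128045, nat_lit 81674264909, nat_lit 81674264909, nat_lit 12, nat_lit 82345353549,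
   nat_lit 47985615181, nat_lit 47985615181, nat_lit 47985615181, nat_lit 12, nat_lit 16,
   nat_lit 4504890589, nat_lit 4504890589, nat_lit 4504890577, nat_lit 4433587401,
   nat_lit 4508008542, nat_lit 4504956085, nat_lit 4504956049, nat_lit 16, nat_lit 4433587317,
   nat_lit 3362963526, nat_lit 0, nat_lit 8, nat_lit 4504854749, nat_lit 4504854749,
   nat_lit 4504854737, nat_lit 4433551561, nat_lit 4507435102, nat_lit 4504953013,
   nat_lit 4504952977, nat_lit 8, nat_lit 4433551477, nat_lit 3362390086, nat_lit 8, nat_lit 4,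
   nat_lit 4507451486, nat_lit 4504954037, nat_lit 4504954001, nat_lit 3362406470, nat_lit 12,
   nat_lit 20, nat_lit 14240195689, nat_lit 5180236909, nat_lit 1323972583797,
   nat_lit 1323972583797, nat_lit 16, nat_lit 1335783743861, nat_lit 1153323689457,
   nat_lit 1153323689449, nat_lit 786027929973, nat_lit 0, nat_lit 12, nat_lit 4504871133,
   nat_lit 4504871133, nat_lit 4504871121, nat_lit 4433567945, nat_lit 4507697246,
   nat_lit 4504953013, nat_lit 4504952977, nat_lit 12, nat_lit 4433567861, nat_lit 3362652230,
   nat_lit 12, nat_lit 4, nat_lit 4507713630, nat_lit 4504954037, nat_lit 4504954001,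
   nat_lit 3362668614, nat_lit 8, nat_lit 20, nat_lit 14240195689, nat_lit 5180236909,
   nat_lit 1323972583805, nat_lit 1323972583805, nat_lit 16, nat_lit 1335783743869,
   nat_lit 1153323689457, nat_lit 1153323689449, nat_lit 786027929981, nat_lit 0, nat_lit 4,
   nat_lit 4504838365, nat_lit 4504838365, nat_lit 4504838353, nat_lit 4433535177,
   nat_lit 4507172958, nat_lit 4504953013, nat_lit 4504952977, nat_lit 4, nat_lit 4433535093,
   nat_lit 3362127942, nat_lit 4, nat_lit 12, nat_lit 8, nat_lit 1153247633905,
   nat_lit 4504955061, nat_lit 4504955025, nat_lit 1134994022873, nat_lit 20,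
   nat_lit 14240196713, nat_lit 5180237933, nat_lit 1323972583897, nat_lit 1323972583897,
   nat_lit 16, nat_lit 1335783743961, nat_lit 1153323690481, nat_lit 1153323690473,
   nat_lit 786027930073, nat_lit 0, nat_lit 4, nat_lit 4504838365, nat_lit 4504838365,
   nat_lit 4504838353, nat_lit 4433535177, nat_lit 4507172958, nat_lit 4504953013,
   nat_lit 4504952977, nat_lit 4, nat_lit 4433535093, nat_lit 3362127942, nat_lit 4, nat_lit 12,
   nat_lit 8, nat_lit 1153247633905, nat_lit 4504955061, nat_lit 4504955025,
   nat_lit 1134994022873, nat_lit 20, nat_lit 14240194665, nat_lit 5180235885,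
   nat_lit 1323972583929, nat_lit 1323972583929, nat_lit 16, nat_lit 1335783743993,
   nat_lit 1153323690481, nat_lit 1153323690473, nat_lit 786027930105, nat_lit 0, nat_lit 4,
   nat_lit 4504838365, nat_lit 4504838365, nat_lit 4504838353, nat_lit 4433535177,
   nat_lit 4507172958, nat_lit 4504953013, nat_lit 4504952977, nat_lit 4, nat_lit 4433535093,
   nat_lit 3362127942, nat_lit 4, nat_lit 8, nat_lit 12, nat_lit 20, nat_lit 14240194665,
   nat_lit 5180235885, nat_lit 1323972583937, nat_lit 1323972583937, nat_lit 16,
   nat_lit 1335783744001, nat_lit 1153323688433, nat_lit 1153323688425, nat_lit 786027930113,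
   nat_lit 0, nat_lit 16, nat_lit 4504887517, nat_lit 4504887517, nat_lit 4504887505,
   nat_lit 4433584329, nat_lit 4507959390, nat_lit 4504953013, nat_lit 4504952977, nat_lit 16,
   nat_lit 4433584245, nat_lit 3362914374, nat_lit 16, nat_lit 4, nat_lit 4507975774,
   nat_lit 4504954037, nat_lit 4504954001, nat_lit 3362930758, nat_lit 8, nat_lit 12,
   nat_lit 18452033725069, nat_lit 4504956085, nat_lit 4504956049, nat_lit 18159975948917,
   nat_lit 24, nat_lit 15313939561, nat_lit 5247347821, nat_lit 21458510832245,
   nat_lit 21458510832245, nat_lit 20, nat_lit 21664669262453, nat_lit 1153328164337,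
   nat_lit 1153328164329, nat_lit 12868576240245, nat_lit 4, nat_lit 0, nat_lit 4507172958,
   nat_lit 4504953013, nat_lit 4504952977, nat_lit 3362127942, nat_lit 4, nat_lit 621576234,
   nat_lit 307003426, nat_lit 283394106, nat_lit 283394106, nat_lit 0, nat_lit 140902458,
   nat_lit 140902446, nat_lit 140902446, nat_lit 140902446]

theorem c14_0 : chk TT UT (gU 14) (sub 0 23) s14_0 = true := by decide +kernel

def s15_0 : List ℕ :=   [nat_lit 0, nat_lit 281059389, nat_lit 281059389, nat_lit 201875505, nat_lit 0, nat_lit 4,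
   nat_lit 8, nat_lit 4540630177, nat_lit 4540630217, nat_lit 4540630213, nat_lit 4498687169,
   nat_lit 8, nat_lit 3265561789, nat_lit 4, nat_lit 8, nat_lit 4540630177, nat_lit 8,
   nat_lit 4538909873, nat_lit 4496991449, nat_lit 4, nat_lit 8, nat_lit 4540729437,
   nat_lit 4498425025, nat_lit 4, nat_lit 8, nat_lit 4540728481, nat_lit 4540728521,
   nat_lit 4540728517, nat_lit 4498785473, nat_lit 8, nat_lit 3265660093, nat_lit 4, nat_lit 8,
   nat_lit 4540637345, nat_lit 8, nat_lit 4538917041, nat_lit 4306133121, nat_lit 4496950489,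
   nat_lit 4, nat_lit 8, nat_lit 4540637301, nat_lit 4540637301, nat_lit 4540728517,
   nat_lit 4498785473, nat_lit 8, nat_lit 3265660093, nat_lit 8, nat_lit 4540728481,
   nat_lit 4540728521, nat_lit 4540728517, nat_lit 4540728481, nat_lit 4540728521,
   nat_lit 4540728517, nat_lit 4498785473, nat_lit 8, nat_lit 3263848573, nat_lit 3232391301,
   nat_lit 4496842969, nat_lit 4, nat_lit 8, nat_lit 4538785969, nat_lit 4306002049, nat_lit 8,
   nat_lit 4540637345, nat_lit 4540637345, nat_lit 4534591665, nat_lit 8, nat_lit 4538917041,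
   nat_lit 4538917041, nat_lit 4306133121, nat_lit 4306133121, nat_lit 4305739905,
   nat_lit 4303773825, nat_lit 8, nat_lit 4538917041, nat_lit 4306133121, nat_lit 4306133121,
   nat_lit 4, nat_lit 8, nat_lit 4498940005, nat_lit 3263717501, nat_lit 4498940005,
   nat_lit 3232260229, nat_lit 8, nat_lit 4540637301, nat_lit 4540637301, nat_lit 4540630213,
   nat_lit 4498677861, nat_lit 3259523197, nat_lit 8, nat_lit 4540620893, nat_lit 4499071077,
   nat_lit 3263848573, nat_lit 4540620893, nat_lit 4499071077, nat_lit 3232391301,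
   nat_lit 4498677861, nat_lit 3231998085, nat_lit 4496711781, nat_lit 8, nat_lit 4499071077,
   nat_lit 3263848573, nat_lit 4499071077, nat_lit 3232391301, nat_lit 4503265381,
   nat_lit 3232391301, nat_lit 8, nat_lit 3263848573, nat_lit 3232391301, nat_lit 3232391301,
   nat_lit 0, nat_lit 281059389, nat_lit 281059389, nat_lit 201875505, nat_lit 8,
   nat_lit 203989041, nat_lit 203989037, nat_lit 212361273, nat_lit 212361269, nat_lit 4,
   nat_lit 212492345, nat_lit 212492345, nat_lit 212492345, nat_lit 4, nat_lit 212492341,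
   nat_lit 212492341, nat_lit 212492341, nat_lit 8, nat_lit 243818537, nat_lit 4496983225,
   nat_lit 4, nat_lit 4496991417, nat_lit 4496991417, nat_lit 51680797017, nat_lit 0,
   nat_lit 281059389, nat_lit 281059389, nat_lit 201875505, nat_lit 8, nat_lit 4,
   nat_lit 283385897, nat_lit 283402281, nat_lit 239116325, nat_lit 688693293, nat_lit 688693297,
   nat_lit 4, nat_lit 709664813, nat_lit 709664813, nat_lit 709664813, nat_lit 312746025,
   nat_lit 312762409, nat_lit 708878373, nat_lit 4, nat_lit 709664817, nat_lit 709664817,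
   nat_lit 709664817, nat_lit 312746025, nat_lit 312762409, nat_lit 708878373, nat_lit 4,
   nat_lit 312746025, nat_lit 312762409, nat_lit 708878373, nat_lit 4, nat_lit 312746025,
   nat_lit 312762409, nat_lit 708878373, nat_lit 8, nat_lit 687906853, nat_lit 4,
   nat_lit 312746025, nat_lit 312762409, nat_lit 708878373, nat_lit 312746025, nat_lit 312762409,
   nat_lit 708878373, nat_lit 243818537, nat_lit 8, nat_lit 0, nat_lit 4, nat_lit 4498687169,
   nat_lit 4496966873, nat_lit 4, nat_lit 4536173729, nat_lit 4536173769, nat_lit 4498425025,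
   nat_lit 4, nat_lit 4534699185, nat_lit 4498694337, nat_lit 4496974041, nat_lit 4496974041,
   nat_lit 4496950489, nat_lit 4496842969, nat_lit 4, nat_lit 4498694337, nat_lit 4496974041,
   nat_lit 4496974041, nat_lit 0, nat_lit 4, nat_lit 10978624629, nat_lit 4, nat_lit 4534699185,
   nat_lit 10939424985, nat_lit 11006402765, nat_lit 0, nat_lit 4, nat_lit 10941138113,
   nat_lit 10939417817, nat_lit 4, nat_lit 10978624673, nat_lit 10978624713, nat_lit 10940875969,
   nat_lit 4, nat_lit 10977150129, nat_lit 10941145281, nat_lit 10939424985, nat_lit 10939424985,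
   nat_lit 10939401433, nat_lit 10939293913, nat_lit 4, nat_lit 10941145281, nat_lit 10939424985,
   nat_lit 10939424985, nat_lit 0, nat_lit 4, nat_lit 11018585309, nat_lit 11018585297,
   nat_lit 11018585309, nat_lit 11018585297, nat_lit 4, nat_lit 11020928181, nat_lit 10978624713,
   nat_lit 10978624713, nat_lit 11018568925, nat_lit 11018568913, nat_lit 4, nat_lit 11020928181,
   nat_lit 11018592477, nat_lit 11018592465, nat_lit 11020928181, nat_lit 11018592477,
   nat_lit 11018592465, nat_lit 11018568925, nat_lit 11018568913, nat_lit 11018461405, nat_lit 4,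
   nat_lit 11018592477, nat_lit 11018592465, nat_lit 11018592477, nat_lit 11018592465,
   nat_lit 11018854621, nat_lit 11018854609, nat_lit 4, nat_lit 11018592425, nat_lit 11018592425,
   nat_lit 11018854569, nat_lit 0, nat_lit 4, nat_lit 4981130385, nat_lit 4, nat_lit 4981130385,
   nat_lit 4981130385, nat_lit 4978663633, nat_lit 0, nat_lit 4, nat_lit 4978787549,
   nat_lit 4978787549, nat_lit 4, nat_lit 4981130421, nat_lit 10978624713, nat_lit 4978771165,
   nat_lit 4, nat_lit 4981130421, nat_lit 4978794717, nat_lit 4981130421, nat_lit 4978794717,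
   nat_lit 4978771165, nat_lit 4978663645, nat_lit 4, nat_lit 4978794717, nat_lit 4978794717,
   nat_lit 4979056861, nat_lit 0, nat_lit 4, nat_lit 10941138113, nat_lit 4968449209,
   nat_lit 10939417817, nat_lit 4966728909, nat_lit 4, nat_lit 10978624673, nat_lit 10978624713,
   nat_lit 10978624713, nat_lit 10940875969, nat_lit 4968187065, nat_lit 4, nat_lit 10977150129,
   nat_lit 10941145281, nat_lit 4968456377, nat_lit 10939424985, nat_lit 10939424985,
   nat_lit 4966736077, nat_lit 10939401433, nat_lit 4966712525, nat_lit 10939293913, nat_lit 4,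
   nat_lit 10941145281, nat_lit 4968456377, nat_lit 10939424985, nat_lit 4966736077,
   nat_lit 10939424985, nat_lit 4966736077, nat_lit 4, nat_lit 10941145281, nat_lit 10939424985,
   nat_lit 10939424985, nat_lit 4538270881, nat_lit 4538270921, nat_lit 4538270917, nat_lit 4,
   nat_lit 8, nat_lit 283656254, nat_lit 4498949325, nat_lit 8, nat_lit 12, nat_lit 4499211457,
   nat_lit 0, nat_lit 3267911805, nat_lit 4498949313, nat_lit 12, nat_lit 4499342529, nat_lit 0,
   nat_lit 3270008957, nat_lit 283656254, nat_lit 4498949325, nat_lit 4496983257, nat_lit 0,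
   nat_lit 12, nat_lit 4545077425, nat_lit 4545077425, nat_lit 12, nat_lit 3270008957,
   nat_lit 3270008957, nat_lit 3270008957, nat_lit 3270008957, nat_lit 283656254,
   nat_lit 4496983225, nat_lit 8, nat_lit 4540630177, nat_lit 4540630217, nat_lit 4540630213,
   nat_lit 283656254, nat_lit 3265561765, nat_lit 4498687169, nat_lit 8, nat_lit 3265561789,
   nat_lit 283656254, nat_lit 4499064013, nat_lit 8, nat_lit 12, nat_lit 4543104177,
   nat_lit 4499219649, nat_lit 0, nat_lit 4544922821, nat_lit 3268042877, nat_lit 4538909873,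
   nat_lit 4498957505, nat_lit 12, nat_lit 4545201329, nat_lit 4499350721, nat_lit 0,
   nat_lit 4003857621, nat_lit 3270140029, nat_lit 283656254, nat_lit 4498957517,
   nat_lit 4496991449, nat_lit 4496991449, nat_lit 12, nat_lit 4545201329, nat_lit 4499350721,
   nat_lit 0, nat_lit 4003857621, nat_lit 3270140029, nat_lit 4545201329, nat_lit 4499350721,
   nat_lit 0, nat_lit 4003857621, nat_lit 3270140029, nat_lit 283656254, nat_lit 4496991417,
   nat_lit 4496966873, nat_lit 0, nat_lit 12, nat_lit 3268042877, nat_lit 3232653445,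
   nat_lit 3232105661, nat_lit 4498785465, nat_lit 3231998085, nat_lit 8, nat_lit 3263848581,
   nat_lit 3263848577, nat_lit 3399770261, nat_lit 3399770257, nat_lit 8, nat_lit 3903086701,
   nat_lit 4499064013, nat_lit 4496843993, nat_lit 0, nat_lit 12, nat_lit 4543111345,
   nat_lit 4306395265, nat_lit 4306395265, nat_lit 12, nat_lit 4499333221, nat_lit 3268042877,
   nat_lit 4499333221, nat_lit 3232653445, nat_lit 4503527525, nat_lit 3232653445, nat_lit 8,
   nat_lit 3263848581, nat_lit 3263848577, nat_lit 3232391293, nat_lit 3232391289,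
   nat_lit 4505117893, nat_lit 3232391289, nat_lit 8, nat_lit 4498957517, nat_lit 4496991417,
   nat_lit 4496991417, nat_lit 0, nat_lit 12, nat_lit 3268042877, nat_lit 3232653445,
   nat_lit 3232653445, nat_lit 8, nat_lit 3263848581, nat_lit 3263848577, nat_lit 3232391293,
   nat_lit 3232391289, nat_lit 3232391293, nat_lit 3232391289, nat_lit 8, nat_lit 4498949325,
   nat_lit 4496983225, nat_lit 71949526305, nat_lit 4, nat_lit 8, nat_lit 283656254,
   nat_lit 4498949325, nat_lit 8, nat_lit 12, nat_lit 283918398, nat_lit 4499211469,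
   nat_lit 4498949313, nat_lit 12, nat_lit 3270018237, nat_lit 283918398, nat_lit 4499342541,
   nat_lit 283656254, nat_lit 4498949325, nat_lit 4496983257, nat_lit 0, nat_lit 3232260229,
   nat_lit 12, nat_lit 3268059269, nat_lit 3268059265, nat_lit 3404226709, nat_lit 3404226705,
   nat_lit 12, nat_lit 3970457709, nat_lit 4499342541, nat_lit 283656254, nat_lit 4496983225,
   nat_lit 8, nat_lit 4540630177, nat_lit 4540630217, nat_lit 4540630213, nat_lit 283656254,
   nat_lit 3265561765, nat_lit 4498687169, nat_lit 8, nat_lit 3265561789, nat_lit 283656254,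
   nat_lit 4499064013, nat_lit 8, nat_lit 12, nat_lit 283918398, nat_lit 4499219661,
   nat_lit 4538909873, nat_lit 4498957505, nat_lit 12, nat_lit 3270026429, nat_lit 283918398,
   nat_lit 4499350733, nat_lit 283656254, nat_lit 4498957517, nat_lit 4496991449,
   nat_lit 4496991449, nat_lit 0, nat_lit 4540728517, nat_lit 4540728517, nat_lit 4499047609,
   nat_lit 3232391301, nat_lit 12, nat_lit 3270140037, nat_lit 3270140033, nat_lit 3404357781,
   nat_lit 3404357777, nat_lit 12, nat_lit 3970588781, nat_lit 4499350733, nat_lit 283656254,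
   nat_lit 4496991417, nat_lit 4496966873, nat_lit 0, nat_lit 8, nat_lit 3263848573,
   nat_lit 3232391301, nat_lit 3232105661, nat_lit 4498785465, nat_lit 3231998085, nat_lit 12,
   nat_lit 3268042885, nat_lit 3268042881, nat_lit 3403964565, nat_lit 3403964561, nat_lit 12,
   nat_lit 3970195565, nat_lit 4499326157, nat_lit 4496843993, nat_lit 0, nat_lit 8,
   nat_lit 4538917041, nat_lit 4306133121, nat_lit 4306133121, nat_lit 8, nat_lit 4499071077,
   nat_lit 3263848573, nat_lit 4499071077, nat_lit 3232391301, nat_lit 4503265381,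
   nat_lit 3232391301, nat_lit 12, nat_lit 3268042885, nat_lit 3268042881, nat_lit 3232653437,
   nat_lit 3232653433, nat_lit 4505134277, nat_lit 3232653433, nat_lit 12, nat_lit 4499219661,
   nat_lit 4497007801, nat_lit 4497007801, nat_lit 0, nat_lit 8, nat_lit 3263848573,
   nat_lit 3232391301, nat_lit 3232391301, nat_lit 12, nat_lit 3268042885, nat_lit 3268042881,
   nat_lit 3232653437, nat_lit 3232653433, nat_lit 3232653437, nat_lit 3232653433, nat_lit 12,
   nat_lit 4499211469, nat_lit 4496999609, nat_lit 71949542689, nat_lit 8, nat_lit 12,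
   nat_lit 283918398, nat_lit 4499211469, nat_lit 12, nat_lit 0, nat_lit 4, nat_lit 4505100485,
   nat_lit 4496974009, nat_lit 4, nat_lit 3230032025, nat_lit 71949508897, nat_lit 4499211457,
   nat_lit 0, nat_lit 4, nat_lit 4542849221, nat_lit 4542849221, nat_lit 4499333305, nat_lit 4,
   nat_lit 3968229589, nat_lit 3267780761, nat_lit 71987257633, nat_lit 283918398,
   nat_lit 4499211469, nat_lit 4496999641, nat_lit 0, nat_lit 4, nat_lit 4542849221,
   nat_lit 4542849221, nat_lit 4499333305, nat_lit 4, nat_lit 3267780761, nat_lit 3232653501,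
   nat_lit 71987257633, nat_lit 283918398, nat_lit 4496999609, nat_lit 12, nat_lit 4545086625,
   nat_lit 4545086665, nat_lit 4545086661, nat_lit 283918398, nat_lit 3270018213,
   nat_lit 4498949313, nat_lit 12, nat_lit 3270018237, nat_lit 283918398, nat_lit 4499342541,
   nat_lit 12, nat_lit 4, nat_lit 4507452613, nat_lit 4496966841, nat_lit 0, nat_lit 4507459781,
   nat_lit 4507459781, nat_lit 3232391321, nat_lit 0, nat_lit 4496974009, nat_lit 4496974009,
   nat_lit 71951868193, nat_lit 4543120561, nat_lit 4499220673, nat_lit 4, nat_lit 4545201349,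
   nat_lit 4545201349, nat_lit 4499326137, nat_lit 3268060285, nat_lit 0, nat_lit 4545208517,
   nat_lit 4545208517, nat_lit 3270140057, nat_lit 0, nat_lit 4499333305, nat_lit 4499333305,
   nat_lit 71989616929, nat_lit 283918398, nat_lit 4499220685, nat_lit 4497008857,
   nat_lit 4497008857, nat_lit 4, nat_lit 4545201349, nat_lit 4545201349, nat_lit 4499326137,
   nat_lit 3232670853, nat_lit 0, nat_lit 4545208517, nat_lit 4545208517, nat_lit 3270140057,
   nat_lit 0, nat_lit 4499333305, nat_lit 4499333305, nat_lit 71989616929, nat_lit 283918398,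
   nat_lit 4497008825, nat_lit 4496983257, nat_lit 0, nat_lit 4, nat_lit 12, nat_lit 3970588885,
   nat_lit 3270140057, nat_lit 3232391321, nat_lit 4499063993, nat_lit 3232367805,
   nat_lit 4499047609, nat_lit 3232260229, nat_lit 12, nat_lit 3268059269, nat_lit 3268059265,
   nat_lit 3404226709, nat_lit 3404226705, nat_lit 12, nat_lit 3970457709, nat_lit 4499342541,
   nat_lit 4496845017, nat_lit 0, nat_lit 4, nat_lit 4306133157, nat_lit 12, nat_lit 4545208521,
   nat_lit 4545208517, nat_lit 4545208521, nat_lit 4545208517, nat_lit 4545208521,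
   nat_lit 4545208517, nat_lit 4507459781, nat_lit 4496974009, nat_lit 4, nat_lit 12,
   nat_lit 3970588885, nat_lit 3270140057, nat_lit 3337248921, nat_lit 3232391321,
   nat_lit 71951868193, nat_lit 12, nat_lit 3268059269, nat_lit 3268059265, nat_lit 3232669821,
   nat_lit 3232669817, nat_lit 4505135301, nat_lit 3232669817, nat_lit 12, nat_lit 4499220685,
   nat_lit 4497008825, nat_lit 4497008825, nat_lit 0, nat_lit 4, nat_lit 12, nat_lit 3970588885,
   nat_lit 3270140057, nat_lit 3337248921, nat_lit 3232391321, nat_lit 71949508897, nat_lit 12,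
   nat_lit 3268059269, nat_lit 3268059265, nat_lit 3232669821, nat_lit 3232669817,
   nat_lit 3232669821, nat_lit 3232669817, nat_lit 12, nat_lit 4499211469, nat_lit 4496999609,
   nat_lit 71949543713, nat_lit 8, nat_lit 12, nat_lit 0, nat_lit 12092310737,
   nat_lit 12092310737, nat_lit 4, nat_lit 12092334249, nat_lit 12092334249, nat_lit 12092596393,
   nat_lit 12092212433, nat_lit 12092212437, nat_lit 12, nat_lit 0, nat_lit 4,
   nat_lit 12052366453, nat_lit 4, nat_lit 4534699185, nat_lit 12499181737, nat_lit 12080144589,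
   nat_lit 0, nat_lit 4, nat_lit 12499174569, nat_lit 12499174569, nat_lit 4,
   nat_lit 12501517441, nat_lit 12052366537, nat_lit 12499158185, nat_lit 4, nat_lit 12501517441,
   nat_lit 12499181737, nat_lit 12501517441, nat_lit 12499181737, nat_lit 12499158185,
   nat_lit 12499050665, nat_lit 4, nat_lit 12499181737, nat_lit 12499181737, nat_lit 12499443877,
   nat_lit 0, nat_lit 4, nat_lit 12499174573, nat_lit 12499174557, nat_lit 12499174573,
   nat_lit 12499174557, nat_lit 4, nat_lit 12501517445, nat_lit 12052366537, nat_lit 3261105305,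
   nat_lit 12499158189, nat_lit 12499158173, nat_lit 4, nat_lit 12501517445, nat_lit 12499181741,
   nat_lit 12499181725, nat_lit 12501517445, nat_lit 12499181741, nat_lit 12499181725,
   nat_lit 12499158189, nat_lit 12499158173, nat_lit 12499050669, nat_lit 4, nat_lit 12499181741,
   nat_lit 12499181725, nat_lit 12499181741, nat_lit 12499181725, nat_lit 12495249573,
   nat_lit 12499443865, nat_lit 12499837049, nat_lit 12499059869, nat_lit 12499059869,
   nat_lit 12, nat_lit 0, nat_lit 12499158225, nat_lit 12499158225, nat_lit 4,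
   nat_lit 12499181737, nat_lit 12499181737, nat_lit 12499443881, nat_lit 0, nat_lit 12499158229,
   nat_lit 12494963921, nat_lit 12499158229, nat_lit 12494963921, nat_lit 4, nat_lit 12499181741,
   nat_lit 12499181725, nat_lit 12499181741, nat_lit 12499181725, nat_lit 12499443885,
   nat_lit 12499443869, nat_lit 4, nat_lit 12494987433, nat_lit 12494987433, nat_lit 12495249577,
   nat_lit 12494865617, nat_lit 12494865621, nat_lit 12, nat_lit 0, nat_lit 12494963921,
   nat_lit 12494963921, nat_lit 4, nat_lit 12494987433, nat_lit 12494987433, nat_lit 12495249577,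
   nat_lit 12494865617, nat_lit 12494865621, nat_lit 12, nat_lit 0, nat_lit 4,
   nat_lit 4978787497, nat_lit 4978787497, nat_lit 4, nat_lit 4981130369, nat_lit 4536173769,
   nat_lit 4978771113, nat_lit 4, nat_lit 4981130369, nat_lit 4978794665, nat_lit 4981130369,
   nat_lit 4978794665, nat_lit 4978771113, nat_lit 4978663593, nat_lit 4, nat_lit 4978794665,
   nat_lit 4978794665, nat_lit 4979056805, nat_lit 0, nat_lit 12121670749, nat_lit 12121670749,
   nat_lit 12122349773, nat_lit 0, nat_lit 4, nat_lit 12494980265, nat_lit 12494980265,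
   nat_lit 4, nat_lit 12497323137, nat_lit 12052366537, nat_lit 12494963881, nat_lit 4,
   nat_lit 12497323137, nat_lit 12494987433, nat_lit 12497323137, nat_lit 12494987433,
   nat_lit 12494963881, nat_lit 12494856361, nat_lit 4, nat_lit 12494987433, nat_lit 12494987433,
   nat_lit 12495249573, nat_lit 0, nat_lit 4, nat_lit 12494980265, nat_lit 12494980265,
   nat_lit 12494980265, nat_lit 12494980265, nat_lit 4, nat_lit 12497323137, nat_lit 12052366537,
   nat_lit 12052366537, nat_lit 12494963881, nat_lit 12494963881, nat_lit 4, nat_lit 12497323137,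
   nat_lit 12494987433, nat_lit 12494987433, nat_lit 12497323137, nat_lit 12494987433,
   nat_lit 12494987433, nat_lit 12494963881, nat_lit 12494963881, nat_lit 12494856361, nat_lit 4,
   nat_lit 12494987433, nat_lit 12494987433, nat_lit 12494987433, nat_lit 12494987433,
   nat_lit 12495249573, nat_lit 12495249573, nat_lit 4, nat_lit 12494987433, nat_lit 12494987433,
   nat_lit 12495249573, nat_lit 12494865577, nat_lit 12494865581, nat_lit 0, nat_lit 4,
   nat_lit 5048239249, nat_lit 4, nat_lit 5048239249, nat_lit 5048239249, nat_lit 5045772497,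
   nat_lit 0, nat_lit 4, nat_lit 12494980265, nat_lit 12494980265, nat_lit 4,
   nat_lit 12497323137, nat_lit 12052366537, nat_lit 12494963881, nat_lit 4, nat_lit 12497323137,
   nat_lit 12494987433, nat_lit 12497323137, nat_lit 12494987433, nat_lit 12494963881,
   nat_lit 12494856361, nat_lit 4, nat_lit 12494987433, nat_lit 12494987433, nat_lit 12495249573,
   nat_lit 0, nat_lit 4, nat_lit 12494980265, nat_lit 5076042957, nat_lit 12494980265,
   nat_lit 5076042957, nat_lit 4, nat_lit 12497323137, nat_lit 12052366537, nat_lit 5076050125,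
   nat_lit 12494963881, nat_lit 5076026573, nat_lit 4, nat_lit 12497323137, nat_lit 12494987433,
   nat_lit 5076050125, nat_lit 12497323137, nat_lit 12494987433, nat_lit 5076050125,
   nat_lit 12494963881, nat_lit 5076026573, nat_lit 12494856361, nat_lit 4, nat_lit 12494987433,
   nat_lit 5076050125, nat_lit 12494987433, nat_lit 5076050125, nat_lit 12495249573,
   nat_lit 5076050125, nat_lit 5075132509, nat_lit 5075928269, nat_lit 5075895473, nat_lit 12,
   nat_lit 0, nat_lit 4978771153, nat_lit 4978771153, nat_lit 4, nat_lit 4978794665,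
   nat_lit 4978794665, nat_lit 4979056809, nat_lit 0, nat_lit 12494963921, nat_lit 12494963921,
   nat_lit 4, nat_lit 12494987433, nat_lit 12494987433, nat_lit 12495249577, nat_lit 0,
   nat_lit 12494963921, nat_lit 12494963921, nat_lit 12494963921, nat_lit 12494963921, nat_lit 4,
   nat_lit 12494987433, nat_lit 12494987433, nat_lit 12494987433, nat_lit 12494987433,
   nat_lit 12495249577, nat_lit 12495249577, nat_lit 4, nat_lit 12494987433, nat_lit 12494987433,
   nat_lit 12495249577, nat_lit 12494865617, nat_lit 12494865621, nat_lit 0, nat_lit 12494963921,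
   nat_lit 12494963921, nat_lit 4, nat_lit 12494987433, nat_lit 12494987433, nat_lit 12495249577,
   nat_lit 0, nat_lit 12494963921, nat_lit 5075240137, nat_lit 12494963921, nat_lit 5075240137,
   nat_lit 4, nat_lit 12494987433, nat_lit 5076050125, nat_lit 12494987433, nat_lit 5076050125,
   nat_lit 12495249577, nat_lit 5076050125, nat_lit 4, nat_lit 5075263605, nat_lit 5075263605,
   nat_lit 5075525749, nat_lit 5075141833, nat_lit 5075141833, nat_lit 12, nat_lit 0,
   nat_lit 12494963921, nat_lit 12494963921, nat_lit 4, nat_lit 12494987433, nat_lit 12494987433,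
   nat_lit 12495249577, nat_lit 12494865617, nat_lit 12494865621, nat_lit 0, nat_lit 5075240133,
   nat_lit 5075240133, nat_lit 4, nat_lit 12494987433, nat_lit 12494987433, nat_lit 12495249577,
   nat_lit 5075141829, nat_lit 5075141829, nat_lit 4538270881, nat_lit 4538270921,
   nat_lit 4538270917, nat_lit 0, nat_lit 4, nat_lit 283394110, nat_lit 4498687181, nat_lit 4,
   nat_lit 8, nat_lit 4498949313, nat_lit 12, nat_lit 3270018237, nat_lit 4498687169, nat_lit 8,
   nat_lit 4499064001, nat_lit 12, nat_lit 3270132925, nat_lit 283394110, nat_lit 4498687181,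
   nat_lit 4496966873, nat_lit 8, nat_lit 4499064001, nat_lit 12, nat_lit 3270132925,
   nat_lit 4499064001, nat_lit 12, nat_lit 3268060285, nat_lit 3232670853, nat_lit 283394110,
   nat_lit 4496966841, nat_lit 4, nat_lit 4536173729, nat_lit 4536173769, nat_lit 4536173765,
   nat_lit 283394110, nat_lit 3261105317, nat_lit 4498425025, nat_lit 4, nat_lit 3261105341,
   nat_lit 283394110, nat_lit 4498785485, nat_lit 4, nat_lit 8, nat_lit 4538893489,
   nat_lit 4498956481, nat_lit 12, nat_lit 3270025405, nat_lit 4534699185, nat_lit 4498694337,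
   nat_lit 8, nat_lit 4540728497, nat_lit 4499071169, nat_lit 12, nat_lit 3270140093,
   nat_lit 283394110, nat_lit 4498694349, nat_lit 4496974041, nat_lit 4496974041, nat_lit 8,
   nat_lit 4540728497, nat_lit 4499071169, nat_lit 12, nat_lit 3270140093, nat_lit 4540728497,
   nat_lit 4499071169, nat_lit 12, nat_lit 3270140093, nat_lit 3270140093, nat_lit 283394110,
   nat_lit 4496974009, nat_lit 4496950489, nat_lit 4, nat_lit 8, nat_lit 12, nat_lit 3270025405,
   nat_lit 8, nat_lit 12, nat_lit 3270140093, nat_lit 283394110, nat_lit 4498785485, nat_lit 8,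
   nat_lit 12, nat_lit 3270140093, nat_lit 12, nat_lit 3270140093, nat_lit 3270140093,
   nat_lit 283394110, nat_lit 4498785485, nat_lit 4496842969, nat_lit 4, nat_lit 8,
   nat_lit 4498956481, nat_lit 12, nat_lit 3270025405, nat_lit 4498694337, nat_lit 8,
   nat_lit 4499071169, nat_lit 12, nat_lit 3270140093, nat_lit 283508798, nat_lit 4498694349,
   nat_lit 4496974041, nat_lit 8, nat_lit 4499071169, nat_lit 12, nat_lit 3270140093,
   nat_lit 4499071169, nat_lit 12, nat_lit 3270140093, nat_lit 3270140093, nat_lit 283508798,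
   nat_lit 4496974009, nat_lit 4496974041, nat_lit 8, nat_lit 4538654921, nat_lit 4538654917,
   nat_lit 4538654921, nat_lit 4538654917, nat_lit 4503265473, nat_lit 12, nat_lit 5040136377,
   nat_lit 5040136377, nat_lit 3337248957, nat_lit 4505100485, nat_lit 4496974009, nat_lit 4,
   nat_lit 8, nat_lit 12, nat_lit 3270025405, nat_lit 8, nat_lit 12, nat_lit 3270140093,
   nat_lit 283394110, nat_lit 4498687181, nat_lit 8, nat_lit 12, nat_lit 3270140093, nat_lit 12,
   nat_lit 3270140093, nat_lit 3270140093, nat_lit 283394110, nat_lit 4496966841, nat_lit 8,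
   nat_lit 3901120725, nat_lit 3263586457, nat_lit 12, nat_lit 11952349377, nat_lit 3270140093,
   nat_lit 3337248957, nat_lit 3230032025, nat_lit 71949508897, nat_lit 0, nat_lit 4,
   nat_lit 283394110, nat_lit 4498687181, nat_lit 4, nat_lit 8, nat_lit 4498949313, nat_lit 12,
   nat_lit 12092343505, nat_lit 5035820217, nat_lit 5035820217, nat_lit 4498687169, nat_lit 8,
   nat_lit 4499064001, nat_lit 12, nat_lit 12015256769, nat_lit 5035934905, nat_lit 5035934905,
   nat_lit 283394110, nat_lit 4498687181, nat_lit 4496966873, nat_lit 8, nat_lit 4499064001,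
   nat_lit 12, nat_lit 12015256769, nat_lit 5035934905, nat_lit 5035934905, nat_lit 4499064001,
   nat_lit 12, nat_lit 12015256769, nat_lit 5035934905, nat_lit 5035934905, nat_lit 283394110,
   nat_lit 4496966841, nat_lit 4, nat_lit 4536173729, nat_lit 4536173769, nat_lit 4536173765,
   nat_lit 283394110, nat_lit 3261105317, nat_lit 4498425025, nat_lit 4, nat_lit 3261105341,
   nat_lit 283394110, nat_lit 4498785485, nat_lit 4, nat_lit 8, nat_lit 4538893489,
   nat_lit 4498956481, nat_lit 12, nat_lit 12092350673, nat_lit 5035827385, nat_lit 5035827385,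
   nat_lit 4534699185, nat_lit 4498694337, nat_lit 8, nat_lit 4540728497, nat_lit 4499071169,
   nat_lit 12, nat_lit 12015263937, nat_lit 5035942073, nat_lit 5035942073, nat_lit 283394110,
   nat_lit 4498694349, nat_lit 4496974041, nat_lit 4496974041, nat_lit 8, nat_lit 4540728497,
   nat_lit 4499071169, nat_lit 12, nat_lit 12015263937, nat_lit 5035942073, nat_lit 5035942073,
   nat_lit 4540728497, nat_lit 4499071169, nat_lit 12, nat_lit 12015263937, nat_lit 5035942073,
   nat_lit 5035942073, nat_lit 283394110, nat_lit 4496974009, nat_lit 4496950489, nat_lit 4,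
   nat_lit 12, nat_lit 12092310737, nat_lit 5033821389, nat_lit 5033821389, nat_lit 12,
   nat_lit 12014978265, nat_lit 5035656397, nat_lit 5035656397, nat_lit 283394110,
   nat_lit 4498785485, nat_lit 12, nat_lit 12014978265, nat_lit 5035656397, nat_lit 5035656397,
   nat_lit 283394110, nat_lit 4498785485, nat_lit 4496842969, nat_lit 4, nat_lit 8,
   nat_lit 4498956481, nat_lit 12, nat_lit 12092350673, nat_lit 5035827385, nat_lit 5035827385,
   nat_lit 4498694337, nat_lit 8, nat_lit 4499071169, nat_lit 12, nat_lit 12015263937,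
   nat_lit 5035942073, nat_lit 5035942073, nat_lit 283508798, nat_lit 4498694349,
   nat_lit 4496974041, nat_lit 8, nat_lit 4499071169, nat_lit 12, nat_lit 12015263937,
   nat_lit 5035942073, nat_lit 5035942073, nat_lit 4499071169, nat_lit 12, nat_lit 12015263937,
   nat_lit 5035942073, nat_lit 5035942073, nat_lit 283508798, nat_lit 4496974009,
   nat_lit 4496974041, nat_lit 8, nat_lit 4538654921, nat_lit 4538654917, nat_lit 4538654921,
   nat_lit 4538654917, nat_lit 4503265473, nat_lit 12, nat_lit 12019458241, nat_lit 5040136377,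
   nat_lit 5040136377, nat_lit 4505100485, nat_lit 4496974009, nat_lit 4, nat_lit 8, nat_lit 12,
   nat_lit 12092350633, nat_lit 12015149249, nat_lit 5035820217, nat_lit 8, nat_lit 12,
   nat_lit 12015263937, nat_lit 12015263937, nat_lit 5035934905, nat_lit 283394110,
   nat_lit 4498687181, nat_lit 8, nat_lit 12, nat_lit 12015263937, nat_lit 12015263937,
   nat_lit 4542465221, nat_lit 12, nat_lit 12015263937, nat_lit 12015263937, nat_lit 5035934905,
   nat_lit 283394110, nat_lit 4496966841, nat_lit 8, nat_lit 3901120725, nat_lit 3263586457,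
   nat_lit 12, nat_lit 12019458241, nat_lit 12019458241, nat_lit 11952349377, nat_lit 3230032025,
   nat_lit 71949508897, nat_lit 0, nat_lit 4, nat_lit 283394110, nat_lit 4498687181, nat_lit 4,
   nat_lit 8, nat_lit 12, nat_lit 12092212433, nat_lit 12092212437, nat_lit 12,
   nat_lit 12494865617, nat_lit 12494865621, nat_lit 12, nat_lit 12494865617,
   nat_lit 12494865621, nat_lit 12, nat_lit 12494865617, nat_lit 12494865621, nat_lit 5075141833,
   nat_lit 5075141833, nat_lit 12, nat_lit 12494865617, nat_lit 12494865621, nat_lit 5075141829,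
   nat_lit 5075141829, nat_lit 4538270921, nat_lit 4538270917, nat_lit 4498687169, nat_lit 8,
   nat_lit 12, nat_lit 12092327121, nat_lit 12092327121, nat_lit 12092327125, nat_lit 12,
   nat_lit 12494980305, nat_lit 12494980305, nat_lit 12494980309, nat_lit 12,
   nat_lit 12494980305, nat_lit 12494980305, nat_lit 12494980309, nat_lit 12,
   nat_lit 12494980305, nat_lit 12494980305, nat_lit 12494980309, nat_lit 5075256521,
   nat_lit 5075256521, nat_lit 5075256521, nat_lit 12, nat_lit 12494980305, nat_lit 12494980305,
   nat_lit 12494980309, nat_lit 5075256517, nat_lit 5075256517, nat_lit 5075256517,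
   nat_lit 4538385609, nat_lit 4538385605, nat_lit 283394110, nat_lit 4498687181,
   nat_lit 4496966873, nat_lit 8, nat_lit 12, nat_lit 12092327121, nat_lit 12092220585,
   nat_lit 12092220589, nat_lit 12, nat_lit 12494980305, nat_lit 12494873769,
   nat_lit 12494873773, nat_lit 12, nat_lit 12494980305, nat_lit 12494873769,
   nat_lit 12494873773, nat_lit 12, nat_lit 12494980305, nat_lit 12494873769,
   nat_lit 12494873773, nat_lit 5075256521, nat_lit 5075149941, nat_lit 5075149941, nat_lit 12,
   nat_lit 12494980305, nat_lit 12494873769, nat_lit 12494873773, nat_lit 5075256517,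
   nat_lit 12494873769, nat_lit 12494873773, nat_lit 4538279029, nat_lit 4538385605,
   nat_lit 283394110, nat_lit 4496966841, nat_lit 4, nat_lit 4536173729, nat_lit 4536173769,
   nat_lit 4536173765, nat_lit 283394110, nat_lit 3261105317, nat_lit 4498425025, nat_lit 4,
   nat_lit 3261105341, nat_lit 283394110, nat_lit 4498785485, nat_lit 4, nat_lit 12, nat_lit 8,
   nat_lit 4538893489, nat_lit 4538278089, nat_lit 4538278085, nat_lit 12092219601,
   nat_lit 12092219605, nat_lit 8, nat_lit 5075764401, nat_lit 5075149001, nat_lit 5075148997,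
   nat_lit 5075764401, nat_lit 5075149001, nat_lit 5075148997, nat_lit 8, nat_lit 5076026545,
   nat_lit 5075149001, nat_lit 5075148997, nat_lit 5075764401, nat_lit 5075149001,
   nat_lit 5075148997, nat_lit 8, nat_lit 5075764401, nat_lit 5075149001, nat_lit 5075148997,
   nat_lit 8, nat_lit 5075764401, nat_lit 5075149001, nat_lit 5075148997, nat_lit 4534699185,
   nat_lit 4498694337, nat_lit 12, nat_lit 8, nat_lit 4540728497, nat_lit 4538392777,
   nat_lit 4538392773, nat_lit 12092334289, nat_lit 12092334289, nat_lit 12092334293,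
   nat_lit 5035565241, nat_lit 8, nat_lit 5077599409, nat_lit 5075263689, nat_lit 5075263685,
   nat_lit 5077599409, nat_lit 5075263689, nat_lit 5075263685, nat_lit 8, nat_lit 5077599409,
   nat_lit 5075263689, nat_lit 5075263685, nat_lit 5077599409, nat_lit 5075263689,
   nat_lit 5075263685, nat_lit 5035565241, nat_lit 8, nat_lit 5077599409, nat_lit 5075263689,
   nat_lit 5075263685, nat_lit 8, nat_lit 5077599409, nat_lit 5075263689, nat_lit 5075263685,
   nat_lit 283394110, nat_lit 4498694349, nat_lit 4496974041, nat_lit 4496974041, nat_lit 12,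
   nat_lit 8, nat_lit 4540728497, nat_lit 4538392777, nat_lit 4538392773, nat_lit 12092334289,
   nat_lit 12092334289, nat_lit 12092334293, nat_lit 5033844941, nat_lit 8, nat_lit 5077599409,
   nat_lit 5075263689, nat_lit 5075263685, nat_lit 5077599409, nat_lit 5075263689,
   nat_lit 5075263685, nat_lit 8, nat_lit 5077599409, nat_lit 5075263689, nat_lit 5075263685,
   nat_lit 5077599409, nat_lit 5075263689, nat_lit 5075263685, nat_lit 5033844941, nat_lit 8,
   nat_lit 5077599409, nat_lit 5075263689, nat_lit 5075263685, nat_lit 8, nat_lit 5077599409,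
   nat_lit 5075263689, nat_lit 5075263685, nat_lit 283394110, nat_lit 4496974009,
   nat_lit 4496950489, nat_lit 4, nat_lit 8, nat_lit 11018568913, nat_lit 4966712525,
   nat_lit 4966712525, nat_lit 8, nat_lit 10941236441, nat_lit 4968547533, nat_lit 4968547533,
   nat_lit 283394110, nat_lit 4498785485, nat_lit 8, nat_lit 10941236441, nat_lit 4968547533,
   nat_lit 4968547533, nat_lit 283394110, nat_lit 4498785485, nat_lit 4496842969, nat_lit 4,
   nat_lit 8, nat_lit 12, nat_lit 12092219601, nat_lit 12092219605, nat_lit 12,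
   nat_lit 12494872785, nat_lit 12494872789, nat_lit 12, nat_lit 12494872785,
   nat_lit 12494872789, nat_lit 12, nat_lit 12494872785, nat_lit 12494872789, nat_lit 5075149001,
   nat_lit 5075149001, nat_lit 12, nat_lit 12494872785, nat_lit 12494872789, nat_lit 5075148997,
   nat_lit 5075148997, nat_lit 4538278089, nat_lit 4538278085, nat_lit 4498694337, nat_lit 8,
   nat_lit 12, nat_lit 12092334289, nat_lit 12092334289, nat_lit 12092334293, nat_lit 12,
   nat_lit 12494987473, nat_lit 12494987473, nat_lit 12494987477, nat_lit 12,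
   nat_lit 12494987473, nat_lit 12494987473, nat_lit 12494987477, nat_lit 12,
   nat_lit 12494987473, nat_lit 12494987473, nat_lit 12494987477, nat_lit 5075263689,
   nat_lit 5075263689, nat_lit 5075263689, nat_lit 12, nat_lit 12494987473, nat_lit 12494987473,
   nat_lit 12494987477, nat_lit 5075263685, nat_lit 5075263685, nat_lit 5075263685,
   nat_lit 4538392777, nat_lit 4538392773, nat_lit 283508798, nat_lit 4498694349,
   nat_lit 4496974041, nat_lit 8, nat_lit 12, nat_lit 12092334289, nat_lit 12092334289,
   nat_lit 12092334293, nat_lit 12, nat_lit 12494987473, nat_lit 12494987473,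
   nat_lit 12494987477, nat_lit 12, nat_lit 12494987473, nat_lit 12494987473,
   nat_lit 12494987477, nat_lit 12, nat_lit 12494987473, nat_lit 12494987473,
   nat_lit 12494987477, nat_lit 5075263689, nat_lit 5075263689, nat_lit 5075263689, nat_lit 12,
   nat_lit 12494987473, nat_lit 12494987473, nat_lit 12494987477, nat_lit 5075263685,
   nat_lit 5075263685, nat_lit 5075263685, nat_lit 4538392777, nat_lit 4538392773,
   nat_lit 283508798, nat_lit 4496974009, nat_lit 4496974041, nat_lit 8, nat_lit 12,
   nat_lit 12092596433, nat_lit 12092596433, nat_lit 12092596437, nat_lit 12,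
   nat_lit 12495249617, nat_lit 12495249617, nat_lit 12495249621, nat_lit 12,
   nat_lit 12495249617, nat_lit 12495249617, nat_lit 12495249621, nat_lit 12,
   nat_lit 12495249617, nat_lit 12495249617, nat_lit 12495249621, nat_lit 5075525833,
   nat_lit 5075525833, nat_lit 5075525833, nat_lit 12, nat_lit 12495249617, nat_lit 12495249617,
   nat_lit 12495249621, nat_lit 5075525829, nat_lit 5075525829, nat_lit 5075525829,
   nat_lit 4538654921, nat_lit 4538654917, nat_lit 4505100485, nat_lit 4496974009, nat_lit 4,
   nat_lit 8, nat_lit 12, nat_lit 12494872785, nat_lit 12494872789, nat_lit 12,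
   nat_lit 12121579677, nat_lit 12092212437, nat_lit 12494872785, nat_lit 12494872789,
   nat_lit 4538270917, nat_lit 8, nat_lit 12, nat_lit 12494987473, nat_lit 12494987473,
   nat_lit 12494987477, nat_lit 12, nat_lit 12121694365, nat_lit 12121694365,
   nat_lit 12092212437, nat_lit 12494987473, nat_lit 12494987473, nat_lit 12494987477,
   nat_lit 4538385605, nat_lit 283394110, nat_lit 4498687181, nat_lit 8, nat_lit 12,
   nat_lit 12494987473, nat_lit 12494987473, nat_lit 12494987477, nat_lit 12,
   nat_lit 12121694365, nat_lit 12092212433, nat_lit 12092212437, nat_lit 12494987473,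
   nat_lit 12494987473, nat_lit 12494987477, nat_lit 4538385605, nat_lit 283394110,
   nat_lit 4496966841, nat_lit 8, nat_lit 12, nat_lit 12495249617, nat_lit 12495249617,
   nat_lit 12495249621, nat_lit 12, nat_lit 12121956509, nat_lit 12092212433,
   nat_lit 12121956509, nat_lit 12495249617, nat_lit 12495249617, nat_lit 12495249621,
   nat_lit 3901120725, nat_lit 3230032025, nat_lit 71949508897, nat_lit 0, nat_lit 4,
   nat_lit 283394110, nat_lit 4498687181, nat_lit 4, nat_lit 8, nat_lit 283656254,
   nat_lit 4498949325, nat_lit 4498687169, nat_lit 8, nat_lit 3265561789, nat_lit 283656254,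
   nat_lit 4499064013, nat_lit 283394110, nat_lit 4498687181, nat_lit 4496966873, nat_lit 8,
   nat_lit 12, nat_lit 12092327121, nat_lit 5033837773, nat_lit 5033837773, nat_lit 12,
   nat_lit 12015256793, nat_lit 5035934925, nat_lit 5035934925, nat_lit 283656254,
   nat_lit 4499064013, nat_lit 12, nat_lit 12015256793, nat_lit 5035934925, nat_lit 5035934925,
   nat_lit 283656254, nat_lit 4499064013, nat_lit 283394110, nat_lit 4496966841, nat_lit 4,
   nat_lit 4536173729, nat_lit 4536173769, nat_lit 4536173765, nat_lit 283394110,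
   nat_lit 3261105317, nat_lit 4498425025, nat_lit 4, nat_lit 3261105341, nat_lit 283394110,
   nat_lit 4498785485, nat_lit 4, nat_lit 8, nat_lit 283656254, nat_lit 4498956493,
   nat_lit 4534699185, nat_lit 4498694337, nat_lit 8, nat_lit 3265568957, nat_lit 283656254,
   nat_lit 4499071181, nat_lit 283394110, nat_lit 4498694349, nat_lit 4496974041,
   nat_lit 4496974041, nat_lit 8, nat_lit 12, nat_lit 12092334289, nat_lit 5033844941,
   nat_lit 5033844941, nat_lit 12, nat_lit 12015263961, nat_lit 5035942093, nat_lit 5035942093,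
   nat_lit 283656254, nat_lit 4499071181, nat_lit 12, nat_lit 12015263961, nat_lit 5035942093,
   nat_lit 5035942093, nat_lit 283656254, nat_lit 4499071181, nat_lit 283394110,
   nat_lit 4496974009, nat_lit 4496950489, nat_lit 4, nat_lit 8, nat_lit 283656254,
   nat_lit 4499047629, nat_lit 8, nat_lit 3265568957, nat_lit 283656254, nat_lit 4499064013,
   nat_lit 283394110, nat_lit 4498785485, nat_lit 8, nat_lit 12, nat_lit 12092334249,
   nat_lit 12013166809, nat_lit 5033837773, nat_lit 12, nat_lit 12015263961, nat_lit 12015263961,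
   nat_lit 5035934925, nat_lit 283656254, nat_lit 4499064013, nat_lit 12, nat_lit 12015263961,
   nat_lit 12015263961, nat_lit 5035934925, nat_lit 283656254, nat_lit 4499064013,
   nat_lit 283394110, nat_lit 4498785485, nat_lit 4496842969, nat_lit 4, nat_lit 8,
   nat_lit 283770942, nat_lit 4498956493, nat_lit 4498694337, nat_lit 8, nat_lit 3265568957,
   nat_lit 283770942, nat_lit 4499071181, nat_lit 283508798, nat_lit 4498694349,
   nat_lit 4496974041, nat_lit 8, nat_lit 12, nat_lit 12092334289, nat_lit 5033844941,
   nat_lit 5033844941, nat_lit 12, nat_lit 12015263961, nat_lit 5035942093, nat_lit 5035942093,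
   nat_lit 283770942, nat_lit 4499071181, nat_lit 12, nat_lit 12015263961, nat_lit 5035942093,
   nat_lit 5035942093, nat_lit 283770942, nat_lit 4499071181, nat_lit 283508798,
   nat_lit 4496974009, nat_lit 4496974041, nat_lit 8, nat_lit 12, nat_lit 12092596433,
   nat_lit 5033844941, nat_lit 5033844941, nat_lit 12, nat_lit 12121956561, nat_lit 5035942093,
   nat_lit 5035942093, nat_lit 283770942, nat_lit 4499071181, nat_lit 12, nat_lit 12121956561,
   nat_lit 5035942093, nat_lit 5035942093, nat_lit 283770942, nat_lit 3397804253, nat_lit 12,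
   nat_lit 12019458265, nat_lit 5040136397, nat_lit 5040136397, nat_lit 4436156621,
   nat_lit 4503265485, nat_lit 4505100485, nat_lit 4496974009, nat_lit 4, nat_lit 8,
   nat_lit 283656254, nat_lit 4498949325, nat_lit 8, nat_lit 3265568957, nat_lit 283656254,
   nat_lit 4499064013, nat_lit 283394110, nat_lit 4498687181, nat_lit 8, nat_lit 12,
   nat_lit 12092334249, nat_lit 12013166809, nat_lit 5033837773, nat_lit 12, nat_lit 12015263961,
   nat_lit 12015263961, nat_lit 5035934925, nat_lit 283656254, nat_lit 4499064013, nat_lit 12,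
   nat_lit 12015263961, nat_lit 12015263961, nat_lit 5035934925, nat_lit 283656254,
   nat_lit 4499064013, nat_lit 283394110, nat_lit 4496966841, nat_lit 8, nat_lit 12,
   nat_lit 12092596393, nat_lit 12013166809, nat_lit 11819966629, nat_lit 12,
   nat_lit 12121956521, nat_lit 12015263961, nat_lit 11853521061, nat_lit 283656254,
   nat_lit 3263586469, nat_lit 12, nat_lit 12121956521, nat_lit 12015263961, nat_lit 11853521061,
   nat_lit 283656254, nat_lit 3397804253, nat_lit 12, nat_lit 12019458265, nat_lit 12019458265,
   nat_lit 11952349401, nat_lit 3230049433, nat_lit 51680796969, nat_lit 3230032025,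
   nat_lit 71949508897, nat_lit 0, nat_lit 281059389, nat_lit 281059389, nat_lit 201875505,
   nat_lit 8, nat_lit 203989041, nat_lit 203989037, nat_lit 212361273, nat_lit 212361269,
   nat_lit 4, nat_lit 212492345, nat_lit 212492345, nat_lit 212492345, nat_lit 212492337,
   nat_lit 4, nat_lit 212492341, nat_lit 212492341, nat_lit 212492341, nat_lit 212492333,
   nat_lit 8, nat_lit 243818537, nat_lit 4496983225, nat_lit 4, nat_lit 4496991417,
   nat_lit 4496991417, nat_lit 51680797017, nat_lit 16, nat_lit 12, nat_lit 4542465185,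
   nat_lit 4542465225, nat_lit 4542465221, nat_lit 13165954257, nat_lit 13165954261, nat_lit 12,
   nat_lit 13635716265, nat_lit 13635716305, nat_lit 13635716305, nat_lit 4542465185,
   nat_lit 4542465225, nat_lit 4542465221, nat_lit 12, nat_lit 13635716269, nat_lit 13635716309,
   nat_lit 13635716309, nat_lit 4542465185, nat_lit 4542465225, nat_lit 4542465221, nat_lit 12,
   nat_lit 4542465185, nat_lit 4542465225, nat_lit 4542465221, nat_lit 12, nat_lit 4542465185,
   nat_lit 4542465225, nat_lit 4542465221, nat_lit 16, nat_lit 13165954261, nat_lit 12,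
   nat_lit 13635716269, nat_lit 13635716309, nat_lit 13635716309, nat_lit 4542465185,
   nat_lit 4542465225, nat_lit 4542465221, nat_lit 4027081829, nat_lit 12, nat_lit 16,
   nat_lit 284180542, nat_lit 4499473613, nat_lit 16, nat_lit 0, nat_lit 4, nat_lit 8,
   nat_lit 4306133121, nat_lit 4, nat_lit 8, nat_lit 4503265381, nat_lit 3232391301, nat_lit 8,
   nat_lit 3232391301, nat_lit 4499473601, nat_lit 0, nat_lit 4, nat_lit 8, nat_lit 4348076161,
   nat_lit 4, nat_lit 8, nat_lit 5107245157, nat_lit 3274334341, nat_lit 8, nat_lit 3274334341,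
   nat_lit 284180542, nat_lit 4499473613, nat_lit 4497016025, nat_lit 0, nat_lit 4, nat_lit 8,
   nat_lit 4348076161, nat_lit 4, nat_lit 8, nat_lit 5107245157, nat_lit 3274334341, nat_lit 8,
   nat_lit 3274334341, nat_lit 284180542, nat_lit 4497015993, nat_lit 16, nat_lit 4549543073,
   nat_lit 4549543113, nat_lit 4549543109, nat_lit 284180542, nat_lit 3274474661,
   nat_lit 4499211457, nat_lit 16, nat_lit 3274474685, nat_lit 284180542, nat_lit 4499621069,
   nat_lit 16, nat_lit 0, nat_lit 4, nat_lit 8, nat_lit 4306412709, nat_lit 4, nat_lit 8,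
   nat_lit 4306412709, nat_lit 4306371749, nat_lit 4, nat_lit 8, nat_lit 4545208421,
   nat_lit 4545208421, nat_lit 4003857561, nat_lit 4544922817, nat_lit 8, nat_lit 4003857597,
   nat_lit 4306264229, nat_lit 4, nat_lit 8, nat_lit 4306404517, nat_lit 8, nat_lit 4306412709,
   nat_lit 4306412709, nat_lit 4306388133, nat_lit 4306265253, nat_lit 8, nat_lit 4306412709,
   nat_lit 4306412709, nat_lit 4, nat_lit 8, nat_lit 4545077349, nat_lit 3232260229, nat_lit 8,
   nat_lit 4545208421, nat_lit 4545208421, nat_lit 3232391301, nat_lit 4544815205,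
   nat_lit 3231998085, nat_lit 4542849125, nat_lit 8, nat_lit 4545208421, nat_lit 3232391301,
   nat_lit 4545208421, nat_lit 3232391301, nat_lit 8, nat_lit 3232391301, nat_lit 3232391301,
   nat_lit 4547331249, nat_lit 4499483841, nat_lit 0, nat_lit 4, nat_lit 8, nat_lit 4348355749,
   nat_lit 4, nat_lit 8, nat_lit 4348355749, nat_lit 4348314789, nat_lit 4, nat_lit 8,
   nat_lit 5149188197, nat_lit 5149188197, nat_lit 13667533977, nat_lit 5148902593, nat_lit 8,
   nat_lit 13667534013, nat_lit 4348207269, nat_lit 4, nat_lit 8, nat_lit 4348347557, nat_lit 8,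
   nat_lit 4348355749, nat_lit 4348355749, nat_lit 4348331173, nat_lit 4348208293, nat_lit 8,
   nat_lit 4348355749, nat_lit 4348355749, nat_lit 4, nat_lit 8, nat_lit 5149057125,
   nat_lit 3274203269, nat_lit 8, nat_lit 5149188197, nat_lit 5149188197, nat_lit 3274334341,
   nat_lit 5148794981, nat_lit 3273941125, nat_lit 5146828901, nat_lit 8, nat_lit 5149188197,
   nat_lit 3274334341, nat_lit 5149188197, nat_lit 3274334341, nat_lit 8, nat_lit 3274334341,
   nat_lit 3274334341, nat_lit 284180542, nat_lit 4499483853, nat_lit 4497026265,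
   nat_lit 4497026265, nat_lit 0, nat_lit 4, nat_lit 8, nat_lit 4348355749, nat_lit 4, nat_lit 8,
   nat_lit 4348355749, nat_lit 4348314789, nat_lit 4, nat_lit 8, nat_lit 5149188197,
   nat_lit 5149188197, nat_lit 13667533977, nat_lit 5148902593, nat_lit 8, nat_lit 13667534013,
   nat_lit 4348207269, nat_lit 4, nat_lit 8, nat_lit 4348347557, nat_lit 8, nat_lit 4348355749,
   nat_lit 4348355749, nat_lit 4348331173, nat_lit 4348208293, nat_lit 8, nat_lit 4348355749,
   nat_lit 4348355749, nat_lit 4, nat_lit 8, nat_lit 5149057125, nat_lit 3274203269, nat_lit 8,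
   nat_lit 5149188197, nat_lit 5149188197, nat_lit 3274334341, nat_lit 5148794981,
   nat_lit 3273941125, nat_lit 5146828901, nat_lit 8, nat_lit 5149188197, nat_lit 3274334341,
   nat_lit 5149188197, nat_lit 3274334341, nat_lit 8, nat_lit 3274334341, nat_lit 3274334341,
   nat_lit 284180542, nat_lit 4497026233, nat_lit 4496999641, nat_lit 0, nat_lit 4, nat_lit 8,
   nat_lit 3232391301, nat_lit 3232629949, nat_lit 4499309753, nat_lit 3232522373, nat_lit 16,
   nat_lit 3272269957, nat_lit 3272269953, nat_lit 3408683157, nat_lit 3408683153, nat_lit 16,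
   nat_lit 4037828717, nat_lit 4499621069, nat_lit 4496846041, nat_lit 0, nat_lit 4, nat_lit 8,
   nat_lit 4306412709, nat_lit 4, nat_lit 8, nat_lit 4545208421, nat_lit 3232391301, nat_lit 8,
   nat_lit 3232391301, nat_lit 16, nat_lit 3272269957, nat_lit 3272269953, nat_lit 3232948349,
   nat_lit 3232948345, nat_lit 4505152709, nat_lit 3232948345, nat_lit 16, nat_lit 4499483853,
   nat_lit 4497026233, nat_lit 4497026233, nat_lit 0, nat_lit 4, nat_lit 8, nat_lit 3232391301,
   nat_lit 16, nat_lit 3272269957, nat_lit 3272269953, nat_lit 3232948349, nat_lit 3232948345,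
   nat_lit 3232948349, nat_lit 3232948345, nat_lit 16, nat_lit 4499473613, nat_lit 4497015993,
   nat_lit 71949561121, nat_lit 16, nat_lit 20, nat_lit 4, nat_lit 14239810769,
   nat_lit 14239810769, nat_lit 0, nat_lit 12, nat_lit 3268042877, nat_lit 3232653445,
   nat_lit 3232653445, nat_lit 8, nat_lit 3263848581, nat_lit 14162633933, nat_lit 3232391293,
   nat_lit 14160667833, nat_lit 14168794309, nat_lit 14160667833, nat_lit 8, nat_lit 14162633933,
   nat_lit 14160667833, nat_lit 14160667833, nat_lit 14239696081, nat_lit 14239696085,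
   nat_lit 20, nat_lit 4, nat_lit 8, nat_lit 4540630177, nat_lit 4540630217, nat_lit 4540630213,
   nat_lit 283656254, nat_lit 3265561765, nat_lit 8, nat_lit 12, nat_lit 4543104177,
   nat_lit 14230004921, nat_lit 0, nat_lit 4544922821, nat_lit 3267911805, nat_lit 4538909873,
   nat_lit 14229742777, nat_lit 12, nat_lit 4545201329, nat_lit 14230135993, nat_lit 0,
   nat_lit 4003857621, nat_lit 3267911805, nat_lit 283656254, nat_lit 14162633933,
   nat_lit 14227776717, nat_lit 14227776717, nat_lit 12, nat_lit 4545201329, nat_lit 14230135993,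
   nat_lit 0, nat_lit 4003857621, nat_lit 3267911805, nat_lit 4545201329, nat_lit 14230135993,
   nat_lit 0, nat_lit 4003857621, nat_lit 3232522373, nat_lit 283656254, nat_lit 14160667833,
   nat_lit 14227629261, nat_lit 4, nat_lit 8, nat_lit 12, nat_lit 14229996729, nat_lit 0,
   nat_lit 3267911805, nat_lit 14229734585, nat_lit 12, nat_lit 14230127801, nat_lit 0,
   nat_lit 3267911805, nat_lit 283656254, nat_lit 14162625741, nat_lit 14227768525, nat_lit 0,
   nat_lit 12, nat_lit 4545077425, nat_lit 4545077425, nat_lit 12, nat_lit 14230127801,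
   nat_lit 3267911805, nat_lit 14230127801, nat_lit 3232522373, nat_lit 283656254,
   nat_lit 14160659641, nat_lit 8, nat_lit 14204306629, nat_lit 14204306629, nat_lit 283656254,
   nat_lit 14162625741, nat_lit 14780875945, nat_lit 8, nat_lit 12, nat_lit 14230004921,
   nat_lit 0, nat_lit 14208599237, nat_lit 3267911805, nat_lit 14229742777, nat_lit 12,
   nat_lit 14230135993, nat_lit 0, nat_lit 14208599237, nat_lit 3267911805, nat_lit 283656254,
   nat_lit 14162633933, nat_lit 14227776717, nat_lit 12, nat_lit 14230135993, nat_lit 0,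
   nat_lit 14208599237, nat_lit 3267911805, nat_lit 14230135993, nat_lit 0, nat_lit 14208599237,
   nat_lit 3232522373, nat_lit 283656254, nat_lit 14160667833, nat_lit 14780875945,
   nat_lit 14780753065, nat_lit 0, nat_lit 12, nat_lit 4543111345, nat_lit 14227793101,
   nat_lit 14227793101, nat_lit 12, nat_lit 4499333221, nat_lit 3267911805, nat_lit 4499333221,
   nat_lit 3232522373, nat_lit 4503527525, nat_lit 3232653445, nat_lit 8, nat_lit 3263717509,
   nat_lit 4498949325, nat_lit 3232260221, nat_lit 4496983225, nat_lit 14168794309,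
   nat_lit 4496991417, nat_lit 8, nat_lit 4498949325, nat_lit 4496983225, nat_lit 4496991417,
   nat_lit 4, nat_lit 0, nat_lit 12, nat_lit 3267911805, nat_lit 3232522373, nat_lit 8,
   nat_lit 3263717509, nat_lit 4498949325, nat_lit 3232260221, nat_lit 4496983225, nat_lit 8,
   nat_lit 4498949325, nat_lit 4496983225, nat_lit 8, nat_lit 14204306629, nat_lit 283656254,
   nat_lit 14162625741, nat_lit 14780875949, nat_lit 14780875933, nat_lit 8, nat_lit 12,
   nat_lit 0, nat_lit 14208599237, nat_lit 3267911805, nat_lit 12, nat_lit 0,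
   nat_lit 14208599237, nat_lit 3267911805, nat_lit 283656254, nat_lit 14162633933, nat_lit 0,
   nat_lit 12, nat_lit 14208599237, nat_lit 14208599237, nat_lit 12, nat_lit 3267911805,
   nat_lit 3232522373, nat_lit 283656254, nat_lit 14160667833, nat_lit 14780875949,
   nat_lit 14780875933, nat_lit 14780753069, nat_lit 0, nat_lit 12, nat_lit 3267911805,
   nat_lit 3232522373, nat_lit 3232653445, nat_lit 8, nat_lit 3263717509, nat_lit 4498949325,
   nat_lit 3232260221, nat_lit 4496983225, nat_lit 14168794309, nat_lit 4496991417, nat_lit 8,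
   nat_lit 4498949325, nat_lit 4496983225, nat_lit 4496991417, nat_lit 14781539449,
   nat_lit 14780761245, nat_lit 14780761245, nat_lit 20, nat_lit 4, nat_lit 14780875985,
   nat_lit 14780875985, nat_lit 0, nat_lit 12, nat_lit 4543111345, nat_lit 14227793101,
   nat_lit 14227793101, nat_lit 12, nat_lit 4499333221, nat_lit 3267911805, nat_lit 4499333221,
   nat_lit 3232522373, nat_lit 4503527525, nat_lit 3232653445, nat_lit 8, nat_lit 3263717509,
   nat_lit 4498949325, nat_lit 3232260221, nat_lit 4496983225, nat_lit 14168794309,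
   nat_lit 4496991417, nat_lit 8, nat_lit 4498949325, nat_lit 4496983225, nat_lit 4496991417,
   nat_lit 4, nat_lit 14780875989, nat_lit 14776681681, nat_lit 14780875989, nat_lit 14776681681,
   nat_lit 0, nat_lit 12, nat_lit 3267911805, nat_lit 3232522373, nat_lit 3232653445, nat_lit 8,
   nat_lit 3263717509, nat_lit 4498949325, nat_lit 3232260221, nat_lit 4496983225,
   nat_lit 14168794309, nat_lit 4496991417, nat_lit 8, nat_lit 4498949325, nat_lit 4496983225,
   nat_lit 4496991417, nat_lit 0, nat_lit 12, nat_lit 3268042877, nat_lit 3232653445,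
   nat_lit 3232653445, nat_lit 8, nat_lit 3263848581, nat_lit 14162633933, nat_lit 3232391293,
   nat_lit 14160667833, nat_lit 14168794309, nat_lit 14160667833, nat_lit 8, nat_lit 14162633933,
   nat_lit 14160667833, nat_lit 14160667833, nat_lit 14776566993, nat_lit 14776566997,
   nat_lit 20, nat_lit 4, nat_lit 14776681681, nat_lit 14776681681, nat_lit 0, nat_lit 12,
   nat_lit 3268042877, nat_lit 3232653445, nat_lit 3232653445, nat_lit 8, nat_lit 3263848581,
   nat_lit 14162633933, nat_lit 3232391293, nat_lit 14160667833, nat_lit 14168794309,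
   nat_lit 14160667833, nat_lit 8, nat_lit 14162633933, nat_lit 14160667833, nat_lit 14160667833,
   nat_lit 14776566993, nat_lit 14776566997, nat_lit 20, nat_lit 4, nat_lit 0, nat_lit 12,
   nat_lit 3267911805, nat_lit 3232522373, nat_lit 8, nat_lit 3263717509, nat_lit 3263717505,
   nat_lit 3232260221, nat_lit 3232260217, nat_lit 8, nat_lit 4498949325, nat_lit 4496983225,
   nat_lit 8, nat_lit 4540630213, nat_lit 283656254, nat_lit 3265561765, nat_lit 5113005225,
   nat_lit 8, nat_lit 12, nat_lit 0, nat_lit 4544922821, nat_lit 3268042877, nat_lit 12,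
   nat_lit 0, nat_lit 4003857621, nat_lit 3270140029, nat_lit 283656254, nat_lit 4498957517,
   nat_lit 0, nat_lit 12, nat_lit 4003857621, nat_lit 4003857621, nat_lit 12, nat_lit 3270140029,
   nat_lit 3270140029, nat_lit 283656254, nat_lit 4496991417, nat_lit 5113005225,
   nat_lit 5112882345, nat_lit 0, nat_lit 12, nat_lit 3268042877, nat_lit 3232653445,
   nat_lit 3232653445, nat_lit 8, nat_lit 3263848581, nat_lit 3263848577, nat_lit 3232391293,
   nat_lit 3232391289, nat_lit 4505117893, nat_lit 3232391289, nat_lit 8, nat_lit 4498957517,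
   nat_lit 4496991417, nat_lit 4496991417, nat_lit 4, nat_lit 14277559389, nat_lit 14277559389,
   nat_lit 14278223053, nat_lit 4, nat_lit 0, nat_lit 14277435485, nat_lit 12,
   nat_lit 14278378701, nat_lit 3267911805, nat_lit 14278378701, nat_lit 3232522373, nat_lit 8,
   nat_lit 3263717509, nat_lit 14162625741, nat_lit 3232260221, nat_lit 14160659641, nat_lit 8,
   nat_lit 14162625741, nat_lit 14160659641, nat_lit 8, nat_lit 14278370509, nat_lit 14204306629,
   nat_lit 283656254, nat_lit 14162625741, nat_lit 14776681641, nat_lit 8, nat_lit 12,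
   nat_lit 14278386893, nat_lit 0, nat_lit 14208599237, nat_lit 3268042877, nat_lit 14278370509,
   nat_lit 12, nat_lit 14280467641, nat_lit 0, nat_lit 14208599237, nat_lit 3270140029,
   nat_lit 283656254, nat_lit 14162633933, nat_lit 14278370509, nat_lit 0, nat_lit 14280164557,
   nat_lit 12, nat_lit 14280467641, nat_lit 14208599237, nat_lit 14280467641,
   nat_lit 14208599237, nat_lit 14277566557, nat_lit 12, nat_lit 14280467641, nat_lit 3270140029,
   nat_lit 14280467641, nat_lit 3270140029, nat_lit 283656254, nat_lit 14160667833,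
   nat_lit 14776681641, nat_lit 14776558761, nat_lit 0, nat_lit 14277566557, nat_lit 12,
   nat_lit 14278386893, nat_lit 3268042877, nat_lit 14278386893, nat_lit 3232653445,
   nat_lit 14278386893, nat_lit 3232653445, nat_lit 8, nat_lit 3263848581, nat_lit 14162633933,
   nat_lit 3232391293, nat_lit 14160667833, nat_lit 14168794309, nat_lit 14160667833, nat_lit 8,
   nat_lit 14162633933, nat_lit 14160667833, nat_lit 14160667833, nat_lit 4, nat_lit 0,
   nat_lit 12, nat_lit 3267911805, nat_lit 3232522373, nat_lit 8, nat_lit 3263717509,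
   nat_lit 14162625741, nat_lit 3232260221, nat_lit 14160659641, nat_lit 8, nat_lit 14162625741,
   nat_lit 14160659641, nat_lit 8, nat_lit 14204306629, nat_lit 283656254, nat_lit 14162625741,
   nat_lit 14776681641, nat_lit 14776681641, nat_lit 8, nat_lit 12, nat_lit 0,
   nat_lit 14208599237, nat_lit 3268042877, nat_lit 12, nat_lit 0, nat_lit 14208599237,
   nat_lit 3270140029, nat_lit 283656254, nat_lit 14162633933, nat_lit 0, nat_lit 12,
   nat_lit 14208599237, nat_lit 14208599237, nat_lit 12, nat_lit 3270140029, nat_lit 3270140029,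
   nat_lit 283656254, nat_lit 14160667833, nat_lit 14776681641, nat_lit 14776681641,
   nat_lit 14776558761, nat_lit 0, nat_lit 12, nat_lit 3268042877, nat_lit 3232653445,
   nat_lit 3232653445, nat_lit 8, nat_lit 3263848581, nat_lit 14162633933, nat_lit 3232391293,
   nat_lit 14160667833, nat_lit 14168794309, nat_lit 14160667833, nat_lit 8, nat_lit 14162633933,
   nat_lit 14160667833, nat_lit 14160667833, nat_lit 0, nat_lit 12, nat_lit 3268042877,
   nat_lit 3232653445, nat_lit 3232653445, nat_lit 8, nat_lit 3263848581, nat_lit 14162633933,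
   nat_lit 3232391293, nat_lit 14160667833, nat_lit 14168794309, nat_lit 14160667833, nat_lit 8,
   nat_lit 14162633933, nat_lit 14160667833, nat_lit 14160667833, nat_lit 14776566953,
   nat_lit 14776566957, nat_lit 4, nat_lit 8, nat_lit 5220484193, nat_lit 4540630217,
   nat_lit 4540630213, nat_lit 283656254, nat_lit 3265561765, nat_lit 8, nat_lit 12,
   nat_lit 5220746337, nat_lit 5180155089, nat_lit 0, nat_lit 4544922821, nat_lit 3268042877,
   nat_lit 5220484193, nat_lit 5180138705, nat_lit 12, nat_lit 5220746337, nat_lit 5180155089,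
   nat_lit 0, nat_lit 4003857621, nat_lit 3270140029, nat_lit 283656254, nat_lit 14162633933,
   nat_lit 5220484193, nat_lit 5180138705, nat_lit 12, nat_lit 5220746337, nat_lit 5180155089,
   nat_lit 0, nat_lit 4003857621, nat_lit 3270140029, nat_lit 5220746337, nat_lit 5180155089,
   nat_lit 0, nat_lit 4003857621, nat_lit 3270140029, nat_lit 283656254, nat_lit 14160667833,
   nat_lit 5179991249, nat_lit 4, nat_lit 8, nat_lit 12, nat_lit 5180146897, nat_lit 0,
   nat_lit 3267911805, nat_lit 5180130513, nat_lit 12, nat_lit 5180146897, nat_lit 0,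
   nat_lit 3270008957, nat_lit 887636030, nat_lit 14162625741, nat_lit 5180130513, nat_lit 0,
   nat_lit 12, nat_lit 5220622433, nat_lit 5220622433, nat_lit 12, nat_lit 3270008957,
   nat_lit 3270008957, nat_lit 3270008957, nat_lit 3270008957, nat_lit 887636030,
   nat_lit 14160659641, nat_lit 8, nat_lit 14204306629, nat_lit 14204306629, nat_lit 887636030,
   nat_lit 14162625741, nat_lit 14776681641, nat_lit 8, nat_lit 12, nat_lit 5180155089,
   nat_lit 0, nat_lit 14208599237, nat_lit 3268042877, nat_lit 5180138705, nat_lit 12,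
   nat_lit 5180155089, nat_lit 0, nat_lit 14208599237, nat_lit 3270140029, nat_lit 887636030,
   nat_lit 14162633933, nat_lit 5180138705, nat_lit 12, nat_lit 5180155089, nat_lit 0,
   nat_lit 14208599237, nat_lit 3270140029, nat_lit 5180155089, nat_lit 0, nat_lit 14208599237,
   nat_lit 3270140029, nat_lit 887636030, nat_lit 14160667833, nat_lit 14776681641,
   nat_lit 14776558761, nat_lit 0, nat_lit 12, nat_lit 5220753505, nat_lit 5220753505,
   nat_lit 5220753505, nat_lit 12, nat_lit 5180155089, nat_lit 3268042877, nat_lit 5180155089,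
   nat_lit 3232653445, nat_lit 5180417233, nat_lit 3232653445, nat_lit 8, nat_lit 3263848581,
   nat_lit 14162633933, nat_lit 3232391293, nat_lit 14160667833, nat_lit 14168794309,
   nat_lit 14160667833, nat_lit 8, nat_lit 14162633933, nat_lit 14160667833, nat_lit 14160667833,
   nat_lit 4, nat_lit 0, nat_lit 12, nat_lit 3267911805, nat_lit 3232522373, nat_lit 8,
   nat_lit 3263717509, nat_lit 14162625741, nat_lit 3232260221, nat_lit 14160659641, nat_lit 8,
   nat_lit 14162625741, nat_lit 14160659641, nat_lit 8, nat_lit 14204306629, nat_lit 887636030,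
   nat_lit 14162625741, nat_lit 14776681641, nat_lit 5218649293, nat_lit 8, nat_lit 12,
   nat_lit 0, nat_lit 14208599237, nat_lit 3268042877, nat_lit 12, nat_lit 0,
   nat_lit 14208599237, nat_lit 3270140029, nat_lit 887636030, nat_lit 14162633933, nat_lit 0,
   nat_lit 12, nat_lit 14208599237, nat_lit 14208599237, nat_lit 12, nat_lit 3270140029,
   nat_lit 3270140029, nat_lit 887636030, nat_lit 14160667833, nat_lit 14776681641,
   nat_lit 5218649293, nat_lit 14776558761, nat_lit 0, nat_lit 12, nat_lit 3268042877,
   nat_lit 3232653445, nat_lit 3232653445, nat_lit 8, nat_lit 3263848581, nat_lit 14162633933,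
   nat_lit 3232391293, nat_lit 14160667833, nat_lit 14168794309, nat_lit 14160667833, nat_lit 8,
   nat_lit 14162633933, nat_lit 14160667833, nat_lit 14160667833, nat_lit 5217739869,
   nat_lit 5218534605, nat_lit 5218501809, nat_lit 20, nat_lit 4, nat_lit 5113005265,
   nat_lit 5113005265, nat_lit 0, nat_lit 12, nat_lit 3268042877, nat_lit 3232653445,
   nat_lit 3232653445, nat_lit 8, nat_lit 3263848581, nat_lit 3263848577, nat_lit 3232391293,
   nat_lit 3232391289, nat_lit 4505117893, nat_lit 3232391289, nat_lit 8, nat_lit 4498957517,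
   nat_lit 4496991417, nat_lit 4496991417, nat_lit 4, nat_lit 14776681681, nat_lit 14776681681,
   nat_lit 0, nat_lit 14277828701, nat_lit 12, nat_lit 14278386893, nat_lit 3268042877,
   nat_lit 14278386893, nat_lit 3232653445, nat_lit 14278386893, nat_lit 3232653445, nat_lit 8,
   nat_lit 3263848581, nat_lit 14162633933, nat_lit 3232391293, nat_lit 14160667833,
   nat_lit 14168794309, nat_lit 14160667833, nat_lit 8, nat_lit 14162633933, nat_lit 14160667833,
   nat_lit 14160667833, nat_lit 4, nat_lit 14776681681, nat_lit 14776681681, nat_lit 14776681681,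
   nat_lit 14776681681, nat_lit 0, nat_lit 12, nat_lit 3268042877, nat_lit 3232653445,
   nat_lit 3232653445, nat_lit 8, nat_lit 3263848581, nat_lit 14162633933, nat_lit 3232391293,
   nat_lit 14160667833, nat_lit 14168794309, nat_lit 14160667833, nat_lit 8, nat_lit 14162633933,
   nat_lit 14160667833, nat_lit 14160667833, nat_lit 0, nat_lit 12, nat_lit 3268042877,
   nat_lit 3232653445, nat_lit 3232653445, nat_lit 8, nat_lit 3263848581, nat_lit 14162633933,
   nat_lit 3232391293, nat_lit 14160667833, nat_lit 14168794309, nat_lit 14160667833, nat_lit 8,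
   nat_lit 14162633933, nat_lit 14160667833, nat_lit 14160667833, nat_lit 14776566993,
   nat_lit 14776566997, nat_lit 4, nat_lit 14776681681, nat_lit 14776681681, nat_lit 0,
   nat_lit 12, nat_lit 5220753505, nat_lit 5220753505, nat_lit 5220753505, nat_lit 12,
   nat_lit 5180155089, nat_lit 3268042877, nat_lit 5180155089, nat_lit 3232653445,
   nat_lit 5180417233, nat_lit 3232653445, nat_lit 8, nat_lit 3263848581, nat_lit 14162633933,
   nat_lit 3232391293, nat_lit 14160667833, nat_lit 14168794309, nat_lit 14160667833, nat_lit 8,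
   nat_lit 14162633933, nat_lit 14160667833, nat_lit 14160667833, nat_lit 4, nat_lit 14776681681,
   nat_lit 5217862857, nat_lit 14776681681, nat_lit 5217862857, nat_lit 0, nat_lit 12,
   nat_lit 3268042877, nat_lit 3232653445, nat_lit 3232653445, nat_lit 8, nat_lit 3263848581,
   nat_lit 14162633933, nat_lit 3232391293, nat_lit 14160667833, nat_lit 14168794309,
   nat_lit 14160667833, nat_lit 8, nat_lit 14162633933, nat_lit 14160667833, nat_lit 14160667833,
   nat_lit 0, nat_lit 12, nat_lit 3267911805, nat_lit 3232522373, nat_lit 3232653445, nat_lit 8,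
   nat_lit 3263717509, nat_lit 4498949325, nat_lit 3232260221, nat_lit 4496983225,
   nat_lit 14168794309, nat_lit 14160667833, nat_lit 8, nat_lit 4498949325, nat_lit 4496983225,
   nat_lit 14160667833, nat_lit 5217748169, nat_lit 5217748169, nat_lit 20, nat_lit 4,
   nat_lit 14776681681, nat_lit 14776681681, nat_lit 0, nat_lit 12, nat_lit 3268042877,
   nat_lit 3232653445, nat_lit 3232653445, nat_lit 8, nat_lit 3263848581, nat_lit 14162633933,
   nat_lit 3232391293, nat_lit 14160667833, nat_lit 14168794309, nat_lit 14160667833, nat_lit 8,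
   nat_lit 14162633933, nat_lit 14160667833, nat_lit 14160667833, nat_lit 14776566993,
   nat_lit 14776566997, nat_lit 4, nat_lit 5217862853, nat_lit 5217862853, nat_lit 0, nat_lit 12,
   nat_lit 3268042877, nat_lit 3232653445, nat_lit 3232653445, nat_lit 8, nat_lit 3263848581,
   nat_lit 14162633933, nat_lit 3232391293, nat_lit 14160667833, nat_lit 14168794309,
   nat_lit 14160667833, nat_lit 8, nat_lit 14162633933, nat_lit 14160667833, nat_lit 14160667833,
   nat_lit 5217748165, nat_lit 5217748165, nat_lit 4546659489, nat_lit 4546659529,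
   nat_lit 4546659525]

theorem c15_0 : chk TT UT (gU 15) (sub 0 16) s15_0 = true := by decide +kernel

def s15_16 : List ℕ :=   [nat_lit 16, nat_lit 20, nat_lit 4, nat_lit 14239810769, nat_lit 14239810769, nat_lit 0,
   nat_lit 8, nat_lit 3263848573, nat_lit 3232391301, nat_lit 3232391301, nat_lit 12,
   nat_lit 3268042885, nat_lit 14162896077, nat_lit 3232653437, nat_lit 14160684217,
   nat_lit 14168810693, nat_lit 14160684217, nat_lit 12, nat_lit 14162896077,
   nat_lit 14160684217, nat_lit 14160684217, nat_lit 14239696081, nat_lit 14239696085,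
   nat_lit 20, nat_lit 4, nat_lit 8, nat_lit 4540630177, nat_lit 4540630217, nat_lit 4540630213,
   nat_lit 283656254, nat_lit 3265561765, nat_lit 8, nat_lit 12, nat_lit 283918398,
   nat_lit 14162896077, nat_lit 4538909873, nat_lit 14229742777, nat_lit 12, nat_lit 3270018237,
   nat_lit 283918398, nat_lit 14163027149, nat_lit 283656254, nat_lit 14162633933,
   nat_lit 14227776717, nat_lit 14227776717, nat_lit 0, nat_lit 4540728517, nat_lit 4540728517,
   nat_lit 4496950457, nat_lit 3232260229, nat_lit 12, nat_lit 3267911813, nat_lit 4499211469,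
   nat_lit 3404357781, nat_lit 3404357777, nat_lit 12, nat_lit 3970588781, nat_lit 4496999609,
   nat_lit 283656254, nat_lit 14160667833, nat_lit 14227629261, nat_lit 4, nat_lit 8, nat_lit 12,
   nat_lit 283918398, nat_lit 14162887885, nat_lit 14229734585, nat_lit 12, nat_lit 3270018237,
   nat_lit 283918398, nat_lit 14163018957, nat_lit 283656254, nat_lit 14162625741,
   nat_lit 14227768525, nat_lit 0, nat_lit 3232260229, nat_lit 12, nat_lit 3268059269,
   nat_lit 3268059265, nat_lit 3404226709, nat_lit 3404226705, nat_lit 12, nat_lit 3970457709,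
   nat_lit 4496999609, nat_lit 283656254, nat_lit 14160659641, nat_lit 8, nat_lit 14204306629,
   nat_lit 14204306629, nat_lit 283656254, nat_lit 14162625741, nat_lit 14780875945, nat_lit 8,
   nat_lit 12, nat_lit 283918398, nat_lit 14162896077, nat_lit 14229742777, nat_lit 12,
   nat_lit 3270018237, nat_lit 283918398, nat_lit 14163027149, nat_lit 283656254,
   nat_lit 14162633933, nat_lit 14227776717, nat_lit 0, nat_lit 14204404933, nat_lit 14204404933,
   nat_lit 4496950457, nat_lit 3232260229, nat_lit 12, nat_lit 3267911813, nat_lit 4499211469,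
   nat_lit 3404357781, nat_lit 3404357777, nat_lit 12, nat_lit 3970588781, nat_lit 4496999609,
   nat_lit 283656254, nat_lit 14160667833, nat_lit 14780875945, nat_lit 14780753065, nat_lit 0,
   nat_lit 8, nat_lit 4538917041, nat_lit 14227776717, nat_lit 14227776717, nat_lit 8,
   nat_lit 4499071077, nat_lit 3263717501, nat_lit 4499071077, nat_lit 3232260229,
   nat_lit 4503265381, nat_lit 3232391301, nat_lit 12, nat_lit 3267911813, nat_lit 4499211469,
   nat_lit 3232522365, nat_lit 4496999609, nat_lit 14168810693, nat_lit 4497007801, nat_lit 12,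
   nat_lit 4499211469, nat_lit 4496999609, nat_lit 4497007801, nat_lit 4, nat_lit 0, nat_lit 8,
   nat_lit 3263717501, nat_lit 3232260229, nat_lit 12, nat_lit 3267911813, nat_lit 4499211469,
   nat_lit 3232522365, nat_lit 4496999609, nat_lit 12, nat_lit 4499211469, nat_lit 4496999609,
   nat_lit 8, nat_lit 14204306629, nat_lit 283656254, nat_lit 14162625741, nat_lit 14780875949,
   nat_lit 14780875933, nat_lit 8, nat_lit 12, nat_lit 283918398, nat_lit 14162896077,
   nat_lit 12, nat_lit 3270018237, nat_lit 283918398, nat_lit 14163027149, nat_lit 283656254,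
   nat_lit 14162633933, nat_lit 0, nat_lit 14204404933, nat_lit 14204404933, nat_lit 4496950457,
   nat_lit 3232260229, nat_lit 12, nat_lit 3267911813, nat_lit 4499211469, nat_lit 3404357781,
   nat_lit 3404357777, nat_lit 12, nat_lit 3970588781, nat_lit 4496999609, nat_lit 283656254,
   nat_lit 14160667833, nat_lit 14780875949, nat_lit 14780875933, nat_lit 14780753069, nat_lit 0,
   nat_lit 8, nat_lit 3263717501, nat_lit 3232260229, nat_lit 3232391301, nat_lit 12,
   nat_lit 3267911813, nat_lit 4499211469, nat_lit 3232522365, nat_lit 4496999609,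
   nat_lit 14168810693, nat_lit 4497007801, nat_lit 12, nat_lit 4499211469, nat_lit 4496999609,
   nat_lit 4497007801, nat_lit 14781539449, nat_lit 14780761245, nat_lit 14780761245, nat_lit 20,
   nat_lit 4, nat_lit 14780875985, nat_lit 14780875985, nat_lit 0, nat_lit 8, nat_lit 4538917041,
   nat_lit 14227776717, nat_lit 14227776717, nat_lit 8, nat_lit 4499071077, nat_lit 3263717501,
   nat_lit 4499071077, nat_lit 3232260229, nat_lit 4503265381, nat_lit 3232391301, nat_lit 12,
   nat_lit 3267911813, nat_lit 4499211469, nat_lit 3232522365, nat_lit 4496999609,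
   nat_lit 14168810693, nat_lit 4497007801, nat_lit 12, nat_lit 4499211469, nat_lit 4496999609,
   nat_lit 4497007801, nat_lit 4, nat_lit 14780875989, nat_lit 14776681681, nat_lit 14780875989,
   nat_lit 14776681681, nat_lit 0, nat_lit 8, nat_lit 3263717501, nat_lit 3232260229,
   nat_lit 3232391301, nat_lit 12, nat_lit 3267911813, nat_lit 4499211469, nat_lit 3232522365,
   nat_lit 4496999609, nat_lit 14168810693, nat_lit 4497007801, nat_lit 12, nat_lit 4499211469,
   nat_lit 4496999609, nat_lit 4497007801, nat_lit 0, nat_lit 8, nat_lit 3263848573,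
   nat_lit 3232391301, nat_lit 3232391301, nat_lit 12, nat_lit 3268042885, nat_lit 14162896077,
   nat_lit 3232653437, nat_lit 14160684217, nat_lit 14168810693, nat_lit 14160684217, nat_lit 12,
   nat_lit 14162896077, nat_lit 14160684217, nat_lit 14160684217, nat_lit 14776566993,
   nat_lit 14776566997, nat_lit 20, nat_lit 4, nat_lit 14776681681, nat_lit 14776681681,
   nat_lit 0, nat_lit 8, nat_lit 3263848573, nat_lit 3232391301, nat_lit 3232391301, nat_lit 12,
   nat_lit 3268042885, nat_lit 14162896077, nat_lit 3232653437, nat_lit 14160684217,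
   nat_lit 14168810693, nat_lit 14160684217, nat_lit 12, nat_lit 14162896077,
   nat_lit 14160684217, nat_lit 14160684217, nat_lit 14776566993, nat_lit 14776566997,
   nat_lit 20, nat_lit 4, nat_lit 0, nat_lit 8, nat_lit 3263717501, nat_lit 3232260229,
   nat_lit 12, nat_lit 3267911813, nat_lit 3267911809, nat_lit 3232522365, nat_lit 3232522361,
   nat_lit 12, nat_lit 4499211469, nat_lit 4496999609, nat_lit 8, nat_lit 4540630213,
   nat_lit 283656254, nat_lit 3265561765, nat_lit 5113005225, nat_lit 8, nat_lit 12,
   nat_lit 283918398, nat_lit 4499219661, nat_lit 12, nat_lit 3270026429, nat_lit 283918398,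
   nat_lit 4499350733, nat_lit 283656254, nat_lit 4498957517, nat_lit 0, nat_lit 4540728517,
   nat_lit 4540728517, nat_lit 4499047609, nat_lit 3232391301, nat_lit 12, nat_lit 3270140037,
   nat_lit 3270140033, nat_lit 3404357781, nat_lit 3404357777, nat_lit 12, nat_lit 3970588781,
   nat_lit 4499350733, nat_lit 283656254, nat_lit 4496991417, nat_lit 5113005225,
   nat_lit 5112882345, nat_lit 0, nat_lit 8, nat_lit 3263848573, nat_lit 3232391301,
   nat_lit 3232391301, nat_lit 12, nat_lit 3268042885, nat_lit 3268042881, nat_lit 3232653437,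
   nat_lit 3232653433, nat_lit 4505134277, nat_lit 3232653433, nat_lit 12, nat_lit 4499219661,
   nat_lit 4497007801, nat_lit 4497007801, nat_lit 4, nat_lit 14277559389, nat_lit 14277559389,
   nat_lit 14278223053, nat_lit 4, nat_lit 0, nat_lit 14277435485, nat_lit 8,
   nat_lit 14278362317, nat_lit 3263717501, nat_lit 14278362317, nat_lit 3232260229, nat_lit 12,
   nat_lit 3267911813, nat_lit 14162887885, nat_lit 3232522365, nat_lit 14160676025, nat_lit 12,
   nat_lit 14162887885, nat_lit 14160676025, nat_lit 8, nat_lit 14278370509, nat_lit 14204306629,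
   nat_lit 283656254, nat_lit 14162625741, nat_lit 14776681641, nat_lit 8, nat_lit 12,
   nat_lit 283918398, nat_lit 14162896077, nat_lit 14278370509, nat_lit 12, nat_lit 3270026429,
   nat_lit 283918398, nat_lit 14163027149, nat_lit 283656254, nat_lit 14162633933,
   nat_lit 14278370509, nat_lit 0, nat_lit 14204404933, nat_lit 14204404933, nat_lit 14162724025,
   nat_lit 3232391301, nat_lit 12, nat_lit 3270140037, nat_lit 14163027149, nat_lit 3404357781,
   nat_lit 3404357777, nat_lit 12, nat_lit 3970588781, nat_lit 14163027149, nat_lit 283656254,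
   nat_lit 14160667833, nat_lit 14776681641, nat_lit 14776558761, nat_lit 0, nat_lit 14277566557,
   nat_lit 8, nat_lit 14278370509, nat_lit 3263848573, nat_lit 14278370509, nat_lit 3232391301,
   nat_lit 14278370509, nat_lit 3232391301, nat_lit 12, nat_lit 3268042885, nat_lit 14162896077,
   nat_lit 3232653437, nat_lit 14160684217, nat_lit 14168810693, nat_lit 14160684217, nat_lit 12,
   nat_lit 14162896077, nat_lit 14160684217, nat_lit 14160684217, nat_lit 4, nat_lit 0,
   nat_lit 8, nat_lit 3263717501, nat_lit 3232260229, nat_lit 12, nat_lit 3267911813,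
   nat_lit 14162887885, nat_lit 3232522365, nat_lit 14160676025, nat_lit 12, nat_lit 14162887885,
   nat_lit 14160676025, nat_lit 8, nat_lit 14204306629, nat_lit 283656254, nat_lit 14162625741,
   nat_lit 14776681641, nat_lit 14776681641, nat_lit 8, nat_lit 12, nat_lit 283918398,
   nat_lit 14162896077, nat_lit 12, nat_lit 3270026429, nat_lit 283918398, nat_lit 14163027149,
   nat_lit 283656254, nat_lit 14162633933, nat_lit 0, nat_lit 14204404933, nat_lit 14204404933,
   nat_lit 14162724025, nat_lit 3232391301, nat_lit 12, nat_lit 3270140037, nat_lit 14163027149,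
   nat_lit 3404357781, nat_lit 3404357777, nat_lit 12, nat_lit 3970588781, nat_lit 14163027149,
   nat_lit 283656254, nat_lit 14160667833, nat_lit 14776681641, nat_lit 14776681641,
   nat_lit 14776558761, nat_lit 0, nat_lit 8, nat_lit 3263848573, nat_lit 3232391301,
   nat_lit 3232391301, nat_lit 12, nat_lit 3268042885, nat_lit 14162896077, nat_lit 3232653437,
   nat_lit 14160684217, nat_lit 14168810693, nat_lit 14160684217, nat_lit 12,
   nat_lit 14162896077, nat_lit 14160684217, nat_lit 14160684217, nat_lit 0, nat_lit 8,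
   nat_lit 3263848573, nat_lit 3232391301, nat_lit 3232391301, nat_lit 12, nat_lit 3268042885,
   nat_lit 14162896077, nat_lit 3232653437, nat_lit 14160684217, nat_lit 14168810693,
   nat_lit 14160684217, nat_lit 12, nat_lit 14162896077, nat_lit 14160684217,
   nat_lit 14160684217, nat_lit 14776566953, nat_lit 14776566957, nat_lit 4, nat_lit 8,
   nat_lit 5220484193, nat_lit 4540630217, nat_lit 4540630213, nat_lit 283656254,
   nat_lit 3265561765, nat_lit 8, nat_lit 12, nat_lit 283918398, nat_lit 14162896077,
   nat_lit 5220484193, nat_lit 5180138705, nat_lit 12, nat_lit 3270026429, nat_lit 283918398,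
   nat_lit 14163027149, nat_lit 283656254, nat_lit 14162633933, nat_lit 5220484193,
   nat_lit 5180138705, nat_lit 0, nat_lit 4540728517, nat_lit 4540728517, nat_lit 4496950457,
   nat_lit 3232391301, nat_lit 12, nat_lit 3270140037, nat_lit 14163027149, nat_lit 3404357781,
   nat_lit 3404357777, nat_lit 12, nat_lit 3970588781, nat_lit 14163027149, nat_lit 283656254,
   nat_lit 14160667833, nat_lit 5179991249, nat_lit 4, nat_lit 8, nat_lit 12, nat_lit 887898174,
   nat_lit 14162887885, nat_lit 5180130513, nat_lit 12, nat_lit 3270018237, nat_lit 887898174,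
   nat_lit 14163018957, nat_lit 887636030, nat_lit 14162625741, nat_lit 5180130513, nat_lit 0,
   nat_lit 3232260229, nat_lit 12, nat_lit 3268059269, nat_lit 3268059265, nat_lit 3404226709,
   nat_lit 3404226705, nat_lit 12, nat_lit 3970457709, nat_lit 14163018957, nat_lit 887636030,
   nat_lit 14160659641, nat_lit 8, nat_lit 14204306629, nat_lit 14204306629, nat_lit 887636030,
   nat_lit 14162625741, nat_lit 14776681641, nat_lit 8, nat_lit 12, nat_lit 887898174,
   nat_lit 14162896077, nat_lit 5180138705, nat_lit 12, nat_lit 3270026429, nat_lit 887898174,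
   nat_lit 14163027149, nat_lit 887636030, nat_lit 14162633933, nat_lit 5180138705, nat_lit 0,
   nat_lit 14204404933, nat_lit 14204404933, nat_lit 14162724025, nat_lit 3232391301, nat_lit 12,
   nat_lit 3270140037, nat_lit 14163027149, nat_lit 3404357781, nat_lit 3404357777, nat_lit 12,
   nat_lit 3970588781, nat_lit 14163027149, nat_lit 887636030, nat_lit 14160667833,
   nat_lit 14776681641, nat_lit 14776558761, nat_lit 0, nat_lit 8, nat_lit 5220491361,
   nat_lit 5220491361, nat_lit 5220491361, nat_lit 8, nat_lit 5180138705, nat_lit 3263848573,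
   nat_lit 5180138705, nat_lit 3232391301, nat_lit 5180400849, nat_lit 3232391301, nat_lit 12,
   nat_lit 3268042885, nat_lit 14162896077, nat_lit 3232653437, nat_lit 14160684217,
   nat_lit 14168810693, nat_lit 14160684217, nat_lit 12, nat_lit 14162896077,
   nat_lit 14160684217, nat_lit 14160684217, nat_lit 4, nat_lit 0, nat_lit 8, nat_lit 3263717501,
   nat_lit 3232260229, nat_lit 12, nat_lit 3267911813, nat_lit 14162887885, nat_lit 3232522365,
   nat_lit 14160676025, nat_lit 12, nat_lit 14162887885, nat_lit 14160676025, nat_lit 8,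
   nat_lit 14204306629, nat_lit 887636030, nat_lit 14162625741, nat_lit 14776681641,
   nat_lit 5218649293, nat_lit 8, nat_lit 12, nat_lit 887898174, nat_lit 14162896077, nat_lit 12,
   nat_lit 3270026429, nat_lit 887898174, nat_lit 14163027149, nat_lit 887636030,
   nat_lit 14162633933, nat_lit 0, nat_lit 14204404933, nat_lit 14204404933, nat_lit 14162724025,
   nat_lit 3232391301, nat_lit 12, nat_lit 3270140037, nat_lit 14163027149, nat_lit 3404357781,
   nat_lit 3404357777, nat_lit 12, nat_lit 3970588781, nat_lit 14163027149, nat_lit 887636030,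
   nat_lit 14160667833, nat_lit 14776681641, nat_lit 5218649293, nat_lit 14776558761, nat_lit 0,
   nat_lit 8, nat_lit 3263848573, nat_lit 3232391301, nat_lit 3232391301, nat_lit 12,
   nat_lit 3268042885, nat_lit 14162896077, nat_lit 3232653437, nat_lit 14160684217,
   nat_lit 14168810693, nat_lit 14160684217, nat_lit 12, nat_lit 14162896077,
   nat_lit 14160684217, nat_lit 14160684217, nat_lit 5217739869, nat_lit 5218534605,
   nat_lit 5218501809, nat_lit 20, nat_lit 4, nat_lit 5113005265, nat_lit 5113005265, nat_lit 0,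
   nat_lit 8, nat_lit 3263848573, nat_lit 3232391301, nat_lit 3232391301, nat_lit 12,
   nat_lit 3268042885, nat_lit 3268042881, nat_lit 3232653437, nat_lit 3232653433,
   nat_lit 4505134277, nat_lit 3232653433, nat_lit 12, nat_lit 4499219661, nat_lit 4497007801,
   nat_lit 4497007801, nat_lit 4, nat_lit 14776681681, nat_lit 14776681681, nat_lit 0,
   nat_lit 14277828701, nat_lit 8, nat_lit 14278370509, nat_lit 3263848573, nat_lit 14278370509,
   nat_lit 3232391301, nat_lit 14278370509, nat_lit 3232391301, nat_lit 12, nat_lit 3268042885,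
   nat_lit 14162896077, nat_lit 3232653437, nat_lit 14160684217, nat_lit 14168810693,
   nat_lit 14160684217, nat_lit 12, nat_lit 14162896077, nat_lit 14160684217,
   nat_lit 14160684217, nat_lit 4, nat_lit 14776681681, nat_lit 14776681681, nat_lit 14776681681,
   nat_lit 14776681681, nat_lit 0, nat_lit 8, nat_lit 3263848573, nat_lit 3232391301,
   nat_lit 3232391301, nat_lit 12, nat_lit 3268042885, nat_lit 14162896077, nat_lit 3232653437,
   nat_lit 14160684217, nat_lit 14168810693, nat_lit 14160684217, nat_lit 12,
   nat_lit 14162896077, nat_lit 14160684217, nat_lit 14160684217, nat_lit 0, nat_lit 8,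
   nat_lit 3263848573, nat_lit 3232391301, nat_lit 3232391301, nat_lit 12, nat_lit 3268042885,
   nat_lit 14162896077, nat_lit 3232653437, nat_lit 14160684217, nat_lit 14168810693,
   nat_lit 14160684217, nat_lit 12, nat_lit 14162896077, nat_lit 14160684217,
   nat_lit 14160684217, nat_lit 14776566993, nat_lit 14776566997, nat_lit 4, nat_lit 14776681681,
   nat_lit 14776681681, nat_lit 0, nat_lit 8, nat_lit 5220491361, nat_lit 5220491361,
   nat_lit 5220491361, nat_lit 8, nat_lit 5180138705, nat_lit 3263848573, nat_lit 5180138705,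
   nat_lit 3232391301, nat_lit 5180400849, nat_lit 3232391301, nat_lit 12, nat_lit 3268042885,
   nat_lit 14162896077, nat_lit 3232653437, nat_lit 14160684217, nat_lit 14168810693,
   nat_lit 14160684217, nat_lit 12, nat_lit 14162896077, nat_lit 14160684217,
   nat_lit 14160684217, nat_lit 4, nat_lit 14776681681, nat_lit 5217862857, nat_lit 14776681681,
   nat_lit 5217862857, nat_lit 0, nat_lit 8, nat_lit 3263848573, nat_lit 3232391301,
   nat_lit 3232391301, nat_lit 12, nat_lit 3268042885, nat_lit 14162896077, nat_lit 3232653437,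
   nat_lit 14160684217, nat_lit 14168810693, nat_lit 14160684217, nat_lit 12,
   nat_lit 14162896077, nat_lit 14160684217, nat_lit 14160684217, nat_lit 0, nat_lit 8,
   nat_lit 3263717501, nat_lit 3232260229, nat_lit 3232391301, nat_lit 12, nat_lit 3267911813,
   nat_lit 4499211469, nat_lit 3232522365, nat_lit 4496999609, nat_lit 14168810693,
   nat_lit 3232653433, nat_lit 12, nat_lit 4499211469, nat_lit 4496999609, nat_lit 14160684217,
   nat_lit 5217748169, nat_lit 5217748169, nat_lit 20, nat_lit 4, nat_lit 14776681681,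
   nat_lit 14776681681, nat_lit 0, nat_lit 8, nat_lit 3263848573, nat_lit 3232391301,
   nat_lit 3232391301, nat_lit 12, nat_lit 3268042885, nat_lit 14162896077, nat_lit 3232653437,
   nat_lit 14160684217, nat_lit 14168810693, nat_lit 14160684217, nat_lit 12,
   nat_lit 14162896077, nat_lit 14160684217, nat_lit 14160684217, nat_lit 14776566993,
   nat_lit 14776566997, nat_lit 4, nat_lit 5217862853, nat_lit 5217862853, nat_lit 0, nat_lit 8,
   nat_lit 3263848573, nat_lit 3232391301, nat_lit 3232391301, nat_lit 12, nat_lit 3268042885,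
   nat_lit 14162896077, nat_lit 3232653437, nat_lit 14160684217, nat_lit 14168810693,
   nat_lit 14160684217, nat_lit 12, nat_lit 14162896077, nat_lit 14160684217,
   nat_lit 14160684217, nat_lit 5217748165, nat_lit 5217748165, nat_lit 4546659489,
   nat_lit 4546659529, nat_lit 4546659525, nat_lit 16, nat_lit 20, nat_lit 8,
   nat_lit 14239827153, nat_lit 14239827153, nat_lit 0, nat_lit 4, nat_lit 12,
   nat_lit 3970588885, nat_lit 3270140057, nat_lit 3337248921, nat_lit 3232391321,
   nat_lit 226570690849, nat_lit 12, nat_lit 3268059269, nat_lit 14162897101, nat_lit 3232669821,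
   nat_lit 14160685241, nat_lit 14168811717, nat_lit 14160685241, nat_lit 12,
   nat_lit 14162897101, nat_lit 14160685241, nat_lit 14160685241, nat_lit 14239696081,
   nat_lit 14239696085, nat_lit 20, nat_lit 8, nat_lit 12, nat_lit 4545086625,
   nat_lit 4545086665, nat_lit 4545086661, nat_lit 283918398, nat_lit 3270018213, nat_lit 12,
   nat_lit 4, nat_lit 4507452613, nat_lit 4496966841, nat_lit 0, nat_lit 4507459781,
   nat_lit 4507459781, nat_lit 3230032025, nat_lit 0, nat_lit 4496842969, nat_lit 4496974009,
   nat_lit 71949508897, nat_lit 4543120561, nat_lit 14230005945, nat_lit 4, nat_lit 4545201349,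
   nat_lit 4545201349, nat_lit 4496966841, nat_lit 3267912829, nat_lit 0, nat_lit 4545208517,
   nat_lit 4545208517, nat_lit 3230032025, nat_lit 0, nat_lit 4496842969, nat_lit 4496974009,
   nat_lit 71949508897, nat_lit 283918398, nat_lit 14162897101, nat_lit 14227794125,
   nat_lit 14227794125, nat_lit 4, nat_lit 4545201349, nat_lit 4545201349, nat_lit 4496966841,
   nat_lit 3232523397, nat_lit 0, nat_lit 4545208517, nat_lit 4545208517, nat_lit 3230032025,
   nat_lit 0, nat_lit 4496842969, nat_lit 4496974009, nat_lit 71949508897, nat_lit 283918398,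
   nat_lit 14160685241, nat_lit 14227630285, nat_lit 8, nat_lit 12, nat_lit 0, nat_lit 4,
   nat_lit 4505100485, nat_lit 4496974009, nat_lit 4, nat_lit 3230032025, nat_lit 71949508897,
   nat_lit 14229996729, nat_lit 0, nat_lit 4, nat_lit 4542849221, nat_lit 4542849221,
   nat_lit 4499333305, nat_lit 4, nat_lit 3968229589, nat_lit 3230032025, nat_lit 71949508897,
   nat_lit 283918398, nat_lit 14162887885, nat_lit 14227784909, nat_lit 0, nat_lit 4,
   nat_lit 4542849221, nat_lit 4542849221, nat_lit 4499333305, nat_lit 4, nat_lit 3232523397,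
   nat_lit 3232653501, nat_lit 71949508897, nat_lit 283918398, nat_lit 14160676025, nat_lit 12,
   nat_lit 14208763077, nat_lit 14208763077, nat_lit 283918398, nat_lit 14162887885,
   nat_lit 14780892329, nat_lit 12, nat_lit 4, nat_lit 14171129029, nat_lit 4496966841,
   nat_lit 0, nat_lit 4507459781, nat_lit 3230032025, nat_lit 0, nat_lit 4496974009,
   nat_lit 71949508897, nat_lit 14230005945, nat_lit 4, nat_lit 14208877765, nat_lit 14208877765,
   nat_lit 4496966841, nat_lit 3267912829, nat_lit 0, nat_lit 4545208517, nat_lit 3230032025,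
   nat_lit 0, nat_lit 4496974009, nat_lit 71949508897, nat_lit 283918398, nat_lit 14162897101,
   nat_lit 14227794125, nat_lit 4, nat_lit 14208877765, nat_lit 14208877765, nat_lit 4496966841,
   nat_lit 3232523397, nat_lit 0, nat_lit 4545208517, nat_lit 3230032025, nat_lit 0,
   nat_lit 4496974009, nat_lit 71949508897, nat_lit 283918398, nat_lit 14160685241,
   nat_lit 14780892329, nat_lit 14780754089, nat_lit 0, nat_lit 4, nat_lit 4306133157,
   nat_lit 12, nat_lit 4545208521, nat_lit 4545208517, nat_lit 4545208521, nat_lit 4545208517,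
   nat_lit 4545208521, nat_lit 4545208517, nat_lit 4507459781, nat_lit 4496974009, nat_lit 4,
   nat_lit 12, nat_lit 3970588885, nat_lit 3232523397, nat_lit 3232670853, nat_lit 3230032025,
   nat_lit 71949508897, nat_lit 12, nat_lit 3267911813, nat_lit 4499211469, nat_lit 3232522365,
   nat_lit 4496999609, nat_lit 14168811717, nat_lit 4497008825, nat_lit 12, nat_lit 4499211469,
   nat_lit 4496999609, nat_lit 4497008825, nat_lit 8, nat_lit 0, nat_lit 4, nat_lit 12,
   nat_lit 3968229589, nat_lit 3232523397, nat_lit 3230032025, nat_lit 71949508897, nat_lit 12,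
   nat_lit 3267911813, nat_lit 4499211469, nat_lit 3232522365, nat_lit 4496999609, nat_lit 12,
   nat_lit 4499211469, nat_lit 4496999609, nat_lit 12, nat_lit 14208763077, nat_lit 283918398,
   nat_lit 14162887885, nat_lit 14780892333, nat_lit 14780892317, nat_lit 12, nat_lit 0,
   nat_lit 4, nat_lit 14137296077, nat_lit 14204404941, nat_lit 4, nat_lit 14171129029,
   nat_lit 4496966841, nat_lit 3230032025, nat_lit 71949508897, nat_lit 0, nat_lit 4,
   nat_lit 3970588885, nat_lit 14741275853, nat_lit 14741275853, nat_lit 4, nat_lit 3970588885,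
   nat_lit 14208877765, nat_lit 4496966841, nat_lit 3970588885, nat_lit 3230032025,
   nat_lit 71949508897, nat_lit 283918398, nat_lit 14162897101, nat_lit 0, nat_lit 4,
   nat_lit 14741275853, nat_lit 14741275853, nat_lit 14741275853, nat_lit 4, nat_lit 14208877765,
   nat_lit 14208877765, nat_lit 4496966841, nat_lit 3232523397, nat_lit 3230032025,
   nat_lit 71949508897, nat_lit 283918398, nat_lit 14160685241, nat_lit 14780892333,
   nat_lit 14780892317, nat_lit 14780754093, nat_lit 0, nat_lit 4, nat_lit 12,
   nat_lit 3970588885, nat_lit 3232523397, nat_lit 3232670853, nat_lit 3230032025,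
   nat_lit 71949508897, nat_lit 12, nat_lit 3267911813, nat_lit 4499211469, nat_lit 3232522365,
   nat_lit 4496999609, nat_lit 14168811717, nat_lit 4497008825, nat_lit 12, nat_lit 4499211469,
   nat_lit 4496999609, nat_lit 4497008825, nat_lit 14781540473, nat_lit 14780761245,
   nat_lit 14780761245, nat_lit 20, nat_lit 8, nat_lit 14780892369, nat_lit 14780892369,
   nat_lit 0, nat_lit 4, nat_lit 4306133157, nat_lit 12, nat_lit 4545208521, nat_lit 4545208517,
   nat_lit 4545208521, nat_lit 4545208517, nat_lit 4545208521, nat_lit 4545208517,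
   nat_lit 4507459781, nat_lit 4496974009, nat_lit 4, nat_lit 12, nat_lit 3970588885,
   nat_lit 3232523397, nat_lit 3232670853, nat_lit 3230032025, nat_lit 71949508897, nat_lit 12,
   nat_lit 3267911813, nat_lit 4499211469, nat_lit 3232522365, nat_lit 4496999609,
   nat_lit 14168811717, nat_lit 4497008825, nat_lit 12, nat_lit 4499211469, nat_lit 4496999609,
   nat_lit 4497008825, nat_lit 8, nat_lit 14780892373, nat_lit 14776698065, nat_lit 14780892373,
   nat_lit 14776698065, nat_lit 0, nat_lit 4, nat_lit 12, nat_lit 3970588885, nat_lit 3232523397,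
   nat_lit 3232670853, nat_lit 3230032025, nat_lit 71949508897, nat_lit 12, nat_lit 3267911813,
   nat_lit 4499211469, nat_lit 3232522365, nat_lit 4496999609, nat_lit 14168811717,
   nat_lit 4497008825, nat_lit 12, nat_lit 4499211469, nat_lit 4496999609, nat_lit 4497008825,
   nat_lit 0, nat_lit 4, nat_lit 12, nat_lit 3970588885, nat_lit 3270140057, nat_lit 3337248921,
   nat_lit 3232391321, nat_lit 226570690849, nat_lit 12, nat_lit 3268059269, nat_lit 14162897101,
   nat_lit 3232669821, nat_lit 14160685241, nat_lit 14168811717, nat_lit 14160685241, nat_lit 12,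
   nat_lit 14162897101, nat_lit 14160685241, nat_lit 14160685241, nat_lit 14776566993,
   nat_lit 14776566997, nat_lit 20, nat_lit 8, nat_lit 14776698065, nat_lit 14776698065,
   nat_lit 0, nat_lit 4, nat_lit 12, nat_lit 3970588885, nat_lit 3270140057, nat_lit 3337248921,
   nat_lit 3232391321, nat_lit 226570690849, nat_lit 12, nat_lit 3268059269, nat_lit 14162897101,
   nat_lit 3232669821, nat_lit 14160685241, nat_lit 14168811717, nat_lit 14160685241, nat_lit 12,
   nat_lit 14162897101, nat_lit 14160685241, nat_lit 14160685241, nat_lit 14776566993,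
   nat_lit 14776566997, nat_lit 20, nat_lit 8, nat_lit 0, nat_lit 4, nat_lit 12,
   nat_lit 3968229589, nat_lit 3267780761, nat_lit 3230032025, nat_lit 71949508897, nat_lit 12,
   nat_lit 3267911813, nat_lit 3267911809, nat_lit 3232522365, nat_lit 3232522361, nat_lit 12,
   nat_lit 4499211469, nat_lit 4496999609, nat_lit 12, nat_lit 4545086661, nat_lit 283918398,
   nat_lit 3270018213, nat_lit 5113021609, nat_lit 12, nat_lit 0, nat_lit 4, nat_lit 4473619661,
   nat_lit 4540728525, nat_lit 4, nat_lit 4507452613, nat_lit 4496966841, nat_lit 3232391321,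
   nat_lit 71951868193, nat_lit 0, nat_lit 4, nat_lit 3970588885, nat_lit 5077599437,
   nat_lit 5077599437, nat_lit 4, nat_lit 3970588885, nat_lit 4545201349, nat_lit 4496966841,
   nat_lit 3970588885, nat_lit 3270140057, nat_lit 71989616929, nat_lit 283918398,
   nat_lit 4499220685, nat_lit 0, nat_lit 4, nat_lit 5077599437, nat_lit 5077599437,
   nat_lit 5077599437, nat_lit 4, nat_lit 4545201349, nat_lit 4545201349, nat_lit 4496966841,
   nat_lit 3270140057, nat_lit 3270140057, nat_lit 71989616929, nat_lit 283918398,
   nat_lit 4497008825, nat_lit 5113021609, nat_lit 5112883369, nat_lit 0, nat_lit 4, nat_lit 12,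
   nat_lit 3970588885, nat_lit 3270140057, nat_lit 3337248921, nat_lit 3232391321,
   nat_lit 71951868193, nat_lit 12, nat_lit 3268059269, nat_lit 3268059265, nat_lit 3232669821,
   nat_lit 3232669817, nat_lit 4505135301, nat_lit 3232669817, nat_lit 12, nat_lit 4499220685,
   nat_lit 4497008825, nat_lit 4497008825, nat_lit 8, nat_lit 14277575773, nat_lit 14277575773,
   nat_lit 14278224077, nat_lit 8, nat_lit 0, nat_lit 14277435485, nat_lit 4, nat_lit 12,
   nat_lit 3968229589, nat_lit 3267780761, nat_lit 3230032025, nat_lit 226568331553, nat_lit 12,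
   nat_lit 3267911813, nat_lit 14162887885, nat_lit 3232522365, nat_lit 14160676025, nat_lit 12,
   nat_lit 14162887885, nat_lit 14160676025, nat_lit 12, nat_lit 14278387917,
   nat_lit 14208763077, nat_lit 283918398, nat_lit 14162887885, nat_lit 14776698025, nat_lit 12,
   nat_lit 0, nat_lit 14278329549, nat_lit 4, nat_lit 14137296077, nat_lit 14204404941,
   nat_lit 14277582941, nat_lit 4, nat_lit 14171129029, nat_lit 4496966841, nat_lit 3232391321,
   nat_lit 226570690849, nat_lit 14278387917, nat_lit 0, nat_lit 14280426701, nat_lit 4,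
   nat_lit 3970588885, nat_lit 14741275853, nat_lit 14741275853, nat_lit 14277582941, nat_lit 4,
   nat_lit 3970588885, nat_lit 14208877765, nat_lit 4496966841, nat_lit 3970588885,
   nat_lit 3270140057, nat_lit 226608439585, nat_lit 283918398, nat_lit 14162897101,
   nat_lit 14278387917, nat_lit 0, nat_lit 14280426701, nat_lit 4, nat_lit 14741275853,
   nat_lit 14741275853, nat_lit 14741275853, nat_lit 14277582941, nat_lit 4, nat_lit 14208877765,
   nat_lit 14208877765, nat_lit 4496966841, nat_lit 3270140057, nat_lit 3270140057,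
   nat_lit 226608439585, nat_lit 283918398, nat_lit 14160685241, nat_lit 14776698025,
   nat_lit 14776559785, nat_lit 0, nat_lit 14277582941, nat_lit 4, nat_lit 12,
   nat_lit 3970588885, nat_lit 3270140057, nat_lit 3337248921, nat_lit 3232391321,
   nat_lit 226570690849, nat_lit 12, nat_lit 3268059269, nat_lit 14162897101, nat_lit 3232669821,
   nat_lit 14160685241, nat_lit 14168811717, nat_lit 14160685241, nat_lit 12,
   nat_lit 14162897101, nat_lit 14160685241, nat_lit 14160685241, nat_lit 8, nat_lit 0,
   nat_lit 4, nat_lit 12, nat_lit 3968229589, nat_lit 3267780761, nat_lit 3230032025,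
   nat_lit 226568331553, nat_lit 12, nat_lit 3267911813, nat_lit 14162887885, nat_lit 3232522365,
   nat_lit 14160676025, nat_lit 12, nat_lit 14162887885, nat_lit 14160676025, nat_lit 12,
   nat_lit 14208763077, nat_lit 283918398, nat_lit 14162887885, nat_lit 14776698025,
   nat_lit 14776698025, nat_lit 12, nat_lit 0, nat_lit 4, nat_lit 14137296077,
   nat_lit 14204404941, nat_lit 4, nat_lit 14171129029, nat_lit 4496966841, nat_lit 3232391321,
   nat_lit 226570690849, nat_lit 0, nat_lit 4, nat_lit 3970588885, nat_lit 14741275853,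
   nat_lit 14741275853, nat_lit 4, nat_lit 3970588885, nat_lit 14208877765, nat_lit 4496966841,
   nat_lit 3970588885, nat_lit 3270140057, nat_lit 226608439585, nat_lit 283918398,
   nat_lit 14162897101, nat_lit 0, nat_lit 4, nat_lit 14741275853, nat_lit 14741275853,
   nat_lit 14741275853, nat_lit 4, nat_lit 14208877765, nat_lit 14208877765, nat_lit 4496966841,
   nat_lit 3270140057, nat_lit 3270140057, nat_lit 226608439585, nat_lit 283918398,
   nat_lit 14160685241, nat_lit 14776698025, nat_lit 14776698025, nat_lit 14776559785, nat_lit 0,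
   nat_lit 4, nat_lit 12, nat_lit 3970588885, nat_lit 3270140057, nat_lit 3337248921,
   nat_lit 3232391321, nat_lit 226570690849, nat_lit 12, nat_lit 3268059269, nat_lit 14162897101,
   nat_lit 3232669821, nat_lit 14160685241, nat_lit 14168811717, nat_lit 14160685241, nat_lit 12,
   nat_lit 14162897101, nat_lit 14160685241, nat_lit 14160685241, nat_lit 0, nat_lit 4,
   nat_lit 12, nat_lit 3970588885, nat_lit 3270140057, nat_lit 3337248921, nat_lit 3232391321,
   nat_lit 226570690849, nat_lit 12, nat_lit 3268059269, nat_lit 14162897101, nat_lit 3232669821,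
   nat_lit 14160685241, nat_lit 14168811717, nat_lit 14160685241, nat_lit 12,
   nat_lit 14162897101, nat_lit 14160685241, nat_lit 14160685241, nat_lit 14776566953,
   nat_lit 14776566957, nat_lit 8, nat_lit 12, nat_lit 5220762721, nat_lit 4545086665,
   nat_lit 4545086661, nat_lit 283918398, nat_lit 3270018213, nat_lit 12, nat_lit 4,
   nat_lit 4507452613, nat_lit 4496966841, nat_lit 0, nat_lit 4507459781, nat_lit 4507459781,
   nat_lit 3232391321, nat_lit 0, nat_lit 5182611625, nat_lit 4496974009, nat_lit 226570690849,
   nat_lit 5220762721, nat_lit 5180156113, nat_lit 4, nat_lit 4545201349, nat_lit 4545201349,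
   nat_lit 4496966841, nat_lit 3268060285, nat_lit 0, nat_lit 4545208517, nat_lit 4545208517,
   nat_lit 3270140057, nat_lit 0, nat_lit 5216166057, nat_lit 4496974009, nat_lit 226608439585,
   nat_lit 283918398, nat_lit 14162897101, nat_lit 5220762721, nat_lit 5180156113, nat_lit 4,
   nat_lit 4545201349, nat_lit 4545201349, nat_lit 4496966841, nat_lit 3232670853, nat_lit 0,
   nat_lit 4545208517, nat_lit 4545208517, nat_lit 3270140057, nat_lit 0, nat_lit 5216166057,
   nat_lit 4496974009, nat_lit 226608439585, nat_lit 283918398, nat_lit 14160685241,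
   nat_lit 5179992273, nat_lit 8, nat_lit 12, nat_lit 0, nat_lit 4, nat_lit 4505100485,
   nat_lit 4496974009, nat_lit 4, nat_lit 3230032025, nat_lit 226568331553, nat_lit 5180146897,
   nat_lit 0, nat_lit 4, nat_lit 4542849221, nat_lit 4542849221, nat_lit 4499333305, nat_lit 4,
   nat_lit 3968229589, nat_lit 3267780761, nat_lit 226606080289, nat_lit 887898174,
   nat_lit 14162887885, nat_lit 5180146897, nat_lit 0, nat_lit 4, nat_lit 4542849221,
   nat_lit 4542849221, nat_lit 4499333305, nat_lit 4, nat_lit 3267780761, nat_lit 3232653501,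
   nat_lit 226606080289, nat_lit 887898174, nat_lit 14160676025, nat_lit 12, nat_lit 14208763077,
   nat_lit 14208763077, nat_lit 887898174, nat_lit 14162887885, nat_lit 14776698025, nat_lit 12,
   nat_lit 4, nat_lit 14171129029, nat_lit 14160643257, nat_lit 0, nat_lit 4507459781,
   nat_lit 3232391321, nat_lit 0, nat_lit 4496974009, nat_lit 226570690849, nat_lit 5180156113,
   nat_lit 4, nat_lit 14208877765, nat_lit 14208877765, nat_lit 14163002553, nat_lit 3268060285,
   nat_lit 0, nat_lit 4545208517, nat_lit 3270140057, nat_lit 0, nat_lit 4496974009,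
   nat_lit 226608439585, nat_lit 887898174, nat_lit 14162897101, nat_lit 5180156113, nat_lit 4,
   nat_lit 14208877765, nat_lit 14208877765, nat_lit 14163002553, nat_lit 3232670853, nat_lit 0,
   nat_lit 4545208517, nat_lit 3270140057, nat_lit 0, nat_lit 4496974009, nat_lit 226608439585,
   nat_lit 887898174, nat_lit 14160685241, nat_lit 14776698025, nat_lit 14776559785, nat_lit 0,
   nat_lit 4, nat_lit 5182742697, nat_lit 12, nat_lit 4545208521, nat_lit 4545208517,
   nat_lit 4545208521, nat_lit 4545208517, nat_lit 4545208521, nat_lit 4545208517,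
   nat_lit 4507459781, nat_lit 4496974009, nat_lit 4, nat_lit 12, nat_lit 3970588885,
   nat_lit 3270140057, nat_lit 3337248921, nat_lit 3232391321, nat_lit 226570690849, nat_lit 12,
   nat_lit 3268059269, nat_lit 14162897101, nat_lit 3232669821, nat_lit 14160685241,
   nat_lit 14168811717, nat_lit 14160685241, nat_lit 12, nat_lit 14162897101,
   nat_lit 14160685241, nat_lit 14160685241, nat_lit 8, nat_lit 0, nat_lit 4, nat_lit 12,
   nat_lit 3968229589, nat_lit 3267780761, nat_lit 3230032025, nat_lit 226568331553, nat_lit 12,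
   nat_lit 3267911813, nat_lit 14162887885, nat_lit 3232522365, nat_lit 14160676025, nat_lit 12,
   nat_lit 14162887885, nat_lit 14160676025, nat_lit 12, nat_lit 14208763077, nat_lit 887898174,
   nat_lit 14162887885, nat_lit 14776698025, nat_lit 5218665677, nat_lit 12, nat_lit 0,
   nat_lit 4, nat_lit 14137296077, nat_lit 14204404941, nat_lit 4, nat_lit 14171129029,
   nat_lit 4496966841, nat_lit 3232391321, nat_lit 226570690849, nat_lit 0, nat_lit 4,
   nat_lit 3970588885, nat_lit 14741275853, nat_lit 14741275853, nat_lit 4, nat_lit 3970588885,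
   nat_lit 14208877765, nat_lit 4496966841, nat_lit 3970588885, nat_lit 3270140057,
   nat_lit 226608439585, nat_lit 887898174, nat_lit 14162897101, nat_lit 0, nat_lit 4,
   nat_lit 14741275853, nat_lit 14741275853, nat_lit 14741275853, nat_lit 4, nat_lit 14208877765,
   nat_lit 14208877765, nat_lit 4496966841, nat_lit 3270140057, nat_lit 3270140057,
   nat_lit 226608439585, nat_lit 887898174, nat_lit 14160685241, nat_lit 14776698025,
   nat_lit 5218665677, nat_lit 14776559785, nat_lit 0, nat_lit 4, nat_lit 12, nat_lit 3970588885,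
   nat_lit 3270140057, nat_lit 3337248921, nat_lit 3232391321, nat_lit 226570690849, nat_lit 12,
   nat_lit 3268059269, nat_lit 14162897101, nat_lit 3232669821, nat_lit 14160685241,
   nat_lit 14168811717, nat_lit 14160685241, nat_lit 12, nat_lit 14162897101,
   nat_lit 14160685241, nat_lit 14160685241, nat_lit 5217740893, nat_lit 5218534605,
   nat_lit 5218501809, nat_lit 20, nat_lit 8, nat_lit 5113021649, nat_lit 5113021649, nat_lit 0,
   nat_lit 4, nat_lit 12, nat_lit 3970588885, nat_lit 3270140057, nat_lit 3337248921,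
   nat_lit 3232391321, nat_lit 71951868193, nat_lit 12, nat_lit 3268059269, nat_lit 3268059265,
   nat_lit 3232669821, nat_lit 3232669817, nat_lit 4505135301, nat_lit 3232669817, nat_lit 12,
   nat_lit 4499220685, nat_lit 4497008825, nat_lit 4497008825, nat_lit 8, nat_lit 14776698065,
   nat_lit 14776698065, nat_lit 0, nat_lit 14277845085, nat_lit 4, nat_lit 12,
   nat_lit 3970588885, nat_lit 3270140057, nat_lit 3337248921, nat_lit 3232391321,
   nat_lit 226570690849, nat_lit 12, nat_lit 3268059269, nat_lit 14162897101, nat_lit 3232669821,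
   nat_lit 14160685241, nat_lit 14168811717, nat_lit 14160685241, nat_lit 12,
   nat_lit 14162897101, nat_lit 14160685241, nat_lit 14160685241, nat_lit 8, nat_lit 14776698065,
   nat_lit 14776698065, nat_lit 14776698065, nat_lit 14776698065, nat_lit 0, nat_lit 4,
   nat_lit 12, nat_lit 3970588885, nat_lit 3270140057, nat_lit 3337248921, nat_lit 3232391321,
   nat_lit 226570690849, nat_lit 12, nat_lit 3268059269, nat_lit 14162897101, nat_lit 3232669821,
   nat_lit 14160685241, nat_lit 14168811717, nat_lit 14160685241, nat_lit 12,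
   nat_lit 14162897101, nat_lit 14160685241, nat_lit 14160685241, nat_lit 0, nat_lit 4,
   nat_lit 12, nat_lit 3970588885, nat_lit 3270140057, nat_lit 3337248921, nat_lit 3232391321,
   nat_lit 226570690849, nat_lit 12, nat_lit 3268059269, nat_lit 14162897101, nat_lit 3232669821,
   nat_lit 14160685241, nat_lit 14168811717, nat_lit 14160685241, nat_lit 12,
   nat_lit 14162897101, nat_lit 14160685241, nat_lit 14160685241, nat_lit 14776566993,
   nat_lit 14776566997, nat_lit 8, nat_lit 14776698065, nat_lit 14776698065, nat_lit 0,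
   nat_lit 4, nat_lit 5182742697, nat_lit 12, nat_lit 4545208521, nat_lit 4545208517,
   nat_lit 4545208521, nat_lit 4545208517, nat_lit 4545208521, nat_lit 4545208517,
   nat_lit 4507459781, nat_lit 4496974009, nat_lit 4, nat_lit 12, nat_lit 3970588885,
   nat_lit 3270140057, nat_lit 3337248921, nat_lit 3232391321, nat_lit 226570690849, nat_lit 12,
   nat_lit 3268059269, nat_lit 14162897101, nat_lit 3232669821, nat_lit 14160685241,
   nat_lit 14168811717, nat_lit 14160685241, nat_lit 12, nat_lit 14162897101,
   nat_lit 14160685241, nat_lit 14160685241, nat_lit 8, nat_lit 14776698065, nat_lit 5217879241,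
   nat_lit 14776698065, nat_lit 5217879241, nat_lit 0, nat_lit 4, nat_lit 12, nat_lit 3970588885,
   nat_lit 3270140057, nat_lit 3337248921, nat_lit 3232391321, nat_lit 226570690849, nat_lit 12,
   nat_lit 3268059269, nat_lit 14162897101, nat_lit 3232669821, nat_lit 14160685241,
   nat_lit 14168811717, nat_lit 14160685241, nat_lit 12, nat_lit 14162897101,
   nat_lit 14160685241, nat_lit 14160685241, nat_lit 0, nat_lit 4, nat_lit 12,
   nat_lit 3970588885, nat_lit 3232523397, nat_lit 3232670853, nat_lit 3230032025,
   nat_lit 71949508897, nat_lit 12, nat_lit 3267911813, nat_lit 4499211469, nat_lit 3232522365,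
   nat_lit 4496999609, nat_lit 14168811717, nat_lit 14160685241, nat_lit 12, nat_lit 4499211469,
   nat_lit 4496999609, nat_lit 14160685241, nat_lit 5217748169, nat_lit 5217748169, nat_lit 20,
   nat_lit 8, nat_lit 14776698065, nat_lit 14776698065, nat_lit 0, nat_lit 4, nat_lit 12,
   nat_lit 3970588885, nat_lit 3270140057, nat_lit 3337248921, nat_lit 3232391321,
   nat_lit 226570690849, nat_lit 12, nat_lit 3268059269, nat_lit 14162897101, nat_lit 3232669821,
   nat_lit 14160685241, nat_lit 14168811717, nat_lit 14160685241, nat_lit 12,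
   nat_lit 14162897101, nat_lit 14160685241, nat_lit 14160685241, nat_lit 14776566993,
   nat_lit 14776566997, nat_lit 8, nat_lit 5217879237, nat_lit 5217879237, nat_lit 0, nat_lit 4,
   nat_lit 12, nat_lit 3970588885, nat_lit 3270140057, nat_lit 3337248921, nat_lit 3232391321,
   nat_lit 226570690849, nat_lit 12, nat_lit 3268059269, nat_lit 14162897101, nat_lit 3232669821,
   nat_lit 14160685241, nat_lit 14168811717, nat_lit 14160685241, nat_lit 12,
   nat_lit 14162897101, nat_lit 14160685241, nat_lit 14160685241, nat_lit 5217748165,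
   nat_lit 5217748165, nat_lit 4546659489, nat_lit 4546659529, nat_lit 4546659525, nat_lit 16,
   nat_lit 20, nat_lit 0, nat_lit 14239794385, nat_lit 14239794385, nat_lit 8,
   nat_lit 14242308233, nat_lit 14242308233, nat_lit 4, nat_lit 12, nat_lit 14208884933,
   nat_lit 14208884933, nat_lit 14208884933, nat_lit 14171136197, nat_lit 14160650425,
   nat_lit 14239696081, nat_lit 14239696085, nat_lit 20, nat_lit 0, nat_lit 4,
   nat_lit 4536173729, nat_lit 4536173769, nat_lit 4536173765, nat_lit 283394110,
   nat_lit 3261105317, nat_lit 8, nat_lit 12, nat_lit 14208770245, nat_lit 14208770245,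
   nat_lit 14208770245, nat_lit 283918398, nat_lit 14162895053, nat_lit 4, nat_lit 14227759309,
   nat_lit 14227759309, nat_lit 12, nat_lit 14208884933, nat_lit 14208884933,
   nat_lit 14208884933, nat_lit 14208884933, nat_lit 14208884933, nat_lit 14208884933,
   nat_lit 14171136197, nat_lit 4496966841, nat_lit 14227628237, nat_lit 0, nat_lit 8,
   nat_lit 12, nat_lit 14208763077, nat_lit 14208763077, nat_lit 283918398, nat_lit 14162887885,
   nat_lit 4, nat_lit 14227752141, nat_lit 12, nat_lit 14208877765, nat_lit 14208877765,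
   nat_lit 14208877765, nat_lit 14208877765, nat_lit 14171129029, nat_lit 4496966841, nat_lit 4,
   nat_lit 14199850181, nat_lit 14199850181, nat_lit 283394110, nat_lit 14162363597,
   nat_lit 14780859561, nat_lit 8, nat_lit 12, nat_lit 14208770245, nat_lit 14208770245,
   nat_lit 283918398, nat_lit 14162895053, nat_lit 4, nat_lit 14227759309, nat_lit 12,
   nat_lit 14208884933, nat_lit 14208884933, nat_lit 14208884933, nat_lit 14208884933,
   nat_lit 14171136197, nat_lit 4496966841, nat_lit 14780859561, nat_lit 14780752041, nat_lit 8,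
   nat_lit 4, nat_lit 14227759309, nat_lit 12, nat_lit 14206525637, nat_lit 14206525637,
   nat_lit 14206525637, nat_lit 14206525637, nat_lit 14168776901, nat_lit 14160650425,
   nat_lit 12, nat_lit 14208770245, nat_lit 14208770245, nat_lit 284033086, nat_lit 14162895053,
   nat_lit 14783373441, nat_lit 4, nat_lit 14227759309, nat_lit 12, nat_lit 14208884933,
   nat_lit 14208884933, nat_lit 14208884933, nat_lit 14208884933, nat_lit 14171136197,
   nat_lit 4496966841, nat_lit 14227759309, nat_lit 12, nat_lit 14208884933, nat_lit 14208884933,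
   nat_lit 14208884933, nat_lit 14208884933, nat_lit 14171136197, nat_lit 4496974009,
   nat_lit 14783373441, nat_lit 14781161601, nat_lit 4, nat_lit 14227759309, nat_lit 12,
   nat_lit 14208884933, nat_lit 14208884933, nat_lit 14208884933, nat_lit 14208884933,
   nat_lit 14208884933, nat_lit 14208884933, nat_lit 14171136197, nat_lit 4496974009, nat_lit 0,
   nat_lit 8, nat_lit 12, nat_lit 14208763077, nat_lit 283918398, nat_lit 14162887885, nat_lit 4,
   nat_lit 12, nat_lit 14208877765, nat_lit 14208877765, nat_lit 14171129029, nat_lit 4496966841,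
   nat_lit 4, nat_lit 14199850181, nat_lit 283394110, nat_lit 14162363597, nat_lit 14780859565,
   nat_lit 14780859549, nat_lit 8, nat_lit 12, nat_lit 14208770245, nat_lit 283918398,
   nat_lit 14162895053, nat_lit 4, nat_lit 12, nat_lit 14208884933, nat_lit 14208884933,
   nat_lit 14171136197, nat_lit 4496966841, nat_lit 14780859565, nat_lit 14780859549,
   nat_lit 14780752045, nat_lit 8, nat_lit 4, nat_lit 12, nat_lit 14206525637,
   nat_lit 14206525637, nat_lit 14168776901, nat_lit 14160650425, nat_lit 12,
   nat_lit 14208770245, nat_lit 284033086, nat_lit 14162895053, nat_lit 14783373445, nat_lit 4,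
   nat_lit 12, nat_lit 14208884933, nat_lit 14208884933, nat_lit 14171136197, nat_lit 4496966841,
   nat_lit 12, nat_lit 14208884933, nat_lit 14208884933, nat_lit 14171136197, nat_lit 4496974009,
   nat_lit 14783373445, nat_lit 14781161605, nat_lit 4, nat_lit 12, nat_lit 14208884933,
   nat_lit 14208884933, nat_lit 14208884933, nat_lit 14171136197, nat_lit 4496974009,
   nat_lit 14781538425, nat_lit 14780761245, nat_lit 14780761245, nat_lit 20, nat_lit 0,
   nat_lit 14780859601, nat_lit 14780859601, nat_lit 8, nat_lit 14783373449, nat_lit 14783373449,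
   nat_lit 4, nat_lit 14227759309, nat_lit 12, nat_lit 14208884933, nat_lit 14208884933,
   nat_lit 14208884933, nat_lit 14208884933, nat_lit 14208884933, nat_lit 14208884933,
   nat_lit 14171136197, nat_lit 4496974009, nat_lit 0, nat_lit 14780859605, nat_lit 14776665297,
   nat_lit 14780859605, nat_lit 14776665297, nat_lit 8, nat_lit 14783373453, nat_lit 14783373453,
   nat_lit 4, nat_lit 12, nat_lit 14208884933, nat_lit 14208884933, nat_lit 14208884933,
   nat_lit 14171136197, nat_lit 4496974009, nat_lit 8, nat_lit 14781685881, nat_lit 14779179145,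
   nat_lit 14781685881, nat_lit 14779179145, nat_lit 14781685881, nat_lit 4, nat_lit 12,
   nat_lit 14208884933, nat_lit 14208884933, nat_lit 14208884933, nat_lit 14171136197,
   nat_lit 14160650425, nat_lit 14776566993, nat_lit 14776566997, nat_lit 20, nat_lit 0,
   nat_lit 14776665297, nat_lit 14776665297, nat_lit 8, nat_lit 14783373417, nat_lit 14783373417,
   nat_lit 4, nat_lit 12, nat_lit 14208884933, nat_lit 14208884933, nat_lit 14208884933,
   nat_lit 14171136197, nat_lit 14160650425, nat_lit 14776566993, nat_lit 14776566997,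
   nat_lit 20, nat_lit 0, nat_lit 8, nat_lit 12, nat_lit 4545086661, nat_lit 283918398,
   nat_lit 3270018213, nat_lit 4, nat_lit 12, nat_lit 4545201349, nat_lit 4545201349,
   nat_lit 4507452613, nat_lit 4496966841, nat_lit 4, nat_lit 4536173765, nat_lit 283394110,
   nat_lit 3261105317, nat_lit 5112988841, nat_lit 8, nat_lit 12, nat_lit 4545093829,
   nat_lit 283918398, nat_lit 3270025381, nat_lit 4, nat_lit 12, nat_lit 4545208517,
   nat_lit 4545208517, nat_lit 4507459781, nat_lit 4496974009, nat_lit 5112988841,
   nat_lit 5112881321, nat_lit 8, nat_lit 4, nat_lit 12, nat_lit 4542849221, nat_lit 4542849221,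
   nat_lit 4505100485, nat_lit 4496974009, nat_lit 12, nat_lit 4545093829, nat_lit 284033086,
   nat_lit 3270025381, nat_lit 5115502721, nat_lit 4, nat_lit 12, nat_lit 4545208517,
   nat_lit 4545208517, nat_lit 4507459781, nat_lit 4496974009, nat_lit 12, nat_lit 4545208517,
   nat_lit 4545208517, nat_lit 4507459781, nat_lit 4496974009, nat_lit 5115502721,
   nat_lit 5113290881, nat_lit 4, nat_lit 12, nat_lit 4545208517, nat_lit 4545208517,
   nat_lit 4545208517, nat_lit 4507459781, nat_lit 4496974009, nat_lit 0, nat_lit 14277543005,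
   nat_lit 14277543005, nat_lit 14278222029, nat_lit 0, nat_lit 8, nat_lit 12,
   nat_lit 14278387917, nat_lit 14208763077, nat_lit 283918398, nat_lit 14162887885, nat_lit 4,
   nat_lit 14278345933, nat_lit 12, nat_lit 14278387917, nat_lit 14208877765,
   nat_lit 14278387917, nat_lit 14208877765, nat_lit 14171129029, nat_lit 14160643257, nat_lit 4,
   nat_lit 14278353101, nat_lit 14199850181, nat_lit 283394110, nat_lit 14162363597,
   nat_lit 14776665257, nat_lit 8, nat_lit 12, nat_lit 14278387917, nat_lit 14208770245,
   nat_lit 283918398, nat_lit 14162895053, nat_lit 4, nat_lit 14278353101, nat_lit 12,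
   nat_lit 14280450233, nat_lit 14208884933, nat_lit 14280450233, nat_lit 14208884933,
   nat_lit 14171136197, nat_lit 14160650425, nat_lit 14776665257, nat_lit 14776557737, nat_lit 8,
   nat_lit 4, nat_lit 14278353101, nat_lit 12, nat_lit 14280450233, nat_lit 14206525637,
   nat_lit 14280450233, nat_lit 14206525637, nat_lit 14168776901, nat_lit 14160650425,
   nat_lit 12, nat_lit 14278387917, nat_lit 14208770245, nat_lit 284033086, nat_lit 14162895053,
   nat_lit 14779179137, nat_lit 4, nat_lit 14278353101, nat_lit 12, nat_lit 14280450233,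
   nat_lit 14208884933, nat_lit 14280450233, nat_lit 14208884933, nat_lit 14171136197,
   nat_lit 14160650425, nat_lit 14278353101, nat_lit 12, nat_lit 14280450233,
   nat_lit 14208884933, nat_lit 14280450233, nat_lit 14208884933, nat_lit 14171136197,
   nat_lit 14160650425, nat_lit 14779179137, nat_lit 14776967297, nat_lit 4, nat_lit 14278353101,
   nat_lit 12, nat_lit 14280450233, nat_lit 14208884933, nat_lit 14280450233,
   nat_lit 14208884933, nat_lit 14280450233, nat_lit 14208884933, nat_lit 14171136197,
   nat_lit 14160650425, nat_lit 0, nat_lit 8, nat_lit 12, nat_lit 14208763077, nat_lit 283918398,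
   nat_lit 14162887885, nat_lit 4, nat_lit 12, nat_lit 14208877765, nat_lit 14208877765,
   nat_lit 14171129029, nat_lit 14160643257, nat_lit 4, nat_lit 14199850181, nat_lit 283394110,
   nat_lit 14162363597, nat_lit 14776665257, nat_lit 14776665257, nat_lit 8, nat_lit 12,
   nat_lit 14208770245, nat_lit 283918398, nat_lit 14162895053, nat_lit 4, nat_lit 12,
   nat_lit 14208884933, nat_lit 14208884933, nat_lit 14171136197, nat_lit 14160650425,
   nat_lit 14776665257, nat_lit 14776665257, nat_lit 14776557737, nat_lit 8, nat_lit 4,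
   nat_lit 12, nat_lit 14206525637, nat_lit 14206525637, nat_lit 14168776901,
   nat_lit 14160650425, nat_lit 12, nat_lit 14208770245, nat_lit 284033086, nat_lit 14162895053,
   nat_lit 14779179137, nat_lit 4, nat_lit 12, nat_lit 14208884933, nat_lit 14208884933,
   nat_lit 14171136197, nat_lit 14160650425, nat_lit 12, nat_lit 14208884933,
   nat_lit 14208884933, nat_lit 14171136197, nat_lit 14160650425, nat_lit 14779179137,
   nat_lit 14776967297, nat_lit 4, nat_lit 12, nat_lit 14208884933, nat_lit 14208884933,
   nat_lit 14208884933, nat_lit 14171136197, nat_lit 14160650425, nat_lit 4, nat_lit 12,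
   nat_lit 8, nat_lit 14208770245, nat_lit 14208770245, nat_lit 14208770245, nat_lit 12,
   nat_lit 8, nat_lit 14208884933, nat_lit 14208884933, nat_lit 14208884933, nat_lit 887488574,
   nat_lit 14162370765, nat_lit 12, nat_lit 8, nat_lit 14208884933, nat_lit 14208884933,
   nat_lit 14208884933, nat_lit 14208884933, nat_lit 14208884933, nat_lit 14208884933, nat_lit 8,
   nat_lit 14208884933, nat_lit 14208884933, nat_lit 14208884933, nat_lit 887488574,
   nat_lit 14160650425, nat_lit 12, nat_lit 14206525637, nat_lit 14206525637, nat_lit 8,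
   nat_lit 14208884933, nat_lit 14208884933, nat_lit 14208884933, nat_lit 14168776901,
   nat_lit 14160650425, nat_lit 14776566953, nat_lit 14776566957, nat_lit 0, nat_lit 4,
   nat_lit 5220205665, nat_lit 4536173769, nat_lit 4536173765, nat_lit 283394110,
   nat_lit 3261105317, nat_lit 8, nat_lit 12, nat_lit 14208770245, nat_lit 14208770245,
   nat_lit 14208770245, nat_lit 283918398, nat_lit 14162895053, nat_lit 4, nat_lit 5182742737,
   nat_lit 5182742737, nat_lit 12, nat_lit 14208884933, nat_lit 14208884933, nat_lit 14208884933,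
   nat_lit 14208884933, nat_lit 14208884933, nat_lit 14208884933, nat_lit 14171136197,
   nat_lit 14160650425, nat_lit 5179990225, nat_lit 0, nat_lit 8, nat_lit 12,
   nat_lit 14208763077, nat_lit 14208763077, nat_lit 887898174, nat_lit 14162887885, nat_lit 4,
   nat_lit 5182735569, nat_lit 12, nat_lit 14208877765, nat_lit 14208877765, nat_lit 14208877765,
   nat_lit 14208877765, nat_lit 14171129029, nat_lit 14160643257, nat_lit 4, nat_lit 14199850181,
   nat_lit 14199850181, nat_lit 887373886, nat_lit 14162363597, nat_lit 14776665257, nat_lit 8,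
   nat_lit 12, nat_lit 14208770245, nat_lit 14208770245, nat_lit 887898174, nat_lit 14162895053,
   nat_lit 4, nat_lit 5182742737, nat_lit 12, nat_lit 14208884933, nat_lit 14208884933,
   nat_lit 14208884933, nat_lit 14208884933, nat_lit 14171136197, nat_lit 14160650425,
   nat_lit 14776665257, nat_lit 14776557737, nat_lit 8, nat_lit 4, nat_lit 5180383441,
   nat_lit 12, nat_lit 14206525637, nat_lit 14206525637, nat_lit 14206525637,
   nat_lit 14206525637, nat_lit 14168776901, nat_lit 14160650425, nat_lit 12,
   nat_lit 14208770245, nat_lit 14208770245, nat_lit 888012862, nat_lit 14162895053,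
   nat_lit 14779179137, nat_lit 4, nat_lit 5182742737, nat_lit 12, nat_lit 14208884933,
   nat_lit 14208884933, nat_lit 14208884933, nat_lit 14208884933, nat_lit 14171136197,
   nat_lit 14160650425, nat_lit 5182742737, nat_lit 12, nat_lit 14208884933, nat_lit 14208884933,
   nat_lit 14208884933, nat_lit 14208884933, nat_lit 14171136197, nat_lit 14160650425,
   nat_lit 14779179137, nat_lit 14776967297, nat_lit 4, nat_lit 5182742737, nat_lit 12,
   nat_lit 14208884933, nat_lit 14208884933, nat_lit 14208884933, nat_lit 14208884933,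
   nat_lit 14208884933, nat_lit 14208884933, nat_lit 14171136197, nat_lit 14160650425, nat_lit 0,
   nat_lit 8, nat_lit 12, nat_lit 14208763077, nat_lit 887898174, nat_lit 14162887885, nat_lit 4,
   nat_lit 12, nat_lit 14208877765, nat_lit 14208877765, nat_lit 14171129029,
   nat_lit 14160643257, nat_lit 4, nat_lit 14199850181, nat_lit 887373886, nat_lit 14162363597,
   nat_lit 14776665257, nat_lit 5218632909, nat_lit 8, nat_lit 12, nat_lit 14208770245,
   nat_lit 887898174, nat_lit 14162895053, nat_lit 4, nat_lit 12, nat_lit 14208884933,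
   nat_lit 14208884933, nat_lit 14171136197, nat_lit 14160650425, nat_lit 14776665257,
   nat_lit 5218632909, nat_lit 14776557737, nat_lit 8, nat_lit 4, nat_lit 12,
   nat_lit 14206525637, nat_lit 14206525637, nat_lit 14168776901, nat_lit 14160650425,
   nat_lit 12, nat_lit 14208770245, nat_lit 888012862, nat_lit 14162895053, nat_lit 14779179137,
   nat_lit 4, nat_lit 12, nat_lit 14208884933, nat_lit 14208884933, nat_lit 14171136197,
   nat_lit 14160650425, nat_lit 12, nat_lit 14208884933, nat_lit 14208884933,
   nat_lit 14171136197, nat_lit 14160650425, nat_lit 14779179137, nat_lit 14776967297, nat_lit 4,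
   nat_lit 12, nat_lit 14208884933, nat_lit 14208884933, nat_lit 14208884933,
   nat_lit 14171136197, nat_lit 14160650425, nat_lit 5217738845, nat_lit 5218534605,
   nat_lit 5218501809, nat_lit 20, nat_lit 0, nat_lit 5112988881, nat_lit 5112988881, nat_lit 8,
   nat_lit 5115502729, nat_lit 5115502729, nat_lit 4, nat_lit 12, nat_lit 4545208517,
   nat_lit 4545208517, nat_lit 4545208517, nat_lit 4507459781, nat_lit 4496974009, nat_lit 0,
   nat_lit 14776665297, nat_lit 14776665297, nat_lit 8, nat_lit 14779179145, nat_lit 14779179145,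
   nat_lit 4, nat_lit 14278353101, nat_lit 12, nat_lit 14280450233, nat_lit 14208884933,
   nat_lit 14280450233, nat_lit 14208884933, nat_lit 14280450233, nat_lit 14208884933,
   nat_lit 14171136197, nat_lit 14160650425, nat_lit 0, nat_lit 14776665297, nat_lit 14776665297,
   nat_lit 14776665297, nat_lit 14776665297, nat_lit 8, nat_lit 14779179145, nat_lit 14779179145,
   nat_lit 4, nat_lit 12, nat_lit 14208884933, nat_lit 14208884933, nat_lit 14208884933,
   nat_lit 14171136197, nat_lit 14160650425, nat_lit 8, nat_lit 14779179145, nat_lit 14280056937,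
   nat_lit 14779179145, nat_lit 14280056937, nat_lit 4, nat_lit 12, nat_lit 14208884933,
   nat_lit 14208884933, nat_lit 14208884933, nat_lit 14171136197, nat_lit 14160650425, nat_lit 4,
   nat_lit 12, nat_lit 14208884933, nat_lit 14208884933, nat_lit 14208884933,
   nat_lit 14171136197, nat_lit 14160650425, nat_lit 14776566993, nat_lit 14776566997, nat_lit 0,
   nat_lit 14776665297, nat_lit 14776665297, nat_lit 8, nat_lit 14779179145, nat_lit 14779179145,
   nat_lit 4, nat_lit 5182742737, nat_lit 12, nat_lit 14208884933, nat_lit 14208884933,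
   nat_lit 14208884933, nat_lit 14208884933, nat_lit 14208884933, nat_lit 14208884933,
   nat_lit 14171136197, nat_lit 14160650425, nat_lit 0, nat_lit 14776665297, nat_lit 5217846473,
   nat_lit 14776665297, nat_lit 5217846473, nat_lit 8, nat_lit 14779179145, nat_lit 14779179145,
   nat_lit 4, nat_lit 12, nat_lit 14208884933, nat_lit 14208884933, nat_lit 14208884933,
   nat_lit 14171136197, nat_lit 14160650425, nat_lit 8, nat_lit 14779179145, nat_lit 14779179145,
   nat_lit 14779179145, nat_lit 14779179145, nat_lit 5218148445, nat_lit 4, nat_lit 12,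
   nat_lit 14208884933, nat_lit 14208884933, nat_lit 14208884933, nat_lit 14171136197,
   nat_lit 14160650425, nat_lit 5217748169, nat_lit 5217748169, nat_lit 20, nat_lit 0,
   nat_lit 14776665297, nat_lit 14776665297, nat_lit 8, nat_lit 14779179145, nat_lit 14779179145,
   nat_lit 4, nat_lit 12, nat_lit 14208884933, nat_lit 14208884933, nat_lit 14208884933,
   nat_lit 14171136197, nat_lit 14160650425, nat_lit 14776566993, nat_lit 14776566997, nat_lit 0,
   nat_lit 5217846469, nat_lit 5217846469, nat_lit 8, nat_lit 14779179145, nat_lit 14779179145,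
   nat_lit 4, nat_lit 12, nat_lit 14208884933, nat_lit 14208884933, nat_lit 14208884933,
   nat_lit 14171136197, nat_lit 14160650425, nat_lit 5217748165, nat_lit 5217748165,
   nat_lit 4546659489, nat_lit 4546659529, nat_lit 4546659525]

theorem c15_16 : chk TT UT (gU 15) (sub 16 3) s15_16 = true := by decide +kernel

end Pool.Agent.H49.PQS
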