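import Pool.Agent.H49.PQS.Tab

/-!
Branching arguments, checked by the kernel.
-/

namespace Pool.Agent.H49.PQS

def s15_19 : List ℕ :=   [nat_lit 16, nat_lit 20, nat_lit 0, nat_lit 14239794385, nat_lit 14239794385, nat_lit 4,
   nat_lit 8, nat_lit 12, nat_lit 3270025405, nat_lit 8, nat_lit 12, nat_lit 3270140093,
   nat_lit 887488574, nat_lit 14162370765, nat_lit 8, nat_lit 12, nat_lit 3270140093, nat_lit 12,
   nat_lit 3270140093, nat_lit 3270140093, nat_lit 887488574, nat_lit 14160650425, nat_lit 8,
   nat_lit 14202331333, nat_lit 14202331333, nat_lit 12, nat_lit 14703812793,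
   nat_lit 14703812793, nat_lit 3337248957, nat_lit 14168776901, nat_lit 14160650425,
   nat_lit 14239696081, nat_lit 14239696085, nat_lit 20, nat_lit 0, nat_lit 4,
   nat_lit 4536173729, nat_lit 4536173769, nat_lit 4536173765, nat_lit 283394110,
   nat_lit 3261105317, nat_lit 4, nat_lit 8, nat_lit 4538893489, nat_lit 14229741753, nat_lit 12,
   nat_lit 3270018237, nat_lit 4534699185, nat_lit 14229479609, nat_lit 8, nat_lit 4540728497,
   nat_lit 14229856441, nat_lit 12, nat_lit 3270018237, nat_lit 283394110, nat_lit 14162370765,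
   nat_lit 14227759309, nat_lit 14227759309, nat_lit 8, nat_lit 4540728497, nat_lit 14229856441,
   nat_lit 12, nat_lit 3270018237, nat_lit 4540728497, nat_lit 14229856441, nat_lit 12,
   nat_lit 3270132925, nat_lit 3270132925, nat_lit 283394110, nat_lit 14160650425,
   nat_lit 14227628237, nat_lit 0, nat_lit 4, nat_lit 8, nat_lit 14229734585, nat_lit 12,
   nat_lit 3270018237, nat_lit 14229472441, nat_lit 8, nat_lit 14229849273, nat_lit 12,
   nat_lit 3270018237, nat_lit 283394110, nat_lit 14162363597, nat_lit 14227752141, nat_lit 8,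
   nat_lit 14229849273, nat_lit 12, nat_lit 3270018237, nat_lit 14229849273, nat_lit 12,
   nat_lit 3268060285, nat_lit 3232670853, nat_lit 283394110, nat_lit 14160643257, nat_lit 4,
   nat_lit 14199850181, nat_lit 14199850181, nat_lit 283394110, nat_lit 14162363597,
   nat_lit 14780859561, nat_lit 4, nat_lit 8, nat_lit 14229741753, nat_lit 12,
   nat_lit 3270018237, nat_lit 14229479609, nat_lit 8, nat_lit 14229856441, nat_lit 12,
   nat_lit 3270018237, nat_lit 283394110, nat_lit 14162370765, nat_lit 14227759309, nat_lit 8,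
   nat_lit 14229856441, nat_lit 12, nat_lit 3270018237, nat_lit 14229856441, nat_lit 12,
   nat_lit 3270132925, nat_lit 3270132925, nat_lit 283394110, nat_lit 14160650425,
   nat_lit 14780859561, nat_lit 14780752041, nat_lit 4, nat_lit 8, nat_lit 14229741753,
   nat_lit 12, nat_lit 3270018237, nat_lit 14229479609, nat_lit 8, nat_lit 14229856441,
   nat_lit 12, nat_lit 3270018237, nat_lit 283508798, nat_lit 14162370765, nat_lit 14227759309,
   nat_lit 8, nat_lit 14229856441, nat_lit 12, nat_lit 3270018237, nat_lit 14229856441,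
   nat_lit 12, nat_lit 3270132925, nat_lit 3270132925, nat_lit 283508798, nat_lit 14160650425,
   nat_lit 14227759309, nat_lit 8, nat_lit 14202331333, nat_lit 14202331333, nat_lit 14202331333,
   nat_lit 14202331333, nat_lit 14234050745, nat_lit 12, nat_lit 14703812793,
   nat_lit 14703812793, nat_lit 3232670853, nat_lit 14168776901, nat_lit 14160650425, nat_lit 0,
   nat_lit 4, nat_lit 8, nat_lit 12, nat_lit 3270018237, nat_lit 8, nat_lit 12,
   nat_lit 3270018237, nat_lit 283394110, nat_lit 14162363597, nat_lit 8, nat_lit 12,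
   nat_lit 3270018237, nat_lit 12, nat_lit 3268060285, nat_lit 3232670853, nat_lit 283394110,
   nat_lit 14160643257, nat_lit 4, nat_lit 14199850181, nat_lit 283394110, nat_lit 14162363597,
   nat_lit 14780859565, nat_lit 14780859549, nat_lit 4, nat_lit 8, nat_lit 12,
   nat_lit 3270018237, nat_lit 8, nat_lit 12, nat_lit 3270018237, nat_lit 283394110,
   nat_lit 14162370765, nat_lit 8, nat_lit 12, nat_lit 3270018237, nat_lit 12,
   nat_lit 3270132925, nat_lit 3270132925, nat_lit 283394110, nat_lit 14160650425,
   nat_lit 14780859565, nat_lit 14780859549, nat_lit 14780752045, nat_lit 4, nat_lit 8,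
   nat_lit 12, nat_lit 3270018237, nat_lit 8, nat_lit 12, nat_lit 3270018237, nat_lit 283508798,
   nat_lit 14162370765, nat_lit 8, nat_lit 12, nat_lit 3270018237, nat_lit 12,
   nat_lit 3270132925, nat_lit 3270132925, nat_lit 283508798, nat_lit 14160650425, nat_lit 8,
   nat_lit 14202331333, nat_lit 14202331333, nat_lit 12, nat_lit 14703812793,
   nat_lit 14703812793, nat_lit 3232670853, nat_lit 14168776901, nat_lit 14160650425,
   nat_lit 14781538425, nat_lit 14780761245, nat_lit 14780761245, nat_lit 20, nat_lit 0,
   nat_lit 14780859601, nat_lit 14780859601, nat_lit 4, nat_lit 8, nat_lit 14229741753,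
   nat_lit 12, nat_lit 3270018237, nat_lit 14229479609, nat_lit 8, nat_lit 14229856441,
   nat_lit 12, nat_lit 3270018237, nat_lit 283508798, nat_lit 14162370765, nat_lit 14227759309,
   nat_lit 8, nat_lit 14229856441, nat_lit 12, nat_lit 3270018237, nat_lit 14229856441,
   nat_lit 12, nat_lit 3270132925, nat_lit 3270132925, nat_lit 283508798, nat_lit 14160650425,
   nat_lit 14227759309, nat_lit 8, nat_lit 14202331333, nat_lit 14202331333, nat_lit 14202331333,
   nat_lit 14202331333, nat_lit 14234050745, nat_lit 12, nat_lit 14703812793,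
   nat_lit 14703812793, nat_lit 3232670853, nat_lit 14168776901, nat_lit 14160650425, nat_lit 0,
   nat_lit 14780859605, nat_lit 14776665297, nat_lit 14780859605, nat_lit 14776665297, nat_lit 4,
   nat_lit 8, nat_lit 12, nat_lit 3270018237, nat_lit 8, nat_lit 12, nat_lit 3270018237,
   nat_lit 283508798, nat_lit 14162370765, nat_lit 8, nat_lit 12, nat_lit 3270018237, nat_lit 12,
   nat_lit 3270132925, nat_lit 3270132925, nat_lit 283508798, nat_lit 14160650425, nat_lit 8,
   nat_lit 14202331333, nat_lit 14202331333, nat_lit 12, nat_lit 14703812793,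
   nat_lit 14703812793, nat_lit 3232670853, nat_lit 14168776901, nat_lit 14160650425, nat_lit 4,
   nat_lit 8, nat_lit 12, nat_lit 3270025405, nat_lit 8, nat_lit 12, nat_lit 3270140093,
   nat_lit 887488574, nat_lit 14162370765, nat_lit 8, nat_lit 12, nat_lit 3270140093, nat_lit 12,
   nat_lit 3270140093, nat_lit 3270140093, nat_lit 887488574, nat_lit 14160650425, nat_lit 8,
   nat_lit 14202331333, nat_lit 14202331333, nat_lit 12, nat_lit 14703812793,
   nat_lit 14703812793, nat_lit 3337248957, nat_lit 14168776901, nat_lit 14160650425,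
   nat_lit 14776566993, nat_lit 14776566997, nat_lit 20, nat_lit 0, nat_lit 14776665297,
   nat_lit 14776665297, nat_lit 4, nat_lit 8, nat_lit 12, nat_lit 3270025405, nat_lit 8,
   nat_lit 12, nat_lit 3270140093, nat_lit 887488574, nat_lit 14162370765, nat_lit 8, nat_lit 12,
   nat_lit 3270140093, nat_lit 12, nat_lit 3270140093, nat_lit 3270140093, nat_lit 887488574,
   nat_lit 14160650425, nat_lit 8, nat_lit 14202331333, nat_lit 14202331333, nat_lit 12,
   nat_lit 14703812793, nat_lit 14703812793, nat_lit 3337248957, nat_lit 14168776901,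
   nat_lit 14160650425, nat_lit 14776566993, nat_lit 14776566997, nat_lit 20, nat_lit 0,
   nat_lit 4, nat_lit 8, nat_lit 12, nat_lit 3270018237, nat_lit 8, nat_lit 12,
   nat_lit 3270132925, nat_lit 283394110, nat_lit 4498687181, nat_lit 8, nat_lit 12,
   nat_lit 3270132925, nat_lit 12, nat_lit 3268060285, nat_lit 3232670853, nat_lit 283394110,
   nat_lit 4496966841, nat_lit 4, nat_lit 4536173765, nat_lit 283394110, nat_lit 3261105317,
   nat_lit 5112988841, nat_lit 4, nat_lit 8, nat_lit 12, nat_lit 3270025405, nat_lit 8,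
   nat_lit 12, nat_lit 3270140093, nat_lit 283394110, nat_lit 4498694349, nat_lit 8, nat_lit 12,
   nat_lit 3270140093, nat_lit 12, nat_lit 3270140093, nat_lit 3270140093, nat_lit 283394110,
   nat_lit 4496974009, nat_lit 5112988841, nat_lit 5112881321, nat_lit 4, nat_lit 8, nat_lit 12,
   nat_lit 3270025405, nat_lit 8, nat_lit 12, nat_lit 3270140093, nat_lit 283508798,
   nat_lit 4498694349, nat_lit 8, nat_lit 12, nat_lit 3270140093, nat_lit 12, nat_lit 3270140093,
   nat_lit 3270140093, nat_lit 283508798, nat_lit 4496974009, nat_lit 8, nat_lit 4538654917,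
   nat_lit 4538654917, nat_lit 12, nat_lit 5040136377, nat_lit 5040136377, nat_lit 3337248957,
   nat_lit 4505100485, nat_lit 4496974009, nat_lit 0, nat_lit 14277543005, nat_lit 14277543005,
   nat_lit 14278222029, nat_lit 0, nat_lit 4, nat_lit 8, nat_lit 14278362317, nat_lit 12,
   nat_lit 3270018237, nat_lit 14278345933, nat_lit 8, nat_lit 14280180921, nat_lit 12,
   nat_lit 3270132925, nat_lit 283394110, nat_lit 14162363597, nat_lit 14278345933, nat_lit 8,
   nat_lit 14280180921, nat_lit 12, nat_lit 3270132925, nat_lit 14280180921, nat_lit 12,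
   nat_lit 3268060285, nat_lit 3232670853, nat_lit 283394110, nat_lit 14160643257, nat_lit 4,
   nat_lit 14278353101, nat_lit 14199850181, nat_lit 283394110, nat_lit 14162363597,
   nat_lit 14776665257, nat_lit 4, nat_lit 8, nat_lit 14278369485, nat_lit 12,
   nat_lit 3270025405, nat_lit 14278353101, nat_lit 8, nat_lit 14280188089, nat_lit 12,
   nat_lit 3270140093, nat_lit 283394110, nat_lit 14162370765, nat_lit 14278353101, nat_lit 8,
   nat_lit 14280188089, nat_lit 12, nat_lit 3270140093, nat_lit 14280188089, nat_lit 12,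
   nat_lit 3270140093, nat_lit 3270140093, nat_lit 283394110, nat_lit 14160650425,
   nat_lit 14776665257, nat_lit 14776557737, nat_lit 4, nat_lit 8, nat_lit 14278369485,
   nat_lit 12, nat_lit 3270025405, nat_lit 14278353101, nat_lit 8, nat_lit 14280188089,
   nat_lit 12, nat_lit 3270140093, nat_lit 283508798, nat_lit 14162370765, nat_lit 14278353101,
   nat_lit 8, nat_lit 14280188089, nat_lit 12, nat_lit 3270140093, nat_lit 14280188089,
   nat_lit 12, nat_lit 3270140093, nat_lit 3270140093, nat_lit 283508798, nat_lit 14160650425,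
   nat_lit 14278353101, nat_lit 8, nat_lit 14280188089, nat_lit 14202331333, nat_lit 14280188089,
   nat_lit 14202331333, nat_lit 14280188089, nat_lit 12, nat_lit 14703812793,
   nat_lit 14703812793, nat_lit 3337248957, nat_lit 14168776901, nat_lit 14160650425, nat_lit 0,
   nat_lit 4, nat_lit 8, nat_lit 12, nat_lit 3270018237, nat_lit 8, nat_lit 12,
   nat_lit 3270132925, nat_lit 283394110, nat_lit 14162363597, nat_lit 8, nat_lit 12,
   nat_lit 3270132925, nat_lit 12, nat_lit 3268060285, nat_lit 3232670853, nat_lit 283394110,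
   nat_lit 14160643257, nat_lit 4, nat_lit 14199850181, nat_lit 283394110, nat_lit 14162363597,
   nat_lit 14776665257, nat_lit 14776665257, nat_lit 4, nat_lit 8, nat_lit 12,
   nat_lit 3270025405, nat_lit 8, nat_lit 12, nat_lit 3270140093, nat_lit 283394110,
   nat_lit 14162370765, nat_lit 8, nat_lit 12, nat_lit 3270140093, nat_lit 12,
   nat_lit 3270140093, nat_lit 3270140093, nat_lit 283394110, nat_lit 14160650425,
   nat_lit 14776665257, nat_lit 14776665257, nat_lit 14776557737, nat_lit 4, nat_lit 8,
   nat_lit 12, nat_lit 3270025405, nat_lit 8, nat_lit 12, nat_lit 3270140093, nat_lit 283508798,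
   nat_lit 14162370765, nat_lit 8, nat_lit 12, nat_lit 3270140093, nat_lit 12,
   nat_lit 3270140093, nat_lit 3270140093, nat_lit 283508798, nat_lit 14160650425, nat_lit 8,
   nat_lit 14202331333, nat_lit 14202331333, nat_lit 12, nat_lit 14703812793,
   nat_lit 14703812793, nat_lit 3337248957, nat_lit 14168776901, nat_lit 14160650425, nat_lit 4,
   nat_lit 8, nat_lit 12, nat_lit 3270025405, nat_lit 8, nat_lit 12, nat_lit 3270140093,
   nat_lit 887488574, nat_lit 14162370765, nat_lit 8, nat_lit 12, nat_lit 3270140093, nat_lit 12,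
   nat_lit 3270140093, nat_lit 3270140093, nat_lit 887488574, nat_lit 14160650425, nat_lit 8,
   nat_lit 14202331333, nat_lit 14202331333, nat_lit 12, nat_lit 14703812793,
   nat_lit 14703812793, nat_lit 3337248957, nat_lit 14168776901, nat_lit 14160650425,
   nat_lit 14776566953, nat_lit 14776566957, nat_lit 0, nat_lit 4, nat_lit 5220205665,
   nat_lit 4536173769, nat_lit 4536173765, nat_lit 283394110, nat_lit 3261105317, nat_lit 4,
   nat_lit 8, nat_lit 5220467809, nat_lit 5180137681, nat_lit 12, nat_lit 3270025405,
   nat_lit 5220205665, nat_lit 5180121297, nat_lit 8, nat_lit 5220467809, nat_lit 5180137681,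
   nat_lit 12, nat_lit 3270140093, nat_lit 283394110, nat_lit 14162370765, nat_lit 5220205665,
   nat_lit 5180121297, nat_lit 8, nat_lit 5220467809, nat_lit 5180137681, nat_lit 12,
   nat_lit 3270140093, nat_lit 5220467809, nat_lit 5180137681, nat_lit 12, nat_lit 3270140093,
   nat_lit 3270140093, nat_lit 283394110, nat_lit 14160650425, nat_lit 5179990225, nat_lit 0,
   nat_lit 4, nat_lit 8, nat_lit 5180130513, nat_lit 12, nat_lit 3270018237, nat_lit 5180114129,
   nat_lit 8, nat_lit 5180130513, nat_lit 12, nat_lit 3270132925, nat_lit 887373886,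
   nat_lit 14162363597, nat_lit 5180114129, nat_lit 8, nat_lit 5180130513, nat_lit 12,
   nat_lit 3270132925, nat_lit 5180130513, nat_lit 12, nat_lit 3268060285, nat_lit 3232670853,
   nat_lit 887373886, nat_lit 14160643257, nat_lit 4, nat_lit 14199850181, nat_lit 14199850181,
   nat_lit 887373886, nat_lit 14162363597, nat_lit 14776665257, nat_lit 4, nat_lit 8,
   nat_lit 5180137681, nat_lit 12, nat_lit 3270025405, nat_lit 5180121297, nat_lit 8,
   nat_lit 5180137681, nat_lit 12, nat_lit 3270140093, nat_lit 887373886, nat_lit 14162370765,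
   nat_lit 5180121297, nat_lit 8, nat_lit 5180137681, nat_lit 12, nat_lit 3270140093,
   nat_lit 5180137681, nat_lit 12, nat_lit 3270140093, nat_lit 3270140093, nat_lit 887373886,
   nat_lit 14160650425, nat_lit 14776665257, nat_lit 14776557737, nat_lit 4, nat_lit 8,
   nat_lit 5180137681, nat_lit 12, nat_lit 3270025405, nat_lit 5180121297, nat_lit 8,
   nat_lit 5180137681, nat_lit 12, nat_lit 3270140093, nat_lit 887488574, nat_lit 14162370765,
   nat_lit 5180121297, nat_lit 8, nat_lit 5180137681, nat_lit 12, nat_lit 3270140093,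
   nat_lit 5180137681, nat_lit 12, nat_lit 3270140093, nat_lit 3270140093, nat_lit 887488574,
   nat_lit 14160650425, nat_lit 5180383441, nat_lit 8, nat_lit 14202331333, nat_lit 14202331333,
   nat_lit 14202331333, nat_lit 14202331333, nat_lit 5180399825, nat_lit 12, nat_lit 14703812793,
   nat_lit 14703812793, nat_lit 3337248957, nat_lit 14168776901, nat_lit 14160650425, nat_lit 0,
   nat_lit 4, nat_lit 8, nat_lit 12, nat_lit 3270018237, nat_lit 8, nat_lit 12,
   nat_lit 3270132925, nat_lit 887373886, nat_lit 14162363597, nat_lit 8, nat_lit 12,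
   nat_lit 3270132925, nat_lit 12, nat_lit 3268060285, nat_lit 3232670853, nat_lit 887373886,
   nat_lit 14160643257, nat_lit 4, nat_lit 14199850181, nat_lit 887373886, nat_lit 14162363597,
   nat_lit 14776665257, nat_lit 5218632909, nat_lit 4, nat_lit 8, nat_lit 12, nat_lit 3270025405,
   nat_lit 8, nat_lit 12, nat_lit 3270140093, nat_lit 887373886, nat_lit 14162370765, nat_lit 8,
   nat_lit 12, nat_lit 3270140093, nat_lit 12, nat_lit 3270140093, nat_lit 3270140093,
   nat_lit 887373886, nat_lit 14160650425, nat_lit 14776665257, nat_lit 5218632909,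
   nat_lit 14776557737, nat_lit 4, nat_lit 8, nat_lit 12, nat_lit 3270025405, nat_lit 8,
   nat_lit 12, nat_lit 3270140093, nat_lit 887488574, nat_lit 14162370765, nat_lit 8, nat_lit 12,
   nat_lit 3270140093, nat_lit 12, nat_lit 3270140093, nat_lit 3270140093, nat_lit 887488574,
   nat_lit 14160650425, nat_lit 8, nat_lit 14202331333, nat_lit 14202331333, nat_lit 12,
   nat_lit 14703812793, nat_lit 14703812793, nat_lit 3337248957, nat_lit 14168776901,
   nat_lit 14160650425, nat_lit 5217738845, nat_lit 5218534605, nat_lit 5218501809, nat_lit 20,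
   nat_lit 0, nat_lit 5112988881, nat_lit 5112988881, nat_lit 4, nat_lit 8, nat_lit 12,
   nat_lit 3270025405, nat_lit 8, nat_lit 12, nat_lit 3270140093, nat_lit 283508798,
   nat_lit 4498694349, nat_lit 8, nat_lit 12, nat_lit 3270140093, nat_lit 12, nat_lit 3270140093,
   nat_lit 3270140093, nat_lit 283508798, nat_lit 4496974009, nat_lit 8, nat_lit 4538654917,
   nat_lit 4538654917, nat_lit 12, nat_lit 5040136377, nat_lit 5040136377, nat_lit 3337248957,
   nat_lit 4505100485, nat_lit 4496974009, nat_lit 0, nat_lit 14776665297, nat_lit 14776665297,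
   nat_lit 4, nat_lit 8, nat_lit 14278369485, nat_lit 12, nat_lit 3270025405,
   nat_lit 14278353101, nat_lit 8, nat_lit 14280188089, nat_lit 12, nat_lit 3270140093,
   nat_lit 283508798, nat_lit 14162370765, nat_lit 14278353101, nat_lit 8, nat_lit 14280188089,
   nat_lit 12, nat_lit 3270140093, nat_lit 14280188089, nat_lit 12, nat_lit 3270140093,
   nat_lit 3270140093, nat_lit 283508798, nat_lit 14160650425, nat_lit 14278353101, nat_lit 8,
   nat_lit 14280188089, nat_lit 14202331333, nat_lit 14280188089, nat_lit 14202331333,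
   nat_lit 14280188089, nat_lit 12, nat_lit 14703812793, nat_lit 14703812793, nat_lit 3337248957,
   nat_lit 14168776901, nat_lit 14160650425, nat_lit 0, nat_lit 14776665297, nat_lit 14776665297,
   nat_lit 14776665297, nat_lit 14776665297, nat_lit 4, nat_lit 8, nat_lit 12,
   nat_lit 3270025405, nat_lit 8, nat_lit 12, nat_lit 3270140093, nat_lit 283508798,
   nat_lit 14162370765, nat_lit 8, nat_lit 12, nat_lit 3270140093, nat_lit 12,
   nat_lit 3270140093, nat_lit 3270140093, nat_lit 283508798, nat_lit 14160650425, nat_lit 8,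
   nat_lit 14202331333, nat_lit 14202331333, nat_lit 12, nat_lit 14703812793,
   nat_lit 14703812793, nat_lit 3337248957, nat_lit 14168776901, nat_lit 14160650425, nat_lit 4,
   nat_lit 8, nat_lit 12, nat_lit 3270025405, nat_lit 8, nat_lit 12, nat_lit 3270140093,
   nat_lit 887488574, nat_lit 14162370765, nat_lit 8, nat_lit 12, nat_lit 3270140093, nat_lit 12,
   nat_lit 3270140093, nat_lit 3270140093, nat_lit 887488574, nat_lit 14160650425, nat_lit 8,
   nat_lit 14202331333, nat_lit 14202331333, nat_lit 12, nat_lit 14703812793,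
   nat_lit 14703812793, nat_lit 3337248957, nat_lit 14168776901, nat_lit 14160650425,
   nat_lit 14776566993, nat_lit 14776566997, nat_lit 0, nat_lit 14776665297, nat_lit 14776665297,
   nat_lit 4, nat_lit 8, nat_lit 5180137681, nat_lit 12, nat_lit 3270025405, nat_lit 5180121297,
   nat_lit 8, nat_lit 5180137681, nat_lit 12, nat_lit 3270140093, nat_lit 887488574,
   nat_lit 14162370765, nat_lit 5180121297, nat_lit 8, nat_lit 5180137681, nat_lit 12,
   nat_lit 3270140093, nat_lit 5180137681, nat_lit 12, nat_lit 3270140093, nat_lit 3270140093,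
   nat_lit 887488574, nat_lit 14160650425, nat_lit 5180383441, nat_lit 8, nat_lit 14202331333,
   nat_lit 14202331333, nat_lit 14202331333, nat_lit 14202331333, nat_lit 5180399825, nat_lit 12,
   nat_lit 14703812793, nat_lit 14703812793, nat_lit 3337248957, nat_lit 14168776901,
   nat_lit 14160650425, nat_lit 0, nat_lit 14776665297, nat_lit 5217846473, nat_lit 14776665297,
   nat_lit 5217846473, nat_lit 4, nat_lit 8, nat_lit 12, nat_lit 3270025405, nat_lit 8,
   nat_lit 12, nat_lit 3270140093, nat_lit 887488574, nat_lit 14162370765, nat_lit 8, nat_lit 12,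
   nat_lit 3270140093, nat_lit 12, nat_lit 3270140093, nat_lit 3270140093, nat_lit 887488574,
   nat_lit 14160650425, nat_lit 8, nat_lit 14202331333, nat_lit 14202331333, nat_lit 12,
   nat_lit 14703812793, nat_lit 14703812793, nat_lit 3337248957, nat_lit 14168776901,
   nat_lit 14160650425, nat_lit 4, nat_lit 8, nat_lit 12, nat_lit 3270018237, nat_lit 8,
   nat_lit 12, nat_lit 3270018237, nat_lit 887488574, nat_lit 14162370765, nat_lit 8, nat_lit 12,
   nat_lit 3270018237, nat_lit 12, nat_lit 3270132925, nat_lit 3270132925, nat_lit 887488574,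
   nat_lit 14160650425, nat_lit 8, nat_lit 14202331333, nat_lit 14202331333, nat_lit 12,
   nat_lit 14703812793, nat_lit 14703812793, nat_lit 3232670853, nat_lit 14168776901,
   nat_lit 14160650425, nat_lit 5217748169, nat_lit 5217748169, nat_lit 20, nat_lit 0,
   nat_lit 14776665297, nat_lit 14776665297, nat_lit 4, nat_lit 8, nat_lit 12,
   nat_lit 3270025405, nat_lit 8, nat_lit 12, nat_lit 3270140093, nat_lit 887488574,
   nat_lit 14162370765, nat_lit 8, nat_lit 12, nat_lit 3270140093, nat_lit 12,
   nat_lit 3270140093, nat_lit 3270140093, nat_lit 887488574, nat_lit 14160650425, nat_lit 8,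
   nat_lit 14202331333, nat_lit 14202331333, nat_lit 12, nat_lit 14703812793,
   nat_lit 14703812793, nat_lit 3337248957, nat_lit 14168776901, nat_lit 14160650425,
   nat_lit 14776566993, nat_lit 14776566997, nat_lit 0, nat_lit 5217846469, nat_lit 5217846469,
   nat_lit 4, nat_lit 8, nat_lit 12, nat_lit 3270025405, nat_lit 8, nat_lit 12,
   nat_lit 3270140093, nat_lit 887488574, nat_lit 14162370765, nat_lit 8, nat_lit 12,
   nat_lit 3270140093, nat_lit 12, nat_lit 3270140093, nat_lit 3270140093, nat_lit 887488574,
   nat_lit 14160650425, nat_lit 8, nat_lit 14202331333, nat_lit 14202331333, nat_lit 12,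
   nat_lit 14703812793, nat_lit 14703812793, nat_lit 3337248957, nat_lit 14168776901,
   nat_lit 14160650425, nat_lit 5217748165, nat_lit 5217748165, nat_lit 4546659489,
   nat_lit 4546659529, nat_lit 4546659525, nat_lit 20, nat_lit 24, nat_lit 12,
   nat_lit 15313585361, nat_lit 15313585361, nat_lit 0, nat_lit 4, nat_lit 8, nat_lit 3232391301,
   nat_lit 16, nat_lit 3272269957, nat_lit 15236902093, nat_lit 3232948349, nat_lit 15234444473,
   nat_lit 15242570949, nat_lit 15234444473, nat_lit 16, nat_lit 15236902093,
   nat_lit 15234444473, nat_lit 15234444473, nat_lit 15313437905, nat_lit 15313437909,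
   nat_lit 24, nat_lit 12, nat_lit 16, nat_lit 4549543073, nat_lit 4549543113,
   nat_lit 4549543109, nat_lit 284180542, nat_lit 3274474661, nat_lit 16, nat_lit 0, nat_lit 4,
   nat_lit 8, nat_lit 4306412709, nat_lit 4, nat_lit 8, nat_lit 4306412709, nat_lit 4306371749,
   nat_lit 4, nat_lit 8, nat_lit 4545208421, nat_lit 4545208421, nat_lit 4003857561,
   nat_lit 4544922817, nat_lit 8, nat_lit 4003857597, nat_lit 4306264229, nat_lit 4, nat_lit 8,
   nat_lit 4306404517, nat_lit 8, nat_lit 4306412709, nat_lit 4306412709, nat_lit 4306388133,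
   nat_lit 4306265253, nat_lit 8, nat_lit 4306412709, nat_lit 4306412709, nat_lit 4, nat_lit 8,
   nat_lit 4545077349, nat_lit 3232260229, nat_lit 8, nat_lit 4545208421, nat_lit 4545208421,
   nat_lit 3232260229, nat_lit 4544815205, nat_lit 3231998085, nat_lit 4542849125, nat_lit 8,
   nat_lit 4545208421, nat_lit 3232260229, nat_lit 4545208421, nat_lit 3232391301, nat_lit 8,
   nat_lit 3232260229, nat_lit 3232391301, nat_lit 4547331249, nat_lit 15304010937, nat_lit 0,
   nat_lit 4, nat_lit 8, nat_lit 4348355749, nat_lit 4, nat_lit 8, nat_lit 4348355749,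
   nat_lit 4348314789, nat_lit 4, nat_lit 8, nat_lit 5149188197, nat_lit 5149188197,
   nat_lit 13667533977, nat_lit 5148902593, nat_lit 8, nat_lit 13667534013, nat_lit 4348207269,
   nat_lit 4, nat_lit 8, nat_lit 4348347557, nat_lit 8, nat_lit 4348355749, nat_lit 4348355749,
   nat_lit 4348331173, nat_lit 4348208293, nat_lit 8, nat_lit 4348355749, nat_lit 4348355749,
   nat_lit 4, nat_lit 8, nat_lit 5149057125, nat_lit 3232260229, nat_lit 8, nat_lit 5149188197,
   nat_lit 5149188197, nat_lit 3232260229, nat_lit 5148794981, nat_lit 3231998085,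
   nat_lit 5146828901, nat_lit 8, nat_lit 5149188197, nat_lit 3232260229, nat_lit 5149188197,
   nat_lit 3232391301, nat_lit 8, nat_lit 3232260229, nat_lit 3232391301, nat_lit 284180542,
   nat_lit 15236902093, nat_lit 15301553357, nat_lit 15301553357, nat_lit 0, nat_lit 4,
   nat_lit 8, nat_lit 4348355749, nat_lit 4, nat_lit 8, nat_lit 4348355749, nat_lit 4348314789,
   nat_lit 4, nat_lit 8, nat_lit 5149188197, nat_lit 5149188197, nat_lit 13667533977,
   nat_lit 5148902593, nat_lit 8, nat_lit 13667534013, nat_lit 4348207269, nat_lit 4, nat_lit 8,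
   nat_lit 4348347557, nat_lit 8, nat_lit 4348355749, nat_lit 4348355749, nat_lit 4348331173,
   nat_lit 4348208293, nat_lit 8, nat_lit 4348355749, nat_lit 4348355749, nat_lit 4, nat_lit 8,
   nat_lit 5149057125, nat_lit 3232260229, nat_lit 8, nat_lit 5149188197, nat_lit 5149188197,
   nat_lit 3232260229, nat_lit 5148794981, nat_lit 3231998085, nat_lit 5146828901, nat_lit 8,
   nat_lit 5149188197, nat_lit 3232260229, nat_lit 5149188197, nat_lit 3232391301, nat_lit 8,
   nat_lit 3232260229, nat_lit 3232391301, nat_lit 284180542, nat_lit 15234444473,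
   nat_lit 15301373133, nat_lit 12, nat_lit 16, nat_lit 0, nat_lit 4, nat_lit 8,
   nat_lit 4306133121, nat_lit 4, nat_lit 8, nat_lit 4503265381, nat_lit 3232391301, nat_lit 8,
   nat_lit 3232391301, nat_lit 15304000697, nat_lit 0, nat_lit 4, nat_lit 8, nat_lit 4348076161,
   nat_lit 4, nat_lit 8, nat_lit 5107245157, nat_lit 3274334341, nat_lit 8, nat_lit 3274334341,
   nat_lit 284180542, nat_lit 15236891853, nat_lit 15301543117, nat_lit 0, nat_lit 4, nat_lit 8,
   nat_lit 4348076161, nat_lit 4, nat_lit 8, nat_lit 5107245157, nat_lit 3274334341, nat_lit 8,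
   nat_lit 3274334341, nat_lit 284180542, nat_lit 15234434233, nat_lit 16, nat_lit 15286961349,
   nat_lit 15286961349, nat_lit 284180542, nat_lit 15236891853, nat_lit 15921759401, nat_lit 16,
   nat_lit 0, nat_lit 15301477581, nat_lit 4, nat_lit 15349449913, nat_lit 8, nat_lit 3265660093,
   nat_lit 4, nat_lit 15301493965, nat_lit 8, nat_lit 4306412709, nat_lit 4306412709, nat_lit 4,
   nat_lit 4544815205, nat_lit 3231998085, nat_lit 8, nat_lit 4545208421, nat_lit 3232260229,
   nat_lit 4545208421, nat_lit 3232391301, nat_lit 8, nat_lit 3232260229, nat_lit 3232391301,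
   nat_lit 15304010937, nat_lit 0, nat_lit 15304099021, nat_lit 4, nat_lit 15349449913,
   nat_lit 8, nat_lit 13667534013, nat_lit 4, nat_lit 15304115405, nat_lit 8, nat_lit 4348355749,
   nat_lit 4348355749, nat_lit 4, nat_lit 5148794981, nat_lit 3231998085, nat_lit 8,
   nat_lit 5149188197, nat_lit 3232260229, nat_lit 5149188197, nat_lit 3232391301, nat_lit 8,
   nat_lit 3232260229, nat_lit 3232391301, nat_lit 284180542, nat_lit 15236902093,
   nat_lit 15301553357, nat_lit 0, nat_lit 15304099021, nat_lit 4, nat_lit 15349449913,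
   nat_lit 8, nat_lit 13667534013, nat_lit 4, nat_lit 15304115405, nat_lit 8, nat_lit 4348355749,
   nat_lit 4348355749, nat_lit 4, nat_lit 5148794981, nat_lit 3231998085, nat_lit 8,
   nat_lit 5149188197, nat_lit 3232260229, nat_lit 5149188197, nat_lit 3232391301, nat_lit 8,
   nat_lit 3232260229, nat_lit 3232391301, nat_lit 284180542, nat_lit 15234444473,
   nat_lit 15921759401, nat_lit 15921605801, nat_lit 0, nat_lit 4, nat_lit 8, nat_lit 4306412709,
   nat_lit 4, nat_lit 8, nat_lit 4545208421, nat_lit 3232391301, nat_lit 8, nat_lit 3232391301,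
   nat_lit 16, nat_lit 3272106117, nat_lit 4499473613, nat_lit 3232784509, nat_lit 4497015993,
   nat_lit 15242570949, nat_lit 4497026233, nat_lit 16, nat_lit 4499473613, nat_lit 4497015993,
   nat_lit 4497026233, nat_lit 12, nat_lit 0, nat_lit 4, nat_lit 8, nat_lit 3232391301,
   nat_lit 16, nat_lit 3272106117, nat_lit 4499473613, nat_lit 3232784509, nat_lit 4497015993,
   nat_lit 16, nat_lit 4499473613, nat_lit 4497015993, nat_lit 16, nat_lit 15286961349,
   nat_lit 284180542, nat_lit 15236891853, nat_lit 15921759405, nat_lit 15921759389, nat_lit 16,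
   nat_lit 0, nat_lit 4, nat_lit 8, nat_lit 3265660093, nat_lit 4, nat_lit 3231998085, nat_lit 8,
   nat_lit 3232260229, nat_lit 3232391301, nat_lit 0, nat_lit 4, nat_lit 8, nat_lit 13667534013,
   nat_lit 4, nat_lit 3231998085, nat_lit 8, nat_lit 3232260229, nat_lit 3232391301,
   nat_lit 284180542, nat_lit 15236902093, nat_lit 0, nat_lit 4, nat_lit 8, nat_lit 13667534013,
   nat_lit 4, nat_lit 3231998085, nat_lit 8, nat_lit 3232260229, nat_lit 3232391301,
   nat_lit 284180542, nat_lit 15234444473, nat_lit 15921759405, nat_lit 15921759389,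
   nat_lit 15921605805, nat_lit 0, nat_lit 4, nat_lit 8, nat_lit 3232391301, nat_lit 16,
   nat_lit 3272106117, nat_lit 4499473613, nat_lit 3232784509, nat_lit 4497015993,
   nat_lit 15242570949, nat_lit 4497026233, nat_lit 16, nat_lit 4499473613, nat_lit 4497015993,
   nat_lit 4497026233, nat_lit 15922392185, nat_lit 15921611933, nat_lit 15921611933, nat_lit 24,
   nat_lit 12, nat_lit 15921759441, nat_lit 15921759441, nat_lit 0, nat_lit 4, nat_lit 8,
   nat_lit 4306412709, nat_lit 4, nat_lit 8, nat_lit 4545208421, nat_lit 3232391301, nat_lit 8,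
   nat_lit 3232391301, nat_lit 16, nat_lit 3272106117, nat_lit 4499473613, nat_lit 3232784509,
   nat_lit 4497015993, nat_lit 15242570949, nat_lit 4497026233, nat_lit 16, nat_lit 4499473613,
   nat_lit 4497015993, nat_lit 4497026233, nat_lit 12, nat_lit 15921759445, nat_lit 15917565137,
   nat_lit 15921759445, nat_lit 15917565137, nat_lit 0, nat_lit 4, nat_lit 8, nat_lit 3232391301,
   nat_lit 16, nat_lit 3272106117, nat_lit 4499473613, nat_lit 3232784509, nat_lit 4497015993,
   nat_lit 15242570949, nat_lit 4497026233, nat_lit 16, nat_lit 4499473613, nat_lit 4497015993,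
   nat_lit 4497026233, nat_lit 0, nat_lit 4, nat_lit 8, nat_lit 3232391301, nat_lit 16,
   nat_lit 3272269957, nat_lit 15236902093, nat_lit 3232948349, nat_lit 15234444473,
   nat_lit 15242570949, nat_lit 15234444473, nat_lit 16, nat_lit 15236902093,
   nat_lit 15234444473, nat_lit 15234444473, nat_lit 15917417681, nat_lit 15917417685,
   nat_lit 24, nat_lit 12, nat_lit 15917565137, nat_lit 15917565137, nat_lit 0, nat_lit 4,
   nat_lit 8, nat_lit 3232391301, nat_lit 16, nat_lit 3272269957, nat_lit 15236902093,
   nat_lit 3232948349, nat_lit 15234444473, nat_lit 15242570949, nat_lit 15234444473, nat_lit 16,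
   nat_lit 15236902093, nat_lit 15234444473, nat_lit 15234444473, nat_lit 15917417681,
   nat_lit 15917417685, nat_lit 24, nat_lit 12, nat_lit 0, nat_lit 4, nat_lit 8,
   nat_lit 3232391301, nat_lit 16, nat_lit 3272106117, nat_lit 3272106113, nat_lit 3232784509,
   nat_lit 3232784505, nat_lit 16, nat_lit 4499473613, nat_lit 4497015993, nat_lit 16,
   nat_lit 4549543109, nat_lit 284180542, nat_lit 3274474661, nat_lit 5180146857, nat_lit 16,
   nat_lit 0, nat_lit 4, nat_lit 8, nat_lit 4003857597, nat_lit 4, nat_lit 3231998085, nat_lit 8,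
   nat_lit 3232391301, nat_lit 3232391301, nat_lit 0, nat_lit 4, nat_lit 8, nat_lit 13667534013,
   nat_lit 4, nat_lit 3273941125, nat_lit 8, nat_lit 3274334341, nat_lit 3274334341,
   nat_lit 284180542, nat_lit 4499483853, nat_lit 0, nat_lit 4, nat_lit 8, nat_lit 13667534013,
   nat_lit 4, nat_lit 3273941125, nat_lit 8, nat_lit 3274334341, nat_lit 3274334341,
   nat_lit 284180542, nat_lit 4497026233, nat_lit 5180146857, nat_lit 5179993257, nat_lit 0,
   nat_lit 4, nat_lit 8, nat_lit 3232391301, nat_lit 16, nat_lit 3272269957, nat_lit 3272269953,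
   nat_lit 3232948349, nat_lit 3232948345, nat_lit 4505152709, nat_lit 3232948345, nat_lit 16,
   nat_lit 4499483853, nat_lit 4497026233, nat_lit 4497026233, nat_lit 12, nat_lit 15355528285,
   nat_lit 15355528285, nat_lit 15356161229, nat_lit 12, nat_lit 0, nat_lit 15355371613,
   nat_lit 4, nat_lit 15355372637, nat_lit 8, nat_lit 3232391301, nat_lit 16, nat_lit 3272106117,
   nat_lit 15236891853, nat_lit 3232784509, nat_lit 15234434233, nat_lit 16, nat_lit 15236891853,
   nat_lit 15234434233, nat_lit 16, nat_lit 15356341453, nat_lit 15286961349, nat_lit 284180542,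
   nat_lit 15236891853, nat_lit 15917565097, nat_lit 16, nat_lit 0, nat_lit 15356265677,
   nat_lit 4, nat_lit 15357838521, nat_lit 8, nat_lit 4003857597, nat_lit 15355535453, nat_lit 4,
   nat_lit 15356282061, nat_lit 3231998085, nat_lit 15355536477, nat_lit 8, nat_lit 3232391301,
   nat_lit 3232391301, nat_lit 15356341453, nat_lit 0, nat_lit 15358624973, nat_lit 4,
   nat_lit 15358641357, nat_lit 8, nat_lit 13667534013, nat_lit 15355535453, nat_lit 4,
   nat_lit 15358641357, nat_lit 3273941125, nat_lit 15355536477, nat_lit 8, nat_lit 3274334341,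
   nat_lit 3274334341, nat_lit 284180542, nat_lit 15236902093, nat_lit 15356341453, nat_lit 0,
   nat_lit 15358624973, nat_lit 4, nat_lit 15358641357, nat_lit 8, nat_lit 13667534013,
   nat_lit 15355535453, nat_lit 4, nat_lit 15358641357, nat_lit 3273941125, nat_lit 15355536477,
   nat_lit 8, nat_lit 3274334341, nat_lit 3274334341, nat_lit 284180542, nat_lit 15234444473,
   nat_lit 15917565097, nat_lit 15917411497, nat_lit 0, nat_lit 15355535453, nat_lit 4,
   nat_lit 15355536477, nat_lit 8, nat_lit 3232391301, nat_lit 16, nat_lit 3272269957,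
   nat_lit 15236902093, nat_lit 3232948349, nat_lit 15234444473, nat_lit 15242570949,
   nat_lit 15234444473, nat_lit 16, nat_lit 15236902093, nat_lit 15234444473,
   nat_lit 15234444473, nat_lit 12, nat_lit 0, nat_lit 4, nat_lit 8, nat_lit 3232391301,
   nat_lit 16, nat_lit 3272106117, nat_lit 15236891853, nat_lit 3232784509, nat_lit 15234434233,
   nat_lit 16, nat_lit 15236891853, nat_lit 15234434233, nat_lit 16, nat_lit 15286961349,
   nat_lit 284180542, nat_lit 15236891853, nat_lit 15917565097, nat_lit 15917565097, nat_lit 16,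
   nat_lit 0, nat_lit 4, nat_lit 8, nat_lit 4003857597, nat_lit 4, nat_lit 3231998085, nat_lit 8,
   nat_lit 3232391301, nat_lit 3232391301, nat_lit 0, nat_lit 4, nat_lit 8, nat_lit 13667534013,
   nat_lit 4, nat_lit 3273941125, nat_lit 8, nat_lit 3274334341, nat_lit 3274334341,
   nat_lit 284180542, nat_lit 15236902093, nat_lit 0, nat_lit 4, nat_lit 8, nat_lit 13667534013,
   nat_lit 4, nat_lit 3273941125, nat_lit 8, nat_lit 3274334341, nat_lit 3274334341,
   nat_lit 284180542, nat_lit 15234444473, nat_lit 15917565097, nat_lit 15917565097,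
   nat_lit 15917411497, nat_lit 0, nat_lit 4, nat_lit 8, nat_lit 3232391301, nat_lit 16,
   nat_lit 3272269957, nat_lit 15236902093, nat_lit 3232948349, nat_lit 15234444473,
   nat_lit 15242570949, nat_lit 15234444473, nat_lit 16, nat_lit 15236902093,
   nat_lit 15234444473, nat_lit 15234444473, nat_lit 0, nat_lit 4, nat_lit 8, nat_lit 3232391301,
   nat_lit 16, nat_lit 3272269957, nat_lit 15236902093, nat_lit 3232948349, nat_lit 15234444473,
   nat_lit 15242570949, nat_lit 15234444473, nat_lit 16, nat_lit 15236902093,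
   nat_lit 15234444473, nat_lit 15234444473, nat_lit 15917417641, nat_lit 15917417645,
   nat_lit 12, nat_lit 16, nat_lit 5292344417, nat_lit 4549543113, nat_lit 4549543109,
   nat_lit 284180542, nat_lit 3274474661, nat_lit 16, nat_lit 0, nat_lit 4, nat_lit 8,
   nat_lit 5250131113, nat_lit 4, nat_lit 8, nat_lit 5291794517, nat_lit 5250090153, nat_lit 4,
   nat_lit 8, nat_lit 5250131113, nat_lit 5250131113, nat_lit 4003857561, nat_lit 5250106537,
   nat_lit 8, nat_lit 4003857597, nat_lit 5249982633, nat_lit 4, nat_lit 8, nat_lit 5291663445,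
   nat_lit 8, nat_lit 5291794517, nat_lit 5291794517, nat_lit 5291401301, nat_lit 5289435221,
   nat_lit 8, nat_lit 5291794517, nat_lit 5291794517, nat_lit 4, nat_lit 8, nat_lit 5250122921,
   nat_lit 3232260229, nat_lit 8, nat_lit 5250131113, nat_lit 5250131113, nat_lit 3232391301,
   nat_lit 5250106537, nat_lit 3231998085, nat_lit 5249983657, nat_lit 8, nat_lit 5250131113,
   nat_lit 3232391301, nat_lit 5250131113, nat_lit 3232391301, nat_lit 8, nat_lit 3232391301,
   nat_lit 3232391301, nat_lit 5292344417, nat_lit 5247282385, nat_lit 0, nat_lit 4, nat_lit 8,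
   nat_lit 5287879849, nat_lit 4, nat_lit 8, nat_lit 5287879849, nat_lit 5287838889, nat_lit 4,
   nat_lit 8, nat_lit 5287879849, nat_lit 5287879849, nat_lit 13667533977, nat_lit 5287855273,
   nat_lit 8, nat_lit 13667534013, nat_lit 5287731369, nat_lit 4, nat_lit 8, nat_lit 5287871657,
   nat_lit 8, nat_lit 5287879849, nat_lit 5287879849, nat_lit 5287855273, nat_lit 5287732393,
   nat_lit 8, nat_lit 5287879849, nat_lit 5287879849, nat_lit 4, nat_lit 8, nat_lit 5287871657,
   nat_lit 3274203269, nat_lit 8, nat_lit 5287879849, nat_lit 5287879849, nat_lit 3274334341,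
   nat_lit 5287855273, nat_lit 3273941125, nat_lit 5287732393, nat_lit 8, nat_lit 5287879849,
   nat_lit 3274334341, nat_lit 5287879849, nat_lit 3274334341, nat_lit 8, nat_lit 3274334341,
   nat_lit 3274334341, nat_lit 284180542, nat_lit 15236902093, nat_lit 5292344417,
   nat_lit 5247282385, nat_lit 0, nat_lit 4, nat_lit 8, nat_lit 5287879849, nat_lit 4, nat_lit 8,
   nat_lit 5287879849, nat_lit 5287838889, nat_lit 4, nat_lit 8, nat_lit 5287879849,
   nat_lit 5287879849, nat_lit 13667533977, nat_lit 5287855273, nat_lit 8, nat_lit 13667534013,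
   nat_lit 5287731369, nat_lit 4, nat_lit 8, nat_lit 5287871657, nat_lit 8, nat_lit 5287879849,
   nat_lit 5287879849, nat_lit 5287855273, nat_lit 5287732393, nat_lit 8, nat_lit 5287879849,
   nat_lit 5287879849, nat_lit 4, nat_lit 8, nat_lit 5287871657, nat_lit 3274203269, nat_lit 8,
   nat_lit 5287879849, nat_lit 5287879849, nat_lit 3274334341, nat_lit 5287855273,
   nat_lit 3273941125, nat_lit 5287732393, nat_lit 8, nat_lit 5287879849, nat_lit 3274334341,
   nat_lit 5287879849, nat_lit 3274334341, nat_lit 8, nat_lit 3274334341, nat_lit 3274334341,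
   nat_lit 284180542, nat_lit 15234444473, nat_lit 5247102161, nat_lit 12, nat_lit 16, nat_lit 0,
   nat_lit 4, nat_lit 8, nat_lit 5291794517, nat_lit 4, nat_lit 8, nat_lit 5247509673,
   nat_lit 3232391301, nat_lit 8, nat_lit 3232391301, nat_lit 5247272145, nat_lit 0, nat_lit 4,
   nat_lit 8, nat_lit 5291794517, nat_lit 4, nat_lit 8, nat_lit 5285258409, nat_lit 3274334341,
   nat_lit 8, nat_lit 3274334341, nat_lit 955269182, nat_lit 15236891853, nat_lit 5247272145,
   nat_lit 0, nat_lit 4, nat_lit 8, nat_lit 5291794517, nat_lit 4, nat_lit 8, nat_lit 5285258409,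
   nat_lit 3274334341, nat_lit 8, nat_lit 3274334341, nat_lit 955269182, nat_lit 15234434233,
   nat_lit 16, nat_lit 15286961349, nat_lit 15286961349, nat_lit 955269182, nat_lit 15236891853,
   nat_lit 15917565097, nat_lit 16, nat_lit 0, nat_lit 5250090193, nat_lit 4, nat_lit 5250106577,
   nat_lit 8, nat_lit 4003857597, nat_lit 4, nat_lit 5291401313, nat_lit 8, nat_lit 5291794517,
   nat_lit 5291794517, nat_lit 4, nat_lit 5250106577, nat_lit 3231998085, nat_lit 8,
   nat_lit 5250131113, nat_lit 3232391301, nat_lit 5250131113, nat_lit 3232391301, nat_lit 8,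
   nat_lit 3232391301, nat_lit 3232391301, nat_lit 5247282385, nat_lit 0, nat_lit 5287838929,
   nat_lit 4, nat_lit 5287855313, nat_lit 8, nat_lit 13667534013, nat_lit 4, nat_lit 5287855313,
   nat_lit 8, nat_lit 5287879849, nat_lit 5287879849, nat_lit 4, nat_lit 5287855313,
   nat_lit 3273941125, nat_lit 8, nat_lit 5287879849, nat_lit 3274334341, nat_lit 5287879849,
   nat_lit 3274334341, nat_lit 8, nat_lit 3274334341, nat_lit 3274334341, nat_lit 955269182,
   nat_lit 15236902093, nat_lit 5247282385, nat_lit 0, nat_lit 5287838929, nat_lit 4,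
   nat_lit 5287855313, nat_lit 8, nat_lit 13667534013, nat_lit 4, nat_lit 5287855313, nat_lit 8,
   nat_lit 5287879849, nat_lit 5287879849, nat_lit 4, nat_lit 5287855313, nat_lit 3273941125,
   nat_lit 8, nat_lit 5287879849, nat_lit 3274334341, nat_lit 5287879849, nat_lit 3274334341,
   nat_lit 8, nat_lit 3274334341, nat_lit 3274334341, nat_lit 955269182, nat_lit 15234444473,
   nat_lit 15917565097, nat_lit 15917411497, nat_lit 0, nat_lit 4, nat_lit 8, nat_lit 5291794517,
   nat_lit 4, nat_lit 8, nat_lit 5250131113, nat_lit 3232391301, nat_lit 8, nat_lit 3232391301,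
   nat_lit 16, nat_lit 3272269957, nat_lit 15236902093, nat_lit 3232948349, nat_lit 15234444473,
   nat_lit 15242570949, nat_lit 15234444473, nat_lit 16, nat_lit 15236902093,
   nat_lit 15234444473, nat_lit 15234444473, nat_lit 12, nat_lit 0, nat_lit 4, nat_lit 8,
   nat_lit 3232391301, nat_lit 16, nat_lit 3272106117, nat_lit 15236891853, nat_lit 3232784509,
   nat_lit 15234434233, nat_lit 16, nat_lit 15236891853, nat_lit 15234434233, nat_lit 16,
   nat_lit 15286961349, nat_lit 955269182, nat_lit 15236891853, nat_lit 15917565097,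
   nat_lit 5289985229, nat_lit 16, nat_lit 0, nat_lit 4, nat_lit 8, nat_lit 4003857597,
   nat_lit 4, nat_lit 3231998085, nat_lit 8, nat_lit 3232391301, nat_lit 3232391301, nat_lit 0,
   nat_lit 4, nat_lit 8, nat_lit 13667534013, nat_lit 4, nat_lit 3273941125, nat_lit 8,
   nat_lit 3274334341, nat_lit 3274334341, nat_lit 955269182, nat_lit 15236902093, nat_lit 0,
   nat_lit 4, nat_lit 8, nat_lit 13667534013, nat_lit 4, nat_lit 3273941125, nat_lit 8,
   nat_lit 3274334341, nat_lit 3274334341, nat_lit 955269182, nat_lit 15234444473,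
   nat_lit 15917565097, nat_lit 5289985229, nat_lit 15917411497, nat_lit 0, nat_lit 4, nat_lit 8,
   nat_lit 3232391301, nat_lit 16, nat_lit 3272269957, nat_lit 15236902093, nat_lit 3232948349,
   nat_lit 15234444473, nat_lit 15242570949, nat_lit 15234444473, nat_lit 16,
   nat_lit 15236902093, nat_lit 15234444473, nat_lit 15234444473, nat_lit 5289045085,
   nat_lit 5289837773, nat_lit 5289804977, nat_lit 24, nat_lit 12, nat_lit 5180146897,
   nat_lit 5180146897, nat_lit 0, nat_lit 4, nat_lit 8, nat_lit 3232391301, nat_lit 16,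
   nat_lit 3272269957, nat_lit 3272269953, nat_lit 3232948349, nat_lit 3232948345,
   nat_lit 4505152709, nat_lit 3232948345, nat_lit 16, nat_lit 4499483853, nat_lit 4497026233,
   nat_lit 4497026233, nat_lit 12, nat_lit 15917565137, nat_lit 15917565137, nat_lit 0,
   nat_lit 15355797597, nat_lit 4, nat_lit 15355798621, nat_lit 8, nat_lit 3232391301,
   nat_lit 16, nat_lit 3272269957, nat_lit 15236902093, nat_lit 3232948349, nat_lit 15234444473,
   nat_lit 15242570949, nat_lit 15234444473, nat_lit 16, nat_lit 15236902093,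
   nat_lit 15234444473, nat_lit 15234444473, nat_lit 12, nat_lit 15917565137,
   nat_lit 15917565137, nat_lit 15917565137, nat_lit 15917565137, nat_lit 0, nat_lit 4,
   nat_lit 8, nat_lit 3232391301, nat_lit 16, nat_lit 3272269957, nat_lit 15236902093,
   nat_lit 3232948349, nat_lit 15234444473, nat_lit 15242570949, nat_lit 15234444473, nat_lit 16,
   nat_lit 15236902093, nat_lit 15234444473, nat_lit 15234444473, nat_lit 0, nat_lit 4,
   nat_lit 8, nat_lit 3232391301, nat_lit 16, nat_lit 3272269957, nat_lit 15236902093,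
   nat_lit 3232948349, nat_lit 15234444473, nat_lit 15242570949, nat_lit 15234444473, nat_lit 16,
   nat_lit 15236902093, nat_lit 15234444473, nat_lit 15234444473, nat_lit 15917417681,
   nat_lit 15917417685, nat_lit 12, nat_lit 15917565137, nat_lit 15917565137, nat_lit 0,
   nat_lit 4, nat_lit 8, nat_lit 5291794517, nat_lit 4, nat_lit 8, nat_lit 5250131113,
   nat_lit 3232391301, nat_lit 8, nat_lit 3232391301, nat_lit 16, nat_lit 3272269957,
   nat_lit 15236902093, nat_lit 3232948349, nat_lit 15234444473, nat_lit 15242570949,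
   nat_lit 15234444473, nat_lit 16, nat_lit 15236902093, nat_lit 15234444473,
   nat_lit 15234444473, nat_lit 12, nat_lit 15917565137, nat_lit 5289198793, nat_lit 15917565137,
   nat_lit 5289198793, nat_lit 0, nat_lit 4, nat_lit 8, nat_lit 3232391301, nat_lit 16,
   nat_lit 3272269957, nat_lit 15236902093, nat_lit 3232948349, nat_lit 15234444473,
   nat_lit 15242570949, nat_lit 15234444473, nat_lit 16, nat_lit 15236902093,
   nat_lit 15234444473, nat_lit 15234444473, nat_lit 0, nat_lit 4, nat_lit 8, nat_lit 3232391301,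
   nat_lit 16, nat_lit 3272106117, nat_lit 4499473613, nat_lit 3232784509, nat_lit 4497015993,
   nat_lit 15242570949, nat_lit 15234444473, nat_lit 16, nat_lit 4499473613, nat_lit 4497015993,
   nat_lit 15234444473, nat_lit 5289051337, nat_lit 5289051337, nat_lit 24, nat_lit 12,
   nat_lit 15917565137, nat_lit 15917565137, nat_lit 0, nat_lit 4, nat_lit 8, nat_lit 3232391301,
   nat_lit 16, nat_lit 3272269957, nat_lit 15236902093, nat_lit 3232948349, nat_lit 15234444473,
   nat_lit 15242570949, nat_lit 15234444473, nat_lit 16, nat_lit 15236902093,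
   nat_lit 15234444473, nat_lit 15234444473, nat_lit 15917417681, nat_lit 15917417685,
   nat_lit 12, nat_lit 5289198789, nat_lit 5289198789, nat_lit 0, nat_lit 4, nat_lit 8,
   nat_lit 3232391301, nat_lit 16, nat_lit 3272269957, nat_lit 15236902093, nat_lit 3232948349,
   nat_lit 15234444473, nat_lit 15242570949, nat_lit 15234444473, nat_lit 16,
   nat_lit 15236902093, nat_lit 15234444473, nat_lit 15234444473, nat_lit 5289051333,
   nat_lit 5289051333, nat_lit 4550853793, nat_lit 4550853833, nat_lit 4550853829, nat_lit 4,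
   nat_lit 283394110, nat_lit 4498687181, nat_lit 283394110, nat_lit 4496966841, nat_lit 0,
   nat_lit 4496711873, nat_lit 4505100485, nat_lit 3230032025, nat_lit 0, nat_lit 4496974009,
   nat_lit 4496974009, nat_lit 71949508897, nat_lit 4, nat_lit 0, nat_lit 4529882273,
   nat_lit 4529882313, nat_lit 4529882309, nat_lit 9944728785, nat_lit 9944728789, nat_lit 0,
   nat_lit 4933321933, nat_lit 4932535497, nat_lit 4932535493, nat_lit 4932535457,
   nat_lit 4932535497, nat_lit 4932535493, nat_lit 0, nat_lit 4933289137, nat_lit 4932535497,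
   nat_lit 4932535493, nat_lit 4932535457, nat_lit 4932535497, nat_lit 4932535493, nat_lit 0,
   nat_lit 4932535457, nat_lit 4932535497, nat_lit 4932535493, nat_lit 0, nat_lit 4932535457,
   nat_lit 4932535497, nat_lit 4932535493]

theorem c15_19 : chk TT UT (gU 15) (sub 19 4) s15_19 = true := by decide +kernel

def s16_0 : List ℕ :=   [nat_lit 0, nat_lit 86181021037, nat_lit 811025, nat_lit 0, nat_lit 4, nat_lit 8,
   nat_lit 97258341705, nat_lit 4, nat_lit 8, nat_lit 97275118921, nat_lit 4, nat_lit 8,
   nat_lit 6078728277, nat_lit 8, nat_lit 6059067481, nat_lit 5388263557, nat_lit 5386406009,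
   nat_lit 348783657, nat_lit 4, nat_lit 8, nat_lit 378568742, nat_lit 86588032345,
   nat_lit 86588032341, nat_lit 688686125, nat_lit 688686129, nat_lit 8, nat_lit 97258341705,
   nat_lit 378568742, nat_lit 86609003865, nat_lit 86609003861, nat_lit 709657645,
   nat_lit 709657649, nat_lit 8, nat_lit 0, nat_lit 336748593, nat_lit 811025, nat_lit 0,
   nat_lit 338321457, nat_lit 811025, nat_lit 379879462, nat_lit 5411850373, nat_lit 5411850369,
   nat_lit 378684457, nat_lit 688686129, nat_lit 0, nat_lit 338321457, nat_lit 811025,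
   nat_lit 379879462, nat_lit 5388257405, nat_lit 5388257401, nat_lit 709657645,
   nat_lit 709657649, nat_lit 5386422393, nat_lit 348800041, nat_lit 4, nat_lit 8, nat_lit 0,
   nat_lit 710156341, nat_lit 811025, nat_lit 44384262, nat_lit 181815510357,
   nat_lit 181815510361, nat_lit 709657645, nat_lit 671908913, nat_lit 95580620105, nat_lit 8,
   nat_lit 0, nat_lit 4, nat_lit 11075457125, nat_lit 4, nat_lit 11075455077,
   nat_lit 11075455077, nat_lit 11074068665, nat_lit 348783657, nat_lit 96654361929, nat_lit 4,
   nat_lit 8, nat_lit 378568742, nat_lit 86588032345, nat_lit 86588032341, nat_lit 688686125,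
   nat_lit 688686129, nat_lit 8, nat_lit 97258341705, nat_lit 378568742, nat_lit 86609003865,
   nat_lit 86609003861, nat_lit 709657645, nat_lit 709657649, nat_lit 8, nat_lit 12, nat_lit 0,
   nat_lit 6126176345, nat_lit 6126176345, nat_lit 348783657, nat_lit 12, nat_lit 0,
   nat_lit 6151342169, nat_lit 6151342169, nat_lit 348783657, nat_lit 379879462,
   nat_lit 5411850373, nat_lit 5411850369, nat_lit 378684457, nat_lit 688686129, nat_lit 0,
   nat_lit 12, nat_lit 6151342169, nat_lit 6151342169, nat_lit 5411571833, nat_lit 348783657,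
   nat_lit 379879462, nat_lit 5388257405, nat_lit 5388257401, nat_lit 709657645,
   nat_lit 709657649, nat_lit 5386422393, nat_lit 348800041, nat_lit 4, nat_lit 8,
   nat_lit 378568742, nat_lit 86588032345, nat_lit 86588032341, nat_lit 688686125,
   nat_lit 688686129, nat_lit 8, nat_lit 97258341705, nat_lit 378568742, nat_lit 86609003865,
   nat_lit 86609003861, nat_lit 709657645, nat_lit 709657649, nat_lit 8, nat_lit 12,
   nat_lit 384073766, nat_lit 5416044677, nat_lit 5416044673, nat_lit 382878761,
   nat_lit 755794993, nat_lit 12, nat_lit 6150047849, nat_lit 384073766, nat_lit 5417617541,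
   nat_lit 5417617537, nat_lit 384451625, nat_lit 755794993, nat_lit 379879462,
   nat_lit 5411850373, nat_lit 5411850369, nat_lit 378684457, nat_lit 688686129, nat_lit 12,
   nat_lit 0, nat_lit 5388263557, nat_lit 5388263557, nat_lit 348783657, nat_lit 0,
   nat_lit 5417623685, nat_lit 5417623685, nat_lit 348783657, nat_lit 384073766,
   nat_lit 5417617541, nat_lit 5417617537, nat_lit 384451625, nat_lit 755794993, nat_lit 0,
   nat_lit 5417623685, nat_lit 5417623685, nat_lit 348783657, nat_lit 384073766,
   nat_lit 5686053013, nat_lit 5686053009, nat_lit 776766509, nat_lit 776766513,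
   nat_lit 379879462, nat_lit 5388257405, nat_lit 5388257401, nat_lit 709657645,
   nat_lit 709657649, nat_lit 5386422393, nat_lit 348800041, nat_lit 8, nat_lit 12,
   nat_lit 382763046, nat_lit 86655141209, nat_lit 86655141205, nat_lit 755794989,
   nat_lit 755794993, nat_lit 12, nat_lit 98399192393, nat_lit 382763046, nat_lit 86680307033,
   nat_lit 86680307029, nat_lit 780960813, nat_lit 780960817, nat_lit 12, nat_lit 0, nat_lit 4,
   nat_lit 5681580129, nat_lit 5387978877, nat_lit 5387978873, nat_lit 638354477,
   nat_lit 638354481, nat_lit 5386406009, nat_lit 348783657, nat_lit 0, nat_lit 4,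
   nat_lit 6126461141, nat_lit 6151342177, nat_lit 5417623705, nat_lit 5387978873,
   nat_lit 638354477, nat_lit 638354481, nat_lit 5415766137, nat_lit 348783657,
   nat_lit 384335910, nat_lit 5416061061, nat_lit 5416061057, nat_lit 382895145,
   nat_lit 755794993, nat_lit 0, nat_lit 4, nat_lit 6151342177, nat_lit 6151342177,
   nat_lit 5388263577, nat_lit 5417339001, nat_lit 638354477, nat_lit 638354481,
   nat_lit 5415766137, nat_lit 348783657, nat_lit 384335910, nat_lit 5388535933,
   nat_lit 5388535929, nat_lit 780960813, nat_lit 780960817, nat_lit 5386438777,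
   nat_lit 348816425, nat_lit 8, nat_lit 12, nat_lit 0, nat_lit 4, nat_lit 12503376041,
   nat_lit 4, nat_lit 12149196901, nat_lit 12149196901, nat_lit 12147810489, nat_lit 348783657,
   nat_lit 48840710, nat_lit 200069121365, nat_lit 200069121369, nat_lit 780960813,
   nat_lit 739017777, nat_lit 96654361929, nat_lit 0, nat_lit 4, nat_lit 374374438,
   nat_lit 86520923481, nat_lit 86520923477, nat_lit 621577261, nat_lit 621577265, nat_lit 4,
   nat_lit 96117491017, nat_lit 374374438, nat_lit 86537700697, nat_lit 86537700693,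
   nat_lit 638354477, nat_lit 638354481, nat_lit 4, nat_lit 8, nat_lit 12, nat_lit 6150031465,
   nat_lit 8, nat_lit 12, nat_lit 6151342185, nat_lit 375423014, nat_lit 5407639685,
   nat_lit 5407639681, nat_lit 374473769, nat_lit 621577265, nat_lit 8, nat_lit 12,
   nat_lit 6151342185, nat_lit 12, nat_lit 6151342185, nat_lit 6151342185, nat_lit 375423014,
   nat_lit 5387978877, nat_lit 5387978873, nat_lit 638354477, nat_lit 638354481,
   nat_lit 5386406009, nat_lit 348783657, nat_lit 0, nat_lit 4, nat_lit 374374438,
   nat_lit 86520923481, nat_lit 86520923477, nat_lit 621577261, nat_lit 621577265, nat_lit 4,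
   nat_lit 96117491017, nat_lit 374374438, nat_lit 86537700697, nat_lit 86537700693,
   nat_lit 638354477, nat_lit 638354481, nat_lit 4, nat_lit 8, nat_lit 12, nat_lit 12149459045,
   nat_lit 6150031465, nat_lit 8, nat_lit 12, nat_lit 12149459045, nat_lit 6151342185,
   nat_lit 375423014, nat_lit 5407639685, nat_lit 5407639681, nat_lit 374473769,
   nat_lit 621577265, nat_lit 12, nat_lit 8, nat_lit 12149459045, nat_lit 12149459045,
   nat_lit 6109399137, nat_lit 375423014, nat_lit 5387978877, nat_lit 5387978873,
   nat_lit 638354477, nat_lit 638354481, nat_lit 5386406009, nat_lit 348783657, nat_lit 0,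
   nat_lit 4, nat_lit 374374438, nat_lit 86520923481, nat_lit 86520923477, nat_lit 621577261,
   nat_lit 621577265, nat_lit 4, nat_lit 96117491017, nat_lit 374374438, nat_lit 86537700697,
   nat_lit 86537700693, nat_lit 638354477, nat_lit 638354481, nat_lit 4, nat_lit 8, nat_lit 12,
   nat_lit 12147886181, nat_lit 12504402057, nat_lit 12504402061, nat_lit 739017773,
   nat_lit 739017777, nat_lit 6040979553, nat_lit 8, nat_lit 12, nat_lit 12149196901,
   nat_lit 12147886181, nat_lit 12505712777, nat_lit 12505712781, nat_lit 739017773,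
   nat_lit 739017777, nat_lit 6042290273, nat_lit 375423014, nat_lit 5407639685,
   nat_lit 5407639681, nat_lit 374473769, nat_lit 621577265, nat_lit 8, nat_lit 12,
   nat_lit 12149196901, nat_lit 12165974125, nat_lit 12505712777, nat_lit 12505712781,
   nat_lit 739017773, nat_lit 739017777, nat_lit 6042290273, nat_lit 375423014,
   nat_lit 5387978877, nat_lit 5387978873, nat_lit 638354477, nat_lit 638354481,
   nat_lit 5386406009, nat_lit 348783657, nat_lit 0, nat_lit 4, nat_lit 374374438,
   nat_lit 86520923481, nat_lit 86520923477, nat_lit 621577261, nat_lit 621577265, nat_lit 4,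
   nat_lit 96117491017, nat_lit 374374438, nat_lit 86537700697, nat_lit 86537700693,
   nat_lit 638354477, nat_lit 638354481, nat_lit 4, nat_lit 8, nat_lit 379617318,
   nat_lit 5411833989, nat_lit 5411833985, nat_lit 378668073, nat_lit 688686129, nat_lit 8,
   nat_lit 6078728297, nat_lit 379617318, nat_lit 5413144709, nat_lit 5413144705,
   nat_lit 379978793, nat_lit 688686129, nat_lit 375423014, nat_lit 5407639685,
   nat_lit 5407639681, nat_lit 374473769, nat_lit 621577265, nat_lit 8, nat_lit 12,
   nat_lit 12149196901, nat_lit 6108104801, nat_lit 12, nat_lit 12149196901, nat_lit 6109677665,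
   nat_lit 379617318, nat_lit 5413144709, nat_lit 5413144705, nat_lit 379978793,
   nat_lit 688686129, nat_lit 12, nat_lit 12149196901, nat_lit 6109677665, nat_lit 379617318,
   nat_lit 5681580181, nat_lit 5681580177, nat_lit 705463341, nat_lit 705463345,
   nat_lit 375423014, nat_lit 5387978877, nat_lit 5387978873, nat_lit 638354477,
   nat_lit 638354481, nat_lit 5386406009, nat_lit 348783657, nat_lit 12, nat_lit 16, nat_lit 4,
   nat_lit 8, nat_lit 97258341705, nat_lit 378568742, nat_lit 211571493153, nat_lit 211571493149,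
   nat_lit 709657645, nat_lit 709657649, nat_lit 8, nat_lit 0, nat_lit 336748593, nat_lit 811025,
   nat_lit 0, nat_lit 338321457, nat_lit 811025, nat_lit 379879462, nat_lit 5411850373,
   nat_lit 13223142605, nat_lit 378684457, nat_lit 688686129, nat_lit 0, nat_lit 338321457,
   nat_lit 811025, nat_lit 379879462, nat_lit 5388257405, nat_lit 13221668025, nat_lit 709657645,
   nat_lit 709657649, nat_lit 13221553337, nat_lit 348800041, nat_lit 53297158,
   nat_lit 218322732373, nat_lit 218322732377, nat_lit 852263981, nat_lit 806126641,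
   nat_lit 97728103753, nat_lit 12, nat_lit 16, nat_lit 386957350, nat_lit 86722250073,
   nat_lit 86722250069, nat_lit 822903853, nat_lit 822903857, nat_lit 16, nat_lit 99540043081,
   nat_lit 386957350, nat_lit 86751610201, nat_lit 86751610197, nat_lit 852263981,
   nat_lit 852263985, nat_lit 16, nat_lit 0, nat_lit 4, nat_lit 8, nat_lit 5388263557,
   nat_lit 5386406009, nat_lit 348783657, nat_lit 0, nat_lit 4, nat_lit 8, nat_lit 5388263557,
   nat_lit 5419960441, nat_lit 348783657, nat_lit 388792358, nat_lit 5420271749,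
   nat_lit 5420271745, nat_lit 387105833, nat_lit 822903857, nat_lit 0, nat_lit 4, nat_lit 8,
   nat_lit 5388263557, nat_lit 5419960441, nat_lit 348783657, nat_lit 388792358,
   nat_lit 5388814461, nat_lit 5388814457, nat_lit 852263981, nat_lit 852263985,
   nat_lit 5386455161, nat_lit 348832809, nat_lit 16, nat_lit 20, nat_lit 4, nat_lit 8,
   nat_lit 97258341705, nat_lit 378568742, nat_lit 228751362337, nat_lit 228751362333,
   nat_lit 709657645, nat_lit 709657649, nat_lit 8, nat_lit 12, nat_lit 0, nat_lit 6126176345,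
   nat_lit 6126176345, nat_lit 348783657, nat_lit 12, nat_lit 0, nat_lit 6151342169,
   nat_lit 6151342169, nat_lit 348783657, nat_lit 379879462, nat_lit 5411850373,
   nat_lit 14296884429, nat_lit 378684457, nat_lit 688686129, nat_lit 0, nat_lit 12,
   nat_lit 6151342169, nat_lit 6151342169, nat_lit 5386406009, nat_lit 348783657,
   nat_lit 379879462, nat_lit 5388257405, nat_lit 5388257401, nat_lit 709657645,
   nat_lit 709657649, nat_lit 14295295161, nat_lit 348800041, nat_lit 57753606,
   nat_lit 236576343381, nat_lit 236576343385, nat_lit 923567149, nat_lit 873235505,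
   nat_lit 98801845577, nat_lit 16, nat_lit 20, nat_lit 4, nat_lit 8, nat_lit 97258341705,
   nat_lit 378568742, nat_lit 228751362337, nat_lit 228751362333, nat_lit 709657645,
   nat_lit 709657649, nat_lit 8, nat_lit 12, nat_lit 384073766, nat_lit 5416044677,
   nat_lit 14297146573, nat_lit 382878761, nat_lit 755794993, nat_lit 12, nat_lit 6150047849,
   nat_lit 384073766, nat_lit 5417617541, nat_lit 14297244877, nat_lit 384451625,
   nat_lit 755794993, nat_lit 379879462, nat_lit 5411850373, nat_lit 14296884429,
   nat_lit 378684457, nat_lit 688686129, nat_lit 12, nat_lit 0, nat_lit 5388263557,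
   nat_lit 5388263557, nat_lit 348783657, nat_lit 0, nat_lit 5417623685, nat_lit 5417623685,
   nat_lit 348783657, nat_lit 384073766, nat_lit 5417617541, nat_lit 14297244877,
   nat_lit 384451625, nat_lit 755794993, nat_lit 0, nat_lit 5388263557, nat_lit 5417623685,
   nat_lit 348783657, nat_lit 384073766, nat_lit 5686053013, nat_lit 5686053009,
   nat_lit 776766509, nat_lit 776766513, nat_lit 379879462, nat_lit 5388257405,
   nat_lit 5388257401, nat_lit 709657645, nat_lit 709657649, nat_lit 14295295161,
   nat_lit 348800041, nat_lit 57753606, nat_lit 236576343381, nat_lit 236576343385,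
   nat_lit 923567149, nat_lit 873235505, nat_lit 98801845577, nat_lit 16, nat_lit 20, nat_lit 8,
   nat_lit 12, nat_lit 98399192393, nat_lit 382763046, nat_lit 228755818785,
   nat_lit 228755818781, nat_lit 780960813, nat_lit 780960817, nat_lit 12, nat_lit 0, nat_lit 4,
   nat_lit 5681580129, nat_lit 5387978877, nat_lit 5387978873, nat_lit 638354477,
   nat_lit 638354481, nat_lit 5386406009, nat_lit 348783657, nat_lit 0, nat_lit 4,
   nat_lit 6126461141, nat_lit 6151342177, nat_lit 5417339005, nat_lit 5417339001,
   nat_lit 638354477, nat_lit 638354481, nat_lit 5386406009, nat_lit 348783657,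
   nat_lit 384335910, nat_lit 5416061061, nat_lit 14297147597, nat_lit 382895145,
   nat_lit 755794993, nat_lit 0, nat_lit 4, nat_lit 6151342177, nat_lit 6151342177,
   nat_lit 5417623705, nat_lit 5417339001, nat_lit 638354477, nat_lit 638354481,
   nat_lit 5386406009, nat_lit 348783657, nat_lit 384335910, nat_lit 5388535933,
   nat_lit 14295427257, nat_lit 780960813, nat_lit 780960817, nat_lit 14295296185,
   nat_lit 348816425, nat_lit 57753606, nat_lit 236576343381, nat_lit 236576343385,
   nat_lit 923567149, nat_lit 873235505, nat_lit 98801845577, nat_lit 16, nat_lit 20, nat_lit 0,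
   nat_lit 4, nat_lit 96117491017, nat_lit 374374438, nat_lit 228746905889, nat_lit 228746905885,
   nat_lit 638354477, nat_lit 638354481, nat_lit 8, nat_lit 12, nat_lit 14343020741,
   nat_lit 383811622, nat_lit 5416028293, nat_lit 14297145549, nat_lit 382862377,
   nat_lit 755794993, nat_lit 4, nat_lit 12, nat_lit 14343102661, nat_lit 14343102661,
   nat_lit 14313742533, nat_lit 14313742533, nat_lit 14295392441, nat_lit 638354477,
   nat_lit 638354481, nat_lit 14295294137, nat_lit 348783657, nat_lit 57753606,
   nat_lit 236576343381, nat_lit 236576343385, nat_lit 923567149, nat_lit 873235505,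
   nat_lit 98801845577, nat_lit 16, nat_lit 20, nat_lit 0, nat_lit 4, nat_lit 96117491017,
   nat_lit 374374438, nat_lit 228746905889, nat_lit 228746905885, nat_lit 638354477,
   nat_lit 638354481, nat_lit 4, nat_lit 8, nat_lit 12, nat_lit 6150031465, nat_lit 8,
   nat_lit 12, nat_lit 6151342185, nat_lit 375423014, nat_lit 5407639685, nat_lit 14296621261,
   nat_lit 374473769, nat_lit 621577265, nat_lit 8, nat_lit 12, nat_lit 6151342185, nat_lit 12,
   nat_lit 6151342185, nat_lit 6151342185, nat_lit 375423014, nat_lit 5387978877,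
   nat_lit 5387978873, nat_lit 638354477, nat_lit 638354481, nat_lit 14295294137,
   nat_lit 348783657, nat_lit 57753606, nat_lit 236576343381, nat_lit 236576343385,
   nat_lit 923567149, nat_lit 873235505, nat_lit 98801845577, nat_lit 20, nat_lit 24, nat_lit 12,
   nat_lit 16, nat_lit 99540043081, nat_lit 386957350, nat_lit 245940144417,
   nat_lit 245940144413, nat_lit 852263981, nat_lit 852263985, nat_lit 16, nat_lit 0, nat_lit 4,
   nat_lit 8, nat_lit 5388263557, nat_lit 5386406009, nat_lit 348783657, nat_lit 0, nat_lit 4,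
   nat_lit 8, nat_lit 5388263557, nat_lit 5386406009, nat_lit 348783657, nat_lit 388792358,
   nat_lit 5420271749, nat_lit 15371152589, nat_lit 387105833, nat_lit 822903857, nat_lit 0,
   nat_lit 4, nat_lit 8, nat_lit 5388263557, nat_lit 5386406009, nat_lit 348783657,
   nat_lit 388792358, nat_lit 5388814461, nat_lit 5388814457, nat_lit 852263981,
   nat_lit 852263985, nat_lit 15369039033, nat_lit 348832809, nat_lit 62210054,
   nat_lit 254829954389, nat_lit 254829954393, nat_lit 994870317, nat_lit 940344369,
   nat_lit 99875587401, nat_lit 0, nat_lit 4, nat_lit 374374438, nat_lit 86520923481,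
   nat_lit 86520923477, nat_lit 621577261, nat_lit 621577265, nat_lit 4, nat_lit 374374438,
   nat_lit 86537700697, nat_lit 86537700693, nat_lit 638354477, nat_lit 638354481, nat_lit 4,
   nat_lit 375423014, nat_lit 5407639685, nat_lit 5407639681, nat_lit 374473769,
   nat_lit 621577265, nat_lit 375423014, nat_lit 5387978877, nat_lit 5387978873,
   nat_lit 638354477, nat_lit 638354481, nat_lit 5386406009, nat_lit 348783657, nat_lit 0,
   nat_lit 4, nat_lit 39927814, nat_lit 163561899349, nat_lit 163561899353, nat_lit 638354477,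
   nat_lit 604800049, nat_lit 94506878281]

theorem c16_0 : chk TT UT (gU 16) (sub 0 23) s16_0 = true := by decide +kernel

def s17_0 : List ℕ :=   [nat_lit 0, nat_lit 352346173, nat_lit 353132605, nat_lit 353116201, nat_lit 281567277,
   nat_lit 90396189005, nat_lit 0, nat_lit 4, nat_lit 8, nat_lit 5652497517, nat_lit 5639914597,
   nat_lit 5649900745, nat_lit 5649900745, nat_lit 90238649629, nat_lit 5649876061, nat_lit 8,
   nat_lit 5649900661, nat_lit 5649900661, nat_lit 1446374573561, nat_lit 5649876085, nat_lit 8,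
   nat_lit 1446374573569, nat_lit 4, nat_lit 8, nat_lit 5652497517, nat_lit 5639914597,
   nat_lit 5649900745, nat_lit 5649876061, nat_lit 8, nat_lit 5649900661, nat_lit 8,
   nat_lit 5652497517, nat_lit 5639914597, nat_lit 5649900745, nat_lit 5652497517,
   nat_lit 4507452553, nat_lit 4507452553, nat_lit 5649876061, nat_lit 8, nat_lit 4538909817,
   nat_lit 4507452545, nat_lit 4, nat_lit 8, nat_lit 5681579101, nat_lit 5649859677, nat_lit 4,
   nat_lit 8, nat_lit 5652504685, nat_lit 5639921765, nat_lit 4499071073, nat_lit 5649883229,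
   nat_lit 8, nat_lit 4499071061, nat_lit 5649859701, nat_lit 4, nat_lit 8, nat_lit 5652497517,
   nat_lit 5639914597, nat_lit 5649900745, nat_lit 5649900745, nat_lit 90238747933,
   nat_lit 5649876061, nat_lit 8, nat_lit 5649900661, nat_lit 5649900661, nat_lit 1446374671865,
   nat_lit 5649876085, nat_lit 8, nat_lit 1446374671873, nat_lit 4, nat_lit 8,
   nat_lit 5681579101, nat_lit 8, nat_lit 5681579101, nat_lit 5581201589, nat_lit 5649859677,
   nat_lit 4, nat_lit 8, nat_lit 5652504685, nat_lit 5639921765, nat_lit 4499071073,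
   nat_lit 5649883229, nat_lit 8, nat_lit 4499071061, nat_lit 8, nat_lit 5652504685,
   nat_lit 5639921765, nat_lit 4499071073, nat_lit 5652504685, nat_lit 4507459721,
   nat_lit 4507459721, nat_lit 5649883229, nat_lit 8, nat_lit 4538916985, nat_lit 4507459713,
   nat_lit 5649859701, nat_lit 4, nat_lit 8, nat_lit 5652497517, nat_lit 5639914597,
   nat_lit 5649900745, nat_lit 5649900745, nat_lit 90238747933, nat_lit 5649876061, nat_lit 8,
   nat_lit 5649900661, nat_lit 5649900661, nat_lit 1446374671865, nat_lit 5649876085, nat_lit 8,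
   nat_lit 1446374671873, nat_lit 8, nat_lit 5652497517, nat_lit 5639914597, nat_lit 5649900745,
   nat_lit 5649900745, nat_lit 90238747933, nat_lit 5652497517, nat_lit 5547361397,
   nat_lit 4473619617, nat_lit 4473619657, nat_lit 4473619653, nat_lit 5649876061, nat_lit 8,
   nat_lit 4538909817, nat_lit 5649900661, nat_lit 1446372860277, nat_lit 4473619617,
   nat_lit 4473619657, nat_lit 4473619653, nat_lit 5649876085, nat_lit 8, nat_lit 1446374671873,
   nat_lit 1446374671873, nat_lit 5649752265, nat_lit 5650276557, nat_lit 5649752181, nat_lit 4,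
   nat_lit 8, nat_lit 4538785913, nat_lit 4507328641, nat_lit 8, nat_lit 5652504685,
   nat_lit 5639921765, nat_lit 4499071073, nat_lit 4540620889, nat_lit 5649883229, nat_lit 8,
   nat_lit 4499071061, nat_lit 4538785913, nat_lit 4534591609, nat_lit 8, nat_lit 5652504685,
   nat_lit 5639921765, nat_lit 4499071073, nat_lit 4540620889, nat_lit 5652504685,
   nat_lit 4507459721, nat_lit 4507459721, nat_lit 4507459721, nat_lit 5649883229, nat_lit 8,
   nat_lit 4538916985, nat_lit 4538916985, nat_lit 4507459713, nat_lit 4507459713,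
   nat_lit 4507066497, nat_lit 4505100425, nat_lit 4505100417, nat_lit 4505100417, nat_lit 8,
   nat_lit 4538916985, nat_lit 4507459713, nat_lit 4507459713, nat_lit 4, nat_lit 8,
   nat_lit 5649892469, nat_lit 1446372729205, nat_lit 5649892469, nat_lit 1446341271933,
   nat_lit 8, nat_lit 5652497517, nat_lit 5639914597, nat_lit 5649900745, nat_lit 5649900745,
   nat_lit 90238649629, nat_lit 5649876061, nat_lit 8, nat_lit 5649900661, nat_lit 5649900661,
   nat_lit 1446374573561, nat_lit 5649876085, nat_lit 1446368534901, nat_lit 8,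
   nat_lit 5652497517, nat_lit 5639914597, nat_lit 5649900745, nat_lit 5649900745,
   nat_lit 1443790872965, nat_lit 5652497517, nat_lit 4473512029, nat_lit 4473512029,
   nat_lit 5649900745, nat_lit 1443287556489, nat_lit 5649876061, nat_lit 8, nat_lit 4538909817,
   nat_lit 5649900661, nat_lit 1446372860277, nat_lit 4473512029, nat_lit 5649900661,
   nat_lit 1446341403005, nat_lit 5649876085, nat_lit 1446341009789, nat_lit 5649753289,
   nat_lit 5650277581, nat_lit 5649753205, nat_lit 8, nat_lit 5649900661, nat_lit 1446372860277,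
   nat_lit 5649900661, nat_lit 1446341403005, nat_lit 4436156517, nat_lit 1446341403005,
   nat_lit 8, nat_lit 1446372729205, nat_lit 1446341271933, nat_lit 23141424980597, nat_lit 0,
   nat_lit 352346173, nat_lit 353132605, nat_lit 353116201, nat_lit 281567277,
   nat_lit 90396189005, nat_lit 8, nat_lit 90398286157, nat_lit 90398286157, nat_lit 4,
   nat_lit 5637579961, nat_lit 5650162873, nat_lit 5649753205, nat_lit 72081891669,
   nat_lit 1446339061209, nat_lit 0, nat_lit 352346173, nat_lit 353132605, nat_lit 353116201,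
   nat_lit 281567277, nat_lit 90396189005, nat_lit 8, nat_lit 692887589, nat_lit 688693285,
   nat_lit 378282025, nat_lit 4, nat_lit 379854889, nat_lit 379854889, nat_lit 312746025,
   nat_lit 312762409, nat_lit 708878373, nat_lit 0, nat_lit 4, nat_lit 4, nat_lit 8,
   nat_lit 5649876085, nat_lit 8, nat_lit 11090674845, nat_lit 6052529269, nat_lit 4981032121,
   nat_lit 4968449209, nat_lit 5649876085, nat_lit 8, nat_lit 11090674845, nat_lit 6052529269,
   nat_lit 4979311821, nat_lit 4966728909, nat_lit 4, nat_lit 5652218989, nat_lit 5639636069,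
   nat_lit 5649883337, nat_lit 5649883337, nat_lit 90234193181, nat_lit 5649859677, nat_lit 4,
   nat_lit 5649883253, nat_lit 5649883253, nat_lit 1446370117113, nat_lit 5649859701, nat_lit 4,
   nat_lit 1446370117121, nat_lit 4, nat_lit 8, nat_lit 5652218989, nat_lit 5639636069,
   nat_lit 5649883337, nat_lit 5649883337, nat_lit 8, nat_lit 11090674845, nat_lit 6056730821,
   nat_lit 4981130417, nat_lit 6042198201, nat_lit 5652218989, nat_lit 4507174025,
   nat_lit 4507174025, nat_lit 5649883337, nat_lit 8, nat_lit 11090674845, nat_lit 6056730821,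
   nat_lit 4981130417, nat_lit 6040477901, nat_lit 5649859677, nat_lit 4, nat_lit 8,
   nat_lit 4534699129, nat_lit 5649883253, nat_lit 8, nat_lit 11090682013, nat_lit 6052536437,
   nat_lit 4981039289, nat_lit 4968456377, nat_lit 4507174017, nat_lit 5649883253, nat_lit 8,
   nat_lit 11090682013, nat_lit 6052536437, nat_lit 4979318989, nat_lit 4966736077,
   nat_lit 5649859701, nat_lit 8, nat_lit 11090658461, nat_lit 6052512885, nat_lit 4979295437,
   nat_lit 4966712525, nat_lit 5649752265, nat_lit 5650276557, nat_lit 5649752181, nat_lit 4,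
   nat_lit 8, nat_lit 5649883253, nat_lit 8, nat_lit 11090682013, nat_lit 6052536437,
   nat_lit 4981039289, nat_lit 4968456377, nat_lit 5649883253, nat_lit 8, nat_lit 11090682013,
   nat_lit 6052536437, nat_lit 4979318989, nat_lit 4966736077, nat_lit 4505100453, nat_lit 8,
   nat_lit 11090682013, nat_lit 11014660305, nat_lit 4979318989, nat_lit 4966736077, nat_lit 8,
   nat_lit 11090550873, nat_lit 4, nat_lit 6052536437, nat_lit 6052536437, nat_lit 11014660265,
   nat_lit 4978663517, nat_lit 4, nat_lit 4968449209, nat_lit 4966728909, nat_lit 10746224805,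
   nat_lit 4, nat_lit 8, nat_lit 5652365382, nat_lit 0, nat_lit 12, nat_lit 4542980217,
   nat_lit 4507590785, nat_lit 12, nat_lit 5649908853, nat_lit 1446376923509, nat_lit 5649908853,
   nat_lit 1446341534077, nat_lit 8, nat_lit 1446372729213, nat_lit 1446341271925, nat_lit 8,
   nat_lit 5652497517, nat_lit 5639914597, nat_lit 5649900745, nat_lit 5649900745,
   nat_lit 90238649629, nat_lit 5652365382, nat_lit 5649876061, nat_lit 8, nat_lit 5649900661,
   nat_lit 5649900661, nat_lit 1446374573561, nat_lit 5652365382, nat_lit 5649876085, nat_lit 8,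
   nat_lit 1446374573569, nat_lit 5652365382, nat_lit 8, nat_lit 12, nat_lit 5652759661,
   nat_lit 5640176741, nat_lit 5649917129, nat_lit 5649917129, nat_lit 0, nat_lit 90242942237,
   nat_lit 1443857981829, nat_lit 5652497517, nat_lit 5639914597, nat_lit 5649900745,
   nat_lit 5649900745, nat_lit 12, nat_lit 5652759661, nat_lit 4343874681, nat_lit 5640201401,
   nat_lit 5640201401, nat_lit 0, nat_lit 90242942237, nat_lit 1443891536261, nat_lit 5652365382,
   nat_lit 5652497517, nat_lit 4507452553, nat_lit 4507452553, nat_lit 5649900745, nat_lit 12,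
   nat_lit 5652759661, nat_lit 4343874681, nat_lit 5640201401, nat_lit 5640201401, nat_lit 0,
   nat_lit 90242942237, nat_lit 1443891536261, nat_lit 5652759661, nat_lit 4478092465,
   nat_lit 4478092465, nat_lit 5640201401, nat_lit 0, nat_lit 2930115797, nat_lit 1443891536261,
   nat_lit 5652365382, nat_lit 5649876061, nat_lit 8, nat_lit 12, nat_lit 4543104121,
   nat_lit 5649917045, nat_lit 0, nat_lit 1446377054581, nat_lit 1446377054581,
   nat_lit 4538909817, nat_lit 5649900661, nat_lit 12, nat_lit 4545201273, nat_lit 5649917045,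
   nat_lit 0, nat_lit 1446379151733, nat_lit 1446379151733, nat_lit 5652365382,
   nat_lit 4507452545, nat_lit 5649900661, nat_lit 12, nat_lit 4545201273, nat_lit 5649917045,
   nat_lit 0, nat_lit 1446379151733, nat_lit 1446379151733, nat_lit 4545201273,
   nat_lit 5649917045, nat_lit 0, nat_lit 2930115797, nat_lit 1446379151733, nat_lit 5652365382,
   nat_lit 5649876085, nat_lit 0, nat_lit 12, nat_lit 1446378866177, nat_lit 1446378866177,
   nat_lit 1446341117441, nat_lit 1446341009789, nat_lit 8, nat_lit 1446374564221,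
   nat_lit 1446374564221, nat_lit 5649753289, nat_lit 5650277581, nat_lit 5649753205, nat_lit 0,
   nat_lit 12, nat_lit 4543111289, nat_lit 4507721857, nat_lit 4507721857, nat_lit 12,
   nat_lit 5649917045, nat_lit 1446377054581, nat_lit 5649917045, nat_lit 1446341665149,
   nat_lit 4436418661, nat_lit 1446341665149, nat_lit 8, nat_lit 1446372860285,
   nat_lit 1446341402997, nat_lit 1446341402997, nat_lit 0, nat_lit 12, nat_lit 1446376923509,
   nat_lit 1446341534077, nat_lit 23141425242741, nat_lit 8, nat_lit 1446372729213,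
   nat_lit 1446341271925, nat_lit 1446339061209, nat_lit 4, nat_lit 8, nat_lit 5652365382,
   nat_lit 0, nat_lit 8, nat_lit 4538785913, nat_lit 4507328641, nat_lit 8, nat_lit 5649892469,
   nat_lit 1446372729205, nat_lit 5649892469, nat_lit 1446341271933, nat_lit 12,
   nat_lit 1446376923517, nat_lit 1446341534069, nat_lit 8, nat_lit 5652497517,
   nat_lit 5639914597, nat_lit 5649900745, nat_lit 5649900745, nat_lit 90238649629,
   nat_lit 5652365382, nat_lit 5649876061, nat_lit 8, nat_lit 5649900661, nat_lit 5649900661,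
   nat_lit 1446374573561, nat_lit 5652365382, nat_lit 5649876085, nat_lit 8,
   nat_lit 1446374573569, nat_lit 5652365382, nat_lit 8, nat_lit 12, nat_lit 5652627526,
   nat_lit 5652497517, nat_lit 5639914597, nat_lit 5649900745, nat_lit 5649900745, nat_lit 12,
   nat_lit 1443889825301, nat_lit 5652627526, nat_lit 5652365382, nat_lit 5652497517,
   nat_lit 4507452553, nat_lit 4507452553, nat_lit 5649900745, nat_lit 0, nat_lit 4473619653,
   nat_lit 90238747933, nat_lit 1443287556489, nat_lit 12, nat_lit 1443891536265,
   nat_lit 1443891536265, nat_lit 5652365382, nat_lit 5649876061, nat_lit 8, nat_lit 12,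
   nat_lit 5652627526, nat_lit 4538909817, nat_lit 5649900661, nat_lit 12, nat_lit 1446379038209,
   nat_lit 5652627526, nat_lit 5652365382, nat_lit 4507452545, nat_lit 5649900661, nat_lit 0,
   nat_lit 4473619653, nat_lit 1446374671865, nat_lit 1446341403005, nat_lit 12,
   nat_lit 1446379151741, nat_lit 1446379151741, nat_lit 5652365382, nat_lit 5649876085,
   nat_lit 0, nat_lit 8, nat_lit 1446374671873, nat_lit 1446374671873, nat_lit 1446341117441,
   nat_lit 1446341009789, nat_lit 12, nat_lit 1446378758525, nat_lit 1446378758525,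
   nat_lit 5649753289, nat_lit 5650277581, nat_lit 5649753205, nat_lit 0, nat_lit 8,
   nat_lit 4538916985, nat_lit 4507459713, nat_lit 4507459713, nat_lit 8, nat_lit 5649900661,
   nat_lit 1446372860277, nat_lit 5649900661, nat_lit 1446341403005, nat_lit 4436156517,
   nat_lit 1446341403005, nat_lit 12, nat_lit 1446377054589, nat_lit 1446341665141,
   nat_lit 1446341665141, nat_lit 0, nat_lit 8, nat_lit 1446372729205, nat_lit 1446341271933,
   nat_lit 23141424980597, nat_lit 12, nat_lit 1446376923517, nat_lit 1446341534069,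
   nat_lit 1446339077593, nat_lit 8, nat_lit 12, nat_lit 5652627526, nat_lit 0, nat_lit 4,
   nat_lit 4505100453, nat_lit 12, nat_lit 5649916021, nat_lit 1446376792569, nat_lit 4475740361,
   nat_lit 4475740357, nat_lit 1446339043833, nat_lit 4, nat_lit 12, nat_lit 1446376792537,
   nat_lit 1446376792537, nat_lit 1446339043801, nat_lit 12, nat_lit 1446376923517,
   nat_lit 1446341534069, nat_lit 12, nat_lit 5652776045, nat_lit 5640193125, nat_lit 5649918153,
   nat_lit 5649918153, nat_lit 90243106077, nat_lit 5652627526, nat_lit 5649892445, nat_lit 12,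
   nat_lit 5649918069, nat_lit 5649918069, nat_lit 1446379030009, nat_lit 5652627526,
   nat_lit 5649892469, nat_lit 12, nat_lit 1446379030017, nat_lit 5652627526, nat_lit 12,
   nat_lit 4, nat_lit 90205472029, nat_lit 0, nat_lit 5679505593, nat_lit 5679505593,
   nat_lit 5652373621, nat_lit 90205479197, nat_lit 1443285590493, nat_lit 5652776045,
   nat_lit 5640193125, nat_lit 5649918153, nat_lit 5649918153, nat_lit 4, nat_lit 90243220765,
   nat_lit 90243220765, nat_lit 1443858244997, nat_lit 0, nat_lit 6149267641, nat_lit 6149267641,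
   nat_lit 4545077417, nat_lit 90243227933, nat_lit 1443889570269, nat_lit 5652627526,
   nat_lit 5652776045, nat_lit 4507731081, nat_lit 4507731081, nat_lit 5649918153, nat_lit 4,
   nat_lit 4478092485, nat_lit 90243220765, nat_lit 1443292013961, nat_lit 0, nat_lit 6149267641,
   nat_lit 6149267641, nat_lit 4545077417, nat_lit 90243227933, nat_lit 1443889570269,
   nat_lit 5652627526, nat_lit 5649892445, nat_lit 12, nat_lit 4, nat_lit 1446341395961,
   nat_lit 0, nat_lit 4507328677, nat_lit 1446341403129, nat_lit 1446341403097,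
   nat_lit 4543120505, nat_lit 5649918069, nat_lit 4, nat_lit 1446377071989,
   nat_lit 1446379144697, nat_lit 1446377071989, nat_lit 0, nat_lit 4545077413,
   nat_lit 1446379151865, nat_lit 1446379151833, nat_lit 5652627526, nat_lit 4507731073,
   nat_lit 5649918069, nat_lit 4, nat_lit 4478092485, nat_lit 1446379144697,
   nat_lit 1446341682557, nat_lit 0, nat_lit 4545077413, nat_lit 1446379151865,
   nat_lit 1446379151833, nat_lit 5652627526, nat_lit 5649892469, nat_lit 0, nat_lit 4,
   nat_lit 12, nat_lit 1446379144705, nat_lit 1446379144705, nat_lit 1446341395969,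
   nat_lit 1446341379585, nat_lit 1446341271933, nat_lit 12, nat_lit 1446379020669,
   nat_lit 1446379020669, nat_lit 5649754313, nat_lit 5650278605, nat_lit 5649754229, nat_lit 0,
   nat_lit 4, nat_lit 4507459749, nat_lit 12, nat_lit 5649918069, nat_lit 1446379151865,
   nat_lit 4478099657, nat_lit 4478099653, nat_lit 4478099657, nat_lit 4478099653,
   nat_lit 1446341403129, nat_lit 4, nat_lit 12, nat_lit 1446379151833, nat_lit 1446379151833,
   nat_lit 2263507097, nat_lit 1446341403097, nat_lit 12, nat_lit 1446377070973,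
   nat_lit 1446341681525, nat_lit 1446341681525, nat_lit 0, nat_lit 4, nat_lit 12,
   nat_lit 1446376792537, nat_lit 1446376792537, nat_lit 2263507097, nat_lit 1446339043801,
   nat_lit 12, nat_lit 1446376923517, nat_lit 1446341534069, nat_lit 1446339078617, nat_lit 0,
   nat_lit 4, nat_lit 5652103238, nat_lit 4, nat_lit 12, nat_lit 12164301981, nat_lit 6119523445,
   nat_lit 6119523445, nat_lit 8, nat_lit 4545053841, nat_lit 4545053833, nat_lit 4545053833,
   nat_lit 5649876085, nat_lit 12, nat_lit 12164416669, nat_lit 12164416669, nat_lit 6119638133,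
   nat_lit 6119638133, nat_lit 5048140985, nat_lit 6119638133, nat_lit 5035558073, nat_lit 8,
   nat_lit 6148998261, nat_lit 6148998261, nat_lit 5075256481, nat_lit 5652103238,
   nat_lit 5649876085, nat_lit 12, nat_lit 12164416669, nat_lit 12164416669, nat_lit 6119638133,
   nat_lit 6119531637, nat_lit 5046420685, nat_lit 6119531637, nat_lit 5033837773, nat_lit 8,
   nat_lit 6148891765, nat_lit 6148891765, nat_lit 5075149941, nat_lit 5652103238, nat_lit 4,
   nat_lit 5652218989, nat_lit 5639636069, nat_lit 5649883337, nat_lit 5649883337,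
   nat_lit 90234193181, nat_lit 5652103238, nat_lit 5649859677, nat_lit 4, nat_lit 5649883253,
   nat_lit 5649883253, nat_lit 1446370117113, nat_lit 5652103238, nat_lit 5649859701, nat_lit 4,
   nat_lit 1446370117121, nat_lit 5652103238, nat_lit 5651841094, nat_lit 8, nat_lit 12,
   nat_lit 4, nat_lit 5652218989, nat_lit 5652218989, nat_lit 4, nat_lit 12094669933,
   nat_lit 12503376041, nat_lit 12094669933, nat_lit 5649876061, nat_lit 4, nat_lit 12094669933,
   nat_lit 12503376045, nat_lit 12504162493, nat_lit 12094669933, nat_lit 5649876061,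
   nat_lit 12504162493, nat_lit 12504401017, nat_lit 12504401021, nat_lit 12504047805, nat_lit 4,
   nat_lit 12, nat_lit 12499853501, nat_lit 6149955801, nat_lit 5652218989, nat_lit 6056730793,
   nat_lit 5649883337, nat_lit 5649883337, nat_lit 12, nat_lit 12499968189, nat_lit 12499968189,
   nat_lit 6149791937, nat_lit 6149791937, nat_lit 5652103238, nat_lit 5652218989,
   nat_lit 5649876061, nat_lit 4507174025, nat_lit 5649883337, nat_lit 12, nat_lit 12499968189,
   nat_lit 12499968189, nat_lit 6149791937, nat_lit 6149791937, nat_lit 5652103238,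
   nat_lit 5680006245, nat_lit 5679219805, nat_lit 5649859677, nat_lit 4, nat_lit 12,
   nat_lit 12164309149, nat_lit 6119530613, nat_lit 6119530613, nat_lit 8, nat_lit 4545061009,
   nat_lit 4545061001, nat_lit 4545061001, nat_lit 4534699129, nat_lit 5649883253, nat_lit 12,
   nat_lit 12164423837, nat_lit 12164423837, nat_lit 6119645301, nat_lit 6119645301,
   nat_lit 5048148153, nat_lit 6119645301, nat_lit 5035565241, nat_lit 8, nat_lit 6149005429,
   nat_lit 6149005429, nat_lit 5075263649, nat_lit 5652103238, nat_lit 4507174017,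
   nat_lit 5649883253, nat_lit 12, nat_lit 12164423837, nat_lit 12164423837, nat_lit 6119645301,
   nat_lit 6119645301, nat_lit 5046427853, nat_lit 6119645301, nat_lit 5033844941, nat_lit 8,
   nat_lit 6149005429, nat_lit 6149005429, nat_lit 5075263649, nat_lit 5652103238,
   nat_lit 5649859701, nat_lit 12, nat_lit 12164400285, nat_lit 12164400285, nat_lit 6119621749,
   nat_lit 6119530613, nat_lit 5046404301, nat_lit 6119530613, nat_lit 5033821389, nat_lit 8,
   nat_lit 6148890741, nat_lit 6148890741, nat_lit 5075148917, nat_lit 5075148917,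
   nat_lit 5075240133, nat_lit 5651841094, nat_lit 5649752265, nat_lit 5650276557,
   nat_lit 5649752181, nat_lit 4, nat_lit 12, nat_lit 12164309149, nat_lit 6119530613,
   nat_lit 6119530613, nat_lit 8, nat_lit 4545061009, nat_lit 4545061001, nat_lit 4545061001,
   nat_lit 4545077377, nat_lit 5649883253, nat_lit 12, nat_lit 12164423837, nat_lit 12164423837,
   nat_lit 6119645301, nat_lit 6119645301, nat_lit 5048148153, nat_lit 6119645301,
   nat_lit 5035565241, nat_lit 8, nat_lit 6149005429, nat_lit 6149005429, nat_lit 5075263649,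
   nat_lit 5077491889, nat_lit 5652217926, nat_lit 5649883253, nat_lit 12, nat_lit 12164423837,
   nat_lit 12164423837, nat_lit 6119645301, nat_lit 6119645301, nat_lit 5046427853,
   nat_lit 6119645301, nat_lit 5033844941, nat_lit 8, nat_lit 6149005429, nat_lit 6149005429,
   nat_lit 5075263649, nat_lit 5077491889, nat_lit 5652217926, nat_lit 4505100453, nat_lit 12,
   nat_lit 12164423837, nat_lit 12164423837, nat_lit 12088402129, nat_lit 12088402133,
   nat_lit 5046427853, nat_lit 6119645301, nat_lit 5033844941, nat_lit 8, nat_lit 6149005429,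
   nat_lit 6149005429, nat_lit 5075263649, nat_lit 5075525793, nat_lit 1446339043833, nat_lit 12,
   nat_lit 12164292697, nat_lit 12164292697, nat_lit 4, nat_lit 6119645301, nat_lit 6119645301,
   nat_lit 12088402089, nat_lit 6119530613, nat_lit 5045772381, nat_lit 6119530613, nat_lit 4,
   nat_lit 5035558073, nat_lit 5033837773, nat_lit 11819966629, nat_lit 8, nat_lit 6148890741,
   nat_lit 6148890741, nat_lit 5075148917, nat_lit 5075148917, nat_lit 5075141829, nat_lit 4,
   nat_lit 1446368534909, nat_lit 1446341009781, nat_lit 12, nat_lit 12159967345,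
   nat_lit 12092858481, nat_lit 6119645301, nat_lit 8, nat_lit 6149005429, nat_lit 5075141793,
   nat_lit 5075263605, nat_lit 5075525749, nat_lit 12482928753, nat_lit 0, nat_lit 4,
   nat_lit 5652103238, nat_lit 4, nat_lit 8, nat_lit 5649892469, nat_lit 12,
   nat_lit 1446379030017, nat_lit 5649876085, nat_lit 8, nat_lit 5649892469, nat_lit 12,
   nat_lit 1446379144705, nat_lit 5652103238, nat_lit 5649876085, nat_lit 8, nat_lit 5649892469,
   nat_lit 12, nat_lit 1446379144705, nat_lit 5649892469, nat_lit 12, nat_lit 1446379144705,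
   nat_lit 1446379144705, nat_lit 5652103238, nat_lit 4, nat_lit 5652218989, nat_lit 5639636069,
   nat_lit 5649883337, nat_lit 5649883337, nat_lit 90234193181, nat_lit 5652103238,
   nat_lit 5649859677, nat_lit 4, nat_lit 5649883253, nat_lit 5649883253, nat_lit 1446370117113,
   nat_lit 5652103238, nat_lit 5649859701, nat_lit 4, nat_lit 1446370117121, nat_lit 5652103238,
   nat_lit 4, nat_lit 8, nat_lit 5652481133, nat_lit 5639898213, nat_lit 5649899721,
   nat_lit 5649899721, nat_lit 12, nat_lit 1443889808917, nat_lit 5652218989, nat_lit 5639636069,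
   nat_lit 5649883337, nat_lit 5649883337, nat_lit 8, nat_lit 5652481133, nat_lit 4339401849,
   nat_lit 5639921849, nat_lit 5639921849, nat_lit 12, nat_lit 1443891643925, nat_lit 5652103238,
   nat_lit 5652218989, nat_lit 4507174025, nat_lit 4507174025, nat_lit 5649883337, nat_lit 8,
   nat_lit 5652481133, nat_lit 4339401849, nat_lit 5639921849, nat_lit 5639921849, nat_lit 12,
   nat_lit 1443891643925, nat_lit 5652481133, nat_lit 4473619633, nat_lit 4473619633,
   nat_lit 5639921849, nat_lit 12, nat_lit 1443891643925, nat_lit 1443891643925,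
   nat_lit 5652103238, nat_lit 5649859677, nat_lit 4, nat_lit 8, nat_lit 4538893433,
   nat_lit 5649899637, nat_lit 12, nat_lit 1446379037185, nat_lit 4534699129, nat_lit 5649883253,
   nat_lit 8, nat_lit 4540728441, nat_lit 5649899637, nat_lit 12, nat_lit 1446379151873,
   nat_lit 5652103238, nat_lit 4507174017, nat_lit 5649883253, nat_lit 8, nat_lit 4540728441,
   nat_lit 5649899637, nat_lit 12, nat_lit 1446379151873, nat_lit 4540728441, nat_lit 5649899637,
   nat_lit 12, nat_lit 1446379151873, nat_lit 1446379151873, nat_lit 5652103238,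
   nat_lit 5649859701, nat_lit 4, nat_lit 8, nat_lit 12, nat_lit 1446379030017, nat_lit 8,
   nat_lit 12, nat_lit 1446379144705, nat_lit 5652103238, nat_lit 8, nat_lit 12,
   nat_lit 1446379144705, nat_lit 12, nat_lit 1446379144705, nat_lit 1446379144705,
   nat_lit 5652103238, nat_lit 5649752265, nat_lit 5650276557, nat_lit 5649752181, nat_lit 4,
   nat_lit 8, nat_lit 5649899637, nat_lit 12, nat_lit 1446379037185, nat_lit 5649883253,
   nat_lit 8, nat_lit 5649899637, nat_lit 12, nat_lit 1446379151873, nat_lit 5652217926,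
   nat_lit 5649883253, nat_lit 8, nat_lit 5649899637, nat_lit 12, nat_lit 1446379151873,
   nat_lit 5649899637, nat_lit 12, nat_lit 1446379151873, nat_lit 1446379151873,
   nat_lit 5652217926, nat_lit 4505100453, nat_lit 8, nat_lit 5649899637, nat_lit 1446372598265,
   nat_lit 4471546057, nat_lit 4471546053, nat_lit 4436156609, nat_lit 12, nat_lit 5040136377,
   nat_lit 5040136377, nat_lit 2263507133, nat_lit 1446339043833, nat_lit 4, nat_lit 8,
   nat_lit 12, nat_lit 1446379030017, nat_lit 8, nat_lit 12, nat_lit 1446379144705,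
   nat_lit 5652103238, nat_lit 8, nat_lit 12, nat_lit 1446379144705, nat_lit 12,
   nat_lit 1446379144705, nat_lit 1446379144705, nat_lit 5652103238, nat_lit 8,
   nat_lit 1446372598233, nat_lit 1446372598233, nat_lit 12, nat_lit 11952349377,
   nat_lit 1446376792537, nat_lit 2263507133, nat_lit 1446339043801, nat_lit 0, nat_lit 4,
   nat_lit 5652103238, nat_lit 4, nat_lit 8, nat_lit 5649892469, nat_lit 12, nat_lit 12164433053,
   nat_lit 6119654517, nat_lit 5048403129, nat_lit 5035820217, nat_lit 5649876085, nat_lit 8,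
   nat_lit 5649892469, nat_lit 12, nat_lit 12164433053, nat_lit 6119654517, nat_lit 5048517817,
   nat_lit 5035934905, nat_lit 5652103238, nat_lit 5649876085, nat_lit 8, nat_lit 5649892469,
   nat_lit 12, nat_lit 12164433053, nat_lit 6119654517, nat_lit 5048517817, nat_lit 5035934905,
   nat_lit 5649892469, nat_lit 12, nat_lit 12164433053, nat_lit 6119654517, nat_lit 5048517817,
   nat_lit 5035934905, nat_lit 5652103238, nat_lit 4, nat_lit 5652218989, nat_lit 5639636069,
   nat_lit 5649883337, nat_lit 5649883337, nat_lit 90234193181, nat_lit 5652103238,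
   nat_lit 5649859677, nat_lit 4, nat_lit 5649883253, nat_lit 5649883253, nat_lit 1446370117113,
   nat_lit 5652103238, nat_lit 5649859701, nat_lit 4, nat_lit 1446370117121, nat_lit 5652103238,
   nat_lit 4, nat_lit 8, nat_lit 5652481133, nat_lit 5639898213, nat_lit 5649899721,
   nat_lit 5649899721, nat_lit 12, nat_lit 12164433053, nat_lit 6123856069, nat_lit 5048501425,
   nat_lit 6109569209, nat_lit 5652218989, nat_lit 5639636069, nat_lit 5649883337,
   nat_lit 5649883337, nat_lit 8, nat_lit 5652481133, nat_lit 4339401849, nat_lit 5639921849,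
   nat_lit 5639921849, nat_lit 12, nat_lit 12164433053, nat_lit 6109683897, nat_lit 5048517817,
   nat_lit 6109683897, nat_lit 5652103238, nat_lit 5652218989, nat_lit 4507174025,
   nat_lit 4507174025, nat_lit 5649883337, nat_lit 8, nat_lit 5652481133, nat_lit 4339401849,
   nat_lit 5639921849, nat_lit 5639921849, nat_lit 12, nat_lit 12164433053, nat_lit 6109683897,
   nat_lit 5048517817, nat_lit 6109683897, nat_lit 5652481133, nat_lit 4473619633,
   nat_lit 4473619633, nat_lit 5639921849, nat_lit 12, nat_lit 12164433053, nat_lit 6109683897,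
   nat_lit 5048517817, nat_lit 6109683897, nat_lit 5652103238, nat_lit 5649859677, nat_lit 4,
   nat_lit 8, nat_lit 4538893433, nat_lit 5649899637, nat_lit 12, nat_lit 12164440221,
   nat_lit 6119661685, nat_lit 5048410297, nat_lit 5035827385, nat_lit 4534699129,
   nat_lit 5649883253, nat_lit 8, nat_lit 4540728441, nat_lit 5649899637, nat_lit 12,
   nat_lit 12164440221, nat_lit 6119661685, nat_lit 5048524985, nat_lit 5035942073,
   nat_lit 5652103238, nat_lit 4507174017, nat_lit 5649883253, nat_lit 8, nat_lit 4540728441,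
   nat_lit 5649899637, nat_lit 12, nat_lit 12164440221, nat_lit 6119661685, nat_lit 5048524985,
   nat_lit 5035942073, nat_lit 4540728441, nat_lit 5649899637, nat_lit 12, nat_lit 12164440221,
   nat_lit 6119661685, nat_lit 5048524985, nat_lit 5035942073, nat_lit 5652103238,
   nat_lit 5649859701, nat_lit 12, nat_lit 12164400285, nat_lit 12164400285, nat_lit 6119621749,
   nat_lit 6119530613, nat_lit 5046404301, nat_lit 6119530613, nat_lit 5033821389, nat_lit 4,
   nat_lit 5035656397, nat_lit 5035656397, nat_lit 5649752265, nat_lit 5650276557,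
   nat_lit 5649752181, nat_lit 4, nat_lit 8, nat_lit 5649899637, nat_lit 12, nat_lit 12164440221,
   nat_lit 6119661685, nat_lit 5048410297, nat_lit 5035827385, nat_lit 5649883253, nat_lit 8,
   nat_lit 5649899637, nat_lit 12, nat_lit 12164440221, nat_lit 6119661685, nat_lit 5048524985,
   nat_lit 5035942073, nat_lit 5652217926, nat_lit 5649883253, nat_lit 8, nat_lit 5649899637,
   nat_lit 12, nat_lit 12164440221, nat_lit 6119661685, nat_lit 5048524985, nat_lit 5035942073,
   nat_lit 5649899637, nat_lit 12, nat_lit 12164440221, nat_lit 6119661685, nat_lit 5048524985,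
   nat_lit 5035942073, nat_lit 5652217926, nat_lit 4505100453, nat_lit 8, nat_lit 5649899637,
   nat_lit 1446372598265, nat_lit 4471546057, nat_lit 4471546053, nat_lit 4436156609, nat_lit 12,
   nat_lit 12164440221, nat_lit 11952349377, nat_lit 5048524985, nat_lit 5040136377,
   nat_lit 1446339043833, nat_lit 12, nat_lit 12164292697, nat_lit 12164292697, nat_lit 8,
   nat_lit 6119661685, nat_lit 6119661685, nat_lit 12088418473, nat_lit 6119530613,
   nat_lit 5045772381, nat_lit 6119530613, nat_lit 8, nat_lit 5035820217, nat_lit 5033854157,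
   nat_lit 11819983013, nat_lit 4, nat_lit 5035558093, nat_lit 5033837753, nat_lit 80539443489,
   nat_lit 0, nat_lit 4, nat_lit 5652103238, nat_lit 4, nat_lit 12, nat_lit 12164301981,
   nat_lit 6119523445, nat_lit 6119523445, nat_lit 8, nat_lit 5075141833, nat_lit 5075141829,
   nat_lit 5649876085, nat_lit 12, nat_lit 12164416669, nat_lit 12164416669, nat_lit 6119638133,
   nat_lit 6119638133, nat_lit 5048140985, nat_lit 6119638133, nat_lit 5035558073, nat_lit 8,
   nat_lit 5075256521, nat_lit 5075256517, nat_lit 5652103238, nat_lit 5649876085, nat_lit 12,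
   nat_lit 12164416669, nat_lit 12164416669, nat_lit 6119638133, nat_lit 6119531637,
   nat_lit 5046420685, nat_lit 6119531637, nat_lit 5033837773, nat_lit 8, nat_lit 5075149941,
   nat_lit 5075256517, nat_lit 5652103238, nat_lit 4, nat_lit 5652218989, nat_lit 5639636069,
   nat_lit 5649883337, nat_lit 5649883337, nat_lit 90234193181, nat_lit 5652103238,
   nat_lit 5649859677, nat_lit 4, nat_lit 5649883253, nat_lit 5649883253, nat_lit 1446370117113,
   nat_lit 5652103238, nat_lit 5649859701, nat_lit 4, nat_lit 1446370117121, nat_lit 5652103238,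
   nat_lit 4, nat_lit 12, nat_lit 12164400277, nat_lit 6123724997, nat_lit 5046404273, nat_lit 8,
   nat_lit 4545184913, nat_lit 4545184905, nat_lit 4545184905, nat_lit 6148890821,
   nat_lit 6148890821, nat_lit 5652218989, nat_lit 5639636069, nat_lit 5649883337,
   nat_lit 5649883337, nat_lit 12, nat_lit 12164416669, nat_lit 12164416669, nat_lit 6123839685,
   nat_lit 6123839685, nat_lit 5048239281, nat_lit 5048239281, nat_lit 6109307065, nat_lit 8,
   nat_lit 5077599409, nat_lit 5077599409, nat_lit 5077599409, nat_lit 6149005509,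
   nat_lit 6149005509, nat_lit 5652103238, nat_lit 5652218989, nat_lit 4507174025,
   nat_lit 4507174025, nat_lit 5649883337, nat_lit 12, nat_lit 12164416669, nat_lit 12164416669,
   nat_lit 6123839685, nat_lit 6123839685, nat_lit 5048239281, nat_lit 5048239281,
   nat_lit 6107586765, nat_lit 8, nat_lit 5077599409, nat_lit 5077599409, nat_lit 5077599409,
   nat_lit 6149005509, nat_lit 6149005509, nat_lit 5652103238, nat_lit 5649859677, nat_lit 4,
   nat_lit 12, nat_lit 12164309149, nat_lit 6119530613, nat_lit 6119530613, nat_lit 8,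
   nat_lit 4545184897, nat_lit 5075149001, nat_lit 5075148997, nat_lit 4534699129,
   nat_lit 5649883253, nat_lit 12, nat_lit 12164423837, nat_lit 12164423837, nat_lit 6119645301,
   nat_lit 6119645301, nat_lit 5048148153, nat_lit 6119645301, nat_lit 5035565241, nat_lit 8,
   nat_lit 5077599409, nat_lit 5075263689, nat_lit 5075263685, nat_lit 5652103238,
   nat_lit 4507174017, nat_lit 5649883253, nat_lit 12, nat_lit 12164423837, nat_lit 12164423837,
   nat_lit 6119645301, nat_lit 6119645301, nat_lit 5046427853, nat_lit 6119645301,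
   nat_lit 5033844941, nat_lit 8, nat_lit 5077599409, nat_lit 5075263689, nat_lit 5075263685,
   nat_lit 5652103238, nat_lit 5649859701, nat_lit 8, nat_lit 11090658461, nat_lit 11090658461,
   nat_lit 6052512885, nat_lit 6052421749, nat_lit 4979295437, nat_lit 6052421749,
   nat_lit 4966712525, nat_lit 4, nat_lit 4968547533, nat_lit 4968547533, nat_lit 5649752265,
   nat_lit 5650276557, nat_lit 5649752181, nat_lit 4, nat_lit 12, nat_lit 12164309149,
   nat_lit 6119530613, nat_lit 6119530613, nat_lit 8, nat_lit 5075149001, nat_lit 5075148997,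
   nat_lit 5649883253, nat_lit 12, nat_lit 12164423837, nat_lit 12164423837, nat_lit 6119645301,
   nat_lit 6119645301, nat_lit 5048148153, nat_lit 6119645301, nat_lit 5035565241, nat_lit 8,
   nat_lit 5075263689, nat_lit 5075263685, nat_lit 5652217926, nat_lit 5649883253, nat_lit 12,
   nat_lit 12164423837, nat_lit 12164423837, nat_lit 6119645301, nat_lit 6119645301,
   nat_lit 5046427853, nat_lit 6119645301, nat_lit 5033844941, nat_lit 8, nat_lit 5075263689,
   nat_lit 5075263685, nat_lit 5652217926, nat_lit 4505100453, nat_lit 12, nat_lit 12164423837,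
   nat_lit 12164423837, nat_lit 12088402129, nat_lit 12088402133, nat_lit 5046427853,
   nat_lit 6119645301, nat_lit 5033844941, nat_lit 8, nat_lit 5075525833, nat_lit 5075525829,
   nat_lit 1446339043833, nat_lit 8, nat_lit 11090550873, nat_lit 11090550873, nat_lit 12,
   nat_lit 12189753485, nat_lit 12189753485, nat_lit 4, nat_lit 6119645301, nat_lit 6119645301,
   nat_lit 12491055313, nat_lit 6119530613, nat_lit 6052421749, nat_lit 4978663517,
   nat_lit 6052421749, nat_lit 12, nat_lit 12166127741, nat_lit 12166127741, nat_lit 4,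
   nat_lit 12121694365, nat_lit 12121694365, nat_lit 12121956509, nat_lit 12121579677,
   nat_lit 5048403129, nat_lit 12054470813, nat_lit 4, nat_lit 5075256517, nat_lit 5075256517,
   nat_lit 12491055313, nat_lit 5075141829, nat_lit 4, nat_lit 4968449229, nat_lit 4966728889,
   nat_lit 79465701665, nat_lit 0, nat_lit 4, nat_lit 5652103238, nat_lit 4, nat_lit 8,
   nat_lit 5652365382, nat_lit 5649876085, nat_lit 8, nat_lit 1446374573569, nat_lit 5652365382,
   nat_lit 5652103238, nat_lit 5649876085, nat_lit 12, nat_lit 12164416669, nat_lit 12164416669,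
   nat_lit 6119638133, nat_lit 6119531637, nat_lit 5046420685, nat_lit 6119531637,
   nat_lit 5033837773, nat_lit 8, nat_lit 5035934925, nat_lit 5035934925, nat_lit 5652103238,
   nat_lit 4, nat_lit 5652218989, nat_lit 5639636069, nat_lit 5649883337, nat_lit 5649883337,
   nat_lit 90234193181, nat_lit 5652103238, nat_lit 5649859677, nat_lit 4, nat_lit 5649883253,
   nat_lit 5649883253, nat_lit 1446370117113, nat_lit 5652103238, nat_lit 5649859701, nat_lit 4,
   nat_lit 1446370117121, nat_lit 5652103238, nat_lit 4, nat_lit 8, nat_lit 5652365382,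
   nat_lit 5652218989, nat_lit 5639636069, nat_lit 5649883337, nat_lit 5649883337, nat_lit 8,
   nat_lit 1443818505749, nat_lit 5652365382, nat_lit 5652103238, nat_lit 5652218989,
   nat_lit 4507174025, nat_lit 4507174025, nat_lit 5649883337, nat_lit 12, nat_lit 12164416669,
   nat_lit 12164416669, nat_lit 6123839685, nat_lit 6123839685, nat_lit 5048239281,
   nat_lit 5048239281, nat_lit 6107586765, nat_lit 8, nat_lit 6109683917, nat_lit 6109683917,
   nat_lit 5652103238, nat_lit 5649859677, nat_lit 4, nat_lit 8, nat_lit 5652365382,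
   nat_lit 4534699129, nat_lit 5649883253, nat_lit 8, nat_lit 1446374580737, nat_lit 5652365382,
   nat_lit 5652103238, nat_lit 4507174017, nat_lit 5649883253, nat_lit 12, nat_lit 12164423837,
   nat_lit 12164423837, nat_lit 6119645301, nat_lit 6119645301, nat_lit 5046427853,
   nat_lit 6119645301, nat_lit 5033844941, nat_lit 8, nat_lit 5035942093, nat_lit 5035942093,
   nat_lit 5652103238, nat_lit 5649859701, nat_lit 12, nat_lit 12164400285, nat_lit 12164400285,
   nat_lit 6119621749, nat_lit 6119530613, nat_lit 5046404301, nat_lit 6119530613,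
   nat_lit 5033821389, nat_lit 8, nat_lit 5035918541, nat_lit 5035918541, nat_lit 5649752265,
   nat_lit 5650276557, nat_lit 5649752181, nat_lit 4, nat_lit 8, nat_lit 5652480070,
   nat_lit 5649883253, nat_lit 8, nat_lit 1446374580737, nat_lit 5652480070, nat_lit 5652217926,
   nat_lit 5649883253, nat_lit 12, nat_lit 12164423837, nat_lit 12164423837, nat_lit 6119645301,
   nat_lit 6119645301, nat_lit 5046427853, nat_lit 6119645301, nat_lit 5033844941, nat_lit 8,
   nat_lit 5035942093, nat_lit 5035942093, nat_lit 5652217926, nat_lit 4505100453, nat_lit 12,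
   nat_lit 12164423837, nat_lit 12164423837, nat_lit 12088402129, nat_lit 12088402133,
   nat_lit 5046427853, nat_lit 6119645301, nat_lit 5033844941, nat_lit 8, nat_lit 5035942093,
   nat_lit 11987738845, nat_lit 5040136397, nat_lit 1446339043833, nat_lit 12,
   nat_lit 12164292697, nat_lit 12164292697, nat_lit 4, nat_lit 6119645301, nat_lit 6119645301,
   nat_lit 12088402089, nat_lit 6119530613, nat_lit 5045772381, nat_lit 6119530613, nat_lit 4,
   nat_lit 5035558073, nat_lit 5033837773, nat_lit 11819966629, nat_lit 8, nat_lit 5035820237,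
   nat_lit 5033854137, nat_lit 80539459873, nat_lit 0, nat_lit 352346173, nat_lit 353132605,
   nat_lit 353116201, nat_lit 281567277, nat_lit 90396189005, nat_lit 8, nat_lit 90398286157,
   nat_lit 90398286157, nat_lit 4, nat_lit 5637579961, nat_lit 5650162873, nat_lit 5649753205,
   nat_lit 72081891669, nat_lit 1446339061209, nat_lit 16, nat_lit 13237257373,
   nat_lit 6186632309, nat_lit 5112890529, nat_lit 12, nat_lit 5652612205, nat_lit 5146444961,
   nat_lit 5146444961, nat_lit 5146445001, nat_lit 5146444997, nat_lit 12, nat_lit 16,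
   nat_lit 5652889670, nat_lit 0, nat_lit 4, nat_lit 8, nat_lit 4507459713, nat_lit 4, nat_lit 8,
   nat_lit 4436156517, nat_lit 1446341403005, nat_lit 8, nat_lit 23141424980597, nat_lit 16,
   nat_lit 1446381117821, nat_lit 1446341796213, nat_lit 16, nat_lit 5653054573,
   nat_lit 5640471653, nat_lit 5649935561, nat_lit 5649935561, nat_lit 90247562525,
   nat_lit 5652889670, nat_lit 5649908829, nat_lit 16, nat_lit 5649935477, nat_lit 5649935477,
   nat_lit 1446383486457, nat_lit 5652889670, nat_lit 5649908853, nat_lit 16,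
   nat_lit 1446383486465, nat_lit 5652889670, nat_lit 16, nat_lit 0, nat_lit 4, nat_lit 8,
   nat_lit 5581481181, nat_lit 5581481169, nat_lit 5652784329, nat_lit 5652759645, nat_lit 8,
   nat_lit 5652784245, nat_lit 4, nat_lit 8, nat_lit 5581481181, nat_lit 5652743261, nat_lit 4,
   nat_lit 8, nat_lit 5686059109, nat_lit 5686059109, nat_lit 4545208417, nat_lit 5652766813,
   nat_lit 8, nat_lit 4545208405, nat_lit 5652743285, nat_lit 4, nat_lit 8, nat_lit 5551841381,
   nat_lit 5551841381, nat_lit 5652784329, nat_lit 5652784329, nat_lit 4473619653,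
   nat_lit 5652759645, nat_lit 8, nat_lit 5652784245, nat_lit 5652784245, nat_lit 4473619653,
   nat_lit 5652759669, nat_lit 8, nat_lit 2930115773, nat_lit 5652635849, nat_lit 5652635809,
   nat_lit 5652635765, nat_lit 4, nat_lit 8, nat_lit 4545077333, nat_lit 8, nat_lit 5686059109,
   nat_lit 5686059109, nat_lit 4545208417, nat_lit 4545208417, nat_lit 5652766813, nat_lit 8,
   nat_lit 4545208405, nat_lit 4545208405, nat_lit 4544815189, nat_lit 4542849121,
   nat_lit 5652766813, nat_lit 4542849109, nat_lit 8, nat_lit 4545208405, nat_lit 4545208405,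
   nat_lit 4, nat_lit 8, nat_lit 5652776053, nat_lit 1443292012929, nat_lit 8,
   nat_lit 5551841381, nat_lit 5551841381, nat_lit 5652784329, nat_lit 5652784329,
   nat_lit 1443292012929, nat_lit 5652759645, nat_lit 8, nat_lit 5652784245, nat_lit 5652784245,
   nat_lit 1443292144001, nat_lit 5652759669, nat_lit 1443291750785, nat_lit 5652636873,
   nat_lit 5652636833, nat_lit 5652636789, nat_lit 8, nat_lit 5652784245, nat_lit 1443292144001,
   nat_lit 5652784245, nat_lit 1443292144001, nat_lit 8, nat_lit 1443292012929,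
   nat_lit 23092636836473, nat_lit 5653054573, nat_lit 5640471653, nat_lit 5649935561,
   nat_lit 5649935561, nat_lit 0, nat_lit 4, nat_lit 8, nat_lit 5623424221, nat_lit 5623424209,
   nat_lit 4549682385, nat_lit 5652759645, nat_lit 8, nat_lit 4549682345, nat_lit 4, nat_lit 8,
   nat_lit 5623424221, nat_lit 5652743261, nat_lit 4, nat_lit 8, nat_lit 6222930021,
   nat_lit 6222930021, nat_lit 4549682385, nat_lit 5652766813, nat_lit 8, nat_lit 4549682345,
   nat_lit 4549641385, nat_lit 4, nat_lit 8, nat_lit 6222930021, nat_lit 6222930021,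
   nat_lit 5149188197, nat_lit 5149188197, nat_lit 13667533977, nat_lit 5652759645, nat_lit 8,
   nat_lit 5149188197, nat_lit 5149188197, nat_lit 13667533977, nat_lit 5148902593, nat_lit 8,
   nat_lit 13667534013, nat_lit 4549533905, nat_lit 4549533865, nat_lit 4549533865, nat_lit 4,
   nat_lit 8, nat_lit 4549674153, nat_lit 8, nat_lit 6222930021, nat_lit 6222930021,
   nat_lit 4549682385, nat_lit 4549682385, nat_lit 5652766813, nat_lit 8, nat_lit 4549682345,
   nat_lit 4549682345, nat_lit 4549657769, nat_lit 4549534929, nat_lit 5652766813,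
   nat_lit 4549534889, nat_lit 8, nat_lit 4549682345, nat_lit 4549682345, nat_lit 4, nat_lit 8,
   nat_lit 5149057125, nat_lit 1443963101569, nat_lit 8, nat_lit 6222930021, nat_lit 6222930021,
   nat_lit 5149188197, nat_lit 5149188197, nat_lit 1443963101569, nat_lit 5652759645, nat_lit 8,
   nat_lit 5149188197, nat_lit 5149188197, nat_lit 1443963232641, nat_lit 5148794981,
   nat_lit 1443962839425, nat_lit 5146828901, nat_lit 5146828901, nat_lit 5146828901, nat_lit 8,
   nat_lit 5149188197, nat_lit 1443963232641, nat_lit 5149188197, nat_lit 1443963232641,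
   nat_lit 8, nat_lit 1443963101569, nat_lit 23103374254713, nat_lit 5652889670,
   nat_lit 5653054573, nat_lit 4508009609, nat_lit 4508009609, nat_lit 5649935561, nat_lit 0,
   nat_lit 4, nat_lit 8, nat_lit 5623424221, nat_lit 5623424209, nat_lit 4549682385,
   nat_lit 5652759645, nat_lit 8, nat_lit 4549682345, nat_lit 4, nat_lit 8, nat_lit 5623424221,
   nat_lit 5652743261, nat_lit 4, nat_lit 8, nat_lit 6222930021, nat_lit 6222930021,
   nat_lit 4549682385, nat_lit 5652766813, nat_lit 8, nat_lit 4549682345, nat_lit 4549641385,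
   nat_lit 4, nat_lit 8, nat_lit 6222930021, nat_lit 6222930021, nat_lit 5149188197,
   nat_lit 5149188197, nat_lit 13667533977, nat_lit 5652759645, nat_lit 8, nat_lit 5149188197,
   nat_lit 5149188197, nat_lit 13667533977, nat_lit 5148902593, nat_lit 8, nat_lit 13667534013,
   nat_lit 4549533905, nat_lit 4549533865, nat_lit 4549533865, nat_lit 4, nat_lit 8,
   nat_lit 4549674153, nat_lit 8, nat_lit 6222930021, nat_lit 6222930021, nat_lit 4549682385,
   nat_lit 4549682385, nat_lit 5652766813, nat_lit 8, nat_lit 4549682345, nat_lit 4549682345,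
   nat_lit 4549657769, nat_lit 4549534929, nat_lit 5652766813, nat_lit 4549534889, nat_lit 8,
   nat_lit 4549682345, nat_lit 4549682345, nat_lit 4, nat_lit 8, nat_lit 5149057125,
   nat_lit 1443963101569, nat_lit 8, nat_lit 6222930021, nat_lit 6222930021, nat_lit 5149188197,
   nat_lit 5149188197, nat_lit 1443963101569, nat_lit 5652759645, nat_lit 8, nat_lit 5149188197,
   nat_lit 5149188197, nat_lit 1443963232641, nat_lit 5148794981, nat_lit 1443962839425,
   nat_lit 5146828901, nat_lit 5146828901, nat_lit 5146828901, nat_lit 8, nat_lit 5149188197,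
   nat_lit 1443963232641, nat_lit 5149188197, nat_lit 1443963232641, nat_lit 8,
   nat_lit 1443963101569, nat_lit 23103374254713, nat_lit 5652889670, nat_lit 5649908829,
   nat_lit 16, nat_lit 0, nat_lit 4, nat_lit 8, nat_lit 4507739301, nat_lit 4, nat_lit 8,
   nat_lit 4507739301, nat_lit 4507698341, nat_lit 4, nat_lit 8, nat_lit 4478099557,
   nat_lit 4478099557, nat_lit 2930115737, nat_lit 4477813953, nat_lit 8, nat_lit 2930115773,
   nat_lit 4507590821, nat_lit 4, nat_lit 8, nat_lit 4507731109, nat_lit 8, nat_lit 4507739301,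
   nat_lit 4507739301, nat_lit 4507714725, nat_lit 4507591845, nat_lit 8, nat_lit 4507739301,
   nat_lit 4507739301, nat_lit 4, nat_lit 8, nat_lit 4477968485, nat_lit 1446341271933,
   nat_lit 8, nat_lit 4478099557, nat_lit 4478099557, nat_lit 1446341403005, nat_lit 4477706341,
   nat_lit 1446341009789, nat_lit 4475740261, nat_lit 8, nat_lit 4478099557,
   nat_lit 1446341403005, nat_lit 4478099557, nat_lit 1446341403005, nat_lit 8,
   nat_lit 1446341271933, nat_lit 23141466923637, nat_lit 4547331193, nat_lit 5649935477,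
   nat_lit 0, nat_lit 4, nat_lit 8, nat_lit 4549682341, nat_lit 4, nat_lit 8, nat_lit 4549682341,
   nat_lit 4549641381, nat_lit 4, nat_lit 8, nat_lit 5149188197, nat_lit 5149188197,
   nat_lit 13667533977, nat_lit 5148902593, nat_lit 8, nat_lit 13667534013, nat_lit 4549533861,
   nat_lit 4, nat_lit 8, nat_lit 4549674149, nat_lit 8, nat_lit 4549682341, nat_lit 4549682341,
   nat_lit 4549657765, nat_lit 4549534885, nat_lit 8, nat_lit 4549682341, nat_lit 4549682341,
   nat_lit 4, nat_lit 8, nat_lit 5149057125, nat_lit 1446383214973, nat_lit 8,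
   nat_lit 5149188197, nat_lit 5149188197, nat_lit 1446383346045, nat_lit 5148794981,
   nat_lit 1446382952829, nat_lit 5146828901, nat_lit 8, nat_lit 5149188197,
   nat_lit 1446383346045, nat_lit 5149188197, nat_lit 1446383346045, nat_lit 8,
   nat_lit 1446341271933, nat_lit 23142138012277, nat_lit 5652889670, nat_lit 4508009601,
   nat_lit 5649935477, nat_lit 0, nat_lit 4, nat_lit 8, nat_lit 4549682341, nat_lit 4, nat_lit 8,
   nat_lit 4549682341, nat_lit 4549641381, nat_lit 4, nat_lit 8, nat_lit 5149188197,
   nat_lit 5149188197, nat_lit 13667533977, nat_lit 5148902593, nat_lit 8, nat_lit 13667534013,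
   nat_lit 4549533861, nat_lit 4, nat_lit 8, nat_lit 4549674149, nat_lit 8, nat_lit 4549682341,
   nat_lit 4549682341, nat_lit 4549657765, nat_lit 4549534885, nat_lit 8, nat_lit 4549682341,
   nat_lit 4549682341, nat_lit 4, nat_lit 8, nat_lit 5149057125, nat_lit 1446383214973,
   nat_lit 8, nat_lit 5149188197, nat_lit 5149188197, nat_lit 1446383346045, nat_lit 5148794981,
   nat_lit 1446382952829, nat_lit 5146828901, nat_lit 8, nat_lit 5149188197,
   nat_lit 1446383346045, nat_lit 5149188197, nat_lit 1446383346045, nat_lit 8,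
   nat_lit 1446341271933, nat_lit 23142138012277, nat_lit 5652889670, nat_lit 5649908853,
   nat_lit 0, nat_lit 4, nat_lit 8, nat_lit 1446374671873, nat_lit 1446341641729,
   nat_lit 1446341534077, nat_lit 16, nat_lit 1446383477117, nat_lit 1446383477117,
   nat_lit 5649755337, nat_lit 5650279629, nat_lit 5649755253, nat_lit 0, nat_lit 4, nat_lit 8,
   nat_lit 4507739301, nat_lit 4, nat_lit 8, nat_lit 4478099557, nat_lit 1446341403005,
   nat_lit 8, nat_lit 23141466923637, nat_lit 16, nat_lit 1446381281661, nat_lit 1446341960053,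
   nat_lit 1446341960053, nat_lit 0, nat_lit 4, nat_lit 8, nat_lit 23141424980597, nat_lit 16,
   nat_lit 1446381117821, nat_lit 1446341796213, nat_lit 1446339096025, nat_lit 0, nat_lit 8,
   nat_lit 5652365382, nat_lit 8, nat_lit 4, nat_lit 12, nat_lit 5652759661, nat_lit 5640176741,
   nat_lit 5649917129, nat_lit 5649876061, nat_lit 12, nat_lit 4543104121, nat_lit 5649892469,
   nat_lit 12, nat_lit 4, nat_lit 5652759661, nat_lit 5652759661, nat_lit 5649908829, nat_lit 4,
   nat_lit 5640201401, nat_lit 5652784313, nat_lit 4545201273, nat_lit 5640201401,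
   nat_lit 5652784313, nat_lit 4545201273, nat_lit 5652365382, nat_lit 5649892469, nat_lit 4,
   nat_lit 12, nat_lit 5652759661, nat_lit 4343874681, nat_lit 5640201401, nat_lit 5652759661,
   nat_lit 4478092465, nat_lit 4478092465, nat_lit 5649876061, nat_lit 12, nat_lit 4545201273,
   nat_lit 4545201273, nat_lit 5652365382, nat_lit 8, nat_lit 5652481133, nat_lit 5639898213,
   nat_lit 5649899721, nat_lit 5649899721, nat_lit 90238387485, nat_lit 5652365382,
   nat_lit 5649859677, nat_lit 8, nat_lit 5649899637, nat_lit 5649899637, nat_lit 1446374311417,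
   nat_lit 5652365382, nat_lit 5649859701, nat_lit 8, nat_lit 1446374311425, nat_lit 5652365382,
   nat_lit 5651841094, nat_lit 4, nat_lit 12, nat_lit 5685773405, nat_lit 12, nat_lit 5685773405,
   nat_lit 5581463733, nat_lit 5649859677, nat_lit 8, nat_lit 4, nat_lit 12, nat_lit 5652766829,
   nat_lit 5640183909, nat_lit 4499333217, nat_lit 5649883229, nat_lit 12, nat_lit 4543111289,
   nat_lit 4538893433, nat_lit 5649899637, nat_lit 12, nat_lit 4, nat_lit 5652766829,
   nat_lit 5652766829, nat_lit 5649915997, nat_lit 4, nat_lit 4343881849, nat_lit 4545208441,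
   nat_lit 4545208441, nat_lit 4343881849, nat_lit 4545208441, nat_lit 4545208441,
   nat_lit 5652365382, nat_lit 4507436161, nat_lit 5649899637, nat_lit 4, nat_lit 12,
   nat_lit 5652766829, nat_lit 4343881849, nat_lit 4343881849, nat_lit 5652766829,
   nat_lit 4478099633, nat_lit 4478099633, nat_lit 5649883229, nat_lit 12, nat_lit 4545208441,
   nat_lit 4545208441, nat_lit 5652365382, nat_lit 5649859701, nat_lit 8, nat_lit 4, nat_lit 12,
   nat_lit 5652759661, nat_lit 5640176741, nat_lit 5649917129, nat_lit 5649917129,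
   nat_lit 90242942237, nat_lit 5649876061, nat_lit 12, nat_lit 4543104121, nat_lit 5649917045,
   nat_lit 1446377054581, nat_lit 5649876085, nat_lit 12, nat_lit 1446378866177, nat_lit 12,
   nat_lit 4, nat_lit 5652759661, nat_lit 5652759661, nat_lit 5649908829, nat_lit 4,
   nat_lit 5004461261, nat_lit 5652784313, nat_lit 4545201273, nat_lit 5640201401,
   nat_lit 5652784313, nat_lit 4545201273, nat_lit 5649908853, nat_lit 4, nat_lit 12520654029,
   nat_lit 5649876061, nat_lit 12520654029, nat_lit 5649876085, nat_lit 1446378866177,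
   nat_lit 90242942237, nat_lit 5649876061, nat_lit 1446379151733, nat_lit 5649876085,
   nat_lit 1446378866177, nat_lit 5652365382, nat_lit 4, nat_lit 12, nat_lit 5652759661,
   nat_lit 4343874681, nat_lit 5640201401, nat_lit 5640201401, nat_lit 90242942237,
   nat_lit 5652759661, nat_lit 2930115757, nat_lit 2930115757, nat_lit 2930115797,
   nat_lit 2930115797, nat_lit 5649876061, nat_lit 12, nat_lit 4545201273, nat_lit 5649917045,
   nat_lit 1446379151733, nat_lit 4545201273, nat_lit 2930115797, nat_lit 2930115797,
   nat_lit 5649876085, nat_lit 12, nat_lit 1446378866177, nat_lit 1446378866177,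
   nat_lit 5652365382, nat_lit 5651841094, nat_lit 5649752265, nat_lit 5650276557,
   nat_lit 5649752181, nat_lit 8, nat_lit 12, nat_lit 4, nat_lit 5652766829, nat_lit 5652766829,
   nat_lit 5649915997, nat_lit 4, nat_lit 4499333217, nat_lit 4543111289, nat_lit 4543111289,
   nat_lit 5041971337, nat_lit 4543111289, nat_lit 4543111289, nat_lit 4542980217,
   nat_lit 5649899637, nat_lit 12, nat_lit 4, nat_lit 5652766829, nat_lit 5652766829,
   nat_lit 5652766829, nat_lit 5649915997, nat_lit 4, nat_lit 4343881849, nat_lit 4545208441,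
   nat_lit 4545208441, nat_lit 4343881849, nat_lit 4545208441, nat_lit 4545208441,
   nat_lit 5075525769, nat_lit 4545208441, nat_lit 4545208441, nat_lit 4545077369,
   nat_lit 5652480070, nat_lit 5649899637, nat_lit 12, nat_lit 4, nat_lit 5652766829,
   nat_lit 5652766829, nat_lit 5649915997, nat_lit 4, nat_lit 4343881849, nat_lit 4545208441,
   nat_lit 4545208441, nat_lit 5075525769, nat_lit 4545208441, nat_lit 4545208441,
   nat_lit 4545077369, nat_lit 4, nat_lit 5652766829, nat_lit 5652766829, nat_lit 5649915997,
   nat_lit 4, nat_lit 4478099633, nat_lit 4545208441, nat_lit 4545208441, nat_lit 4478099633,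
   nat_lit 4545208441, nat_lit 4545208441, nat_lit 4545077369, nat_lit 5652480070,
   nat_lit 4505116837, nat_lit 4, nat_lit 4436156593, nat_lit 4503265401, nat_lit 4503265401,
   nat_lit 12, nat_lit 4545208441, nat_lit 4545208441, nat_lit 4545208441, nat_lit 1446339060217,
   nat_lit 8, nat_lit 12, nat_lit 4, nat_lit 5652759661, nat_lit 5637694669, nat_lit 5649908829,
   nat_lit 4, nat_lit 5649917129, nat_lit 5652653241, nat_lit 4543104121, nat_lit 5649917129,
   nat_lit 5652653241, nat_lit 5649753205, nat_lit 5649908853, nat_lit 1446376923509, nat_lit 12,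
   nat_lit 4, nat_lit 5652759661, nat_lit 5652759661, nat_lit 5637694669, nat_lit 5649908829,
   nat_lit 4, nat_lit 5640201401, nat_lit 5652784313, nat_lit 4545201273, nat_lit 5640201401,
   nat_lit 5652784313, nat_lit 4545201273, nat_lit 5640201401, nat_lit 5652784313,
   nat_lit 5649753205, nat_lit 5649908853, nat_lit 1446379020661, nat_lit 5652365382, nat_lit 12,
   nat_lit 4, nat_lit 5652759661, nat_lit 5637694669, nat_lit 5649908829, nat_lit 4,
   nat_lit 5640201401, nat_lit 5652784313, nat_lit 4545201273, nat_lit 5640201401,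
   nat_lit 5652784313, nat_lit 5649753205, nat_lit 5649908853, nat_lit 1446379020661, nat_lit 4,
   nat_lit 5652759661, nat_lit 5637694669, nat_lit 5649908829, nat_lit 4, nat_lit 4478092465,
   nat_lit 5652784313, nat_lit 4545201273, nat_lit 2928042125, nat_lit 5652784313,
   nat_lit 5649753205, nat_lit 5649908853, nat_lit 1446379020661, nat_lit 5652365382, nat_lit 4,
   nat_lit 5637579961, nat_lit 5650162873, nat_lit 5649753205, nat_lit 12, nat_lit 5649917045,
   nat_lit 1446379151733, nat_lit 4475757769, nat_lit 4475757765, nat_lit 2263507069,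
   nat_lit 2263507069, nat_lit 12, nat_lit 1446376809945, nat_lit 1446376809945,
   nat_lit 2263507069, nat_lit 1446339060185, nat_lit 8, nat_lit 1446372729213,
   nat_lit 1446341271925, nat_lit 4, nat_lit 5637579961, nat_lit 5650162873, nat_lit 5649753205,
   nat_lit 1446341402997, nat_lit 1446339061209, nat_lit 12, nat_lit 1446376809945,
   nat_lit 1446376809945, nat_lit 20, nat_lit 14310999197, nat_lit 6253741173,
   nat_lit 5179999393, nat_lit 16, nat_lit 5652874349, nat_lit 5217748129, nat_lit 5217748129,
   nat_lit 5217748169, nat_lit 5217748165, nat_lit 0, nat_lit 12, nat_lit 5652627526, nat_lit 12,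
   nat_lit 4, nat_lit 8, nat_lit 5652497517, nat_lit 4507452553, nat_lit 4507452553,
   nat_lit 5649876061, nat_lit 8, nat_lit 4507452545, nat_lit 5649908853, nat_lit 4,
   nat_lit 90242843933, nat_lit 5649876061, nat_lit 1446378767865, nat_lit 8, nat_lit 4545201297,
   nat_lit 4545201289, nat_lit 4545201289, nat_lit 4545201297, nat_lit 4545201289,
   nat_lit 4545201289, nat_lit 5649876061, nat_lit 8, nat_lit 4545201281, nat_lit 4545201281,
   nat_lit 5652627526, nat_lit 5649908853, nat_lit 4, nat_lit 8, nat_lit 4545201297,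
   nat_lit 4545201289, nat_lit 4545201289, nat_lit 5649876061, nat_lit 8, nat_lit 4545201281,
   nat_lit 5652627526, nat_lit 12, nat_lit 5652743277, nat_lit 5640160357, nat_lit 5649916105,
   nat_lit 5649916105, nat_lit 90242581789, nat_lit 5652627526, nat_lit 5649859677, nat_lit 12,
   nat_lit 5649916021, nat_lit 5649916021, nat_lit 1446378505721, nat_lit 5652627526,
   nat_lit 5649859701, nat_lit 12, nat_lit 1446378505729, nat_lit 5652627526, nat_lit 5651841094,
   nat_lit 4, nat_lit 8, nat_lit 5681579101, nat_lit 8, nat_lit 5681579101, nat_lit 5581201589,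
   nat_lit 5649859677, nat_lit 12, nat_lit 4, nat_lit 8, nat_lit 5652504685, nat_lit 4507459721,
   nat_lit 4507459721, nat_lit 5649883229, nat_lit 8, nat_lit 4507459713, nat_lit 4543087737,
   nat_lit 5649916021, nat_lit 4, nat_lit 90242851101, nat_lit 5649876061, nat_lit 1446378775033,
   nat_lit 8, nat_lit 4545208465, nat_lit 4545208457, nat_lit 4545208457, nat_lit 4545208465,
   nat_lit 4545208457, nat_lit 4545208457, nat_lit 5649883229, nat_lit 8, nat_lit 4545208449,
   nat_lit 4545208449, nat_lit 5652627526, nat_lit 4507698305, nat_lit 5649916021, nat_lit 4,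
   nat_lit 8, nat_lit 4545208465, nat_lit 4545208457, nat_lit 4545208457, nat_lit 5649883229,
   nat_lit 8, nat_lit 4545208449, nat_lit 5652627526, nat_lit 5649859701, nat_lit 12, nat_lit 4,
   nat_lit 8, nat_lit 5652497517, nat_lit 5547361397, nat_lit 4473619617, nat_lit 4473619657,
   nat_lit 4473619653, nat_lit 5649876061, nat_lit 8, nat_lit 4473619617, nat_lit 4473619657,
   nat_lit 4473619653, nat_lit 5649876085, nat_lit 8, nat_lit 1446374671873, nat_lit 4,
   nat_lit 5071570125, nat_lit 5071570125, nat_lit 5071570125, nat_lit 5649876085,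
   nat_lit 1446378767873, nat_lit 8, nat_lit 6151341173, nat_lit 6151341173, nat_lit 5077599393,
   nat_lit 5077599433, nat_lit 5077599429, nat_lit 6151341173, nat_lit 6151341173,
   nat_lit 5077599393, nat_lit 5077599433, nat_lit 5077599429, nat_lit 5649876061, nat_lit 8,
   nat_lit 5077599393, nat_lit 5077599433, nat_lit 5077599429, nat_lit 5077599393,
   nat_lit 5077599433, nat_lit 5077599429, nat_lit 5649876085, nat_lit 8, nat_lit 1446374671873,
   nat_lit 1446374671873, nat_lit 5652627526, nat_lit 4, nat_lit 8, nat_lit 6151341173,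
   nat_lit 6151341173, nat_lit 5077599393, nat_lit 5077599433, nat_lit 5077599429,
   nat_lit 5649876061, nat_lit 8, nat_lit 5077599393, nat_lit 5077599433, nat_lit 5077599429,
   nat_lit 5649876085, nat_lit 8, nat_lit 1446374671873, nat_lit 5652627526, nat_lit 5651841094,
   nat_lit 5649752265, nat_lit 5650276557, nat_lit 5649752181, nat_lit 12, nat_lit 4, nat_lit 8,
   nat_lit 4507328641, nat_lit 8, nat_lit 5652504685, nat_lit 4507459721, nat_lit 4507459721,
   nat_lit 4507459721, nat_lit 5649883229, nat_lit 8, nat_lit 4507459713, nat_lit 4507459713,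
   nat_lit 4507066497, nat_lit 4505100425, nat_lit 4505100417, nat_lit 4505100417, nat_lit 8,
   nat_lit 4507459713, nat_lit 4507459713, nat_lit 5649916021, nat_lit 4, nat_lit 8,
   nat_lit 4545077377, nat_lit 4545077377, nat_lit 90242851101, nat_lit 5649876061,
   nat_lit 1446378775033, nat_lit 4544815233, nat_lit 8, nat_lit 4545208465, nat_lit 4545208457,
   nat_lit 4545208457, nat_lit 4545208457, nat_lit 4545208465, nat_lit 4545208457,
   nat_lit 4545208457, nat_lit 4545208457, nat_lit 5649883229, nat_lit 8, nat_lit 4545208449,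
   nat_lit 4545208449, nat_lit 4545208449, nat_lit 4545208449, nat_lit 4544815233,
   nat_lit 4542849161, nat_lit 4542849153, nat_lit 4542849153, nat_lit 8, nat_lit 4545208449,
   nat_lit 4545208449, nat_lit 4545208449, nat_lit 5652742214, nat_lit 5649916021, nat_lit 4,
   nat_lit 8, nat_lit 4545077377, nat_lit 8, nat_lit 4545208465, nat_lit 4545208457,
   nat_lit 4545208457, nat_lit 4545208457, nat_lit 5649883229, nat_lit 8, nat_lit 4545208449,
   nat_lit 4545208449, nat_lit 4544815233, nat_lit 4542849161, nat_lit 4542849153,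
   nat_lit 4542849153, nat_lit 8, nat_lit 4545208449, nat_lit 4545208449, nat_lit 5652742214,
   nat_lit 4505133221, nat_lit 4, nat_lit 4436418737, nat_lit 4503527545, nat_lit 4503527545,
   nat_lit 8, nat_lit 4545208449, nat_lit 1446339076601, nat_lit 12, nat_lit 4, nat_lit 8,
   nat_lit 5649892469, nat_lit 1446341271933, nat_lit 8, nat_lit 5652497517, nat_lit 4473512029,
   nat_lit 4473512029, nat_lit 5649900745, nat_lit 1443287556489, nat_lit 5649876061, nat_lit 8,
   nat_lit 4473512029, nat_lit 5649900661, nat_lit 1446341403005, nat_lit 5649876085,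
   nat_lit 1446341009789, nat_lit 5649753289, nat_lit 5650277581, nat_lit 5649753205, nat_lit 8,
   nat_lit 5649900661, nat_lit 1446341403005, nat_lit 4436156517, nat_lit 1446341403005,
   nat_lit 8, nat_lit 1446341271933, nat_lit 23141424980597, nat_lit 4, nat_lit 8,
   nat_lit 5649892469, nat_lit 1446379020669, nat_lit 5649892469, nat_lit 1446379020669,
   nat_lit 90242843933, nat_lit 5649876061, nat_lit 1446378775001, nat_lit 5649876085,
   nat_lit 1446378758525, nat_lit 8, nat_lit 5077491805, nat_lit 5077491805, nat_lit 5077491805,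
   nat_lit 5640201421, nat_lit 1443891536265, nat_lit 5077491805, nat_lit 5077491805,
   nat_lit 5077491805, nat_lit 5640201421, nat_lit 1443891536265, nat_lit 5649876061, nat_lit 8,
   nat_lit 5077491805, nat_lit 5649900661, nat_lit 1446379151741, nat_lit 5077491805,
   nat_lit 5649900661, nat_lit 1446379151741, nat_lit 5649876085, nat_lit 1446378758525,
   nat_lit 5640053965, nat_lit 5652636877, nat_lit 5649753205, nat_lit 8, nat_lit 5649900661,
   nat_lit 1446379151741, nat_lit 5649900661, nat_lit 1446379151741, nat_lit 5040136293,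
   nat_lit 1446379151741, nat_lit 8, nat_lit 1446379020669, nat_lit 1446379020669,
   nat_lit 23142028960373, nat_lit 5652627526, nat_lit 4, nat_lit 8, nat_lit 5649892469,
   nat_lit 1446379020669, nat_lit 8, nat_lit 5077491805, nat_lit 5077491805, nat_lit 5077491805,
   nat_lit 5640201421, nat_lit 1443891536265, nat_lit 5649876061, nat_lit 8, nat_lit 5077491805,
   nat_lit 5649900661, nat_lit 1446379151741, nat_lit 5649876085, nat_lit 1446378758525,
   nat_lit 5640053965, nat_lit 5652636877, nat_lit 5649753205, nat_lit 8, nat_lit 5649900661,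
   nat_lit 1446379151741, nat_lit 5040136293, nat_lit 1446379151741, nat_lit 8,
   nat_lit 1446379020669, nat_lit 23142028960373, nat_lit 5652627526, nat_lit 4,
   nat_lit 5637596345, nat_lit 5650179257, nat_lit 5649753205, nat_lit 8, nat_lit 2263507077,
   nat_lit 2263507077, nat_lit 8, nat_lit 2263507077, nat_lit 1446339076569, nat_lit 12,
   nat_lit 1446376923517, nat_lit 1446341534069, nat_lit 4, nat_lit 5637596345,
   nat_lit 5650179257, nat_lit 5649753205, nat_lit 1446341665141, nat_lit 1446339077593,
   nat_lit 8, nat_lit 20, nat_lit 14310999197, nat_lit 6253741173, nat_lit 5179999393,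
   nat_lit 16, nat_lit 5652874349, nat_lit 5217748129, nat_lit 5217748129, nat_lit 5217748169,
   nat_lit 5217748165, nat_lit 0, nat_lit 4, nat_lit 5652103238, nat_lit 4, nat_lit 12,
   nat_lit 5649908853, nat_lit 8, nat_lit 90243106077, nat_lit 5649892445, nat_lit 1446379030009,
   nat_lit 5649876085, nat_lit 12, nat_lit 5649908853, nat_lit 8, nat_lit 90243220765,
   nat_lit 5649892445, nat_lit 1446379144697, nat_lit 5652103238, nat_lit 5649876085, nat_lit 12,
   nat_lit 5649908853, nat_lit 8, nat_lit 90243220765, nat_lit 5649892445, nat_lit 1446379144697,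
   nat_lit 90243220765, nat_lit 5649892445, nat_lit 1446377071989, nat_lit 5649908853, nat_lit 8,
   nat_lit 4478092485, nat_lit 5649892445, nat_lit 4478092485, nat_lit 5652103238, nat_lit 4,
   nat_lit 5652218989, nat_lit 5639636069, nat_lit 5649883337, nat_lit 5649883337,
   nat_lit 90234193181, nat_lit 5652103238, nat_lit 5649859677, nat_lit 4, nat_lit 5649883253,
   nat_lit 5649883253, nat_lit 1446370117113, nat_lit 5652103238, nat_lit 5649859701, nat_lit 4,
   nat_lit 1446370117121, nat_lit 5652103238, nat_lit 5651841094, nat_lit 8, nat_lit 12,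
   nat_lit 5652776045, nat_lit 5640193125, nat_lit 5649918153, nat_lit 5649918153,
   nat_lit 90243106077, nat_lit 5652627526, nat_lit 4, nat_lit 5581201629, nat_lit 5581201617,
   nat_lit 5652504777, nat_lit 5652504777, nat_lit 12, nat_lit 5652776045, nat_lit 4343596153,
   nat_lit 5640183993, nat_lit 5640183993, nat_lit 90243220765, nat_lit 5551841481,
   nat_lit 5551841481, nat_lit 5551841477, nat_lit 5551841477, nat_lit 5551841477,
   nat_lit 90205472029, nat_lit 5649859677, nat_lit 4, nat_lit 12, nat_lit 4543087737,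
   nat_lit 5649916021, nat_lit 8, nat_lit 90243113245, nat_lit 5649892445, nat_lit 1446379037177,
   nat_lit 4534699129, nat_lit 5649883253, nat_lit 12, nat_lit 4544922745, nat_lit 5649916021,
   nat_lit 8, nat_lit 90243227933, nat_lit 5649892445, nat_lit 1446379151865, nat_lit 5652103238,
   nat_lit 4507174017, nat_lit 5649883253, nat_lit 12, nat_lit 4544922745, nat_lit 5649916021,
   nat_lit 8, nat_lit 90243227933, nat_lit 5649892445, nat_lit 1446379151865,
   nat_lit 90243227933, nat_lit 5649892445, nat_lit 1446379151865, nat_lit 4544922745,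
   nat_lit 5649916021, nat_lit 8, nat_lit 4478099653, nat_lit 5649892445, nat_lit 4478099653,
   nat_lit 5652103238, nat_lit 5649859701, nat_lit 4, nat_lit 12, nat_lit 8, nat_lit 5075764429,
   nat_lit 5075764429, nat_lit 5075764429, nat_lit 5649892469, nat_lit 1446379030017, nat_lit 12,
   nat_lit 8, nat_lit 5077599437, nat_lit 5077599437, nat_lit 5077599437, nat_lit 5649892469,
   nat_lit 1446379144705, nat_lit 5652103238, nat_lit 12, nat_lit 8, nat_lit 5077599437,
   nat_lit 5077599437, nat_lit 5077599437, nat_lit 5649892469, nat_lit 1446379144705,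
   nat_lit 5077599437, nat_lit 5077599437, nat_lit 5077599437, nat_lit 5649892469,
   nat_lit 1446379144705, nat_lit 8, nat_lit 5077599437, nat_lit 5077599437, nat_lit 5077599437,
   nat_lit 5649892469, nat_lit 1446379144705, nat_lit 5652103238, nat_lit 5651841094,
   nat_lit 5649752265, nat_lit 5650276557, nat_lit 5649752181, nat_lit 4, nat_lit 12,
   nat_lit 5649916021, nat_lit 8, nat_lit 90243113245, nat_lit 5649892445, nat_lit 1446379037177,
   nat_lit 4545077377, nat_lit 5649883253, nat_lit 12, nat_lit 5649916021, nat_lit 8,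
   nat_lit 90243227933, nat_lit 5649892445, nat_lit 1446379151865, nat_lit 4545077377,
   nat_lit 5652217926, nat_lit 5649883253, nat_lit 12, nat_lit 5649916021, nat_lit 8,
   nat_lit 90243227933, nat_lit 5649892445, nat_lit 1446379151865, nat_lit 4545077377,
   nat_lit 90243227933, nat_lit 5649892445, nat_lit 1446379151865, nat_lit 4545077377,
   nat_lit 5649916021, nat_lit 8, nat_lit 4478099653, nat_lit 5649892445, nat_lit 4478099653,
   nat_lit 4478099653, nat_lit 5652217926, nat_lit 4505100453, nat_lit 12, nat_lit 5649916021,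
   nat_lit 1446376792569, nat_lit 4475740361, nat_lit 4475740357, nat_lit 4436418753, nat_lit 8,
   nat_lit 4478099653, nat_lit 5637695693, nat_lit 4478099653, nat_lit 4478099653,
   nat_lit 1446339043833, nat_lit 4, nat_lit 12, nat_lit 8, nat_lit 90243106077,
   nat_lit 5649892445, nat_lit 1446379037145, nat_lit 5649892469, nat_lit 1446379020669,
   nat_lit 12, nat_lit 8, nat_lit 90243220765, nat_lit 5649892445, nat_lit 1446379151833,
   nat_lit 5649892469, nat_lit 1446379144705, nat_lit 5652103238, nat_lit 12, nat_lit 8,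
   nat_lit 90243220765, nat_lit 5649892445, nat_lit 1446379151833, nat_lit 5649892469,
   nat_lit 1446379144705, nat_lit 90243220765, nat_lit 5649892445, nat_lit 1446379151833,
   nat_lit 11989704881, nat_lit 11989704881, nat_lit 8, nat_lit 4478092485, nat_lit 5649892445,
   nat_lit 4478092485, nat_lit 5649892469, nat_lit 1446379144705, nat_lit 5652103238, nat_lit 12,
   nat_lit 1446376792537, nat_lit 1446376792537, nat_lit 8, nat_lit 2263507101,
   nat_lit 5650180281, nat_lit 2263507101, nat_lit 2263507097, nat_lit 2263507097,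
   nat_lit 1446339043801, nat_lit 4, nat_lit 1446368534909, nat_lit 1446341009781, nat_lit 12,
   nat_lit 1446376792537, nat_lit 1446376792537, nat_lit 8, nat_lit 5637597369,
   nat_lit 5650180281, nat_lit 5649754229, nat_lit 1153314742753, nat_lit 1446339078617,
   nat_lit 20, nat_lit 14310999197, nat_lit 6253741173, nat_lit 5179999393, nat_lit 16,
   nat_lit 5652874349, nat_lit 5217748129, nat_lit 5217748129, nat_lit 5217748169,
   nat_lit 5217748165]

theorem c17_0 : chk TT UT (gU 17) (sub 0 18) s17_0 = true := by decide +kernel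

def s17_18 : List ℕ :=   [nat_lit 0, nat_lit 4, nat_lit 5652103238, nat_lit 4, nat_lit 12, nat_lit 5649908853,
   nat_lit 8, nat_lit 90243106077, nat_lit 5649892445, nat_lit 1446379030009, nat_lit 5649876085,
   nat_lit 12, nat_lit 5649908853, nat_lit 8, nat_lit 90243220765, nat_lit 5649892445,
   nat_lit 1446379144697, nat_lit 5652103238, nat_lit 5649876085, nat_lit 12, nat_lit 5649908853,
   nat_lit 8, nat_lit 90243220765, nat_lit 5649892445, nat_lit 1446379144697,
   nat_lit 90243220765, nat_lit 5649892445, nat_lit 1446377071989, nat_lit 5649908853, nat_lit 8,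
   nat_lit 4478092485, nat_lit 5649892445, nat_lit 4478092485, nat_lit 5652103238, nat_lit 4,
   nat_lit 5652218989, nat_lit 5639636069, nat_lit 5649883337, nat_lit 5649883337,
   nat_lit 90234193181, nat_lit 5652103238, nat_lit 5649859677, nat_lit 4, nat_lit 5649883253,
   nat_lit 5649883253, nat_lit 1446370117113, nat_lit 5652103238, nat_lit 5649859701, nat_lit 4,
   nat_lit 1446370117121, nat_lit 5652103238, nat_lit 5651841094, nat_lit 8, nat_lit 12,
   nat_lit 5652776045, nat_lit 5640193125, nat_lit 5649918153, nat_lit 5649918153,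
   nat_lit 90243106077, nat_lit 5652627526, nat_lit 4, nat_lit 5581201629, nat_lit 5581201617,
   nat_lit 5652504777, nat_lit 5652504777, nat_lit 12, nat_lit 5652776045, nat_lit 4343596153,
   nat_lit 5640183993, nat_lit 5640183993, nat_lit 90243220765, nat_lit 5551841481,
   nat_lit 5551841481, nat_lit 5551841477, nat_lit 5551841477, nat_lit 5551841477,
   nat_lit 90205472029, nat_lit 5649859677, nat_lit 4, nat_lit 12, nat_lit 4543087737,
   nat_lit 5649916021, nat_lit 8, nat_lit 90243113245, nat_lit 5649892445, nat_lit 1446379037177,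
   nat_lit 4534699129, nat_lit 5649883253, nat_lit 12, nat_lit 4544922745, nat_lit 5649916021,
   nat_lit 8, nat_lit 90243227933, nat_lit 5649892445, nat_lit 1446379151865, nat_lit 5652103238,
   nat_lit 4507174017, nat_lit 5649883253, nat_lit 12, nat_lit 4544922745, nat_lit 5649916021,
   nat_lit 8, nat_lit 90243227933, nat_lit 5649892445, nat_lit 1446379151865,
   nat_lit 90243227933, nat_lit 5649892445, nat_lit 1446379151865, nat_lit 4544922745,
   nat_lit 5649916021, nat_lit 8, nat_lit 4478099653, nat_lit 5649892445, nat_lit 4478099653,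
   nat_lit 5652103238, nat_lit 5649859701, nat_lit 20, nat_lit 14311883933, nat_lit 14311883933,
   nat_lit 6253839477, nat_lit 6253748341, nat_lit 5180622029, nat_lit 6253748341,
   nat_lit 5168039117, nat_lit 4, nat_lit 5169874125, nat_lit 5169874125, nat_lit 5651841094,
   nat_lit 5649752265, nat_lit 5650276557, nat_lit 5649752181, nat_lit 4, nat_lit 12,
   nat_lit 5649916021, nat_lit 8, nat_lit 90243113245, nat_lit 5649892445, nat_lit 1446379037177,
   nat_lit 4545077377, nat_lit 5649883253, nat_lit 12, nat_lit 5649916021, nat_lit 8,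
   nat_lit 90243227933, nat_lit 5649892445, nat_lit 1446379151865, nat_lit 4545077377,
   nat_lit 5652217926, nat_lit 5649883253, nat_lit 12, nat_lit 5649916021, nat_lit 8,
   nat_lit 90243227933, nat_lit 5649892445, nat_lit 1446379151865, nat_lit 4545077377,
   nat_lit 90243227933, nat_lit 5649892445, nat_lit 1446379151865, nat_lit 4545077377,
   nat_lit 5649916021, nat_lit 8, nat_lit 4478099653, nat_lit 5649892445, nat_lit 4478099653,
   nat_lit 4478099653, nat_lit 5652217926, nat_lit 4505100453, nat_lit 12, nat_lit 5649916021,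
   nat_lit 1446376792569, nat_lit 4475740361, nat_lit 4475740357, nat_lit 4436418753, nat_lit 8,
   nat_lit 4478099653, nat_lit 5637695693, nat_lit 4478099653, nat_lit 4478099653,
   nat_lit 1446339043833, nat_lit 20, nat_lit 14311776345, nat_lit 14311776345, nat_lit 4,
   nat_lit 12, nat_lit 8, nat_lit 99906789661, nat_lit 5649892445, nat_lit 1600997859833,
   nat_lit 14275862673, nat_lit 14275862665, nat_lit 12, nat_lit 8, nat_lit 99906904349,
   nat_lit 5649892445, nat_lit 1600997974521, nat_lit 14275862673, nat_lit 14275862665,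
   nat_lit 6256197702, nat_lit 12, nat_lit 8, nat_lit 99906904349, nat_lit 5649892445,
   nat_lit 1600997974521, nat_lit 14275862673, nat_lit 14275862665, nat_lit 99906904349,
   nat_lit 5649892445, nat_lit 1600997974521, nat_lit 14275862673, nat_lit 14275862665,
   nat_lit 8, nat_lit 14141776069, nat_lit 5649892445, nat_lit 14141776069, nat_lit 14141776069,
   nat_lit 14141776069, nat_lit 6256197702, nat_lit 12, nat_lit 1600995615225,
   nat_lit 14139416773, nat_lit 8, nat_lit 14141776069, nat_lit 5637695693, nat_lit 14141776069,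
   nat_lit 14141776069, nat_lit 14141776069, nat_lit 1600957866489, nat_lit 6253748341,
   nat_lit 5179990109, nat_lit 6253748341, nat_lit 16, nat_lit 5217738845, nat_lit 4553966729,
   nat_lit 5217738845, nat_lit 8, nat_lit 5217886301, nat_lit 14766596193, nat_lit 14774984841,
   nat_lit 14774984841, nat_lit 5218148445, nat_lit 4, nat_lit 12, nat_lit 82724675869,
   nat_lit 14141776069, nat_lit 14141776069, nat_lit 82686927133, nat_lit 8, nat_lit 14766596193,
   nat_lit 14774984841, nat_lit 4, nat_lit 12, nat_lit 82724675869, nat_lit 14141776069,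
   nat_lit 14141776069, nat_lit 82686927133, nat_lit 4, nat_lit 5169775821, nat_lit 5168055481,
   nat_lit 82686927137, nat_lit 4, nat_lit 1446368534909, nat_lit 1446341009781, nat_lit 12,
   nat_lit 1446376792537, nat_lit 1446376792537, nat_lit 20, nat_lit 14311776345,
   nat_lit 14240211041, nat_lit 5179990109, nat_lit 16, nat_lit 5217738845, nat_lit 5217748129,
   nat_lit 5217738845, nat_lit 14764499041, nat_lit 14764499041, nat_lit 0, nat_lit 4,
   nat_lit 5652103238, nat_lit 4, nat_lit 8, nat_lit 5649892469, nat_lit 12,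
   nat_lit 1446379030017, nat_lit 5649876085, nat_lit 8, nat_lit 5649892469, nat_lit 12,
   nat_lit 1446379144705, nat_lit 5652103238, nat_lit 5649876085, nat_lit 8, nat_lit 5649892469,
   nat_lit 12, nat_lit 1446379144705, nat_lit 5649892469, nat_lit 12, nat_lit 1446379144705,
   nat_lit 1446379144705, nat_lit 5652103238, nat_lit 4, nat_lit 5652218989, nat_lit 5639636069,
   nat_lit 5649883337, nat_lit 5649883337, nat_lit 90234193181, nat_lit 5652103238,
   nat_lit 5649859677, nat_lit 4, nat_lit 5649883253, nat_lit 5649883253, nat_lit 1446370117113,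
   nat_lit 5652103238, nat_lit 5649859701, nat_lit 4, nat_lit 1446370117121, nat_lit 5652103238,
   nat_lit 5651841094, nat_lit 16, nat_lit 20, nat_lit 4, nat_lit 8, nat_lit 5652481133,
   nat_lit 14306943173, nat_lit 14239834309, nat_lit 14239834309, nat_lit 12,
   nat_lit 3784988729889, nat_lit 5652218989, nat_lit 14306926789, nat_lit 14239817925,
   nat_lit 14239817925, nat_lit 8, nat_lit 5652481133, nat_lit 14296965305, nat_lit 14229856441,
   nat_lit 14229856441, nat_lit 12, nat_lit 3784988844577, nat_lit 5652103238,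
   nat_lit 5652218989, nat_lit 4507174025, nat_lit 4507174025, nat_lit 14239817925, nat_lit 8,
   nat_lit 5652481133, nat_lit 14296965305, nat_lit 14229856441, nat_lit 14229856441, nat_lit 12,
   nat_lit 3784988844577, nat_lit 5652481133, nat_lit 4473619633, nat_lit 4473619633,
   nat_lit 14229856441, nat_lit 12, nat_lit 3784988844577, nat_lit 3784988844577,
   nat_lit 5652103238, nat_lit 4, nat_lit 8, nat_lit 14306943177, nat_lit 14239834313,
   nat_lit 14239834313, nat_lit 12, nat_lit 3784988729889, nat_lit 14306926793,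
   nat_lit 14239817929, nat_lit 14239817929, nat_lit 8, nat_lit 14296965305, nat_lit 14229856441,
   nat_lit 14229856441, nat_lit 12, nat_lit 3784988844577, nat_lit 5652103238,
   nat_lit 4507174025, nat_lit 4507174025, nat_lit 14239817929, nat_lit 8, nat_lit 14296965305,
   nat_lit 14229856441, nat_lit 14229856441, nat_lit 12, nat_lit 3784988844577,
   nat_lit 4473619633, nat_lit 4473619633, nat_lit 14229856441, nat_lit 12,
   nat_lit 3784988844577, nat_lit 3784988844577, nat_lit 5652103238, nat_lit 4, nat_lit 8,
   nat_lit 14239834313, nat_lit 14239834313, nat_lit 12, nat_lit 3784988729893,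
   nat_lit 14239817929, nat_lit 14239817929, nat_lit 8, nat_lit 14229856441, nat_lit 14229856441,
   nat_lit 12, nat_lit 3784988844581, nat_lit 5652103238, nat_lit 4507174025,
   nat_lit 14239817929, nat_lit 8, nat_lit 14229856441, nat_lit 14229856441, nat_lit 12,
   nat_lit 3784988844581, nat_lit 4473619633, nat_lit 14229856441, nat_lit 12,
   nat_lit 3784988844581, nat_lit 3784988844581, nat_lit 5652103238, nat_lit 14786102393,
   nat_lit 14786102397, nat_lit 14785749181, nat_lit 4, nat_lit 8, nat_lit 5652481133,
   nat_lit 6190964905, nat_lit 5649899721, nat_lit 5649899721, nat_lit 12, nat_lit 1584891732513,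
   nat_lit 5652218989, nat_lit 6190948521, nat_lit 5649883337, nat_lit 5649883337, nat_lit 8,
   nat_lit 5652481133, nat_lit 6190964905, nat_lit 5639921849, nat_lit 5639921849, nat_lit 12,
   nat_lit 1584891847201, nat_lit 5652103238, nat_lit 5652218989, nat_lit 5649876061,
   nat_lit 4507174025, nat_lit 5649883337, nat_lit 8, nat_lit 5652481133, nat_lit 6190964905,
   nat_lit 5639921849, nat_lit 5639921849, nat_lit 12, nat_lit 1584891847201, nat_lit 5652481133,
   nat_lit 4473619633, nat_lit 4473619633, nat_lit 5639921849, nat_lit 12, nat_lit 1584891847201,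
   nat_lit 1584891847201, nat_lit 5652103238, nat_lit 5688394853, nat_lit 5687608413,
   nat_lit 5649859677, nat_lit 4, nat_lit 8, nat_lit 4538893433, nat_lit 5649899637, nat_lit 12,
   nat_lit 1446379037185, nat_lit 4534699129, nat_lit 5649883253, nat_lit 8, nat_lit 4540728441,
   nat_lit 5649899637, nat_lit 12, nat_lit 1446379151873, nat_lit 5652103238, nat_lit 4507174017,
   nat_lit 5649883253, nat_lit 8, nat_lit 4540728441, nat_lit 5649899637, nat_lit 12,
   nat_lit 1446379151873, nat_lit 4540728441, nat_lit 5649899637, nat_lit 12,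
   nat_lit 1446379151873, nat_lit 1446379151873, nat_lit 5652103238, nat_lit 5649859701,
   nat_lit 20, nat_lit 14311883933, nat_lit 14311883933, nat_lit 6253839477, nat_lit 6253748341,
   nat_lit 5180622029, nat_lit 6253748341, nat_lit 5168039117, nat_lit 4, nat_lit 5169874125,
   nat_lit 5169874125, nat_lit 5651841094, nat_lit 5649752265, nat_lit 5650276557,
   nat_lit 5649752181, nat_lit 4, nat_lit 8, nat_lit 5649899637, nat_lit 12,
   nat_lit 1446379037185, nat_lit 5649883253, nat_lit 8, nat_lit 5649899637, nat_lit 12,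
   nat_lit 1446379151873, nat_lit 5652217926, nat_lit 5649883253, nat_lit 8, nat_lit 5649899637,
   nat_lit 12, nat_lit 1446379151873, nat_lit 5649899637, nat_lit 12, nat_lit 1446379151873,
   nat_lit 1446379151873, nat_lit 5652217926, nat_lit 4505100453, nat_lit 8, nat_lit 5649899637,
   nat_lit 1446372598265, nat_lit 4471546057, nat_lit 4471546053, nat_lit 4436156609, nat_lit 12,
   nat_lit 5040136377, nat_lit 5040136377, nat_lit 2263507133, nat_lit 1446339043833, nat_lit 20,
   nat_lit 14311776345, nat_lit 14311776345, nat_lit 4, nat_lit 8, nat_lit 12,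
   nat_lit 1600997859841, nat_lit 8, nat_lit 12, nat_lit 1600997974529, nat_lit 6256197702,
   nat_lit 8, nat_lit 12, nat_lit 1600997974529, nat_lit 12, nat_lit 1600997974529,
   nat_lit 1600997974529, nat_lit 6256197702, nat_lit 8, nat_lit 1600991420921,
   nat_lit 14135222469, nat_lit 12, nat_lit 14703812793, nat_lit 14703812793, nat_lit 2263507133,
   nat_lit 1600957866489, nat_lit 6253748341, nat_lit 5179990109, nat_lit 6253748341, nat_lit 16,
   nat_lit 5217738845, nat_lit 4553966729, nat_lit 5217738845, nat_lit 4, nat_lit 8, nat_lit 12,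
   nat_lit 1335783629313, nat_lit 8, nat_lit 12, nat_lit 1335783744001, nat_lit 5220204614,
   nat_lit 8, nat_lit 12, nat_lit 1335783744001, nat_lit 12, nat_lit 1335783744001,
   nat_lit 1335783744001, nat_lit 5220204614, nat_lit 8, nat_lit 82720481565,
   nat_lit 14135222469, nat_lit 12, nat_lit 14703812793, nat_lit 14703812793, nat_lit 2263507133,
   nat_lit 82686927133, nat_lit 4, nat_lit 8, nat_lit 12, nat_lit 1323630617109, nat_lit 8,
   nat_lit 12, nat_lit 1323632452117, nat_lit 5652103238, nat_lit 8, nat_lit 12,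
   nat_lit 1323632452117, nat_lit 12, nat_lit 1323632452117, nat_lit 1323632452117,
   nat_lit 5652103238, nat_lit 8, nat_lit 82720481565, nat_lit 14135222469, nat_lit 12,
   nat_lit 14703812793, nat_lit 14703812793, nat_lit 2263507133, nat_lit 82686927133, nat_lit 4,
   nat_lit 5169775821, nat_lit 5168055481, nat_lit 82686927137, nat_lit 4, nat_lit 1446368534909,
   nat_lit 1446341009781, nat_lit 8, nat_lit 1446372598233, nat_lit 1446372598233, nat_lit 12,
   nat_lit 1446376792537, nat_lit 1446376792537, nat_lit 20, nat_lit 14310999197,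
   nat_lit 6253741173, nat_lit 5179999393, nat_lit 16, nat_lit 5652874349, nat_lit 5217748129,
   nat_lit 5217748129, nat_lit 5217748169, nat_lit 5217748165, nat_lit 0, nat_lit 16,
   nat_lit 5652889670, nat_lit 16, nat_lit 4, nat_lit 8, nat_lit 5652497517, nat_lit 4507452553,
   nat_lit 4507452553, nat_lit 5649876061, nat_lit 8, nat_lit 4507452545, nat_lit 5649925237,
   nat_lit 4, nat_lit 90247038237, nat_lit 5649876061, nat_lit 1446382962169, nat_lit 8,
   nat_lit 4549395601, nat_lit 4549395593, nat_lit 4549395593, nat_lit 4549395601,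
   nat_lit 4549395593, nat_lit 4549395593, nat_lit 5649876061, nat_lit 8, nat_lit 4549395585,
   nat_lit 4549395585, nat_lit 5652889670, nat_lit 5649925237, nat_lit 4, nat_lit 8,
   nat_lit 4549395601, nat_lit 4549395593, nat_lit 4549395593, nat_lit 5649876061, nat_lit 8,
   nat_lit 4549395585, nat_lit 5652889670, nat_lit 16, nat_lit 5653005421, nat_lit 5640422501,
   nat_lit 5649932489, nat_lit 5649932489, nat_lit 90246776093, nat_lit 5652889670,
   nat_lit 5649859677, nat_lit 16, nat_lit 5649932405, nat_lit 5649932405, nat_lit 1446382700025,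
   nat_lit 5652889670, nat_lit 5649859701, nat_lit 16, nat_lit 1446382700033, nat_lit 5652889670,
   nat_lit 5651841094, nat_lit 4, nat_lit 8, nat_lit 5681579101, nat_lit 8, nat_lit 5681579101,
   nat_lit 5581201589, nat_lit 5649859677, nat_lit 16, nat_lit 4, nat_lit 8, nat_lit 5652504685,
   nat_lit 4507459721, nat_lit 4507459721, nat_lit 5649883229, nat_lit 8, nat_lit 4507459713,
   nat_lit 4547282041, nat_lit 5649932405, nat_lit 4, nat_lit 90247045405, nat_lit 5649876061,
   nat_lit 1446382969337, nat_lit 8, nat_lit 4549402769, nat_lit 4549402761, nat_lit 4549402761,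
   nat_lit 4549402769, nat_lit 4549402761, nat_lit 4549402761, nat_lit 5649883229, nat_lit 8,
   nat_lit 4549402753, nat_lit 4549402753, nat_lit 5652889670, nat_lit 4507960449,
   nat_lit 5649932405, nat_lit 4, nat_lit 8, nat_lit 4549402769, nat_lit 4549402761,
   nat_lit 4549402761, nat_lit 5649883229, nat_lit 8, nat_lit 4549402753, nat_lit 5652889670,
   nat_lit 5649859701, nat_lit 16, nat_lit 4, nat_lit 8, nat_lit 5652497517, nat_lit 5547361397,
   nat_lit 4473619617, nat_lit 4473619657, nat_lit 4473619653, nat_lit 5649876061, nat_lit 8,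
   nat_lit 4473619617, nat_lit 4473619657, nat_lit 4473619653, nat_lit 5649876085, nat_lit 8,
   nat_lit 1446374671873, nat_lit 4, nat_lit 5138678989, nat_lit 5138678989, nat_lit 5138678989,
   nat_lit 5649876085, nat_lit 1446382962177, nat_lit 8, nat_lit 6218450037, nat_lit 6218450037,
   nat_lit 5144708257, nat_lit 5144708297, nat_lit 5144708293, nat_lit 6218450037,
   nat_lit 6218450037, nat_lit 5144708257, nat_lit 5144708297, nat_lit 5144708293,
   nat_lit 5649876061, nat_lit 8, nat_lit 5144708257, nat_lit 5144708297, nat_lit 5144708293,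
   nat_lit 5144708257, nat_lit 5144708297, nat_lit 5144708293, nat_lit 5649876085, nat_lit 8,
   nat_lit 1446374671873, nat_lit 1446374671873, nat_lit 5652889670, nat_lit 4, nat_lit 8,
   nat_lit 6218450037, nat_lit 6218450037, nat_lit 5144708257, nat_lit 5144708297,
   nat_lit 5144708293, nat_lit 5649876061, nat_lit 8, nat_lit 5144708257, nat_lit 5144708297,
   nat_lit 5144708293, nat_lit 5649876085, nat_lit 8, nat_lit 1446374671873, nat_lit 5652889670,
   nat_lit 5651841094, nat_lit 5649752265, nat_lit 5650276557, nat_lit 5649752181, nat_lit 16,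
   nat_lit 4, nat_lit 8, nat_lit 4507328641, nat_lit 8, nat_lit 5652504685, nat_lit 4507459721,
   nat_lit 4507459721, nat_lit 4507459721, nat_lit 5649883229, nat_lit 8, nat_lit 4507459713,
   nat_lit 4507459713, nat_lit 4507066497, nat_lit 4505100425, nat_lit 4505100417,
   nat_lit 4505100417, nat_lit 8, nat_lit 4507459713, nat_lit 4507459713, nat_lit 5649932405,
   nat_lit 4, nat_lit 8, nat_lit 4549271681, nat_lit 4549271681, nat_lit 90247045405,
   nat_lit 5649876061, nat_lit 1446382969337, nat_lit 4549009537, nat_lit 8, nat_lit 4549402769,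
   nat_lit 4549402761, nat_lit 4549402761, nat_lit 4549402761, nat_lit 4549402769,
   nat_lit 4549402761, nat_lit 4549402761, nat_lit 4549402761, nat_lit 5649883229, nat_lit 8,
   nat_lit 4549402753, nat_lit 4549402753, nat_lit 4549402753, nat_lit 4549402753,
   nat_lit 4549009537, nat_lit 4547043465, nat_lit 4547043457, nat_lit 4547043457, nat_lit 8,
   nat_lit 4549402753, nat_lit 4549402753, nat_lit 4549402753, nat_lit 5653004358,
   nat_lit 5649932405, nat_lit 4, nat_lit 8, nat_lit 4549271681, nat_lit 8, nat_lit 4549402769,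
   nat_lit 4549402761, nat_lit 4549402761, nat_lit 4549402761, nat_lit 5649883229, nat_lit 8,
   nat_lit 4549402753, nat_lit 4549402753, nat_lit 4549009537, nat_lit 4547043465,
   nat_lit 4547043457, nat_lit 4547043457, nat_lit 8, nat_lit 4549402753, nat_lit 4549402753,
   nat_lit 5653004358, nat_lit 4505149605, nat_lit 4, nat_lit 4436680881, nat_lit 4503789689,
   nat_lit 4503789689, nat_lit 8, nat_lit 4549402753, nat_lit 1446339092985, nat_lit 16,
   nat_lit 4, nat_lit 8, nat_lit 5649892469, nat_lit 1446341271933, nat_lit 8,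
   nat_lit 5652497517, nat_lit 4473512029, nat_lit 4473512029, nat_lit 5649900745,
   nat_lit 1443287556489, nat_lit 5649876061, nat_lit 8, nat_lit 4473512029, nat_lit 5649900661,
   nat_lit 1446341403005, nat_lit 5649876085, nat_lit 1446341009789, nat_lit 5649753289,
   nat_lit 5650277581, nat_lit 5649753205, nat_lit 8, nat_lit 5649900661, nat_lit 1446341403005,
   nat_lit 4436156517, nat_lit 1446341403005, nat_lit 8, nat_lit 1446341271933,
   nat_lit 23141424980597, nat_lit 4, nat_lit 8, nat_lit 5649892469, nat_lit 1446383214973,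
   nat_lit 5649892469, nat_lit 1446383214973, nat_lit 90247038237, nat_lit 5649876061,
   nat_lit 1446382969305, nat_lit 5649876085, nat_lit 1446382952829, nat_lit 8,
   nat_lit 5144600669, nat_lit 5144600669, nat_lit 5144600669, nat_lit 5640463565,
   nat_lit 1443958645129, nat_lit 5144600669, nat_lit 5144600669, nat_lit 5144600669,
   nat_lit 5640463565, nat_lit 1443958645129, nat_lit 5649876061, nat_lit 8, nat_lit 5144600669,
   nat_lit 5649900661, nat_lit 1446383346045, nat_lit 5144600669, nat_lit 5649900661,
   nat_lit 1446383346045, nat_lit 5649876085, nat_lit 1446382952829, nat_lit 5640316109,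
   nat_lit 5652899021, nat_lit 5649753205, nat_lit 8, nat_lit 5649900661, nat_lit 1446383346045,
   nat_lit 5649900661, nat_lit 1446383346045, nat_lit 5107245157, nat_lit 1446383346045,
   nat_lit 8, nat_lit 1446383214973, nat_lit 1446383214973, nat_lit 23142096069237,
   nat_lit 5652889670, nat_lit 4, nat_lit 8, nat_lit 5649892469, nat_lit 1446383214973,
   nat_lit 8, nat_lit 5144600669, nat_lit 5144600669, nat_lit 5144600669, nat_lit 5640463565,
   nat_lit 1443958645129, nat_lit 5649876061, nat_lit 8, nat_lit 5144600669, nat_lit 5649900661,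
   nat_lit 1446383346045, nat_lit 5649876085, nat_lit 1446382952829, nat_lit 5640316109,
   nat_lit 5652899021, nat_lit 5649753205, nat_lit 8, nat_lit 5649900661, nat_lit 1446383346045,
   nat_lit 5107245157, nat_lit 1446383346045, nat_lit 8, nat_lit 1446383214973,
   nat_lit 23142096069237, nat_lit 5652889670, nat_lit 4, nat_lit 5637612729, nat_lit 5650195641,
   nat_lit 5649753205, nat_lit 8, nat_lit 2267701381, nat_lit 2267701381, nat_lit 8,
   nat_lit 2267701381, nat_lit 1446339092953, nat_lit 16, nat_lit 1446381117821,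
   nat_lit 1446341796213, nat_lit 4, nat_lit 5637612729, nat_lit 5650195641, nat_lit 5649753205,
   nat_lit 1446341927285, nat_lit 1446339093977, nat_lit 8, nat_lit 12, nat_lit 5637614777,
   nat_lit 5650197689, nat_lit 5649755253, nat_lit 1446339096057, nat_lit 1446339096025,
   nat_lit 24, nat_lit 15384741021, nat_lit 6320850037, nat_lit 5247108257, nat_lit 20,
   nat_lit 5653136493, nat_lit 5289051297, nat_lit 5289051297, nat_lit 5289051337,
   nat_lit 5289051333, nat_lit 4, nat_lit 5652103238, nat_lit 5652103238, nat_lit 0,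
   nat_lit 5637562553, nat_lit 5650145465, nat_lit 5649752181, nat_lit 1446339043833,
   nat_lit 1446339043801, nat_lit 4, nat_lit 10016818333, nat_lit 5985305717, nat_lit 5985305717,
   nat_lit 0, nat_lit 4536140945, nat_lit 4536140937, nat_lit 4536140937, nat_lit 4932535497,
   nat_lit 4932535493]

theorem c17_18 : chk TT UT (gU 17) (sub 18 5) s17_18 = true := by decide +kernel

end Pool.Agent.H49.PQS
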