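import Pool.Agent.H49.PQS.Ck05

/-!
Branching arguments, checked by the kernel.
-/

namespace Pool.Agent.H49.PQS

def s22_20 : List ℕ :=   [nat_lit 20, nat_lit 24, nat_lit 12, nat_lit 16, nat_lit 6220973169, nat_lit 6191613101,
   nat_lit 6191613141, nat_lit 13640696997, nat_lit 963821630, nat_lit 5421993125, nat_lit 16,
   nat_lit 0, nat_lit 4, nat_lit 8, nat_lit 6078366833, nat_lit 4, nat_lit 8, nat_lit 5388159109,
   nat_lit 6149670041, nat_lit 8, nat_lit 6078366833, nat_lit 5388257413, nat_lit 6151242905,
   nat_lit 5387896965, nat_lit 6145475737, nat_lit 5386422405, nat_lit 8, nat_lit 5388257413,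
   nat_lit 6151242905, nat_lit 5388257413, nat_lit 6151242905, nat_lit 8, nat_lit 6151242941,
   nat_lit 6151242941, nat_lit 4, nat_lit 8, nat_lit 5388159109, nat_lit 8, nat_lit 6078366833,
   nat_lit 5388257413, nat_lit 5387896965, nat_lit 5386422405, nat_lit 8, nat_lit 5388257413,
   nat_lit 5388257413, nat_lit 6120162429, nat_lit 8, nat_lit 6149678233, nat_lit 6149522557,
   nat_lit 6118065285, nat_lit 4, nat_lit 8, nat_lit 6079677553, nat_lit 5387634821,
   nat_lit 6141281433, nat_lit 4, nat_lit 8, nat_lit 6078366833, nat_lit 6151343257,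
   nat_lit 6151343257, nat_lit 6151343257, nat_lit 6146803837, nat_lit 6146803837, nat_lit 8,
   nat_lit 6151343293, nat_lit 5386406021, nat_lit 4, nat_lit 8, nat_lit 6054511729, nat_lit 8,
   nat_lit 6079677553, nat_lit 6079677553, nat_lit 5987402865, nat_lit 5609915505, nat_lit 8,
   nat_lit 6079677553, nat_lit 6079677553, nat_lit 4, nat_lit 8, nat_lit 5388165253,
   nat_lit 6149768345, nat_lit 8, nat_lit 6078465137, nat_lit 5388263557, nat_lit 6151341209,
   nat_lit 5387903109, nat_lit 6145574041, nat_lit 5386428549, nat_lit 8, nat_lit 5388263557,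
   nat_lit 6151341209, nat_lit 5388263557, nat_lit 6151341209, nat_lit 8, nat_lit 6151341245,
   nat_lit 6151341245, nat_lit 4, nat_lit 8, nat_lit 5388165253, nat_lit 6149768345,
   nat_lit 6149769369, nat_lit 8, nat_lit 6078466161, nat_lit 5388263557, nat_lit 6151341209,
   nat_lit 6151342233, nat_lit 5387903109, nat_lit 6145574041, nat_lit 6145575065,
   nat_lit 5386428549, nat_lit 8, nat_lit 5388263557, nat_lit 6151341209, nat_lit 6151342233,
   nat_lit 5388263557, nat_lit 6151341209, nat_lit 6151342233, nat_lit 8, nat_lit 6151341245,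
   nat_lit 6151342233, nat_lit 6151341245, nat_lit 6151342233, nat_lit 8, nat_lit 6151342269,
   nat_lit 6151342269, nat_lit 6120146045, nat_lit 4, nat_lit 8, nat_lit 5388165253, nat_lit 8,
   nat_lit 6078374001, nat_lit 5388263557, nat_lit 5387903109, nat_lit 5386428549, nat_lit 8,
   nat_lit 5388263557, nat_lit 5388263557, nat_lit 6120169597, nat_lit 8, nat_lit 6149529725,
   nat_lit 6149529725, nat_lit 6118072453, nat_lit 4, nat_lit 8, nat_lit 5388165253,
   nat_lit 6149768345, nat_lit 8, nat_lit 6078374001, nat_lit 5388263557, nat_lit 6151341209,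
   nat_lit 5387903109, nat_lit 6145574041, nat_lit 5386428549, nat_lit 8, nat_lit 5388263557,
   nat_lit 6151341209, nat_lit 5388263557, nat_lit 6151341209, nat_lit 8, nat_lit 6151341245,
   nat_lit 6151341245, nat_lit 6120169597, nat_lit 8, nat_lit 6149529725, nat_lit 6149529725,
   nat_lit 6149529725, nat_lit 6149529725, nat_lit 6118072453, nat_lit 6118072453, nat_lit 8,
   nat_lit 6149529725, nat_lit 6149529725, nat_lit 6118072453, nat_lit 4, nat_lit 8,
   nat_lit 5388165253, nat_lit 6149768345, nat_lit 6149768345, nat_lit 8, nat_lit 6149768345,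
   nat_lit 6149506237, nat_lit 8, nat_lit 6078465137, nat_lit 5388263557, nat_lit 6151341209,
   nat_lit 6151341209, nat_lit 5387903109, nat_lit 6145574041, nat_lit 6145574041,
   nat_lit 5386428549, nat_lit 8, nat_lit 5388263557, nat_lit 6151341209, nat_lit 6151341209,
   nat_lit 5388263557, nat_lit 6151341209, nat_lit 6151341209, nat_lit 8, nat_lit 6151341245,
   nat_lit 6151341245, nat_lit 6151341245, nat_lit 6151341245, nat_lit 6145311933,
   nat_lit 6117786777, nat_lit 6117786777, nat_lit 6117786813, nat_lit 8, nat_lit 6151341245,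
   nat_lit 6151341245, nat_lit 6151341245, nat_lit 4, nat_lit 8, nat_lit 6078366833,
   nat_lit 6121889945, nat_lit 6121873561, nat_lit 8, nat_lit 6149791869, nat_lit 6122266757,
   nat_lit 6122266757, nat_lit 6122266757, nat_lit 4, nat_lit 8, nat_lit 5388165253, nat_lit 8,
   nat_lit 6078374001, nat_lit 5388263557, nat_lit 5387903109, nat_lit 5386428549, nat_lit 8,
   nat_lit 5388263557, nat_lit 5388263557, nat_lit 6120169597, nat_lit 8, nat_lit 6149529725,
   nat_lit 6149529725, nat_lit 6118072453, nat_lit 6120169597, nat_lit 8, nat_lit 6149529725,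
   nat_lit 6149529725, nat_lit 6118072453, nat_lit 6118072453, nat_lit 4, nat_lit 8,
   nat_lit 5388165253, nat_lit 6149398653, nat_lit 8, nat_lit 6149398653, nat_lit 6149398653,
   nat_lit 6117941381, nat_lit 8, nat_lit 6078374001, nat_lit 5388263557, nat_lit 6151242905,
   nat_lit 5387903109, nat_lit 6145204349, nat_lit 5386428549, nat_lit 8, nat_lit 5388263557,
   nat_lit 6151242905, nat_lit 5388263557, nat_lit 6151242905, nat_lit 6145204349,
   nat_lit 6120169597, nat_lit 8, nat_lit 6149529725, nat_lit 6149529725, nat_lit 6149529725,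
   nat_lit 6149529725, nat_lit 6118072453, nat_lit 6118072453, nat_lit 6117679237,
   nat_lit 6120169597, nat_lit 6115713157, nat_lit 8, nat_lit 6149529725, nat_lit 6149529725,
   nat_lit 6118072453, nat_lit 6118072453, nat_lit 5386035333, nat_lit 6193710253,
   nat_lit 6193710253, nat_lit 6193710293, nat_lit 0, nat_lit 4, nat_lit 8, nat_lit 13594559601,
   nat_lit 4, nat_lit 8, nat_lit 5421713541, nat_lit 13665862809, nat_lit 8, nat_lit 13594559601,
   nat_lit 5421811845, nat_lit 13667435673, nat_lit 5421451397, nat_lit 13661668505,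
   nat_lit 5419976837, nat_lit 8, nat_lit 5421811845, nat_lit 13667435673, nat_lit 5421811845,
   nat_lit 13667435673, nat_lit 8, nat_lit 13667435709, nat_lit 13667435709, nat_lit 4,
   nat_lit 8, nat_lit 5421713541, nat_lit 8, nat_lit 13594559601, nat_lit 5421811845,
   nat_lit 5421451397, nat_lit 5419976837, nat_lit 8, nat_lit 5421811845, nat_lit 5421811845,
   nat_lit 13636355197, nat_lit 8, nat_lit 13665871001, nat_lit 13665715325, nat_lit 13634258053,
   nat_lit 4, nat_lit 8, nat_lit 13595870321, nat_lit 5421189253, nat_lit 13657474201, nat_lit 4,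
   nat_lit 8, nat_lit 13594559601, nat_lit 13667536025, nat_lit 13667536025, nat_lit 13667536025,
   nat_lit 13662996605, nat_lit 13662996605, nat_lit 8, nat_lit 13667536061, nat_lit 5419960453,
   nat_lit 4, nat_lit 8, nat_lit 13570704497, nat_lit 8, nat_lit 13595870321,
   nat_lit 13595870321, nat_lit 13503595633, nat_lit 13126108273, nat_lit 8, nat_lit 13595870321,
   nat_lit 13595870321, nat_lit 4, nat_lit 8, nat_lit 5421719685, nat_lit 13665961113, nat_lit 8,
   nat_lit 13594657905, nat_lit 5421817989, nat_lit 13667533977, nat_lit 5421457541,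
   nat_lit 13661766809, nat_lit 5419982981, nat_lit 8, nat_lit 5421817989, nat_lit 13667533977,
   nat_lit 5421817989, nat_lit 13667533977, nat_lit 8, nat_lit 13667534013, nat_lit 13667534013,
   nat_lit 4, nat_lit 8, nat_lit 5421719685, nat_lit 13665961113, nat_lit 13665962137, nat_lit 8,
   nat_lit 13594658929, nat_lit 5421817989, nat_lit 13667533977, nat_lit 13667535001,
   nat_lit 5421457541, nat_lit 13661766809, nat_lit 13661767833, nat_lit 5419982981, nat_lit 8,
   nat_lit 5421817989, nat_lit 13667533977, nat_lit 13667535001, nat_lit 5421817989,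
   nat_lit 13667533977, nat_lit 13667535001, nat_lit 8, nat_lit 13667534013, nat_lit 13667535001,
   nat_lit 13667534013, nat_lit 13667535001, nat_lit 8, nat_lit 13667535037, nat_lit 13667535037,
   nat_lit 13636338813, nat_lit 4, nat_lit 8, nat_lit 5421719685, nat_lit 8, nat_lit 13594566769,
   nat_lit 5421817989, nat_lit 5421457541, nat_lit 5419982981, nat_lit 8, nat_lit 5421817989,
   nat_lit 5421817989, nat_lit 13636362365, nat_lit 8, nat_lit 13665722493, nat_lit 13665722493,
   nat_lit 13634265221, nat_lit 4, nat_lit 8, nat_lit 5421719685, nat_lit 13665961113, nat_lit 8,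
   nat_lit 13594566769, nat_lit 5421817989, nat_lit 13667533977, nat_lit 5421457541,
   nat_lit 13661766809, nat_lit 5419982981, nat_lit 8, nat_lit 5421817989, nat_lit 13667533977,
   nat_lit 5421817989, nat_lit 13667533977, nat_lit 8, nat_lit 13667534013, nat_lit 13667534013,
   nat_lit 13636362365, nat_lit 8, nat_lit 13665722493, nat_lit 13665722493, nat_lit 13665722493,
   nat_lit 13665722493, nat_lit 13634265221, nat_lit 13634265221, nat_lit 8, nat_lit 13665722493,
   nat_lit 13665722493, nat_lit 13634265221, nat_lit 4, nat_lit 8, nat_lit 5421719685,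
   nat_lit 13665961113, nat_lit 13665961113, nat_lit 8, nat_lit 13665961113, nat_lit 13665699005,
   nat_lit 8, nat_lit 13594657905, nat_lit 5421817989, nat_lit 13667533977, nat_lit 13667533977,
   nat_lit 5421457541, nat_lit 13661766809, nat_lit 13661766809, nat_lit 5419982981, nat_lit 8,
   nat_lit 5421817989, nat_lit 13667533977, nat_lit 13667533977, nat_lit 5421817989,
   nat_lit 13667533977, nat_lit 13667533977, nat_lit 8, nat_lit 13667534013, nat_lit 13667534013,
   nat_lit 13667534013, nat_lit 13667534013, nat_lit 13661504701, nat_lit 13633979545,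
   nat_lit 13633979545, nat_lit 13633979581, nat_lit 8, nat_lit 13667534013, nat_lit 13667534013,
   nat_lit 13667534013, nat_lit 4, nat_lit 8, nat_lit 13594559601, nat_lit 13638082713,
   nat_lit 13638066329, nat_lit 8, nat_lit 13665984637, nat_lit 13638459525, nat_lit 13638459525,
   nat_lit 13638459525, nat_lit 4, nat_lit 8, nat_lit 5421719685, nat_lit 8, nat_lit 13594566769,
   nat_lit 5421817989, nat_lit 5421457541, nat_lit 5419982981, nat_lit 8, nat_lit 5421817989,
   nat_lit 5421817989, nat_lit 13636362365, nat_lit 8, nat_lit 13665722493, nat_lit 13665722493,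
   nat_lit 13634265221, nat_lit 13636362365, nat_lit 8, nat_lit 13665722493, nat_lit 13665722493,
   nat_lit 13634265221, nat_lit 13634265221, nat_lit 4, nat_lit 8, nat_lit 5421719685,
   nat_lit 13665591421, nat_lit 8, nat_lit 13665591421, nat_lit 13665591421, nat_lit 13634134149,
   nat_lit 8, nat_lit 13594566769, nat_lit 5421817989, nat_lit 13667435673, nat_lit 5421457541,
   nat_lit 13661397117, nat_lit 5419982981, nat_lit 8, nat_lit 5421817989, nat_lit 13667435673,
   nat_lit 5421817989, nat_lit 13667435673, nat_lit 13661397117, nat_lit 13636362365, nat_lit 8,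
   nat_lit 13665722493, nat_lit 13665722493, nat_lit 13665722493, nat_lit 13665722493,
   nat_lit 13634265221, nat_lit 13634265221, nat_lit 13633872005, nat_lit 13636362365,
   nat_lit 13631905925, nat_lit 8, nat_lit 13665722493, nat_lit 13665722493, nat_lit 13634265221,
   nat_lit 13634265221, nat_lit 5419589765, nat_lit 963821630, nat_lit 15371152589,
   nat_lit 6220973169, nat_lit 5388814469, nat_lit 5388814469, nat_lit 0, nat_lit 4, nat_lit 8,
   nat_lit 13594559601, nat_lit 4, nat_lit 8, nat_lit 5421713541, nat_lit 13665862809, nat_lit 8,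
   nat_lit 13594559601, nat_lit 5421811845, nat_lit 13667435673, nat_lit 5421451397,
   nat_lit 13661668505, nat_lit 5419976837, nat_lit 8, nat_lit 5421811845, nat_lit 13667435673,
   nat_lit 5421811845, nat_lit 13667435673, nat_lit 8, nat_lit 13667435709, nat_lit 13667435709,
   nat_lit 4, nat_lit 8, nat_lit 5421713541, nat_lit 8, nat_lit 13594559601, nat_lit 5421811845,
   nat_lit 5421451397, nat_lit 5419976837, nat_lit 8, nat_lit 5421811845, nat_lit 5421811845,
   nat_lit 13636355197, nat_lit 8, nat_lit 13665871001, nat_lit 13665715325, nat_lit 13634258053,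
   nat_lit 4, nat_lit 8, nat_lit 13595870321, nat_lit 5421189253, nat_lit 13657474201, nat_lit 4,
   nat_lit 8, nat_lit 13594559601, nat_lit 13667536025, nat_lit 13667536025, nat_lit 13667536025,
   nat_lit 13662996605, nat_lit 13662996605, nat_lit 8, nat_lit 13667536061, nat_lit 5419960453,
   nat_lit 4, nat_lit 8, nat_lit 13570704497, nat_lit 8, nat_lit 13595870321,
   nat_lit 13595870321, nat_lit 13503595633, nat_lit 13126108273, nat_lit 8, nat_lit 13595870321,
   nat_lit 13595870321, nat_lit 4, nat_lit 8, nat_lit 5421719685, nat_lit 13665961113, nat_lit 8,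
   nat_lit 13594657905, nat_lit 5421817989, nat_lit 13667533977, nat_lit 5421457541,
   nat_lit 13661766809, nat_lit 5419982981, nat_lit 8, nat_lit 5421817989, nat_lit 13667533977,
   nat_lit 5421817989, nat_lit 13667533977, nat_lit 8, nat_lit 13667534013, nat_lit 13667534013,
   nat_lit 4, nat_lit 8, nat_lit 5421719685, nat_lit 13665961113, nat_lit 13665962137, nat_lit 8,
   nat_lit 13594658929, nat_lit 5421817989, nat_lit 13667533977, nat_lit 13667535001,
   nat_lit 5421457541, nat_lit 13661766809, nat_lit 13661767833, nat_lit 5419982981, nat_lit 8,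
   nat_lit 5421817989, nat_lit 13667533977, nat_lit 13667535001, nat_lit 5421817989,
   nat_lit 13667533977, nat_lit 13667535001, nat_lit 8, nat_lit 13667534013, nat_lit 13667535001,
   nat_lit 13667534013, nat_lit 13667535001, nat_lit 8, nat_lit 13667535037, nat_lit 13667535037,
   nat_lit 13636338813, nat_lit 4, nat_lit 8, nat_lit 5421719685, nat_lit 8, nat_lit 13594566769,
   nat_lit 5421817989, nat_lit 5421457541, nat_lit 5419982981, nat_lit 8, nat_lit 5421817989,
   nat_lit 5421817989, nat_lit 13636362365, nat_lit 8, nat_lit 13665722493, nat_lit 13665722493,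
   nat_lit 13634265221, nat_lit 4, nat_lit 8, nat_lit 5421719685, nat_lit 13665961113, nat_lit 8,
   nat_lit 13594566769, nat_lit 5421817989, nat_lit 13667533977, nat_lit 5421457541,
   nat_lit 13661766809, nat_lit 5419982981, nat_lit 8, nat_lit 5421817989, nat_lit 13667533977,
   nat_lit 5421817989, nat_lit 13667533977, nat_lit 8, nat_lit 13667534013, nat_lit 13667534013,
   nat_lit 13636362365, nat_lit 8, nat_lit 13665722493, nat_lit 13665722493, nat_lit 13665722493,
   nat_lit 13665722493, nat_lit 13634265221, nat_lit 13634265221, nat_lit 8, nat_lit 13665722493,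
   nat_lit 13665722493, nat_lit 13634265221, nat_lit 4, nat_lit 8, nat_lit 5421719685,
   nat_lit 13665961113, nat_lit 13665961113, nat_lit 8, nat_lit 13665961113, nat_lit 13665699005,
   nat_lit 8, nat_lit 13594657905, nat_lit 5421817989, nat_lit 13667533977, nat_lit 13667533977,
   nat_lit 5421457541, nat_lit 13661766809, nat_lit 13661766809, nat_lit 5419982981, nat_lit 8,
   nat_lit 5421817989, nat_lit 13667533977, nat_lit 13667533977, nat_lit 5421817989,
   nat_lit 13667533977, nat_lit 13667533977, nat_lit 8, nat_lit 13667534013, nat_lit 13667534013,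
   nat_lit 13667534013, nat_lit 13667534013, nat_lit 13661504701, nat_lit 13633979545,
   nat_lit 13633979545, nat_lit 13633979581, nat_lit 8, nat_lit 13667534013, nat_lit 13667534013,
   nat_lit 13667534013, nat_lit 4, nat_lit 8, nat_lit 13594559601, nat_lit 13638082713,
   nat_lit 13638066329, nat_lit 8, nat_lit 13665984637, nat_lit 13638459525, nat_lit 13638459525,
   nat_lit 13638459525, nat_lit 4, nat_lit 8, nat_lit 5421719685, nat_lit 8, nat_lit 13594566769,
   nat_lit 5421817989, nat_lit 5421457541, nat_lit 5419982981, nat_lit 8, nat_lit 5421817989,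
   nat_lit 5421817989, nat_lit 13636362365, nat_lit 8, nat_lit 13665722493, nat_lit 13665722493,
   nat_lit 13634265221, nat_lit 13636362365, nat_lit 8, nat_lit 13665722493, nat_lit 13665722493,
   nat_lit 13634265221, nat_lit 13634265221, nat_lit 4, nat_lit 8, nat_lit 5421719685,
   nat_lit 13665591421, nat_lit 8, nat_lit 13665591421, nat_lit 13665591421, nat_lit 13634134149,
   nat_lit 8, nat_lit 13594566769, nat_lit 5421817989, nat_lit 13667435673, nat_lit 5421457541,
   nat_lit 13661397117, nat_lit 5419982981, nat_lit 8, nat_lit 5421817989, nat_lit 13667435673,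
   nat_lit 5421817989, nat_lit 13667435673, nat_lit 13661397117, nat_lit 13636362365, nat_lit 8,
   nat_lit 13665722493, nat_lit 13665722493, nat_lit 13665722493, nat_lit 13665722493,
   nat_lit 13634265221, nat_lit 13634265221, nat_lit 13633872005, nat_lit 13636362365,
   nat_lit 13631905925, nat_lit 8, nat_lit 13665722493, nat_lit 13665722493, nat_lit 13634265221,
   nat_lit 13634265221, nat_lit 5419589765, nat_lit 963821630, nat_lit 5690393821,
   nat_lit 5386455173, nat_lit 5386454149, nat_lit 0, nat_lit 4, nat_lit 8, nat_lit 5388263557,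
   nat_lit 5386461317, nat_lit 5578875021, nat_lit 5386461317, nat_lit 16, nat_lit 5420277893,
   nat_lit 15371152589, nat_lit 5688451221, nat_lit 5688451217, nat_lit 5688189077,
   nat_lit 5688189073, nat_lit 5687926933, nat_lit 5687926929, nat_lit 5388820605,
   nat_lit 15369186489, nat_lit 16, nat_lit 6191767661, nat_lit 6182854765, nat_lit 6182854765,
   nat_lit 15369186489, nat_lit 15369186489, nat_lit 12, nat_lit 16, nat_lit 0, nat_lit 4,
   nat_lit 8, nat_lit 5388257413, nat_lit 5614371993, nat_lit 8, nat_lit 5614372029, nat_lit 4,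
   nat_lit 8, nat_lit 5388257413, nat_lit 8, nat_lit 5612651645, nat_lit 5581194373, nat_lit 4,
   nat_lit 8, nat_lit 6079677553, nat_lit 4, nat_lit 8, nat_lit 5388263557, nat_lit 5614470297,
   nat_lit 8, nat_lit 5614470333, nat_lit 4, nat_lit 8, nat_lit 5388263557, nat_lit 5614470297,
   nat_lit 5614471321, nat_lit 8, nat_lit 5614470333, nat_lit 5614471321, nat_lit 8,
   nat_lit 5614471357, nat_lit 4, nat_lit 8, nat_lit 5388263557, nat_lit 8, nat_lit 5612658813,
   nat_lit 5581201541, nat_lit 4, nat_lit 8, nat_lit 5388263557, nat_lit 5614470297, nat_lit 8,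
   nat_lit 5614470333, nat_lit 8, nat_lit 5612658813, nat_lit 5612658813, nat_lit 5581201541,
   nat_lit 5581201541, nat_lit 8, nat_lit 5612658813, nat_lit 5581201541, nat_lit 4, nat_lit 8,
   nat_lit 5612635325, nat_lit 8, nat_lit 5388263557, nat_lit 5614470297, nat_lit 5614470297,
   nat_lit 8, nat_lit 5614470333, nat_lit 5614470333, nat_lit 5608441021, nat_lit 5580915865,
   nat_lit 5580915901, nat_lit 8, nat_lit 5614470333, nat_lit 5614470333, nat_lit 4, nat_lit 8,
   nat_lit 5388263557, nat_lit 8, nat_lit 5612658813, nat_lit 5581201541, nat_lit 8,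
   nat_lit 5612658813, nat_lit 5581201541, nat_lit 5581201541, nat_lit 4, nat_lit 8,
   nat_lit 5612527741, nat_lit 5581070469, nat_lit 8, nat_lit 5388263557, nat_lit 5614371993,
   nat_lit 5608333437, nat_lit 8, nat_lit 5612658813, nat_lit 5612658813, nat_lit 5581201541,
   nat_lit 5581201541, nat_lit 5580808325, nat_lit 5578842245, nat_lit 8, nat_lit 5612658813,
   nat_lit 5581201541, nat_lit 5581201541, nat_lit 5386035333, nat_lit 6191613101,
   nat_lit 6191613141, nat_lit 0, nat_lit 4, nat_lit 8, nat_lit 5421811845, nat_lit 13130564761,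
   nat_lit 8, nat_lit 13130564797, nat_lit 4, nat_lit 8, nat_lit 5421811845, nat_lit 8,
   nat_lit 13128844413, nat_lit 13097387141, nat_lit 4, nat_lit 8, nat_lit 13595870321,
   nat_lit 4, nat_lit 8, nat_lit 5421817989, nat_lit 13130663065, nat_lit 8, nat_lit 13130663101,
   nat_lit 4, nat_lit 8, nat_lit 5421817989, nat_lit 13130663065, nat_lit 13130664089, nat_lit 8,
   nat_lit 13130663101, nat_lit 13130664089, nat_lit 8, nat_lit 13130664125, nat_lit 4,
   nat_lit 8, nat_lit 5421817989, nat_lit 8, nat_lit 13128851581, nat_lit 13097394309, nat_lit 4,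
   nat_lit 8, nat_lit 5421817989, nat_lit 13130663065, nat_lit 8, nat_lit 13130663101, nat_lit 8,
   nat_lit 13128851581, nat_lit 13128851581, nat_lit 13097394309, nat_lit 13097394309, nat_lit 8,
   nat_lit 13128851581, nat_lit 13097394309, nat_lit 4, nat_lit 8, nat_lit 13128828093,
   nat_lit 8, nat_lit 5421817989, nat_lit 13130663065, nat_lit 13130663065, nat_lit 8,
   nat_lit 13130663101, nat_lit 13130663101, nat_lit 13124633789, nat_lit 13097108633,
   nat_lit 13097108669, nat_lit 8, nat_lit 13130663101, nat_lit 13130663101, nat_lit 4,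
   nat_lit 8, nat_lit 5421817989, nat_lit 8, nat_lit 13128851581, nat_lit 13097394309, nat_lit 8,
   nat_lit 13128851581, nat_lit 13097394309, nat_lit 13097394309, nat_lit 4, nat_lit 8,
   nat_lit 13128720509, nat_lit 13097263237, nat_lit 8, nat_lit 5421817989, nat_lit 13130564761,
   nat_lit 13124526205, nat_lit 8, nat_lit 13128851581, nat_lit 13128851581, nat_lit 13097394309,
   nat_lit 13097394309, nat_lit 13097001093, nat_lit 13095035013, nat_lit 8, nat_lit 13128851581,
   nat_lit 13097394309, nat_lit 13097394309, nat_lit 5419589765, nat_lit 963690558,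
   nat_lit 15371144397, nat_lit 5388683397, nat_lit 5388683397, nat_lit 0, nat_lit 4, nat_lit 8,
   nat_lit 5421811845, nat_lit 13130564761, nat_lit 8, nat_lit 13130564797, nat_lit 4, nat_lit 8,
   nat_lit 5421811845, nat_lit 8, nat_lit 13128844413, nat_lit 13097387141, nat_lit 4, nat_lit 8,
   nat_lit 13595870321, nat_lit 4, nat_lit 8, nat_lit 5421817989, nat_lit 13130663065, nat_lit 8,
   nat_lit 13130663101, nat_lit 4, nat_lit 8, nat_lit 5421817989, nat_lit 13130663065,
   nat_lit 13130664089, nat_lit 8, nat_lit 13130663101, nat_lit 13130664089, nat_lit 8,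
   nat_lit 13130664125, nat_lit 4, nat_lit 8, nat_lit 5421817989, nat_lit 8, nat_lit 13128851581,
   nat_lit 13097394309, nat_lit 4, nat_lit 8, nat_lit 5421817989, nat_lit 13130663065, nat_lit 8,
   nat_lit 13130663101, nat_lit 8, nat_lit 13128851581, nat_lit 13128851581, nat_lit 13097394309,
   nat_lit 13097394309, nat_lit 8, nat_lit 13128851581, nat_lit 13097394309, nat_lit 4,
   nat_lit 8, nat_lit 13128828093, nat_lit 8, nat_lit 5421817989, nat_lit 13130663065,
   nat_lit 13130663065, nat_lit 8, nat_lit 13130663101, nat_lit 13130663101, nat_lit 13124633789,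
   nat_lit 13097108633, nat_lit 13097108669, nat_lit 8, nat_lit 13130663101, nat_lit 13130663101,
   nat_lit 4, nat_lit 8, nat_lit 5421817989, nat_lit 8, nat_lit 13128851581, nat_lit 13097394309,
   nat_lit 8, nat_lit 13128851581, nat_lit 13097394309, nat_lit 13097394309, nat_lit 4,
   nat_lit 8, nat_lit 13128720509, nat_lit 13097263237, nat_lit 8, nat_lit 5421817989,
   nat_lit 13130564761, nat_lit 13124526205, nat_lit 8, nat_lit 13128851581, nat_lit 13128851581,
   nat_lit 13097394309, nat_lit 13097394309, nat_lit 13097001093, nat_lit 13095035013, nat_lit 8,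
   nat_lit 13128851581, nat_lit 13097394309, nat_lit 13097394309, nat_lit 5419589765,
   nat_lit 963690558, nat_lit 5688296669, nat_lit 16, nat_lit 15421213893, nat_lit 15421213893,
   nat_lit 15421213893, nat_lit 963690558, nat_lit 15371144397, nat_lit 15414887541, nat_lit 16,
   nat_lit 0, nat_lit 4, nat_lit 5387896965, nat_lit 6145475737, nat_lit 8, nat_lit 5388257413,
   nat_lit 6151242905, nat_lit 5388257413, nat_lit 6151242905, nat_lit 8, nat_lit 6151242941,
   nat_lit 6151242941, nat_lit 4, nat_lit 5387896965, nat_lit 8, nat_lit 5388257413,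
   nat_lit 5388257413, nat_lit 8, nat_lit 6149678233, nat_lit 6149522557, nat_lit 6118065285,
   nat_lit 5387634821, nat_lit 6141281433, nat_lit 4, nat_lit 6146803837, nat_lit 6146803837,
   nat_lit 8, nat_lit 6151343293, nat_lit 4, nat_lit 5987402865, nat_lit 8, nat_lit 6079677553,
   nat_lit 6079677553, nat_lit 4, nat_lit 5387903109, nat_lit 6145574041, nat_lit 8,
   nat_lit 5388263557, nat_lit 6151341209, nat_lit 5388263557, nat_lit 6151341209, nat_lit 8,
   nat_lit 6151341245, nat_lit 6151341245, nat_lit 4, nat_lit 5387903109, nat_lit 6145574041,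
   nat_lit 6145575065, nat_lit 8, nat_lit 5388263557, nat_lit 6151341209, nat_lit 6151342233,
   nat_lit 5388263557, nat_lit 6151341209, nat_lit 6151342233, nat_lit 8, nat_lit 6151341245,
   nat_lit 6151342233, nat_lit 6151341245, nat_lit 6151342233, nat_lit 8, nat_lit 6151342269,
   nat_lit 6151342269, nat_lit 4, nat_lit 5387903109, nat_lit 8, nat_lit 5388263557,
   nat_lit 5388263557, nat_lit 8, nat_lit 6149529725, nat_lit 6149529725, nat_lit 6118072453,
   nat_lit 4, nat_lit 5387903109, nat_lit 6145574041, nat_lit 8, nat_lit 5388263557,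
   nat_lit 6151341209, nat_lit 5388263557, nat_lit 6151341209, nat_lit 8, nat_lit 6151341245,
   nat_lit 6151341245, nat_lit 8, nat_lit 6149529725, nat_lit 6149529725, nat_lit 6149529725,
   nat_lit 6149529725, nat_lit 6118072453, nat_lit 6118072453, nat_lit 8, nat_lit 6149529725,
   nat_lit 6149529725, nat_lit 6118072453, nat_lit 4, nat_lit 8, nat_lit 6149768345,
   nat_lit 6149506237, nat_lit 5387903109, nat_lit 6145574041, nat_lit 6145574041, nat_lit 8,
   nat_lit 5388263557, nat_lit 6151341209, nat_lit 6151341209, nat_lit 5388263557,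
   nat_lit 6151341209, nat_lit 6151341209, nat_lit 8, nat_lit 6151341245, nat_lit 6151341245,
   nat_lit 6151341245, nat_lit 6151341245, nat_lit 6145311933, nat_lit 6117786777,
   nat_lit 6117786813, nat_lit 8, nat_lit 6151341245, nat_lit 6151341245, nat_lit 6151341245,
   nat_lit 4, nat_lit 5387903109, nat_lit 8, nat_lit 5388263557, nat_lit 5388263557, nat_lit 8,
   nat_lit 6149529725, nat_lit 6149529725, nat_lit 6118072453, nat_lit 8, nat_lit 6149529725,
   nat_lit 6149529725, nat_lit 6118072453, nat_lit 6118072453, nat_lit 4, nat_lit 8,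
   nat_lit 6149398653, nat_lit 6149398653, nat_lit 6117941381, nat_lit 5387903109,
   nat_lit 6145204349, nat_lit 8, nat_lit 5388263557, nat_lit 6151242905, nat_lit 5388263557,
   nat_lit 6151242905, nat_lit 6145204349, nat_lit 8, nat_lit 6149529725, nat_lit 6149529725,
   nat_lit 6149529725, nat_lit 6149529725, nat_lit 6118072453, nat_lit 6118072453,
   nat_lit 6117679237, nat_lit 6115713157, nat_lit 8, nat_lit 6149529725, nat_lit 6149529725,
   nat_lit 6118072453, nat_lit 6118072453, nat_lit 5386035333, nat_lit 6193710253,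
   nat_lit 6193710293, nat_lit 0, nat_lit 4, nat_lit 5421451397, nat_lit 13661668505, nat_lit 8,
   nat_lit 5421811845, nat_lit 13667435673, nat_lit 5421811845, nat_lit 13667435673, nat_lit 8,
   nat_lit 13667435709, nat_lit 13667435709, nat_lit 4, nat_lit 5421451397, nat_lit 8,
   nat_lit 5421811845, nat_lit 5421811845, nat_lit 8, nat_lit 13665871001, nat_lit 13665715325,
   nat_lit 13634258053, nat_lit 5421189253, nat_lit 13657474201, nat_lit 4, nat_lit 13662996605,
   nat_lit 13662996605, nat_lit 8, nat_lit 13667536061, nat_lit 4, nat_lit 13503595633,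
   nat_lit 8, nat_lit 13595870321, nat_lit 13595870321, nat_lit 4, nat_lit 5421457541,
   nat_lit 13661766809, nat_lit 8, nat_lit 5421817989, nat_lit 13667533977, nat_lit 5421817989,
   nat_lit 13667533977, nat_lit 8, nat_lit 13667534013, nat_lit 13667534013, nat_lit 4,
   nat_lit 5421457541, nat_lit 13661766809, nat_lit 13661767833, nat_lit 8, nat_lit 5421817989,
   nat_lit 13667533977, nat_lit 13667535001, nat_lit 5421817989, nat_lit 13667533977,
   nat_lit 13667535001, nat_lit 8, nat_lit 13667534013, nat_lit 13667535001, nat_lit 13667534013,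
   nat_lit 13667535001, nat_lit 8, nat_lit 13667535037, nat_lit 13667535037, nat_lit 4,
   nat_lit 5421457541, nat_lit 8, nat_lit 5421817989, nat_lit 5421817989, nat_lit 8,
   nat_lit 13665722493, nat_lit 13665722493, nat_lit 13634265221, nat_lit 4, nat_lit 5421457541,
   nat_lit 13661766809, nat_lit 8, nat_lit 5421817989, nat_lit 13667533977, nat_lit 5421817989,
   nat_lit 13667533977, nat_lit 8, nat_lit 13667534013, nat_lit 13667534013, nat_lit 8,
   nat_lit 13665722493, nat_lit 13665722493, nat_lit 13665722493, nat_lit 13665722493,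
   nat_lit 13634265221, nat_lit 13634265221, nat_lit 8, nat_lit 13665722493, nat_lit 13665722493,
   nat_lit 13634265221, nat_lit 4, nat_lit 8, nat_lit 13665961113, nat_lit 13665699005,
   nat_lit 5421457541, nat_lit 13661766809, nat_lit 13661766809, nat_lit 8, nat_lit 5421817989,
   nat_lit 13667533977, nat_lit 13667533977, nat_lit 5421817989, nat_lit 13667533977,
   nat_lit 13667533977, nat_lit 8, nat_lit 13667534013, nat_lit 13667534013, nat_lit 13667534013,
   nat_lit 13667534013, nat_lit 13661504701, nat_lit 13633979545, nat_lit 13633979581, nat_lit 8,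
   nat_lit 13667534013, nat_lit 13667534013, nat_lit 13667534013, nat_lit 4, nat_lit 5421457541,
   nat_lit 8, nat_lit 5421817989, nat_lit 5421817989, nat_lit 8, nat_lit 13665722493,
   nat_lit 13665722493, nat_lit 13634265221, nat_lit 8, nat_lit 13665722493, nat_lit 13665722493,
   nat_lit 13634265221, nat_lit 13634265221, nat_lit 4, nat_lit 8, nat_lit 13665591421,
   nat_lit 13665591421, nat_lit 13634134149, nat_lit 5421457541, nat_lit 13661397117, nat_lit 8,
   nat_lit 5421817989, nat_lit 13667435673, nat_lit 5421817989, nat_lit 13667435673,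
   nat_lit 13661397117, nat_lit 8, nat_lit 13665722493, nat_lit 13665722493, nat_lit 13665722493,
   nat_lit 13665722493, nat_lit 13634265221, nat_lit 13634265221, nat_lit 13633872005,
   nat_lit 13631905925, nat_lit 8, nat_lit 13665722493, nat_lit 13665722493, nat_lit 13634265221,
   nat_lit 13634265221, nat_lit 5419589765, nat_lit 963690558, nat_lit 15371152589,
   nat_lit 5388814469, nat_lit 5388814469, nat_lit 0, nat_lit 4, nat_lit 5421451397,
   nat_lit 13661668505, nat_lit 8, nat_lit 5421811845, nat_lit 13667435673, nat_lit 5421811845,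
   nat_lit 13667435673, nat_lit 8, nat_lit 13667435709, nat_lit 13667435709, nat_lit 4,
   nat_lit 5421451397, nat_lit 8, nat_lit 5421811845, nat_lit 5421811845, nat_lit 8,
   nat_lit 13665871001, nat_lit 13665715325, nat_lit 13634258053, nat_lit 5421189253,
   nat_lit 13657474201, nat_lit 4, nat_lit 13662996605, nat_lit 13662996605, nat_lit 8,
   nat_lit 13667536061, nat_lit 4, nat_lit 13503595633, nat_lit 8, nat_lit 13595870321,
   nat_lit 13595870321, nat_lit 4, nat_lit 5421457541, nat_lit 13661766809, nat_lit 8,
   nat_lit 5421817989, nat_lit 13667533977, nat_lit 5421817989, nat_lit 13667533977, nat_lit 8,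
   nat_lit 13667534013, nat_lit 13667534013, nat_lit 4, nat_lit 5421457541, nat_lit 13661766809,
   nat_lit 13661767833, nat_lit 8, nat_lit 5421817989, nat_lit 13667533977, nat_lit 13667535001,
   nat_lit 5421817989, nat_lit 13667533977, nat_lit 13667535001, nat_lit 8, nat_lit 13667534013,
   nat_lit 13667535001, nat_lit 13667534013, nat_lit 13667535001, nat_lit 8, nat_lit 13667535037,
   nat_lit 13667535037, nat_lit 4, nat_lit 5421457541, nat_lit 8, nat_lit 5421817989,
   nat_lit 5421817989, nat_lit 8, nat_lit 13665722493, nat_lit 13665722493, nat_lit 13634265221,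
   nat_lit 4, nat_lit 5421457541, nat_lit 13661766809, nat_lit 8, nat_lit 5421817989,
   nat_lit 13667533977, nat_lit 5421817989, nat_lit 13667533977, nat_lit 8, nat_lit 13667534013,
   nat_lit 13667534013, nat_lit 8, nat_lit 13665722493, nat_lit 13665722493, nat_lit 13665722493,
   nat_lit 13665722493, nat_lit 13634265221, nat_lit 13634265221, nat_lit 8, nat_lit 13665722493,
   nat_lit 13665722493, nat_lit 13634265221, nat_lit 4, nat_lit 8, nat_lit 13665961113,
   nat_lit 13665699005, nat_lit 5421457541, nat_lit 13661766809, nat_lit 13661766809, nat_lit 8,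
   nat_lit 5421817989, nat_lit 13667533977, nat_lit 13667533977, nat_lit 5421817989,
   nat_lit 13667533977, nat_lit 13667533977, nat_lit 8, nat_lit 13667534013, nat_lit 13667534013,
   nat_lit 13667534013, nat_lit 13667534013, nat_lit 13661504701, nat_lit 13633979545,
   nat_lit 13633979581, nat_lit 8, nat_lit 13667534013, nat_lit 13667534013, nat_lit 13667534013,
   nat_lit 4, nat_lit 5421457541, nat_lit 8, nat_lit 5421817989, nat_lit 5421817989, nat_lit 8,
   nat_lit 13665722493, nat_lit 13665722493, nat_lit 13634265221, nat_lit 8, nat_lit 13665722493,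
   nat_lit 13665722493, nat_lit 13634265221, nat_lit 13634265221, nat_lit 4, nat_lit 8,
   nat_lit 13665591421, nat_lit 13665591421, nat_lit 13634134149, nat_lit 5421457541,
   nat_lit 13661397117, nat_lit 8, nat_lit 5421817989, nat_lit 13667435673, nat_lit 5421817989,
   nat_lit 13667435673, nat_lit 13661397117, nat_lit 8, nat_lit 13665722493, nat_lit 13665722493,
   nat_lit 13665722493, nat_lit 13665722493, nat_lit 13634265221, nat_lit 13634265221,
   nat_lit 13633872005, nat_lit 13631905925, nat_lit 8, nat_lit 13665722493, nat_lit 13665722493,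
   nat_lit 13634265221, nat_lit 13634265221, nat_lit 5419589765, nat_lit 963690558,
   nat_lit 5690393821, nat_lit 15414887541, nat_lit 15383430261, nat_lit 16, nat_lit 0,
   nat_lit 4, nat_lit 8, nat_lit 5388257413, nat_lit 6151242905, nat_lit 8, nat_lit 6151242941,
   nat_lit 4, nat_lit 8, nat_lit 5388257413, nat_lit 8, nat_lit 6149522557, nat_lit 6118065285,
   nat_lit 4, nat_lit 8, nat_lit 6079677553, nat_lit 4, nat_lit 8, nat_lit 5388263557,
   nat_lit 6151341209, nat_lit 8, nat_lit 6151341245, nat_lit 4, nat_lit 8, nat_lit 5388263557,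
   nat_lit 6151341209, nat_lit 6151342233, nat_lit 8, nat_lit 6151341245, nat_lit 6151342233,
   nat_lit 8, nat_lit 6151342269, nat_lit 4, nat_lit 8, nat_lit 5388263557, nat_lit 8,
   nat_lit 6149529725, nat_lit 6118072453, nat_lit 4, nat_lit 8, nat_lit 5388263557,
   nat_lit 6151341209, nat_lit 8, nat_lit 6151341245, nat_lit 8, nat_lit 6149529725,
   nat_lit 6149529725, nat_lit 6118072453, nat_lit 6118072453, nat_lit 8, nat_lit 6149529725,
   nat_lit 6118072453, nat_lit 4, nat_lit 8, nat_lit 6149506237, nat_lit 8, nat_lit 5388263557,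
   nat_lit 6151341209, nat_lit 6151341209, nat_lit 8, nat_lit 6151341245, nat_lit 6151341245,
   nat_lit 6145311933, nat_lit 6117786777, nat_lit 6117786813, nat_lit 8, nat_lit 6151341245,
   nat_lit 6151341245, nat_lit 4, nat_lit 8, nat_lit 5388263557, nat_lit 8, nat_lit 6149529725,
   nat_lit 6118072453, nat_lit 8, nat_lit 6149529725, nat_lit 6118072453, nat_lit 6118072453,
   nat_lit 4, nat_lit 8, nat_lit 6149398653, nat_lit 6117941381, nat_lit 8, nat_lit 5388263557,
   nat_lit 6151242905, nat_lit 6145204349, nat_lit 8, nat_lit 6149529725, nat_lit 6149529725,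
   nat_lit 6118072453, nat_lit 6118072453, nat_lit 6117679237, nat_lit 6115713157, nat_lit 8,
   nat_lit 6149529725, nat_lit 6118072453, nat_lit 6118072453, nat_lit 5386035333,
   nat_lit 6193710253, nat_lit 6193710293, nat_lit 0, nat_lit 4, nat_lit 8, nat_lit 5421811845,
   nat_lit 13667435673, nat_lit 8, nat_lit 13667435709, nat_lit 4, nat_lit 8, nat_lit 5421811845,
   nat_lit 8, nat_lit 13665715325, nat_lit 13634258053, nat_lit 4, nat_lit 8,
   nat_lit 13595870321, nat_lit 4, nat_lit 8, nat_lit 5421817989, nat_lit 13667533977, nat_lit 8,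
   nat_lit 13667534013, nat_lit 4, nat_lit 8, nat_lit 5421817989, nat_lit 13667533977,
   nat_lit 13667535001, nat_lit 8, nat_lit 13667534013, nat_lit 13667535001, nat_lit 8,
   nat_lit 13667535037, nat_lit 4, nat_lit 8, nat_lit 5421817989, nat_lit 8, nat_lit 13665722493,
   nat_lit 13634265221, nat_lit 4, nat_lit 8, nat_lit 5421817989, nat_lit 13667533977, nat_lit 8,
   nat_lit 13667534013, nat_lit 8, nat_lit 13665722493, nat_lit 13665722493, nat_lit 13634265221,
   nat_lit 13634265221, nat_lit 8, nat_lit 13665722493, nat_lit 13634265221, nat_lit 4,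
   nat_lit 8, nat_lit 13665699005, nat_lit 8, nat_lit 5421817989, nat_lit 13667533977,
   nat_lit 13667533977, nat_lit 8, nat_lit 13667534013, nat_lit 13667534013, nat_lit 13661504701,
   nat_lit 13633979545, nat_lit 13633979581, nat_lit 8, nat_lit 13667534013, nat_lit 13667534013,
   nat_lit 4, nat_lit 8, nat_lit 5421817989, nat_lit 8, nat_lit 13665722493, nat_lit 13634265221,
   nat_lit 8, nat_lit 13665722493, nat_lit 13634265221, nat_lit 13634265221, nat_lit 4,
   nat_lit 8, nat_lit 13665591421, nat_lit 13634134149, nat_lit 8, nat_lit 5421817989,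
   nat_lit 13667435673, nat_lit 13661397117, nat_lit 8, nat_lit 13665722493, nat_lit 13665722493,
   nat_lit 13634265221, nat_lit 13634265221, nat_lit 13633872005, nat_lit 13631905925, nat_lit 8,
   nat_lit 13665722493, nat_lit 13634265221, nat_lit 13634265221, nat_lit 5419589765,
   nat_lit 963821630, nat_lit 15371152589, nat_lit 5388814469, nat_lit 5388814469, nat_lit 0,
   nat_lit 4, nat_lit 8, nat_lit 5421811845, nat_lit 13667435673, nat_lit 8, nat_lit 13667435709,
   nat_lit 4, nat_lit 8, nat_lit 5421811845, nat_lit 8, nat_lit 13665715325, nat_lit 13634258053,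
   nat_lit 4, nat_lit 8, nat_lit 13595870321, nat_lit 4, nat_lit 8, nat_lit 5421817989,
   nat_lit 13667533977, nat_lit 8, nat_lit 13667534013, nat_lit 4, nat_lit 8, nat_lit 5421817989,
   nat_lit 13667533977, nat_lit 13667535001, nat_lit 8, nat_lit 13667534013, nat_lit 13667535001,
   nat_lit 8, nat_lit 13667535037, nat_lit 4, nat_lit 8, nat_lit 5421817989, nat_lit 8,
   nat_lit 13665722493, nat_lit 13634265221, nat_lit 4, nat_lit 8, nat_lit 5421817989,
   nat_lit 13667533977, nat_lit 8, nat_lit 13667534013, nat_lit 8, nat_lit 13665722493,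
   nat_lit 13665722493, nat_lit 13634265221, nat_lit 13634265221, nat_lit 8, nat_lit 13665722493,
   nat_lit 13634265221, nat_lit 4, nat_lit 8, nat_lit 13665699005, nat_lit 8, nat_lit 5421817989,
   nat_lit 13667533977, nat_lit 13667533977, nat_lit 8, nat_lit 13667534013, nat_lit 13667534013,
   nat_lit 13661504701, nat_lit 13633979545, nat_lit 13633979581, nat_lit 8, nat_lit 13667534013,
   nat_lit 13667534013, nat_lit 4, nat_lit 8, nat_lit 5421817989, nat_lit 8, nat_lit 13665722493,
   nat_lit 13634265221, nat_lit 8, nat_lit 13665722493, nat_lit 13634265221, nat_lit 13634265221,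
   nat_lit 4, nat_lit 8, nat_lit 13665591421, nat_lit 13634134149, nat_lit 8, nat_lit 5421817989,
   nat_lit 13667435673, nat_lit 13661397117, nat_lit 8, nat_lit 13665722493, nat_lit 13665722493,
   nat_lit 13634265221, nat_lit 13634265221, nat_lit 13633872005, nat_lit 13631905925, nat_lit 8,
   nat_lit 13665722493, nat_lit 13634265221, nat_lit 13634265221, nat_lit 5419589765,
   nat_lit 963821630, nat_lit 5690393821, nat_lit 5388814469, nat_lit 5623284889, nat_lit 0,
   nat_lit 4, nat_lit 8, nat_lit 5623138437, nat_lit 5623138437, nat_lit 8, nat_lit 5623138437,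
   nat_lit 4, nat_lit 8, nat_lit 5623138437, nat_lit 8, nat_lit 5623137413, nat_lit 5623137413,
   nat_lit 4, nat_lit 8, nat_lit 5623144581, nat_lit 4, nat_lit 8, nat_lit 5623144581,
   nat_lit 5623144581, nat_lit 8, nat_lit 5623144581, nat_lit 4, nat_lit 8, nat_lit 5623144581,
   nat_lit 5623144581, nat_lit 5623144581, nat_lit 8, nat_lit 5623144581, nat_lit 5623144581,
   nat_lit 8, nat_lit 5623144581, nat_lit 4, nat_lit 8, nat_lit 5623144581, nat_lit 8,
   nat_lit 5623144581, nat_lit 5623144581, nat_lit 4, nat_lit 8, nat_lit 5623144581,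
   nat_lit 5623144581, nat_lit 8, nat_lit 5623144581, nat_lit 8, nat_lit 5623144581,
   nat_lit 5623144581, nat_lit 5623144581, nat_lit 5623144581, nat_lit 8, nat_lit 5623144581,
   nat_lit 5623144581, nat_lit 4, nat_lit 8, nat_lit 5623029893, nat_lit 8, nat_lit 5623144581,
   nat_lit 5623144581, nat_lit 5623144581, nat_lit 8, nat_lit 5623144581, nat_lit 5623144581,
   nat_lit 5622767749, nat_lit 5621047429, nat_lit 5621047429, nat_lit 8, nat_lit 5623144581,
   nat_lit 5623144581, nat_lit 4, nat_lit 8, nat_lit 5623144581, nat_lit 8, nat_lit 5623144581,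
   nat_lit 5623144581, nat_lit 8, nat_lit 5623144581, nat_lit 5623144581, nat_lit 5623144581,
   nat_lit 4, nat_lit 8, nat_lit 5623013509, nat_lit 5623013509, nat_lit 8, nat_lit 5623144581,
   nat_lit 5623144581, nat_lit 5622751365, nat_lit 8, nat_lit 5623144581, nat_lit 5623144581,
   nat_lit 5623144581, nat_lit 5623144581, nat_lit 5622751365, nat_lit 5620785285, nat_lit 8,
   nat_lit 5623144581, nat_lit 5623144581, nat_lit 5623144581, nat_lit 5620916357,
   nat_lit 15385701573, nat_lit 5690393821, nat_lit 15925832873, nat_lit 0, nat_lit 4, nat_lit 8,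
   nat_lit 5581194373, nat_lit 4, nat_lit 8, nat_lit 5581201541, nat_lit 4, nat_lit 8,
   nat_lit 5581201541, nat_lit 5581201541, nat_lit 8, nat_lit 5581201541, nat_lit 5581440153,
   nat_lit 5581440153, nat_lit 246099608865, nat_lit 4, nat_lit 8, nat_lit 5581201541, nat_lit 8,
   nat_lit 5581201541, nat_lit 5581201541, nat_lit 4, nat_lit 8, nat_lit 5581070469, nat_lit 8,
   nat_lit 5581201541, nat_lit 5581201541, nat_lit 5580808325, nat_lit 5578842245, nat_lit 8,
   nat_lit 5581201541, nat_lit 5581201541, nat_lit 5386199173, nat_lit 16, nat_lit 5420277893,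
   nat_lit 15371152589, nat_lit 5688189077, nat_lit 5688189073, nat_lit 15385701573,
   nat_lit 5688189073, nat_lit 15385701573, nat_lit 15381245113, nat_lit 16, nat_lit 6191505517,
   nat_lit 6187311205, nat_lit 15383702733, nat_lit 15381245113, nat_lit 15925832873, nat_lit 0,
   nat_lit 4, nat_lit 8, nat_lit 5581201541, nat_lit 5578875013, nat_lit 5386199173, nat_lit 16,
   nat_lit 5420277893, nat_lit 15371152589, nat_lit 5688189077, nat_lit 5688189073,
   nat_lit 15385701573, nat_lit 5688189073, nat_lit 15385701573, nat_lit 15381245113,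
   nat_lit 15385701573, nat_lit 15381245113, nat_lit 16, nat_lit 6191505517, nat_lit 6187311205,
   nat_lit 15383702733, nat_lit 15381245113, nat_lit 15381245113, nat_lit 12, nat_lit 16,
   nat_lit 0, nat_lit 4, nat_lit 8, nat_lit 5614372029, nat_lit 4, nat_lit 8, nat_lit 5614470333,
   nat_lit 4, nat_lit 8, nat_lit 5614470333, nat_lit 5614471321, nat_lit 8, nat_lit 5614471357,
   nat_lit 4, nat_lit 8, nat_lit 5614470333, nat_lit 8, nat_lit 5612658813, nat_lit 5581201541,
   nat_lit 4, nat_lit 8, nat_lit 5612635325, nat_lit 8, nat_lit 5614470333, nat_lit 5614470333,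
   nat_lit 5608441021, nat_lit 5580915901, nat_lit 8, nat_lit 5614470333, nat_lit 5614470333,
   nat_lit 4, nat_lit 5608333437, nat_lit 5580808325, nat_lit 8, nat_lit 5612658813,
   nat_lit 5581201541, nat_lit 5581201541, nat_lit 5386035333, nat_lit 15419081925, nat_lit 0,
   nat_lit 4, nat_lit 8, nat_lit 13130564797, nat_lit 4, nat_lit 8, nat_lit 13130663101,
   nat_lit 4, nat_lit 8, nat_lit 13130663101, nat_lit 13130664089, nat_lit 8,
   nat_lit 13130664125, nat_lit 4, nat_lit 8, nat_lit 13130663101, nat_lit 8,
   nat_lit 13128851581, nat_lit 13097394309, nat_lit 4, nat_lit 8, nat_lit 13128828093,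
   nat_lit 8, nat_lit 13130663101, nat_lit 13130663101, nat_lit 13124633789, nat_lit 13097108669,
   nat_lit 8, nat_lit 13130663101, nat_lit 13130663101, nat_lit 4, nat_lit 13124526205,
   nat_lit 13097001093, nat_lit 8, nat_lit 13128851581, nat_lit 13097394309, nat_lit 13097394309,
   nat_lit 5419589765, nat_lit 963657790, nat_lit 15371144397, nat_lit 15419081925, nat_lit 0,
   nat_lit 4, nat_lit 8, nat_lit 13130564797, nat_lit 4, nat_lit 8, nat_lit 13130663101,
   nat_lit 4, nat_lit 8, nat_lit 13130663101, nat_lit 13130664089, nat_lit 8,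
   nat_lit 13130664125, nat_lit 4, nat_lit 8, nat_lit 13130663101, nat_lit 8,
   nat_lit 13128851581, nat_lit 13097394309, nat_lit 4, nat_lit 8, nat_lit 13128828093,
   nat_lit 8, nat_lit 13130663101, nat_lit 13130663101, nat_lit 13124633789, nat_lit 13097108669,
   nat_lit 8, nat_lit 13130663101, nat_lit 13130663101, nat_lit 4, nat_lit 13124526205,
   nat_lit 13097001093, nat_lit 8, nat_lit 13128851581, nat_lit 13097394309, nat_lit 13097394309,
   nat_lit 5419589765, nat_lit 963657790, nat_lit 5688296669, nat_lit 0, nat_lit 4, nat_lit 8,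
   nat_lit 5581201541, nat_lit 5386035333, nat_lit 16, nat_lit 5420146821, nat_lit 15371144397,
   nat_lit 5688025237, nat_lit 5688025233, nat_lit 15385691333, nat_lit 5688025233,
   nat_lit 15385691333, nat_lit 15381234873, nat_lit 16, nat_lit 6191341677, nat_lit 6187147365,
   nat_lit 15383692493, nat_lit 15381234873, nat_lit 16, nat_lit 15421213893,
   nat_lit 15421213893, nat_lit 963657790, nat_lit 15371144397, nat_lit 15928706177,
   nat_lit 15414887625, nat_lit 16, nat_lit 0, nat_lit 4, nat_lit 15406499013, nat_lit 8,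
   nat_lit 6151242941, nat_lit 6151242941, nat_lit 15402304709, nat_lit 4, nat_lit 6146803837,
   nat_lit 8, nat_lit 6151343293, nat_lit 4, nat_lit 15406597317, nat_lit 8, nat_lit 6151341245,
   nat_lit 6151341245, nat_lit 4, nat_lit 15406597317, nat_lit 6145575065, nat_lit 8,
   nat_lit 6151341245, nat_lit 6151342233, nat_lit 6151341245, nat_lit 6151342233, nat_lit 8,
   nat_lit 6151342269, nat_lit 6151342269, nat_lit 4, nat_lit 15406597317, nat_lit 8,
   nat_lit 6151341245, nat_lit 6151341245, nat_lit 8, nat_lit 6149529725, nat_lit 6149529725,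
   nat_lit 6118072453, nat_lit 4, nat_lit 8, nat_lit 15410791621, nat_lit 6149506237,
   nat_lit 15406597317, nat_lit 15406597317, nat_lit 8, nat_lit 6151341245, nat_lit 6151341245,
   nat_lit 6151341245, nat_lit 6151341245, nat_lit 6145311933, nat_lit 6117786813, nat_lit 8,
   nat_lit 6151341245, nat_lit 6151341245, nat_lit 6151341245, nat_lit 4, nat_lit 6145204349,
   nat_lit 6145204349, nat_lit 6117679237, nat_lit 8, nat_lit 6149529725, nat_lit 6149529725,
   nat_lit 6118072453, nat_lit 6118072453, nat_lit 5386035333, nat_lit 15421179077, nat_lit 0,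
   nat_lit 4, nat_lit 15876261061, nat_lit 8, nat_lit 13667435709, nat_lit 13667435709,
   nat_lit 15872066757, nat_lit 4, nat_lit 13662996605, nat_lit 8, nat_lit 13667536061,
   nat_lit 4, nat_lit 15876359365, nat_lit 8, nat_lit 13667534013, nat_lit 13667534013,
   nat_lit 4, nat_lit 15876359365, nat_lit 13661767833, nat_lit 8, nat_lit 13667534013,
   nat_lit 13667535001, nat_lit 13667534013, nat_lit 13667535001, nat_lit 8, nat_lit 13667535037,
   nat_lit 13667535037, nat_lit 4, nat_lit 15876359365, nat_lit 8, nat_lit 13667534013,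
   nat_lit 13667534013, nat_lit 8, nat_lit 13665722493, nat_lit 13665722493, nat_lit 13634265221,
   nat_lit 4, nat_lit 8, nat_lit 15880553669, nat_lit 13665699005, nat_lit 15876359365,
   nat_lit 15876359365, nat_lit 8, nat_lit 13667534013, nat_lit 13667534013, nat_lit 13667534013,
   nat_lit 13667534013, nat_lit 13661504701, nat_lit 13633979581, nat_lit 8, nat_lit 13667534013,
   nat_lit 13667534013, nat_lit 13667534013, nat_lit 4, nat_lit 13661397117, nat_lit 13661397117,
   nat_lit 13633872005, nat_lit 8, nat_lit 13665722493, nat_lit 13665722493, nat_lit 13634265221,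
   nat_lit 13634265221, nat_lit 5419589765, nat_lit 963657790, nat_lit 15371152589,
   nat_lit 15421179077, nat_lit 0, nat_lit 4, nat_lit 15876261061, nat_lit 8,
   nat_lit 13667435709, nat_lit 13667435709, nat_lit 15872066757, nat_lit 4, nat_lit 13662996605,
   nat_lit 8, nat_lit 13667536061, nat_lit 4, nat_lit 15876359365, nat_lit 8,
   nat_lit 13667534013, nat_lit 13667534013, nat_lit 4, nat_lit 15876359365, nat_lit 13661767833,
   nat_lit 8, nat_lit 13667534013, nat_lit 13667535001, nat_lit 13667534013, nat_lit 13667535001,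
   nat_lit 8, nat_lit 13667535037, nat_lit 13667535037, nat_lit 4, nat_lit 15876359365,
   nat_lit 8, nat_lit 13667534013, nat_lit 13667534013, nat_lit 8, nat_lit 13665722493,
   nat_lit 13665722493, nat_lit 13634265221, nat_lit 4, nat_lit 8, nat_lit 15880553669,
   nat_lit 13665699005, nat_lit 15876359365, nat_lit 15876359365, nat_lit 8, nat_lit 13667534013,
   nat_lit 13667534013, nat_lit 13667534013, nat_lit 13667534013, nat_lit 13661504701,
   nat_lit 13633979581, nat_lit 8, nat_lit 13667534013, nat_lit 13667534013, nat_lit 13667534013,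
   nat_lit 4, nat_lit 13661397117, nat_lit 13661397117, nat_lit 13633872005, nat_lit 8,
   nat_lit 13665722493, nat_lit 13665722493, nat_lit 13634265221, nat_lit 13634265221,
   nat_lit 5419589765, nat_lit 963657790, nat_lit 5690393821, nat_lit 15928706177,
   nat_lit 15414887625, nat_lit 15926740097, nat_lit 16, nat_lit 0, nat_lit 4, nat_lit 8,
   nat_lit 6151242941, nat_lit 4, nat_lit 8, nat_lit 6151341245, nat_lit 4, nat_lit 8,
   nat_lit 6151341245, nat_lit 6151342233, nat_lit 8, nat_lit 6151342269, nat_lit 4, nat_lit 8,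
   nat_lit 6151341245, nat_lit 8, nat_lit 6149529725, nat_lit 6118072453, nat_lit 4, nat_lit 8,
   nat_lit 6149506237, nat_lit 8, nat_lit 6151341245, nat_lit 6151341245, nat_lit 6145311933,
   nat_lit 6117786813, nat_lit 8, nat_lit 6151341245, nat_lit 6151341245, nat_lit 4,
   nat_lit 6145204349, nat_lit 6117679237, nat_lit 8, nat_lit 6149529725, nat_lit 6118072453,
   nat_lit 6118072453, nat_lit 5386035333, nat_lit 15421179077, nat_lit 0, nat_lit 4, nat_lit 8,
   nat_lit 13667435709, nat_lit 4, nat_lit 8, nat_lit 13667534013, nat_lit 4, nat_lit 8,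
   nat_lit 13667534013, nat_lit 13667535001, nat_lit 8, nat_lit 13667535037, nat_lit 4,
   nat_lit 8, nat_lit 13667534013, nat_lit 8, nat_lit 13665722493, nat_lit 13634265221,
   nat_lit 4, nat_lit 8, nat_lit 13665699005, nat_lit 8, nat_lit 13667534013,
   nat_lit 13667534013, nat_lit 13661504701, nat_lit 13633979581, nat_lit 8, nat_lit 13667534013,
   nat_lit 13667534013, nat_lit 4, nat_lit 13661397117, nat_lit 13633872005, nat_lit 8,
   nat_lit 13665722493, nat_lit 13634265221, nat_lit 13634265221, nat_lit 5419589765,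
   nat_lit 963657790, nat_lit 15371152589, nat_lit 15421179077, nat_lit 0, nat_lit 4, nat_lit 8,
   nat_lit 13667435709, nat_lit 4, nat_lit 8, nat_lit 13667534013, nat_lit 4, nat_lit 8,
   nat_lit 13667534013, nat_lit 13667535001, nat_lit 8, nat_lit 13667535037, nat_lit 4,
   nat_lit 8, nat_lit 13667534013, nat_lit 8, nat_lit 13665722493, nat_lit 13634265221,
   nat_lit 4, nat_lit 8, nat_lit 13665699005, nat_lit 8, nat_lit 13667534013,
   nat_lit 13667534013, nat_lit 13661504701, nat_lit 13633979581, nat_lit 8, nat_lit 13667534013,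
   nat_lit 13667534013, nat_lit 4, nat_lit 13661397117, nat_lit 13633872005, nat_lit 8,
   nat_lit 13665722493, nat_lit 13634265221, nat_lit 13634265221, nat_lit 5419589765,
   nat_lit 963657790, nat_lit 5690393821, nat_lit 15421179077, nat_lit 0, nat_lit 4, nat_lit 8,
   nat_lit 5623138437, nat_lit 4, nat_lit 8, nat_lit 5623144581, nat_lit 4, nat_lit 8,
   nat_lit 5623144581, nat_lit 5623144581, nat_lit 8, nat_lit 5623144581, nat_lit 4, nat_lit 8,
   nat_lit 5623144581, nat_lit 8, nat_lit 5623144581, nat_lit 5623144581, nat_lit 4, nat_lit 8,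
   nat_lit 5623029893, nat_lit 8, nat_lit 5623144581, nat_lit 5623144581, nat_lit 5622767749,
   nat_lit 5621047429, nat_lit 8, nat_lit 5623144581, nat_lit 5623144581, nat_lit 4,
   nat_lit 5622751365, nat_lit 5622751365, nat_lit 8, nat_lit 5623144581, nat_lit 5623144581,
   nat_lit 5623144581, nat_lit 5620916357, nat_lit 15385701573, nat_lit 5690393821,
   nat_lit 15926740133, nat_lit 15926740097, nat_lit 0, nat_lit 4, nat_lit 8, nat_lit 5581201541,
   nat_lit 15379334341, nat_lit 15387722949, nat_lit 15381169337, nat_lit 4, nat_lit 5580808325,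
   nat_lit 8, nat_lit 5581201541, nat_lit 5581201541, nat_lit 5386199173, nat_lit 16,
   nat_lit 5420277893, nat_lit 15371152589, nat_lit 5688189077, nat_lit 5688189073,
   nat_lit 15385701573, nat_lit 5688189073, nat_lit 15385701573, nat_lit 15381245113, nat_lit 16,
   nat_lit 6191505517, nat_lit 6187311205, nat_lit 15383702733, nat_lit 15381245113,
   nat_lit 15926740133, nat_lit 15925832873, nat_lit 15926586533, nat_lit 0, nat_lit 4,
   nat_lit 8, nat_lit 5581201541, nat_lit 5386199173, nat_lit 16, nat_lit 5420277893,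
   nat_lit 15371152589, nat_lit 5688189077, nat_lit 5688189073, nat_lit 15385701573,
   nat_lit 5688189073, nat_lit 15385701573, nat_lit 15381245113, nat_lit 15385701573,
   nat_lit 15381245113, nat_lit 16, nat_lit 6191505517, nat_lit 6187311205, nat_lit 15383702733,
   nat_lit 15381245113, nat_lit 15381245113, nat_lit 15926592677, nat_lit 15926592677,
   nat_lit 15925841069, nat_lit 24, nat_lit 12, nat_lit 15414887541, nat_lit 15414887541,
   nat_lit 16, nat_lit 0, nat_lit 4, nat_lit 8, nat_lit 5388257413, nat_lit 6151242905,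
   nat_lit 8, nat_lit 6151242941, nat_lit 4, nat_lit 8, nat_lit 5388257413, nat_lit 8,
   nat_lit 6149522557, nat_lit 6118065285, nat_lit 4, nat_lit 8, nat_lit 6079677553, nat_lit 4,
   nat_lit 8, nat_lit 5388263557, nat_lit 6151341209, nat_lit 8, nat_lit 6151341245, nat_lit 4,
   nat_lit 8, nat_lit 5388263557, nat_lit 6151341209, nat_lit 6151342233, nat_lit 8,
   nat_lit 6151341245, nat_lit 6151342233, nat_lit 8, nat_lit 6151342269, nat_lit 4, nat_lit 8,
   nat_lit 5388263557, nat_lit 8, nat_lit 6149529725, nat_lit 6118072453, nat_lit 4, nat_lit 8,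
   nat_lit 5388263557, nat_lit 6151341209, nat_lit 8, nat_lit 6151341245, nat_lit 8,
   nat_lit 6149529725, nat_lit 6149529725, nat_lit 6118072453, nat_lit 6118072453, nat_lit 8,
   nat_lit 6149529725, nat_lit 6118072453, nat_lit 4, nat_lit 8, nat_lit 6149506237, nat_lit 8,
   nat_lit 5388263557, nat_lit 6151341209, nat_lit 6151341209, nat_lit 8, nat_lit 6151341245,
   nat_lit 6151341245, nat_lit 6145311933, nat_lit 6117786777, nat_lit 6117786813, nat_lit 8,
   nat_lit 6151341245, nat_lit 6151341245, nat_lit 4, nat_lit 8, nat_lit 5388263557, nat_lit 8,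
   nat_lit 6149529725, nat_lit 6118072453, nat_lit 8, nat_lit 6149529725, nat_lit 6118072453,
   nat_lit 6118072453, nat_lit 4, nat_lit 8, nat_lit 6149398653, nat_lit 6117941381, nat_lit 8,
   nat_lit 5388263557, nat_lit 6151242905, nat_lit 6145204349, nat_lit 8, nat_lit 6149529725,
   nat_lit 6149529725, nat_lit 6118072453, nat_lit 6118072453, nat_lit 6117679237,
   nat_lit 6115713157, nat_lit 8, nat_lit 6149529725, nat_lit 6118072453, nat_lit 6118072453,
   nat_lit 5386035333, nat_lit 6193710253, nat_lit 6193710293, nat_lit 0, nat_lit 4, nat_lit 8,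
   nat_lit 5421811845, nat_lit 13667435673, nat_lit 8, nat_lit 13667435709, nat_lit 4, nat_lit 8,
   nat_lit 5421811845, nat_lit 8, nat_lit 13665715325, nat_lit 13634258053, nat_lit 4, nat_lit 8,
   nat_lit 13595870321, nat_lit 4, nat_lit 8, nat_lit 5421817989, nat_lit 13667533977, nat_lit 8,
   nat_lit 13667534013, nat_lit 4, nat_lit 8, nat_lit 5421817989, nat_lit 13667533977,
   nat_lit 13667535001, nat_lit 8, nat_lit 13667534013, nat_lit 13667535001, nat_lit 8,
   nat_lit 13667535037, nat_lit 4, nat_lit 8, nat_lit 5421817989, nat_lit 8, nat_lit 13665722493,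
   nat_lit 13634265221, nat_lit 4, nat_lit 8, nat_lit 5421817989, nat_lit 13667533977, nat_lit 8,
   nat_lit 13667534013, nat_lit 8, nat_lit 13665722493, nat_lit 13665722493, nat_lit 13634265221,
   nat_lit 13634265221, nat_lit 8, nat_lit 13665722493, nat_lit 13634265221, nat_lit 4,
   nat_lit 8, nat_lit 13665699005, nat_lit 8, nat_lit 5421817989, nat_lit 13667533977,
   nat_lit 13667533977, nat_lit 8, nat_lit 13667534013, nat_lit 13667534013, nat_lit 13661504701,
   nat_lit 13633979545, nat_lit 13633979581, nat_lit 8, nat_lit 13667534013, nat_lit 13667534013,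
   nat_lit 4, nat_lit 8, nat_lit 5421817989, nat_lit 8, nat_lit 13665722493, nat_lit 13634265221,
   nat_lit 8, nat_lit 13665722493, nat_lit 13634265221, nat_lit 13634265221, nat_lit 4,
   nat_lit 8, nat_lit 13665591421, nat_lit 13634134149, nat_lit 8, nat_lit 5421817989,
   nat_lit 13667435673, nat_lit 13661397117, nat_lit 8, nat_lit 13665722493, nat_lit 13665722493,
   nat_lit 13634265221, nat_lit 13634265221, nat_lit 13633872005, nat_lit 13631905925, nat_lit 8,
   nat_lit 13665722493, nat_lit 13634265221, nat_lit 13634265221, nat_lit 5419589765,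
   nat_lit 963821630, nat_lit 15371152589, nat_lit 5388814469, nat_lit 5388814469, nat_lit 0,
   nat_lit 4, nat_lit 8, nat_lit 5421811845, nat_lit 13667435673, nat_lit 8, nat_lit 13667435709,
   nat_lit 4, nat_lit 8, nat_lit 5421811845, nat_lit 8, nat_lit 13665715325, nat_lit 13634258053,
   nat_lit 4, nat_lit 8, nat_lit 13595870321, nat_lit 4, nat_lit 8, nat_lit 5421817989,
   nat_lit 13667533977, nat_lit 8, nat_lit 13667534013, nat_lit 4, nat_lit 8, nat_lit 5421817989,
   nat_lit 13667533977, nat_lit 13667535001, nat_lit 8, nat_lit 13667534013, nat_lit 13667535001,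
   nat_lit 8, nat_lit 13667535037, nat_lit 4, nat_lit 8, nat_lit 5421817989, nat_lit 8,
   nat_lit 13665722493, nat_lit 13634265221, nat_lit 4, nat_lit 8, nat_lit 5421817989,
   nat_lit 13667533977, nat_lit 8, nat_lit 13667534013, nat_lit 8, nat_lit 13665722493,
   nat_lit 13665722493, nat_lit 13634265221, nat_lit 13634265221, nat_lit 8, nat_lit 13665722493,
   nat_lit 13634265221, nat_lit 4, nat_lit 8, nat_lit 13665699005, nat_lit 8, nat_lit 5421817989,
   nat_lit 13667533977, nat_lit 13667533977, nat_lit 8, nat_lit 13667534013, nat_lit 13667534013,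
   nat_lit 13661504701, nat_lit 13633979545, nat_lit 13633979581, nat_lit 8, nat_lit 13667534013,
   nat_lit 13667534013, nat_lit 4, nat_lit 8, nat_lit 5421817989, nat_lit 8, nat_lit 13665722493,
   nat_lit 13634265221, nat_lit 8, nat_lit 13665722493, nat_lit 13634265221, nat_lit 13634265221,
   nat_lit 4, nat_lit 8, nat_lit 13665591421, nat_lit 13634134149, nat_lit 8, nat_lit 5421817989,
   nat_lit 13667435673, nat_lit 13661397117, nat_lit 8, nat_lit 13665722493, nat_lit 13665722493,
   nat_lit 13634265221, nat_lit 13634265221, nat_lit 13633872005, nat_lit 13631905925, nat_lit 8,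
   nat_lit 13665722493, nat_lit 13634265221, nat_lit 13634265221, nat_lit 5419589765,
   nat_lit 963821630, nat_lit 5690393821, nat_lit 5388814469, nat_lit 5623284889, nat_lit 0,
   nat_lit 4, nat_lit 8, nat_lit 5623138437, nat_lit 5623138437, nat_lit 8, nat_lit 5623138437,
   nat_lit 4, nat_lit 8, nat_lit 5623138437, nat_lit 8, nat_lit 5623137413, nat_lit 5623137413,
   nat_lit 4, nat_lit 8, nat_lit 5623144581, nat_lit 4, nat_lit 8, nat_lit 5623144581,
   nat_lit 5623144581, nat_lit 8, nat_lit 5623144581, nat_lit 4, nat_lit 8, nat_lit 5623144581,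
   nat_lit 5623144581, nat_lit 5623144581, nat_lit 8, nat_lit 5623144581, nat_lit 5623144581,
   nat_lit 8, nat_lit 5623144581, nat_lit 4, nat_lit 8, nat_lit 5623144581, nat_lit 8,
   nat_lit 5623144581, nat_lit 5623144581, nat_lit 4, nat_lit 8, nat_lit 5623144581,
   nat_lit 5623144581, nat_lit 8, nat_lit 5623144581, nat_lit 8, nat_lit 5623144581,
   nat_lit 5623144581, nat_lit 5623144581, nat_lit 5623144581, nat_lit 8, nat_lit 5623144581,
   nat_lit 5623144581, nat_lit 4, nat_lit 8, nat_lit 5623029893, nat_lit 8, nat_lit 5623144581,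
   nat_lit 5623144581, nat_lit 5623144581, nat_lit 8, nat_lit 5623144581, nat_lit 5623144581,
   nat_lit 5622767749, nat_lit 5621047429, nat_lit 5621047429, nat_lit 8, nat_lit 5623144581,
   nat_lit 5623144581, nat_lit 4, nat_lit 8, nat_lit 5623144581, nat_lit 8, nat_lit 5623144581,
   nat_lit 5623144581, nat_lit 8, nat_lit 5623144581, nat_lit 5623144581, nat_lit 5623144581,
   nat_lit 4, nat_lit 8, nat_lit 5623013509, nat_lit 5623013509, nat_lit 8, nat_lit 5623144581,
   nat_lit 5623144581, nat_lit 5622751365, nat_lit 8, nat_lit 5623144581, nat_lit 5623144581,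
   nat_lit 5623144581, nat_lit 5623144581, nat_lit 5622751365, nat_lit 5620785285, nat_lit 8,
   nat_lit 5623144581, nat_lit 5623144581, nat_lit 5623144581, nat_lit 5620916357,
   nat_lit 15385701573, nat_lit 5690393821, nat_lit 0, nat_lit 4, nat_lit 8, nat_lit 5581194373,
   nat_lit 4, nat_lit 8, nat_lit 5581201541, nat_lit 4, nat_lit 8, nat_lit 5581201541,
   nat_lit 5581201541, nat_lit 8, nat_lit 5581201541, nat_lit 5581440153, nat_lit 5581440153,
   nat_lit 246099608865, nat_lit 4, nat_lit 8, nat_lit 5581201541, nat_lit 8, nat_lit 5581201541,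
   nat_lit 5581201541, nat_lit 4, nat_lit 8, nat_lit 5581070469, nat_lit 8, nat_lit 5581201541,
   nat_lit 5581201541, nat_lit 5580808325, nat_lit 5578842245, nat_lit 8, nat_lit 5581201541,
   nat_lit 5581201541, nat_lit 5386199173, nat_lit 16, nat_lit 5420277893, nat_lit 15371152589,
   nat_lit 5688189077, nat_lit 5688189073, nat_lit 15385701573, nat_lit 5688189073,
   nat_lit 15385701573, nat_lit 15381245113, nat_lit 16, nat_lit 6191505517, nat_lit 6187311205,
   nat_lit 15383702733, nat_lit 15381245113, nat_lit 0, nat_lit 4, nat_lit 8, nat_lit 5581201541,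
   nat_lit 5578875013, nat_lit 5386199173, nat_lit 16, nat_lit 5420277893, nat_lit 15371152589,
   nat_lit 5688189077, nat_lit 5688189073, nat_lit 15385701573, nat_lit 5688189073,
   nat_lit 15385701573, nat_lit 15381245113, nat_lit 15385701573, nat_lit 15381245113,
   nat_lit 16, nat_lit 6191505517, nat_lit 6187311205, nat_lit 15383702733, nat_lit 15381245113,
   nat_lit 15381245113, nat_lit 12, nat_lit 0, nat_lit 4, nat_lit 8, nat_lit 5581201541,
   nat_lit 5386035333, nat_lit 16, nat_lit 5420146821, nat_lit 15371144397, nat_lit 5688025237,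
   nat_lit 5688025233, nat_lit 15385691333, nat_lit 5688025233, nat_lit 15385691333,
   nat_lit 15381234873, nat_lit 16, nat_lit 6191341677, nat_lit 6187147365, nat_lit 15383692493,
   nat_lit 15381234873, nat_lit 15928706185, nat_lit 15414887625, nat_lit 15928706185,
   nat_lit 15414887625, nat_lit 16, nat_lit 0, nat_lit 4, nat_lit 8, nat_lit 6151242941,
   nat_lit 4, nat_lit 8, nat_lit 6151341245, nat_lit 4, nat_lit 8, nat_lit 6151341245,
   nat_lit 6151342233, nat_lit 8, nat_lit 6151342269, nat_lit 4, nat_lit 8, nat_lit 6151341245,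
   nat_lit 8, nat_lit 6149529725, nat_lit 6118072453, nat_lit 4, nat_lit 8, nat_lit 6149506237,
   nat_lit 8, nat_lit 6151341245, nat_lit 6151341245, nat_lit 6145311933, nat_lit 6117786813,
   nat_lit 8, nat_lit 6151341245, nat_lit 6151341245, nat_lit 4, nat_lit 6145204349,
   nat_lit 6117679237, nat_lit 8, nat_lit 6149529725, nat_lit 6118072453, nat_lit 6118072453,
   nat_lit 5386035333, nat_lit 15421179077, nat_lit 0, nat_lit 4, nat_lit 8, nat_lit 13667435709,
   nat_lit 4, nat_lit 8, nat_lit 13667534013, nat_lit 4, nat_lit 8, nat_lit 13667534013,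
   nat_lit 13667535001, nat_lit 8, nat_lit 13667535037, nat_lit 4, nat_lit 8,
   nat_lit 13667534013, nat_lit 8, nat_lit 13665722493, nat_lit 13634265221, nat_lit 4,
   nat_lit 8, nat_lit 13665699005, nat_lit 8, nat_lit 13667534013, nat_lit 13667534013,
   nat_lit 13661504701, nat_lit 13633979581, nat_lit 8, nat_lit 13667534013, nat_lit 13667534013,
   nat_lit 4, nat_lit 13661397117, nat_lit 13633872005, nat_lit 8, nat_lit 13665722493,
   nat_lit 13634265221, nat_lit 13634265221, nat_lit 5419589765, nat_lit 963657790,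
   nat_lit 15371152589, nat_lit 15421179077, nat_lit 0, nat_lit 4, nat_lit 8,
   nat_lit 13667435709, nat_lit 4, nat_lit 8, nat_lit 13667534013, nat_lit 4, nat_lit 8,
   nat_lit 13667534013, nat_lit 13667535001, nat_lit 8, nat_lit 13667535037, nat_lit 4,
   nat_lit 8, nat_lit 13667534013, nat_lit 8, nat_lit 13665722493, nat_lit 13634265221,
   nat_lit 4, nat_lit 8, nat_lit 13665699005, nat_lit 8, nat_lit 13667534013,
   nat_lit 13667534013, nat_lit 13661504701, nat_lit 13633979581, nat_lit 8, nat_lit 13667534013,
   nat_lit 13667534013, nat_lit 4, nat_lit 13661397117, nat_lit 13633872005, nat_lit 8,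
   nat_lit 13665722493, nat_lit 13634265221, nat_lit 13634265221, nat_lit 5419589765,
   nat_lit 963657790, nat_lit 5690393821, nat_lit 15421179077, nat_lit 0, nat_lit 4, nat_lit 8,
   nat_lit 5623138437, nat_lit 4, nat_lit 8, nat_lit 5623144581, nat_lit 4, nat_lit 8,
   nat_lit 5623144581, nat_lit 5623144581, nat_lit 8, nat_lit 5623144581, nat_lit 4, nat_lit 8,
   nat_lit 5623144581, nat_lit 8, nat_lit 5623144581, nat_lit 5623144581, nat_lit 4, nat_lit 8,
   nat_lit 5623029893, nat_lit 8, nat_lit 5623144581, nat_lit 5623144581, nat_lit 5622767749,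
   nat_lit 5621047429, nat_lit 8, nat_lit 5623144581, nat_lit 5623144581, nat_lit 4,
   nat_lit 5622751365, nat_lit 5622751365, nat_lit 8, nat_lit 5623144581, nat_lit 5623144581,
   nat_lit 5623144581, nat_lit 5620916357, nat_lit 15385701573, nat_lit 5690393821,
   nat_lit 15926740137, nat_lit 0, nat_lit 4, nat_lit 8, nat_lit 5581201541, nat_lit 15379334341,
   nat_lit 15387722949, nat_lit 15381169337, nat_lit 4, nat_lit 5580808325, nat_lit 8,
   nat_lit 5581201541, nat_lit 5581201541, nat_lit 5386199173, nat_lit 16, nat_lit 5420277893,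
   nat_lit 15371152589, nat_lit 5688189077, nat_lit 5688189073, nat_lit 15385701573,
   nat_lit 5688189073, nat_lit 15385701573, nat_lit 15381245113, nat_lit 16, nat_lit 6191505517,
   nat_lit 6187311205, nat_lit 15383702733, nat_lit 15381245113, nat_lit 15926740137,
   nat_lit 15926586537, nat_lit 0, nat_lit 4, nat_lit 8, nat_lit 5581201541, nat_lit 5386199173,
   nat_lit 16, nat_lit 5420277893, nat_lit 15371152589, nat_lit 5688189077, nat_lit 5688189073,
   nat_lit 15385701573, nat_lit 5688189073, nat_lit 15385701573, nat_lit 15381245113,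
   nat_lit 15385701573, nat_lit 15381245113, nat_lit 16, nat_lit 6191505517, nat_lit 6187311205,
   nat_lit 15383702733, nat_lit 15381245113, nat_lit 15381245113, nat_lit 15926592681,
   nat_lit 15926592681, nat_lit 15926592685, nat_lit 24, nat_lit 12, nat_lit 15414887625,
   nat_lit 15414887625, nat_lit 15926740177, nat_lit 15926740177, nat_lit 0, nat_lit 4,
   nat_lit 8, nat_lit 5581201541, nat_lit 5386199173, nat_lit 16, nat_lit 5420277893,
   nat_lit 15371152589, nat_lit 5688189077, nat_lit 5688189073, nat_lit 15385701573,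
   nat_lit 5688189073, nat_lit 15385701573, nat_lit 15381245113, nat_lit 15385701573,
   nat_lit 15381245113, nat_lit 16, nat_lit 6191505517, nat_lit 6187311205, nat_lit 15383702733,
   nat_lit 15381245113, nat_lit 15381245113, nat_lit 15926592721, nat_lit 15926592721,
   nat_lit 15926592725, nat_lit 14295270617, nat_lit 6241944689, nat_lit 6258721965,
   nat_lit 6258722005, nat_lit 13976241317, nat_lit 4, nat_lit 5985812570, nat_lit 5407278245,
   nat_lit 5985812570, nat_lit 5675713757, nat_lit 5386422425, nat_lit 86182757673,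
   nat_lit 5386421401, nat_lit 86181037349, nat_lit 0, nat_lit 5386428605, nat_lit 5578842301,
   nat_lit 5578842265, nat_lit 5386428569, nat_lit 0, nat_lit 86109479217, nat_lit 86181044517,
   nat_lit 86181044517, nat_lit 5386035333, nat_lit 0, nat_lit 4, nat_lit 10222339237,
   nat_lit 10221587629, nat_lit 4, nat_lit 10222339241, nat_lit 10222339245, nat_lit 4,
   nat_lit 10222339281, nat_lit 10222339285, nat_lit 8926561497, nat_lit 5906400369,
   nat_lit 5923177645, nat_lit 5923177685, nat_lit 8607532197]

theorem c22_20 : chk TT UT (gU 22) (sub 20 3) s22_20 = true := by decide +kernel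

def s23_0 : List ℕ :=   [nat_lit 0, nat_lit 353116225, nat_lit 353132609, nat_lit 353132597, nat_lit 201875501,
   nat_lit 90396189029, nat_lit 0, nat_lit 4, nat_lit 8, nat_lit 5652497589, nat_lit 5649900765,
   nat_lit 5649900753, nat_lit 5572691129, nat_lit 1446374573609, nat_lit 5649876189,
   nat_lit 5649876177, nat_lit 5572428985, nat_lit 8, nat_lit 1446374573613, nat_lit 4,
   nat_lit 8, nat_lit 5652497589, nat_lit 8, nat_lit 5652497589, nat_lit 5652497589, nat_lit 4,
   nat_lit 8, nat_lit 5652504757, nat_lit 5649859805, nat_lit 5649859793, nat_lit 5572166841,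
   nat_lit 4, nat_lit 8, nat_lit 5652497589, nat_lit 5649900765, nat_lit 5649900753,
   nat_lit 5572789433, nat_lit 1446374671913, nat_lit 5649876189, nat_lit 4498785465,
   nat_lit 5572527289, nat_lit 8, nat_lit 1446374671917, nat_lit 4, nat_lit 8,
   nat_lit 5652504757, nat_lit 8, nat_lit 5652504757, nat_lit 5652504757, nat_lit 5649859805,
   nat_lit 5649859793, nat_lit 5570692301, nat_lit 4, nat_lit 8, nat_lit 5652497589,
   nat_lit 5649900765, nat_lit 5649900753, nat_lit 5572789433, nat_lit 1446374671913,
   nat_lit 5649876189, nat_lit 4498785465, nat_lit 5572527289, nat_lit 8, nat_lit 1446374671917,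
   nat_lit 8, nat_lit 5652497589, nat_lit 5649900765, nat_lit 5649900753, nat_lit 5572699321,
   nat_lit 1446372860333, nat_lit 5652497589, nat_lit 5547361481, nat_lit 5547361481,
   nat_lit 5547361477, nat_lit 5547361477, nat_lit 5649876189, nat_lit 4498785465,
   nat_lit 5572527289, nat_lit 8, nat_lit 1446374671917, nat_lit 1446374671917,
   nat_lit 5649752285, nat_lit 4, nat_lit 8, nat_lit 5652373685, nat_lit 5652373685, nat_lit 8,
   nat_lit 5652504757, nat_lit 5652504757, nat_lit 5652111541, nat_lit 8, nat_lit 5652504757,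
   nat_lit 5652504757, nat_lit 5652504757, nat_lit 5652504757, nat_lit 5652111541,
   nat_lit 5650145461, nat_lit 8, nat_lit 5652504757, nat_lit 5652504757, nat_lit 5652504757,
   nat_lit 4, nat_lit 8, nat_lit 5652373649, nat_lit 5652373641, nat_lit 5652373649,
   nat_lit 5652373641, nat_lit 8, nat_lit 5652504721, nat_lit 5652504721, nat_lit 5652504713,
   nat_lit 5652111505, nat_lit 5652111497, nat_lit 8, nat_lit 5652504721, nat_lit 5652504721,
   nat_lit 5652504713, nat_lit 5652504721, nat_lit 5652504721, nat_lit 5652504713,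
   nat_lit 5652111505, nat_lit 5652111497, nat_lit 5650145425, nat_lit 8, nat_lit 5652504721,
   nat_lit 5652504713, nat_lit 5652504721, nat_lit 5652504713, nat_lit 5652504721,
   nat_lit 5652504713, nat_lit 8, nat_lit 5652504705, nat_lit 5652504705, nat_lit 5652504705,
   nat_lit 4, nat_lit 8, nat_lit 5572681829, nat_lit 5572681829, nat_lit 3263717497,
   nat_lit 5572681829, nat_lit 5572681829, nat_lit 3232260225, nat_lit 8, nat_lit 5614362717,
   nat_lit 5572812901, nat_lit 5572812901, nat_lit 3263717497, nat_lit 5572419685,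
   nat_lit 5572419685, nat_lit 3259523193, nat_lit 8, nat_lit 5614362717, nat_lit 5572812901,
   nat_lit 5572812901, nat_lit 3263848569, nat_lit 5614362717, nat_lit 5572812901,
   nat_lit 5572812901, nat_lit 3232391297, nat_lit 5572419685, nat_lit 5572419685,
   nat_lit 3231998081, nat_lit 5570453605, nat_lit 8, nat_lit 5572812901, nat_lit 5572812901,
   nat_lit 3263848569, nat_lit 5572812901, nat_lit 5572812901, nat_lit 3232391297,
   nat_lit 5577007205, nat_lit 5577007205, nat_lit 3232391297, nat_lit 8, nat_lit 5572812901,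
   nat_lit 3263848569, nat_lit 5572812901, nat_lit 3232391297, nat_lit 5577007205,
   nat_lit 3232391297, nat_lit 8, nat_lit 3263848569, nat_lit 3232391297, nat_lit 3232391297,
   nat_lit 4, nat_lit 8, nat_lit 5649892573, nat_lit 5649892561, nat_lit 5572691129,
   nat_lit 1446372729261, nat_lit 5649892573, nat_lit 5649892561, nat_lit 5570725069,
   nat_lit 1446341271985, nat_lit 8, nat_lit 5652497589, nat_lit 5649900765, nat_lit 5649900753,
   nat_lit 5572691129, nat_lit 1446374573609, nat_lit 5649876189, nat_lit 5649876177,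
   nat_lit 5572428985, nat_lit 1446368534957, nat_lit 8, nat_lit 5652497589, nat_lit 5649900765,
   nat_lit 5649900753, nat_lit 5572699321, nat_lit 1446372860333, nat_lit 5652497589,
   nat_lit 5649900765, nat_lit 5649900753, nat_lit 5570733261, nat_lit 1446341403057,
   nat_lit 5649876189, nat_lit 5649876177, nat_lit 5570708685, nat_lit 1446341009841,
   nat_lit 5649753309, nat_lit 8, nat_lit 5649900765, nat_lit 5649900753, nat_lit 5572699321,
   nat_lit 1446372860333, nat_lit 5649900765, nat_lit 5649900753, nat_lit 5570733261,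
   nat_lit 1446341403057, nat_lit 5650162909, nat_lit 5650162897, nat_lit 3362414693,
   nat_lit 1446341403057, nat_lit 8, nat_lit 5649900713, nat_lit 5572699321,
   nat_lit 1446372860309, nat_lit 5649900713, nat_lit 5570733261, nat_lit 1446341403045,
   nat_lit 5650162857, nat_lit 3362414693, nat_lit 1446341403045, nat_lit 8, nat_lit 5572691129,
   nat_lit 1426609037701, nat_lit 5570725069, nat_lit 1426105721225, nat_lit 3362414693,
   nat_lit 1426070331777, nat_lit 8, nat_lit 1446372729261, nat_lit 1446341271985,
   nat_lit 23141424980621, nat_lit 0, nat_lit 353116225, nat_lit 353132609, nat_lit 353132597,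
   nat_lit 201875501, nat_lit 90396189029, nat_lit 8, nat_lit 90398286181, nat_lit 90398286181,
   nat_lit 4, nat_lit 5649753309, nat_lit 90402611557, nat_lit 90402611549, nat_lit 51680797013,
   nat_lit 1446339061233, nat_lit 0, nat_lit 353116225, nat_lit 353132609, nat_lit 353132597,
   nat_lit 201875501, nat_lit 90396189029, nat_lit 8, nat_lit 693166117, nat_lit 378560553,
   nat_lit 683712549, nat_lit 4, nat_lit 379854889, nat_lit 379871273, nat_lit 379871273,
   nat_lit 245653545, nat_lit 708878373, nat_lit 0, nat_lit 4, nat_lit 4, nat_lit 8,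
   nat_lit 5649876189, nat_lit 5649876177, nat_lit 5572428985, nat_lit 8, nat_lit 11090535529,
   nat_lit 6056723657, nat_lit 6052529349, nat_lit 6042191033, nat_lit 5649876189,
   nat_lit 5649876177, nat_lit 5570708685, nat_lit 8, nat_lit 11090535529, nat_lit 6056723657,
   nat_lit 6052529349, nat_lit 6040470733, nat_lit 4, nat_lit 5652219061, nat_lit 5649883357,
   nat_lit 5649883345, nat_lit 5572428985, nat_lit 1446370117161, nat_lit 5649859805,
   nat_lit 5649859793, nat_lit 5572166841, nat_lit 4, nat_lit 1446370117165, nat_lit 4,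
   nat_lit 8, nat_lit 5652219061, nat_lit 5649883357, nat_lit 5649883345, nat_lit 5572436153,
   nat_lit 8, nat_lit 11090535529, nat_lit 6056730825, nat_lit 6052536517, nat_lit 6042198201,
   nat_lit 5652219061, nat_lit 5649883357, nat_lit 5649883345, nat_lit 5570715853, nat_lit 8,
   nat_lit 11090535529, nat_lit 6056730825, nat_lit 6052536517, nat_lit 6040477901,
   nat_lit 5649859805, nat_lit 5649859793, nat_lit 5570692301, nat_lit 8, nat_lit 11090534505,
   nat_lit 6056707273, nat_lit 6052512965, nat_lit 6040454349, nat_lit 5649752285, nat_lit 4,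
   nat_lit 8, nat_lit 5649883357, nat_lit 5649883345, nat_lit 5572436153, nat_lit 8,
   nat_lit 11090535529, nat_lit 6056730825, nat_lit 6052536517, nat_lit 6042198201,
   nat_lit 5649883357, nat_lit 5649883345, nat_lit 5570715853, nat_lit 8, nat_lit 11090535529,
   nat_lit 6056730825, nat_lit 6052536517, nat_lit 6040477901, nat_lit 5650145501,
   nat_lit 5650145489, nat_lit 5570715853, nat_lit 8, nat_lit 11090551913, nat_lit 6056992969,
   nat_lit 6052798661, nat_lit 6040477901, nat_lit 4, nat_lit 8, nat_lit 5649883305,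
   nat_lit 5572436153, nat_lit 8, nat_lit 11018592413, nat_lit 6058975417, nat_lit 6052536517,
   nat_lit 6042198201, nat_lit 5649883305, nat_lit 5570715853, nat_lit 8, nat_lit 11018592413,
   nat_lit 6057255117, nat_lit 6052536517, nat_lit 6040477901, nat_lit 5650145449,
   nat_lit 5570715853, nat_lit 8, nat_lit 11018854557, nat_lit 6057255117, nat_lit 6052798661,
   nat_lit 6040477901, nat_lit 4, nat_lit 8, nat_lit 5572428985, nat_lit 8, nat_lit 11085701277,
   nat_lit 6056730741, nat_lit 6052529349, nat_lit 3894714553, nat_lit 5570708685, nat_lit 8,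
   nat_lit 11085701277, nat_lit 6056730741, nat_lit 6052529349, nat_lit 3892994253,
   nat_lit 3230032037, nat_lit 8, nat_lit 11085963421, nat_lit 6056992885, nat_lit 10947551441,
   nat_lit 3892994253, nat_lit 8, nat_lit 11090550889, nat_lit 4, nat_lit 6056730741,
   nat_lit 6056730741, nat_lit 6056992885, nat_lit 4, nat_lit 6052529349, nat_lit 6052529349,
   nat_lit 10947551401, nat_lit 4, nat_lit 6042191033, nat_lit 6040470733, nat_lit 10746224805,
   nat_lit 4, nat_lit 8, nat_lit 5652365406, nat_lit 8, nat_lit 12, nat_lit 5649908957,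
   nat_lit 5649908945, nat_lit 5572953273, nat_lit 0, nat_lit 1446376923565, nat_lit 5649892573,
   nat_lit 5649892561, nat_lit 5572691129, nat_lit 12, nat_lit 5649908957, nat_lit 4499342521,
   nat_lit 5573084345, nat_lit 0, nat_lit 1446379020717, nat_lit 5652365406, nat_lit 5649892573,
   nat_lit 5649892561, nat_lit 5570725069, nat_lit 12, nat_lit 5649908957, nat_lit 4499342521,
   nat_lit 5573084345, nat_lit 0, nat_lit 1446379020717, nat_lit 5649908957, nat_lit 4499342521,
   nat_lit 5573084345, nat_lit 0, nat_lit 1446379020717, nat_lit 5652365406, nat_lit 8,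
   nat_lit 5652497589, nat_lit 5649900765, nat_lit 5649900753, nat_lit 5572691129,
   nat_lit 1446374573609, nat_lit 5652365406, nat_lit 5649876189, nat_lit 5649876177,
   nat_lit 5572428985, nat_lit 8, nat_lit 1446374573613, nat_lit 5652365406, nat_lit 8,
   nat_lit 12, nat_lit 5652759733, nat_lit 5649917149, nat_lit 5649917137, nat_lit 5572961465,
   nat_lit 0, nat_lit 1446377054637, nat_lit 1446377054637, nat_lit 5652497589,
   nat_lit 5649900765, nat_lit 5649900753, nat_lit 5572699321, nat_lit 12, nat_lit 5652759733,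
   nat_lit 5649917149, nat_lit 4499350713, nat_lit 5573092537, nat_lit 0, nat_lit 1446379151789,
   nat_lit 1446379151789, nat_lit 5652365406, nat_lit 5652497589, nat_lit 5649900765,
   nat_lit 5649900753, nat_lit 5570733261, nat_lit 12, nat_lit 5652759733, nat_lit 5649917149,
   nat_lit 4499350713, nat_lit 5573092537, nat_lit 0, nat_lit 1446379151789,
   nat_lit 1446379151789, nat_lit 5652759733, nat_lit 5649917149, nat_lit 4499350713,
   nat_lit 5573092537, nat_lit 0, nat_lit 2930115797, nat_lit 1446379151789, nat_lit 5652365406,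
   nat_lit 5649876189, nat_lit 5649876177, nat_lit 5570708685, nat_lit 0, nat_lit 12,
   nat_lit 1446378866221, nat_lit 1446378866221, nat_lit 1446341117485, nat_lit 1446341009841,
   nat_lit 8, nat_lit 1446374564273, nat_lit 1446374564273, nat_lit 5649753309, nat_lit 8,
   nat_lit 12, nat_lit 5649917149, nat_lit 5649917137, nat_lit 5572961465, nat_lit 0,
   nat_lit 1446377054637, nat_lit 5649900765, nat_lit 5649900753, nat_lit 5572699321, nat_lit 12,
   nat_lit 5649917149, nat_lit 4499350713, nat_lit 5573092537, nat_lit 0, nat_lit 1446379151789,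
   nat_lit 5652496478, nat_lit 5649900765, nat_lit 5649900753, nat_lit 5570733261, nat_lit 12,
   nat_lit 5649917149, nat_lit 4499350713, nat_lit 5573092537, nat_lit 0, nat_lit 1446379151789,
   nat_lit 5649917149, nat_lit 4499350713, nat_lit 5573092537, nat_lit 0, nat_lit 1446379151789,
   nat_lit 5652496478, nat_lit 5650162909, nat_lit 5650162897, nat_lit 5570733261, nat_lit 12,
   nat_lit 5649917149, nat_lit 4499350713, nat_lit 5573092537, nat_lit 1446376810025,
   nat_lit 5549499593, nat_lit 5549499593, nat_lit 5549499589, nat_lit 5549499589,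
   nat_lit 5650179293, nat_lit 4503545017, nat_lit 5577286841, nat_lit 0, nat_lit 2263507069,
   nat_lit 1446339061289, nat_lit 0, nat_lit 12, nat_lit 5652766849, nat_lit 5652766849,
   nat_lit 5652766849, nat_lit 12, nat_lit 5573075045, nat_lit 3268042873, nat_lit 5573075045,
   nat_lit 3232653441, nat_lit 5577269349, nat_lit 3232653441, nat_lit 12, nat_lit 5649917097,
   nat_lit 5572961465, nat_lit 1446377054613, nat_lit 5649917097, nat_lit 5570749645,
   nat_lit 1446341665189, nat_lit 5650179241, nat_lit 3362676837, nat_lit 1446341665189,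
   nat_lit 8, nat_lit 1446372860325, nat_lit 1446341403029, nat_lit 71949526301, nat_lit 0,
   nat_lit 12, nat_lit 3268042873, nat_lit 3232653441, nat_lit 3232653441, nat_lit 12,
   nat_lit 5572953273, nat_lit 1426676146565, nat_lit 5570741453, nat_lit 1426109915529,
   nat_lit 3362676837, nat_lit 1426070593921, nat_lit 8, nat_lit 1426609037705,
   nat_lit 1426105721221, nat_lit 89129395485, nat_lit 0, nat_lit 12, nat_lit 1446376923565,
   nat_lit 1446341534129, nat_lit 23141425242765, nat_lit 8, nat_lit 1446372729265,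
   nat_lit 1446341271981, nat_lit 1446339061233, nat_lit 4, nat_lit 8, nat_lit 5652365406,
   nat_lit 8, nat_lit 12, nat_lit 5652627550, nat_lit 5649892573, nat_lit 5649892561,
   nat_lit 5572691129, nat_lit 12, nat_lit 1446379030061, nat_lit 5652627550, nat_lit 5652365406,
   nat_lit 5649892573, nat_lit 5649892561, nat_lit 5570725069, nat_lit 0, nat_lit 1446341271985,
   nat_lit 12, nat_lit 1446379020721, nat_lit 1446379020721, nat_lit 5652365406, nat_lit 8,
   nat_lit 5652497589, nat_lit 5649900765, nat_lit 5649900753, nat_lit 5572691129,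
   nat_lit 1446374573609, nat_lit 5652365406, nat_lit 5649876189, nat_lit 5649876177,
   nat_lit 5572428985, nat_lit 8, nat_lit 1446374573613, nat_lit 5652365406, nat_lit 8,
   nat_lit 12, nat_lit 5652627550, nat_lit 5652497589, nat_lit 5649900765, nat_lit 5649900753,
   nat_lit 5572699321, nat_lit 12, nat_lit 1446379038253, nat_lit 5652627550, nat_lit 5652365406,
   nat_lit 5652497589, nat_lit 5649900765, nat_lit 5649900753, nat_lit 5570733261, nat_lit 0,
   nat_lit 5547361477, nat_lit 1446374671913, nat_lit 1446341403057, nat_lit 12,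
   nat_lit 1446379151793, nat_lit 1446379151793, nat_lit 5652365406, nat_lit 5649876189,
   nat_lit 5649876177, nat_lit 5570708685, nat_lit 0, nat_lit 8, nat_lit 1446374671917,
   nat_lit 1446374671917, nat_lit 1446341117485, nat_lit 1446341009841, nat_lit 12,
   nat_lit 1446378758577, nat_lit 1446378758577, nat_lit 5649753309, nat_lit 8, nat_lit 12,
   nat_lit 5652758622, nat_lit 5649900765, nat_lit 5649900753, nat_lit 5572699321, nat_lit 12,
   nat_lit 1446379038253, nat_lit 5652758622, nat_lit 5652496478, nat_lit 5649900765,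
   nat_lit 5649900753, nat_lit 5570733261, nat_lit 0, nat_lit 1446341403057, nat_lit 12,
   nat_lit 1446379151793, nat_lit 1446379151793, nat_lit 5652496478, nat_lit 5650162909,
   nat_lit 5650162897, nat_lit 5570733261, nat_lit 0, nat_lit 1446341403057, nat_lit 12,
   nat_lit 1446379151793, nat_lit 2892652645, nat_lit 4436436173, nat_lit 1446339061289,
   nat_lit 0, nat_lit 8, nat_lit 5652504705, nat_lit 5652504705, nat_lit 5652504705, nat_lit 8,
   nat_lit 5572812901, nat_lit 3263848569, nat_lit 5572812901, nat_lit 3232391297,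
   nat_lit 5577007205, nat_lit 3232391297, nat_lit 8, nat_lit 5649900713, nat_lit 5572699321,
   nat_lit 1446372860309, nat_lit 5649900713, nat_lit 5570733261, nat_lit 1446341403045,
   nat_lit 5650162857, nat_lit 3362414693, nat_lit 1446341403045, nat_lit 12,
   nat_lit 1446377054629, nat_lit 1446341665173, nat_lit 71949542685, nat_lit 0, nat_lit 8,
   nat_lit 3263848569, nat_lit 3232391297, nat_lit 3232391297, nat_lit 8, nat_lit 5572691129,
   nat_lit 1426609037701, nat_lit 5570725069, nat_lit 1426105721225, nat_lit 3362414693,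
   nat_lit 1426070331777, nat_lit 12, nat_lit 1426676146569, nat_lit 1426109915525,
   nat_lit 89129411869, nat_lit 0, nat_lit 8, nat_lit 1446372729261, nat_lit 1446341271985,
   nat_lit 23141424980621, nat_lit 12, nat_lit 1446376923569, nat_lit 1446341534125,
   nat_lit 1446339077617, nat_lit 8, nat_lit 12, nat_lit 5652627550, nat_lit 12, nat_lit 4,
   nat_lit 0, nat_lit 1446339043881, nat_lit 71949508893, nat_lit 89129378077,
   nat_lit 1446339043825, nat_lit 5649908957, nat_lit 5649908945, nat_lit 5572953273, nat_lit 4,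
   nat_lit 1446376924589, nat_lit 0, nat_lit 1446376792617, nat_lit 71987257629,
   nat_lit 89167126813, nat_lit 1446376792561, nat_lit 5652627550, nat_lit 5649908957,
   nat_lit 5649908945, nat_lit 5570741453, nat_lit 4, nat_lit 1446341535153, nat_lit 0,
   nat_lit 1446341665325, nat_lit 71949508893, nat_lit 89167126813, nat_lit 1446376792561,
   nat_lit 5652627550, nat_lit 12, nat_lit 5652776117, nat_lit 5649918173, nat_lit 5649918161,
   nat_lit 5572953273, nat_lit 1446379030057, nat_lit 5652627550, nat_lit 5649892573,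
   nat_lit 5649892561, nat_lit 5572691129, nat_lit 12, nat_lit 1446379030061, nat_lit 5652627550,
   nat_lit 12, nat_lit 4, nat_lit 1446341396009, nat_lit 0, nat_lit 5652373725,
   nat_lit 1446341403177, nat_lit 71951868189, nat_lit 89131737373, nat_lit 1446341403121,
   nat_lit 5652776117, nat_lit 5649918173, nat_lit 5649918161, nat_lit 5572962489, nat_lit 4,
   nat_lit 1446377072045, nat_lit 1446379144745, nat_lit 1446377072045, nat_lit 0,
   nat_lit 5685928157, nat_lit 1446379151913, nat_lit 71989616925, nat_lit 89169486109,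
   nat_lit 1446379151857, nat_lit 5652627550, nat_lit 5652776117, nat_lit 5649918173,
   nat_lit 5649918161, nat_lit 5570750669, nat_lit 4, nat_lit 5551834309, nat_lit 1446379144745,
   nat_lit 1446341682609, nat_lit 0, nat_lit 5685928157, nat_lit 1446379151913,
   nat_lit 71989616925, nat_lit 89169486109, nat_lit 1446379151857, nat_lit 5652627550,
   nat_lit 5649892573, nat_lit 5649892561, nat_lit 5570725069, nat_lit 0, nat_lit 4, nat_lit 12,
   nat_lit 1446379144749, nat_lit 1446379144749, nat_lit 1446341396013, nat_lit 1446341379629,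
   nat_lit 1446341271985, nat_lit 12, nat_lit 1446379020721, nat_lit 1446379020721,
   nat_lit 5649754333, nat_lit 12, nat_lit 4, nat_lit 0, nat_lit 1446341403177,
   nat_lit 71951868189, nat_lit 89131737373, nat_lit 1446341403121, nat_lit 5649918173,
   nat_lit 5649918161, nat_lit 5572962489, nat_lit 4, nat_lit 1446377072045, nat_lit 0,
   nat_lit 1446379151913, nat_lit 71989616925, nat_lit 89169486109, nat_lit 1446379151857,
   nat_lit 5652775006, nat_lit 5649918173, nat_lit 5649918161, nat_lit 5570750669, nat_lit 4,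
   nat_lit 1446341682609, nat_lit 0, nat_lit 1446379151913, nat_lit 71989616925,
   nat_lit 89169486109, nat_lit 1446379151857, nat_lit 5652775006, nat_lit 5650180317,
   nat_lit 5650180305, nat_lit 5570750669, nat_lit 4, nat_lit 1446341682609, nat_lit 0,
   nat_lit 5510160569, nat_lit 3362676921, nat_lit 3362676921, nat_lit 53803114785,
   nat_lit 1446339078697, nat_lit 0, nat_lit 4, nat_lit 5652504741, nat_lit 3232391333,
   nat_lit 12, nat_lit 5649918121, nat_lit 5573075129, nat_lit 71987257629, nat_lit 5551841481,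
   nat_lit 5551841477, nat_lit 5551841477, nat_lit 5551841481, nat_lit 5551841477,
   nat_lit 5551841477, nat_lit 71949508893, nat_lit 4, nat_lit 3232391333, nat_lit 12,
   nat_lit 4499211449, nat_lit 89169486109, nat_lit 3404357833, nat_lit 3404357829,
   nat_lit 3404357833, nat_lit 3404357829, nat_lit 89131737373, nat_lit 4, nat_lit 12,
   nat_lit 1446379151849, nat_lit 1446379151849, nat_lit 2263507097, nat_lit 1446341403113,
   nat_lit 12, nat_lit 1446377071013, nat_lit 1446341681557, nat_lit 71949543709, nat_lit 0,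
   nat_lit 4, nat_lit 3232391333, nat_lit 12, nat_lit 4499211449, nat_lit 89167126813,
   nat_lit 3404357833, nat_lit 3404357829, nat_lit 3404357833, nat_lit 3404357829,
   nat_lit 89129378077, nat_lit 4, nat_lit 12, nat_lit 1426674311645, nat_lit 1426674311645,
   nat_lit 2263507097, nat_lit 1426070331869, nat_lit 12, nat_lit 1426676162953,
   nat_lit 1426109931909, nat_lit 89129412893, nat_lit 0, nat_lit 4, nat_lit 12,
   nat_lit 1446376792561, nat_lit 1446376792561, nat_lit 2263507097, nat_lit 1446339043825,
   nat_lit 12, nat_lit 1446376923569, nat_lit 1446341534125, nat_lit 1446339078641, nat_lit 0,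
   nat_lit 4, nat_lit 5652103262, nat_lit 8, nat_lit 12, nat_lit 4, nat_lit 12503368873,
   nat_lit 12503368873, nat_lit 4, nat_lit 12503368873, nat_lit 12504278153, nat_lit 12503368873,
   nat_lit 12504278153, nat_lit 4, nat_lit 12503368877, nat_lit 12504278157, nat_lit 12504417469,
   nat_lit 12503368877, nat_lit 12504278157, nat_lit 12504417469, nat_lit 12504319165,
   nat_lit 12504319165, nat_lit 4, nat_lit 12, nat_lit 12189436009, nat_lit 6149948609,
   nat_lit 6056723629, nat_lit 6056723613, nat_lit 5572428985, nat_lit 12, nat_lit 12189443177,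
   nat_lit 12189443177, nat_lit 6150046913, nat_lit 6150046913, nat_lit 6054756434,
   nat_lit 6056723629, nat_lit 6056723613, nat_lit 5570708685, nat_lit 12, nat_lit 12189443177,
   nat_lit 12189475953, nat_lit 6150046913, nat_lit 6150046913, nat_lit 6054756434, nat_lit 4,
   nat_lit 12, nat_lit 12189436009, nat_lit 6126355657, nat_lit 5685904565, nat_lit 6052529321,
   nat_lit 6052529321, nat_lit 5572428985, nat_lit 12, nat_lit 12189443177, nat_lit 12189443177,
   nat_lit 6126453961, nat_lit 6126453961, nat_lit 6151242937, nat_lit 6148998305,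
   nat_lit 4981014610, nat_lit 6052529321, nat_lit 6052529321, nat_lit 5570708685, nat_lit 12,
   nat_lit 12189443177, nat_lit 12189475953, nat_lit 6126453961, nat_lit 6126347381,
   nat_lit 6149522637, nat_lit 6148891765, nat_lit 4981014610, nat_lit 5652350133, nat_lit 4,
   nat_lit 5652219061, nat_lit 5649883357, nat_lit 5649883345, nat_lit 5572428985,
   nat_lit 1446370117161, nat_lit 5652103262, nat_lit 5649859805, nat_lit 5649859793,
   nat_lit 5572166841, nat_lit 4, nat_lit 1446370117165, nat_lit 5652103262, nat_lit 5651841118,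
   nat_lit 8, nat_lit 4, nat_lit 12, nat_lit 12504326333, nat_lit 5652219061, nat_lit 5649883357,
   nat_lit 5649883345, nat_lit 5572436153, nat_lit 12, nat_lit 12504424637, nat_lit 12504424637,
   nat_lit 5652103262, nat_lit 5652219061, nat_lit 5649883357, nat_lit 5649883345,
   nat_lit 5570715853, nat_lit 12, nat_lit 12504424637, nat_lit 12504424637, nat_lit 5652103262,
   nat_lit 4, nat_lit 12, nat_lit 12499067037, nat_lit 6149955777, nat_lit 6059066501,
   nat_lit 6056730797, nat_lit 6056730781, nat_lit 5572436153, nat_lit 12, nat_lit 12499181725,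
   nat_lit 12499181725, nat_lit 6150054081, nat_lit 6150054081, nat_lit 6054756434,
   nat_lit 6059066501, nat_lit 6056730797, nat_lit 6056730781, nat_lit 5570715853, nat_lit 12,
   nat_lit 12499181725, nat_lit 12164270185, nat_lit 6150054081, nat_lit 6150054081,
   nat_lit 6054756434, nat_lit 4, nat_lit 12, nat_lit 12494872733, nat_lit 6126362825,
   nat_lit 5685911733, nat_lit 6054872193, nat_lit 6052536489, nat_lit 6052536489,
   nat_lit 5572436153, nat_lit 12, nat_lit 12494987421, nat_lit 12494987421, nat_lit 6126461129,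
   nat_lit 6126461129, nat_lit 6151250105, nat_lit 6149005473, nat_lit 4981014610,
   nat_lit 6054872193, nat_lit 6052536489, nat_lit 6052536489, nat_lit 5570715853, nat_lit 12,
   nat_lit 12494987421, nat_lit 12189475953, nat_lit 6126461129, nat_lit 6126461129,
   nat_lit 6149529805, nat_lit 6149005473, nat_lit 4981014610, nat_lit 5652357301,
   nat_lit 5649859805, nat_lit 5649859793, nat_lit 5570692301, nat_lit 12, nat_lit 12164276329,
   nat_lit 12164309105, nat_lit 6123816137, nat_lit 6123724917, nat_lit 6119621829,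
   nat_lit 6119621829, nat_lit 6107563213, nat_lit 8, nat_lit 6148890741, nat_lit 6148890741,
   nat_lit 6148890741, nat_lit 4001407093, nat_lit 6148981957, nat_lit 5651841118,
   nat_lit 5649752285, nat_lit 4, nat_lit 12, nat_lit 12164270185, nat_lit 6123725001,
   nat_lit 6119530693, nat_lit 8, nat_lit 5685911733, nat_lit 5685928117, nat_lit 5649883357,
   nat_lit 5649883345, nat_lit 5572436153, nat_lit 12, nat_lit 12164277353, nat_lit 12164277353,
   nat_lit 6123839689, nat_lit 6123839689, nat_lit 6119645381, nat_lit 6119645381,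
   nat_lit 6109307065, nat_lit 8, nat_lit 6149005473, nat_lit 6151233713, nat_lit 5652217950,
   nat_lit 5649883357, nat_lit 5649883345, nat_lit 5570715853, nat_lit 12, nat_lit 12164277353,
   nat_lit 12164310129, nat_lit 6123839689, nat_lit 6123839689, nat_lit 6119645381,
   nat_lit 6119645381, nat_lit 6107586765, nat_lit 8, nat_lit 6149005473, nat_lit 6151233713,
   nat_lit 5652217950, nat_lit 5650145501, nat_lit 5650145489, nat_lit 5570715853, nat_lit 12,
   nat_lit 12164293737, nat_lit 12164310129, nat_lit 6124101833, nat_lit 6124101833,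
   nat_lit 6119907525, nat_lit 6119907525, nat_lit 6107586765, nat_lit 8, nat_lit 6149005473,
   nat_lit 6149267617, nat_lit 1446339043881, nat_lit 4, nat_lit 12, nat_lit 12092219549,
   nat_lit 6124495025, nat_lit 6119530693, nat_lit 8, nat_lit 5685911697, nat_lit 5685928081,
   nat_lit 5685928073, nat_lit 5649883305, nat_lit 5572436153, nat_lit 12, nat_lit 12092334237,
   nat_lit 12092334237, nat_lit 6126084281, nat_lit 6126067889, nat_lit 6119645381,
   nat_lit 6119645381, nat_lit 6109307065, nat_lit 8, nat_lit 6149005473, nat_lit 6151233713,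
   nat_lit 6151233713, nat_lit 4534435918, nat_lit 5649883305, nat_lit 5570715853, nat_lit 12,
   nat_lit 12092334237, nat_lit 12164310129, nat_lit 6124363981, nat_lit 6126067889,
   nat_lit 6119645381, nat_lit 6119645381, nat_lit 6107586765, nat_lit 8, nat_lit 6149005473,
   nat_lit 6151233713, nat_lit 6151233713, nat_lit 4534435918, nat_lit 5650145449,
   nat_lit 5570715853, nat_lit 12, nat_lit 12092596381, nat_lit 12164310129, nat_lit 6124363981,
   nat_lit 6124101793, nat_lit 6119907525, nat_lit 6119907525, nat_lit 6107586765, nat_lit 8,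
   nat_lit 6149005473, nat_lit 6149267617, nat_lit 6149267617, nat_lit 71949508893, nat_lit 4,
   nat_lit 12, nat_lit 12159328413, nat_lit 6123724917, nat_lit 6119523525, nat_lit 8,
   nat_lit 6148890741, nat_lit 4001915057, nat_lit 4001915057, nat_lit 4001915057,
   nat_lit 5572428985, nat_lit 12, nat_lit 12159443101, nat_lit 12159443101, nat_lit 6123839605,
   nat_lit 6123839605, nat_lit 6119638213, nat_lit 6119638213, nat_lit 3961823417, nat_lit 8,
   nat_lit 6149005429, nat_lit 4003750065, nat_lit 4003750065, nat_lit 4003750065,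
   nat_lit 4534435918, nat_lit 5570708685, nat_lit 12, nat_lit 12159443101, nat_lit 12164310129,
   nat_lit 6123839605, nat_lit 6119523525, nat_lit 6119638213, nat_lit 6119638213,
   nat_lit 3960103117, nat_lit 8, nat_lit 6149005429, nat_lit 4003750065, nat_lit 4003750065,
   nat_lit 4003750065, nat_lit 4534435918, nat_lit 3230032037, nat_lit 12, nat_lit 12159705245,
   nat_lit 12164310129, nat_lit 6124101749, nat_lit 6124101749, nat_lit 12021293265,
   nat_lit 12021293269, nat_lit 3960103117, nat_lit 8, nat_lit 6149005429, nat_lit 6149267573,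
   nat_lit 6149267573, nat_lit 4001783969, nat_lit 89129378077, nat_lit 4, nat_lit 12,
   nat_lit 12164309105, nat_lit 6123724917, nat_lit 6119523525, nat_lit 8, nat_lit 6148890741,
   nat_lit 6148890741, nat_lit 6148890741, nat_lit 4001407093, nat_lit 6148883653, nat_lit 12,
   nat_lit 12164423793, nat_lit 12164423793, nat_lit 6123839605, nat_lit 6123839605,
   nat_lit 6119638213, nat_lit 6119638213, nat_lit 6109299897, nat_lit 8, nat_lit 6149005429,
   nat_lit 6149005429, nat_lit 6149005429, nat_lit 4001521781, nat_lit 6148998341,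
   nat_lit 5652103262, nat_lit 12, nat_lit 12164423793, nat_lit 12164423793, nat_lit 6123839605,
   nat_lit 6123839605, nat_lit 6119638213, nat_lit 6119638213, nat_lit 6107579597, nat_lit 8,
   nat_lit 6149005429, nat_lit 6149005429, nat_lit 6149005429, nat_lit 4001521781,
   nat_lit 6148998341, nat_lit 5652103262, nat_lit 12, nat_lit 12164423793, nat_lit 12164423793,
   nat_lit 6124101749, nat_lit 6124101749, nat_lit 12021293225, nat_lit 12021293229,
   nat_lit 11819966629, nat_lit 8, nat_lit 6149005429, nat_lit 6149267573, nat_lit 6149267573,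
   nat_lit 4001783925, nat_lit 12491055277, nat_lit 1446339043825, nat_lit 4,
   nat_lit 1446368534961, nat_lit 1446341009837, nat_lit 12, nat_lit 12164423793,
   nat_lit 6124101749, nat_lit 12013166705, nat_lit 8, nat_lit 6149005429, nat_lit 6149267573,
   nat_lit 6149267573, nat_lit 4001783925, nat_lit 12482928753, nat_lit 0, nat_lit 4,
   nat_lit 5652103262, nat_lit 4, nat_lit 8, nat_lit 5649892573, nat_lit 5649892561,
   nat_lit 5572691129, nat_lit 12, nat_lit 1446379030061, nat_lit 5649876189, nat_lit 5649876177,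
   nat_lit 5572428985, nat_lit 8, nat_lit 5649892573, nat_lit 4499063993, nat_lit 5572805817,
   nat_lit 12, nat_lit 1446379144749, nat_lit 5652103262, nat_lit 5649876189, nat_lit 5649876177,
   nat_lit 5570708685, nat_lit 8, nat_lit 5649892573, nat_lit 4499063993, nat_lit 5572805817,
   nat_lit 12, nat_lit 1446379144749, nat_lit 5649892573, nat_lit 4499063993, nat_lit 5572805817,
   nat_lit 12, nat_lit 1446379144749, nat_lit 1446379144749, nat_lit 5652103262, nat_lit 4,
   nat_lit 5652219061, nat_lit 5649883357, nat_lit 5649883345, nat_lit 5572428985,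
   nat_lit 1446370117161, nat_lit 5652103262, nat_lit 5649859805, nat_lit 5649859793,
   nat_lit 5572166841, nat_lit 4, nat_lit 1446370117165, nat_lit 5652103262, nat_lit 4,
   nat_lit 8, nat_lit 5652481205, nat_lit 5649899741, nat_lit 5649899729, nat_lit 5572698297,
   nat_lit 12, nat_lit 1446379037229, nat_lit 5652219061, nat_lit 5649883357, nat_lit 5649883345,
   nat_lit 5572436153, nat_lit 8, nat_lit 5652481205, nat_lit 5649899741, nat_lit 4499071161,
   nat_lit 5572812985, nat_lit 12, nat_lit 1446379151917, nat_lit 5652103262, nat_lit 5652219061,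
   nat_lit 5649883357, nat_lit 5649883345, nat_lit 5570715853, nat_lit 8, nat_lit 5652481205,
   nat_lit 5649899741, nat_lit 4499071161, nat_lit 5572812985, nat_lit 12, nat_lit 1446379151917,
   nat_lit 5652481205, nat_lit 5649899741, nat_lit 4499071161, nat_lit 5572812985, nat_lit 12,
   nat_lit 1446379151917, nat_lit 1446379151917, nat_lit 5652103262, nat_lit 5649859805,
   nat_lit 5649859793, nat_lit 5570692301, nat_lit 4, nat_lit 8, nat_lit 12,
   nat_lit 1446379030061, nat_lit 8, nat_lit 12, nat_lit 1446379144749, nat_lit 5652103262,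
   nat_lit 8, nat_lit 12, nat_lit 1446379144749, nat_lit 12, nat_lit 1446379144749,
   nat_lit 1446379144749, nat_lit 5652103262, nat_lit 5649752285, nat_lit 4, nat_lit 8,
   nat_lit 5649899741, nat_lit 5649899729, nat_lit 5572698297, nat_lit 12, nat_lit 1446379037229,
   nat_lit 5649883357, nat_lit 5649883345, nat_lit 5572436153, nat_lit 8, nat_lit 5649899741,
   nat_lit 4499071161, nat_lit 5572812985, nat_lit 12, nat_lit 1446379151917, nat_lit 5652217950,
   nat_lit 5649883357, nat_lit 5649883345, nat_lit 5570715853, nat_lit 8, nat_lit 5649899741,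
   nat_lit 4499071161, nat_lit 5572812985, nat_lit 12, nat_lit 1446379151917, nat_lit 5649899741,
   nat_lit 4499071161, nat_lit 5572812985, nat_lit 12, nat_lit 1446379151917,
   nat_lit 1446379151917, nat_lit 5652217950, nat_lit 5650145501, nat_lit 5650145489,
   nat_lit 5570715853, nat_lit 8, nat_lit 5649899741, nat_lit 4499071161, nat_lit 5572812985,
   nat_lit 1446372598313, nat_lit 5545287881, nat_lit 5545287881, nat_lit 5545287877,
   nat_lit 5545287877, nat_lit 5650161885, nat_lit 4503265465, nat_lit 5577007289, nat_lit 12,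
   nat_lit 6113878201, nat_lit 6113878201, nat_lit 2263507133, nat_lit 1446339043881, nat_lit 4,
   nat_lit 8, nat_lit 5649899689, nat_lit 5572698297, nat_lit 12, nat_lit 1446379037217,
   nat_lit 5649883305, nat_lit 5572436153, nat_lit 8, nat_lit 5649899689, nat_lit 5572812985,
   nat_lit 12, nat_lit 1446379151905, nat_lit 4534435918, nat_lit 5649883305, nat_lit 5570715853,
   nat_lit 8, nat_lit 5649899689, nat_lit 5572812985, nat_lit 12, nat_lit 1446379151905,
   nat_lit 5649899689, nat_lit 5572812985, nat_lit 12, nat_lit 1446379151905,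
   nat_lit 1446379151905, nat_lit 4534435918, nat_lit 5650145449, nat_lit 5570715853, nat_lit 8,
   nat_lit 5649899689, nat_lit 5572812985, nat_lit 71983063325, nat_lit 5545287881,
   nat_lit 5545287877, nat_lit 5545287877, nat_lit 5650161833, nat_lit 5577007289, nat_lit 12,
   nat_lit 6113878201, nat_lit 6113878201, nat_lit 2263507133, nat_lit 71949508893, nat_lit 4,
   nat_lit 8, nat_lit 5572691129, nat_lit 12, nat_lit 1426709832213, nat_lit 5572428985,
   nat_lit 8, nat_lit 5572805817, nat_lit 12, nat_lit 1426711667221, nat_lit 4534435918,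
   nat_lit 5570708685, nat_lit 8, nat_lit 5572805817, nat_lit 12, nat_lit 1426711667221,
   nat_lit 5572805817, nat_lit 12, nat_lit 1426711667221, nat_lit 1426711667221,
   nat_lit 4534435918, nat_lit 3230032037, nat_lit 8, nat_lit 4498949305, nat_lit 89162932509,
   nat_lit 3397804233, nat_lit 3397804229, nat_lit 3362414785, nat_lit 12, nat_lit 3966394553,
   nat_lit 3966394553, nat_lit 2263507133, nat_lit 89129378077, nat_lit 4, nat_lit 8, nat_lit 12,
   nat_lit 1446379030061, nat_lit 8, nat_lit 12, nat_lit 1446379144749, nat_lit 5652103262,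
   nat_lit 8, nat_lit 12, nat_lit 1446379144749, nat_lit 12, nat_lit 1446379144749,
   nat_lit 1446379144749, nat_lit 5652103262, nat_lit 8, nat_lit 1446372598257,
   nat_lit 1446372598257, nat_lit 12, nat_lit 11952349377, nat_lit 1446376792561,
   nat_lit 2263507133, nat_lit 1446339043825, nat_lit 0, nat_lit 4, nat_lit 5652103262,
   nat_lit 4, nat_lit 8, nat_lit 5649892573, nat_lit 5649892561, nat_lit 5572691129, nat_lit 12,
   nat_lit 12164278377, nat_lit 6123848905, nat_lit 6119654597, nat_lit 6109562041,
   nat_lit 5649876189, nat_lit 5649876177, nat_lit 5572428985, nat_lit 8, nat_lit 5649892573,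
   nat_lit 4499063993, nat_lit 5572805817, nat_lit 12, nat_lit 12164278377, nat_lit 6109676729,
   nat_lit 6109676729, nat_lit 6109676729, nat_lit 5652103262, nat_lit 5649876189,
   nat_lit 5649876177, nat_lit 5570708685, nat_lit 8, nat_lit 5649892573, nat_lit 4499063993,
   nat_lit 5572805817, nat_lit 12, nat_lit 12164278377, nat_lit 6109676729, nat_lit 6109676729,
   nat_lit 6109676729, nat_lit 5649892573, nat_lit 4499063993, nat_lit 5572805817, nat_lit 12,
   nat_lit 12164278377, nat_lit 6109676729, nat_lit 6109676729, nat_lit 6109676729,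
   nat_lit 5652103262, nat_lit 4, nat_lit 5652219061, nat_lit 5649883357, nat_lit 5649883345,
   nat_lit 5572428985, nat_lit 1446370117161, nat_lit 5652103262, nat_lit 5649859805,
   nat_lit 5649859793, nat_lit 5572166841, nat_lit 4, nat_lit 1446370117165, nat_lit 5652103262,
   nat_lit 4, nat_lit 8, nat_lit 5652481205, nat_lit 5649899741, nat_lit 5649899729,
   nat_lit 5572698297, nat_lit 12, nat_lit 12164278377, nat_lit 6123856073, nat_lit 6119661765,
   nat_lit 6109569209, nat_lit 5652219061, nat_lit 5649883357, nat_lit 5649883345,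
   nat_lit 5572436153, nat_lit 8, nat_lit 5652481205, nat_lit 5649899741, nat_lit 4499071161,
   nat_lit 5572812985, nat_lit 12, nat_lit 12164278377, nat_lit 6109683897, nat_lit 6109683897,
   nat_lit 6109683897, nat_lit 5652103262, nat_lit 5652219061, nat_lit 5649883357,
   nat_lit 5649883345, nat_lit 5570715853, nat_lit 8, nat_lit 5652481205, nat_lit 5649899741,
   nat_lit 4499071161, nat_lit 5572812985, nat_lit 12, nat_lit 12164278377, nat_lit 6109683897,
   nat_lit 6109683897, nat_lit 6109683897, nat_lit 5652481205, nat_lit 5649899741,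
   nat_lit 4499071161, nat_lit 5572812985, nat_lit 12, nat_lit 12164278377, nat_lit 6109683897,
   nat_lit 6109683897, nat_lit 6109683897, nat_lit 5652103262, nat_lit 5649859805,
   nat_lit 5649859793, nat_lit 5570692301, nat_lit 12, nat_lit 12164276329, nat_lit 12164309105,
   nat_lit 6123816137, nat_lit 6123724917, nat_lit 6119621829, nat_lit 6119621829,
   nat_lit 6107563213, nat_lit 4, nat_lit 6109398221, nat_lit 6109398221, nat_lit 5649752285,
   nat_lit 4, nat_lit 8, nat_lit 5649899741, nat_lit 5649899729, nat_lit 5572698297, nat_lit 12,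
   nat_lit 12164278377, nat_lit 6123856073, nat_lit 6119661765, nat_lit 6109569209,
   nat_lit 5649883357, nat_lit 5649883345, nat_lit 5572436153, nat_lit 8, nat_lit 5649899741,
   nat_lit 4499071161, nat_lit 5572812985, nat_lit 12, nat_lit 12164278377, nat_lit 6109683897,
   nat_lit 6109683897, nat_lit 6109683897, nat_lit 5652217950, nat_lit 5649883357,
   nat_lit 5649883345, nat_lit 5570715853, nat_lit 8, nat_lit 5649899741, nat_lit 4499071161,
   nat_lit 5572812985, nat_lit 12, nat_lit 12164278377, nat_lit 6109683897, nat_lit 6109683897,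
   nat_lit 6109683897, nat_lit 5649899741, nat_lit 4499071161, nat_lit 5572812985, nat_lit 12,
   nat_lit 12164278377, nat_lit 6109683897, nat_lit 6109683897, nat_lit 6109683897,
   nat_lit 5652217950, nat_lit 5650145501, nat_lit 5650145489, nat_lit 5570715853, nat_lit 8,
   nat_lit 5649899741, nat_lit 4499071161, nat_lit 5572812985, nat_lit 1446372598313,
   nat_lit 5545287881, nat_lit 5545287881, nat_lit 5545287877, nat_lit 5545287877,
   nat_lit 5650161885, nat_lit 4503265465, nat_lit 5577007289, nat_lit 12, nat_lit 12164294761,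
   nat_lit 6113878201, nat_lit 6113878201, nat_lit 6113878201, nat_lit 1446339043881, nat_lit 4,
   nat_lit 8, nat_lit 5649899689, nat_lit 5572698297, nat_lit 12, nat_lit 12092350621,
   nat_lit 6126346425, nat_lit 6119661765, nat_lit 6109569209, nat_lit 5649883305,
   nat_lit 5572436153, nat_lit 8, nat_lit 5649899689, nat_lit 5572812985, nat_lit 12,
   nat_lit 12092350621, nat_lit 6126461113, nat_lit 6109683897, nat_lit 6109683897,
   nat_lit 4534435918, nat_lit 5649883305, nat_lit 5570715853, nat_lit 8, nat_lit 5649899689,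
   nat_lit 5572812985, nat_lit 12, nat_lit 12092350621, nat_lit 6126461113, nat_lit 6109683897,
   nat_lit 6109683897, nat_lit 5649899689, nat_lit 5572812985, nat_lit 12, nat_lit 12092350621,
   nat_lit 6126461113, nat_lit 6109683897, nat_lit 6109683897, nat_lit 4534435918,
   nat_lit 5650145449, nat_lit 5570715853, nat_lit 8, nat_lit 5649899689, nat_lit 5572812985,
   nat_lit 71983063325, nat_lit 5545287881, nat_lit 5545287877, nat_lit 5545287877,
   nat_lit 5650161833, nat_lit 5577007289, nat_lit 12, nat_lit 12092612765, nat_lit 6126461113,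
   nat_lit 6113878201, nat_lit 6113878201, nat_lit 71949508893, nat_lit 4, nat_lit 8,
   nat_lit 5572691129, nat_lit 12, nat_lit 12159459485, nat_lit 6123855989, nat_lit 6119654597,
   nat_lit 3962085561, nat_lit 5572428985, nat_lit 8, nat_lit 5572805817, nat_lit 12,
   nat_lit 12159459485, nat_lit 6123855989, nat_lit 6109676729, nat_lit 3962200249,
   nat_lit 4534435918, nat_lit 5570708685, nat_lit 8, nat_lit 5572805817, nat_lit 12,
   nat_lit 12159459485, nat_lit 6123855989, nat_lit 6109676729, nat_lit 3962200249,
   nat_lit 5572805817, nat_lit 12, nat_lit 12159459485, nat_lit 6123855989, nat_lit 6109676729,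
   nat_lit 3962200249, nat_lit 4534435918, nat_lit 3230032037, nat_lit 8, nat_lit 4498949305,
   nat_lit 89162932509, nat_lit 3397804233, nat_lit 3397804229, nat_lit 3362414785, nat_lit 12,
   nat_lit 12159721629, nat_lit 6124118133, nat_lit 11952349377, nat_lit 3966394553,
   nat_lit 89129378077, nat_lit 4, nat_lit 8, nat_lit 12, nat_lit 12164440177,
   nat_lit 6123855989, nat_lit 6119654597, nat_lit 6109562041, nat_lit 8, nat_lit 12,
   nat_lit 12164440177, nat_lit 6123855989, nat_lit 6109676729, nat_lit 6109676729,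
   nat_lit 5652103262, nat_lit 8, nat_lit 12, nat_lit 12164440177, nat_lit 6123855989,
   nat_lit 6109676729, nat_lit 6109676729, nat_lit 12, nat_lit 12164440177, nat_lit 6123855989,
   nat_lit 6109676729, nat_lit 6109676729, nat_lit 5652103262, nat_lit 8, nat_lit 1446372598257,
   nat_lit 1446372598257, nat_lit 12, nat_lit 12164440177, nat_lit 6124118133,
   nat_lit 11952349377, nat_lit 11952349377, nat_lit 1446339043825, nat_lit 0, nat_lit 4,
   nat_lit 5652103262, nat_lit 4, nat_lit 12, nat_lit 12164270185, nat_lit 6123717833,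
   nat_lit 6119523525, nat_lit 8, nat_lit 6148883657, nat_lit 6148883657, nat_lit 6148883653,
   nat_lit 6148883653, nat_lit 5649876189, nat_lit 5649876177, nat_lit 5572428985, nat_lit 12,
   nat_lit 12164277353, nat_lit 12164277353, nat_lit 6123832521, nat_lit 6123832521,
   nat_lit 6119638213, nat_lit 6119638213, nat_lit 6109299897, nat_lit 8, nat_lit 6148998345,
   nat_lit 6148998345, nat_lit 6148998341, nat_lit 6148998341, nat_lit 5652103262,
   nat_lit 5649876189, nat_lit 5649876177, nat_lit 5570708685, nat_lit 12, nat_lit 12164277353,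
   nat_lit 12164310129, nat_lit 6123832521, nat_lit 6123725941, nat_lit 6119638213,
   nat_lit 6119638213, nat_lit 6107579597, nat_lit 8, nat_lit 6148891765, nat_lit 6148891765,
   nat_lit 4001408117, nat_lit 6148998341, nat_lit 5652103262, nat_lit 4, nat_lit 5652219061,
   nat_lit 5649883357, nat_lit 5649883345, nat_lit 5572428985, nat_lit 1446370117161,
   nat_lit 5652103262, nat_lit 5649859805, nat_lit 5649859793, nat_lit 5572166841, nat_lit 4,
   nat_lit 1446370117165, nat_lit 5652103262, nat_lit 4, nat_lit 12, nat_lit 12164270185,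
   nat_lit 6123725001, nat_lit 6119530693, nat_lit 8, nat_lit 5686035637, nat_lit 6148890825,
   nat_lit 6148890825, nat_lit 6148890821, nat_lit 6148890821, nat_lit 5652219061,
   nat_lit 5649883357, nat_lit 5649883345, nat_lit 5572436153, nat_lit 12, nat_lit 12164277353,
   nat_lit 12164277353, nat_lit 6123839689, nat_lit 6123839689, nat_lit 6119645381,
   nat_lit 6119645381, nat_lit 6109307065, nat_lit 8, nat_lit 6151341233, nat_lit 6149005513,
   nat_lit 6149005513, nat_lit 6149005509, nat_lit 6149005509, nat_lit 5652103262,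
   nat_lit 5652219061, nat_lit 5649883357, nat_lit 5649883345, nat_lit 5570715853, nat_lit 12,
   nat_lit 12164277353, nat_lit 12164310129, nat_lit 6123839689, nat_lit 6123839689,
   nat_lit 6119645381, nat_lit 6119645381, nat_lit 6107586765, nat_lit 8, nat_lit 6151341233,
   nat_lit 6149005513, nat_lit 6149005513, nat_lit 6149005509, nat_lit 6149005509,
   nat_lit 5652103262, nat_lit 5649859805, nat_lit 5649859793, nat_lit 5570692301, nat_lit 8,
   nat_lit 11090534505, nat_lit 11090567281, nat_lit 6056707273, nat_lit 6056616053,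
   nat_lit 6052512965, nat_lit 6052512965, nat_lit 6040454349, nat_lit 4, nat_lit 6042289357,
   nat_lit 6042289357, nat_lit 5649752285, nat_lit 4, nat_lit 12, nat_lit 12164270185,
   nat_lit 6123725001, nat_lit 6119530693, nat_lit 8, nat_lit 6148890825, nat_lit 6148890825,
   nat_lit 6148890821, nat_lit 6148890821, nat_lit 5649883357, nat_lit 5649883345,
   nat_lit 5572436153, nat_lit 12, nat_lit 12164277353, nat_lit 12164277353, nat_lit 6123839689,
   nat_lit 6123839689, nat_lit 6119645381, nat_lit 6119645381, nat_lit 6109307065, nat_lit 8,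
   nat_lit 6149005513, nat_lit 6149005513, nat_lit 6149005509, nat_lit 6149005509,
   nat_lit 5652217950, nat_lit 5649883357, nat_lit 5649883345, nat_lit 5570715853, nat_lit 12,
   nat_lit 12164277353, nat_lit 12164310129, nat_lit 6123839689, nat_lit 6123839689,
   nat_lit 6119645381, nat_lit 6119645381, nat_lit 6107586765, nat_lit 8, nat_lit 6149005513,
   nat_lit 6149005513, nat_lit 6149005509, nat_lit 6149005509, nat_lit 5652217950,
   nat_lit 5650145501, nat_lit 5650145489, nat_lit 5570715853, nat_lit 12, nat_lit 12164293737,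
   nat_lit 12164310129, nat_lit 6124101833, nat_lit 6124101833, nat_lit 6119907525,
   nat_lit 6119907525, nat_lit 6107586765, nat_lit 8, nat_lit 6149267657, nat_lit 6149267657,
   nat_lit 6149267653, nat_lit 6149267653, nat_lit 1446339043881, nat_lit 4, nat_lit 12,
   nat_lit 12092219549, nat_lit 6124495025, nat_lit 6119530693, nat_lit 8, nat_lit 6148890825,
   nat_lit 6148890821, nat_lit 6148890821, nat_lit 5649883305, nat_lit 5572436153, nat_lit 12,
   nat_lit 12092334237, nat_lit 12092334237, nat_lit 6126084281, nat_lit 6126067889,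
   nat_lit 6119645381, nat_lit 6119645381, nat_lit 6109307065, nat_lit 8, nat_lit 6149005513,
   nat_lit 6149005509, nat_lit 6149005509, nat_lit 4534435918, nat_lit 5649883305,
   nat_lit 5570715853, nat_lit 12, nat_lit 12092334237, nat_lit 12164310129, nat_lit 6124363981,
   nat_lit 6126067889, nat_lit 6119645381, nat_lit 6119645381, nat_lit 6107586765, nat_lit 8,
   nat_lit 6149005513, nat_lit 6149005509, nat_lit 6149005509, nat_lit 4534435918,
   nat_lit 5650145449, nat_lit 5570715853, nat_lit 12, nat_lit 12092596381, nat_lit 12164310129,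
   nat_lit 6124363981, nat_lit 6124101793, nat_lit 6119907525, nat_lit 6119907525,
   nat_lit 6107586765, nat_lit 8, nat_lit 6149267657, nat_lit 6149267653, nat_lit 6149267653,
   nat_lit 71949508893, nat_lit 4, nat_lit 12, nat_lit 12159328413, nat_lit 6123724917,
   nat_lit 6119523525, nat_lit 8, nat_lit 4001407177, nat_lit 4001407173, nat_lit 5572428985,
   nat_lit 12, nat_lit 12159443101, nat_lit 12159443101, nat_lit 6123839605, nat_lit 6123839605,
   nat_lit 6119638213, nat_lit 6119638213, nat_lit 3961823417, nat_lit 8, nat_lit 4001521865,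
   nat_lit 4001521861, nat_lit 4534435918, nat_lit 5570708685, nat_lit 12, nat_lit 12159443101,
   nat_lit 12164310129, nat_lit 6123839605, nat_lit 6119523525, nat_lit 6119638213,
   nat_lit 6119638213, nat_lit 3960103117, nat_lit 8, nat_lit 4001521865, nat_lit 4001521861,
   nat_lit 4534435918, nat_lit 3230032037, nat_lit 12, nat_lit 12159705245, nat_lit 12164310129,
   nat_lit 6124101749, nat_lit 6124101749, nat_lit 12021293265, nat_lit 12021293269,
   nat_lit 3960103117, nat_lit 8, nat_lit 4001784009, nat_lit 4001784005, nat_lit 89129378077,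
   nat_lit 4, nat_lit 12, nat_lit 12164309105, nat_lit 6123724917, nat_lit 6119523525, nat_lit 8,
   nat_lit 6148883653, nat_lit 12, nat_lit 12164423793, nat_lit 12164423793, nat_lit 6123839605,
   nat_lit 6123839605, nat_lit 6119638213, nat_lit 6119638213, nat_lit 6109299897, nat_lit 8,
   nat_lit 6148998341, nat_lit 5652103262, nat_lit 12, nat_lit 12164423793, nat_lit 12164423793,
   nat_lit 6123839605, nat_lit 6123839605, nat_lit 6119638213, nat_lit 6119638213,
   nat_lit 6107579597, nat_lit 8, nat_lit 6148998341, nat_lit 5652103262, nat_lit 12,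
   nat_lit 12164423793, nat_lit 12164423793, nat_lit 6124101749, nat_lit 6124101749,
   nat_lit 12021293225, nat_lit 12021293229, nat_lit 11819966629, nat_lit 8, nat_lit 12491055317,
   nat_lit 1446339043825, nat_lit 0, nat_lit 4, nat_lit 5652103262, nat_lit 4, nat_lit 8,
   nat_lit 5652365406, nat_lit 5649876189, nat_lit 5649876177, nat_lit 5572428985, nat_lit 8,
   nat_lit 1446374573613, nat_lit 5652365406, nat_lit 5652103262, nat_lit 5649876189,
   nat_lit 5649876177, nat_lit 5570708685, nat_lit 12, nat_lit 12164277353, nat_lit 12164310129,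
   nat_lit 6123832521, nat_lit 6123725941, nat_lit 6119638213, nat_lit 6119638213,
   nat_lit 6107579597, nat_lit 8, nat_lit 6109676749, nat_lit 6109676749, nat_lit 5652103262,
   nat_lit 4, nat_lit 5652219061, nat_lit 5649883357, nat_lit 5649883345, nat_lit 5572428985,
   nat_lit 1446370117161, nat_lit 5652103262, nat_lit 5649859805, nat_lit 5649859793,
   nat_lit 5572166841, nat_lit 4, nat_lit 1446370117165, nat_lit 5652103262, nat_lit 4,
   nat_lit 8, nat_lit 5652365406, nat_lit 5652219061, nat_lit 5649883357, nat_lit 5649883345,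
   nat_lit 5572436153, nat_lit 8, nat_lit 1446374580781, nat_lit 5652365406, nat_lit 5652103262,
   nat_lit 5652219061, nat_lit 5649883357, nat_lit 5649883345, nat_lit 5570715853, nat_lit 12,
   nat_lit 12164277353, nat_lit 12164310129, nat_lit 6123839689, nat_lit 6123839689,
   nat_lit 6119645381, nat_lit 6119645381, nat_lit 6107586765, nat_lit 8, nat_lit 6109683917,
   nat_lit 6109683917, nat_lit 5652103262, nat_lit 5649859805, nat_lit 5649859793,
   nat_lit 5570692301, nat_lit 12, nat_lit 12164276329, nat_lit 12164309105, nat_lit 6123816137,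
   nat_lit 6123724917, nat_lit 6119621829, nat_lit 6119621829, nat_lit 6107563213, nat_lit 8,
   nat_lit 6109660365, nat_lit 6109660365, nat_lit 5649752285, nat_lit 4, nat_lit 8,
   nat_lit 5652480094, nat_lit 5649883357, nat_lit 5649883345, nat_lit 5572436153, nat_lit 8,
   nat_lit 1446374580781, nat_lit 5652480094, nat_lit 5652217950, nat_lit 5649883357,
   nat_lit 5649883345, nat_lit 5570715853, nat_lit 12, nat_lit 12164277353, nat_lit 12164310129,
   nat_lit 6123839689, nat_lit 6123839689, nat_lit 6119645381, nat_lit 6119645381,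
   nat_lit 6107586765, nat_lit 8, nat_lit 6109683917, nat_lit 6109683917, nat_lit 5652217950,
   nat_lit 5650145501, nat_lit 5650145489, nat_lit 5570715853, nat_lit 12, nat_lit 12164293737,
   nat_lit 12164310129, nat_lit 6124101833, nat_lit 6124101833, nat_lit 6119907525,
   nat_lit 6119907525, nat_lit 6107586765, nat_lit 8, nat_lit 6109683917, nat_lit 11987738845,
   nat_lit 6113878221, nat_lit 1446339043881, nat_lit 4, nat_lit 8, nat_lit 4538630222,
   nat_lit 5649883305, nat_lit 5572436153, nat_lit 8, nat_lit 1446374580769, nat_lit 4538630222,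
   nat_lit 4534435918, nat_lit 5649883305, nat_lit 5570715853, nat_lit 12, nat_lit 12092334237,
   nat_lit 12164310129, nat_lit 6124363981, nat_lit 6126067889, nat_lit 6119645381,
   nat_lit 6119645381, nat_lit 6107586765, nat_lit 8, nat_lit 6109683917, nat_lit 6109683917,
   nat_lit 4534435918, nat_lit 5650145449, nat_lit 5570715853, nat_lit 12, nat_lit 12092596381,
   nat_lit 12164310129, nat_lit 6124363981, nat_lit 6124101793, nat_lit 6119907525,
   nat_lit 6119907525, nat_lit 6107586765, nat_lit 8, nat_lit 6109683917, nat_lit 11987738845,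
   nat_lit 6113878221, nat_lit 71949508893, nat_lit 4, nat_lit 8, nat_lit 4538630222,
   nat_lit 5572428985, nat_lit 8, nat_lit 1426638529045, nat_lit 4538630222, nat_lit 4534435918,
   nat_lit 5570708685, nat_lit 12, nat_lit 12159443101, nat_lit 12164310129, nat_lit 6123839605,
   nat_lit 6119523525, nat_lit 6119638213, nat_lit 6119638213, nat_lit 3960103117, nat_lit 8,
   nat_lit 3962200269, nat_lit 3962200269, nat_lit 4534435918, nat_lit 3230032037, nat_lit 12,
   nat_lit 12159705245, nat_lit 12164310129, nat_lit 6124101749, nat_lit 6124101749,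
   nat_lit 12021293265, nat_lit 12021293269, nat_lit 3960103117, nat_lit 8, nat_lit 3962200269,
   nat_lit 11987738845, nat_lit 3966394573, nat_lit 89129378077, nat_lit 4, nat_lit 8,
   nat_lit 5652365406, nat_lit 8, nat_lit 1446374573613, nat_lit 5652365406, nat_lit 5652103262,
   nat_lit 12, nat_lit 12164423793, nat_lit 12164423793, nat_lit 6123839605, nat_lit 6123839605,
   nat_lit 6119638213, nat_lit 6119638213, nat_lit 6107579597, nat_lit 8, nat_lit 6109676749,
   nat_lit 6109676749, nat_lit 5652103262, nat_lit 12, nat_lit 12164423793, nat_lit 12164423793,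
   nat_lit 6124101749, nat_lit 6124101749, nat_lit 12021293225, nat_lit 12021293229,
   nat_lit 11819966629, nat_lit 8, nat_lit 11853521061, nat_lit 11987738845,
   nat_lit 189119750441, nat_lit 1446339043825, nat_lit 0, nat_lit 353116225, nat_lit 353132609,
   nat_lit 353132597, nat_lit 201875501, nat_lit 90396189029, nat_lit 8, nat_lit 90398286181,
   nat_lit 90398286181, nat_lit 4, nat_lit 5649753309, nat_lit 90402611557, nat_lit 90402611549,
   nat_lit 51680797013, nat_lit 1446339061233, nat_lit 16, nat_lit 13238012009,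
   nat_lit 6186632389, nat_lit 5112890565, nat_lit 12, nat_lit 5652612277, nat_lit 4072703177,
   nat_lit 4072703177, nat_lit 4072703177, nat_lit 4072703173, nat_lit 12, nat_lit 16,
   nat_lit 5652889694, nat_lit 16, nat_lit 0, nat_lit 4, nat_lit 8, nat_lit 5652504757,
   nat_lit 4, nat_lit 8, nat_lit 5652504721, nat_lit 5652504713, nat_lit 8, nat_lit 5652504705,
   nat_lit 4, nat_lit 8, nat_lit 5577007205, nat_lit 5577007205, nat_lit 3232391297, nat_lit 8,
   nat_lit 5577007205, nat_lit 3232391297, nat_lit 8, nat_lit 3232391297, nat_lit 4, nat_lit 8,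
   nat_lit 5650162909, nat_lit 5650162897, nat_lit 3362414693, nat_lit 1446341403057, nat_lit 8,
   nat_lit 5650162857, nat_lit 3362414693, nat_lit 1446341403045, nat_lit 8, nat_lit 3362414693,
   nat_lit 1426070331777, nat_lit 8, nat_lit 23141424980621, nat_lit 5649925341,
   nat_lit 5649925329, nat_lit 5573215417, nat_lit 0, nat_lit 4, nat_lit 8, nat_lit 5690253493,
   nat_lit 4, nat_lit 8, nat_lit 5690253457, nat_lit 5690253449, nat_lit 8, nat_lit 5690253441,
   nat_lit 4, nat_lit 8, nat_lit 6180986981, nat_lit 6180986981, nat_lit 3274334337, nat_lit 8,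
   nat_lit 6180986981, nat_lit 3274334337, nat_lit 8, nat_lit 3274334337, nat_lit 4, nat_lit 8,
   nat_lit 6180986981, nat_lit 6180986981, nat_lit 4033503333, nat_lit 1446383346097, nat_lit 8,
   nat_lit 6180986981, nat_lit 4033503333, nat_lit 1446383346085, nat_lit 8, nat_lit 4033503333,
   nat_lit 1426741420417, nat_lit 8, nat_lit 23142096069261, nat_lit 5652889694,
   nat_lit 5649925341, nat_lit 5649925329, nat_lit 5570757837, nat_lit 0, nat_lit 4, nat_lit 8,
   nat_lit 5690253493, nat_lit 4, nat_lit 8, nat_lit 5690253457, nat_lit 5690253449, nat_lit 8,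
   nat_lit 5690253441, nat_lit 4, nat_lit 8, nat_lit 6180986981, nat_lit 6180986981,
   nat_lit 3274334337, nat_lit 8, nat_lit 6180986981, nat_lit 3274334337, nat_lit 8,
   nat_lit 3274334337, nat_lit 4, nat_lit 8, nat_lit 6180986981, nat_lit 6180986981,
   nat_lit 4033503333, nat_lit 1446383346097, nat_lit 8, nat_lit 6180986981, nat_lit 4033503333,
   nat_lit 1446383346085, nat_lit 8, nat_lit 4033503333, nat_lit 1426741420417, nat_lit 8,
   nat_lit 23142096069261, nat_lit 5652889694, nat_lit 16, nat_lit 5653054645,
   nat_lit 5649935581, nat_lit 5649935569, nat_lit 5573215417, nat_lit 1446383486505,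
   nat_lit 5652889694, nat_lit 5649908957, nat_lit 5649908945, nat_lit 5572953273, nat_lit 16,
   nat_lit 1446383486509, nat_lit 5652889694, nat_lit 16, nat_lit 0, nat_lit 4, nat_lit 8,
   nat_lit 5652784349, nat_lit 4, nat_lit 8, nat_lit 5652784349, nat_lit 5652743389,
   nat_lit 5652743377, nat_lit 3232629925, nat_lit 4, nat_lit 8, nat_lit 5652784349,
   nat_lit 5652784349, nat_lit 5652784337, nat_lit 3404357733, nat_lit 3399877829,
   nat_lit 5652759773, nat_lit 4544922809, nat_lit 5618664633, nat_lit 8, nat_lit 2930115773,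
   nat_lit 5652635869, nat_lit 4, nat_lit 8, nat_lit 5652776157, nat_lit 8, nat_lit 5652784349,
   nat_lit 5652784349, nat_lit 5652759773, nat_lit 5652636893, nat_lit 8, nat_lit 5652784349,
   nat_lit 5652784349, nat_lit 4, nat_lit 8, nat_lit 4545077349, nat_lit 5685928033, nat_lit 8,
   nat_lit 4545208421, nat_lit 4545208421, nat_lit 5686059105, nat_lit 4544815205,
   nat_lit 5685665889, nat_lit 4542849125, nat_lit 8, nat_lit 4545208421, nat_lit 5686059105,
   nat_lit 4545208421, nat_lit 5686059105, nat_lit 8, nat_lit 5686059093, nat_lit 5686059093,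
   nat_lit 4, nat_lit 8, nat_lit 5618819173, nat_lit 5618819173, nat_lit 3232662693, nat_lit 8,
   nat_lit 5618950245, nat_lit 5618950245, nat_lit 5618950245, nat_lit 3232670885,
   nat_lit 5618557029, nat_lit 5618557029, nat_lit 3232646309, nat_lit 5616590949, nat_lit 8,
   nat_lit 5618950245, nat_lit 5618950245, nat_lit 3232670885, nat_lit 5618950245,
   nat_lit 5618950245, nat_lit 3232670885, nat_lit 8, nat_lit 5618950245, nat_lit 3232670885,
   nat_lit 5618950245, nat_lit 3232670885, nat_lit 8, nat_lit 3232670885, nat_lit 3232670885,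
   nat_lit 4, nat_lit 8, nat_lit 5652776157, nat_lit 5652776145, nat_lit 3404226661,
   nat_lit 1446341271985, nat_lit 8, nat_lit 5652784349, nat_lit 5652784349, nat_lit 5652784337,
   nat_lit 3404357733, nat_lit 1446341403057, nat_lit 5652759773, nat_lit 5652759761,
   nat_lit 3403964517, nat_lit 1446341009841, nat_lit 5652636893, nat_lit 8, nat_lit 5652784349,
   nat_lit 5652784337, nat_lit 3404357733, nat_lit 1446341403057, nat_lit 5652784349,
   nat_lit 5652784337, nat_lit 3404357733, nat_lit 1446341403057, nat_lit 8, nat_lit 5652784297,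
   nat_lit 3404357733, nat_lit 1151234367873, nat_lit 5652784297, nat_lit 3404357733,
   nat_lit 1151234367873, nat_lit 8, nat_lit 3404357733, nat_lit 1426112274817,
   nat_lit 3404357733, nat_lit 1426112274817, nat_lit 8, nat_lit 1446341271985,
   nat_lit 23141466923661, nat_lit 5653054645, nat_lit 5649935581, nat_lit 5649935569,
   nat_lit 5573225657, nat_lit 0, nat_lit 4, nat_lit 8, nat_lit 5690533085, nat_lit 4, nat_lit 8,
   nat_lit 5690533085, nat_lit 5690492125, nat_lit 5690492113, nat_lit 3274572965, nat_lit 4,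
   nat_lit 8, nat_lit 6222930021, nat_lit 6222930021, nat_lit 6222930021, nat_lit 4075446373,
   nat_lit 13667533977, nat_lit 6222644417, nat_lit 6222644417, nat_lit 4075160769, nat_lit 8,
   nat_lit 13667534013, nat_lit 5690384605, nat_lit 4, nat_lit 8, nat_lit 5690524893, nat_lit 8,
   nat_lit 5690533085, nat_lit 5690533085, nat_lit 5690508509, nat_lit 5690385629, nat_lit 8,
   nat_lit 5690533085, nat_lit 5690533085, nat_lit 4, nat_lit 8, nat_lit 5149057125,
   nat_lit 5690524881, nat_lit 8, nat_lit 5149188197, nat_lit 5149188197, nat_lit 5690533073,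
   nat_lit 5148794981, nat_lit 5690508497, nat_lit 5146828901, nat_lit 8, nat_lit 5149188197,
   nat_lit 5690533073, nat_lit 5149188197, nat_lit 5690533073, nat_lit 8, nat_lit 5690533033,
   nat_lit 5690533033, nat_lit 4, nat_lit 8, nat_lit 6222798949, nat_lit 6222798949,
   nat_lit 3274605733, nat_lit 8, nat_lit 6222930021, nat_lit 6222930021, nat_lit 6222930021,
   nat_lit 3274613925, nat_lit 6222536805, nat_lit 6222536805, nat_lit 3274589349,
   nat_lit 6220570725, nat_lit 8, nat_lit 6222930021, nat_lit 6222930021, nat_lit 3274613925,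
   nat_lit 6222930021, nat_lit 6222930021, nat_lit 3274613925, nat_lit 8, nat_lit 6222930021,
   nat_lit 3274613925, nat_lit 6222930021, nat_lit 3274613925, nat_lit 8, nat_lit 3274613925,
   nat_lit 3274613925, nat_lit 4, nat_lit 8, nat_lit 6222798949, nat_lit 6222798949,
   nat_lit 4075315301, nat_lit 1446383215025, nat_lit 8, nat_lit 6222930021, nat_lit 6222930021,
   nat_lit 6222930021, nat_lit 4075446373, nat_lit 1446383346097, nat_lit 6222536805,
   nat_lit 6222536805, nat_lit 4075053157, nat_lit 1446382952881, nat_lit 6220570725, nat_lit 8,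
   nat_lit 6222930021, nat_lit 6222930021, nat_lit 4075446373, nat_lit 1446383346097,
   nat_lit 6222930021, nat_lit 6222930021, nat_lit 4075446373, nat_lit 1446383346097, nat_lit 8,
   nat_lit 6222930021, nat_lit 4075446373, nat_lit 1151905456513, nat_lit 6222930021,
   nat_lit 4075446373, nat_lit 1151905456513, nat_lit 8, nat_lit 4075446373,
   nat_lit 1426783363457, nat_lit 4075446373, nat_lit 1426783363457, nat_lit 8,
   nat_lit 1446341271985, nat_lit 23142138012301, nat_lit 5652889694, nat_lit 5653054645,
   nat_lit 5649935581, nat_lit 5649935569, nat_lit 5570768077, nat_lit 0, nat_lit 4, nat_lit 8,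
   nat_lit 5690533085, nat_lit 4, nat_lit 8, nat_lit 5690533085, nat_lit 5690492125,
   nat_lit 5690492113, nat_lit 3274572965, nat_lit 4, nat_lit 8, nat_lit 6222930021,
   nat_lit 6222930021, nat_lit 6222930021, nat_lit 4075446373, nat_lit 13667533977,
   nat_lit 6222644417, nat_lit 6222644417, nat_lit 4075160769, nat_lit 8, nat_lit 13667534013,
   nat_lit 5690384605, nat_lit 4, nat_lit 8, nat_lit 5690524893, nat_lit 8, nat_lit 5690533085,
   nat_lit 5690533085, nat_lit 5690508509, nat_lit 5690385629, nat_lit 8, nat_lit 5690533085,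
   nat_lit 5690533085, nat_lit 4, nat_lit 8, nat_lit 5149057125, nat_lit 5690524881, nat_lit 8,
   nat_lit 5149188197, nat_lit 5149188197, nat_lit 5690533073, nat_lit 5148794981,
   nat_lit 5690508497, nat_lit 5146828901, nat_lit 8, nat_lit 5149188197, nat_lit 5690533073,
   nat_lit 5149188197, nat_lit 5690533073, nat_lit 8, nat_lit 5690533033, nat_lit 5690533033,
   nat_lit 4, nat_lit 8, nat_lit 6222798949, nat_lit 6222798949, nat_lit 3274605733, nat_lit 8,
   nat_lit 6222930021, nat_lit 6222930021, nat_lit 6222930021, nat_lit 3274613925,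
   nat_lit 6222536805, nat_lit 6222536805, nat_lit 3274589349, nat_lit 6220570725, nat_lit 8,
   nat_lit 6222930021, nat_lit 6222930021, nat_lit 3274613925, nat_lit 6222930021,
   nat_lit 6222930021, nat_lit 3274613925, nat_lit 8, nat_lit 6222930021, nat_lit 3274613925,
   nat_lit 6222930021, nat_lit 3274613925, nat_lit 8, nat_lit 3274613925, nat_lit 3274613925,
   nat_lit 4, nat_lit 8, nat_lit 6222798949, nat_lit 6222798949, nat_lit 4075315301,
   nat_lit 1446383215025, nat_lit 8, nat_lit 6222930021, nat_lit 6222930021, nat_lit 6222930021,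
   nat_lit 4075446373, nat_lit 1446383346097, nat_lit 6222536805, nat_lit 6222536805,
   nat_lit 4075053157, nat_lit 1446382952881, nat_lit 6220570725, nat_lit 8, nat_lit 6222930021,
   nat_lit 6222930021, nat_lit 4075446373, nat_lit 1446383346097, nat_lit 6222930021,
   nat_lit 6222930021, nat_lit 4075446373, nat_lit 1446383346097, nat_lit 8, nat_lit 6222930021,
   nat_lit 4075446373, nat_lit 1151905456513, nat_lit 6222930021, nat_lit 4075446373,
   nat_lit 1151905456513, nat_lit 8, nat_lit 4075446373, nat_lit 1426783363457,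
   nat_lit 4075446373, nat_lit 1426783363457, nat_lit 8, nat_lit 1446341271985,
   nat_lit 23142138012301, nat_lit 5652889694, nat_lit 5649908957, nat_lit 5649908945,
   nat_lit 5570741453, nat_lit 0, nat_lit 4, nat_lit 8, nat_lit 1446374671917,
   nat_lit 1446341641773, nat_lit 1446341534129, nat_lit 16, nat_lit 1446383477169,
   nat_lit 1446383477169, nat_lit 5649755357, nat_lit 16, nat_lit 0, nat_lit 4, nat_lit 8,
   nat_lit 5652784349, nat_lit 4, nat_lit 8, nat_lit 4545208421, nat_lit 5686059105, nat_lit 8,
   nat_lit 5686059093, nat_lit 4, nat_lit 8, nat_lit 5618950245, nat_lit 5618950245,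
   nat_lit 3232670885, nat_lit 8, nat_lit 5618950245, nat_lit 3232670885, nat_lit 8,
   nat_lit 3232670885, nat_lit 4, nat_lit 8, nat_lit 5652784349, nat_lit 5652784337,
   nat_lit 3404357733, nat_lit 1446341403057, nat_lit 8, nat_lit 5652784297, nat_lit 3404357733,
   nat_lit 1151234367873, nat_lit 8, nat_lit 3404357733, nat_lit 1426112274817, nat_lit 8,
   nat_lit 23141466923661, nat_lit 5649935581, nat_lit 5649935569, nat_lit 5573225657, nat_lit 0,
   nat_lit 4, nat_lit 8, nat_lit 5690533085, nat_lit 4, nat_lit 8, nat_lit 5149188197,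
   nat_lit 5690533073, nat_lit 8, nat_lit 5690533033, nat_lit 4, nat_lit 8, nat_lit 6222930021,
   nat_lit 6222930021, nat_lit 3274613925, nat_lit 8, nat_lit 6222930021, nat_lit 3274613925,
   nat_lit 8, nat_lit 3274613925, nat_lit 4, nat_lit 8, nat_lit 6222930021, nat_lit 6222930021,
   nat_lit 4075446373, nat_lit 1446383346097, nat_lit 8, nat_lit 6222930021, nat_lit 4075446373,
   nat_lit 1151905456513, nat_lit 8, nat_lit 4075446373, nat_lit 1426783363457, nat_lit 8,
   nat_lit 23142138012301, nat_lit 5653053534, nat_lit 5649935581, nat_lit 5649935569,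
   nat_lit 5570768077, nat_lit 0, nat_lit 4, nat_lit 8, nat_lit 5690533085, nat_lit 4, nat_lit 8,
   nat_lit 5149188197, nat_lit 5690533073, nat_lit 8, nat_lit 5690533033, nat_lit 4, nat_lit 8,
   nat_lit 6222930021, nat_lit 6222930021, nat_lit 3274613925, nat_lit 8, nat_lit 6222930021,
   nat_lit 3274613925, nat_lit 8, nat_lit 3274613925, nat_lit 4, nat_lit 8, nat_lit 6222930021,
   nat_lit 6222930021, nat_lit 4075446373, nat_lit 1446383346097, nat_lit 8, nat_lit 6222930021,
   nat_lit 4075446373, nat_lit 1151905456513, nat_lit 8, nat_lit 4075446373,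
   nat_lit 1426783363457, nat_lit 8, nat_lit 23142138012301, nat_lit 5653053534,
   nat_lit 5650197725, nat_lit 5650197713, nat_lit 5570768077, nat_lit 0, nat_lit 4, nat_lit 8,
   nat_lit 5690533085, nat_lit 4, nat_lit 8, nat_lit 5149188197, nat_lit 5690533073, nat_lit 8,
   nat_lit 5690533033, nat_lit 4, nat_lit 8, nat_lit 6222930021, nat_lit 6222930021,
   nat_lit 3341722789, nat_lit 8, nat_lit 6222930021, nat_lit 3341722789, nat_lit 8,
   nat_lit 3341722789, nat_lit 4, nat_lit 8, nat_lit 6222930021, nat_lit 6222930021,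
   nat_lit 4075446373, nat_lit 2267701381, nat_lit 8, nat_lit 6222930021, nat_lit 4075446373,
   nat_lit 2267701381, nat_lit 8, nat_lit 4075446373, nat_lit 2267701381, nat_lit 8,
   nat_lit 2267701381, nat_lit 1446339096105, nat_lit 0, nat_lit 4, nat_lit 8,
   nat_lit 5652784293, nat_lit 4, nat_lit 8, nat_lit 5618950245, nat_lit 3232670885, nat_lit 8,
   nat_lit 3232670885, nat_lit 4, nat_lit 8, nat_lit 5652784293, nat_lit 3404357733,
   nat_lit 1446341403045, nat_lit 8, nat_lit 3404357733, nat_lit 1426112274817, nat_lit 8,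
   nat_lit 23141466923653, nat_lit 16, nat_lit 1446381281701, nat_lit 1446341960085,
   nat_lit 71949561117, nat_lit 0, nat_lit 4, nat_lit 8, nat_lit 3232670885, nat_lit 4,
   nat_lit 8, nat_lit 3404357733, nat_lit 1426070331777, nat_lit 8, nat_lit 22817129783929,
   nat_lit 16, nat_lit 1426743288201, nat_lit 1426114142597, nat_lit 89129430301, nat_lit 0,
   nat_lit 4, nat_lit 8, nat_lit 23141424980621, nat_lit 16, nat_lit 1446381117873,
   nat_lit 1446341796269, nat_lit 1446339096049]

theorem c23_0 : chk TT UT (gU 23) (sub 0 15) s23_0 = true := by decide +kernel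

end Pool.Agent.H49.PQS
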