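import Mathlib

/-!
Divisions of a point set into blocks such that the sequence obtained by reversing each block avoids
231, with a prescribed first block `X` and a prescribed last block `Y`; how to combine two of them.
-/

namespace Pool.Agent.H49.PQS

/-- the order in which the positions leave the pop stack, if `f` gives the number of the block -/
def prec (f : ℕ → ℕ) (i j : ℕ) : Prop := f i < f j ∨ (f i = f j ∧ j < i)

/-- `f` is a good division: `X` is one block, in front of all others, and `Y` is one block, behind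
all others -/
structure Div (V : ℕ → ℕ) (X E Y : Finset ℕ) (f : ℕ → ℕ) : Prop where
  mono : ∀ i ∈ X ∪ E ∪ Y, ∀ j ∈ X ∪ E ∪ Y, i < j → f i ≤ f j
  sx : ∀ i ∈ X, ∀ j ∈ X, f i = f j
  sy : ∀ i ∈ Y, ∀ j ∈ Y, f i = f j
  px : ∀ i ∈ X, ∀ j ∈ E ∪ Y, f i < f j
  py : ∀ i ∈ X ∪ E, ∀ j ∈ Y, f i < f j
  av : ∀ i ∈ X ∪ E ∪ Y, ∀ j ∈ X ∪ E ∪ Y, ∀ k ∈ X ∪ E ∪ Y,
    prec f i j → prec f j k → V k < V i → V i < V j → False

def Solv (V : ℕ → ℕ) (X E Y : Finset ℕ) : Prop := ∃ f, Div V X E Y f

theorem solv_empty (V : ℕ → ℕ) : Solv V ∅ ∅ ∅ :=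
  ⟨fun _ => 0, by constructor <;> simp⟩

/-- combination at a maximum `m` of the free part -/
theorem solv_mid (V : ℕ → ℕ) (X L1 L2 R1 R2 Y : Finset ℕ) (m v : ℕ)
    (oX : ∀ i ∈ X, ∀ j ∈ L1 ∪ L2 ∪ {m} ∪ R1 ∪ R2 ∪ Y, i < j)
    (oL : ∀ i ∈ L1, ∀ j ∈ L2 ∪ {m} ∪ R1 ∪ R2 ∪ Y, i < j)
    (oM : ∀ i ∈ L2, ∀ j ∈ {m} ∪ R1 ∪ R2 ∪ Y, i < j)
    (om : ∀ j ∈ R1 ∪ R2 ∪ Y, m < j)
    (oR : ∀ i ∈ R1, ∀ j ∈ R2 ∪ Y, i < j)
    (oY : ∀ i ∈ R2, ∀ j ∈ Y, i < j)
    (vlo : ∀ i ∈ X ∪ L1 ∪ R1, V i < v) (vhi : ∀ i ∈ L2 ∪ R2 ∪ Y, v ≤ V i)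
    (vm : ∀ i ∈ X ∪ L1 ∪ L2 ∪ R1 ∪ R2 ∪ Y, V i < V m)
    (hA : Solv V X L1 R1) (hB : Solv V L2 R2 Y) :
    Solv V X (L1 ∪ L2 ∪ {m} ∪ R1 ∪ R2) Y := by
  obtain ⟨fA, hA⟩ := hA
  obtain ⟨fB, hB⟩ := hB
  set c := (X ∪ L1).sup fA + 1 with hc
  have hcA : ∀ i ∈ X ∪ L1, fA i < c := fun i hi => by
    have := Finset.le_sup (f := fA) hi
    omega
  set f : ℕ → ℕ := fun i => if i ∈ X ∪ L1 then fA i else if i ∈ R2 ∪ Y then c + 1 + fB i else c
    with hf
  have f1 : ∀ i ∈ X ∪ L1, f i = fA i := fun i hi => by simp only [hf, if_pos hi]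
  have f2 : ∀ i ∈ L2 ∪ {m} ∪ R1, f i = c := fun i hi => by
    have h1 : i ∉ X ∪ L1 := by
      intro h
      have : i < i := by
        rcases Finset.mem_union.1 h with h | h
        · exact oX i h i (by simp only [Finset.mem_union] at hi ⊢; tauto)
        · exact oL i h i (by simp only [Finset.mem_union] at hi ⊢; tauto)
      omega
    have h2 : i ∉ R2 ∪ Y := by
      intro h
      have : i < i := by
        simp only [Finset.mem_union] at hi
        rcases hi with (hi | hi) | hi
        · exact oM i hi i (by simp only [Finset.mem_union] at h ⊢; tauto)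
        · rw [Finset.mem_singleton] at hi
          subst hi
          exact om i (by simp only [Finset.mem_union] at h ⊢; tauto)
        · exact oR i hi i h
      omega
    simp only [hf, if_neg h1, if_neg h2]
  have f3 : ∀ i ∈ R2 ∪ Y, f i = c + 1 + fB i := fun i hi => by
    have h1 : i ∉ X ∪ L1 := by
      intro h
      have : i < i := by
        rcases Finset.mem_union.1 h with h | h
        · exact oX i h i (by simp only [Finset.mem_union] at hi ⊢; tauto)
        · exact oL i h i (by simp only [Finset.mem_union] at hi ⊢; tauto)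
      omega
    simp only [hf, if_neg h1, if_pos hi]
  -- the order on the part below `v`
  have K1 : ∀ i ∈ X ∪ L1 ∪ R1, ∀ j ∈ X ∪ L1 ∪ R1, prec f i j → prec fA i j := by
    intro i hi j hj h
    rcases Finset.mem_union.1 hi with hi' | hi' <;> rcases Finset.mem_union.1 hj with hj' | hj'
    · unfold prec at h ⊢
      rw [f1 i hi', f1 j hj'] at h
      exact h
    · left
      exact hA.py i (by simp only [Finset.mem_union] at hi' ⊢; tauto) j hj'
    · exfalso
      unfold prec at h
      rw [f2 i (by simp only [Finset.mem_union]; tauto), f1 j hj'] at h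
      have := hcA j hj'
      omega
    · unfold prec at h ⊢
      rw [f2 i (by simp only [Finset.mem_union]; tauto),
        f2 j (by simp only [Finset.mem_union]; tauto)] at h
      right
      exact ⟨hA.sy i hi' j hj', by omega⟩
  have K2 : ∀ i ∈ L2 ∪ R2 ∪ Y, ∀ j ∈ L2 ∪ R2 ∪ Y, prec f i j → prec fB i j := by
    intro i hi j hj h
    rw [Finset.union_assoc] at hi hj
    rcases Finset.mem_union.1 hi with hi' | hi' <;> rcases Finset.mem_union.1 hj with hj' | hj'
    · unfold prec at h ⊢
      rw [f2 i (by simp only [Finset.mem_union]; tauto),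
        f2 j (by simp only [Finset.mem_union]; tauto)] at h
      right
      exact ⟨hB.sx i hi' j hj', by omega⟩
    · left
      exact hB.px i hi' j hj'
    · exfalso
      unfold prec at h
      rw [f3 i hi', f2 j (by simp only [Finset.mem_union]; tauto)] at h
      omega
    · unfold prec at h ⊢
      rw [f3 i hi', f3 j hj'] at h
      omega
  have K3 : ∀ i ∈ L2 ∪ R2 ∪ Y ∪ {m}, ∀ j ∈ X ∪ L1 ∪ R1, ¬ prec f i j := by
    intro i hi j hj h
    unfold prec at h
    have hi2 : c ≤ f i ∧ (i ∈ R2 ∪ Y ∨ i ≤ m) := by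
      by_cases hi' : i ∈ R2 ∪ Y
      · rw [f3 i hi']; exact ⟨by omega, Or.inl hi'⟩
      · have hi3 : i ∈ L2 ∪ {m} ∪ R1 := by
          simp only [Finset.mem_union] at hi hi' ⊢; tauto
        refine ⟨by rw [f2 i hi3], Or.inr ?_⟩
        simp only [Finset.mem_union, Finset.mem_singleton] at hi hi'
        rcases hi with ((hi | hi) | hi) | hi
        · exact le_of_lt (oM i hi m (by simp))
        · exact absurd (Or.inl hi) hi'
        · exact absurd (Or.inr hi) hi'
        · omega
    rcases Finset.mem_union.1 hj with hj' | hj'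
    · rw [f1 j hj'] at h
      have := hcA j hj'
      omega
    · have hj3 := f2 j (by simp only [Finset.mem_union]; tauto)
      rw [hj3] at h
      rcases hi2 with ⟨h1, h2 | h2⟩
      · rw [f3 i h2] at h
        omega
      · have := om j (by simp only [Finset.mem_union]; tauto)
        omega
  have K4 : ∀ i ∈ L2 ∪ R2 ∪ Y, ¬ prec f i m := by
    intro i hi h
    unfold prec at h
    rw [f2 m (by simp)] at h
    rw [Finset.union_assoc] at hi
    rcases Finset.mem_union.1 hi with hi' | hi'
    · rw [f2 i (by simp only [Finset.mem_union]; tauto)] at h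
      have := oM i hi' m (by simp)
      omega
    · rw [f3 i hi'] at h
      omega
  refine ⟨f, ?_, ?_, ?_, ?_, ?_, ?_⟩
  · -- mono
    intro i hi j hj hij
    by_cases hi1 : i ∈ X ∪ L1
    · rw [f1 i hi1]
      have hci := hcA i hi1
      by_cases hj1 : j ∈ X ∪ L1
      · rw [f1 j hj1]
        exact hA.mono i (by simp only [Finset.mem_union] at hi1 ⊢; tauto) j
          (by simp only [Finset.mem_union] at hj1 ⊢; tauto) hij
      · by_cases hj3 : j ∈ R2 ∪ Y
        · rw [f3 j hj3]; omega
        · rw [f2 j (by simp only [Finset.mem_union] at hj hj1 hj3 ⊢; tauto)]; omega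
    · by_cases hi3 : i ∈ R2 ∪ Y
      · rw [f3 i hi3]
        have hj3 : j ∈ R2 ∪ Y := by
          by_contra hj3
          have : j < i := by
            by_cases hj1 : j ∈ X ∪ L1
            · rcases Finset.mem_union.1 hj1 with h | h
              · exact oX j h i (by simp only [Finset.mem_union] at hi3 ⊢; tauto)
              · exact oL j h i (by simp only [Finset.mem_union] at hi3 ⊢; tauto)
            · have hj2 : (j ∈ L2 ∨ j ∈ ({m} : Finset ℕ)) ∨ j ∈ R1 := by
                simp only [Finset.mem_union] at hj hj1 hj3 ⊢; tauto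
              rcases hj2 with (h | h) | h
              · exact oM j h i (by simp only [Finset.mem_union] at hi3 ⊢; tauto)
              · rw [Finset.mem_singleton] at h
                subst h
                exact om i (by simp only [Finset.mem_union] at hi3 ⊢; tauto)
              · exact oR j h i hi3
          omega
        rw [f3 j hj3]
        have := hB.mono i (by simp only [Finset.mem_union] at hi3 ⊢; tauto) j
          (by simp only [Finset.mem_union] at hj3 ⊢; tauto) hij
        omega
      · have hi2 : i ∈ L2 ∪ {m} ∪ R1 := by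
          simp only [Finset.mem_union] at hi hi1 hi3 ⊢; tauto
        rw [f2 i hi2]
        by_cases hj1 : j ∈ X ∪ L1
        · exfalso
          have : j < i := by
            rcases Finset.mem_union.1 hj1 with h | h
            · exact oX j h i (by simp only [Finset.mem_union] at hi2 ⊢; tauto)
            · exact oL j h i (by simp only [Finset.mem_union] at hi2 ⊢; tauto)
          omega
        · by_cases hj3 : j ∈ R2 ∪ Y
          · rw [f3 j hj3]; omega
          · rw [f2 j (by simp only [Finset.mem_union] at hj hj1 hj3 ⊢; tauto)]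
  · intro i hi j hj
    rw [f1 i (by simp only [Finset.mem_union]; tauto), f1 j (by simp only [Finset.mem_union]; tauto)]
    exact hA.sx i hi j hj
  · intro i hi j hj
    rw [f3 i (by simp only [Finset.mem_union]; tauto), f3 j (by simp only [Finset.mem_union]; tauto)]
    have := hB.sy i hi j hj
    omega
  · intro i hi j hj
    rw [f1 i (by simp only [Finset.mem_union]; tauto)]
    have hci := hcA i (by simp only [Finset.mem_union]; tauto)
    by_cases hj1 : j ∈ L1
    · rw [f1 j (by simp only [Finset.mem_union]; tauto)]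
      exact hA.px i hi j (by simp only [Finset.mem_union]; tauto)
    · by_cases hj3 : j ∈ R2 ∪ Y
      · rw [f3 j hj3]; omega
      · rw [f2 j (by simp only [Finset.mem_union] at hj hj3 ⊢; tauto)]; omega
  · intro i hi j hj
    rw [f3 j (by simp only [Finset.mem_union]; tauto)]
    by_cases hi1 : i ∈ X ∪ L1
    · rw [f1 i hi1]
      have := hcA i hi1
      omega
    · by_cases hi3 : i ∈ R2
      · rw [f3 i (by simp only [Finset.mem_union]; tauto)]
        have := hB.py i (by simp only [Finset.mem_union]; tauto) j hj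
        omega
      · rw [f2 i (by simp only [Finset.mem_union] at hi hi1 hi3 ⊢; tauto)]; omega
  · -- av
    intro i hi j hj k hk hij hjk hki hVij
    have cls : ∀ x ∈ X ∪ (L1 ∪ L2 ∪ {m} ∪ R1 ∪ R2) ∪ Y,
        x ∈ X ∪ L1 ∪ R1 ∨ x = m ∨ x ∈ L2 ∪ R2 ∪ Y := by
      intro x hx
      simp only [Finset.mem_union, Finset.mem_singleton] at hx ⊢
      tauto
    have vm' : ∀ x ∈ X ∪ (L1 ∪ L2 ∪ {m} ∪ R1 ∪ R2) ∪ Y, V x ≤ V m := by
      intro x hx
      by_cases hxm : x = m
      · rw [hxm]
      · refine le_of_lt (vm x ?_)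
        simp only [Finset.mem_union, Finset.mem_singleton] at hx ⊢
        tauto
    have him : i ≠ m := by
      rintro rfl
      have := vm' j hj
      omega
    have hkm : k ≠ m := by
      rintro rfl
      have := vm' i hi
      omega
    by_cases hjm : j = m
    · subst hjm
      rcases cls i hi with h1 | h1 | h1
      · rcases cls k hk with h2 | h2 | h2
        · exact K3 j (by simp) k h2 hjk
        · exact hkm h2
        · have e1 := vlo i h1
          have e2 := vhi k h2
          omega
      · exact him h1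
      · exact K4 i h1 hij
    · rcases cls i hi with h1 | h1 | h1
      · have hk1 : k ∈ X ∪ L1 ∪ R1 := by
          rcases cls k hk with h2 | h2 | h2
          · exact h2
          · exact absurd h2 hkm
          · have e1 := vlo i h1
            have e2 := vhi k h2
            omega
        rcases cls j hj with h2 | h2 | h2
        · exact hA.av i h1 j h2 k hk1 (K1 i h1 j h2 hij) (K1 j h2 k hk1 hjk) hki hVij
        · exact hjm h2
        · exact K3 j (by simp only [Finset.mem_union] at h2 ⊢; tauto) k hk1 hjk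
      · exact him h1
      · have hj1 : j ∈ L2 ∪ R2 ∪ Y := by
          rcases cls j hj with h2 | h2 | h2
          · exact absurd hij (K3 i (by simp only [Finset.mem_union] at h1 ⊢; tauto) j h2)
          · exact absurd h2 hjm
          · exact h2
        have hk1 : k ∈ L2 ∪ R2 ∪ Y := by
          rcases cls k hk with h2 | h2 | h2
          · exact absurd hjk (K3 j (by simp only [Finset.mem_union] at hj1 ⊢; tauto) k h2)
          · exact absurd h2 hkm
          · exact h2
        exact hB.av i h1 j hj1 k hk1 (K2 i h1 j hj1 hij) (K2 j hj1 k hk1 hjk) hki hVij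

end Pool.Agent.H49.PQS
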