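import Pool.Agent.H49.PQS.Comp

/-!
Adding the maximum when it lies in the last or in the first block.
-/

namespace Pool.Agent.H49.PQS

theorem solv_Y (V : ℕ → ℕ) (X E Y1 Y2 : Finset ℕ) (m : ℕ)
    (o1 : ∀ i ∈ X ∪ E, ∀ j ∈ Y1 ∪ {m} ∪ Y2, i < j)
    (o2 : ∀ i ∈ Y1, i < m) (o3 : ∀ i ∈ Y2, m < i)
    (vm : ∀ i ∈ X ∪ E ∪ Y1 ∪ Y2, V i < V m)
    (v1 : ∀ i ∈ X ∪ E ∪ Y2, ∀ j ∈ Y1, V i < V j)
    (av : ∀ i ∈ Y1, ∀ j ∈ Y1, ∀ k ∈ Y1, i < j → j < k → V i < V k → V k < V j → False)
    (hA : Solv V X E Y2) : Solv V X E (Y1 ∪ {m} ∪ Y2) := by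
  obtain ⟨f, hA⟩ := hA
  set c := (X ∪ E).sup f + 1 with hc
  have hcA : ∀ i ∈ X ∪ E, f i < c := fun i hi => by
    have := Finset.le_sup (f := f) hi
    omega
  set g : ℕ → ℕ := fun i => if i ∈ X ∪ E then f i else c with hg
  have g1 : ∀ i ∈ X ∪ E, g i = f i := fun i hi => by simp only [hg, if_pos hi]
  have g2 : ∀ i ∈ Y1 ∪ {m} ∪ Y2, g i = c := fun i hi => by
    have : i ∉ X ∪ E := fun h => lt_irrefl _ (o1 i h i hi)
    simp only [hg, if_neg this]
  have P1 : ∀ i ∈ Y1 ∪ {m} ∪ Y2, ∀ j ∈ X ∪ E, ¬ prec g i j := by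
    intro i hi j hj h
    unfold prec at h
    rw [g2 i hi, g1 j hj] at h
    have := hcA j hj
    omega
  have P2 : ∀ i ∈ Y1 ∪ {m} ∪ Y2, ∀ j ∈ Y1 ∪ {m} ∪ Y2, prec g i j → j < i := by
    intro i hi j hj h
    unfold prec at h
    rw [g2 i hi, g2 j hj] at h
    omega
  have K : ∀ i ∈ X ∪ E ∪ Y2, ∀ j ∈ X ∪ E ∪ Y2, prec g i j → prec f i j := by
    intro i hi j hj h
    rcases Finset.mem_union.1 hi with hi' | hi' <;> rcases Finset.mem_union.1 hj with hj' | hj'
    · unfold prec at h ⊢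
      rw [g1 i hi', g1 j hj'] at h
      exact h
    · exact Or.inl (hA.py i hi' j hj')
    · exact absurd h (P1 i (Finset.mem_union_right _ hi') j hj')
    · exact Or.inr ⟨hA.sy i hi' j hj', P2 i (Finset.mem_union_right _ hi') j
        (Finset.mem_union_right _ hj') h⟩
  refine ⟨g, ?_, ?_, ?_, ?_, ?_, ?_⟩
  · intro i hi j hj hij
    by_cases hi1 : i ∈ X ∪ E
    · rw [g1 i hi1]
      by_cases hj1 : j ∈ X ∪ E
      · rw [g1 j hj1]
        exact hA.mono i (Finset.mem_union_left _ hi1) j (Finset.mem_union_left _ hj1) hij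
      · rw [g2 j ((Finset.mem_union.1 hj).resolve_left hj1)]
        have := hcA i hi1
        omega
    · have hi2 := (Finset.mem_union.1 hi).resolve_left hi1
      have hj2 : j ∉ X ∪ E := fun h => by
        have := o1 j h i hi2
        omega
      rw [g2 i hi2, g2 j ((Finset.mem_union.1 hj).resolve_left hj2)]
  · intro i hi j hj
    rw [g1 i (Finset.mem_union_left _ hi), g1 j (Finset.mem_union_left _ hj)]
    exact hA.sx i hi j hj
  · intro i hi j hj
    rw [g2 i hi, g2 j hj]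
  · intro i hi j hj
    rw [g1 i (Finset.mem_union_left _ hi)]
    rcases Finset.mem_union.1 hj with hj' | hj'
    · rw [g1 j (Finset.mem_union_right _ hj')]
      exact hA.px i hi j (Finset.mem_union_left _ hj')
    · rw [g2 j hj']
      exact hcA i (Finset.mem_union_left _ hi)
  · intro i hi j hj
    rw [g1 i hi, g2 j hj]
    exact hcA i hi
  · intro i hi j hj k hk hij hjk hki hVij
    have cls : ∀ x ∈ X ∪ E ∪ (Y1 ∪ {m} ∪ Y2), x ∈ X ∪ E ∪ Y2 ∨ x = m ∨ x ∈ Y1 := by
      intro x hx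
      simp only [Finset.mem_union, Finset.mem_singleton] at hx ⊢
      tauto
    have toW : ∀ x ∈ X ∪ E ∪ (Y1 ∪ {m} ∪ Y2), x ∉ Y1 ∪ {m} ∪ Y2 → x ∈ X ∪ E := by
      intro x hx hx2
      exact (Finset.mem_union.1 hx).resolve_right hx2
    have vm' : ∀ x ∈ X ∪ E ∪ (Y1 ∪ {m} ∪ Y2), V x ≤ V m := by
      intro x hx
      by_cases hxm : x = m
      · rw [hxm]
      · refine le_of_lt (vm x ?_)
        simp only [Finset.mem_union, Finset.mem_singleton] at hx ⊢
        tauto
    have hW : ∀ x ∈ Y1 ∪ {m} ∪ Y2, ∀ y ∈ X ∪ E ∪ (Y1 ∪ {m} ∪ Y2), prec g x y →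
        y ∈ Y1 ∪ {m} ∪ Y2 ∧ y < x := by
      intro x hx y hy h
      have hy2 : y ∈ Y1 ∪ {m} ∪ Y2 := by
        by_contra hc2
        exact P1 x hx y (toW y hy hc2) h
      exact ⟨hy2, P2 x hx y hy2 h⟩
    have Y1W : ∀ x ∈ Y1, x ∈ Y1 ∪ {m} ∪ Y2 := fun x hx => by
      simp only [Finset.mem_union]; tauto
    have WY1 : ∀ x ∈ Y1 ∪ {m} ∪ Y2, x < m → x ∈ Y1 := by
      intro x hx hxm
      simp only [Finset.mem_union, Finset.mem_singleton] at hx
      rcases hx with (hx | hx) | hx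
      · exact hx
      · omega
      · have := o3 x hx
        omega
    have him : i ≠ m := by
      rintro rfl
      have := vm' j hj
      omega
    have hkm : k ≠ m := by
      rintro rfl
      have := vm' i hi
      omega
    rcases cls k hk with hk1 | hk1 | hk1
    · -- `k` is not in `Y1`
      have hkW : k ∈ Y1 ∪ {m} ∪ Y2 → m < k := by
        intro h
        by_contra hc2
        have h2 : k ∈ Y1 := WY1 k h (by omega)
        have := v1 k hk1 k h2
        omega
      have hi1 : i ∈ X ∪ E ∪ Y2 := by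
        rcases cls i hi with h | h | h
        · exact h
        · exact absurd h him
        · obtain ⟨a1, a2⟩ := hW i (Y1W i h) j hj hij
          obtain ⟨a3, a4⟩ := hW j a1 k hk hjk
          have := hkW a3
          have := o2 i h
          omega
      have hj1 : j ∈ X ∪ E ∪ Y2 := by
        rcases cls j hj with h | h | h
        · exact h
        · obtain ⟨a3, a4⟩ := hW j (by rw [h]; simp) k hk hjk
          have := hkW a3
          omega
        · obtain ⟨a3, a4⟩ := hW j (Y1W j h) k hk hjk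
          have := hkW a3
          have := o2 j h
          omega
      exact hA.av i hi1 j hj1 k hk1 (K i hi1 j hj1 hij) (K j hj1 k hk1 hjk) hki hVij
    · exact hkm hk1
    · have hi1 : i ∈ Y1 := by
        rcases cls i hi with h | h | h
        · have := v1 i h k hk1
          omega
        · exact absurd h him
        · exact h
      obtain ⟨a1, a2⟩ := hW i (Y1W i hi1) j hj hij
      have hj1 : j ∈ Y1 := WY1 j a1 (by have := o2 i hi1; omega)
      obtain ⟨a3, a4⟩ := hW j a1 k hk hjk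
      exact av k hk1 j hj1 i hi1 a4 a2 hki hVij

theorem solv_X (V : ℕ → ℕ) (X1 X2 E Y : Finset ℕ) (m : ℕ)
    (o1 : ∀ i ∈ X1 ∪ {m} ∪ X2, ∀ j ∈ E ∪ Y, i < j)
    (o2 : ∀ i ∈ X1, i < m) (o3 : ∀ i ∈ X2, m < i)
    (vm : ∀ i ∈ X1 ∪ X2 ∪ E ∪ Y, V i < V m)
    (v1 : ∀ i ∈ X1 ∪ E ∪ Y, ∀ j ∈ X2, V j < V i)
    (av : ∀ i ∈ X2, ∀ j ∈ X2, ∀ k ∈ X2, i < j → j < k → V i < V k → V k < V j → False)
    (hA : Solv V X1 E Y) : Solv V (X1 ∪ {m} ∪ X2) E Y := by
  obtain ⟨f, hA⟩ := hA
  set g : ℕ → ℕ := fun i => if i ∈ E ∪ Y then f i + 1 else 0 with hg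
  have g1 : ∀ i ∈ E ∪ Y, g i = f i + 1 := fun i hi => by simp only [hg, if_pos hi]
  have g2 : ∀ i ∈ X1 ∪ {m} ∪ X2, g i = 0 := fun i hi => by
    have : i ∉ E ∪ Y := fun h => lt_irrefl _ (o1 i hi i h)
    simp only [hg, if_neg this]
  have P1 : ∀ i ∈ E ∪ Y, ∀ j ∈ X1 ∪ {m} ∪ X2, ¬ prec g i j := by
    intro i hi j hj h
    unfold prec at h
    rw [g1 i hi, g2 j hj] at h
    omega
  have P2 : ∀ i ∈ X1 ∪ {m} ∪ X2, ∀ j ∈ X1 ∪ {m} ∪ X2, prec g i j → j < i := by
    intro i hi j hj h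
    unfold prec at h
    rw [g2 i hi, g2 j hj] at h
    omega
  have K : ∀ i ∈ X1 ∪ E ∪ Y, ∀ j ∈ X1 ∪ E ∪ Y, prec g i j → prec f i j := by
    intro i hi j hj h
    rw [Finset.union_assoc] at hi hj
    rcases Finset.mem_union.1 hi with hi' | hi' <;> rcases Finset.mem_union.1 hj with hj' | hj'
    · refine Or.inr ⟨hA.sx i hi' j hj', P2 i ?_ j ?_ h⟩ <;>
        (simp only [Finset.mem_union]; tauto)
    · exact Or.inl (hA.px i hi' j hj')
    · exact absurd h (P1 i hi' j (by simp only [Finset.mem_union]; tauto))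
    · unfold prec at h ⊢
      rw [g1 i hi', g1 j hj'] at h
      omega
  refine ⟨g, ?_, ?_, ?_, ?_, ?_, ?_⟩
  · intro i hi j hj hij
    rw [Finset.union_assoc] at hi hj
    by_cases hi1 : i ∈ E ∪ Y
    · rw [g1 i hi1]
      have hj1 : j ∈ E ∪ Y := by
        by_contra hj1
        have := o1 j ((Finset.mem_union.1 hj).resolve_right hj1) i hi1
        omega
      rw [g1 j hj1]
      have := hA.mono i (by simp only [Finset.mem_union] at hi1 ⊢; tauto) j
        (by simp only [Finset.mem_union] at hj1 ⊢; tauto) hij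
      omega
    · rw [g2 i ((Finset.mem_union.1 hi).resolve_right hi1)]
      omega
  · intro i hi j hj
    rw [g2 i hi, g2 j hj]
  · intro i hi j hj
    rw [g1 i (Finset.mem_union_right _ hi), g1 j (Finset.mem_union_right _ hj)]
    have := hA.sy i hi j hj
    omega
  · intro i hi j hj
    rw [g2 i hi, g1 j hj]
    omega
  · intro i hi j hj
    rw [g1 j (Finset.mem_union_right _ hj)]
    rcases Finset.mem_union.1 hi with hi' | hi'
    · rw [g2 i hi']
      omega
    · rw [g1 i (Finset.mem_union_left _ hi')]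
      have := hA.py i (Finset.mem_union_right _ hi') j hj
      omega
  · intro i hi j hj k hk hij hjk hki hVij
    have cls : ∀ x ∈ (X1 ∪ {m} ∪ X2) ∪ E ∪ Y, x ∈ X1 ∪ E ∪ Y ∨ x = m ∨ x ∈ X2 := by
      intro x hx
      simp only [Finset.mem_union, Finset.mem_singleton] at hx ⊢
      tauto
    have toW : ∀ x ∈ (X1 ∪ {m} ∪ X2) ∪ E ∪ Y, x ∉ X1 ∪ {m} ∪ X2 → x ∈ E ∪ Y := by
      intro x hx hx2
      rw [Finset.union_assoc] at hx
      exact (Finset.mem_union.1 hx).resolve_left hx2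
    have vm' : ∀ x ∈ (X1 ∪ {m} ∪ X2) ∪ E ∪ Y, V x ≤ V m := by
      intro x hx
      by_cases hxm : x = m
      · rw [hxm]
      · refine le_of_lt (vm x ?_)
        simp only [Finset.mem_union, Finset.mem_singleton] at hx ⊢
        tauto
    have hW : ∀ y ∈ X1 ∪ {m} ∪ X2, ∀ x ∈ (X1 ∪ {m} ∪ X2) ∪ E ∪ Y, prec g x y →
        x ∈ X1 ∪ {m} ∪ X2 ∧ y < x := by
      intro y hy x hx h
      have hx2 : x ∈ X1 ∪ {m} ∪ X2 := by
        by_contra hc2
        exact P1 x (toW x hx hc2) y hy h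
      exact ⟨hx2, P2 x hx2 y hy h⟩
    have X2W : ∀ x ∈ X2, x ∈ X1 ∪ {m} ∪ X2 := fun x hx => by
      simp only [Finset.mem_union]; tauto
    have WX2 : ∀ x ∈ X1 ∪ {m} ∪ X2, m < x → x ∈ X2 := by
      intro x hx hxm
      simp only [Finset.mem_union, Finset.mem_singleton] at hx
      rcases hx with (hx | hx) | hx
      · have := o2 x hx
        omega
      · omega
      · exact hx
    have him : i ≠ m := by
      rintro rfl
      have := vm' j hj
      omega
    have hkm : k ≠ m := by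
      rintro rfl
      have := vm' i hi
      omega
    rcases cls i hi with hi1 | hi1 | hi1
    · have hn : i ∉ X2 := fun h => by
        have := v1 i hi1 i h
        omega
      have hj1 : j ∈ X1 ∪ E ∪ Y := by
        rcases cls j hj with h | h | h
        · exact h
        · obtain ⟨a1, a2⟩ := hW j (by rw [h]; simp) i hi hij
          exact absurd (WX2 i a1 (by omega)) hn
        · obtain ⟨a1, a2⟩ := hW j (X2W j h) i hi hij
          have := o3 j h
          exact absurd (WX2 i a1 (by omega)) hn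
      have hk1 : k ∈ X1 ∪ E ∪ Y := by
        rcases cls k hk with h | h | h
        · exact h
        · exact absurd h hkm
        · obtain ⟨a1, a2⟩ := hW k (X2W k h) j hj hjk
          obtain ⟨a3, a4⟩ := hW j a1 i hi hij
          have := o3 k h
          exact absurd (WX2 i a3 (by omega)) hn
      exact hA.av i hi1 j hj1 k hk1 (K i hi1 j hj1 hij) (K j hj1 k hk1 hjk) hki hVij
    · exact him hi1
    · have hk1 : k ∈ X2 := by
        rcases cls k hk with h | h | h
        · have := v1 k h i hi1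
          omega
        · exact absurd h hkm
        · exact h
      obtain ⟨a1, a2⟩ := hW k (X2W k hk1) j hj hjk
      have hj1 : j ∈ X2 := WX2 j a1 (by have := o3 k hk1; omega)
      obtain ⟨a3, a4⟩ := hW j a1 i hi hij
      exact av k hk1 j hj1 i hi1 a2 a4 hki hVij

end Pool.Agent.H49.PQS
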