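import Pool.Agent.H49.PQS.Ck00
import Pool.Agent.H49.PQS.Ck01
import Pool.Agent.H49.PQS.Ck02
import Pool.Agent.H49.PQS.Ck03
import Pool.Agent.H49.PQS.Ck04
import Pool.Agent.H49.PQS.Ck05
import Pool.Agent.H49.PQS.Ck06
import Pool.Agent.H49.PQS.Ck07
import Pool.Agent.H49.PQS.Ck08
import Pool.Agent.H49.PQS.Ck09
import Pool.Agent.H49.PQS.Ck10
import Pool.Agent.H49.PQS.Ck11

/-!
All pairs of certificates are covered.
-/

namespace Pool.Agent.H49.PQS

def Cov (u : UPat) (R : List PE × List ℕ) : Prop :=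
  ∃ Ps cs, R ∈ Ps ∧ chk TT UT u Ps cs = true

def CovR (u : UPat) (s e : ℕ) : Prop := ∀ i R, s ≤ i → i < e → PS[i]? = some R → Cov u R

theorem covR_sub {u : UPat} {s n : ℕ} {cs : List ℕ} (h : chk TT UT u (sub s n) cs = true) :
    CovR u s (s + n) := by
  intro i R h1 h2 h3
  refine ⟨_, cs, ?_, h⟩
  have h4 : (sub s n)[i - s]? = some R := by
    unfold sub
    rw [List.getElem?_take, if_pos (by omega), List.getElem?_drop]
    rw [show s + (i - s) = i by omega]
    exact h3
  exact List.mem_of_getElem? h4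

theorem covR_trans {u : UPat} {s e f : ℕ} (h1 : CovR u s e) (h2 : CovR u e f) : CovR u s f := by
  intro i R g1 g2 g3
  by_cases h : i < e
  · exact h1 i R g1 h g3
  · exact h2 i R (by omega) g2 g3

theorem cov0 : CovR (gU 0) 0 23 :=
  covR_sub c0_0

theorem cov1 : CovR (gU 1) 0 23 :=
  covR_sub c1_0

theorem cov2 : CovR (gU 2) 0 23 :=
  covR_sub c2_0

theorem cov3 : CovR (gU 3) 0 23 :=
  covR_sub c3_0

theorem cov4 : CovR (gU 4) 0 23 :=
  covR_sub c4_0

theorem cov5 : CovR (gU 5) 0 23 :=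
  covR_sub c5_0

theorem cov6 : CovR (gU 6) 0 23 :=
  covR_sub c6_0

theorem cov7 : CovR (gU 7) 0 23 :=
  covR_sub c7_0

theorem cov8 : CovR (gU 8) 0 23 :=
  covR_sub c8_0

theorem cov9 : CovR (gU 9) 0 23 :=
  covR_trans (covR_sub c9_0)
    (covR_sub c9_20)

theorem cov10 : CovR (gU 10) 0 23 :=
  covR_sub c10_0

theorem cov11 : CovR (gU 11) 0 23 :=
  covR_sub c11_0

theorem cov12 : CovR (gU 12) 0 23 :=
  covR_sub c12_0

theorem cov13 : CovR (gU 13) 0 23 :=
  covR_sub c13_0

theorem cov14 : CovR (gU 14) 0 23 :=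
  covR_sub c14_0

theorem cov15 : CovR (gU 15) 0 23 :=
  covR_trans (covR_trans (covR_sub c15_0)
    (covR_sub c15_16))
    (covR_sub c15_19)

theorem cov16 : CovR (gU 16) 0 23 :=
  covR_sub c16_0

theorem cov17 : CovR (gU 17) 0 23 :=
  covR_trans (covR_sub c17_0)
    (covR_sub c17_18)

theorem cov18 : CovR (gU 18) 0 23 :=
  covR_trans (covR_sub c18_0)
    (covR_sub c18_19)

theorem cov19 : CovR (gU 19) 0 23 :=
  covR_trans (covR_trans (covR_sub c19_0)
    (covR_sub c19_14))
    (covR_sub c19_18)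

theorem cov20 : CovR (gU 20) 0 23 :=
  covR_trans (covR_sub c20_0)
    (covR_sub c20_16)

theorem cov21 : CovR (gU 21) 0 23 :=
  covR_trans (covR_sub c21_0)
    (covR_sub c21_18)

theorem cov22 : CovR (gU 22) 0 23 :=
  covR_trans (covR_trans (covR_trans (covR_trans (covR_trans (covR_sub c22_0)
    (covR_sub c22_9))
    (covR_sub c22_14))
    (covR_sub c22_16))
    (covR_sub c22_19))
    (covR_sub c22_20)

theorem cov23 : CovR (gU 23) 0 23 :=
  covR_trans (covR_sub c23_0)
    (covR_sub c23_15)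

theorem cov24 : CovR (gU 24) 0 23 :=
  covR_trans (covR_sub c24_0)
    (covR_sub c24_13)

theorem cov25 : CovR (gU 25) 0 23 :=
  covR_sub c25_0

theorem cov26 : CovR (gU 26) 0 23 :=
  covR_sub c26_0

theorem cov27 : CovR (gU 27) 0 23 :=
  covR_sub c27_0

theorem cov28 : CovR (gU 28) 0 23 :=
  covR_sub c28_0

theorem cov29 : CovR (gU 29) 0 23 :=
  covR_sub c29_0

theorem cov30 : CovR (gU 30) 0 23 :=
  covR_sub c30_0

theorem cov_idx (i : ℕ) (hi : i < 31) : CovR (gU i) 0 23 := by
  interval_cases i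
  · exact cov0
  · exact cov1
  · exact cov2
  · exact cov3
  · exact cov4
  · exact cov5
  · exact cov6
  · exact cov7
  · exact cov8
  · exact cov9
  · exact cov10
  · exact cov11
  · exact cov12
  · exact cov13
  · exact cov14
  · exact cov15
  · exact cov16
  · exact cov17
  · exact cov18
  · exact cov19
  · exact cov20
  · exact cov21
  · exact cov22
  · exact cov23
  · exact cov24
  · exact cov25
  · exact cov26
  · exact cov27
  · exact cov28
  · exact cov29
  · exact cov30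

theorem cov_all : ∀ u ∈ UT, ∀ R ∈ PS, Cov u R := by
  intro u hu R hR
  obtain ⟨i, hi, rfl⟩ := List.mem_iff_getElem.1 hu
  obtain ⟨j, hj, rfl⟩ := List.mem_iff_getElem.1 hR
  have hi' : i < 31 := lt_of_lt_of_eq hi (by decide +kernel)
  have hj' : j < 23 := lt_of_lt_of_eq hj (by decide +kernel)
  have h := cov_idx i hi' j (PS[j]) (Nat.zero_le _) hj' (List.getElem?_eq_getElem hj)
  have e : gU i = UT[i] := by
    unfold gU
    rw [List.getD_eq_getElem?_getD, List.getElem?_eq_getElem hi]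
    rfl
  rwa [e] at h

end Pool.Agent.H49.PQS
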