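import Pool.Agent.H49.PQS.BL

/-!
The basis consists of the 108 permutations.
-/

namespace Pool.Agent.H49.PQS

theorem del_of_sublist {s σ : List ℕ} (h : s.Sublist σ) : s.length < σ.length →
    ∃ i < σ.length, s.Sublist (σ.eraseIdx i) := by
  induction h with
  | slnil => intro h; exact absurd h (lt_irrefl _)
  | cons a h _ =>
    intro _
    exact ⟨0, by simp, by simpa using h⟩
  | cons_cons a h ih =>
    intro hl
    simp only [List.length_cons] at hl
    obtain ⟨i, hi, h2⟩ := ih (by omega)
    refine ⟨i + 1, by simpa using hi, ?_⟩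
    rw [List.eraseIdx_cons_succ]
    exact h2.cons_cons _

theorem mono_id (n : ℕ) (φ : ℕ → ℕ) (h1 : ∀ v, 1 ≤ v → v ≤ n → 1 ≤ φ v ∧ φ v ≤ n)
    (h2 : ∀ u v, 1 ≤ u → u < v → v ≤ n → φ u < φ v) : ∀ v, 1 ≤ v → v ≤ n → φ v = v := by
  have lo : ∀ v, 1 ≤ v → v ≤ n → v ≤ φ v := by
    intro v
    induction v with
    | zero => intro h; omega
    | succ v ih =>
      intro _ h
      by_cases h0 : v = 0
      · subst h0
        exact (h1 1 le_rfl h).1
      · have := ih (by omega) (by omega)
        have := h2 v (v + 1) (by omega) (by omega) h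
        omega
  have hi : ∀ k, k < n → φ (n - k) ≤ n - k := by
    intro k
    induction k with
    | zero =>
      intro h
      exact (h1 n (by omega) le_rfl).2
    | succ k ih =>
      intro h
      have := ih (by omega)
      have := h2 (n - (k + 1)) (n - k) (by omega) (by omega) (by omega)
      omega
  intro v hv hvn
  have h3 := lo v hv hvn
  have h4 := hi (n - v) (by omega)
  rw [show n - (n - v) = v by omega] at h4
  omega

theorem IsPerm.mem {σ : List ℕ} (h : IsPerm σ) (v : ℕ) : v ∈ σ ↔ 1 ≤ v ∧ v ≤ σ.length := by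
  rw [h.mem_iff, List.mem_range'_1]
  omega

theorem IsPerm.nodup {σ : List ℕ} (h : IsPerm σ) : σ.Nodup :=
  h.nodup_iff.2 (List.nodup_range' (s := 1) (step := 1) (n := σ.length))

theorem getD_mem {σ : List ℕ} {i : ℕ} (hi : i < σ.length) : σ.getD i 0 ∈ σ := by
  rw [List.getD_eq_getElem?_getD, List.getElem?_eq_getElem hi]
  exact List.getElem_mem hi

theorem getD_idxOf {σ : List ℕ} {v : ℕ} (hv : v ∈ σ) : σ.getD (σ.idxOf v) 0 = v := by
  have h := List.idxOf_lt_length_of_mem hv
  rw [List.getD_eq_getElem?_getD, List.getElem?_eq_getElem h]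
  simp

theorem iso_perm_eq {s t : List ℕ} (hs : IsPerm s) (ht : IsPerm t) (hl : s.length = t.length)
    (hiso : ∀ i < t.length, ∀ j < t.length, (s.getD i 0 < s.getD j 0 ↔ t.getD i 0 < t.getD j 0)) :
    s = t := by
  have key := mono_id s.length (fun v => t.getD (s.idxOf v) 0)
    (by
      intro v hv hvn
      have h1 := List.idxOf_lt_length_of_mem ((hs.mem v).2 ⟨hv, hvn⟩)
      have h2 := (ht.mem _).1 (getD_mem (σ := t) (i := s.idxOf v) (by omega))
      omega)
    (by
      intro u v hu huv hv
      have m1 : u ∈ s := (hs.mem u).2 ⟨hu, by omega⟩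
      have m2 : v ∈ s := (hs.mem v).2 ⟨by omega, hv⟩
      have h1 := List.idxOf_lt_length_of_mem m1
      have h2 := List.idxOf_lt_length_of_mem m2
      refine (hiso _ (by omega) _ (by omega)).1 ?_
      rw [getD_idxOf m1, getD_idxOf m2]
      exact huv)
  apply List.ext_getElem hl
  intro i h1 h2
  have h3 := (hs.mem s[i]).1 (List.getElem_mem h1)
  have h4 := key s[i] h3.1 h3.2
  rw [List.Nodup.idxOf_getElem hs.nodup i h1, List.getD_eq_getElem?_getD,
    List.getElem?_eq_getElem h2] at h4
  exact h4.symm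

theorem main_perm {σ : List ℕ} (hp : IsPerm σ) (h : ¬ Blk σ) : ∃ β ∈ BL, Contains σ β := by
  have h1 : ¬ Solv (valOf σ) ∅ (Finset.range σ.length) ∅ := fun hs => h (blk_of_solv hs)
  have h2 : ¬ TFree (valOf σ) ∅ (Finset.range σ.length) ∅ := by
    intro hT
    apply h1
    refine main (valOf σ) _ ∅ (Finset.range σ.length) ∅ rfl ?_ ?_ hT
    · constructor
      · intro i hi
        exact absurd hi (Finset.notMem_empty _)
      · intro i _ j hj
        exact absurd hj (Finset.notMem_empty _)
    · intro i hi j hj hV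
      have hi' : i < σ.length := by simpa using hi
      have hj' : j < σ.length := by simpa using hj
      unfold valOf at hV
      rw [List.getD_eq_getElem?_getD, List.getElem?_eq_getElem hi', List.getD_eq_getElem?_getD,
        List.getElem?_eq_getElem hj'] at hV
      exact (hp.nodup.getElem_inj_iff).1 hV
  unfold TFree at h2
  push Not at h2
  obtain ⟨t, ht, q, hq⟩ := h2
  obtain ⟨h3, h4⟩ := contains_of_emb ht hq
  refine ⟨permOf t, ?_, h3⟩
  rw [← BB_eq]
  refine List.mem_map.2 ⟨t, ?_, rfl⟩
  rw [List.mem_filter]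
  refine ⟨ht, ?_⟩
  rw [List.all_eq_true]
  intro e he
  rw [h4 e he]
  rfl

theorem BL_isPerm {β : List ℕ} (h : β ∈ BL) : IsPerm β := by
  have := List.all_eq_true.1 BL_perm β h
  have h2 : β.Perm (List.range' 1 β.length) := of_decide_eq_true this
  exact h2

theorem BL_notBlk {β : List ℕ} (h : β ∈ BL) : ¬ Blk β := by
  have h1 := List.all_eq_true.1 BL_srch β h
  intro h2
  rw [← srch_iff] at h2
  rw [h2] at h1
  exact absurd h1 (by simp)

theorem basis_eq : Basis = {σ | σ ∈ BL} := by
  ext σ
  constructor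
  · rintro ⟨hp, hns, hmin⟩
    obtain ⟨β, hβ, hc⟩ := main_perm hp (fun h => hns (sortable_of_blk hp h))
    by_cases he : β = σ
    · rw [← he]
      exact hβ
    · exact absurd (blk_of_sortable (hmin β (BL_isPerm hβ) hc he)) (BL_notBlk hβ)
  · intro hσ
    have hp := BL_isPerm hσ
    refine ⟨hp, fun h => BL_notBlk hσ (blk_of_sortable h), ?_⟩
    rintro τ hτ ⟨s, h1, h2, h3⟩ hne
    by_cases hl : s.length = σ.length
    · have h4 := h1.eq_of_length hl
      subst h4
      exact absurd (iso_perm_eq hp hτ h2 h3).symm hne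
    · have h4 : s.length < σ.length := lt_of_le_of_ne h1.length_le hl
      obtain ⟨i, hi, h5⟩ := del_of_sublist h1 h4
      have h6 := List.all_eq_true.1 (List.all_eq_true.1 BL_del σ hσ) i (List.mem_range.2 hi)
      rw [srch_iff] at h6
      exact sortable_of_blk hτ (blk_iso (blk_sub h6 h5) (hp.nodup.sublist h1) h2 h3)

end Pool.Agent.H49.PQS
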