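import Pool.Agent.H49.PQS.Main

/-!
The main induction: a configuration without obstructions has a good division.
-/

namespace Pool.Agent.H49.PQS

section
variable {V : ℕ → ℕ} {X E Y : Finset ℕ} {m : ℕ}

/-- what the induction provides -/
def IH (V : ℕ → ℕ) (X E Y : Finset ℕ) (m : ℕ) : Prop :=
  ∀ X' E' Y' : Finset ℕ, X' ∪ E' ∪ Y' ⊆ (X ∪ E ∪ Y).erase m → Ord X' E' Y' →
    TFree V X' E' Y' → Solv V X' E' Y'

theorem no_pok (ho : Ord X E Y) (hm : m ∈ E)
    (hinj : ∀ i ∈ X ∪ E ∪ Y, ∀ j ∈ X ∪ E ∪ Y, V i = V j → i = j)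
    (htop : ∀ i ∈ X ∪ E ∪ Y, i ≠ m → V i < V m) (hT : TFree V X E Y) {bd : ℕ}
    (hU : ∀ u ∈ UT, ∀ q, Emb (memC X E Y m) V u.px (u.pm ++ u.pr) q → bd ≤ V (q u.mi))
    {u : UPat} (hu : u ∈ UT) {p : ℕ → ℕ} (hp : Emb (memC X E Y m) V u.px (u.pm ++ u.pr) p)
    (hb : V (p u.mi) = bd) : ∀ R ∈ PS, ∀ q, ¬ POK V (memC X E Y m) bd R.1 q := by
  intro R hR q hq
  have hC : Ctx V (memC X E Y m) TT UT bd := by
    refine ⟨memC_ord ho hm, ?_, ?_, free_of_tfree hm hT, hU, fun u hu => (uok hu).1.mi⟩
    · intro l l' r r' h h' hV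
      exact hinj r (memC_mem hm h) r' (memC_mem hm h') hV
    · intro l r r' h hl h'
      have h2 : r' = m := by
        rcases h' with ⟨g, _⟩ | ⟨g, _⟩ | ⟨_, g⟩ | ⟨g, _⟩ | ⟨g, _⟩
        · exact absurd g (by decide)
        · exact absurd g (by decide)
        · exact g
        · exact absurd g (by decide)
        · exact absurd g (by decide)
      rw [h2]
      refine htop r (memC_mem hm h) ?_
      rintro rfl
      have hr : memC X E Y r 2 r := Or.inr (Or.inr (Or.inl ⟨rfl, rfl⟩))
      rcases Nat.lt_trichotomy l 2 with h3 | h3 | h3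
      · exact absurd (memC_ord ho hm l 2 r r h hr h3) (lt_irrefl _)
      · exact hl h3
      · exact absurd (memC_ord ho hm 2 l r r hr h h3) (lt_irrefl _)
  obtain ⟨Ps, cs, hRP, hchk⟩ := cov_all u hu R hR
  exact chk_sound hC (uok hu).1 hchk R hRP q hq p hp hb

theorem step_mid (ho : Ord X E Y) (hm : m ∈ E)
    (hinj : ∀ i ∈ X ∪ E ∪ Y, ∀ j ∈ X ∪ E ∪ Y, V i = V j → i = j)
    (htop : ∀ i ∈ X ∪ E ∪ Y, i ≠ m → V i < V m) (hT : TFree V X E Y) (ih : IH V X E Y m) :
    Solv V X E Y := by
  classical
  have oX : ∀ i ∈ X, i < m := fun i hi => ho.1 i hi m (Finset.mem_union_left _ hm)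
  have oY : ∀ i ∈ Y, m < i := fun i hi => ho.2 m (Finset.mem_union_right _ hm) i hi
  -- the threshold
  obtain ⟨bd, hU, hbm, hbd⟩ : ∃ bd, (∀ u ∈ UT, ∀ q,
      Emb (memC X E Y m) V u.px (u.pm ++ u.pr) q → bd ≤ V (q u.mi)) ∧ bd ≤ V m ∧
      (bd = V m ∨ ∀ R ∈ PS, ∀ q, ¬ POK V (memC X E Y m) bd R.1 q) := by
    by_cases hex : ∃ z, ∃ u ∈ UT, ∃ p, Emb (memC X E Y m) V u.px (u.pm ++ u.pr) p ∧
        V (p u.mi) = z
    · obtain ⟨u, hu, p, hp, hz⟩ := Nat.find_spec hex
      have hmin : ∀ u ∈ UT, ∀ q, Emb (memC X E Y m) V u.px (u.pm ++ u.pr) q →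
          Nat.find hex ≤ V (q u.mi) := fun u hu q hq => Nat.find_min' hex ⟨u, hu, q, hq, rfl⟩
      refine ⟨Nat.find hex, hmin, ?_, Or.inr (no_pok ho hm hinj htop hT hmin hu hp hz)⟩
      rw [← hz]
      obtain ⟨o1, _⟩ := uok hu
      have w4 : u.mi ∈ u.px.map Prod.fst := by
        rw [o1.hx, o1.eq, ← o1.hy]
        exact List.mem_append_left _ o1.mi
      obtain ⟨e, he, hee⟩ := List.mem_map.1 w4
      have h1 := memC_mem hm (hp.1 e he)
      rw [hee] at h1
      by_cases h2 : p u.mi = m
      · rw [h2]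
      · exact le_of_lt (htop _ h1 h2)
    · refine ⟨V m, ?_, le_rfl, Or.inl rfl⟩
      intro u hu q hq
      exact absurd ⟨_, u, hu, q, hq, rfl⟩ hex
  -- consequences
  have cX : ∀ i ∈ X, V i < bd := by
    intro i hi
    have hiS : i ∈ X ∪ E ∪ Y := by simp only [Finset.mem_union]; tauto
    rcases hbd with h | h
    · rw [h]
      exact htop i hiS (ne_of_lt (oX i hi))
    · by_contra hc
      have hR : ([PE.mk 8 0 1 1 1], [1]) ∈ PS := by
        have : PS[0]'(by decide) = ([PE.mk 8 0 1 1 1], [1]) := rfl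
        rw [← this]
        exact List.getElem_mem _
      refine h _ hR (fun _ => i) ⟨?_, ?_, ?_, ?_, ?_⟩
      · intro e he
        rw [List.mem_singleton] at he
        subst he
        exact Or.inl ⟨rfl, hi⟩
      · intro e he _
        omega
      · intro e he h2
        rw [List.mem_singleton] at he
        subst he
        exact absurd h2 (by decide)
      · intro e he e' he' h2
        rw [List.mem_singleton] at he he'
        subst he he'
        exact absurd h2 (lt_irrefl _)
      · intro e he e' he' h2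
        rw [List.mem_singleton] at he he'
        subst he he'
        exact absurd h2 (lt_irrefl _)
  have cY : ∀ i ∈ Y, bd ≤ V i := by
    intro i hi
    have hiS : i ∈ X ∪ E ∪ Y := by simp only [Finset.mem_union]; tauto
    have hu0 : UT[0]'(by decide) = ⟨[(0, 2), (1, 4)], [0, 1], [1, 0], [1], [0], 1⟩ := rfl
    have hu : (⟨[(0, 2), (1, 4)], [0, 1], [1, 0], [1], [0], 1⟩ : UPat) ∈ UT := by
      rw [← hu0]
      exact List.getElem_mem _
    have := hU _ hu (fun j => if j = 0 then m else i) (by
      refine ⟨?_, ?_, ?_⟩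
      · intro e he
        simp only [List.mem_cons, List.not_mem_nil, or_false] at he
        rcases he with rfl | rfl
        · exact Or.inr (Or.inr (Or.inl ⟨rfl, rfl⟩))
        · exact Or.inr (Or.inr (Or.inr (Or.inr ⟨rfl, hi⟩)))
      · simpa using oY i hi
      · simpa using htop i hiS (ne_of_gt (oY i hi)))
    simpa using this
  have cInv : ∀ l, (l = 1 ∨ l = 3) → ∀ i j, memC X E Y m l i → memC X E Y m l j → V i < bd →
      bd ≤ V j → i < j := by
    intro l hl i j hi hj h1 h2
    by_contra hc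
    have hne : i ≠ j := by
      rintro rfl
      omega
    have hjm : j ≠ m := by
      rcases hl with rfl | rfl
      · rcases hj with ⟨g, _⟩ | ⟨_, _, g⟩ | ⟨g, _⟩ | ⟨g, _⟩ | ⟨g, _⟩ <;> omega
      · rcases hj with ⟨g, _⟩ | ⟨g, _⟩ | ⟨g, _⟩ | ⟨_, _, g⟩ | ⟨g, _⟩ <;> omega
    rcases hbd with h | h
    · have := htop j (memC_mem hm hj) hjm
      omega
    · obtain ⟨R, hR, hR1⟩ : ∃ R ∈ PS, R.1 = [PE.mk 8 l 1 2 1, PE.mk 9 l 2 1 2] := by
        rcases hl with rfl | rfl
        · exact ⟨PS[21]'(by decide), List.getElem_mem _, rfl⟩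
        · exact ⟨PS[22]'(by decide), List.getElem_mem _, rfl⟩
      refine h _ hR (fun x => if x = 1 then j else i) ?_
      rw [hR1]
      have hji : j < i := by omega
      have hV : V i < V j := by omega
      refine ⟨?_, ?_, ?_, ?_, ?_⟩
      · intro e he
        simp only [List.mem_cons, List.not_mem_nil, or_false] at he
        rcases he with rfl | rfl
        · exact hj
        · exact hi
      · intro e he h3
        simp only [List.mem_cons, List.not_mem_nil, or_false] at he
        rcases he with rfl | rfl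
        · exact h2
        · exact absurd h3 (by simp)
      · intro e he h3
        simp only [List.mem_cons, List.not_mem_nil, or_false] at he
        rcases he with rfl | rfl
        · exact absurd h3 (by simp)
        · exact h1
      · intro e he e' he' h3
        simp only [List.mem_cons, List.not_mem_nil, or_false] at he he'
        rcases he with rfl | rfl <;> rcases he' with rfl | rfl
        · exact absurd h3 (lt_irrefl _)
        · exact hji
        · exact absurd h3 (by simp)
        · exact absurd h3 (lt_irrefl _)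
      · intro e he e' he' h3
        simp only [List.mem_cons, List.not_mem_nil, or_false] at he he'
        rcases he with rfl | rfl <;> rcases he' with rfl | rfl
        · exact absurd h3 (lt_irrefl _)
        · exact absurd h3 (by simp)
        · exact hV
        · exact absurd h3 (lt_irrefl _)
  -- the parts
  set L1 := E.filter (fun i => i < m ∧ V i < bd) with hL1
  set L2 := E.filter (fun i => i < m ∧ bd ≤ V i) with hL2
  set R1 := E.filter (fun i => m < i ∧ V i < bd) with hR1
  set R2 := E.filter (fun i => m < i ∧ bd ≤ V i) with hR2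
  have mL1 : ∀ i, i ∈ L1 ↔ i ∈ E ∧ i < m ∧ V i < bd := fun i => by rw [hL1, Finset.mem_filter]
  have mL2 : ∀ i, i ∈ L2 ↔ i ∈ E ∧ i < m ∧ bd ≤ V i := fun i => by rw [hL2, Finset.mem_filter]
  have mR1 : ∀ i, i ∈ R1 ↔ i ∈ E ∧ m < i ∧ V i < bd := fun i => by rw [hR1, Finset.mem_filter]
  have mR2 : ∀ i, i ∈ R2 ↔ i ∈ E ∧ m < i ∧ bd ≤ V i := fun i => by rw [hR2, Finset.mem_filter]
  have hE : E = L1 ∪ L2 ∪ {m} ∪ R1 ∪ R2 := by
    ext i
    simp only [Finset.mem_union, Finset.mem_singleton, mL1, mL2, mR1, mR2]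
    constructor
    · intro hi
      rcases Nat.lt_trichotomy i m with h1 | h1 | h1 <;> rcases Nat.lt_or_ge (V i) bd with h2 | h2
      · tauto
      · tauto
      · tauto
      · tauto
      · tauto
      · tauto
    · rintro ((((h | h) | h) | h) | h)
      · exact h.1
      · exact h.1
      · rw [h]; exact hm
      · exact h.1
      · exact h.1
  have hA : Solv V X L1 R1 := by
    refine ih X L1 R1 ?_ ⟨?_, ?_⟩ ?_
    · intro i hi
      simp only [Finset.mem_union, mL1, mR1, Finset.mem_erase] at hi ⊢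
      rcases hi with (hi | hi) | hi
      · exact ⟨ne_of_lt (oX i hi), by tauto⟩
      · exact ⟨ne_of_lt hi.2.1, by tauto⟩
      · exact ⟨ne_of_gt hi.2.1, by tauto⟩
    · intro i hi j hj
      refine ho.1 i hi j (Finset.mem_union_left _ ?_)
      simp only [Finset.mem_union, mL1, mR1] at hj
      tauto
    · intro i hi j hj
      have h1 := (mR1 j).1 hj
      rcases Finset.mem_union.1 hi with hi | hi
      · exact lt_trans (oX i hi) h1.2.1
      · exact lt_trans ((mL1 i).1 hi).2.1 h1.2.1
    · refine chkD_sound hm ho hT (fun i hi => ?_) (fun i hi => ?_) ?_ hbm hU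
      · exact ⟨((mL1 i).1 hi).1, ((mL1 i).1 hi).2.1⟩
      · exact ⟨((mR1 i).1 hi).1, ((mR1 i).1 hi).2.1⟩
      · intro i hi
        simp only [Finset.mem_union] at hi
        rcases hi with (hi | hi) | hi
        · exact cX i hi
        · exact ((mL1 i).1 hi).2.2
        · exact ((mR1 i).1 hi).2.2
  have hB : Solv V L2 R2 Y := by
    rcases hbd with h | h
    · have e1 : L2 = ∅ := by
        rw [Finset.eq_empty_iff_forall_notMem]
        intro i hi
        have h1 := (mL2 i).1 hi
        have := htop i (by simp only [Finset.mem_union]; tauto) (ne_of_lt h1.2.1)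
        omega
      have e2 : R2 = ∅ := by
        rw [Finset.eq_empty_iff_forall_notMem]
        intro i hi
        have h1 := (mR2 i).1 hi
        have := htop i (by simp only [Finset.mem_union]; tauto) (ne_of_gt h1.2.1)
        omega
      have e3 : Y = ∅ := by
        rw [Finset.eq_empty_iff_forall_notMem]
        intro i hi
        have := htop i (by simp only [Finset.mem_union]; tauto) (ne_of_gt (oY i hi))
        have := cY i hi
        omega
      rw [e1, e2, e3]
      exact solv_empty V
    · refine ih L2 R2 Y ?_ ⟨?_, ?_⟩ ?_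
      · intro i hi
        simp only [Finset.mem_union, mL2, mR2, Finset.mem_erase] at hi ⊢
        rcases hi with (hi | hi) | hi
        · exact ⟨ne_of_lt hi.2.1, by tauto⟩
        · exact ⟨ne_of_gt hi.2.1, by tauto⟩
        · exact ⟨ne_of_gt (oY i hi), by tauto⟩
      · intro i hi j hj
        have h1 := (mL2 i).1 hi
        rcases Finset.mem_union.1 hj with hj | hj
        · exact lt_trans h1.2.1 ((mR2 j).1 hj).2.1
        · exact lt_trans h1.2.1 (oY j hj)
      · intro i hi j hj
        refine ho.2 i (Finset.mem_union_right _ ?_) j hj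
        simp only [Finset.mem_union, mL2, mR2] at hi
        tauto
      · refine chkE_sound hm ho hT (fun i hi => ?_) (fun i hi => ?_) ?_ htop h
        · exact ⟨((mL2 i).1 hi).1, ((mL2 i).1 hi).2.1⟩
        · exact ⟨((mR2 i).1 hi).1, ((mR2 i).1 hi).2.1⟩
        · intro i hi
          simp only [Finset.mem_union] at hi
          rcases hi with (hi | hi) | hi
          · exact ((mL2 i).1 hi).2.2
          · exact ((mR2 i).1 hi).2.2
          · exact cY i hi
  rw [hE]
  refine solv_mid V X L1 L2 R1 R2 Y m bd ?_ ?_ ?_ ?_ ?_ ?_ ?_ ?_ ?_ hA hB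
  · intro i hi j hj
    refine ho.1 i hi j ?_
    rw [hE]
    simp only [Finset.mem_union] at hj ⊢
    tauto
  · intro i hi j hj
    have h1 := (mL1 i).1 hi
    simp only [Finset.mem_union, Finset.mem_singleton] at hj
    rcases hj with (((hj | hj) | hj) | hj) | hj
    · have h2 := (mL2 j).1 hj
      exact cInv 1 (Or.inl rfl) i j (Or.inr (Or.inl ⟨rfl, h1.1, h1.2.1⟩))
        (Or.inr (Or.inl ⟨rfl, h2.1, h2.2.1⟩)) h1.2.2 h2.2.2
    · rw [hj]; exact h1.2.1
    · exact lt_trans h1.2.1 ((mR1 j).1 hj).2.1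
    · exact lt_trans h1.2.1 ((mR2 j).1 hj).2.1
    · exact lt_trans h1.2.1 (oY j hj)
  · intro i hi j hj
    have h1 := (mL2 i).1 hi
    simp only [Finset.mem_union, Finset.mem_singleton] at hj
    rcases hj with ((hj | hj) | hj) | hj
    · rw [hj]; exact h1.2.1
    · exact lt_trans h1.2.1 ((mR1 j).1 hj).2.1
    · exact lt_trans h1.2.1 ((mR2 j).1 hj).2.1
    · exact lt_trans h1.2.1 (oY j hj)
  · intro j hj
    simp only [Finset.mem_union] at hj
    rcases hj with (hj | hj) | hj
    · exact ((mR1 j).1 hj).2.1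
    · exact ((mR2 j).1 hj).2.1
    · exact oY j hj
  · intro i hi j hj
    have h1 := (mR1 i).1 hi
    rcases Finset.mem_union.1 hj with hj | hj
    · have h2 := (mR2 j).1 hj
      exact cInv 3 (Or.inr rfl) i j (Or.inr (Or.inr (Or.inr (Or.inl ⟨rfl, h1.1, h1.2.1⟩))))
        (Or.inr (Or.inr (Or.inr (Or.inl ⟨rfl, h2.1, h2.2.1⟩)))) h1.2.2 h2.2.2
    · exact ho.2 i (Finset.mem_union_right _ h1.1) j hj
  · intro i hi j hj
    exact ho.2 i (Finset.mem_union_right _ ((mR2 i).1 hi).1) j hj
  · intro i hi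
    simp only [Finset.mem_union] at hi
    rcases hi with (hi | hi) | hi
    · exact cX i hi
    · exact ((mL1 i).1 hi).2.2
    · exact ((mR1 i).1 hi).2.2
  · intro i hi
    simp only [Finset.mem_union] at hi
    rcases hi with (hi | hi) | hi
    · exact ((mL2 i).1 hi).2.2
    · exact ((mR2 i).1 hi).2.2
    · exact cY i hi
  · intro i hi
    simp only [Finset.mem_union] at hi
    rcases hi with ((((hi | hi) | hi) | hi) | hi) | hi
    · exact htop i (by simp only [Finset.mem_union]; tauto) (ne_of_lt (oX i hi))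
    · have h1 := (mL1 i).1 hi
      exact htop i (by simp only [Finset.mem_union]; tauto) (ne_of_lt h1.2.1)
    · have h1 := (mL2 i).1 hi
      exact htop i (by simp only [Finset.mem_union]; tauto) (ne_of_lt h1.2.1)
    · have h1 := (mR1 i).1 hi
      exact htop i (by simp only [Finset.mem_union]; tauto) (ne_of_gt h1.2.1)
    · have h1 := (mR2 i).1 hi
      exact htop i (by simp only [Finset.mem_union]; tauto) (ne_of_gt h1.2.1)
    · exact htop i (by simp only [Finset.mem_union]; tauto) (ne_of_gt (oY i hi))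

/-- an occurrence of a pattern of size 3 -/
theorem tri (hT : TFree V X E Y) (n a b c : ℕ) (l1 l2 l3 : ℕ) (i j k : ℕ)
    (hn : TT[n]? = some ⟨[(0, l1), (1, l2), (2, l3)], [a, b, c]⟩)
    (h1 : memT X E Y l1 i) (h2 : memT X E Y l2 j) (h3 : memT X E Y l3 k) (hij : i < j)
    (hjk : j < k) (q : ℕ → ℕ) (hq : q = fun s => if s = 0 then i else if s = 1 then j else k)
    (hab : V (q a) < V (q b)) (hbc : V (q b) < V (q c)) : False := by
  refine hT _ (List.mem_of_getElem? hn) q ⟨?_, ?_, ?_⟩
  · intro e he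
    simp only [List.mem_cons, List.not_mem_nil, or_false] at he
    rcases he with rfl | rfl | rfl
    · simpa [hq] using h1
    · simpa [hq] using h2
    · simpa [hq] using h3
  · simp only [List.map_cons, List.map_nil, hq]
    simp
    omega
  · simp only [List.pairwise_cons, List.mem_cons, List.not_mem_nil, or_false]
    refine ⟨?_, ?_, ?_⟩
    · rintro x (rfl | rfl)
      · exact hab
      · exact lt_trans hab hbc
    · rintro x rfl
      exact hbc
    · simp

theorem step_Y (ho : Ord X E Y) (hm : m ∈ Y)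
    (hinj : ∀ i ∈ X ∪ E ∪ Y, ∀ j ∈ X ∪ E ∪ Y, V i = V j → i = j)
    (htop : ∀ i ∈ X ∪ E ∪ Y, i ≠ m → V i < V m) (hT : TFree V X E Y) (ih : IH V X E Y m) :
    Solv V X E Y := by
  classical
  set Y1 := Y.filter (fun i => i < m) with hY1
  set Y2 := Y.filter (fun i => m < i) with hY2
  have mY1 : ∀ i, i ∈ Y1 ↔ i ∈ Y ∧ i < m := fun i => by rw [hY1, Finset.mem_filter]
  have mY2 : ∀ i, i ∈ Y2 ↔ i ∈ Y ∧ m < i := fun i => by rw [hY2, Finset.mem_filter]
  have hY : Y = Y1 ∪ {m} ∪ Y2 := by
    ext i
    simp only [Finset.mem_union, Finset.mem_singleton, mY1, mY2]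
    constructor
    · intro hi
      rcases Nat.lt_trichotomy i m with h1 | h1 | h1 <;> tauto
    · rintro ((h | h) | h)
      · exact h.1
      · rw [h]; exact hm
      · exact h.1
  have oE : ∀ i ∈ X ∪ E, i < m := fun i hi => ho.2 i hi m hm
  have hA : Solv V X E Y2 := by
    refine ih X E Y2 ?_ (ord_mono ho (le_refl _) (le_refl _) (Finset.filter_subset _ _))
      (tfree_mono hT (le_refl _) (le_refl _) (Finset.filter_subset _ _))
    intro i hi
    rw [Finset.mem_erase]
    rcases Finset.mem_union.1 hi with hi | hi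
    · exact ⟨ne_of_lt (oE i hi), Finset.mem_union_left _ hi⟩
    · exact ⟨ne_of_gt ((mY2 i).1 hi).2, Finset.mem_union_right _ ((mY2 i).1 hi).1⟩
  have tY : ∀ i ∈ Y, memT X E Y 2 i := fun i hi => Or.inr (Or.inr ⟨rfl, hi⟩)
  rw [hY]
  refine solv_Y V X E Y1 Y2 m ?_ (fun i hi => ((mY1 i).1 hi).2) (fun i hi => ((mY2 i).1 hi).2)
    ?_ ?_ ?_ hA
  · intro i hi j hj
    rw [← hY] at hj
    exact ho.2 i hi j hj
  · intro i hi
    refine htop i ?_ ?_
    · simp only [Finset.mem_union, mY1, mY2] at hi ⊢
      tauto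
    · simp only [Finset.mem_union, mY1, mY2] at hi
      rcases hi with (hi | hi) | hi
      · exact ne_of_lt (oE i (Finset.mem_union.2 hi))
      · exact ne_of_lt hi.2
      · exact ne_of_gt hi.2
  · intro i hi j hj
    have hj1 := (mY1 j).1 hj
    have hjS : j ∈ X ∪ E ∪ Y := Finset.mem_union_right _ hj1.1
    have hiS : i ∈ X ∪ E ∪ Y := by
      simp only [Finset.mem_union, mY2] at hi ⊢
      tauto
    have hjm : V j < V m := htop j hjS (ne_of_lt hj1.2)
    have him : V i < V m := by
      refine htop i hiS ?_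
      simp only [Finset.mem_union, mY2] at hi
      rcases hi with hi | hi
      · exact ne_of_lt (oE i (Finset.mem_union.2 hi))
      · exact ne_of_gt hi.2
    by_contra hc
    have hne : V i ≠ V j := by
      intro h
      have h2 := hinj i hiS j hjS h
      subst h2
      simp only [Finset.mem_union, mY2] at hi
      rcases hi with hi | hi
      · exact lt_irrefl _ (ho.2 i (Finset.mem_union.2 hi) i hj1.1)
      · omega
    have hlt : V j < V i := by omega
    simp only [Finset.mem_union] at hi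
    rcases hi with (hi | hi) | hi
    · refine tri hT 3 1 0 2 0 2 2 i j m rfl (Or.inl ⟨rfl, hi⟩) (tY j hj1.1) (tY m hm) ?_ hj1.2 _
        rfl (by simpa using hlt) (by simpa using him)
      exact ho.2 i (Finset.mem_union_left _ hi) j hj1.1
    · refine tri hT 0 1 0 2 1 2 2 i j m rfl (Or.inr (Or.inl ⟨rfl, hi⟩)) (tY j hj1.1) (tY m hm) ?_
        hj1.2 _ rfl (by simpa using hlt) (by simpa using him)
      exact ho.2 i (Finset.mem_union_right _ hi) j hj1.1
    · have h2 := (mY2 i).1 hi
      exact tri hT 1 0 2 1 2 2 2 j m i rfl (tY j hj1.1) (tY m hm) (tY i h2.1) hj1.2 h2.2 _ rfl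
        (by simpa using hlt) (by simpa using him)
  · intro i hi j hj k hk hij hjk h1 h2
    exact tri hT 1 0 2 1 2 2 2 i j k rfl (tY i ((mY1 i).1 hi).1) (tY j ((mY1 j).1 hj).1)
      (tY k ((mY1 k).1 hk).1) hij hjk _ rfl (by simpa using h1) (by simpa using h2)

theorem step_X (ho : Ord X E Y) (hm : m ∈ X)
    (hinj : ∀ i ∈ X ∪ E ∪ Y, ∀ j ∈ X ∪ E ∪ Y, V i = V j → i = j)
    (htop : ∀ i ∈ X ∪ E ∪ Y, i ≠ m → V i < V m) (hT : TFree V X E Y) (ih : IH V X E Y m) :
    Solv V X E Y := by
  classical
  set X1 := X.filter (fun i => i < m) with hX1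
  set X2 := X.filter (fun i => m < i) with hX2
  have mX1 : ∀ i, i ∈ X1 ↔ i ∈ X ∧ i < m := fun i => by rw [hX1, Finset.mem_filter]
  have mX2 : ∀ i, i ∈ X2 ↔ i ∈ X ∧ m < i := fun i => by rw [hX2, Finset.mem_filter]
  have hX : X = X1 ∪ {m} ∪ X2 := by
    ext i
    simp only [Finset.mem_union, Finset.mem_singleton, mX1, mX2]
    constructor
    · intro hi
      rcases Nat.lt_trichotomy i m with h1 | h1 | h1 <;> tauto
    · rintro ((h | h) | h)
      · exact h.1
      · rw [h]; exact hm
      · exact h.1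
  have oE : ∀ i ∈ E ∪ Y, m < i := fun i hi => ho.1 m hm i hi
  have hA : Solv V X1 E Y := by
    refine ih X1 E Y ?_ (ord_mono ho (Finset.filter_subset _ _) (le_refl _) (le_refl _))
      (tfree_mono hT (Finset.filter_subset _ _) (le_refl _) (le_refl _))
    intro i hi
    rw [Finset.union_assoc] at hi
    rw [Finset.mem_erase, Finset.union_assoc]
    rcases Finset.mem_union.1 hi with hi | hi
    · exact ⟨ne_of_lt ((mX1 i).1 hi).2, Finset.mem_union_left _ ((mX1 i).1 hi).1⟩
    · exact ⟨ne_of_gt (oE i hi), Finset.mem_union_right _ hi⟩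
  have tX : ∀ i ∈ X, memT X E Y 0 i := fun i hi => Or.inl ⟨rfl, hi⟩
  rw [hX]
  refine solv_X V X1 X2 E Y m ?_ (fun i hi => ((mX1 i).1 hi).2) (fun i hi => ((mX2 i).1 hi).2)
    ?_ ?_ ?_ hA
  · intro i hi j hj
    rw [← hX] at hi
    exact ho.1 i hi j hj
  · intro i hi
    refine htop i ?_ ?_
    · simp only [Finset.mem_union, mX1, mX2] at hi ⊢
      tauto
    · simp only [Finset.mem_union, mX1, mX2] at hi
      rcases hi with ((hi | hi) | hi) | hi
      · exact ne_of_lt hi.2
      · exact ne_of_gt hi.2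
      · exact ne_of_gt (oE i (Finset.mem_union_left _ hi))
      · exact ne_of_gt (oE i (Finset.mem_union_right _ hi))
  · intro i hi j hj
    have hj1 := (mX2 j).1 hj
    have hjS : j ∈ X ∪ E ∪ Y := by
      simp only [Finset.mem_union]
      tauto
    have hiS : i ∈ X ∪ E ∪ Y := by
      simp only [Finset.mem_union, mX1] at hi ⊢
      tauto
    have hjm : V j < V m := htop j hjS (ne_of_gt hj1.2)
    have him : V i < V m := by
      refine htop i hiS ?_
      simp only [Finset.mem_union, mX1] at hi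
      rcases hi with (hi | hi) | hi
      · exact ne_of_lt hi.2
      · exact ne_of_gt (oE i (Finset.mem_union_left _ hi))
      · exact ne_of_gt (oE i (Finset.mem_union_right _ hi))
    by_contra hc
    have hne : V i ≠ V j := by
      intro h
      have h2 := hinj i hiS j hjS h
      subst h2
      simp only [Finset.mem_union, mX1] at hi
      rcases hi with (hi | hi) | hi
      · omega
      · exact lt_irrefl _ (ho.1 i hj1.1 i (Finset.mem_union_left _ hi))
      · exact lt_irrefl _ (ho.1 i hj1.1 i (Finset.mem_union_right _ hi))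
    have hlt : V i < V j := by omega
    simp only [Finset.mem_union] at hi
    rcases hi with (hi | hi) | hi
    · have h2 := (mX1 i).1 hi
      exact tri hT 6 0 2 1 0 0 0 i m j rfl (tX i h2.1) (tX m hm) (tX j hj1.1) h2.2 hj1.2 _ rfl
        (by simpa using hlt) (by simpa using hjm)
    · refine tri hT 4 2 1 0 0 0 1 m j i rfl (tX m hm) (tX j hj1.1) (Or.inr (Or.inl ⟨rfl, hi⟩))
        hj1.2 ?_ _ rfl (by simpa using hlt) (by simpa using hjm)
      exact ho.1 j hj1.1 i (Finset.mem_union_left _ hi)
    · refine tri hT 5 2 1 0 0 0 2 m j i rfl (tX m hm) (tX j hj1.1) (Or.inr (Or.inr ⟨rfl, hi⟩))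
        hj1.2 ?_ _ rfl (by simpa using hlt) (by simpa using hjm)
      exact ho.1 j hj1.1 i (Finset.mem_union_right _ hi)
  · intro i hi j hj k hk hij hjk h1 h2
    exact tri hT 6 0 2 1 0 0 0 i j k rfl (tX i ((mX2 i).1 hi).1) (tX j ((mX2 j).1 hj).1)
      (tX k ((mX2 k).1 hk).1) hij hjk _ rfl (by simpa using h1) (by simpa using h2)

/-- a configuration without obstructions has a good division -/
theorem main (V : ℕ → ℕ) (n : ℕ) : ∀ X E Y : Finset ℕ, (X ∪ E ∪ Y).card = n → Ord X E Y →
    (∀ i ∈ X ∪ E ∪ Y, ∀ j ∈ X ∪ E ∪ Y, V i = V j → i = j) → TFree V X E Y → Solv V X E Y := by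
  induction n using Nat.strong_induction_on with
  | _ n IHn =>
    intro X E Y hn ho hinj hT
    rcases (X ∪ E ∪ Y).eq_empty_or_nonempty with h0 | h0
    · rw [Finset.union_eq_empty, Finset.union_eq_empty] at h0
      rw [h0.1.1, h0.1.2, h0.2]
      exact solv_empty V
    · obtain ⟨m, hmS, hmax⟩ := Finset.exists_max_image (X ∪ E ∪ Y) V h0
      have htop : ∀ i ∈ X ∪ E ∪ Y, i ≠ m → V i < V m := by
        intro i hi hne
        exact lt_of_le_of_ne (hmax i hi) (fun h => hne (hinj i hi m hmS h))
      have ih : IH V X E Y m := by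
        intro X' E' Y' hsub ho' hT'
        have hcard : (X' ∪ E' ∪ Y').card < n := by
          have h1 := Finset.card_le_card hsub
          rw [Finset.card_erase_of_mem hmS] at h1
          have h2 : 0 < (X ∪ E ∪ Y).card := Finset.card_pos.2 h0
          omega
        refine IHn _ hcard X' E' Y' rfl ho' ?_ hT'
        intro i hi j hj
        exact hinj i (Finset.mem_of_mem_erase (hsub hi)) j (Finset.mem_of_mem_erase (hsub hj))
      rcases Finset.mem_union.1 hmS with h | h
      · rcases Finset.mem_union.1 h with h | h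
        · exact step_X ho h hinj htop hT ih
        · exact step_mid ho h hinj htop hT ih
      · exact step_Y ho h hinj htop hT ih

end

end Pool.Agent.H49.PQS
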