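import Pool.Agent.H49.PQS.Run
import Pool.Agent.H49.PQS.Main2

/-!
From good divisions of the positions to divisions of the list; from labelled occurrences to
contained permutations; a search through all divisions.
-/

namespace Pool.Agent.H49.PQS

def valOf (σ : List ℕ) (i : ℕ) : ℕ := σ.getD i 0

theorem map_valOf (σ : List ℕ) : (List.range σ.length).map (valOf σ) = σ := by
  apply List.ext_getElem
  · simp
  · intro i h1 h2
    rw [List.getElem_map, List.getElem_range]
    unfold valOf
    rw [List.getD_eq_getElem?_getD, List.getElem?_eq_getElem h2]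
    rfl

theorem rev_map_flat (d : List (List ℕ)) (φ : ℕ → ℕ) :
    ((d.map (List.map φ)).map List.reverse).flatten = ((d.map List.reverse).flatten).map φ := by
  induction d with
  | nil => rfl
  | cons b d ih =>
    simp only [List.map_cons, List.flatten_cons, List.map_append, ih, List.map_reverse]

theorem blk_of_solv {σ : List ℕ}
    (h : Solv (valOf σ) ∅ (Finset.range σ.length) ∅) : Blk σ := by
  obtain ⟨f, hf⟩ := h
  set n := σ.length with hn
  set K := (Finset.range n).sup f + 1 with hK
  have hfK : ∀ i < n, f i < K := fun i hi => by
    have := Finset.le_sup (f := f) (Finset.mem_range.2 hi)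
    omega
  set d0 : List (List ℕ) := (List.range K).map (fun c => (List.range n).filter (fun i => f i = c))
    with hd0
  have hmem : ∀ i, i ∈ Finset.range n → i ∈ (∅ ∪ Finset.range n ∪ ∅ : Finset ℕ) := by simp
  have hmem0 : ∀ i, i ∈ d0.flatten ↔ i < n := by
    intro i
    rw [List.mem_flatten]
    constructor
    · rintro ⟨l, hl, hil⟩
      obtain ⟨c, _, rfl⟩ := List.mem_map.1 hl
      rw [List.mem_filter, List.mem_range] at hil
      exact hil.1
    · intro hi
      refine ⟨_, List.mem_map.2 ⟨f i, List.mem_range.2 (hfK i hi), rfl⟩, ?_⟩
      rw [List.mem_filter, List.mem_range]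
      exact ⟨hi, by simp⟩
  have hp0 : d0.flatten.Pairwise (· < ·) := by
    rw [List.pairwise_flatten]
    constructor
    · intro l hl
      obtain ⟨c, _, rfl⟩ := List.mem_map.1 hl
      exact (List.pairwise_lt_range).filter _
    · rw [hd0, List.pairwise_map]
      refine List.Pairwise.imp ?_ List.pairwise_lt_range
      intro c c' hcc i hi j hj
      rw [List.mem_filter, List.mem_range] at hi hj
      have h1 : f i = c := by simpa using hi.2
      have h2 : f j = c' := by simpa using hj.2
      by_contra hc
      have hne : i ≠ j := by
        rintro rfl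
        omega
      have := hf.mono j (hmem j (Finset.mem_range.2 hj.1)) i (hmem i (Finset.mem_range.2 hi.1))
        (by omega)
      omega
  have hflat : d0.flatten = List.range n := by
    have hperm : d0.flatten.Perm (List.range n) := by
      rw [List.perm_ext_iff_of_nodup (hp0.imp (fun {a b} h => ne_of_lt h)) List.nodup_range]
      intro i
      rw [hmem0, List.mem_range]
    exact hperm.eq_of_pairwise (fun a b _ _ h1 h2 => absurd (lt_trans h1 h2) (lt_irrefl _)) hp0
      List.pairwise_lt_range
  have hr0 : ((d0.map List.reverse).flatten).Pairwise (prec f) := by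
    rw [List.pairwise_flatten]
    constructor
    · intro l hl
      obtain ⟨b, hb, rfl⟩ := List.mem_map.1 hl
      obtain ⟨c, _, rfl⟩ := List.mem_map.1 hb
      rw [List.pairwise_reverse]
      refine List.Pairwise.imp_of_mem ?_ ((List.pairwise_lt_range).filter (fun i => f i = c))
      intro i j hi hj hij
      rw [List.mem_filter] at hi hj
      have h1 : f i = c := by simpa using hi.2
      have h2 : f j = c := by simpa using hj.2
      exact Or.inr ⟨by omega, hij⟩
    · rw [hd0, List.map_map, List.pairwise_map]
      refine List.Pairwise.imp ?_ List.pairwise_lt_range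
      intro c c' hcc i hi j hj
      simp only [Function.comp, List.mem_reverse] at hi hj
      rw [List.mem_filter] at hi hj
      have h1 : f i = c := by simpa using hi.2
      have h2 : f j = c' := by simpa using hj.2
      exact Or.inl (by omega)
  have hrm : ∀ i ∈ (d0.map List.reverse).flatten, i < n := by
    intro i hi
    rw [List.mem_flatten] at hi
    obtain ⟨l, hl, hil⟩ := hi
    obtain ⟨b, hb, rfl⟩ := List.mem_map.1 hl
    rw [← hmem0, List.mem_flatten]
    exact ⟨b, hb, by simpa using hil⟩
  refine ⟨d0.map (List.map (valOf σ)), ?_, ?_⟩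
  · rw [← List.map_flatten, hflat, map_valOf]
  · have e1 : ((d0.map (List.map (valOf σ))).map List.reverse).flatten =
        ((d0.map List.reverse).flatten).map (valOf σ) := rev_map_flat d0 (valOf σ)
    rw [e1]
    intro x y z hxyz
    rw [List.sublist_map_iff] at hxyz
    obtain ⟨l, h1, h2⟩ := hxyz
    match l, h2 with
    | [x', y', z'], h2 =>
      simp only [List.map_cons, List.map_nil, List.cons.injEq, and_true] at h2
      obtain ⟨rfl, rfl, rfl⟩ := h2
      have m1 := hmem _ (Finset.mem_range.2 (hrm x' (h1.subset (by simp))))
      have m2 := hmem _ (Finset.mem_range.2 (hrm y' (h1.subset (by simp))))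
      have m3 := hmem _ (Finset.mem_range.2 (hrm z' (h1.subset (by simp))))
      have h3 := hr0.sublist h1
      simp only [List.pairwise_cons, List.mem_cons, List.not_mem_nil, or_false] at h3
      rintro ⟨h4, h5⟩
      exact hf.av x' m1 y' m2 z' m3 (h3.1 y' (Or.inl rfl)) (h3.2.1 z' rfl) h4 h5
    | [], h2 => simp at h2
    | [_], h2 => simp at h2
    | [_, _], h2 => simp at h2
    | _ :: _ :: _ :: _ :: _, h2 => simp at h2

/-- the permutation of a pattern with one label only -/
def permOf (t : Pat) : List ℕ := (List.range t.px.length).map (fun i => t.py.idxOf i + 1)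

def tok3B (t : Pat) : Bool :=
  decide (t.px.map Prod.fst = List.range t.px.length) &&
    (List.range t.px.length).all (fun i => t.py.contains i)

theorem tok3_all : TT.all tok3B = true := by decide +kernel

theorem tok3 {t : Pat} (ht : t ∈ TT) : t.px.map Prod.fst = List.range t.px.length ∧
    ∀ i < t.px.length, i ∈ t.py := by
  have h := List.all_eq_true.1 tok3_all t ht
  unfold tok3B at h
  simp only [Bool.and_eq_true, decide_eq_true_eq, List.all_eq_true, List.contains_iff_mem,
    List.mem_range] at h
  exact h

theorem sublist_range {l : List ℕ} {n : ℕ} (h1 : l.Pairwise (· < ·)) (h2 : ∀ i ∈ l, i < n) :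
    l.Sublist (List.range n) := by
  have h3 : l = (List.range n).filter (fun i => i ∈ l) := by
    have hp : l.Perm ((List.range n).filter (fun i => i ∈ l)) := by
      rw [List.perm_ext_iff_of_nodup (h1.imp (fun {a b} h => ne_of_lt h))
        (List.nodup_range.filter _)]
      intro i
      rw [List.mem_filter, List.mem_range]
      constructor
      · intro hi
        exact ⟨h2 i hi, by simpa using hi⟩
      · intro hi
        simpa using hi.2
    exact hp.eq_of_pairwise (fun a b _ _ h1 h2 => absurd (lt_trans h1 h2) (lt_irrefl _)) h1
      (List.pairwise_lt_range.filter _)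
  rw [h3]
  exact List.filter_sublist

theorem pair_idx {l : List ℕ} {R : ℕ → ℕ → Prop} (h : l.Pairwise R) {i j : ℕ} (hj : j ∈ l)
    (hij : l.idxOf i < l.idxOf j) : R i j := by
  have h1 := List.idxOf_lt_length_of_mem hj
  have h2 : l.idxOf i < l.length := by omega
  have h3 := (List.pairwise_iff_getElem.1 h) (l.idxOf i) (l.idxOf j) h2 h1 hij
  rwa [List.getElem_idxOf, List.getElem_idxOf] at h3

theorem contains_of_emb {σ : List ℕ} {t : Pat} (ht : t ∈ TT) {q : ℕ → ℕ}
    (h : Emb (memT ∅ (Finset.range σ.length) ∅) (valOf σ) t.px t.py q) :
    Contains σ (permOf t) ∧ ∀ e ∈ t.px, e.2 = 1 := by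
  obtain ⟨h1, h2, h3⟩ := h
  obtain ⟨k1, k2⟩ := tok3 ht
  have hlab : ∀ e ∈ t.px, e.2 = 1 ∧ q e.1 < σ.length := by
    intro e he
    rcases h1 e he with ⟨_, g⟩ | ⟨g1, g⟩ | ⟨_, g⟩
    · exact absurd g (Finset.notMem_empty _)
    · exact ⟨g1, Finset.mem_range.1 g⟩
    · exact absurd g (Finset.notMem_empty _)
  refine ⟨?_, fun e he => (hlab e he).1⟩
  set k := t.px.length with hk
  rw [k1] at h2
  have hq : ∀ i < k, q i < σ.length := by
    intro i hi
    have : i ∈ t.px.map Prod.fst := by rw [k1]; exact List.mem_range.2 hi
    obtain ⟨e, he, rfl⟩ := List.mem_map.1 this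
    exact (hlab e he).2
  have hlen : (permOf t).length = k := by simp [permOf, hk]
  refine ⟨(List.range k).map (fun i => valOf σ (q i)), ?_, ?_, ?_⟩
  · have h4 : ((List.range k).map q).Sublist (List.range σ.length) := by
      apply sublist_range
      · rw [List.pairwise_map]
        exact h2
      · intro i hi
        obtain ⟨j, hj, rfl⟩ := List.mem_map.1 hi
        exact hq j (List.mem_range.1 hj)
    have h5 := h4.map (valOf σ)
    rw [map_valOf, List.map_map] at h5
    exact h5
  · simp [hlen]
  · rw [hlen]
    intro i hi j hj
    have e1 : ∀ i < k, ((List.range k).map (fun i => valOf σ (q i))).getD i 0 = valOf σ (q i) := by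
      intro i hi
      rw [List.getD_eq_getElem?_getD, List.getElem?_map, List.getElem?_range hi]
      rfl
    have e2 : ∀ i < k, (permOf t).getD i 0 = t.py.idxOf i + 1 := by
      intro i hi
      unfold permOf
      rw [List.getD_eq_getElem?_getD, List.getElem?_map, ← hk, List.getElem?_range hi]
      rfl
    rw [e1 i hi, e1 j hj, e2 i hi, e2 j hj]
    constructor
    · intro hlt
      by_contra hc
      rcases Nat.lt_or_ge (t.py.idxOf j) (t.py.idxOf i) with h6 | h6
      · have := pair_idx h3 (k2 i hi) h6
        omega
      · have h7 : t.py.idxOf i = t.py.idxOf j := by omega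
        have h8 : i = j := (List.idxOf_inj (k2 i hi)).1 h7
        rw [h8] at hlt
        exact lt_irrefl _ hlt
    · intro hlt
      exact pair_idx h3 (k2 j hj) (by omega)

/-! ### search -/

def chk1 (x : ℕ) : List ℕ → Bool → Bool
  | [], _ => true
  | y :: l, seen => if y < x then (if seen then false else chk1 x l seen)
      else (if x < y then chk1 x l true else chk1 x l seen)

def avB : List ℕ → Bool
  | [] => true
  | x :: l => chk1 x l false && avB l

theorem chk1_iff (x : ℕ) (l : List ℕ) : ∀ seen, chk1 x l seen = true ↔
    (seen = true → ∀ z ∈ l, ¬ z < x) ∧ ∀ y z, [y, z].Sublist l → ¬ (z < x ∧ x < y) := by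
  induction l with
  | nil => intro seen; simp [chk1]
  | cons c l ih =>
    intro seen
    have hsub : ∀ y z, [y, z].Sublist (c :: l) ↔ [y, z].Sublist l ∨ (y = c ∧ z ∈ l) := by
      intro y z
      constructor
      · intro h
        cases h with
        | cons _ h => exact Or.inl h
        | cons_cons _ h => exact Or.inr ⟨rfl, List.singleton_sublist.1 h⟩
      · rintro (h | ⟨rfl, h⟩)
        · exact h.cons _
        · exact (List.singleton_sublist.2 h).cons_cons _
    unfold chk1
    by_cases h1 : c < x
    · rw [if_pos h1]
      cases seen with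
      | true =>
        simp only [if_true, Bool.false_eq_true, false_iff]
        rintro ⟨h2, _⟩
        exact h2 trivial c (by simp) h1
      | false =>
        rw [if_neg (by simp), ih]
        simp only [hsub]
        constructor
        · rintro ⟨_, h3⟩
          refine ⟨by simp, ?_⟩
          rintro y z (h4 | ⟨rfl, h4⟩)
          · exact h3 y z h4
          · omega
        · rintro ⟨_, h3⟩
          exact ⟨by simp, fun y z h4 => h3 y z (Or.inl h4)⟩
    · rw [if_neg h1]
      by_cases h2 : x < c
      · rw [if_pos h2, ih]
        simp only [hsub]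
        constructor
        · rintro ⟨h3, h4⟩
          refine ⟨?_, ?_⟩
          · intro _ z hz
            rcases List.mem_cons.1 hz with rfl | hz
            · exact h1
            · exact h3 trivial z hz
          · rintro y z (h5 | ⟨rfl, h5⟩)
            · exact h4 y z h5
            · have := h3 trivial z h5
              omega
        · rintro ⟨h3, h4⟩
          refine ⟨?_, fun y z h5 => h4 y z (Or.inl h5)⟩
          intro _ z hz hzx
          exact h4 c z (Or.inr ⟨rfl, hz⟩) ⟨hzx, h2⟩
      · rw [if_neg h2, ih]
        simp only [hsub]
        constructor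
        · rintro ⟨h3, h4⟩
          refine ⟨?_, ?_⟩
          · intro hs z hz
            rcases List.mem_cons.1 hz with rfl | hz
            · exact h1
            · exact h3 hs z hz
          · rintro y z (h5 | ⟨rfl, h5⟩)
            · exact h4 y z h5
            · omega
        · rintro ⟨h3, h4⟩
          exact ⟨fun hs z hz => h3 hs z (List.mem_cons_of_mem _ hz),
            fun y z h5 => h4 y z (Or.inl h5)⟩

theorem avB_iff (l : List ℕ) : avB l = true ↔ Av l := by
  induction l with
  | nil =>
    simp only [avB, true_iff]
    intro x y z h
    simp at h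
  | cons c l ih =>
    unfold avB
    rw [Bool.and_eq_true, ih, chk1_iff]
    constructor
    · rintro ⟨⟨_, h1⟩, h2⟩ x y z h
      cases h with
      | cons _ h => exact h2 x y z h
      | cons_cons _ h => exact h1 y z h
    · intro h
      exact ⟨⟨by simp, fun y z h1 => h c y z (h1.cons_cons _)⟩,
        fun x y z h1 => h x y z (h1.cons _)⟩

/-- search for a good division -/
def srch : List ℕ → List ℕ → List ℕ → Bool
  | [], cur, r => avB (r ++ cur)
  | x :: xs, cur, r => srch xs (x :: cur) r || (avB (r ++ cur) && srch xs [x] (r ++ cur))

theorem srch_sound (inp : List ℕ) : ∀ cur r, srch inp cur r = true →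
    ∃ (b : List ℕ) (d : List (List ℕ)), b ++ d.flatten = inp ∧
      Av (r ++ (b.reverse ++ cur) ++ (d.map List.reverse).flatten) := by
  induction inp with
  | nil =>
    intro cur r h
    refine ⟨[], [], rfl, ?_⟩
    have := (avB_iff _).1 h
    simpa using this
  | cons x xs ih =>
    intro cur r h
    unfold srch at h
    rw [Bool.or_eq_true, Bool.and_eq_true] at h
    rcases h with h | ⟨_, h⟩
    · obtain ⟨b, d, h1, h2⟩ := ih _ _ h
      exact ⟨x :: b, d, by simp [h1], by simpa using h2⟩
    · obtain ⟨b, d, h1, h2⟩ := ih _ _ h
      refine ⟨[], (x :: b) :: d, by simp [h1], ?_⟩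
      simpa using h2

theorem srch_complete (inp : List ℕ) : ∀ (cur r b : List ℕ) (d : List (List ℕ)),
    b ++ d.flatten = inp → Av (r ++ (b.reverse ++ cur) ++ (d.map List.reverse).flatten) →
      srch inp cur r = true := by
  induction inp with
  | nil =>
    intro cur r b d h1 h2
    rw [List.append_eq_nil_iff] at h1
    obtain ⟨rfl, h1⟩ := h1
    unfold srch
    rw [avB_iff]
    refine h2.sub ?_
    rw [List.reverse_nil, List.nil_append]
    exact List.sublist_append_left _ _
  | cons x xs ih =>
    intro cur r b d h1 h2
    unfold srch
    rw [Bool.or_eq_true, Bool.and_eq_true]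
    cases b with
    | cons y b =>
      left
      simp only [List.cons_append, List.cons.injEq] at h1
      obtain ⟨rfl, h1⟩ := h1
      refine ih _ _ b d h1 ?_
      simpa using h2
    | nil =>
      right
      rw [List.nil_append] at h1
      induction d with
      | nil => simp at h1
      | cons b1 d ihd =>
        cases b1 with
        | nil =>
          refine ihd (by simpa using h1) ?_
          simpa using h2
        | cons y b1 =>
          simp only [List.flatten_cons, List.cons_append, List.cons.injEq] at h1
          obtain ⟨rfl, h1⟩ := h1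
          constructor
          · rw [avB_iff]
            refine h2.sub ?_
            rw [List.reverse_nil, List.nil_append]
            exact List.sublist_append_left _ _
          · refine ih _ _ b1 d h1 ?_
            simpa using h2

theorem srch_iff (s : List ℕ) : srch s [] [] = true ↔ Blk s := by
  constructor
  · intro h
    obtain ⟨b, d, h1, h2⟩ := srch_sound s [] [] h
    exact ⟨b :: d, by simpa using h1, by simpa using h2⟩
  · rintro ⟨d, h1, h2⟩
    exact srch_complete s [] [] [] d (by simpa using h1) (by simpa using h2)

end Pool.Agent.H49.PQS
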