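import Mathlib

/-!
The PQS machine: a pop stack, a queue and a stack in series.
-/

namespace Pool.Agent.H49.PQS

/-- A state of the machine: the remaining input, the pop stack (top first), the queue (front
first), the stack (top first) and the output written so far. -/
structure State where
  inp : List ℕ
  pop : List ℕ
  que : List ℕ
  stk : List ℕ
  out : List ℕ

/-- The moves of the machine. -/
inductive Step : State → State → Prop
  /-- the next entry of the input is pushed onto the pop stack -/
  | input (a : ℕ) (i p q s o : List ℕ) : Step ⟨a :: i, p, q, s, o⟩ ⟨i, a :: p, q, s, o⟩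
  /-- the pop stack is emptied, its entries going, top first, to the end of the queue -/
  | empty (i p q s o : List ℕ) : Step ⟨i, p, q, s, o⟩ ⟨i, [], q ++ p, s, o⟩
  /-- the entry at the front of the queue is pushed onto the stack -/
  | move (a : ℕ) (i p q s o : List ℕ) : Step ⟨i, p, a :: q, s, o⟩ ⟨i, p, q, a :: s, o⟩
  /-- the top entry of the stack is written to the output -/
  | write (a : ℕ) (i p q s o : List ℕ) : Step ⟨i, p, q, a :: s, o⟩ ⟨i, p, q, s, o ++ [a]⟩

/-- `σ` is a permutation of `1, …, n` in one-line notation, where `n` is its length. -/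
def IsPerm (σ : List ℕ) : Prop := σ.Perm (List.range' 1 σ.length)

/-- Some sequence of moves turns the input `σ` into the output `1, …, n`. -/
def Sortable (σ : List ℕ) : Prop :=
  Relation.ReflTransGen Step ⟨σ, [], [], [], []⟩ ⟨[], [], [], [], List.range' 1 σ.length⟩

/-- `σ` contains `τ`: some subsequence of `σ` is order-isomorphic to `τ`. -/
def Contains (σ τ : List ℕ) : Prop :=
  ∃ s : List ℕ, s.Sublist σ ∧ s.length = τ.length ∧
    ∀ i < τ.length, ∀ j < τ.length, (s.getD i 0 < s.getD j 0 ↔ τ.getD i 0 < τ.getD j 0)

/-- The basis of the class of PQS-sortable permutations: the permutations which are not sortable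
but all of whose proper patterns are sortable. -/
def Basis : Set (List ℕ) :=
  {σ | IsPerm σ ∧ ¬ Sortable σ ∧ ∀ τ, IsPerm τ → Contains σ τ → τ ≠ σ → Sortable τ}

end Pool.Agent.H49.PQS
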