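import Pool.Agent.H49.PQS.Sta
import Pool.Agent.H49.PQS.Cov
import Pool.Agent.H49.PQS.Comp2

/-!
The main induction: a configuration without obstructions has a good division.
-/

namespace Pool.Agent.H49.PQS

def memC (X E Y : Finset ℕ) (m : ℕ) (l r : ℕ) : Prop :=
  (l = 0 ∧ r ∈ X) ∨ (l = 1 ∧ r ∈ E ∧ r < m) ∨ (l = 2 ∧ r = m) ∨ (l = 3 ∧ r ∈ E ∧ m < r) ∨
    (l = 4 ∧ r ∈ Y)

def memT (X E Y : Finset ℕ) (l r : ℕ) : Prop :=
  (l = 0 ∧ r ∈ X) ∨ (l = 1 ∧ r ∈ E) ∨ (l = 2 ∧ r ∈ Y)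

def TFree (V : ℕ → ℕ) (X E Y : Finset ℕ) : Prop :=
  ∀ t ∈ TT, ∀ q, ¬ Emb (memT X E Y) V t.px t.py q

/-- the three parts lie in the order of position -/
def Ord (X E Y : Finset ℕ) : Prop :=
  (∀ i ∈ X, ∀ j ∈ E ∪ Y, i < j) ∧ ∀ i ∈ X ∪ E, ∀ j ∈ Y, i < j

theorem Emb.mono {mem mem' : ℕ → ℕ → Prop} {V : ℕ → ℕ} {px : List (ℕ × ℕ)} {py : List ℕ}
    {q : ℕ → ℕ} (h : Emb mem V px py q) (h2 : ∀ e ∈ px, mem e.2 (q e.1) → mem' e.2 (q e.1)) :
    Emb mem' V px py q := ⟨fun e he => h2 e he (h.1 e he), h.2.1, h.2.2⟩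

theorem tfree_mono {V : ℕ → ℕ} {X E Y X' E' Y' : Finset ℕ} (h : TFree V X E Y) (hX : X' ⊆ X)
    (hE : E' ⊆ E) (hY : Y' ⊆ Y) : TFree V X' E' Y' := by
  intro t ht q hq
  refine h t ht q (hq.mono ?_)
  intro e _ he
  rcases he with ⟨h1, h2⟩ | ⟨h1, h2⟩ | ⟨h1, h2⟩
  · exact Or.inl ⟨h1, hX h2⟩
  · exact Or.inr (Or.inl ⟨h1, hE h2⟩)
  · exact Or.inr (Or.inr ⟨h1, hY h2⟩)

theorem ord_mono {X E Y X' E' Y' : Finset ℕ} (h : Ord X E Y) (hX : X' ⊆ X)
    (hE : E' ⊆ E) (hY : Y' ⊆ Y) : Ord X' E' Y' := by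
  constructor
  · intro i hi j hj
    refine h.1 i (hX hi) j ?_
    rcases Finset.mem_union.1 hj with hj | hj
    · exact Finset.mem_union_left _ (hE hj)
    · exact Finset.mem_union_right _ (hY hj)
  · intro i hi j hj
    refine h.2 i ?_ j (hY hj)
    rcases Finset.mem_union.1 hi with hi | hi
    · exact Finset.mem_union_left _ (hX hi)
    · exact Finset.mem_union_right _ (hE hi)

section
variable {V : ℕ → ℕ} {X E Y : Finset ℕ} {m : ℕ}

theorem memC_lt {l r : ℕ} (h : memC X E Y m l r) : l < 5 := by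
  rcases h with ⟨rfl, _⟩ | ⟨rfl, _⟩ | ⟨rfl, _⟩ | ⟨rfl, _⟩ | ⟨rfl, _⟩ <;> omega

theorem memC_memT (hm : m ∈ E) {l r : ℕ} (h : memC X E Y m l r) :
    memT X E Y ((l + 2) / 3) r := by
  rcases h with ⟨rfl, h⟩ | ⟨rfl, h, _⟩ | ⟨rfl, rfl⟩ | ⟨rfl, h, _⟩ | ⟨rfl, h⟩
  · exact Or.inl ⟨rfl, h⟩
  · exact Or.inr (Or.inl ⟨rfl, h⟩)
  · exact Or.inr (Or.inl ⟨rfl, hm⟩)
  · exact Or.inr (Or.inl ⟨rfl, h⟩)
  · exact Or.inr (Or.inr ⟨rfl, h⟩)

theorem free_of_tfree (hm : m ∈ E) (hT : TFree V X E Y) : ∀ t ∈ TT, ∀ q,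
    ¬ Emb (fun l r => ∃ l', memC X E Y m l' r ∧ (l' + 2) / 3 = l) V t.px t.py q := by
  intro t ht q hq
  refine hT t ht q (hq.mono ?_)
  rintro e _ ⟨l', h1, h2⟩
  rw [← h2]
  exact memC_memT hm h1

theorem memC_mem {l r : ℕ} (hm : m ∈ E) (h : memC X E Y m l r) : r ∈ X ∪ E ∪ Y := by
  rcases h with ⟨rfl, h⟩ | ⟨rfl, h, _⟩ | ⟨rfl, rfl⟩ | ⟨rfl, h, _⟩ | ⟨rfl, h⟩ <;>
    simp only [Finset.mem_union] <;> tauto

theorem memC_ord (ho : Ord X E Y) (hm : m ∈ E) (l l' r r' : ℕ) (h : memC X E Y m l r)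
    (h' : memC X E Y m l' r') (hl : l < l') : r < r' := by
  have a1 : ∀ i ∈ X, ∀ j ∈ E, i < j := fun i hi j hj => ho.1 i hi j (Finset.mem_union_left _ hj)
  have a2 : ∀ i ∈ X, ∀ j ∈ Y, i < j := fun i hi j hj => ho.1 i hi j (Finset.mem_union_right _ hj)
  have a3 : ∀ i ∈ E, ∀ j ∈ Y, i < j := fun i hi j hj => ho.2 i (Finset.mem_union_right _ hi) j hj
  rcases h with ⟨rfl, h⟩ | ⟨rfl, h, g⟩ | ⟨rfl, rfl⟩ | ⟨rfl, h, g⟩ | ⟨rfl, h⟩ <;>
  rcases h' with ⟨rfl, h'⟩ | ⟨rfl, h', g'⟩ | ⟨rfl, rfl⟩ | ⟨rfl, h', g'⟩ | ⟨rfl, h'⟩ <;>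
  first
    | omega
    | exact a1 _ h _ h'
    | exact a2 _ h _ h'
    | exact a3 _ h _ h'
    | exact a1 _ h _ hm
    | exact a3 _ hm _ h'

theorem chkD_sound (hm : m ∈ E) (ho : Ord X E Y) (hT : TFree V X E Y) {bd : ℕ} {E1 E3 : Finset ℕ}
    (h1 : ∀ i ∈ E1, i ∈ E ∧ i < m) (h3 : ∀ i ∈ E3, i ∈ E ∧ m < i)
    (hb : ∀ i ∈ X ∪ E1 ∪ E3, V i < bd) (hbm : bd ≤ V m)
    (hU : ∀ u ∈ UT, ∀ q, Emb (memC X E Y m) V u.px (u.pm ++ u.pr) q → bd ≤ V (q u.mi)) :
    TFree V X E1 E3 := by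
  intro t ht q hq
  obtain ⟨k1, k2, k3, k4⟩ := tok ht
  obtain ⟨c, hc⟩ := exD t ht
  have hX : ∀ i ∈ X, i < m := fun i hi => ho.1 i hi m (Finset.mem_union_left _ hm)
  unfold chkD at hc
  cases hc0 : Nat.beq c 0 with
  | true =>
    rw [hc0, cond_true, List.all_eq_true] at hc
    refine hT t ht q (hq.mono ?_)
    intro e he h
    have h2 := hc e he
    rcases h with ⟨g1, g2⟩ | ⟨g1, g2⟩ | ⟨g1, g2⟩
    · exact Or.inl ⟨g1, g2⟩
    · exact Or.inr (Or.inl ⟨g1, (h1 _ g2).1⟩)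
    · rw [g1] at h2
      exact absurd h2 (by decide)
  | false =>
    rw [hc0, cond_false] at hc
    have hmemC : ∀ e ∈ t.px, memC X E Y m (dF e.2) (q e.1) := by
      intro e he
      rcases hq.1 e he with ⟨g1, g2⟩ | ⟨g1, g2⟩ | ⟨g1, g2⟩ <;> rw [g1]
      · exact Or.inl ⟨rfl, g2⟩
      · exact Or.inr (Or.inl ⟨rfl, h1 _ g2⟩)
      · exact Or.inr (Or.inr (Or.inr (Or.inl ⟨rfl, h3 _ g2⟩)))
    have hbq : ∀ e ∈ t.px, V (q e.1) < bd := by
      intro e he
      refine hb _ ?_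
      rcases hq.1 e he with ⟨g1, g2⟩ | ⟨g1, g2⟩ | ⟨g1, g2⟩ <;> simp only [Finset.mem_union] <;> tauto
    have hlx := sta_x (s := dS) (m := m) hq.2.1
      (by
        intro e he hs
        rcases hq.1 e he with ⟨g1, g2⟩ | ⟨g1, g2⟩ | ⟨g1, g2⟩
        · exact hX _ g2
        · exact (h1 _ g2).2
        · rw [g1] at hs
          exact absurd hs (by decide))
      (by
        intro e he hs
        rcases hq.1 e he with ⟨g1, g2⟩ | ⟨g1, g2⟩ | ⟨g1, g2⟩
        · rw [g1] at hs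
          exact absurd hs (by decide)
        · rw [g1] at hs
          exact absurd hs (by decide)
        · exact (h3 _ g2).2)
    have hly := sta_y (V := V) (m := m) hq.2.2 (fun e he => lt_of_lt_of_le (hbq e he) hbm) k2
    have hlm := sta_m (s := dS) (m := m) (mem := memC X E Y m) hmemC
      (Or.inr (Or.inr (Or.inl ⟨rfl, rfl⟩))) k1
    cases hc1 : Nat.beq (Nat.land c 3) 1 with
    | true =>
      rw [hc1, cond_true] at hc
      obtain ⟨t', ht', hc'⟩ := nthC_sound _ _ _ hc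
      exact tcl_sta (free_of_tfree hm hT) hlx hly hlm _ _ ht' hc'
    | false =>
      rw [hc1, cond_false] at hc
      obtain ⟨u, hu, hc'⟩ := nthC_sound _ _ _ hc
      obtain ⟨w1, w2⟩ := wcl_sound hlx hly hlm hc'
      have w3 := hU u hu _ w1
      obtain ⟨o1, o2⟩ := uok hu
      have w4 : u.mi ∈ u.px.map Prod.fst := by
        rw [o1.hx, o1.eq, ← o1.hy]
        exact List.mem_append_left _ o1.mi
      obtain ⟨e, he, hee⟩ := List.mem_map.1 w4
      have w5 := w2 e he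
      rw [hee] at w5
      rcases sta_mem_iff w5 with w6 | ⟨e', he', w6⟩
      · -- the image of the mark would be the maximum
        have w7 := w1.2.2
        have w8 := w1.1 (0, 2) o1.h0
        have w9 : stp m q (dig (Nat.div c 1024) 0) = m := by
          rcases w8 with ⟨g, _⟩ | ⟨g, _⟩ | ⟨_, g⟩ | ⟨g, _⟩ | ⟨g, _⟩
          · exact absurd g (by decide)
          · exact absurd g (by decide)
          · exact g
          · exact absurd g (by decide)
          · exact absurd g (by decide)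
        have w10 : stp m q (dig (Nat.div c 1024) u.mi) = m := by
          rw [w6]
          simp [stp]
        have w11 : (0 : ℕ) ∈ u.px.map Prod.fst := List.mem_map.2 ⟨_, o1.h0, rfl⟩
        have w12 := w1.2.1
        have w13 : ∀ i ∈ u.px.map Prod.fst, ∀ j ∈ u.px.map Prod.fst, i ≠ j →
            stp m q (dig (Nat.div c 1024) i) ≠ stp m q (dig (Nat.div c 1024) j) := by
          intro i hi j hj hij
          have h5 : (u.px.map Prod.fst).Pairwise (fun i j => i ≠ j →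
            stp m q (dig (Nat.div c 1024) i) ≠ stp m q (dig (Nat.div c 1024) j)) :=
            by
              refine w12.imp ?_
              intro a b h _
              exact ne_of_lt h
          have h6 : (u.px.map Prod.fst).Pairwise (fun j i => i ≠ j →
            stp m q (dig (Nat.div c 1024) i) ≠ stp m q (dig (Nat.div c 1024) j)) := by
              refine w12.imp ?_
              intro a b h _
              exact ne_of_gt h
          exact h5.forall_of_forall_of_flip (fun a _ h => absurd rfl h) h6 hi hj hij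
        exact w13 u.mi w4 0 w11 o2 (by rw [w9, w10])
      · have w7 := hbq e' he'
        rw [w6, stp_succ] at w3
        omega

theorem chkE_sound (hm : m ∈ E) (ho : Ord X E Y) (hT : TFree V X E Y) {bd : ℕ} {E1 E3 : Finset ℕ}
    (h1 : ∀ i ∈ E1, i ∈ E ∧ i < m) (h3 : ∀ i ∈ E3, i ∈ E ∧ m < i)
    (hb : ∀ i ∈ E1 ∪ E3 ∪ Y, bd ≤ V i) (hbm : ∀ i ∈ X ∪ E ∪ Y, i ≠ m → V i < V m)
    (hW : ∀ R ∈ PS, ∀ q, ¬ POK V (memC X E Y m) bd R.1 q) :
    TFree V E1 E3 Y := by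
  intro t ht q hq
  obtain ⟨k1, k2, k3, k4⟩ := tok ht
  obtain ⟨c, hc⟩ := exE t ht
  have hY : ∀ i ∈ Y, m < i := fun i hi => ho.2 m (Finset.mem_union_right _ hm) i hi
  unfold chkE at hc
  cases hc0 : Nat.beq c 0 with
  | true =>
    rw [hc0, cond_true, List.all_eq_true] at hc
    refine hT t ht q (hq.mono ?_)
    intro e he h
    have h2 := hc e he
    rcases h with ⟨g1, g2⟩ | ⟨g1, g2⟩ | ⟨g1, g2⟩
    · rw [g1] at h2
      exact absurd h2 (by decide)
    · exact Or.inr (Or.inl ⟨g1, (h3 _ g2).1⟩)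
    · exact Or.inr (Or.inr ⟨g1, g2⟩)
  | false =>
    rw [hc0, cond_false] at hc
    have hmemC : ∀ e ∈ t.px, memC X E Y m (eF e.2) (q e.1) := by
      intro e he
      rcases hq.1 e he with ⟨g1, g2⟩ | ⟨g1, g2⟩ | ⟨g1, g2⟩ <;> rw [g1]
      · exact Or.inr (Or.inl ⟨rfl, h1 _ g2⟩)
      · exact Or.inr (Or.inr (Or.inr (Or.inl ⟨rfl, h3 _ g2⟩)))
      · exact Or.inr (Or.inr (Or.inr (Or.inr ⟨rfl, g2⟩)))
    have hbq : ∀ e ∈ t.px, bd ≤ V (q e.1) := by
      intro e he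
      refine hb _ ?_
      rcases hq.1 e he with ⟨g1, g2⟩ | ⟨g1, g2⟩ | ⟨g1, g2⟩ <;> simp only [Finset.mem_union] <;> tauto
    have hqm : ∀ e ∈ t.px, V (q e.1) < V m := by
      intro e he
      rcases hq.1 e he with ⟨g1, g2⟩ | ⟨g1, g2⟩ | ⟨g1, g2⟩
      · obtain ⟨a1, a2⟩ := h1 _ g2
        exact hbm _ (by simp only [Finset.mem_union]; tauto) (ne_of_lt a2)
      · obtain ⟨a1, a2⟩ := h3 _ g2
        exact hbm _ (by simp only [Finset.mem_union]; tauto) (ne_of_gt a2)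
      · exact hbm _ (by simp only [Finset.mem_union]; tauto) (ne_of_gt (hY _ g2))
    have hlx := sta_x (s := eS) (m := m) hq.2.1
      (by
        intro e he hs
        rcases hq.1 e he with ⟨g1, g2⟩ | ⟨g1, g2⟩ | ⟨g1, g2⟩
        · exact (h1 _ g2).2
        · rw [g1] at hs
          exact absurd hs (by decide)
        · rw [g1] at hs
          exact absurd hs (by decide))
      (by
        intro e he hs
        rcases hq.1 e he with ⟨g1, g2⟩ | ⟨g1, g2⟩ | ⟨g1, g2⟩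
        · rw [g1] at hs
          exact absurd hs (by decide)
        · exact (h3 _ g2).2
        · exact hY _ g2)
    have hly := sta_y (V := V) (m := m) hq.2.2 hqm k2
    have hlm := sta_m (s := eS) (m := m) (mem := memC X E Y m) hmemC
      (Or.inr (Or.inr (Or.inl ⟨rfl, rfl⟩))) k1
    cases hc1 : Nat.beq (Nat.land c 3) 1 with
    | true =>
      rw [hc1, cond_true] at hc
      obtain ⟨t', ht', hc'⟩ := nthC_sound _ _ _ hc
      exact tcl_sta (free_of_tfree hm hT) hlx hly hlm _ _ ht' hc'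
    | false =>
      rw [hc1, cond_false] at hc
      obtain ⟨R, hR, hc'⟩ := nthC_sound _ _ _ hc
      obtain ⟨hf, hc'⟩ := cond_ff hc'
      obtain ⟨w1, w2⟩ := wcl_sound hlx hly hlm hc'
      refine hW R hR _ (pok_of_emb hR w1 ?_ ?_)
      · intro e he _
        have w3 := w2 (e.x, e.l) (List.mem_map.2 ⟨e, he, rfl⟩)
        rcases sta_mem_iff w3 with w6 | ⟨e', he', w6⟩
        · change dig (Nat.div c 1024) e.x = 0 at w6
          rw [w6]
          obtain ⟨e0, he0⟩ := List.exists_mem_of_ne_nil _ k4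
          exact le_trans (hbq e0 he0) (le_of_lt (hqm e0 he0))
        · change dig (Nat.div c 1024) e.x = _ at w6
          rw [w6, stp_succ]
          exact hbq e' he'
      · intro e he h2
        rw [List.all_eq_true] at hf
        have := hf e he
        rw [h2] at this
        exact absurd this (by decide)

end

end Pool.Agent.H49.PQS
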