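import Pool.Agent.H49.PQS.Machine

/-!
The machine and divisions into blocks.
-/

namespace Pool.Agent.H49.PQS

/-- no 231 -/
def Av (l : List ℕ) : Prop := ∀ x y z, [x, y, z].Sublist l → ¬ (z < x ∧ x < y)

/-- a division whose reversed blocks avoid 231 -/
def Blk (s : List ℕ) : Prop := ∃ d : List (List ℕ), d.flatten = s ∧ Av (d.map List.reverse).flatten

theorem Av.sub {l l' : List ℕ} (h : Av l) (h2 : l'.Sublist l) : Av l' :=
  fun x y z hs => h x y z (hs.trans h2)

structure Good (r st v : List ℕ) : Prop where
  mem : ∀ x, x ∈ v ↔ x ∈ r ∨ x ∈ st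
  srt : st.Pairwise (· < ·)
  av : Av r
  iv : ∀ x ∈ st, ∀ y z, [y, z].Sublist r → ¬ (z < x ∧ x < y)

theorem blk_of_run {w : List ℕ} (hw : w.Pairwise (· < ·)) {s : State}
    (h : Relation.ReflTransGen Step s ⟨[], [], [], [], w⟩) :
    ∃ (v : List ℕ) (d : List (List ℕ)), s.out ++ v = w ∧ d.flatten = s.pop.reverse ++ s.inp ∧
      Good (s.que ++ (d.map List.reverse).flatten) s.stk v := by
  induction h using Relation.ReflTransGen.head_induction_on with
  | refl =>
    refine ⟨[], [], by simp, by simp, ?_⟩
    refine ⟨by simp, by simp, ?_, by simp⟩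
    intro x y z h
    simp at h
  | head hst _ ih =>
    obtain ⟨v, d, h1, h2, h3⟩ := ih
    cases hst with
    | input a i p q s o =>
      exact ⟨v, d, h1, by simpa using h2, h3⟩
    | empty i p q s o =>
      refine ⟨v, p.reverse :: d, h1, ?_, ?_⟩
      · simpa using h2
      · simpa using h3
    | move a i p q s o =>
      refine ⟨v, d, h1, h2, ?_⟩
      dsimp only at h3 ⊢
      obtain ⟨g1, g2, g3, g4⟩ := h3
      rw [List.pairwise_cons] at g2
      refine ⟨?_, g2.2, ?_, ?_⟩
      · intro x
        rw [g1]
        simp only [List.mem_cons, List.cons_append]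
        tauto
      · intro x y z hs
        rw [List.cons_append] at hs
        cases hs with
        | cons _ hs => exact g3 x y z hs
        | cons_cons _ hs => exact g4 a (by simp) y z hs
      · intro x hx y z hs
        rw [List.cons_append] at hs
        cases hs with
        | cons _ hs => exact g4 x (List.mem_cons_of_mem _ hx) y z hs
        | cons_cons _ hs =>
          have := g2.1 x hx
          omega
    | write a i p q s o =>
      refine ⟨a :: v, d, by simpa using h1, h2, ?_⟩
      dsimp only at h1 h3 ⊢
      obtain ⟨g1, g2, g3, g4⟩ := h3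
      have h4 : (a :: v).Pairwise (· < ·) := by
        refine hw.sublist ?_
        rw [← h1, List.append_assoc]
        exact List.sublist_append_right _ _
      rw [List.pairwise_cons] at h4
      refine ⟨?_, ?_, g3, ?_⟩
      · intro x
        rw [List.mem_cons, List.mem_cons, g1]
        tauto
      · rw [List.pairwise_cons]
        exact ⟨fun x hx => h4.1 x ((g1 x).2 (Or.inr hx)), g2⟩
      · intro x hx y z hs
        rcases List.mem_cons.1 hx with rfl | hx
        · have := h4.1 z ((g1 z).2 (Or.inl (hs.subset (by simp))))
          omega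
        · exact g4 x hx y z hs

theorem blk_of_sortable {σ : List ℕ} (h : Sortable σ) : Blk σ := by
  obtain ⟨v, d, _, h2, h3⟩ := blk_of_run List.pairwise_lt_range' h
  exact ⟨d, by simpa using h2, by simpa using h3.av⟩

theorem run_push (b : List ℕ) : ∀ i p q s o : List ℕ,
    Relation.ReflTransGen Step ⟨b ++ i, p, q, s, o⟩ ⟨i, b.reverse ++ p, q, s, o⟩ := by
  induction b with
  | nil => intro i p q s o; exact Relation.ReflTransGen.refl
  | cons a b ih =>
    intro i p q s o
    have h1 := ih i (a :: p) q s o
    refine Relation.ReflTransGen.head (Step.input a (b ++ i) p q s o) ?_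
    simpa using h1

theorem run_queue (d : List (List ℕ)) : ∀ q s o : List ℕ,
    Relation.ReflTransGen Step ⟨d.flatten, [], q, s, o⟩
      ⟨[], [], q ++ (d.map List.reverse).flatten, s, o⟩ := by
  induction d with
  | nil =>
    intro q s o
    simpa using Relation.ReflTransGen.refl
  | cons b d ih =>
    intro q s o
    have h1 := run_push b d.flatten [] q s o
    have h2 := Step.empty d.flatten (b.reverse ++ []) q s o
    have h3 := ih (q ++ (b.reverse ++ [])) s o
    have h4 := (h1.tail h2).trans h3
    simpa using h4

theorem run_stack (n : ℕ) : ∀ q s o : List ℕ, 2 * q.length + s.length = n → (q ++ s).Nodup →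
    s.Pairwise (· < ·) → Av q → (∀ x ∈ s, ∀ y z, [y, z].Sublist q → ¬ (z < x ∧ x < y)) →
    ∃ w, Relation.ReflTransGen Step ⟨[], [], q, s, o⟩ ⟨[], [], [], [], o ++ w⟩ ∧
      w.Pairwise (· < ·) ∧ w.Perm (q ++ s) := by
  induction n with
  | zero =>
    intro q s o hn _ _ _ _
    have h1 : q = [] := List.eq_nil_of_length_eq_zero (by omega)
    have h2 : s = [] := List.eq_nil_of_length_eq_zero (by omega)
    subst h1 h2
    exact ⟨[], by simpa using Relation.ReflTransGen.refl, by simp, by simp⟩
  | succ n ihn =>
    intro q s o hn hnd hs hav hiv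
    -- writing the top of the stack
    have hwrite : ∀ b s', s = b :: s' → (∀ z ∈ q, b < z) →
        ∃ w, Relation.ReflTransGen Step ⟨[], [], q, s, o⟩ ⟨[], [], [], [], o ++ w⟩ ∧
          w.Pairwise (· < ·) ∧ w.Perm (q ++ s) := by
      rintro b s' rfl hb
      rw [List.pairwise_cons] at hs
      obtain ⟨w, w1, w2, w3⟩ := ihn q s' (o ++ [b]) (by rw [List.length_cons] at hn; omega)
        (hnd.sublist ((List.Sublist.refl _).append (List.sublist_cons_self _ _))) hs.2 hav
        (fun x hx => hiv x (List.mem_cons_of_mem _ hx))
      refine ⟨b :: w, ?_, ?_, ?_⟩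
      · have h1 := Relation.ReflTransGen.head (Step.write b [] [] q s' o) w1
        simpa using h1
      · rw [List.pairwise_cons]
        refine ⟨?_, w2⟩
        intro z hz
        rcases List.mem_append.1 ((w3.mem_iff).1 hz) with h | h
        · exact hb z h
        · exact hs.1 z h
      · exact (w3.cons b).trans (List.perm_middle.symm)
    have hpush : ∀ a q', q = a :: q' → (∀ z ∈ s, a < z) →
        ∃ w, Relation.ReflTransGen Step ⟨[], [], q, s, o⟩ ⟨[], [], [], [], o ++ w⟩ ∧
          w.Pairwise (· < ·) ∧ w.Perm (q ++ s) := by
      rintro a q' rfl ha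
      obtain ⟨w, w1, w2, w3⟩ := ihn q' (a :: s) o (by
          rw [List.length_cons] at hn ⊢; omega)
        ((List.perm_middle.nodup_iff).2 hnd)
        (List.pairwise_cons.2 ⟨ha, hs⟩) (hav.sub (List.sublist_cons_self _ _))
        (by
          intro x hx y z hyz
          rcases List.mem_cons.1 hx with rfl | hx
          · exact hav x y z (hyz.cons_cons _)
          · exact hiv x hx y z (hyz.cons _))
      refine ⟨w, ?_, w2, w3.trans List.perm_middle⟩
      exact Relation.ReflTransGen.head (Step.move a [] [] q' s o) w1
    cases q with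
    | nil =>
      cases s with
      | nil => simp at hn
      | cons b s' => exact hwrite b s' rfl (by simp)
    | cons a q' =>
      cases s with
      | nil => exact hpush a q' rfl (by simp)
      | cons b s' =>
        have hne : ∀ z ∈ a :: q', z ≠ b := by
          intro z hz hc
          rw [List.nodup_append] at hnd
          exact hnd.2.2 z hz b (by simp) hc
        rcases Nat.lt_or_ge a b with hab | hab
        · refine hpush a q' rfl ?_
          intro z hz
          rw [List.pairwise_cons] at hs
          rcases List.mem_cons.1 hz with rfl | hz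
          · exact hab
          · exact lt_trans hab (hs.1 z hz)
        · refine hwrite b s' rfl ?_
          intro z hz
          have h1 := hne a (by simp)
          rcases List.mem_cons.1 hz with rfl | hz
          · omega
          · have h2 := hne z (List.mem_cons_of_mem _ hz)
            have h3 := hiv b (by simp) a z (by
              rw [List.cons_sublist_cons, List.singleton_sublist]
              exact hz)
            omega

theorem sortable_of_blk {σ : List ℕ} (hp : IsPerm σ) (h : Blk σ) : Sortable σ := by
  obtain ⟨d, hd, hav⟩ := h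
  have hperm : ((d.map List.reverse).flatten).Perm σ := by
    rw [← hd]
    clear hav hd
    induction d with
    | nil => simp
    | cons b d ih =>
      simp only [List.map_cons, List.flatten_cons]
      exact (List.reverse_perm b).append ih
  have hnd : ((d.map List.reverse).flatten).Nodup :=
    (hperm.trans hp).nodup_iff.2 (List.nodup_range' (s := 1) (step := 1) (n := σ.length))
  obtain ⟨w, w1, w2, w3⟩ := run_stack _ ((d.map List.reverse).flatten) [] [] rfl
    (by simpa using hnd) (by simp) hav (by simp)
  have hw : w = List.range' 1 σ.length := by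
    have h1 : w.Perm (List.range' 1 σ.length) := by
      refine w3.trans ?_
      rw [List.append_nil]
      exact hperm.trans hp
    exact h1.eq_of_pairwise (fun a b _ _ h1 h2 => absurd (lt_trans h1 h2) (lt_irrefl _)) w2
      (List.pairwise_lt_range')
  have h2 := run_queue d [] [] []
  rw [List.nil_append] at h2
  have h3 := h2.trans w1
  rw [hd, hw, List.nil_append] at h3
  exact h3

/-- the property passes to subsequences -/
theorem blk_sub {s : List ℕ} (h : Blk s) : ∀ {s' : List ℕ}, s'.Sublist s → Blk s' := by
  obtain ⟨d, rfl, hav⟩ := h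
  intro s' hs
  suffices hh : ∃ d' : List (List ℕ), d'.flatten = s' ∧
      ((d'.map List.reverse).flatten).Sublist ((d.map List.reverse).flatten) by
    obtain ⟨d', h1, h2⟩ := hh
    exact ⟨d', h1, hav.sub h2⟩
  clear hav
  induction d generalizing s' with
  | nil =>
    refine ⟨[], ?_, by simp⟩
    have h1 : s' = [] := by simpa using hs
    exact h1.symm
  | cons b d ih =>
    rw [List.flatten_cons, List.sublist_append_iff] at hs
    obtain ⟨l1, l2, rfl, h1, h2⟩ := hs
    obtain ⟨d', h3, h4⟩ := ih h2
    refine ⟨l1 :: d', by simp [h3], ?_⟩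
    simp only [List.map_cons, List.flatten_cons]
    exact (h1.reverse).append h4

/-- the property only depends on the relative order -/
theorem blk_iso {s t : List ℕ} (h : Blk s) (hnd : s.Nodup) (hl : s.length = t.length)
    (hiso : ∀ i < t.length, ∀ j < t.length, (s.getD i 0 < s.getD j 0 ↔ t.getD i 0 < t.getD j 0)) :
    Blk t := by
  obtain ⟨d, rfl, hav⟩ := h
  set s := d.flatten with hs
  set φ : ℕ → ℕ := fun x => t.getD (s.idxOf x) 0 with hφ
  have hmap : s.map φ = t := by
    apply List.ext_getElem
    · simpa using hl
    · intro i h1 h2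
      rw [List.getElem_map]
      have h3 : i < s.length := by simpa using h1
      simp only [hφ]
      rw [List.Nodup.idxOf_getElem hnd i h3, List.getD_eq_getElem?_getD,
        List.getElem?_eq_getElem h2]
      rfl
  have hmono : ∀ x ∈ s, ∀ y ∈ s, φ x < φ y → x < y := by
    intro x hx y hy h
    have h1 := List.idxOf_lt_length_of_mem hx
    have h2 := List.idxOf_lt_length_of_mem hy
    have h3 := (hiso _ (by omega) _ (by omega)).2 h
    rw [List.getD_eq_getElem?_getD, List.getElem?_eq_getElem h1, List.getD_eq_getElem?_getD,
      List.getElem?_eq_getElem h2] at h3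
    simpa using h3
  refine ⟨d.map (List.map φ), ?_, ?_⟩
  · rw [← List.map_flatten]
    exact hmap
  · have e1 : ((d.map (List.map φ)).map List.reverse).flatten =
        ((d.map List.reverse).flatten).map φ := by
      rw [List.map_flatten, List.map_map, List.map_map]
      congr 1
      apply List.map_congr_left
      intro b _
      simp
    rw [e1]
    intro x y z hxyz
    rw [List.sublist_map_iff] at hxyz
    obtain ⟨l, h1, h2⟩ := hxyz
    have hmemr : ∀ x ∈ (d.map List.reverse).flatten, x ∈ s := by
      intro x hx
      rw [List.mem_flatten] at hx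
      obtain ⟨l, hl, hxl⟩ := hx
      obtain ⟨b, hb, rfl⟩ := List.mem_map.1 hl
      rw [hs, List.mem_flatten]
      exact ⟨b, hb, by simpa using hxl⟩
    match l, h2 with
    | [x', y', z'], h2 =>
      simp only [List.map_cons, List.map_nil, List.cons.injEq, and_true] at h2
      obtain ⟨rfl, rfl, rfl⟩ := h2
      have m1 := hmemr x' (h1.subset (by simp))
      have m2 := hmemr y' (h1.subset (by simp))
      have m3 := hmemr z' (h1.subset (by simp))
      rintro ⟨h3, h4⟩
      exact hav x' y' z' h1 ⟨hmono _ m3 _ m1 h3, hmono _ m1 _ m2 h4⟩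
    | [], h2 => simp at h2
    | [_], h2 => simp at h2
    | [_, _], h2 => simp at h2
    | _ :: _ :: _ :: _ :: _, h2 => simp at h2

end Pool.Agent.H49.PQS
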