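import Pool.Agent.H49.PQS.Chk

/-!
Soundness of the checker.
-/

namespace Pool.Agent.H49.PQS

theorem beq_ff {a b : ℕ} (h : a ≠ b) : Nat.beq a b = false := by
  cases h2 : Nat.beq a b with
  | false => rfl
  | true => exact absurd (Nat.eq_of_beq_eq_true h2) h

theorem elem_iff (u : ℕ) (L : List ℕ) : elem u L = true ↔ u ∈ L := by
  induction L with
  | nil => simp [elem]
  | cons c L ih =>
    have : elem u (c :: L) = cond (Nat.beq c u) true (elem u L) := rfl
    rw [this]
    by_cases h : c = u
    · subst h
      simp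
    · have h2 : Nat.beq c u = false := beq_ff h
      rw [h2, cond_false, ih]
      simp only [List.mem_cons]
      constructor
      · exact Or.inr
      · rintro (h3 | h3)
        · exact absurd h3.symm h
        · exact h3

theorem walkx_sound (g : ℕ → ℕ) (ok : ℕ → ℕ → Bool) (cs : List ℕ) :
    ∀ ps : List (ℕ × ℕ), walkx g ok cs ps = true →
      (ps.map (fun e => g e.1)).Sublist cs ∧ ∀ e ∈ ps, ok (g e.1) e.2 = true := by
  induction cs with
  | nil =>
    intro ps h
    cases ps with
    | nil => simp
    | cons e ps => exact absurd h (by simp [walkx])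
  | cons c cs ih =>
    intro ps h
    cases ps with
    | nil => simp
    | cons e ps =>
      have e1 : walkx g ok (c :: cs) (e :: ps) = cond (Nat.beq c (g e.1))
        (cond (ok c e.2) (walkx g ok cs ps) false) (walkx g ok cs (e :: ps)) := rfl
      rw [e1] at h
      by_cases h1 : c = g e.1
      · have h2 : Nat.beq c (g e.1) = true := by simpa using h1
        rw [h2, cond_true] at h
        cases h3 : ok c e.2 with
        | false => rw [h3] at h; exact absurd h (by simp)
        | true =>
          rw [h3, cond_true] at h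
          obtain ⟨h4, h5⟩ := ih ps h
          subst h1
          refine ⟨?_, ?_⟩
          · rw [List.map_cons]
            exact h4.cons_cons _
          · intro e' he'
            rcases List.mem_cons.1 he' with rfl | he'
            · exact h3
            · exact h5 e' he'
      · have h2 : Nat.beq c (g e.1) = false := beq_ff h1
        rw [h2, cond_false] at h
        obtain ⟨h4, h5⟩ := ih _ h
        exact ⟨h4.cons _, h5⟩

theorem walky_sound (g : ℕ → ℕ) (k : List ℕ → Bool) (cs : List ℕ) :
    ∀ ps : List ℕ, walky g k cs ps = true →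
      ∃ r, k r = true ∧ (ps.map g ++ r).Sublist cs := by
  induction cs with
  | nil =>
    intro ps h
    cases ps with
    | nil => exact ⟨[], h, by simp⟩
    | cons e ps => exact absurd h (by simp [walky])
  | cons c cs ih =>
    intro ps h
    cases ps with
    | nil => exact ⟨c :: cs, h, by simp⟩
    | cons e ps =>
      have e1 : walky g k (c :: cs) (e :: ps) = cond (Nat.beq c (g e))
        (walky g k cs ps) (walky g k cs (e :: ps)) := rfl
      rw [e1] at h
      by_cases h1 : c = g e
      · have h2 : Nat.beq c (g e) = true := by simpa using h1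
        rw [h2, cond_true] at h
        obtain ⟨r, h4, h5⟩ := ih ps h
        subst h1
        refine ⟨r, h4, ?_⟩
        rw [List.map_cons, List.cons_append]
        exact h5.cons_cons _
      · have h2 : Nat.beq c (g e) = false := beq_ff h1
        rw [h2, cond_false] at h
        obtain ⟨r, h4, h5⟩ := ih _ h
        exact ⟨r, h4, h5.cons _⟩

theorem nthC_sound {α : Type} (L : List α) (f : α → Bool) :
    ∀ i, nthC L f i = true → ∃ x ∈ L, f x = true := by
  induction L with
  | nil => intro i h; exact absurd h (by simp [nthC])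
  | cons x L ih =>
    intro i h
    cases i with
    | zero => exact ⟨x, by simp, h⟩
    | succ i =>
      obtain ⟨y, h1, h2⟩ := ih i h
      exact ⟨y, List.mem_cons_of_mem _ h1, h2⟩

theorem revOnto_eq (pre : List ℕ) : ∀ post, revOnto pre post = pre.reverse ++ post := by
  induction pre with
  | nil => intro post; rfl
  | cons x pre ih =>
    intro post
    have : revOnto (x :: pre) post = revOnto pre (x :: post) := rfl
    rw [this, ih]
    simp

theorem ins_cons (w : ℕ) (high low : ℕ → Bool) (x : ℕ) (xs pre : List ℕ) (acc : List (List ℕ)) :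
    ins w high low (x :: xs) pre acc = cond (high x)
      (cond (low x) [] (revOnto pre (w :: x :: xs) :: acc))
      (cond (low x) (ins w high low xs (x :: pre) [])
        (ins w high low xs (x :: pre) (revOnto pre (w :: x :: xs) :: acc))) := rfl

theorem ins_mem (w : ℕ) (high low : ℕ → Bool) (xs : List ℕ) :
    ∀ (pre : List ℕ) (acc : List (List ℕ)) (L : List ℕ), L ∈ acc → (∀ u ∈ xs, low u = false) →
      L ∈ ins w high low xs pre acc := by
  induction xs with
  | nil => intro pre acc L h _; exact List.mem_cons_of_mem _ h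
  | cons x xs ih =>
    intro pre acc L h h2
    rw [ins_cons, h2 x (by simp), cond_false, cond_false]
    cases high x with
    | true => exact List.mem_cons_of_mem _ h
    | false =>
      exact ih _ _ _ (List.mem_cons_of_mem _ h) (fun u hu => h2 u (List.mem_cons_of_mem _ hu))

theorem ins_sound (p : ℕ → ℕ) (w r : ℕ) (high low : ℕ → Bool) (xs : List ℕ) :
    ∀ (pre : List ℕ) (acc : List (List ℕ)), xs.Pairwise (fun i j => p i < p j) →
      (∀ u ∈ pre, p u < r) → (∀ u ∈ xs, p u ≠ r) → (∀ u ∈ xs, high u = true → r < p u) →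
      (∀ u ∈ xs, low u = true → p u < r) →
      ∃ pre' post', pre.reverse ++ xs = pre' ++ post' ∧ (∀ u ∈ pre', p u < r) ∧
        (∀ u ∈ post', r < p u) ∧ pre' ++ w :: post' ∈ ins w high low xs pre acc := by
  induction xs with
  | nil =>
    intro pre acc _ h2 _ _ _
    refine ⟨pre.reverse, [], rfl, fun u hu => h2 u (by simpa using hu), by simp, ?_⟩
    have : ins w high low [] pre acc = revOnto pre [w] :: acc := rfl
    rw [this, revOnto_eq]
    simp
  | cons x xs ih =>
    intro pre acc h1 h2 h3 h4 h5
    rw [List.pairwise_cons] at h1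
    rw [ins_cons]
    by_cases hx : p x < r
    · have e1 : high x = false := by
        by_contra hc
        have := h4 x (by simp) (by simpa using hc)
        omega
      rw [e1, cond_false]
      have key : ∀ acc', ∃ pre' post', pre.reverse ++ x :: xs = pre' ++ post' ∧
          (∀ u ∈ pre', p u < r) ∧ (∀ u ∈ post', r < p u) ∧
          pre' ++ w :: post' ∈ ins w high low xs (x :: pre) acc' := by
        intro acc'
        obtain ⟨pre', post', g1, g2, g3, g4⟩ := ih (x :: pre) acc' h1.2
          (by
            intro u hu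
            rcases List.mem_cons.1 hu with rfl | hu
            · exact hx
            · exact h2 u hu)
          (fun u hu => h3 u (List.mem_cons_of_mem _ hu))
          (fun u hu => h4 u (List.mem_cons_of_mem _ hu))
          (fun u hu => h5 u (List.mem_cons_of_mem _ hu))
        exact ⟨pre', post', by rw [← g1]; simp, g2, g3, g4⟩
      cases low x with
      | true => exact key _
      | false => exact key _
    · have hx2 : r < p x := by
        have := h3 x (by simp)
        omega
      have hup : ∀ u ∈ x :: xs, r < p u := by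
        intro u hu
        rcases List.mem_cons.1 hu with rfl | hu
        · exact hx2
        · exact lt_trans hx2 (h1.1 u hu)
      have hlow : ∀ u ∈ x :: xs, low u = false := by
        intro u hu
        by_contra hc
        have := h5 u hu (by simpa using hc)
        have := hup u hu
        omega
      refine ⟨pre.reverse, x :: xs, rfl, fun u hu => h2 u (by simpa using hu), hup, ?_⟩
      rw [hlow x (by simp), cond_false, cond_false, revOnto_eq]
      cases high x with
      | true => simp
      | false =>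
        rw [cond_false]
        exact ins_mem _ _ _ _ _ _ _ (by simp) (fun u hu => hlow u (List.mem_cons_of_mem _ hu))

theorem cand_cons (high low res : ℕ → Bool) (x : ℕ) (xs acc : List ℕ) :
    cand high low res (x :: xs) acc = cond (high x) (cond (low x) [] (cond (res x) [] acc))
      (cond (low x) (cand high low res xs []) (cond (res x) (cand high low res xs [x])
        (cand high low res xs (x :: acc)))) := rfl

theorem cand_mem (high low res : ℕ → Bool) (xs : List ℕ) :
    ∀ (acc : List ℕ) (u : ℕ), u ∈ acc → (∀ v ∈ xs, low v = false ∧ res v = false) →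
      u ∈ cand high low res xs acc := by
  induction xs with
  | nil => intro acc u h _; exact h
  | cons x xs ih =>
    intro acc u h h2
    rw [cand_cons, (h2 x (by simp)).1, (h2 x (by simp)).2]
    simp only [cond_false]
    cases high x with
    | true => exact h
    | false =>
      exact ih _ _ (List.mem_cons_of_mem _ h) (fun v hv => h2 v (List.mem_cons_of_mem _ hv))

theorem cand_sound (p : ℕ → ℕ) (v r : ℕ) (high low res : ℕ → Bool) (xs : List ℕ) :
    ∀ (acc : List ℕ), xs.Pairwise (fun i j => p i < p j) → v ∈ xs → p v = r →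
      (∀ u ∈ xs, high u = true → r < p u) → (∀ u ∈ xs, low u = true → p u < r) →
      (∀ u ∈ xs, res u = true → p u ≤ r) → v ∈ cand high low res xs acc := by
  induction xs with
  | nil => intro acc _ h; exact absurd h (by simp)
  | cons x xs ih =>
    intro acc h1 h2 h3 h4 h5 h6
    rw [List.pairwise_cons] at h1
    rw [cand_cons]
    have e1 : high x = false := by
      by_contra hc
      have h7 := h4 x (by simp) (by simpa using hc)
      rcases List.mem_cons.1 h2 with rfl | h2
      · omega
      · have := h1.1 v h2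
        omega
    rw [e1, cond_false]
    by_cases hx : v = x
    · subst hx
      have e2 : low v = false := by
        by_contra hc
        have h7 := h5 v (by simp) (by simpa using hc)
        omega
      rw [e2, cond_false]
      have hl : ∀ u ∈ xs, low u = false ∧ res u = false := by
        intro u hu
        have hu2 := h1.1 u hu
        constructor
        · by_contra hc
          have := h5 u (List.mem_cons_of_mem _ hu) (by simpa using hc)
          omega
        · by_contra hc
          have := h6 u (List.mem_cons_of_mem _ hu) (by simpa using hc)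
          omega
      cases res v with
      | true => exact cand_mem _ _ _ _ _ _ (by simp) hl
      | false => exact cand_mem _ _ _ _ _ _ (by simp) hl
    · have hv : v ∈ xs := by
        rcases List.mem_cons.1 h2 with h | h
        · exact absurd h hx
        · exact h
      have key : ∀ acc', v ∈ cand high low res xs acc' := fun acc' =>
        ih acc' h1.2 hv h3 (fun u hu => h4 u (List.mem_cons_of_mem _ hu))
          (fun u hu => h5 u (List.mem_cons_of_mem _ hu))
          (fun u hu => h6 u (List.mem_cons_of_mem _ hu))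
      cases low x with
      | true => exact key _
      | false =>
        cases res x with
        | true => exact key _
        | false => exact key _

theorem loop_sound {α : Type} (f : α → (List ℕ → Bool) → List ℕ → Bool) (B : α → Prop)
    (L : List α) (k : List ℕ → Bool) :
    (∀ x ∈ L, ∀ k cs, f x k cs = true → B x ∧ ∃ cs', k cs' = true) → ∀ cs,
      loop f k L cs = true → (∀ x ∈ L, B x) ∧ ∃ cs', k cs' = true := by
  induction L with
  | nil => intro _ cs h; exact ⟨by simp, cs, h⟩
  | cons x L ih =>
    intro hf cs h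
    have e1 : loop f k (x :: L) cs = f x (loop f k L) cs := rfl
    rw [e1] at h
    obtain ⟨h1, cs', h2⟩ := hf x (by simp) _ _ h
    obtain ⟨h3, h4⟩ := ih (fun y hy => hf y (List.mem_cons_of_mem _ hy)) cs' h2
    refine ⟨?_, h4⟩
    intro y hy
    rcases List.mem_cons.1 hy with rfl | hy
    · exact h1
    · exact h3 y hy

theorem fresh_sound (a : ℕ → ℕ) (w x : ℕ) (xs : List ℕ) (h : fresh a w x xs = true) :
    ∀ u ∈ xs, u ≠ w ∧ a u ≠ x := by
  induction xs with
  | nil => simp
  | cons c xs ih =>
    have e1 : fresh a w x (c :: xs) = cond (Nat.beq c w) false (cond (Nat.beq (a c) x) false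
      (fresh a w x xs)) := rfl
    rw [e1] at h
    cases h1 : Nat.beq c w with
    | true => rw [h1] at h; exact absurd h (by simp)
    | false =>
      cases h2 : Nat.beq (a c) x with
      | true => rw [h1, h2] at h; exact absurd h (by simp)
      | false =>
        rw [h1, h2] at h
        intro u hu
        rcases List.mem_cons.1 hu with rfl | hu
        · constructor
          · intro hc
            subst hc
            simp at h1
          · intro hc
            subst hc
            simp at h2
        · exact ih h u hu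

theorem upd_self (a : ℕ → ℕ) (w v : ℕ) : upd a w v w = v := by simp [upd]

theorem upd_ne (a : ℕ → ℕ) (w v u : ℕ) (h : u ≠ w) : upd a w v u = a u := by
  have : Nat.beq u w = false := beq_ff h
  simp [upd, this]

/-- an occurrence of a labelled pattern -/
def Emb (mem : ℕ → ℕ → Prop) (V : ℕ → ℕ) (px : List (ℕ × ℕ)) (py : List ℕ) (q : ℕ → ℕ) : Prop :=
  (∀ e ∈ px, mem e.2 (q e.1)) ∧ (px.map Prod.fst).Pairwise (fun i j => q i < q j) ∧
    py.Pairwise (fun i j => V (q i) < V (q j))

structure Ctx (V : ℕ → ℕ) (mem : ℕ → ℕ → Prop) (TT : List Pat) (UT : List UPat) (bd : ℕ) :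
    Prop where
  ord : ∀ l l' r r', mem l r → mem l' r' → l < l' → r < r'
  inj : ∀ l l' r r', mem l r → mem l' r' → V r = V r' → r = r'
  top : ∀ l r r', mem l r → l ≠ 2 → mem 2 r' → V r < V r'
  free : ∀ t ∈ TT, ∀ q, ¬ Emb (fun l r => ∃ l', mem l' r ∧ (l' + 2) / 3 = l) V t.px t.py q
  mini : ∀ u ∈ UT, ∀ q, Emb mem V u.px (u.pm ++ u.pr) q → bd ≤ V (q u.mi)
  con : ∀ u ∈ UT, u.mi ∈ u.pm

structure POK (V : ℕ → ℕ) (mem : ℕ → ℕ → Prop) (bd : ℕ) (P : List PE) (q : ℕ → ℕ) : Prop where
  mem : ∀ e ∈ P, mem e.l (q e.x)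
  f1 : ∀ e ∈ P, e.f = 1 → bd ≤ V (q e.x)
  f2 : ∀ e ∈ P, e.f = 2 → V (q e.x) < bd
  ox : ∀ e ∈ P, ∀ e' ∈ P, e.x < e'.x → q e.x < q e'.x
  oy : ∀ e ∈ P, ∀ e' ∈ P, e.y < e'.y → V (q e.x) < V (q e'.x)

structure Rel (V : ℕ → ℕ) (mem : ℕ → ℕ → Prop) (bd : ℕ) (P : List PE) (q : ℕ → ℕ)
    (lab : ℕ → ℕ) (mk : ℕ) (xs ys : List ℕ) (a b : ℕ → ℕ) (p : ℕ → ℕ) : Prop where
  lx : xs.Pairwise (fun i j => p i < p j)
  ly : ys.Pairwise (fun i j => V (p i) < V (p j))
  mem : ∀ u ∈ xs, mem (lab u) (p u)
  eq : ∀ u, u ∈ xs ↔ u ∈ ys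
  hmk : mk ∈ ys ∧ V (p mk) = bd
  mt : ∀ u ∈ xs, (a u = 0 ∧ b u = 0) ∨ ∃ e ∈ P, e.x = a u ∧ e.y = b u ∧ q e.x = p u

section
variable {V : ℕ → ℕ} {mem : ℕ → ℕ → Prop} {TT : List Pat} {UT : List UPat} {bd : ℕ}
  {P : List PE} {q : ℕ → ℕ} {lab : ℕ → ℕ} {mk : ℕ}

theorem tcl_sta
    (hC : ∀ t ∈ TT, ∀ q, ¬ Emb (fun l r => ∃ l', mem l' r ∧ (l' + 2) / 3 = l) V t.px t.py q)
    {xs ys : List ℕ} {p : ℕ → ℕ} (hlx : xs.Pairwise (fun i j => p i < p j))
    (hly : ys.Pairwise (fun i j => V (p i) < V (p j))) (hmem : ∀ u ∈ xs, mem (lab u) (p u))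
    (js : ℕ) (t : Pat) (ht : t ∈ TT)
    (hc : tcl lab xs ys js t = true) : False := by
  unfold tcl at hc
  cases h1 : walkx (dig js) (fun c l => Nat.beq (Nat.div (Nat.add (lab c) 2) 3) l) xs t.px with
  | false => rw [h1] at hc; exact absurd hc (by simp)
  | true =>
    rw [h1, cond_true] at hc
    obtain ⟨s1, s2⟩ := walkx_sound _ _ _ _ h1
    obtain ⟨r, _, s3⟩ := walky_sound _ _ _ _ hc
    refine hC t ht (fun i => p (dig js i)) ⟨?_, ?_, ?_⟩
    · intro e he
      have hm : dig js e.1 ∈ xs := s1.subset (List.mem_map.2 ⟨e, he, rfl⟩)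
      refine ⟨lab (dig js e.1), hmem _ hm, ?_⟩
      exact Nat.eq_of_beq_eq_true (s2 e he)
    · have := hlx.sublist s1
      rw [List.pairwise_map] at this ⊢
      exact this
    · have h3 := hly.sublist ((List.sublist_append_left _ _).trans s3)
      rw [List.pairwise_map] at h3
      exact h3

theorem tcl_sound (hC : Ctx V mem TT UT bd) {xs ys : List ℕ} {a b : ℕ → ℕ} {p : ℕ → ℕ}
    (h : Rel V mem bd P q lab mk xs ys a b p) (js : ℕ) (t : Pat) (ht : t ∈ TT)
    (hc : tcl lab xs ys js t = true) : False :=
  tcl_sta hC.free h.lx h.ly h.mem js t ht hc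

theorem ucl_sound (hC : Ctx V mem TT UT bd) {xs ys : List ℕ} {a b : ℕ → ℕ} {p : ℕ → ℕ}
    (h : Rel V mem bd P q lab mk xs ys a b p) (js : ℕ) (u : UPat) (hu : u ∈ UT)
    (hc : ucl lab mk xs ys js u = true) : False := by
  unfold ucl at hc
  cases h1 : walkx (dig js) (fun c l => Nat.beq (lab c) l) xs u.px with
  | false => rw [h1] at hc; exact absurd hc (by simp)
  | true =>
    rw [h1, cond_true] at hc
    obtain ⟨s1, s2⟩ := walkx_sound _ _ _ _ h1
    obtain ⟨r, hr, s3⟩ := walky_sound _ _ _ _ hc
    cases h2 : elem mk r with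
    | false => rw [h2] at hr; exact absurd hr (by simp)
    | true =>
      rw [h2, cond_true] at hr
      rw [elem_iff] at h2
      obtain ⟨r', _, s4⟩ := walky_sound _ _ _ _ hr
      have s5 : ((u.pm ++ u.pr).map (dig js)).Sublist ys := by
        rw [List.map_append]
        exact ((List.Sublist.refl _).append ((List.sublist_append_left _ _).trans s4)).trans s3
      have key : Emb mem V u.px (u.pm ++ u.pr) (fun i => p (dig js i)) := by
        refine ⟨?_, ?_, ?_⟩
        · intro e he
          have hm : dig js e.1 ∈ xs := s1.subset (List.mem_map.2 ⟨e, he, rfl⟩)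
          have h3 := s2 e he
          have h4 : lab (dig js e.1) = e.2 := by simpa using h3
          rw [← h4]
          exact h.mem _ hm
        · have := h.lx.sublist s1
          rw [List.pairwise_map] at this ⊢
          exact this
        · have h3 := h.ly.sublist s5
          rw [List.pairwise_map] at h3
          exact h3
      have h6 := hC.mini u hu _ key
      have h7 := h.ly.sublist s3
      rw [List.pairwise_append] at h7
      have h8 := h7.2.2 (dig js u.mi) (List.mem_map.2 ⟨u.mi, hC.con u hu, rfl⟩) mk h2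
      rw [h.hmk.2] at h8
      exact absurd h6 (not_le.2 h8)

theorem highx_true {a : ℕ → ℕ} {l x u : ℕ} (h : highx lab a l x u = true) :
    l < lab u ∨ x < a u := by
  by_contra hc
  have h1 : Nat.ble (lab u) l = true := Nat.ble_eq_true_of_le (by omega)
  have h2 : Nat.ble (a u) x = true := Nat.ble_eq_true_of_le (by omega)
  rw [highx, h1, h2] at h
  simp at h

theorem lowx_true {a : ℕ → ℕ} {l x u : ℕ} (h : lowx lab a l x u = true) :
    lab u < l ∨ (a u ≠ 0 ∧ a u < x) := by
  by_contra hc
  have h1 : Nat.ble l (lab u) = true := Nat.ble_eq_true_of_le (by omega)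
  rw [lowx, h1, cond_true] at h
  by_cases h2 : a u = 0
  · rw [h2] at h
    simp at h
  · have h3 : Nat.ble x (a u) = true := Nat.ble_eq_true_of_le (by omega)
    rw [beq_ff h2, h3] at h
    simp at h

theorem highy_true {b : ℕ → ℕ} {y f u : ℕ} (h : highy b y f mk u = true) :
    u = 0 ∨ y < b u ∨ (u = mk ∧ f = 2) := by
  by_contra hc
  push Not at hc
  have h2 : Nat.ble (b u) y = true := Nat.ble_eq_true_of_le (by omega)
  rw [highy, beq_ff hc.1, h2, cond_false, cond_true] at h
  by_cases h3 : u = mk
  · rw [beq_ff (hc.2.2 h3)] at h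
    simp at h
  · rw [beq_ff h3] at h
    simp at h

theorem lowy_true {b : ℕ → ℕ} {y u : ℕ} (h : lowy b y u = true) : b u ≠ 0 ∧ b u < y := by
  by_contra hc
  rw [lowy] at h
  by_cases h2 : b u = 0
  · rw [h2] at h
    simp at h
  · have h3 : Nat.ble y (b u) = true := Nat.ble_eq_true_of_le (by omega)
    rw [beq_ff h2, h3] at h
    simp at h

theorem resy_true {f u : ℕ} (h : resy f mk u = true) : u = mk ∧ f = 1 := by
  rw [resy] at h
  by_cases h2 : u = mk
  · subst h2
    refine ⟨rfl, ?_⟩
    have : Nat.beq u u = true := by simp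
    rw [this, cond_true] at h
    exact Nat.eq_of_beq_eq_true h
  · rw [beq_ff h2] at h
    simp at h

theorem lowy'_true {b : ℕ → ℕ} {y f u : ℕ} (h : lowy' b y f mk u = true) :
    (b u ≠ 0 ∧ b u < y) ∨ (u = mk ∧ f = 1) := by
  rw [lowy'] at h
  by_cases h2 : u = mk
  · subst h2
    have : Nat.beq u u = true := by simp
    rw [this, cond_true] at h
    cases h3 : Nat.beq f 1 with
    | true => exact Or.inr ⟨rfl, Nat.eq_of_beq_eq_true h3⟩
    | false =>
      rw [h3, cond_false] at h
      exact Or.inl (lowy_true h)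
  · rw [beq_ff h2, cond_false] at h
    exact Or.inl (lowy_true h)

theorem rel_old {e : PE} (he : e ∈ P) {xs ys : List ℕ} {a b : ℕ → ℕ} {p : ℕ → ℕ}
    (h : Rel V mem bd P q lab mk xs ys a b p) {u : ℕ} (hu : p u = q e.x) :
    Rel V mem bd P q lab mk xs ys (upd a u e.x) (upd b u e.y) p := by
  refine ⟨h.lx, h.ly, h.mem, h.eq, h.hmk, ?_⟩
  intro v hv
  by_cases hvu : v = u
  · subst hvu
    right
    exact ⟨e, he, by rw [upd_self], by rw [upd_self], hu.symm⟩
  · rw [upd_ne _ _ _ _ hvu, upd_ne _ _ _ _ hvu]
    exact h.mt v hv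

/-- facts about the next element -/
theorem nxt (hC : Ctx V mem TT UT bd) (hq : POK V mem bd P q) (h0 : lab 0 = 2) {w l x y f : ℕ}
    (he : PE.mk w l x y f ∈ P) (hl : l ≠ 2)
    {xs ys : List ℕ} {a b : ℕ → ℕ} {p : ℕ → ℕ} (h : Rel V mem bd P q lab mk xs ys a b p)
    (hax : ∀ u ∈ xs, a u ≠ x) :
    (∀ u ∈ xs, highx lab a l x u = true → q x < p u) ∧
    (∀ u ∈ xs, lowx lab a l x u = true → p u < q x) ∧
    (∀ u ∈ xs, highy b y f mk u = true → V (q x) < V (p u)) ∧
    (∀ u ∈ xs, lowy b y u = true → V (p u) < V (q x)) ∧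
    (∀ u ∈ xs, resy f mk u = true → V (p u) ≤ V (q x)) ∧
    (∀ u ∈ xs, p u = q x → a u = 0 ∧ lab u = l) := by
  have hmx : mem l (q x) := hq.mem _ he
  refine ⟨?_, ?_, ?_, ?_, ?_, ?_⟩
  · intro u hu h1
    rcases highx_true h1 with h2 | h2
    · exact hC.ord _ _ _ _ hmx (h.mem u hu) h2
    · rcases h.mt u hu with h3 | ⟨e', he', h3, h4, h5⟩
      · omega
      · rw [← h5]
        exact hq.ox _ he _ he' (by change x < e'.x; omega)
  · intro u hu h1
    rcases lowx_true h1 with h2 | h2
    · exact hC.ord _ _ _ _ (h.mem u hu) hmx h2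
    · rcases h.mt u hu with h3 | ⟨e', he', h3, h4, h5⟩
      · omega
      · rw [← h5]
        exact hq.ox _ he' _ he (by change e'.x < x; omega)
  · intro u hu h1
    rcases highy_true h1 with h2 | h2 | ⟨h2, h3⟩
    · subst h2
      have := h.mem 0 hu
      rw [h0] at this
      exact hC.top _ _ _ hmx hl this
    · rcases h.mt u hu with h3 | ⟨e', he', h3, h4, h5⟩
      · omega
      · rw [← h5]
        exact hq.oy _ he _ he' (by change y < e'.y; omega)
    · subst h2
      rw [h.hmk.2]
      exact hq.f2 _ he h3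
  · intro u hu h1
    have h2 := lowy_true h1
    rcases h.mt u hu with h3 | ⟨e', he', h3, h4, h5⟩
    · omega
    · rw [← h5]
      exact hq.oy _ he' _ he (by change e'.y < y; omega)
  · intro u hu h1
    obtain ⟨h2, h3⟩ := resy_true h1
    subst h2
    rw [h.hmk.2]
    exact hq.f1 _ he h3
  · intro u hu h1
    constructor
    · rcases h.mt u hu with h3 | ⟨e', he', h3, h4, h5⟩
      · exact h3.1
      · exfalso
        have h6 := hax u hu
        rcases Nat.lt_trichotomy x e'.x with h7 | h7 | h7
        · have := hq.ox _ he _ he' h7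
          change q x < q e'.x at this
          omega
        · omega
        · have := hq.ox _ he' _ he h7
          change q e'.x < q x at this
          omega
    · have h2 := h.mem u hu
      rw [h1] at h2
      rcases Nat.lt_trichotomy (lab u) l with h3 | h3 | h3
      · exact absurd (hC.ord _ _ _ _ h2 hmx h3) (lt_irrefl _)
      · exact h3
      · exact absurd (hC.ord _ _ _ _ hmx h2 h3) (lt_irrefl _)

theorem mem_insert' {pre post xs : List ℕ} {w : ℕ} (h : xs = pre ++ post) (u : ℕ) :
    u ∈ pre ++ w :: post ↔ u = w ∨ u ∈ xs := by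
  subst h
  simp only [List.mem_append, List.mem_cons]
  tauto

theorem pair_insert {R : ℕ → ℕ → Prop} {R' : ℕ → ℕ → Prop} {pre post xs : List ℕ} {w : ℕ}
    (h : xs = pre ++ post) (h1 : xs.Pairwise R) (h2 : ∀ u ∈ xs, ∀ v ∈ xs, R u v → R' u v)
    (h3 : ∀ u ∈ pre, R' u w) (h4 : ∀ u ∈ post, R' w u) : (pre ++ w :: post).Pairwise R' := by
  subst h
  have h5 : (pre ++ post).Pairwise R' :=
    List.Pairwise.imp_of_mem (fun {u v} hu hv huv => h2 u hu v hv huv) h1
  rw [List.pairwise_append] at h5 ⊢
  refine ⟨h5.1, ?_, ?_⟩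
  · rw [List.pairwise_cons]
    exact ⟨h4, h5.2.1⟩
  · intro u hu v hv
    rcases List.mem_cons.1 hv with rfl | hv
    · exact h3 u hu
    · exact h5.2.2 u hu v hv

theorem rel_new (hC : Ctx V mem TT UT bd) (hq : POK V mem bd P q) (h0 : lab 0 = 2)
    {w l x y f : ℕ} (he : PE.mk w l x y f ∈ P) (hl : l ≠ 2) (hw : lab w = l)
    {xs ys : List ℕ} {a b : ℕ → ℕ} {p : ℕ → ℕ} (h : Rel V mem bd P q lab mk xs ys a b p)
    (hax : ∀ u ∈ xs, u ≠ w ∧ a u ≠ x) (hno : ∀ u ∈ xs, p u ≠ q x) :
    ∃ xs' ∈ ins w (highx lab a l x) (lowx lab a l x) xs [] [],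
      ∃ ys' ∈ ins w (highy b y f mk) (lowy' b y f mk) ys [] [],
      Rel V mem bd P q lab mk xs' ys' (upd a w x) (upd b w y) (upd p w (q x)) := by
  obtain ⟨n1, n2, n3, n4, n5, n6⟩ := nxt hC hq h0 he hl h (fun u hu => (hax u hu).2)
  have hmx : mem l (q x) := hq.mem _ he
  have hyx : ∀ u ∈ ys, u ∈ xs := fun u hu => (h.eq u).2 hu
  obtain ⟨pre, post, e1, e2, e3, e4⟩ := ins_sound p w (q x) (highx lab a l x) (lowx lab a l x) xs
    [] [] h.lx (by simp) hno n1 n2
  have hnoV : ∀ u ∈ ys, V (p u) ≠ V (q x) := by
    intro u hu hc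
    exact hno u (hyx u hu) (hC.inj _ _ _ _ (h.mem u (hyx u hu)) hmx hc)
  obtain ⟨pre2, post2, g1, g2, g3, g4⟩ := ins_sound (fun u => V (p u)) w (V (q x))
    (highy b y f mk) (lowy' b y f mk) ys [] [] h.ly (by simp) hnoV
    (fun u hu => n3 u (hyx u hu))
    (by
      intro u hu h1
      rcases lowy'_true h1 with h2 | ⟨h2, h3⟩
      · rcases h.mt u (hyx u hu) with h3 | ⟨e', he', h3, h4, h5⟩
        · omega
        · rw [← h5]
          exact hq.oy _ he' _ he (by change e'.y < y; omega)
      · subst h2
        have h4 := hq.f1 _ he h3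
        change bd ≤ V (q x) at h4
        have h5 := hnoV u hu
        rw [h.hmk.2] at h5 ⊢
        omega)
  rw [List.reverse_nil, List.nil_append] at e1 g1
  have hpu : ∀ u ∈ xs, upd p w (q x) u = p u := fun u hu => upd_ne _ _ _ _ (hax u hu).1
  have hpre : ∀ u ∈ pre, u ∈ xs := fun u hu => by rw [e1]; exact List.mem_append_left _ hu
  have hpost : ∀ u ∈ post, u ∈ xs := fun u hu => by rw [e1]; exact List.mem_append_right _ hu
  have hpre2 : ∀ u ∈ pre2, u ∈ xs := fun u hu => hyx u (by
    rw [g1]; exact List.mem_append_left _ hu)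
  have hpost2 : ∀ u ∈ post2, u ∈ xs := fun u hu => hyx u (by
    rw [g1]; exact List.mem_append_right _ hu)
  refine ⟨_, e4, _, g4, ?_, ?_, ?_, ?_, ?_, ?_⟩
  · refine pair_insert e1 h.lx ?_ ?_ ?_
    · intro u hu v hv huv
      rw [hpu u hu, hpu v hv]
      exact huv
    · intro u hu
      rw [hpu u (hpre u hu), upd_self]
      exact e2 u hu
    · intro u hu
      rw [hpu u (hpost u hu), upd_self]
      exact e3 u hu
  · refine pair_insert g1 h.ly ?_ ?_ ?_
    · intro u hu v hv huv
      rw [hpu u (hyx u hu), hpu v (hyx v hv)]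
      exact huv
    · intro u hu
      rw [hpu u (hpre2 u hu), upd_self]
      exact g2 u hu
    · intro u hu
      rw [hpu u (hpost2 u hu), upd_self]
      exact g3 u hu
  · intro u hu
    rw [mem_insert' e1] at hu
    rcases hu with rfl | hu
    · rw [upd_self, hw]
      exact hmx
    · rw [hpu u hu]
      exact h.mem u hu
  · intro u
    rw [mem_insert' e1, mem_insert' g1, h.eq u]
  · refine ⟨(mem_insert' g1 mk).2 (Or.inr h.hmk.1), ?_⟩
    rw [hpu mk (hyx mk h.hmk.1)]
    exact h.hmk.2
  · intro u hu
    rw [mem_insert' e1] at hu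
    rcases hu with rfl | hu
    · right
      exact ⟨_, he, by rw [upd_self], by rw [upd_self], by rw [upd_self]⟩
    · rw [upd_ne _ _ _ _ (hax u hu).1, upd_ne _ _ _ _ (hax u hu).1, hpu u hu]
      exact h.mt u hu

theorem cond_ff {b c : Bool} (h : cond b c false = true) : b = true ∧ c = true := by
  cases b <;> simp_all

theorem run_sound (hC : Ctx V mem TT UT bd) (h0 : lab 0 = 2) (fuel : ℕ) :
    ∀ (xs ys : List ℕ) (a b : ℕ → ℕ) (k : List ℕ → Bool) (cs : List ℕ),
      run TT UT lab mk P fuel xs ys a b k cs = true →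
      (∀ q, POK V mem bd P q → ∀ p, ¬ Rel V mem bd P q lab mk xs ys a b p) ∧
        ∃ cs', k cs' = true := by
  induction fuel with
  | zero => intro xs ys a b k cs h; exact absurd h (by simp [run])
  | succ n ih =>
    intro xs ys a b k cs h
    cases cs with
    | nil => exact absurd h (by simp [run])
    | cons c cs =>
      change cond (Nat.beq (Nat.land c 3) 0)
          (nthC P (fun e => PE.rec (motive := fun _ => Bool) (fun w l x y f =>
            cond (cond (Nat.beq (lab w) l) (cond (Nat.beq l 2) false (fresh a w x xs)) false)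
              (loop (fun u k' cs => cond (cond (Nat.beq (lab u) l) (cond (Nat.beq (a u) 0)
                  (elem u (cand (highy b y f mk) (lowy b y) (resy f mk) ys [])) false) false)
                  (run TT UT lab mk P n xs ys (upd a u x) (upd b u y) k' cs) (k' cs))
                (loop (fun xs' k' => loop (fun ys' k'' =>
                      run TT UT lab mk P n xs' ys' (upd a w x) (upd b w y) k'') k'
                    (ins w (highy b y f mk) (lowy' b y f mk) ys [] []))
                  k (ins w (highx lab a l x) (lowx lab a l x) xs [] []))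
                (cand (highx lab a l x) (lowx lab a l x) (fun _ => false) xs []) cs)
              false) e) (Nat.div c 4))
          (cond (Nat.beq (Nat.land c 3) 1)
            (cond (nthC TT (tcl lab xs ys (Nat.div c 1024)) (Nat.land (Nat.div c 4) 255))
              (k cs) false)
            (cond (nthC UT (ucl lab mk xs ys (Nat.div c 1024)) (Nat.land (Nat.div c 4) 255))
              (k cs) false)) = true at h
      cases hc1 : Nat.beq (Nat.land c 3) 0 with
      | false =>
        rw [hc1, cond_false] at h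
        cases hc2 : Nat.beq (Nat.land c 3) 1 with
        | true =>
          rw [hc2, cond_true] at h
          obtain ⟨h1, h2⟩ := cond_ff h
          obtain ⟨t, ht, h3⟩ := nthC_sound _ _ _ h1
          exact ⟨fun q hq p hp => tcl_sound hC hp _ t ht h3, _, h2⟩
        | false =>
          rw [hc2, cond_false] at h
          obtain ⟨h1, h2⟩ := cond_ff h
          obtain ⟨t, ht, h3⟩ := nthC_sound _ _ _ h1
          exact ⟨fun q hq p hp => ucl_sound hC hp _ t ht h3, _, h2⟩
      | true =>
        rw [hc1, cond_true] at h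
        obtain ⟨⟨w, l, x, y, f⟩, he, h⟩ := nthC_sound _ _ _ h
        obtain ⟨h1, h2⟩ := cond_ff h
        obtain ⟨h1, h3⟩ := cond_ff h1
        have hw : lab w = l := Nat.eq_of_beq_eq_true h1
        have hl : l ≠ 2 := by
          rintro rfl
          simp at h3
        have hfr : fresh a w x xs = true := by
          rw [beq_ff hl] at h3
          exact h3
        have hax := fresh_sound _ _ _ _ hfr
        have hl1 : ∀ u k cs, (fun u (k' : List ℕ → Bool) cs => cond (cond (Nat.beq (lab u) l)
            (cond (Nat.beq (a u) 0)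
            (elem u (cand (highy b y f mk) (lowy b y) (resy f mk) ys [])) false) false)
            (run TT UT lab mk P n xs ys (upd a u x) (upd b u y) k' cs) (k' cs)) u k cs = true →
            (lab u = l → a u = 0 → u ∈ cand (highy b y f mk) (lowy b y) (resy f mk) ys [] →
              ∀ q, POK V mem bd P q → ∀ p, ¬ Rel V mem bd P q lab mk xs ys (upd a u x) (upd b u y) p) ∧
            ∃ cs', k cs' = true := by
          intro u k cs hh
          beta_reduce at hh
          cases hb : cond (Nat.beq (lab u) l) (cond (Nat.beq (a u) 0)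
            (elem u (cand (highy b y f mk) (lowy b y) (resy f mk) ys [])) false) false with
          | false =>
            rw [hb, cond_false] at hh
            refine ⟨?_, cs, hh⟩
            intro g1 g2 g3
            exfalso
            rw [g1, g2, (elem_iff _ _).2 g3] at hb
            simp at hb
          | true =>
            rw [hb, cond_true] at hh
            obtain ⟨g1, g2⟩ := ih _ _ _ _ _ _ hh
            exact ⟨fun _ _ _ => g1, g2⟩
        obtain ⟨B1, cs1, h4⟩ := loop_sound _ (fun u => lab u = l → a u = 0 →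
              u ∈ cand (highy b y f mk) (lowy b y) (resy f mk) ys [] →
              ∀ q, POK V mem bd P q → ∀ p, ¬ Rel V mem bd P q lab mk xs ys (upd a u x) (upd b u y) p) _ _
              (fun u _ => hl1 u) _ h2
        have hl2 : ∀ (xs' : List ℕ) (k' : List ℕ → Bool) (cs' : List ℕ),
            loop (fun ys' k'' => run TT UT lab mk P n xs' ys' (upd a w x) (upd b w y) k'') k'
              (ins w (highy b y f mk) (lowy' b y f mk) ys [] []) cs' = true →
            (∀ ys' ∈ ins w (highy b y f mk) (lowy' b y f mk) ys [] [],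
              ∀ q, POK V mem bd P q → ∀ p, ¬ Rel V mem bd P q lab mk xs' ys' (upd a w x) (upd b w y) p) ∧
            ∃ cs', k' cs' = true := by
          intro xs' k' cs' hh
          exact loop_sound _ (fun ys' => ∀ q, POK V mem bd P q → ∀ p, ¬ Rel V mem bd P q lab mk xs' ys'
            (upd a w x) (upd b w y) p) _ _ (fun ys' _ k'' cs'' hh' => ih _ _ _ _ _ _ hh') _ hh
        obtain ⟨B2, cs2, h5⟩ := loop_sound _ (fun xs' =>
            ∀ ys' ∈ ins w (highy b y f mk) (lowy' b y f mk) ys [] [],
              ∀ q, POK V mem bd P q → ∀ p, ¬ Rel V mem bd P q lab mk xs' ys' (upd a w x) (upd b w y) p) _ _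
              (fun xs' _ k' cs' hh => hl2 xs' k' cs' hh) _ h4
        refine ⟨?_, cs2, h5⟩
        intro q hq p hp
        obtain ⟨n1, n2, n3, n4, n5, n6⟩ := nxt hC hq h0 he hl hp (fun u hu => (hax u hu).2)
        by_cases hex : ∃ u ∈ xs, p u = q x
        · obtain ⟨u, hu, hpu⟩ := hex
          have hyx : ∀ v ∈ ys, v ∈ xs := fun v hv => (hp.eq v).2 hv
          refine B1 u ?_ (n6 u hu hpu).2 (n6 u hu hpu).1 ?_ q hq p (rel_old he hp hpu)
          · exact cand_sound p u (q x) _ _ _ xs [] hp.lx hu hpu n1 n2 (by simp)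
          · exact cand_sound (fun v => V (p v)) u (V (q x)) _ _ _ ys [] hp.ly ((hp.eq u).1 hu)
              (by rw [hpu]) (fun v hv => n3 v (hyx v hv)) (fun v hv => n4 v (hyx v hv))
              (fun v hv => n5 v (hyx v hv))
        · have hno : ∀ u ∈ xs, p u ≠ q x := fun u hu hc => hex ⟨u, hu, hc⟩
          obtain ⟨xs', hxs', ys', hys', hR⟩ := rel_new hC hq h0 he hl hw hp hax hno
          exact B2 xs' hxs' ys' hys' q hq _ hR

theorem labOf_px {px : List (ℕ × ℕ)} {P : List PE} (hn : (px.map Prod.fst).Nodup) :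
    ∀ e ∈ px, labOf px P e.1 = e.2 := by
  induction px with
  | nil => simp
  | cons d px ih =>
    intro e he
    have e1 : labOf (d :: px) P e.1 = cond (Nat.beq d.1 e.1) d.2 (labOf px P e.1) := rfl
    rw [e1]
    rw [List.map_cons, List.nodup_cons] at hn
    rcases List.mem_cons.1 he with rfl | he
    · simp
    · have : d.1 ≠ e.1 := by
        intro hc
        exact hn.1 (by rw [hc]; exact List.mem_map.2 ⟨e, he, rfl⟩)
      rw [beq_ff this, cond_false]
      exact ih hn.2 e he

/-- consistency of the data of a certificate -/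
structure UOK (u : UPat) : Prop where
  hx : u.px.map Prod.fst = u.xs
  hy : u.pm ++ u.pr = u.ys
  nd : u.xs.Nodup
  h0 : (0, 2) ∈ u.px
  eq : ∀ i, i ∈ u.xs ↔ i ∈ u.ys
  mi : u.mi ∈ u.pm

theorem chk_sound (hC : Ctx V mem TT UT bd) {u : UPat} (hu : UOK u)
    {Ps : List (List PE × List ℕ)} {cs : List ℕ} (h : chk TT UT u Ps cs = true) :
    ∀ R ∈ Ps, ∀ q, POK V mem bd R.1 q → ∀ p, Emb mem V u.px (u.pm ++ u.pr) p →
      V (p u.mi) ≠ bd := by
  obtain ⟨px, xs, ys, pm, pr, mk⟩ := u
  obtain ⟨u1, u2, u3, u4, u5, u6⟩ := hu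
  dsimp only at u1 u2 u3 u4 u5 u6 ⊢
  change loop (fun R k => run TT UT (labOf px R.1) mk R.1 8 xs ys (fun _ => 0) (fun _ => 0) k)
      (fun _ => true) Ps cs = true at h
  have hnd : (px.map Prod.fst).Nodup := by rw [u1]; exact u3
  have h1 := (loop_sound _ (fun R => ∀ q, POK V mem bd R.1 q → ∀ p,
    ¬ Rel V mem bd R.1 q (labOf px R.1) mk xs ys (fun _ => 0) (fun _ => 0) p) Ps _
    (fun R hR k cs hh => run_sound hC (labOf_px hnd _ u4) 8 _ _ _ _ _ _ hh) cs h).1
  intro R hR q hq p hp hbd
  refine h1 R hR q hq p ⟨?_, ?_, ?_, u5, ⟨?_, hbd⟩, ?_⟩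
  · rw [← u1]
    exact hp.2.1
  · rw [← u2]
    exact hp.2.2
  · intro i hi
    rw [← u1] at hi
    obtain ⟨e, he, rfl⟩ := List.mem_map.1 hi
    rw [labOf_px hnd _ he]
    exact hp.1 e he
  · rw [← u2]
    exact List.mem_append_left _ u6
  · intro i _
    exact Or.inl ⟨rfl, rfl⟩

end

end Pool.Agent.H49.PQS
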