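import Pool.Agent.H49.PQS.Chk

/-!
The obstructions and the two lists of certificates.
-/

namespace Pool.Agent.H49.PQS

/-- the 167 minimal obstructions; labels 0, 1, 2 for the three parts -/
def TT : List Pat := [
  ⟨[(nat_lit 0, nat_lit 1), (nat_lit 1, nat_lit 2), (nat_lit 2, nat_lit 2)], [nat_lit 1, nat_lit 0, nat_lit 2]⟩,
  ⟨[(nat_lit 0, nat_lit 2), (nat_lit 1, nat_lit 2), (nat_lit 2, nat_lit 2)], [nat_lit 0, nat_lit 2, nat_lit 1]⟩,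
  ⟨[(nat_lit 0, nat_lit 0), (nat_lit 1, nat_lit 1), (nat_lit 2, nat_lit 2)], [nat_lit 2, nat_lit 0, nat_lit 1]⟩,
  ⟨[(nat_lit 0, nat_lit 0), (nat_lit 1, nat_lit 2), (nat_lit 2, nat_lit 2)], [nat_lit 1, nat_lit 0, nat_lit 2]⟩,
  ⟨[(nat_lit 0, nat_lit 0), (nat_lit 1, nat_lit 0), (nat_lit 2, nat_lit 1)], [nat_lit 2, nat_lit 1, nat_lit 0]⟩,
  ⟨[(nat_lit 0, nat_lit 0), (nat_lit 1, nat_lit 0), (nat_lit 2, nat_lit 2)], [nat_lit 2, nat_lit 1, nat_lit 0]⟩,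
  ⟨[(nat_lit 0, nat_lit 0), (nat_lit 1, nat_lit 0), (nat_lit 2, nat_lit 0)], [nat_lit 0, nat_lit 2, nat_lit 1]⟩,
  ⟨[(nat_lit 0, nat_lit 1), (nat_lit 1, nat_lit 1), (nat_lit 2, nat_lit 1), (nat_lit 3, nat_lit 2)], [nat_lit 3, nat_lit 0, nat_lit 2, nat_lit 1]⟩,
  ⟨[(nat_lit 0, nat_lit 1), (nat_lit 1, nat_lit 1), (nat_lit 2, nat_lit 1), (nat_lit 3, nat_lit 2)], [nat_lit 3, nat_lit 1, nat_lit 0, nat_lit 2]⟩,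
  ⟨[(nat_lit 0, nat_lit 0), (nat_lit 1, nat_lit 1), (nat_lit 2, nat_lit 1), (nat_lit 3, nat_lit 1), (nat_lit 4, nat_lit 1)], [nat_lit 4, nat_lit 0, nat_lit 1, nat_lit 3, nat_lit 2]⟩,
  ⟨[(nat_lit 0, nat_lit 0), (nat_lit 1, nat_lit 1), (nat_lit 2, nat_lit 1), (nat_lit 3, nat_lit 1), (nat_lit 4, nat_lit 1)], [nat_lit 3, nat_lit 0, nat_lit 4, nat_lit 2, nat_lit 1]⟩,
  ⟨[(nat_lit 0, nat_lit 0), (nat_lit 1, nat_lit 1), (nat_lit 2, nat_lit 1), (nat_lit 3, nat_lit 1), (nat_lit 4, nat_lit 1)], [nat_lit 2, nat_lit 4, nat_lit 0, nat_lit 1, nat_lit 3]⟩,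
  ⟨[(nat_lit 0, nat_lit 0), (nat_lit 1, nat_lit 1), (nat_lit 2, nat_lit 1), (nat_lit 3, nat_lit 1), (nat_lit 4, nat_lit 1)], [nat_lit 4, nat_lit 2, nat_lit 0, nat_lit 1, nat_lit 3]⟩,
  ⟨[(nat_lit 0, nat_lit 0), (nat_lit 1, nat_lit 1), (nat_lit 2, nat_lit 1), (nat_lit 3, nat_lit 1), (nat_lit 4, nat_lit 1)], [nat_lit 2, nat_lit 4, nat_lit 0, nat_lit 3, nat_lit 1]⟩,
  ⟨[(nat_lit 0, nat_lit 0), (nat_lit 1, nat_lit 1), (nat_lit 2, nat_lit 1), (nat_lit 3, nat_lit 1), (nat_lit 4, nat_lit 1)], [nat_lit 4, nat_lit 2, nat_lit 0, nat_lit 3, nat_lit 1]⟩,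
  ⟨[(nat_lit 0, nat_lit 0), (nat_lit 1, nat_lit 1), (nat_lit 2, nat_lit 1), (nat_lit 3, nat_lit 1), (nat_lit 4, nat_lit 1)], [nat_lit 3, nat_lit 1, nat_lit 4, nat_lit 0, nat_lit 2]⟩,
  ⟨[(nat_lit 0, nat_lit 0), (nat_lit 1, nat_lit 1), (nat_lit 2, nat_lit 1), (nat_lit 3, nat_lit 1), (nat_lit 4, nat_lit 1)], [nat_lit 2, nat_lit 4, nat_lit 3, nat_lit 0, nat_lit 1]⟩,
  ⟨[(nat_lit 0, nat_lit 0), (nat_lit 1, nat_lit 1), (nat_lit 2, nat_lit 1), (nat_lit 3, nat_lit 1), (nat_lit 4, nat_lit 2)], [nat_lit 2, nat_lit 0, nat_lit 4, nat_lit 1, nat_lit 3]⟩,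
  ⟨[(nat_lit 0, nat_lit 0), (nat_lit 1, nat_lit 1), (nat_lit 2, nat_lit 1), (nat_lit 3, nat_lit 1), (nat_lit 4, nat_lit 2)], [nat_lit 3, nat_lit 0, nat_lit 4, nat_lit 2, nat_lit 1]⟩,
  ⟨[(nat_lit 0, nat_lit 0), (nat_lit 1, nat_lit 0), (nat_lit 2, nat_lit 1), (nat_lit 3, nat_lit 1), (nat_lit 4, nat_lit 1)], [nat_lit 4, nat_lit 0, nat_lit 2, nat_lit 1, nat_lit 3]⟩,
  ⟨[(nat_lit 0, nat_lit 0), (nat_lit 1, nat_lit 0), (nat_lit 2, nat_lit 1), (nat_lit 3, nat_lit 1), (nat_lit 4, nat_lit 1)], [nat_lit 3, nat_lit 0, nat_lit 4, nat_lit 1, nat_lit 2]⟩,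
  ⟨[(nat_lit 0, nat_lit 1), (nat_lit 1, nat_lit 1), (nat_lit 2, nat_lit 1), (nat_lit 3, nat_lit 1), (nat_lit 4, nat_lit 1), (nat_lit 5, nat_lit 1)], [nat_lit 5, nat_lit 0, nat_lit 2, nat_lit 1, nat_lit 4, nat_lit 3]⟩,
  ⟨[(nat_lit 0, nat_lit 1), (nat_lit 1, nat_lit 1), (nat_lit 2, nat_lit 1), (nat_lit 3, nat_lit 1), (nat_lit 4, nat_lit 1), (nat_lit 5, nat_lit 1)], [nat_lit 5, nat_lit 0, nat_lit 3, nat_lit 1, nat_lit 4, nat_lit 2]⟩,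
  ⟨[(nat_lit 0, nat_lit 1), (nat_lit 1, nat_lit 1), (nat_lit 2, nat_lit 1), (nat_lit 3, nat_lit 1), (nat_lit 4, nat_lit 1), (nat_lit 5, nat_lit 1)], [nat_lit 4, nat_lit 0, nat_lit 5, nat_lit 1, nat_lit 3, nat_lit 2]⟩,
  ⟨[(nat_lit 0, nat_lit 1), (nat_lit 1, nat_lit 1), (nat_lit 2, nat_lit 1), (nat_lit 3, nat_lit 1), (nat_lit 4, nat_lit 1), (nat_lit 5, nat_lit 1)], [nat_lit 5, nat_lit 0, nat_lit 2, nat_lit 4, nat_lit 1, nat_lit 3]⟩,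
  ⟨[(nat_lit 0, nat_lit 1), (nat_lit 1, nat_lit 1), (nat_lit 2, nat_lit 1), (nat_lit 3, nat_lit 1), (nat_lit 4, nat_lit 1), (nat_lit 5, nat_lit 1)], [nat_lit 4, nat_lit 0, nat_lit 5, nat_lit 2, nat_lit 1, nat_lit 3]⟩,
  ⟨[(nat_lit 0, nat_lit 1), (nat_lit 1, nat_lit 1), (nat_lit 2, nat_lit 1), (nat_lit 3, nat_lit 1), (nat_lit 4, nat_lit 1), (nat_lit 5, nat_lit 1)], [nat_lit 5, nat_lit 0, nat_lit 2, nat_lit 4, nat_lit 3, nat_lit 1]⟩,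
  ⟨[(nat_lit 0, nat_lit 1), (nat_lit 1, nat_lit 1), (nat_lit 2, nat_lit 1), (nat_lit 3, nat_lit 1), (nat_lit 4, nat_lit 1), (nat_lit 5, nat_lit 1)], [nat_lit 4, nat_lit 0, nat_lit 5, nat_lit 3, nat_lit 2, nat_lit 1]⟩,
  ⟨[(nat_lit 0, nat_lit 1), (nat_lit 1, nat_lit 1), (nat_lit 2, nat_lit 1), (nat_lit 3, nat_lit 1), (nat_lit 4, nat_lit 1), (nat_lit 5, nat_lit 1)], [nat_lit 5, nat_lit 1, nat_lit 0, nat_lit 2, nat_lit 4, nat_lit 3]⟩,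
  ⟨[(nat_lit 0, nat_lit 1), (nat_lit 1, nat_lit 1), (nat_lit 2, nat_lit 1), (nat_lit 3, nat_lit 1), (nat_lit 4, nat_lit 1), (nat_lit 5, nat_lit 1)], [nat_lit 4, nat_lit 1, nat_lit 0, nat_lit 5, nat_lit 3, nat_lit 2]⟩,
  ⟨[(nat_lit 0, nat_lit 1), (nat_lit 1, nat_lit 1), (nat_lit 2, nat_lit 1), (nat_lit 3, nat_lit 1), (nat_lit 4, nat_lit 1), (nat_lit 5, nat_lit 1)], [nat_lit 2, nat_lit 5, nat_lit 0, nat_lit 3, nat_lit 1, nat_lit 4]⟩,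
  ⟨[(nat_lit 0, nat_lit 1), (nat_lit 1, nat_lit 1), (nat_lit 2, nat_lit 1), (nat_lit 3, nat_lit 1), (nat_lit 4, nat_lit 1), (nat_lit 5, nat_lit 1)], [nat_lit 5, nat_lit 2, nat_lit 0, nat_lit 3, nat_lit 1, nat_lit 4]⟩,
  ⟨[(nat_lit 0, nat_lit 1), (nat_lit 1, nat_lit 1), (nat_lit 2, nat_lit 1), (nat_lit 3, nat_lit 1), (nat_lit 4, nat_lit 1), (nat_lit 5, nat_lit 1)], [nat_lit 3, nat_lit 5, nat_lit 0, nat_lit 2, nat_lit 1, nat_lit 4]⟩,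
  ⟨[(nat_lit 0, nat_lit 1), (nat_lit 1, nat_lit 1), (nat_lit 2, nat_lit 1), (nat_lit 3, nat_lit 1), (nat_lit 4, nat_lit 1), (nat_lit 5, nat_lit 1)], [nat_lit 5, nat_lit 3, nat_lit 0, nat_lit 2, nat_lit 1, nat_lit 4]⟩,
  ⟨[(nat_lit 0, nat_lit 1), (nat_lit 1, nat_lit 1), (nat_lit 2, nat_lit 1), (nat_lit 3, nat_lit 1), (nat_lit 4, nat_lit 1), (nat_lit 5, nat_lit 1)], [nat_lit 3, nat_lit 5, nat_lit 0, nat_lit 2, nat_lit 4, nat_lit 1]⟩,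
  ⟨[(nat_lit 0, nat_lit 1), (nat_lit 1, nat_lit 1), (nat_lit 2, nat_lit 1), (nat_lit 3, nat_lit 1), (nat_lit 4, nat_lit 1), (nat_lit 5, nat_lit 1)], [nat_lit 5, nat_lit 3, nat_lit 0, nat_lit 2, nat_lit 4, nat_lit 1]⟩,
  ⟨[(nat_lit 0, nat_lit 1), (nat_lit 1, nat_lit 1), (nat_lit 2, nat_lit 1), (nat_lit 3, nat_lit 1), (nat_lit 4, nat_lit 1), (nat_lit 5, nat_lit 1)], [nat_lit 3, nat_lit 5, nat_lit 0, nat_lit 4, nat_lit 2, nat_lit 1]⟩,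
  ⟨[(nat_lit 0, nat_lit 1), (nat_lit 1, nat_lit 1), (nat_lit 2, nat_lit 1), (nat_lit 3, nat_lit 1), (nat_lit 4, nat_lit 1), (nat_lit 5, nat_lit 1)], [nat_lit 5, nat_lit 3, nat_lit 0, nat_lit 4, nat_lit 2, nat_lit 1]⟩,
  ⟨[(nat_lit 0, nat_lit 1), (nat_lit 1, nat_lit 1), (nat_lit 2, nat_lit 1), (nat_lit 3, nat_lit 1), (nat_lit 4, nat_lit 1), (nat_lit 5, nat_lit 1)], [nat_lit 5, nat_lit 1, nat_lit 3, nat_lit 0, nat_lit 2, nat_lit 4]⟩,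
  ⟨[(nat_lit 0, nat_lit 1), (nat_lit 1, nat_lit 1), (nat_lit 2, nat_lit 1), (nat_lit 3, nat_lit 1), (nat_lit 4, nat_lit 1), (nat_lit 5, nat_lit 1)], [nat_lit 5, nat_lit 1, nat_lit 3, nat_lit 0, nat_lit 4, nat_lit 2]⟩,
  ⟨[(nat_lit 0, nat_lit 1), (nat_lit 1, nat_lit 1), (nat_lit 2, nat_lit 1), (nat_lit 3, nat_lit 1), (nat_lit 4, nat_lit 1), (nat_lit 5, nat_lit 1)], [nat_lit 4, nat_lit 1, nat_lit 5, nat_lit 0, nat_lit 3, nat_lit 2]⟩,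
  ⟨[(nat_lit 0, nat_lit 1), (nat_lit 1, nat_lit 1), (nat_lit 2, nat_lit 1), (nat_lit 3, nat_lit 1), (nat_lit 4, nat_lit 1), (nat_lit 5, nat_lit 1)], [nat_lit 3, nat_lit 5, nat_lit 1, nat_lit 0, nat_lit 2, nat_lit 4]⟩,
  ⟨[(nat_lit 0, nat_lit 1), (nat_lit 1, nat_lit 1), (nat_lit 2, nat_lit 1), (nat_lit 3, nat_lit 1), (nat_lit 4, nat_lit 1), (nat_lit 5, nat_lit 1)], [nat_lit 3, nat_lit 5, nat_lit 1, nat_lit 0, nat_lit 4, nat_lit 2]⟩,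
  ⟨[(nat_lit 0, nat_lit 1), (nat_lit 1, nat_lit 1), (nat_lit 2, nat_lit 1), (nat_lit 3, nat_lit 1), (nat_lit 4, nat_lit 1), (nat_lit 5, nat_lit 1)], [nat_lit 5, nat_lit 3, nat_lit 1, nat_lit 0, nat_lit 4, nat_lit 2]⟩,
  ⟨[(nat_lit 0, nat_lit 1), (nat_lit 1, nat_lit 1), (nat_lit 2, nat_lit 1), (nat_lit 3, nat_lit 1), (nat_lit 4, nat_lit 1), (nat_lit 5, nat_lit 1)], [nat_lit 4, nat_lit 2, nat_lit 5, nat_lit 0, nat_lit 3, nat_lit 1]⟩,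
  ⟨[(nat_lit 0, nat_lit 1), (nat_lit 1, nat_lit 1), (nat_lit 2, nat_lit 1), (nat_lit 3, nat_lit 1), (nat_lit 4, nat_lit 1), (nat_lit 5, nat_lit 1)], [nat_lit 3, nat_lit 5, nat_lit 4, nat_lit 0, nat_lit 2, nat_lit 1]⟩,
  ⟨[(nat_lit 0, nat_lit 1), (nat_lit 1, nat_lit 1), (nat_lit 2, nat_lit 1), (nat_lit 3, nat_lit 1), (nat_lit 4, nat_lit 1), (nat_lit 5, nat_lit 1)], [nat_lit 1, nat_lit 4, nat_lit 2, nat_lit 5, nat_lit 0, nat_lit 3]⟩,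
  ⟨[(nat_lit 0, nat_lit 1), (nat_lit 1, nat_lit 1), (nat_lit 2, nat_lit 1), (nat_lit 3, nat_lit 1), (nat_lit 4, nat_lit 1), (nat_lit 5, nat_lit 1)], [nat_lit 5, nat_lit 1, nat_lit 3, nat_lit 2, nat_lit 0, nat_lit 4]⟩,
  ⟨[(nat_lit 0, nat_lit 1), (nat_lit 1, nat_lit 1), (nat_lit 2, nat_lit 1), (nat_lit 3, nat_lit 1), (nat_lit 4, nat_lit 1), (nat_lit 5, nat_lit 1)], [nat_lit 4, nat_lit 1, nat_lit 5, nat_lit 2, nat_lit 0, nat_lit 3]⟩,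
  ⟨[(nat_lit 0, nat_lit 1), (nat_lit 1, nat_lit 1), (nat_lit 2, nat_lit 1), (nat_lit 3, nat_lit 1), (nat_lit 4, nat_lit 1), (nat_lit 5, nat_lit 1)], [nat_lit 4, nat_lit 1, nat_lit 3, nat_lit 5, nat_lit 0, nat_lit 2]⟩,
  ⟨[(nat_lit 0, nat_lit 1), (nat_lit 1, nat_lit 1), (nat_lit 2, nat_lit 1), (nat_lit 3, nat_lit 1), (nat_lit 4, nat_lit 1), (nat_lit 5, nat_lit 1)], [nat_lit 4, nat_lit 1, nat_lit 5, nat_lit 3, nat_lit 0, nat_lit 2]⟩,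
  ⟨[(nat_lit 0, nat_lit 1), (nat_lit 1, nat_lit 1), (nat_lit 2, nat_lit 1), (nat_lit 3, nat_lit 1), (nat_lit 4, nat_lit 1), (nat_lit 5, nat_lit 1)], [nat_lit 2, nat_lit 4, nat_lit 1, nat_lit 5, nat_lit 0, nat_lit 3]⟩,
  ⟨[(nat_lit 0, nat_lit 1), (nat_lit 1, nat_lit 1), (nat_lit 2, nat_lit 1), (nat_lit 3, nat_lit 1), (nat_lit 4, nat_lit 1), (nat_lit 5, nat_lit 1)], [nat_lit 3, nat_lit 5, nat_lit 1, nat_lit 4, nat_lit 0, nat_lit 2]⟩,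
  ⟨[(nat_lit 0, nat_lit 1), (nat_lit 1, nat_lit 1), (nat_lit 2, nat_lit 1), (nat_lit 3, nat_lit 1), (nat_lit 4, nat_lit 1), (nat_lit 5, nat_lit 1)], [nat_lit 5, nat_lit 3, nat_lit 1, nat_lit 4, nat_lit 0, nat_lit 2]⟩,
  ⟨[(nat_lit 0, nat_lit 1), (nat_lit 1, nat_lit 1), (nat_lit 2, nat_lit 1), (nat_lit 3, nat_lit 1), (nat_lit 4, nat_lit 1), (nat_lit 5, nat_lit 1)], [nat_lit 4, nat_lit 2, nat_lit 5, nat_lit 1, nat_lit 0, nat_lit 3]⟩,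
  ⟨[(nat_lit 0, nat_lit 1), (nat_lit 1, nat_lit 1), (nat_lit 2, nat_lit 1), (nat_lit 3, nat_lit 1), (nat_lit 4, nat_lit 1), (nat_lit 5, nat_lit 1)], [nat_lit 3, nat_lit 5, nat_lit 4, nat_lit 1, nat_lit 0, nat_lit 2]⟩,
  ⟨[(nat_lit 0, nat_lit 1), (nat_lit 1, nat_lit 1), (nat_lit 2, nat_lit 1), (nat_lit 3, nat_lit 1), (nat_lit 4, nat_lit 1), (nat_lit 5, nat_lit 2)], [nat_lit 2, nat_lit 0, nat_lit 3, nat_lit 5, nat_lit 1, nat_lit 4]⟩,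
  ⟨[(nat_lit 0, nat_lit 1), (nat_lit 1, nat_lit 1), (nat_lit 2, nat_lit 1), (nat_lit 3, nat_lit 1), (nat_lit 4, nat_lit 1), (nat_lit 5, nat_lit 2)], [nat_lit 3, nat_lit 0, nat_lit 2, nat_lit 5, nat_lit 1, nat_lit 4]⟩,
  ⟨[(nat_lit 0, nat_lit 1), (nat_lit 1, nat_lit 1), (nat_lit 2, nat_lit 1), (nat_lit 3, nat_lit 1), (nat_lit 4, nat_lit 1), (nat_lit 5, nat_lit 2)], [nat_lit 3, nat_lit 0, nat_lit 5, nat_lit 2, nat_lit 4, nat_lit 1]⟩,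
  ⟨[(nat_lit 0, nat_lit 1), (nat_lit 1, nat_lit 1), (nat_lit 2, nat_lit 1), (nat_lit 3, nat_lit 1), (nat_lit 4, nat_lit 1), (nat_lit 5, nat_lit 2)], [nat_lit 4, nat_lit 0, nat_lit 5, nat_lit 3, nat_lit 2, nat_lit 1]⟩,
  ⟨[(nat_lit 0, nat_lit 1), (nat_lit 1, nat_lit 1), (nat_lit 2, nat_lit 1), (nat_lit 3, nat_lit 1), (nat_lit 4, nat_lit 1), (nat_lit 5, nat_lit 2)], [nat_lit 1, nat_lit 3, nat_lit 0, nat_lit 5, nat_lit 2, nat_lit 4]⟩,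
  ⟨[(nat_lit 0, nat_lit 1), (nat_lit 1, nat_lit 1), (nat_lit 2, nat_lit 1), (nat_lit 3, nat_lit 1), (nat_lit 4, nat_lit 1), (nat_lit 5, nat_lit 2)], [nat_lit 4, nat_lit 1, nat_lit 0, nat_lit 5, nat_lit 3, nat_lit 2]⟩,
  ⟨[(nat_lit 0, nat_lit 1), (nat_lit 1, nat_lit 1), (nat_lit 2, nat_lit 1), (nat_lit 3, nat_lit 1), (nat_lit 4, nat_lit 1), (nat_lit 5, nat_lit 2)], [nat_lit 1, nat_lit 3, nat_lit 5, nat_lit 0, nat_lit 2, nat_lit 4]⟩,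
  ⟨[(nat_lit 0, nat_lit 1), (nat_lit 1, nat_lit 1), (nat_lit 2, nat_lit 1), (nat_lit 3, nat_lit 1), (nat_lit 4, nat_lit 1), (nat_lit 5, nat_lit 2)], [nat_lit 1, nat_lit 3, nat_lit 2, nat_lit 5, nat_lit 0, nat_lit 4]⟩,
  ⟨[(nat_lit 0, nat_lit 1), (nat_lit 1, nat_lit 1), (nat_lit 2, nat_lit 1), (nat_lit 3, nat_lit 1), (nat_lit 4, nat_lit 1), (nat_lit 5, nat_lit 2)], [nat_lit 1, nat_lit 4, nat_lit 2, nat_lit 5, nat_lit 0, nat_lit 3]⟩,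
  ⟨[(nat_lit 0, nat_lit 1), (nat_lit 1, nat_lit 1), (nat_lit 2, nat_lit 1), (nat_lit 3, nat_lit 1), (nat_lit 4, nat_lit 1), (nat_lit 5, nat_lit 2)], [nat_lit 4, nat_lit 1, nat_lit 3, nat_lit 5, nat_lit 0, nat_lit 2]⟩,
  ⟨[(nat_lit 0, nat_lit 1), (nat_lit 1, nat_lit 1), (nat_lit 2, nat_lit 1), (nat_lit 3, nat_lit 1), (nat_lit 4, nat_lit 1), (nat_lit 5, nat_lit 2)], [nat_lit 4, nat_lit 1, nat_lit 5, nat_lit 3, nat_lit 0, nat_lit 2]⟩,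
  ⟨[(nat_lit 0, nat_lit 1), (nat_lit 1, nat_lit 1), (nat_lit 2, nat_lit 1), (nat_lit 3, nat_lit 1), (nat_lit 4, nat_lit 1), (nat_lit 5, nat_lit 2)], [nat_lit 2, nat_lit 4, nat_lit 1, nat_lit 5, nat_lit 0, nat_lit 3]⟩,
  ⟨[(nat_lit 0, nat_lit 0), (nat_lit 1, nat_lit 1), (nat_lit 2, nat_lit 1), (nat_lit 3, nat_lit 1), (nat_lit 4, nat_lit 1), (nat_lit 5, nat_lit 1)], [nat_lit 5, nat_lit 1, nat_lit 3, nat_lit 2, nat_lit 0, nat_lit 4]⟩,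
  ⟨[(nat_lit 0, nat_lit 0), (nat_lit 1, nat_lit 1), (nat_lit 2, nat_lit 1), (nat_lit 3, nat_lit 1), (nat_lit 4, nat_lit 1), (nat_lit 5, nat_lit 1)], [nat_lit 5, nat_lit 2, nat_lit 1, nat_lit 3, nat_lit 0, nat_lit 4]⟩,
  ⟨[(nat_lit 0, nat_lit 1), (nat_lit 1, nat_lit 1), (nat_lit 2, nat_lit 1), (nat_lit 3, nat_lit 1), (nat_lit 4, nat_lit 1), (nat_lit 5, nat_lit 1), (nat_lit 6, nat_lit 1)], [nat_lit 3, nat_lit 0, nat_lit 6, nat_lit 2, nat_lit 4, nat_lit 1, nat_lit 5]⟩,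
  ⟨[(nat_lit 0, nat_lit 1), (nat_lit 1, nat_lit 1), (nat_lit 2, nat_lit 1), (nat_lit 3, nat_lit 1), (nat_lit 4, nat_lit 1), (nat_lit 5, nat_lit 1), (nat_lit 6, nat_lit 1)], [nat_lit 1, nat_lit 3, nat_lit 5, nat_lit 0, nat_lit 6, nat_lit 2, nat_lit 4]⟩,
  ⟨[(nat_lit 0, nat_lit 1), (nat_lit 1, nat_lit 1), (nat_lit 2, nat_lit 1), (nat_lit 3, nat_lit 1), (nat_lit 4, nat_lit 1), (nat_lit 5, nat_lit 1), (nat_lit 6, nat_lit 1)], [nat_lit 1, nat_lit 5, nat_lit 3, nat_lit 0, nat_lit 6, nat_lit 2, nat_lit 4]⟩,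
  ⟨[(nat_lit 0, nat_lit 1), (nat_lit 1, nat_lit 1), (nat_lit 2, nat_lit 1), (nat_lit 3, nat_lit 1), (nat_lit 4, nat_lit 1), (nat_lit 5, nat_lit 1), (nat_lit 6, nat_lit 1)], [nat_lit 1, nat_lit 6, nat_lit 4, nat_lit 2, nat_lit 0, nat_lit 3, nat_lit 5]⟩,
  ⟨[(nat_lit 0, nat_lit 1), (nat_lit 1, nat_lit 1), (nat_lit 2, nat_lit 1), (nat_lit 3, nat_lit 1), (nat_lit 4, nat_lit 1), (nat_lit 5, nat_lit 1), (nat_lit 6, nat_lit 1)], [nat_lit 2, nat_lit 6, nat_lit 4, nat_lit 1, nat_lit 0, nat_lit 3, nat_lit 5]⟩,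
  ⟨[(nat_lit 0, nat_lit 1), (nat_lit 1, nat_lit 1), (nat_lit 2, nat_lit 1), (nat_lit 3, nat_lit 1), (nat_lit 4, nat_lit 1), (nat_lit 5, nat_lit 1), (nat_lit 6, nat_lit 1)], [nat_lit 6, nat_lit 3, nat_lit 2, nat_lit 4, nat_lit 0, nat_lit 5, nat_lit 1]⟩,
  ⟨[(nat_lit 0, nat_lit 1), (nat_lit 1, nat_lit 1), (nat_lit 2, nat_lit 1), (nat_lit 3, nat_lit 1), (nat_lit 4, nat_lit 1), (nat_lit 5, nat_lit 1), (nat_lit 6, nat_lit 1)], [nat_lit 1, nat_lit 6, nat_lit 3, nat_lit 2, nat_lit 4, nat_lit 0, nat_lit 5]⟩,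
  ⟨[(nat_lit 0, nat_lit 1), (nat_lit 1, nat_lit 1), (nat_lit 2, nat_lit 1), (nat_lit 3, nat_lit 1), (nat_lit 4, nat_lit 1), (nat_lit 5, nat_lit 1), (nat_lit 6, nat_lit 1)], [nat_lit 6, nat_lit 2, nat_lit 1, nat_lit 5, nat_lit 3, nat_lit 0, nat_lit 4]⟩,
  ⟨[(nat_lit 0, nat_lit 1), (nat_lit 1, nat_lit 1), (nat_lit 2, nat_lit 1), (nat_lit 3, nat_lit 1), (nat_lit 4, nat_lit 1), (nat_lit 5, nat_lit 1), (nat_lit 6, nat_lit 1)], [nat_lit 2, nat_lit 6, nat_lit 3, nat_lit 1, nat_lit 4, nat_lit 0, nat_lit 5]⟩,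
  ⟨[(nat_lit 0, nat_lit 1), (nat_lit 1, nat_lit 1), (nat_lit 2, nat_lit 1), (nat_lit 3, nat_lit 1), (nat_lit 4, nat_lit 1), (nat_lit 5, nat_lit 1), (nat_lit 6, nat_lit 1)], [nat_lit 6, nat_lit 2, nat_lit 5, nat_lit 1, nat_lit 3, nat_lit 0, nat_lit 4]⟩,
  ⟨[(nat_lit 0, nat_lit 1), (nat_lit 1, nat_lit 1), (nat_lit 2, nat_lit 1), (nat_lit 3, nat_lit 1), (nat_lit 4, nat_lit 1), (nat_lit 5, nat_lit 1), (nat_lit 6, nat_lit 1)], [nat_lit 3, nat_lit 6, nat_lit 2, nat_lit 1, nat_lit 4, nat_lit 0, nat_lit 5]⟩,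
  ⟨[(nat_lit 0, nat_lit 1), (nat_lit 1, nat_lit 1), (nat_lit 2, nat_lit 1), (nat_lit 3, nat_lit 1), (nat_lit 4, nat_lit 1), (nat_lit 5, nat_lit 1), (nat_lit 6, nat_lit 2)], [nat_lit 4, nat_lit 0, nat_lit 2, nat_lit 1, nat_lit 6, nat_lit 3, nat_lit 5]⟩,
  ⟨[(nat_lit 0, nat_lit 0), (nat_lit 1, nat_lit 1), (nat_lit 2, nat_lit 1), (nat_lit 3, nat_lit 1), (nat_lit 4, nat_lit 1), (nat_lit 5, nat_lit 1), (nat_lit 6, nat_lit 1)], [nat_lit 2, nat_lit 0, nat_lit 6, nat_lit 1, nat_lit 3, nat_lit 5, nat_lit 4]⟩,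
  ⟨[(nat_lit 0, nat_lit 0), (nat_lit 1, nat_lit 1), (nat_lit 2, nat_lit 1), (nat_lit 3, nat_lit 1), (nat_lit 4, nat_lit 1), (nat_lit 5, nat_lit 1), (nat_lit 6, nat_lit 1)], [nat_lit 2, nat_lit 0, nat_lit 5, nat_lit 1, nat_lit 6, nat_lit 4, nat_lit 3]⟩,
  ⟨[(nat_lit 0, nat_lit 0), (nat_lit 1, nat_lit 1), (nat_lit 2, nat_lit 1), (nat_lit 3, nat_lit 1), (nat_lit 4, nat_lit 1), (nat_lit 5, nat_lit 1), (nat_lit 6, nat_lit 1)], [nat_lit 3, nat_lit 0, nat_lit 5, nat_lit 1, nat_lit 6, nat_lit 2, nat_lit 4]⟩,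
  ⟨[(nat_lit 0, nat_lit 0), (nat_lit 1, nat_lit 1), (nat_lit 2, nat_lit 1), (nat_lit 3, nat_lit 1), (nat_lit 4, nat_lit 1), (nat_lit 5, nat_lit 1), (nat_lit 6, nat_lit 1)], [nat_lit 2, nat_lit 0, nat_lit 4, nat_lit 6, nat_lit 1, nat_lit 3, nat_lit 5]⟩,
  ⟨[(nat_lit 0, nat_lit 0), (nat_lit 1, nat_lit 1), (nat_lit 2, nat_lit 1), (nat_lit 3, nat_lit 1), (nat_lit 4, nat_lit 1), (nat_lit 5, nat_lit 1), (nat_lit 6, nat_lit 1)], [nat_lit 2, nat_lit 0, nat_lit 6, nat_lit 4, nat_lit 1, nat_lit 3, nat_lit 5]⟩,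
  ⟨[(nat_lit 0, nat_lit 0), (nat_lit 1, nat_lit 1), (nat_lit 2, nat_lit 1), (nat_lit 3, nat_lit 1), (nat_lit 4, nat_lit 1), (nat_lit 5, nat_lit 1), (nat_lit 6, nat_lit 1)], [nat_lit 2, nat_lit 0, nat_lit 4, nat_lit 6, nat_lit 1, nat_lit 5, nat_lit 3]⟩,
  ⟨[(nat_lit 0, nat_lit 0), (nat_lit 1, nat_lit 1), (nat_lit 2, nat_lit 1), (nat_lit 3, nat_lit 1), (nat_lit 4, nat_lit 1), (nat_lit 5, nat_lit 1), (nat_lit 6, nat_lit 1)], [nat_lit 2, nat_lit 0, nat_lit 6, nat_lit 4, nat_lit 1, nat_lit 5, nat_lit 3]⟩,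
  ⟨[(nat_lit 0, nat_lit 0), (nat_lit 1, nat_lit 1), (nat_lit 2, nat_lit 1), (nat_lit 3, nat_lit 1), (nat_lit 4, nat_lit 1), (nat_lit 5, nat_lit 1), (nat_lit 6, nat_lit 1)], [nat_lit 2, nat_lit 0, nat_lit 4, nat_lit 6, nat_lit 5, nat_lit 1, nat_lit 3]⟩,
  ⟨[(nat_lit 0, nat_lit 0), (nat_lit 1, nat_lit 1), (nat_lit 2, nat_lit 1), (nat_lit 3, nat_lit 1), (nat_lit 4, nat_lit 1), (nat_lit 5, nat_lit 1), (nat_lit 6, nat_lit 2)], [nat_lit 2, nat_lit 0, nat_lit 5, nat_lit 1, nat_lit 6, nat_lit 4, nat_lit 3]⟩,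
  ⟨[(nat_lit 0, nat_lit 0), (nat_lit 1, nat_lit 0), (nat_lit 2, nat_lit 1), (nat_lit 3, nat_lit 1), (nat_lit 4, nat_lit 1), (nat_lit 5, nat_lit 1), (nat_lit 6, nat_lit 1)], [nat_lit 3, nat_lit 0, nat_lit 6, nat_lit 2, nat_lit 4, nat_lit 1, nat_lit 5]⟩,
  ⟨[(nat_lit 0, nat_lit 1), (nat_lit 1, nat_lit 1), (nat_lit 2, nat_lit 1), (nat_lit 3, nat_lit 1), (nat_lit 4, nat_lit 1), (nat_lit 5, nat_lit 1), (nat_lit 6, nat_lit 1), (nat_lit 7, nat_lit 1)], [nat_lit 2, nat_lit 0, nat_lit 3, nat_lit 7, nat_lit 1, nat_lit 4, nat_lit 6, nat_lit 5]⟩,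
  ⟨[(nat_lit 0, nat_lit 1), (nat_lit 1, nat_lit 1), (nat_lit 2, nat_lit 1), (nat_lit 3, nat_lit 1), (nat_lit 4, nat_lit 1), (nat_lit 5, nat_lit 1), (nat_lit 6, nat_lit 1), (nat_lit 7, nat_lit 1)], [nat_lit 2, nat_lit 0, nat_lit 3, nat_lit 6, nat_lit 1, nat_lit 7, nat_lit 5, nat_lit 4]⟩,
  ⟨[(nat_lit 0, nat_lit 1), (nat_lit 1, nat_lit 1), (nat_lit 2, nat_lit 1), (nat_lit 3, nat_lit 1), (nat_lit 4, nat_lit 1), (nat_lit 5, nat_lit 1), (nat_lit 6, nat_lit 1), (nat_lit 7, nat_lit 1)], [nat_lit 3, nat_lit 0, nat_lit 2, nat_lit 7, nat_lit 1, nat_lit 4, nat_lit 6, nat_lit 5]⟩,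
  ⟨[(nat_lit 0, nat_lit 1), (nat_lit 1, nat_lit 1), (nat_lit 2, nat_lit 1), (nat_lit 3, nat_lit 1), (nat_lit 4, nat_lit 1), (nat_lit 5, nat_lit 1), (nat_lit 6, nat_lit 1), (nat_lit 7, nat_lit 1)], [nat_lit 3, nat_lit 0, nat_lit 2, nat_lit 6, nat_lit 1, nat_lit 7, nat_lit 5, nat_lit 4]⟩,
  ⟨[(nat_lit 0, nat_lit 1), (nat_lit 1, nat_lit 1), (nat_lit 2, nat_lit 1), (nat_lit 3, nat_lit 1), (nat_lit 4, nat_lit 1), (nat_lit 5, nat_lit 1), (nat_lit 6, nat_lit 1), (nat_lit 7, nat_lit 1)], [nat_lit 4, nat_lit 0, nat_lit 2, nat_lit 6, nat_lit 1, nat_lit 7, nat_lit 3, nat_lit 5]⟩,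
  ⟨[(nat_lit 0, nat_lit 1), (nat_lit 1, nat_lit 1), (nat_lit 2, nat_lit 1), (nat_lit 3, nat_lit 1), (nat_lit 4, nat_lit 1), (nat_lit 5, nat_lit 1), (nat_lit 6, nat_lit 1), (nat_lit 7, nat_lit 1)], [nat_lit 3, nat_lit 0, nat_lit 4, nat_lit 6, nat_lit 1, nat_lit 7, nat_lit 2, nat_lit 5]⟩,
  ⟨[(nat_lit 0, nat_lit 1), (nat_lit 1, nat_lit 1), (nat_lit 2, nat_lit 1), (nat_lit 3, nat_lit 1), (nat_lit 4, nat_lit 1), (nat_lit 5, nat_lit 1), (nat_lit 6, nat_lit 1), (nat_lit 7, nat_lit 1)], [nat_lit 4, nat_lit 0, nat_lit 3, nat_lit 6, nat_lit 1, nat_lit 7, nat_lit 2, nat_lit 5]⟩,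
  ⟨[(nat_lit 0, nat_lit 1), (nat_lit 1, nat_lit 1), (nat_lit 2, nat_lit 1), (nat_lit 3, nat_lit 1), (nat_lit 4, nat_lit 1), (nat_lit 5, nat_lit 1), (nat_lit 6, nat_lit 1), (nat_lit 7, nat_lit 1)], [nat_lit 2, nat_lit 0, nat_lit 3, nat_lit 5, nat_lit 7, nat_lit 1, nat_lit 4, nat_lit 6]⟩,
  ⟨[(nat_lit 0, nat_lit 1), (nat_lit 1, nat_lit 1), (nat_lit 2, nat_lit 1), (nat_lit 3, nat_lit 1), (nat_lit 4, nat_lit 1), (nat_lit 5, nat_lit 1), (nat_lit 6, nat_lit 1), (nat_lit 7, nat_lit 1)], [nat_lit 2, nat_lit 0, nat_lit 3, nat_lit 7, nat_lit 5, nat_lit 1, nat_lit 4, nat_lit 6]⟩,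
  ⟨[(nat_lit 0, nat_lit 1), (nat_lit 1, nat_lit 1), (nat_lit 2, nat_lit 1), (nat_lit 3, nat_lit 1), (nat_lit 4, nat_lit 1), (nat_lit 5, nat_lit 1), (nat_lit 6, nat_lit 1), (nat_lit 7, nat_lit 1)], [nat_lit 2, nat_lit 0, nat_lit 3, nat_lit 5, nat_lit 7, nat_lit 1, nat_lit 6, nat_lit 4]⟩,
  ⟨[(nat_lit 0, nat_lit 1), (nat_lit 1, nat_lit 1), (nat_lit 2, nat_lit 1), (nat_lit 3, nat_lit 1), (nat_lit 4, nat_lit 1), (nat_lit 5, nat_lit 1), (nat_lit 6, nat_lit 1), (nat_lit 7, nat_lit 1)], [nat_lit 2, nat_lit 0, nat_lit 3, nat_lit 7, nat_lit 5, nat_lit 1, nat_lit 6, nat_lit 4]⟩,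
  ⟨[(nat_lit 0, nat_lit 1), (nat_lit 1, nat_lit 1), (nat_lit 2, nat_lit 1), (nat_lit 3, nat_lit 1), (nat_lit 4, nat_lit 1), (nat_lit 5, nat_lit 1), (nat_lit 6, nat_lit 1), (nat_lit 7, nat_lit 1)], [nat_lit 3, nat_lit 0, nat_lit 2, nat_lit 5, nat_lit 7, nat_lit 1, nat_lit 4, nat_lit 6]⟩,
  ⟨[(nat_lit 0, nat_lit 1), (nat_lit 1, nat_lit 1), (nat_lit 2, nat_lit 1), (nat_lit 3, nat_lit 1), (nat_lit 4, nat_lit 1), (nat_lit 5, nat_lit 1), (nat_lit 6, nat_lit 1), (nat_lit 7, nat_lit 1)], [nat_lit 3, nat_lit 0, nat_lit 2, nat_lit 7, nat_lit 5, nat_lit 1, nat_lit 4, nat_lit 6]⟩,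
  ⟨[(nat_lit 0, nat_lit 1), (nat_lit 1, nat_lit 1), (nat_lit 2, nat_lit 1), (nat_lit 3, nat_lit 1), (nat_lit 4, nat_lit 1), (nat_lit 5, nat_lit 1), (nat_lit 6, nat_lit 1), (nat_lit 7, nat_lit 1)], [nat_lit 3, nat_lit 0, nat_lit 2, nat_lit 5, nat_lit 7, nat_lit 1, nat_lit 6, nat_lit 4]⟩,
  ⟨[(nat_lit 0, nat_lit 1), (nat_lit 1, nat_lit 1), (nat_lit 2, nat_lit 1), (nat_lit 3, nat_lit 1), (nat_lit 4, nat_lit 1), (nat_lit 5, nat_lit 1), (nat_lit 6, nat_lit 1), (nat_lit 7, nat_lit 1)], [nat_lit 3, nat_lit 0, nat_lit 2, nat_lit 7, nat_lit 5, nat_lit 1, nat_lit 6, nat_lit 4]⟩,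
  ⟨[(nat_lit 0, nat_lit 1), (nat_lit 1, nat_lit 1), (nat_lit 2, nat_lit 1), (nat_lit 3, nat_lit 1), (nat_lit 4, nat_lit 1), (nat_lit 5, nat_lit 1), (nat_lit 6, nat_lit 1), (nat_lit 7, nat_lit 1)], [nat_lit 2, nat_lit 0, nat_lit 3, nat_lit 5, nat_lit 7, nat_lit 6, nat_lit 1, nat_lit 4]⟩,
  ⟨[(nat_lit 0, nat_lit 1), (nat_lit 1, nat_lit 1), (nat_lit 2, nat_lit 1), (nat_lit 3, nat_lit 1), (nat_lit 4, nat_lit 1), (nat_lit 5, nat_lit 1), (nat_lit 6, nat_lit 1), (nat_lit 7, nat_lit 1)], [nat_lit 3, nat_lit 0, nat_lit 2, nat_lit 5, nat_lit 7, nat_lit 6, nat_lit 1, nat_lit 4]⟩,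
  ⟨[(nat_lit 0, nat_lit 1), (nat_lit 1, nat_lit 1), (nat_lit 2, nat_lit 1), (nat_lit 3, nat_lit 1), (nat_lit 4, nat_lit 1), (nat_lit 5, nat_lit 1), (nat_lit 6, nat_lit 1), (nat_lit 7, nat_lit 1)], [nat_lit 3, nat_lit 0, nat_lit 7, nat_lit 2, nat_lit 4, nat_lit 6, nat_lit 5, nat_lit 1]⟩,
  ⟨[(nat_lit 0, nat_lit 1), (nat_lit 1, nat_lit 1), (nat_lit 2, nat_lit 1), (nat_lit 3, nat_lit 1), (nat_lit 4, nat_lit 1), (nat_lit 5, nat_lit 1), (nat_lit 6, nat_lit 1), (nat_lit 7, nat_lit 1)], [nat_lit 3, nat_lit 0, nat_lit 6, nat_lit 2, nat_lit 7, nat_lit 5, nat_lit 4, nat_lit 1]⟩,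
  ⟨[(nat_lit 0, nat_lit 1), (nat_lit 1, nat_lit 1), (nat_lit 2, nat_lit 1), (nat_lit 3, nat_lit 1), (nat_lit 4, nat_lit 1), (nat_lit 5, nat_lit 1), (nat_lit 6, nat_lit 1), (nat_lit 7, nat_lit 1)], [nat_lit 4, nat_lit 0, nat_lit 6, nat_lit 2, nat_lit 7, nat_lit 3, nat_lit 5, nat_lit 1]⟩,
  ⟨[(nat_lit 0, nat_lit 1), (nat_lit 1, nat_lit 1), (nat_lit 2, nat_lit 1), (nat_lit 3, nat_lit 1), (nat_lit 4, nat_lit 1), (nat_lit 5, nat_lit 1), (nat_lit 6, nat_lit 1), (nat_lit 7, nat_lit 1)], [nat_lit 3, nat_lit 0, nat_lit 5, nat_lit 7, nat_lit 2, nat_lit 4, nat_lit 6, nat_lit 1]⟩,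
  ⟨[(nat_lit 0, nat_lit 1), (nat_lit 1, nat_lit 1), (nat_lit 2, nat_lit 1), (nat_lit 3, nat_lit 1), (nat_lit 4, nat_lit 1), (nat_lit 5, nat_lit 1), (nat_lit 6, nat_lit 1), (nat_lit 7, nat_lit 1)], [nat_lit 3, nat_lit 0, nat_lit 7, nat_lit 5, nat_lit 2, nat_lit 4, nat_lit 6, nat_lit 1]⟩,
  ⟨[(nat_lit 0, nat_lit 1), (nat_lit 1, nat_lit 1), (nat_lit 2, nat_lit 1), (nat_lit 3, nat_lit 1), (nat_lit 4, nat_lit 1), (nat_lit 5, nat_lit 1), (nat_lit 6, nat_lit 1), (nat_lit 7, nat_lit 1)], [nat_lit 3, nat_lit 0, nat_lit 5, nat_lit 7, nat_lit 2, nat_lit 6, nat_lit 4, nat_lit 1]⟩,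
  ⟨[(nat_lit 0, nat_lit 1), (nat_lit 1, nat_lit 1), (nat_lit 2, nat_lit 1), (nat_lit 3, nat_lit 1), (nat_lit 4, nat_lit 1), (nat_lit 5, nat_lit 1), (nat_lit 6, nat_lit 1), (nat_lit 7, nat_lit 1)], [nat_lit 3, nat_lit 0, nat_lit 7, nat_lit 5, nat_lit 2, nat_lit 6, nat_lit 4, nat_lit 1]⟩,
  ⟨[(nat_lit 0, nat_lit 1), (nat_lit 1, nat_lit 1), (nat_lit 2, nat_lit 1), (nat_lit 3, nat_lit 1), (nat_lit 4, nat_lit 1), (nat_lit 5, nat_lit 1), (nat_lit 6, nat_lit 1), (nat_lit 7, nat_lit 1)], [nat_lit 3, nat_lit 0, nat_lit 5, nat_lit 7, nat_lit 6, nat_lit 2, nat_lit 4, nat_lit 1]⟩,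
  ⟨[(nat_lit 0, nat_lit 1), (nat_lit 1, nat_lit 1), (nat_lit 2, nat_lit 1), (nat_lit 3, nat_lit 1), (nat_lit 4, nat_lit 1), (nat_lit 5, nat_lit 1), (nat_lit 6, nat_lit 1), (nat_lit 7, nat_lit 1)], [nat_lit 1, nat_lit 3, nat_lit 0, nat_lit 7, nat_lit 2, nat_lit 4, nat_lit 6, nat_lit 5]⟩,
  ⟨[(nat_lit 0, nat_lit 1), (nat_lit 1, nat_lit 1), (nat_lit 2, nat_lit 1), (nat_lit 3, nat_lit 1), (nat_lit 4, nat_lit 1), (nat_lit 5, nat_lit 1), (nat_lit 6, nat_lit 1), (nat_lit 7, nat_lit 1)], [nat_lit 1, nat_lit 3, nat_lit 0, nat_lit 6, nat_lit 2, nat_lit 7, nat_lit 5, nat_lit 4]⟩,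
  ⟨[(nat_lit 0, nat_lit 1), (nat_lit 1, nat_lit 1), (nat_lit 2, nat_lit 1), (nat_lit 3, nat_lit 1), (nat_lit 4, nat_lit 1), (nat_lit 5, nat_lit 1), (nat_lit 6, nat_lit 1), (nat_lit 7, nat_lit 1)], [nat_lit 1, nat_lit 4, nat_lit 0, nat_lit 6, nat_lit 2, nat_lit 7, nat_lit 3, nat_lit 5]⟩,
  ⟨[(nat_lit 0, nat_lit 1), (nat_lit 1, nat_lit 1), (nat_lit 2, nat_lit 1), (nat_lit 3, nat_lit 1), (nat_lit 4, nat_lit 1), (nat_lit 5, nat_lit 1), (nat_lit 6, nat_lit 1), (nat_lit 7, nat_lit 1)], [nat_lit 1, nat_lit 3, nat_lit 0, nat_lit 5, nat_lit 7, nat_lit 2, nat_lit 4, nat_lit 6]⟩,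
  ⟨[(nat_lit 0, nat_lit 1), (nat_lit 1, nat_lit 1), (nat_lit 2, nat_lit 1), (nat_lit 3, nat_lit 1), (nat_lit 4, nat_lit 1), (nat_lit 5, nat_lit 1), (nat_lit 6, nat_lit 1), (nat_lit 7, nat_lit 1)], [nat_lit 1, nat_lit 3, nat_lit 0, nat_lit 7, nat_lit 5, nat_lit 2, nat_lit 4, nat_lit 6]⟩,
  ⟨[(nat_lit 0, nat_lit 1), (nat_lit 1, nat_lit 1), (nat_lit 2, nat_lit 1), (nat_lit 3, nat_lit 1), (nat_lit 4, nat_lit 1), (nat_lit 5, nat_lit 1), (nat_lit 6, nat_lit 1), (nat_lit 7, nat_lit 1)], [nat_lit 1, nat_lit 3, nat_lit 0, nat_lit 5, nat_lit 7, nat_lit 2, nat_lit 6, nat_lit 4]⟩,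
  ⟨[(nat_lit 0, nat_lit 1), (nat_lit 1, nat_lit 1), (nat_lit 2, nat_lit 1), (nat_lit 3, nat_lit 1), (nat_lit 4, nat_lit 1), (nat_lit 5, nat_lit 1), (nat_lit 6, nat_lit 1), (nat_lit 7, nat_lit 1)], [nat_lit 1, nat_lit 3, nat_lit 0, nat_lit 7, nat_lit 5, nat_lit 2, nat_lit 6, nat_lit 4]⟩,
  ⟨[(nat_lit 0, nat_lit 1), (nat_lit 1, nat_lit 1), (nat_lit 2, nat_lit 1), (nat_lit 3, nat_lit 1), (nat_lit 4, nat_lit 1), (nat_lit 5, nat_lit 1), (nat_lit 6, nat_lit 1), (nat_lit 7, nat_lit 1)], [nat_lit 1, nat_lit 3, nat_lit 0, nat_lit 5, nat_lit 7, nat_lit 6, nat_lit 2, nat_lit 4]⟩,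
  ⟨[(nat_lit 0, nat_lit 1), (nat_lit 1, nat_lit 1), (nat_lit 2, nat_lit 1), (nat_lit 3, nat_lit 1), (nat_lit 4, nat_lit 1), (nat_lit 5, nat_lit 1), (nat_lit 6, nat_lit 1), (nat_lit 7, nat_lit 1)], [nat_lit 1, nat_lit 3, nat_lit 7, nat_lit 0, nat_lit 2, nat_lit 4, nat_lit 6, nat_lit 5]⟩,
  ⟨[(nat_lit 0, nat_lit 1), (nat_lit 1, nat_lit 1), (nat_lit 2, nat_lit 1), (nat_lit 3, nat_lit 1), (nat_lit 4, nat_lit 1), (nat_lit 5, nat_lit 1), (nat_lit 6, nat_lit 1), (nat_lit 7, nat_lit 1)], [nat_lit 1, nat_lit 3, nat_lit 6, nat_lit 0, nat_lit 2, nat_lit 7, nat_lit 5, nat_lit 4]⟩,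
  ⟨[(nat_lit 0, nat_lit 1), (nat_lit 1, nat_lit 1), (nat_lit 2, nat_lit 1), (nat_lit 3, nat_lit 1), (nat_lit 4, nat_lit 1), (nat_lit 5, nat_lit 1), (nat_lit 6, nat_lit 1), (nat_lit 7, nat_lit 1)], [nat_lit 1, nat_lit 3, nat_lit 2, nat_lit 7, nat_lit 0, nat_lit 4, nat_lit 6, nat_lit 5]⟩,
  ⟨[(nat_lit 0, nat_lit 1), (nat_lit 1, nat_lit 1), (nat_lit 2, nat_lit 1), (nat_lit 3, nat_lit 1), (nat_lit 4, nat_lit 1), (nat_lit 5, nat_lit 1), (nat_lit 6, nat_lit 1), (nat_lit 7, nat_lit 1)], [nat_lit 1, nat_lit 3, nat_lit 2, nat_lit 6, nat_lit 0, nat_lit 7, nat_lit 5, nat_lit 4]⟩,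
  ⟨[(nat_lit 0, nat_lit 1), (nat_lit 1, nat_lit 1), (nat_lit 2, nat_lit 1), (nat_lit 3, nat_lit 1), (nat_lit 4, nat_lit 1), (nat_lit 5, nat_lit 1), (nat_lit 6, nat_lit 1), (nat_lit 7, nat_lit 1)], [nat_lit 1, nat_lit 3, nat_lit 5, nat_lit 7, nat_lit 0, nat_lit 2, nat_lit 4, nat_lit 6]⟩,
  ⟨[(nat_lit 0, nat_lit 1), (nat_lit 1, nat_lit 1), (nat_lit 2, nat_lit 1), (nat_lit 3, nat_lit 1), (nat_lit 4, nat_lit 1), (nat_lit 5, nat_lit 1), (nat_lit 6, nat_lit 1), (nat_lit 7, nat_lit 1)], [nat_lit 1, nat_lit 3, nat_lit 7, nat_lit 5, nat_lit 0, nat_lit 2, nat_lit 4, nat_lit 6]⟩,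
  ⟨[(nat_lit 0, nat_lit 1), (nat_lit 1, nat_lit 1), (nat_lit 2, nat_lit 1), (nat_lit 3, nat_lit 1), (nat_lit 4, nat_lit 1), (nat_lit 5, nat_lit 1), (nat_lit 6, nat_lit 1), (nat_lit 7, nat_lit 1)], [nat_lit 1, nat_lit 3, nat_lit 5, nat_lit 7, nat_lit 0, nat_lit 2, nat_lit 6, nat_lit 4]⟩,
  ⟨[(nat_lit 0, nat_lit 1), (nat_lit 1, nat_lit 1), (nat_lit 2, nat_lit 1), (nat_lit 3, nat_lit 1), (nat_lit 4, nat_lit 1), (nat_lit 5, nat_lit 1), (nat_lit 6, nat_lit 1), (nat_lit 7, nat_lit 1)], [nat_lit 1, nat_lit 3, nat_lit 7, nat_lit 5, nat_lit 0, nat_lit 2, nat_lit 6, nat_lit 4]⟩,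
  ⟨[(nat_lit 0, nat_lit 1), (nat_lit 1, nat_lit 1), (nat_lit 2, nat_lit 1), (nat_lit 3, nat_lit 1), (nat_lit 4, nat_lit 1), (nat_lit 5, nat_lit 1), (nat_lit 6, nat_lit 1), (nat_lit 7, nat_lit 1)], [nat_lit 2, nat_lit 4, nat_lit 3, nat_lit 6, nat_lit 0, nat_lit 7, nat_lit 1, nat_lit 5]⟩,
  ⟨[(nat_lit 0, nat_lit 1), (nat_lit 1, nat_lit 1), (nat_lit 2, nat_lit 1), (nat_lit 3, nat_lit 1), (nat_lit 4, nat_lit 1), (nat_lit 5, nat_lit 1), (nat_lit 6, nat_lit 1), (nat_lit 7, nat_lit 1)], [nat_lit 1, nat_lit 3, nat_lit 2, nat_lit 5, nat_lit 7, nat_lit 0, nat_lit 4, nat_lit 6]⟩,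
  ⟨[(nat_lit 0, nat_lit 1), (nat_lit 1, nat_lit 1), (nat_lit 2, nat_lit 1), (nat_lit 3, nat_lit 1), (nat_lit 4, nat_lit 1), (nat_lit 5, nat_lit 1), (nat_lit 6, nat_lit 1), (nat_lit 7, nat_lit 1)], [nat_lit 1, nat_lit 3, nat_lit 2, nat_lit 7, nat_lit 5, nat_lit 0, nat_lit 4, nat_lit 6]⟩,
  ⟨[(nat_lit 0, nat_lit 1), (nat_lit 1, nat_lit 1), (nat_lit 2, nat_lit 1), (nat_lit 3, nat_lit 1), (nat_lit 4, nat_lit 1), (nat_lit 5, nat_lit 1), (nat_lit 6, nat_lit 1), (nat_lit 7, nat_lit 1)], [nat_lit 1, nat_lit 3, nat_lit 2, nat_lit 5, nat_lit 7, nat_lit 0, nat_lit 6, nat_lit 4]⟩,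
  ⟨[(nat_lit 0, nat_lit 1), (nat_lit 1, nat_lit 1), (nat_lit 2, nat_lit 1), (nat_lit 3, nat_lit 1), (nat_lit 4, nat_lit 1), (nat_lit 5, nat_lit 1), (nat_lit 6, nat_lit 1), (nat_lit 7, nat_lit 1)], [nat_lit 1, nat_lit 3, nat_lit 2, nat_lit 7, nat_lit 5, nat_lit 0, nat_lit 6, nat_lit 4]⟩,
  ⟨[(nat_lit 0, nat_lit 1), (nat_lit 1, nat_lit 1), (nat_lit 2, nat_lit 1), (nat_lit 3, nat_lit 1), (nat_lit 4, nat_lit 1), (nat_lit 5, nat_lit 1), (nat_lit 6, nat_lit 1), (nat_lit 7, nat_lit 1)], [nat_lit 1, nat_lit 3, nat_lit 5, nat_lit 7, nat_lit 6, nat_lit 0, nat_lit 2, nat_lit 4]⟩,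
  ⟨[(nat_lit 0, nat_lit 1), (nat_lit 1, nat_lit 1), (nat_lit 2, nat_lit 1), (nat_lit 3, nat_lit 1), (nat_lit 4, nat_lit 1), (nat_lit 5, nat_lit 1), (nat_lit 6, nat_lit 1), (nat_lit 7, nat_lit 1)], [nat_lit 1, nat_lit 3, nat_lit 2, nat_lit 5, nat_lit 7, nat_lit 6, nat_lit 0, nat_lit 4]⟩,
  ⟨[(nat_lit 0, nat_lit 1), (nat_lit 1, nat_lit 1), (nat_lit 2, nat_lit 1), (nat_lit 3, nat_lit 1), (nat_lit 4, nat_lit 1), (nat_lit 5, nat_lit 1), (nat_lit 6, nat_lit 1), (nat_lit 7, nat_lit 1)], [nat_lit 3, nat_lit 1, nat_lit 4, nat_lit 7, nat_lit 2, nat_lit 5, nat_lit 0, nat_lit 6]⟩,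
  ⟨[(nat_lit 0, nat_lit 1), (nat_lit 1, nat_lit 1), (nat_lit 2, nat_lit 1), (nat_lit 3, nat_lit 1), (nat_lit 4, nat_lit 1), (nat_lit 5, nat_lit 1), (nat_lit 6, nat_lit 1), (nat_lit 7, nat_lit 1)], [nat_lit 4, nat_lit 1, nat_lit 3, nat_lit 7, nat_lit 2, nat_lit 5, nat_lit 0, nat_lit 6]⟩,
  ⟨[(nat_lit 0, nat_lit 1), (nat_lit 1, nat_lit 1), (nat_lit 2, nat_lit 1), (nat_lit 3, nat_lit 1), (nat_lit 4, nat_lit 1), (nat_lit 5, nat_lit 1), (nat_lit 6, nat_lit 1), (nat_lit 7, nat_lit 1)], [nat_lit 2, nat_lit 4, nat_lit 1, nat_lit 7, nat_lit 3, nat_lit 5, nat_lit 0, nat_lit 6]⟩,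
  ⟨[(nat_lit 0, nat_lit 1), (nat_lit 1, nat_lit 1), (nat_lit 2, nat_lit 1), (nat_lit 3, nat_lit 1), (nat_lit 4, nat_lit 1), (nat_lit 5, nat_lit 1), (nat_lit 6, nat_lit 1), (nat_lit 7, nat_lit 1)], [nat_lit 2, nat_lit 4, nat_lit 7, nat_lit 1, nat_lit 3, nat_lit 5, nat_lit 0, nat_lit 6]⟩,
  ⟨[(nat_lit 0, nat_lit 1), (nat_lit 1, nat_lit 1), (nat_lit 2, nat_lit 1), (nat_lit 3, nat_lit 1), (nat_lit 4, nat_lit 1), (nat_lit 5, nat_lit 1), (nat_lit 6, nat_lit 1), (nat_lit 7, nat_lit 1)], [nat_lit 2, nat_lit 4, nat_lit 3, nat_lit 7, nat_lit 1, nat_lit 5, nat_lit 0, nat_lit 6]⟩,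
  ⟨[(nat_lit 0, nat_lit 1), (nat_lit 1, nat_lit 1), (nat_lit 2, nat_lit 1), (nat_lit 3, nat_lit 1), (nat_lit 4, nat_lit 1), (nat_lit 5, nat_lit 1), (nat_lit 6, nat_lit 1), (nat_lit 7, nat_lit 2)], [nat_lit 2, nat_lit 0, nat_lit 3, nat_lit 6, nat_lit 1, nat_lit 7, nat_lit 5, nat_lit 4]⟩,
  ⟨[(nat_lit 0, nat_lit 1), (nat_lit 1, nat_lit 1), (nat_lit 2, nat_lit 1), (nat_lit 3, nat_lit 1), (nat_lit 4, nat_lit 1), (nat_lit 5, nat_lit 1), (nat_lit 6, nat_lit 1), (nat_lit 7, nat_lit 2)], [nat_lit 3, nat_lit 0, nat_lit 2, nat_lit 6, nat_lit 1, nat_lit 7, nat_lit 5, nat_lit 4]⟩,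
  ⟨[(nat_lit 0, nat_lit 1), (nat_lit 1, nat_lit 1), (nat_lit 2, nat_lit 1), (nat_lit 3, nat_lit 1), (nat_lit 4, nat_lit 1), (nat_lit 5, nat_lit 1), (nat_lit 6, nat_lit 1), (nat_lit 7, nat_lit 2)], [nat_lit 3, nat_lit 0, nat_lit 6, nat_lit 2, nat_lit 7, nat_lit 5, nat_lit 4, nat_lit 1]⟩,
  ⟨[(nat_lit 0, nat_lit 1), (nat_lit 1, nat_lit 1), (nat_lit 2, nat_lit 1), (nat_lit 3, nat_lit 1), (nat_lit 4, nat_lit 1), (nat_lit 5, nat_lit 1), (nat_lit 6, nat_lit 1), (nat_lit 7, nat_lit 2)], [nat_lit 1, nat_lit 3, nat_lit 0, nat_lit 6, nat_lit 2, nat_lit 7, nat_lit 5, nat_lit 4]⟩,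
  ⟨[(nat_lit 0, nat_lit 1), (nat_lit 1, nat_lit 1), (nat_lit 2, nat_lit 1), (nat_lit 3, nat_lit 1), (nat_lit 4, nat_lit 1), (nat_lit 5, nat_lit 1), (nat_lit 6, nat_lit 1), (nat_lit 7, nat_lit 2)], [nat_lit 1, nat_lit 3, nat_lit 6, nat_lit 0, nat_lit 2, nat_lit 7, nat_lit 5, nat_lit 4]⟩,
  ⟨[(nat_lit 0, nat_lit 1), (nat_lit 1, nat_lit 1), (nat_lit 2, nat_lit 1), (nat_lit 3, nat_lit 1), (nat_lit 4, nat_lit 1), (nat_lit 5, nat_lit 1), (nat_lit 6, nat_lit 1), (nat_lit 7, nat_lit 2)], [nat_lit 1, nat_lit 3, nat_lit 2, nat_lit 6, nat_lit 0, nat_lit 7, nat_lit 5, nat_lit 4]⟩,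
  ⟨[(nat_lit 0, nat_lit 0), (nat_lit 1, nat_lit 1), (nat_lit 2, nat_lit 1), (nat_lit 3, nat_lit 1), (nat_lit 4, nat_lit 1), (nat_lit 5, nat_lit 1), (nat_lit 6, nat_lit 1), (nat_lit 7, nat_lit 1)], [nat_lit 3, nat_lit 1, nat_lit 4, nat_lit 7, nat_lit 2, nat_lit 5, nat_lit 0, nat_lit 6]⟩,
  ⟨[(nat_lit 0, nat_lit 0), (nat_lit 1, nat_lit 1), (nat_lit 2, nat_lit 1), (nat_lit 3, nat_lit 1), (nat_lit 4, nat_lit 1), (nat_lit 5, nat_lit 1), (nat_lit 6, nat_lit 1), (nat_lit 7, nat_lit 1)], [nat_lit 4, nat_lit 1, nat_lit 3, nat_lit 7, nat_lit 2, nat_lit 5, nat_lit 0, nat_lit 6]⟩,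
  ⟨[(nat_lit 0, nat_lit 0), (nat_lit 1, nat_lit 1), (nat_lit 2, nat_lit 1), (nat_lit 3, nat_lit 1), (nat_lit 4, nat_lit 1), (nat_lit 5, nat_lit 1), (nat_lit 6, nat_lit 1), (nat_lit 7, nat_lit 1)], [nat_lit 2, nat_lit 4, nat_lit 1, nat_lit 7, nat_lit 3, nat_lit 5, nat_lit 0, nat_lit 6]⟩,
  ⟨[(nat_lit 0, nat_lit 0), (nat_lit 1, nat_lit 1), (nat_lit 2, nat_lit 1), (nat_lit 3, nat_lit 1), (nat_lit 4, nat_lit 1), (nat_lit 5, nat_lit 1), (nat_lit 6, nat_lit 1), (nat_lit 7, nat_lit 1)], [nat_lit 2, nat_lit 4, nat_lit 7, nat_lit 1, nat_lit 3, nat_lit 5, nat_lit 0, nat_lit 6]⟩,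
  ⟨[(nat_lit 0, nat_lit 0), (nat_lit 1, nat_lit 1), (nat_lit 2, nat_lit 1), (nat_lit 3, nat_lit 1), (nat_lit 4, nat_lit 1), (nat_lit 5, nat_lit 1), (nat_lit 6, nat_lit 1), (nat_lit 7, nat_lit 1)], [nat_lit 2, nat_lit 4, nat_lit 3, nat_lit 7, nat_lit 1, nat_lit 5, nat_lit 0, nat_lit 6]⟩,
  ⟨[(nat_lit 0, nat_lit 1), (nat_lit 1, nat_lit 1), (nat_lit 2, nat_lit 1), (nat_lit 3, nat_lit 1), (nat_lit 4, nat_lit 1), (nat_lit 5, nat_lit 1), (nat_lit 6, nat_lit 1), (nat_lit 7, nat_lit 1), (nat_lit 8, nat_lit 1)], [nat_lit 4, nat_lit 0, nat_lit 2, nat_lit 1, nat_lit 8, nat_lit 3, nat_lit 5, nat_lit 7, nat_lit 6]⟩,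
  ⟨[(nat_lit 0, nat_lit 1), (nat_lit 1, nat_lit 1), (nat_lit 2, nat_lit 1), (nat_lit 3, nat_lit 1), (nat_lit 4, nat_lit 1), (nat_lit 5, nat_lit 1), (nat_lit 6, nat_lit 1), (nat_lit 7, nat_lit 1), (nat_lit 8, nat_lit 1)], [nat_lit 4, nat_lit 0, nat_lit 2, nat_lit 1, nat_lit 7, nat_lit 3, nat_lit 8, nat_lit 6, nat_lit 5]⟩,
  ⟨[(nat_lit 0, nat_lit 1), (nat_lit 1, nat_lit 1), (nat_lit 2, nat_lit 1), (nat_lit 3, nat_lit 1), (nat_lit 4, nat_lit 1), (nat_lit 5, nat_lit 1), (nat_lit 6, nat_lit 1), (nat_lit 7, nat_lit 1), (nat_lit 8, nat_lit 1)], [nat_lit 5, nat_lit 0, nat_lit 2, nat_lit 1, nat_lit 7, nat_lit 3, nat_lit 8, nat_lit 4, nat_lit 6]⟩,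
  ⟨[(nat_lit 0, nat_lit 1), (nat_lit 1, nat_lit 1), (nat_lit 2, nat_lit 1), (nat_lit 3, nat_lit 1), (nat_lit 4, nat_lit 1), (nat_lit 5, nat_lit 1), (nat_lit 6, nat_lit 1), (nat_lit 7, nat_lit 1), (nat_lit 8, nat_lit 1)], [nat_lit 4, nat_lit 0, nat_lit 2, nat_lit 1, nat_lit 6, nat_lit 8, nat_lit 3, nat_lit 5, nat_lit 7]⟩,
  ⟨[(nat_lit 0, nat_lit 1), (nat_lit 1, nat_lit 1), (nat_lit 2, nat_lit 1), (nat_lit 3, nat_lit 1), (nat_lit 4, nat_lit 1), (nat_lit 5, nat_lit 1), (nat_lit 6, nat_lit 1), (nat_lit 7, nat_lit 1), (nat_lit 8, nat_lit 1)], [nat_lit 4, nat_lit 0, nat_lit 2, nat_lit 1, nat_lit 8, nat_lit 6, nat_lit 3, nat_lit 5, nat_lit 7]⟩,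
  ⟨[(nat_lit 0, nat_lit 1), (nat_lit 1, nat_lit 1), (nat_lit 2, nat_lit 1), (nat_lit 3, nat_lit 1), (nat_lit 4, nat_lit 1), (nat_lit 5, nat_lit 1), (nat_lit 6, nat_lit 1), (nat_lit 7, nat_lit 1), (nat_lit 8, nat_lit 1)], [nat_lit 4, nat_lit 0, nat_lit 2, nat_lit 1, nat_lit 6, nat_lit 8, nat_lit 3, nat_lit 7, nat_lit 5]⟩,
  ⟨[(nat_lit 0, nat_lit 1), (nat_lit 1, nat_lit 1), (nat_lit 2, nat_lit 1), (nat_lit 3, nat_lit 1), (nat_lit 4, nat_lit 1), (nat_lit 5, nat_lit 1), (nat_lit 6, nat_lit 1), (nat_lit 7, nat_lit 1), (nat_lit 8, nat_lit 1)], [nat_lit 4, nat_lit 0, nat_lit 2, nat_lit 1, nat_lit 8, nat_lit 6, nat_lit 3, nat_lit 7, nat_lit 5]⟩,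
  ⟨[(nat_lit 0, nat_lit 1), (nat_lit 1, nat_lit 1), (nat_lit 2, nat_lit 1), (nat_lit 3, nat_lit 1), (nat_lit 4, nat_lit 1), (nat_lit 5, nat_lit 1), (nat_lit 6, nat_lit 1), (nat_lit 7, nat_lit 1), (nat_lit 8, nat_lit 1)], [nat_lit 4, nat_lit 0, nat_lit 2, nat_lit 1, nat_lit 6, nat_lit 8, nat_lit 7, nat_lit 3, nat_lit 5]⟩,
  ⟨[(nat_lit 0, nat_lit 1), (nat_lit 1, nat_lit 1), (nat_lit 2, nat_lit 1), (nat_lit 3, nat_lit 1), (nat_lit 4, nat_lit 1), (nat_lit 5, nat_lit 1), (nat_lit 6, nat_lit 1), (nat_lit 7, nat_lit 1), (nat_lit 8, nat_lit 1)], [nat_lit 5, nat_lit 1, nat_lit 3, nat_lit 2, nat_lit 8, nat_lit 4, nat_lit 6, nat_lit 0, nat_lit 7]⟩,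
  ⟨[(nat_lit 0, nat_lit 1), (nat_lit 1, nat_lit 1), (nat_lit 2, nat_lit 1), (nat_lit 3, nat_lit 1), (nat_lit 4, nat_lit 1), (nat_lit 5, nat_lit 1), (nat_lit 6, nat_lit 1), (nat_lit 7, nat_lit 1), (nat_lit 8, nat_lit 2)], [nat_lit 4, nat_lit 0, nat_lit 2, nat_lit 1, nat_lit 7, nat_lit 3, nat_lit 8, nat_lit 6, nat_lit 5]⟩,
  ⟨[(nat_lit 0, nat_lit 0), (nat_lit 1, nat_lit 1), (nat_lit 2, nat_lit 1), (nat_lit 3, nat_lit 1), (nat_lit 4, nat_lit 1), (nat_lit 5, nat_lit 1), (nat_lit 6, nat_lit 1), (nat_lit 7, nat_lit 1), (nat_lit 8, nat_lit 1)], [nat_lit 5, nat_lit 1, nat_lit 3, nat_lit 2, nat_lit 8, nat_lit 4, nat_lit 6, nat_lit 0, nat_lit 7]⟩]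

/-- certificates bounding the threshold from above -/
def UT : List UPat := [
  ⟨[(nat_lit 0, nat_lit 2), (nat_lit 1, nat_lit 4)], [nat_lit 0, nat_lit 1],
    [nat_lit 1, nat_lit 0], [nat_lit 1], [nat_lit 0], nat_lit 1⟩,
  ⟨[(nat_lit 0, nat_lit 2), (nat_lit 1, nat_lit 3), (nat_lit 2, nat_lit 3), (nat_lit 3, nat_lit 3)], [nat_lit 0, nat_lit 1, nat_lit 2, nat_lit 3],
    [nat_lit 1, nat_lit 3, nat_lit 2, nat_lit 0], [nat_lit 1, nat_lit 3], [nat_lit 2, nat_lit 0], nat_lit 3⟩,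
  ⟨[(nat_lit 1, nat_lit 0), (nat_lit 0, nat_lit 2), (nat_lit 2, nat_lit 3), (nat_lit 3, nat_lit 3)], [nat_lit 1, nat_lit 0, nat_lit 2, nat_lit 3],
    [nat_lit 2, nat_lit 1, nat_lit 3, nat_lit 0], [nat_lit 2, nat_lit 1, nat_lit 3], [nat_lit 0], nat_lit 3⟩,
  ⟨[(nat_lit 1, nat_lit 1), (nat_lit 0, nat_lit 2), (nat_lit 2, nat_lit 3), (nat_lit 3, nat_lit 3)], [nat_lit 1, nat_lit 0, nat_lit 2, nat_lit 3],
    [nat_lit 2, nat_lit 1, nat_lit 3, nat_lit 0], [nat_lit 2, nat_lit 1, nat_lit 3], [nat_lit 0], nat_lit 3⟩,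
  ⟨[(nat_lit 1, nat_lit 0), (nat_lit 2, nat_lit 1), (nat_lit 0, nat_lit 2), (nat_lit 3, nat_lit 3)], [nat_lit 1, nat_lit 2, nat_lit 0, nat_lit 3],
    [nat_lit 3, nat_lit 1, nat_lit 2, nat_lit 0], [nat_lit 3, nat_lit 1, nat_lit 2], [nat_lit 0], nat_lit 2⟩,
  ⟨[(nat_lit 1, nat_lit 1), (nat_lit 2, nat_lit 1), (nat_lit 0, nat_lit 2), (nat_lit 3, nat_lit 4)], [nat_lit 1, nat_lit 2, nat_lit 0, nat_lit 3],
    [nat_lit 2, nat_lit 3, nat_lit 1, nat_lit 0], [nat_lit 2], [nat_lit 3, nat_lit 1, nat_lit 0], nat_lit 2⟩,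
  ⟨[(nat_lit 0, nat_lit 2), (nat_lit 1, nat_lit 3), (nat_lit 2, nat_lit 3), (nat_lit 3, nat_lit 4)], [nat_lit 0, nat_lit 1, nat_lit 2, nat_lit 3],
    [nat_lit 2, nat_lit 3, nat_lit 1, nat_lit 0], [nat_lit 2], [nat_lit 3, nat_lit 1, nat_lit 0], nat_lit 2⟩,
  ⟨[(nat_lit 1, nat_lit 1), (nat_lit 0, nat_lit 2), (nat_lit 2, nat_lit 3), (nat_lit 3, nat_lit 3), (nat_lit 4, nat_lit 3)], [nat_lit 1, nat_lit 0, nat_lit 2, nat_lit 3, nat_lit 4],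
    [nat_lit 3, nat_lit 1, nat_lit 4, nat_lit 2, nat_lit 0], [nat_lit 3], [nat_lit 1, nat_lit 4, nat_lit 2, nat_lit 0], nat_lit 3⟩,
  ⟨[(nat_lit 0, nat_lit 2), (nat_lit 1, nat_lit 3), (nat_lit 2, nat_lit 3), (nat_lit 3, nat_lit 3), (nat_lit 4, nat_lit 3)], [nat_lit 0, nat_lit 1, nat_lit 2, nat_lit 3, nat_lit 4],
    [nat_lit 3, nat_lit 1, nat_lit 4, nat_lit 2, nat_lit 0], [nat_lit 3], [nat_lit 1, nat_lit 4, nat_lit 2, nat_lit 0], nat_lit 3⟩,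
  ⟨[(nat_lit 1, nat_lit 1), (nat_lit 2, nat_lit 1), (nat_lit 3, nat_lit 1), (nat_lit 0, nat_lit 2), (nat_lit 4, nat_lit 3)], [nat_lit 1, nat_lit 2, nat_lit 3, nat_lit 0, nat_lit 4],
    [nat_lit 4, nat_lit 1, nat_lit 3, nat_lit 2, nat_lit 0], [nat_lit 4, nat_lit 1, nat_lit 3], [nat_lit 2, nat_lit 0], nat_lit 3⟩,
  ⟨[(nat_lit 0, nat_lit 2), (nat_lit 1, nat_lit 3), (nat_lit 2, nat_lit 3), (nat_lit 3, nat_lit 3), (nat_lit 4, nat_lit 3)], [nat_lit 0, nat_lit 1, nat_lit 2, nat_lit 3, nat_lit 4],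
    [nat_lit 4, nat_lit 1, nat_lit 3, nat_lit 2, nat_lit 0], [nat_lit 4], [nat_lit 1, nat_lit 3, nat_lit 2, nat_lit 0], nat_lit 4⟩,
  ⟨[(nat_lit 0, nat_lit 2), (nat_lit 1, nat_lit 3), (nat_lit 2, nat_lit 3), (nat_lit 3, nat_lit 3), (nat_lit 4, nat_lit 3)], [nat_lit 0, nat_lit 1, nat_lit 2, nat_lit 3, nat_lit 4],
    [nat_lit 2, nat_lit 4, nat_lit 1, nat_lit 3, nat_lit 0], [nat_lit 2], [nat_lit 4, nat_lit 1, nat_lit 3, nat_lit 0], nat_lit 2⟩,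
  ⟨[(nat_lit 1, nat_lit 1), (nat_lit 2, nat_lit 1), (nat_lit 3, nat_lit 1), (nat_lit 0, nat_lit 2), (nat_lit 4, nat_lit 3)], [nat_lit 1, nat_lit 2, nat_lit 3, nat_lit 0, nat_lit 4],
    [nat_lit 4, nat_lit 2, nat_lit 1, nat_lit 3, nat_lit 0], [nat_lit 4, nat_lit 2, nat_lit 1, nat_lit 3], [nat_lit 0], nat_lit 3⟩,
  ⟨[(nat_lit 1, nat_lit 1), (nat_lit 0, nat_lit 2), (nat_lit 2, nat_lit 3), (nat_lit 3, nat_lit 3), (nat_lit 4, nat_lit 3)], [nat_lit 1, nat_lit 0, nat_lit 2, nat_lit 3, nat_lit 4],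
    [nat_lit 4, nat_lit 2, nat_lit 1, nat_lit 3, nat_lit 0], [nat_lit 4], [nat_lit 2, nat_lit 1, nat_lit 3, nat_lit 0], nat_lit 4⟩,
  ⟨[(nat_lit 0, nat_lit 2), (nat_lit 1, nat_lit 3), (nat_lit 2, nat_lit 3), (nat_lit 3, nat_lit 3), (nat_lit 4, nat_lit 3)], [nat_lit 0, nat_lit 1, nat_lit 2, nat_lit 3, nat_lit 4],
    [nat_lit 2, nat_lit 4, nat_lit 3, nat_lit 1, nat_lit 0], [nat_lit 2], [nat_lit 4, nat_lit 3, nat_lit 1, nat_lit 0], nat_lit 2⟩,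
  ⟨[(nat_lit 1, nat_lit 1), (nat_lit 2, nat_lit 1), (nat_lit 0, nat_lit 2), (nat_lit 3, nat_lit 3), (nat_lit 4, nat_lit 3)], [nat_lit 1, nat_lit 2, nat_lit 0, nat_lit 3, nat_lit 4],
    [nat_lit 3, nat_lit 2, nat_lit 4, nat_lit 1, nat_lit 0], [nat_lit 3, nat_lit 2], [nat_lit 4, nat_lit 1, nat_lit 0], nat_lit 2⟩,
  ⟨[(nat_lit 1, nat_lit 0), (nat_lit 2, nat_lit 1), (nat_lit 3, nat_lit 1), (nat_lit 4, nat_lit 1), (nat_lit 0, nat_lit 2), (nat_lit 5, nat_lit 3)], [nat_lit 1, nat_lit 2, nat_lit 3, nat_lit 4, nat_lit 0, nat_lit 5],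
    [nat_lit 3, nat_lit 1, nat_lit 5, nat_lit 2, nat_lit 4, nat_lit 0], [nat_lit 3, nat_lit 1, nat_lit 5, nat_lit 2, nat_lit 4], [nat_lit 0], nat_lit 4⟩,
  ⟨[(nat_lit 1, nat_lit 1), (nat_lit 2, nat_lit 1), (nat_lit 0, nat_lit 2), (nat_lit 3, nat_lit 3), (nat_lit 4, nat_lit 3), (nat_lit 5, nat_lit 3)], [nat_lit 1, nat_lit 2, nat_lit 0, nat_lit 3, nat_lit 4, nat_lit 5],
    [nat_lit 2, nat_lit 4, nat_lit 1, nat_lit 5, nat_lit 3, nat_lit 0], [nat_lit 2], [nat_lit 4, nat_lit 1, nat_lit 5, nat_lit 3, nat_lit 0], nat_lit 2⟩,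
  ⟨[(nat_lit 1, nat_lit 1), (nat_lit 2, nat_lit 1), (nat_lit 0, nat_lit 2), (nat_lit 3, nat_lit 3), (nat_lit 4, nat_lit 3), (nat_lit 5, nat_lit 4)], [nat_lit 1, nat_lit 2, nat_lit 0, nat_lit 3, nat_lit 4, nat_lit 5],
    [nat_lit 2, nat_lit 4, nat_lit 1, nat_lit 5, nat_lit 3, nat_lit 0], [nat_lit 2], [nat_lit 4, nat_lit 1, nat_lit 5, nat_lit 3, nat_lit 0], nat_lit 2⟩,
  ⟨[(nat_lit 1, nat_lit 1), (nat_lit 2, nat_lit 1), (nat_lit 3, nat_lit 1), (nat_lit 0, nat_lit 2), (nat_lit 4, nat_lit 3), (nat_lit 5, nat_lit 3)], [nat_lit 1, nat_lit 2, nat_lit 3, nat_lit 0, nat_lit 4, nat_lit 5],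
    [nat_lit 3, nat_lit 4, nat_lit 1, nat_lit 5, nat_lit 2, nat_lit 0], [nat_lit 3], [nat_lit 4, nat_lit 1, nat_lit 5, nat_lit 2, nat_lit 0], nat_lit 3⟩,
  ⟨[(nat_lit 1, nat_lit 1), (nat_lit 2, nat_lit 1), (nat_lit 0, nat_lit 2), (nat_lit 3, nat_lit 3), (nat_lit 4, nat_lit 3), (nat_lit 5, nat_lit 3)], [nat_lit 1, nat_lit 2, nat_lit 0, nat_lit 3, nat_lit 4, nat_lit 5],
    [nat_lit 2, nat_lit 3, nat_lit 5, nat_lit 1, nat_lit 4, nat_lit 0], [nat_lit 2], [nat_lit 3, nat_lit 5, nat_lit 1, nat_lit 4, nat_lit 0], nat_lit 2⟩,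
  ⟨[(nat_lit 1, nat_lit 1), (nat_lit 2, nat_lit 1), (nat_lit 0, nat_lit 2), (nat_lit 3, nat_lit 3), (nat_lit 4, nat_lit 3), (nat_lit 5, nat_lit 3)], [nat_lit 1, nat_lit 2, nat_lit 0, nat_lit 3, nat_lit 4, nat_lit 5],
    [nat_lit 2, nat_lit 5, nat_lit 3, nat_lit 1, nat_lit 4, nat_lit 0], [nat_lit 2], [nat_lit 5, nat_lit 3, nat_lit 1, nat_lit 4, nat_lit 0], nat_lit 2⟩,
  ⟨[(nat_lit 1, nat_lit 1), (nat_lit 2, nat_lit 1), (nat_lit 3, nat_lit 1), (nat_lit 4, nat_lit 1), (nat_lit 0, nat_lit 2), (nat_lit 5, nat_lit 3)], [nat_lit 1, nat_lit 2, nat_lit 3, nat_lit 4, nat_lit 0, nat_lit 5],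
    [nat_lit 5, nat_lit 4, nat_lit 2, nat_lit 1, nat_lit 3, nat_lit 0], [nat_lit 5, nat_lit 4], [nat_lit 2, nat_lit 1, nat_lit 3, nat_lit 0], nat_lit 4⟩,
  ⟨[(nat_lit 1, nat_lit 1), (nat_lit 2, nat_lit 1), (nat_lit 0, nat_lit 2), (nat_lit 3, nat_lit 3), (nat_lit 4, nat_lit 3), (nat_lit 5, nat_lit 3)], [nat_lit 1, nat_lit 2, nat_lit 0, nat_lit 3, nat_lit 4, nat_lit 5],
    [nat_lit 2, nat_lit 3, nat_lit 5, nat_lit 4, nat_lit 1, nat_lit 0], [nat_lit 2], [nat_lit 3, nat_lit 5, nat_lit 4, nat_lit 1, nat_lit 0], nat_lit 2⟩,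
  ⟨[(nat_lit 1, nat_lit 1), (nat_lit 2, nat_lit 1), (nat_lit 3, nat_lit 1), (nat_lit 4, nat_lit 1), (nat_lit 0, nat_lit 2), (nat_lit 5, nat_lit 3)], [nat_lit 1, nat_lit 2, nat_lit 3, nat_lit 4, nat_lit 0, nat_lit 5],
    [nat_lit 5, nat_lit 3, nat_lit 2, nat_lit 4, nat_lit 1, nat_lit 0], [nat_lit 5, nat_lit 3], [nat_lit 2, nat_lit 4, nat_lit 1, nat_lit 0], nat_lit 3⟩,
  ⟨[(nat_lit 1, nat_lit 1), (nat_lit 2, nat_lit 1), (nat_lit 3, nat_lit 1), (nat_lit 4, nat_lit 1), (nat_lit 5, nat_lit 1), (nat_lit 0, nat_lit 2), (nat_lit 6, nat_lit 3)], [nat_lit 1, nat_lit 2, nat_lit 3, nat_lit 4, nat_lit 5, nat_lit 0, nat_lit 6],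
    [nat_lit 3, nat_lit 1, nat_lit 4, nat_lit 6, nat_lit 2, nat_lit 5, nat_lit 0], [nat_lit 3, nat_lit 1, nat_lit 4, nat_lit 6, nat_lit 2, nat_lit 5], [nat_lit 0], nat_lit 5⟩,
  ⟨[(nat_lit 1, nat_lit 1), (nat_lit 2, nat_lit 1), (nat_lit 3, nat_lit 1), (nat_lit 4, nat_lit 1), (nat_lit 5, nat_lit 1), (nat_lit 0, nat_lit 2), (nat_lit 6, nat_lit 3)], [nat_lit 1, nat_lit 2, nat_lit 3, nat_lit 4, nat_lit 5, nat_lit 0, nat_lit 6],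
    [nat_lit 4, nat_lit 1, nat_lit 3, nat_lit 6, nat_lit 2, nat_lit 5, nat_lit 0], [nat_lit 4, nat_lit 1, nat_lit 3, nat_lit 6, nat_lit 2, nat_lit 5], [nat_lit 0], nat_lit 5⟩,
  ⟨[(nat_lit 1, nat_lit 1), (nat_lit 2, nat_lit 1), (nat_lit 3, nat_lit 1), (nat_lit 4, nat_lit 1), (nat_lit 5, nat_lit 1), (nat_lit 0, nat_lit 2), (nat_lit 6, nat_lit 3)], [nat_lit 1, nat_lit 2, nat_lit 3, nat_lit 4, nat_lit 5, nat_lit 0, nat_lit 6],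
    [nat_lit 2, nat_lit 4, nat_lit 1, nat_lit 6, nat_lit 3, nat_lit 5, nat_lit 0], [nat_lit 2, nat_lit 4, nat_lit 1, nat_lit 6, nat_lit 3, nat_lit 5], [nat_lit 0], nat_lit 5⟩,
  ⟨[(nat_lit 1, nat_lit 1), (nat_lit 2, nat_lit 1), (nat_lit 3, nat_lit 1), (nat_lit 4, nat_lit 1), (nat_lit 5, nat_lit 1), (nat_lit 0, nat_lit 2), (nat_lit 6, nat_lit 3)], [nat_lit 1, nat_lit 2, nat_lit 3, nat_lit 4, nat_lit 5, nat_lit 0, nat_lit 6],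
    [nat_lit 2, nat_lit 4, nat_lit 6, nat_lit 1, nat_lit 3, nat_lit 5, nat_lit 0], [nat_lit 2, nat_lit 4, nat_lit 6, nat_lit 1, nat_lit 3, nat_lit 5], [nat_lit 0], nat_lit 5⟩,
  ⟨[(nat_lit 1, nat_lit 1), (nat_lit 2, nat_lit 1), (nat_lit 3, nat_lit 1), (nat_lit 4, nat_lit 1), (nat_lit 5, nat_lit 1), (nat_lit 0, nat_lit 2), (nat_lit 6, nat_lit 3)], [nat_lit 1, nat_lit 2, nat_lit 3, nat_lit 4, nat_lit 5, nat_lit 0, nat_lit 6],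
    [nat_lit 2, nat_lit 4, nat_lit 3, nat_lit 6, nat_lit 1, nat_lit 5, nat_lit 0], [nat_lit 2, nat_lit 4, nat_lit 3, nat_lit 6, nat_lit 1, nat_lit 5], [nat_lit 0], nat_lit 5⟩,
  ⟨[(nat_lit 1, nat_lit 1), (nat_lit 2, nat_lit 1), (nat_lit 3, nat_lit 1), (nat_lit 4, nat_lit 1), (nat_lit 5, nat_lit 1), (nat_lit 6, nat_lit 1), (nat_lit 0, nat_lit 2), (nat_lit 7, nat_lit 3)], [nat_lit 1, nat_lit 2, nat_lit 3, nat_lit 4, nat_lit 5, nat_lit 6, nat_lit 0, nat_lit 7],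
    [nat_lit 5, nat_lit 1, nat_lit 3, nat_lit 2, nat_lit 7, nat_lit 4, nat_lit 6, nat_lit 0], [nat_lit 5, nat_lit 1, nat_lit 3, nat_lit 2, nat_lit 7, nat_lit 4, nat_lit 6], [nat_lit 0], nat_lit 6⟩]

/-- certificates bounding the threshold from below, with the values in order, and two inversions -/
def PS : List (List PE × List ℕ) := [
  ([⟨nat_lit 8, nat_lit 0, nat_lit 1, nat_lit 1, nat_lit 1⟩], [nat_lit 1]),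
  ([⟨nat_lit 8, nat_lit 1, nat_lit 1, nat_lit 1, nat_lit 1⟩, ⟨nat_lit 9, nat_lit 1, nat_lit 2, nat_lit 3, nat_lit 1⟩, ⟨nat_lit 10, nat_lit 1, nat_lit 3, nat_lit 2, nat_lit 1⟩], [nat_lit 1, nat_lit 3, nat_lit 2]),
  ([⟨nat_lit 8, nat_lit 0, nat_lit 1, nat_lit 2, nat_lit 0⟩, ⟨nat_lit 9, nat_lit 1, nat_lit 2, nat_lit 3, nat_lit 1⟩, ⟨nat_lit 10, nat_lit 1, nat_lit 3, nat_lit 1, nat_lit 0⟩], [nat_lit 3, nat_lit 1, nat_lit 2]),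
  ([⟨nat_lit 8, nat_lit 0, nat_lit 1, nat_lit 2, nat_lit 0⟩, ⟨nat_lit 9, nat_lit 3, nat_lit 2, nat_lit 3, nat_lit 1⟩, ⟨nat_lit 10, nat_lit 3, nat_lit 3, nat_lit 1, nat_lit 0⟩], [nat_lit 3, nat_lit 1, nat_lit 2]),
  ([⟨nat_lit 8, nat_lit 1, nat_lit 1, nat_lit 3, nat_lit 1⟩, ⟨nat_lit 9, nat_lit 1, nat_lit 2, nat_lit 2, nat_lit 1⟩, ⟨nat_lit 10, nat_lit 3, nat_lit 3, nat_lit 1, nat_lit 1⟩], [nat_lit 3, nat_lit 2, nat_lit 1]),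
  ([⟨nat_lit 8, nat_lit 1, nat_lit 1, nat_lit 2, nat_lit 0⟩, ⟨nat_lit 9, nat_lit 1, nat_lit 2, nat_lit 4, nat_lit 1⟩, ⟨nat_lit 10, nat_lit 1, nat_lit 3, nat_lit 1, nat_lit 0⟩, ⟨nat_lit 11, nat_lit 1, nat_lit 4, nat_lit 3, nat_lit 0⟩], [nat_lit 3, nat_lit 1, nat_lit 4, nat_lit 2]),
  ([⟨nat_lit 8, nat_lit 1, nat_lit 1, nat_lit 2, nat_lit 0⟩, ⟨nat_lit 9, nat_lit 1, nat_lit 2, nat_lit 4, nat_lit 1⟩, ⟨nat_lit 10, nat_lit 1, nat_lit 3, nat_lit 3, nat_lit 0⟩, ⟨nat_lit 11, nat_lit 1, nat_lit 4, nat_lit 1, nat_lit 0⟩], [nat_lit 4, nat_lit 1, nat_lit 3, nat_lit 2]),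
  ([⟨nat_lit 8, nat_lit 1, nat_lit 1, nat_lit 3, nat_lit 0⟩, ⟨nat_lit 9, nat_lit 1, nat_lit 2, nat_lit 1, nat_lit 0⟩, ⟨nat_lit 10, nat_lit 1, nat_lit 3, nat_lit 4, nat_lit 1⟩, ⟨nat_lit 11, nat_lit 1, nat_lit 4, nat_lit 2, nat_lit 0⟩], [nat_lit 2, nat_lit 4, nat_lit 1, nat_lit 3]),
  ([⟨nat_lit 8, nat_lit 1, nat_lit 1, nat_lit 3, nat_lit 0⟩, ⟨nat_lit 9, nat_lit 1, nat_lit 2, nat_lit 2, nat_lit 0⟩, ⟨nat_lit 10, nat_lit 3, nat_lit 3, nat_lit 4, nat_lit 1⟩, ⟨nat_lit 11, nat_lit 3, nat_lit 4, nat_lit 1, nat_lit 0⟩], [nat_lit 4, nat_lit 2, nat_lit 1, nat_lit 3]),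
  ([⟨nat_lit 8, nat_lit 1, nat_lit 1, nat_lit 4, nat_lit 1⟩, ⟨nat_lit 9, nat_lit 1, nat_lit 2, nat_lit 1, nat_lit 0⟩, ⟨nat_lit 10, nat_lit 1, nat_lit 3, nat_lit 3, nat_lit 0⟩, ⟨nat_lit 11, nat_lit 1, nat_lit 4, nat_lit 2, nat_lit 0⟩], [nat_lit 2, nat_lit 4, nat_lit 3, nat_lit 1]),
  ([⟨nat_lit 8, nat_lit 1, nat_lit 1, nat_lit 4, nat_lit 1⟩, ⟨nat_lit 9, nat_lit 1, nat_lit 2, nat_lit 1, nat_lit 0⟩, ⟨nat_lit 10, nat_lit 1, nat_lit 3, nat_lit 3, nat_lit 0⟩, ⟨nat_lit 11, nat_lit 3, nat_lit 4, nat_lit 2, nat_lit 0⟩], [nat_lit 2, nat_lit 4, nat_lit 3, nat_lit 1]),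
  ([⟨nat_lit 8, nat_lit 1, nat_lit 1, nat_lit 4, nat_lit 1⟩, ⟨nat_lit 9, nat_lit 1, nat_lit 2, nat_lit 2, nat_lit 0⟩, ⟨nat_lit 10, nat_lit 3, nat_lit 3, nat_lit 3, nat_lit 0⟩, ⟨nat_lit 11, nat_lit 3, nat_lit 4, nat_lit 1, nat_lit 0⟩], [nat_lit 4, nat_lit 2, nat_lit 3, nat_lit 1]),
  ([⟨nat_lit 8, nat_lit 1, nat_lit 1, nat_lit 4, nat_lit 1⟩, ⟨nat_lit 9, nat_lit 1, nat_lit 2, nat_lit 3, nat_lit 0⟩, ⟨nat_lit 10, nat_lit 1, nat_lit 3, nat_lit 1, nat_lit 0⟩, ⟨nat_lit 11, nat_lit 3, nat_lit 4, nat_lit 2, nat_lit 0⟩], [nat_lit 3, nat_lit 4, nat_lit 2, nat_lit 1]),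
  ([⟨nat_lit 8, nat_lit 0, nat_lit 1, nat_lit 2, nat_lit 0⟩, ⟨nat_lit 9, nat_lit 1, nat_lit 2, nat_lit 4, nat_lit 0⟩, ⟨nat_lit 10, nat_lit 1, nat_lit 3, nat_lit 1, nat_lit 0⟩, ⟨nat_lit 11, nat_lit 3, nat_lit 4, nat_lit 5, nat_lit 1⟩, ⟨nat_lit 12, nat_lit 3, nat_lit 5, nat_lit 3, nat_lit 0⟩], [nat_lit 3, nat_lit 1, nat_lit 5, nat_lit 2, nat_lit 4]),
  ([⟨nat_lit 8, nat_lit 1, nat_lit 1, nat_lit 2, nat_lit 0⟩, ⟨nat_lit 9, nat_lit 1, nat_lit 2, nat_lit 4, nat_lit 0⟩, ⟨nat_lit 10, nat_lit 1, nat_lit 3, nat_lit 3, nat_lit 0⟩, ⟨nat_lit 11, nat_lit 1, nat_lit 4, nat_lit 5, nat_lit 1⟩, ⟨nat_lit 12, nat_lit 1, nat_lit 5, nat_lit 1, nat_lit 0⟩], [nat_lit 5, nat_lit 1, nat_lit 3, nat_lit 2, nat_lit 4]),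
  ([⟨nat_lit 8, nat_lit 1, nat_lit 1, nat_lit 2, nat_lit 0⟩, ⟨nat_lit 9, nat_lit 1, nat_lit 2, nat_lit 5, nat_lit 0⟩, ⟨nat_lit 10, nat_lit 1, nat_lit 3, nat_lit 1, nat_lit 0⟩, ⟨nat_lit 11, nat_lit 1, nat_lit 4, nat_lit 3, nat_lit 0⟩, ⟨nat_lit 12, nat_lit 3, nat_lit 5, nat_lit 6, nat_lit 1⟩, ⟨nat_lit 13, nat_lit 3, nat_lit 6, nat_lit 4, nat_lit 0⟩], [nat_lit 3, nat_lit 1, nat_lit 4, nat_lit 6, nat_lit 2, nat_lit 5]),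
  ([⟨nat_lit 8, nat_lit 1, nat_lit 1, nat_lit 2, nat_lit 0⟩, ⟨nat_lit 9, nat_lit 1, nat_lit 2, nat_lit 5, nat_lit 0⟩, ⟨nat_lit 10, nat_lit 1, nat_lit 3, nat_lit 3, nat_lit 0⟩, ⟨nat_lit 11, nat_lit 1, nat_lit 4, nat_lit 1, nat_lit 0⟩, ⟨nat_lit 12, nat_lit 3, nat_lit 5, nat_lit 6, nat_lit 1⟩, ⟨nat_lit 13, nat_lit 3, nat_lit 6, nat_lit 4, nat_lit 0⟩], [nat_lit 4, nat_lit 1, nat_lit 3, nat_lit 6, nat_lit 2, nat_lit 5]),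
  ([⟨nat_lit 8, nat_lit 1, nat_lit 1, nat_lit 3, nat_lit 0⟩, ⟨nat_lit 9, nat_lit 1, nat_lit 2, nat_lit 1, nat_lit 0⟩, ⟨nat_lit 10, nat_lit 1, nat_lit 3, nat_lit 5, nat_lit 0⟩, ⟨nat_lit 11, nat_lit 1, nat_lit 4, nat_lit 2, nat_lit 0⟩, ⟨nat_lit 12, nat_lit 3, nat_lit 5, nat_lit 6, nat_lit 1⟩, ⟨nat_lit 13, nat_lit 3, nat_lit 6, nat_lit 4, nat_lit 0⟩], [nat_lit 2, nat_lit 4, nat_lit 1, nat_lit 6, nat_lit 3, nat_lit 5]),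
  ([⟨nat_lit 8, nat_lit 1, nat_lit 1, nat_lit 4, nat_lit 0⟩, ⟨nat_lit 9, nat_lit 1, nat_lit 2, nat_lit 1, nat_lit 0⟩, ⟨nat_lit 10, nat_lit 1, nat_lit 3, nat_lit 5, nat_lit 0⟩, ⟨nat_lit 11, nat_lit 1, nat_lit 4, nat_lit 2, nat_lit 0⟩, ⟨nat_lit 12, nat_lit 3, nat_lit 5, nat_lit 6, nat_lit 1⟩, ⟨nat_lit 13, nat_lit 3, nat_lit 6, nat_lit 3, nat_lit 0⟩], [nat_lit 2, nat_lit 4, nat_lit 6, nat_lit 1, nat_lit 3, nat_lit 5]),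
  ([⟨nat_lit 8, nat_lit 1, nat_lit 1, nat_lit 5, nat_lit 0⟩, ⟨nat_lit 9, nat_lit 1, nat_lit 2, nat_lit 1, nat_lit 0⟩, ⟨nat_lit 10, nat_lit 1, nat_lit 3, nat_lit 3, nat_lit 0⟩, ⟨nat_lit 11, nat_lit 1, nat_lit 4, nat_lit 2, nat_lit 0⟩, ⟨nat_lit 12, nat_lit 3, nat_lit 5, nat_lit 6, nat_lit 1⟩, ⟨nat_lit 13, nat_lit 3, nat_lit 6, nat_lit 4, nat_lit 0⟩], [nat_lit 2, nat_lit 4, nat_lit 3, nat_lit 6, nat_lit 1, nat_lit 5]),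
  ([⟨nat_lit 8, nat_lit 1, nat_lit 1, nat_lit 2, nat_lit 0⟩, ⟨nat_lit 9, nat_lit 1, nat_lit 2, nat_lit 4, nat_lit 0⟩, ⟨nat_lit 10, nat_lit 1, nat_lit 3, nat_lit 3, nat_lit 0⟩, ⟨nat_lit 11, nat_lit 1, nat_lit 4, nat_lit 6, nat_lit 0⟩, ⟨nat_lit 12, nat_lit 1, nat_lit 5, nat_lit 1, nat_lit 0⟩, ⟨nat_lit 13, nat_lit 3, nat_lit 6, nat_lit 7, nat_lit 1⟩, ⟨nat_lit 14, nat_lit 3, nat_lit 7, nat_lit 5, nat_lit 0⟩], [nat_lit 5, nat_lit 1, nat_lit 3, nat_lit 2, nat_lit 7, nat_lit 4, nat_lit 6]),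
  ([⟨nat_lit 8, nat_lit 1, nat_lit 1, nat_lit 2, nat_lit 1⟩, ⟨nat_lit 9, nat_lit 1, nat_lit 2, nat_lit 1, nat_lit 2⟩], [nat_lit 2, nat_lit 1]),
  ([⟨nat_lit 8, nat_lit 3, nat_lit 1, nat_lit 2, nat_lit 1⟩, ⟨nat_lit 9, nat_lit 3, nat_lit 2, nat_lit 1, nat_lit 2⟩], [nat_lit 2, nat_lit 1])]

def DC : List ℕ := [nat_lit 13123598, nat_lit 13123590, nat_lit 13123602, nat_lit 13123594, nat_lit 0, nat_lit 820241, nat_lit 0, nat_lit 281559078, nat_lit 281559090, nat_lit 0, nat_lit 0, nat_lit 0, nat_lit 0, nat_lit 0, nat_lit 0, nat_lit 0, nat_lit 0, nat_lit 5650268226, nat_lit 353141801, nat_lit 0, nat_lit 0, nat_lit 0, nat_lit 0, nat_lit 0, nat_lit 0, nat_lit 0, nat_lit 0, nat_lit 0, nat_lit 0, nat_lit 0, nat_lit 0, nat_lit 0, nat_lit 0, nat_lit 0, nat_lit 0, nat_lit 0, nat_lit 0, nat_lit 0, nat_lit 0, nat_lit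 0, nat_lit 0, nat_lit 0, nat_lit 0, nat_lit 0, nat_lit 0, nat_lit 0, nat_lit 0, nat_lit 0, nat_lit 0, nat_lit 0, nat_lit 0, nat_lit 0, nat_lit 0, nat_lit 0, nat_lit 0, nat_lit 0, nat_lit 108729483366, nat_lit 108729483370, nat_lit 103432357145, nat_lit 6795592813, nat_lit 108729483374, nat_lit 6795592821, nat_lit 108729483378, nat_lit 108729483382, nat_lit 6795592889, nat_lit 6795592901, nat_lit 6795592905, nat_lit 6795592909, nat_lit 0, nat_lit 0, nat_lit 0, nat_lit 0, nat_lit 0, nat_lit 0, nat_lit 0, nat_lit 0, nat_lit 0, nat_lit 0, nat_lit 0, nat_lit 0, nat_lit 0, nat_lit 2032874831994, nat_lit 0, nat_lit 0, nat_lit 0, nat_lit 0, nat_lit 0, nat_lit 0, nat_lit 0, nat_lit 0, nat_lit 127054677325, nat_lit 0, nat_lit 0, nat_lit 0, nat_lit 0, nat_lit 0, nat_lit 0, nat_lit 0, nat_lit 0, nat_lit 0, nat_lit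 0, nat_lit 0, nat_lit 0, nat_lit 0, nat_lit 0, nat_lit 0, nat_lit 0, nat_lit 0, nat_lit 0, nat_lit 0, nat_lit 0, nat_lit 0, nat_lit 0, nat_lit 0, nat_lit 0, nat_lit 0, nat_lit 0, nat_lit 0, nat_lit 0, nat_lit 0, nat_lit 0, nat_lit 0, nat_lit 0, nat_lit 0, nat_lit 0, nat_lit 0, nat_lit 0, nat_lit 0, nat_lit 0, nat_lit 0, nat_lit 0, nat_lit 0, nat_lit 0, nat_lit 0, nat_lit 0, nat_lit 0, nat_lit 0, nat_lit 0, nat_lit 0, nat_lit 0, nat_lit 0, nat_lit 0, nat_lit 0, nat_lit 0, nat_lit 0, nat_lit 2326077932917, nat_lit 2326077932925, nat_lit 2326077932985, nat_lit 2326077933017, nat_lit 2326077933049, nat_lit 2326077933057, nat_lit 0, nat_lit 0, nat_lit 0, nat_lit 0, nat_lit 0, nat_lit 0, nat_lit 0, nat_lit 0, nat_lit 0, nat_lit 0, nat_lit 0, nat_lit 0, nat_lit 0, nat_lit 0, nat_lit 41908496533109, nat_lit 0]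

def EC : List ℕ := [nat_lit 0, nat_lit 0, nat_lit 13108253, nat_lit 820225, nat_lit 13123603, nat_lit 12616737, nat_lit 13123591, nat_lit 0, nat_lit 0, nat_lit 5650252905, nat_lit 5650252909, nat_lit 5650252937, nat_lit 5650252941, nat_lit 5650252945, nat_lit 5650252949, nat_lit 5650252977, nat_lit 5650252981, nat_lit 5650253033, nat_lit 5650253037, nat_lit 5649761369, nat_lit 5649761373, nat_lit 0, nat_lit 0, nat_lit 0, nat_lit 0, nat_lit 0, nat_lit 0, nat_lit 0, nat_lit 0, nat_lit 0, nat_lit 0, nat_lit 0, nat_lit 0, nat_lit 0, nat_lit 0, nat_lit 0, nat_lit 0, nat_lit 0, nat_lit 0, nat_lit 0, nat_lit 0, nat_lit 0, nat_lit 0, nat_lit 0, nat_lit 0, nat_lit 0, nat_lit 0, nat_lit 0, nat_lit 0, nat_lit 0, nat_lit 0, nat_lit 0, nat_lit 0, nat_lit 0, nat_lit 0, nat_lit 0, nat_lit 0, nat_lit 0, nat_lit 0, nat_lit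 0, nat_lit 0, nat_lit 0, nat_lit 0, nat_lit 0, nat_lit 0, nat_lit 0, nat_lit 0, nat_lit 0, nat_lit 6795592893, nat_lit 108729468205, nat_lit 0, nat_lit 0, nat_lit 0, nat_lit 0, nat_lit 0, nat_lit 0, nat_lit 0, nat_lit 0, nat_lit 0, nat_lit 0, nat_lit 0, nat_lit 0, nat_lit 2032874816949, nat_lit 2032874816953, nat_lit 2032874816957, nat_lit 2032874816961, nat_lit 2032874816965, nat_lit 2032874816969, nat_lit 2032874816973, nat_lit 2032874816977, nat_lit 2032874817101, nat_lit 127054677273, nat_lit 0, nat_lit 0, nat_lit 0, nat_lit 0, nat_lit 0, nat_lit 0, nat_lit 0, nat_lit 0, nat_lit 0, nat_lit 0, nat_lit 0, nat_lit 0, nat_lit 0, nat_lit 0, nat_lit 0, nat_lit 0, nat_lit 0, nat_lit 0, nat_lit 0, nat_lit 0, nat_lit 0, nat_lit 0, nat_lit 0, nat_lit 0, nat_lit 0, nat_lit 0, nat_lit 0, nat_lit 0, nat_lit 0,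 nat_lit 0, nat_lit 0, nat_lit 0, nat_lit 0, nat_lit 0, nat_lit 0, nat_lit 0, nat_lit 0, nat_lit 0, nat_lit 0, nat_lit 0, nat_lit 0, nat_lit 0, nat_lit 0, nat_lit 0, nat_lit 0, nat_lit 0, nat_lit 0, nat_lit 0, nat_lit 0, nat_lit 0, nat_lit 0, nat_lit 0, nat_lit 0, nat_lit 0, nat_lit 0, nat_lit 0, nat_lit 0, nat_lit 0, nat_lit 0, nat_lit 2326077933105, nat_lit 2326077933109, nat_lit 2326077933113, nat_lit 2326077933117, nat_lit 2326077933121, nat_lit 0, nat_lit 0, nat_lit 0, nat_lit 0, nat_lit 0, nat_lit 0, nat_lit 0, nat_lit 0, nat_lit 0, nat_lit 0, nat_lit 41908496533137]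

def gU (i : ℕ) : UPat := UT.getD i ⟨[], [], [], [], [], 0⟩

def sub (s n : ℕ) : List (List PE × List ℕ) := (PS.drop s).take n

end Pool.Agent.H49.PQS
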