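import Pool.Agent.H49.PQS.Snd
import Pool.Agent.H49.PQS.Tab

/-!
An obstruction in one of the two parts below or above the threshold, together with the maximum.
-/

namespace Pool.Agent.H49.PQS

noncomputable def sxs (s : ℕ → Bool) (px : List (ℕ × ℕ)) : List ℕ :=
  (px.filter (fun e => s e.2)).map (fun e => e.1 + 1) ++
    0 :: (px.filter (fun e => !s e.2)).map (fun e => e.1 + 1)

noncomputable def sys (py : List ℕ) : List ℕ := py.map (fun i => i + 1) ++ [0]

noncomputable def slab (f : ℕ → ℕ) (px : List (ℕ × ℕ)) : ℕ → ℕ :=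
  labOf ((0, 2) :: px.map (fun e => (e.1 + 1, f e.2))) []

def dS (l : ℕ) : Bool := !(Nat.beq l 2)
def dF (l : ℕ) : ℕ := cond (Nat.beq l 2) 3 l
def eS (l : ℕ) : Bool := Nat.beq l 0
def eF (l : ℕ) : ℕ := cond (Nat.beq l 0) 1 (l + 2)

noncomputable def wcl (lab : ℕ → ℕ) (xs ys : List ℕ) (js : ℕ) (px : List (ℕ × ℕ))
    (py : List ℕ) : Bool :=
  cond (walkx (dig js) (fun c l => Nat.beq (lab c) l) xs px)
    (walky (dig js) (fun _ => true) ys py) false

noncomputable def chkD (c : ℕ) (t : Pat) : Bool :=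
  cond (Nat.beq c 0) (t.px.all (fun e => dS e.2))
    (cond (Nat.beq (Nat.land c 3) 1)
      (nthC TT (tcl (slab dF t.px) (sxs dS t.px) (sys t.py) (Nat.div c 1024))
        (Nat.land (Nat.div c 4) 255))
      (nthC UT (fun u => wcl (slab dF t.px) (sxs dS t.px) (sys t.py) (Nat.div c 1024) u.px
        (u.pm ++ u.pr)) (Nat.land (Nat.div c 4) 255)))

noncomputable def chkE (c : ℕ) (t : Pat) : Bool :=
  cond (Nat.beq c 0) (t.px.all (fun e => !eS e.2))
    (cond (Nat.beq (Nat.land c 3) 1)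
      (nthC TT (tcl (slab eF t.px) (sxs eS t.px) (sys t.py) (Nat.div c 1024))
        (Nat.land (Nat.div c 4) 255))
      (nthC PS (fun R => cond (R.1.all (fun e => !(Nat.beq e.f 2)))
        (wcl (slab eF t.px) (sxs eS t.px) (sys t.py) (Nat.div c 1024)
        (R.1.map (fun e => (e.x, e.l))) R.2) false) (Nat.land (Nat.div c 4) 255)))

theorem allD : (DC.zip TT).all (fun ct => chkD ct.1 ct.2) = true := by decide +kernel
theorem allE : (EC.zip TT).all (fun ct => chkE ct.1 ct.2) = true := by decide +kernel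

theorem zip_ex {α β : Type} {A : List α} {B : List β} (h : B.length ≤ A.length) {b : β}
    (hb : b ∈ B) : ∃ a, (a, b) ∈ A.zip B := by
  obtain ⟨i, hi, rfl⟩ := List.mem_iff_getElem.1 hb
  refine ⟨A[i]'(by omega), List.mem_iff_getElem.2 ⟨i, ?_, ?_⟩⟩
  · rw [List.length_zip]; omega
  · rw [List.getElem_zip]

theorem exD : ∀ t ∈ TT, ∃ c, chkD c t = true := by
  intro t ht
  obtain ⟨c, hc⟩ := zip_ex (A := DC) (by decide +kernel) ht
  exact ⟨c, List.all_eq_true.1 allD _ hc⟩

theorem exE : ∀ t ∈ TT, ∃ c, chkE c t = true := by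
  intro t ht
  obtain ⟨c, hc⟩ := zip_ex (A := EC) (by decide +kernel) ht
  exact ⟨c, List.all_eq_true.1 allE _ hc⟩

/-- consistency of the data of a pattern -/
def tokB (t : Pat) : Bool :=
  decide (t.px.map Prod.fst).Nodup && t.py.all (fun i => (t.px.map Prod.fst).contains i) &&
    t.px.all (fun e => decide (e.2 < 3)) && !t.px.isEmpty

theorem tok_all : TT.all tokB = true := by decide +kernel

theorem tok {t : Pat} (ht : t ∈ TT) : (t.px.map Prod.fst).Nodup ∧
    (∀ i ∈ t.py, ∃ e ∈ t.px, e.1 = i) ∧ (∀ e ∈ t.px, e.2 < 3) ∧ t.px ≠ [] := by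
  have h := List.all_eq_true.1 tok_all t ht
  unfold tokB at h
  simp only [Bool.and_eq_true, decide_eq_true_eq, List.all_eq_true, List.contains_iff_mem,
    List.mem_map, Bool.not_eq_true', List.isEmpty_eq_false_iff] at h
  obtain ⟨⟨⟨h1, h2⟩, h3⟩, h4⟩ := h
  exact ⟨h1, h2, h3, h4⟩

/-- consistency of the data of a certificate -/
def rokB (R : List PE × List ℕ) : Bool :=
  decide ((R.1.map PE.x).Pairwise (fun i j => i < j)) &&
    R.1.all (fun e => R.1.all (fun e' => !(Nat.blt e.y e'.y) ||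
      decide ([e.x, e'.x].Sublist R.2)))

theorem rok_all : PS.all rokB = true := by decide +kernel

theorem rok {R : List PE × List ℕ} (hR : R ∈ PS) : (R.1.map PE.x).Pairwise (fun i j => i < j) ∧
    ∀ e ∈ R.1, ∀ e' ∈ R.1, e.y < e'.y → [e.x, e'.x].Sublist R.2 := by
  have h := List.all_eq_true.1 rok_all R hR
  unfold rokB at h
  simp only [Bool.and_eq_true, decide_eq_true_eq, List.all_eq_true, Bool.or_eq_true,
    Bool.not_eq_true'] at h
  refine ⟨h.1, ?_⟩
  intro e he e' he' hlt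
  rcases h.2 e he e' he' with h1 | h1
  · exfalso
    have h2 : Nat.blt e.y e'.y = true := by
      unfold Nat.blt
      exact Nat.ble_eq_true_of_le hlt
    rw [h2] at h1
    exact absurd h1 (by simp)
  · exact h1

def uokB (u : UPat) : Bool :=
  decide (u.px.map Prod.fst = u.xs) && decide (u.pm ++ u.pr = u.ys) && decide u.xs.Nodup &&
    decide ((0, 2) ∈ u.px) && u.xs.all (fun i => u.ys.contains i) &&
    u.ys.all (fun i => u.xs.contains i) && decide (u.mi ∈ u.pm) && decide (u.mi ≠ 0)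

theorem uok_all : UT.all uokB = true := by decide +kernel

theorem uok {u : UPat} (hu : u ∈ UT) : UOK u ∧ u.mi ≠ 0 := by
  have h := List.all_eq_true.1 uok_all u hu
  unfold uokB at h
  simp only [Bool.and_eq_true, decide_eq_true_eq, List.all_eq_true, List.contains_iff_mem] at h
  obtain ⟨⟨⟨⟨⟨⟨⟨h1, h2⟩, h3⟩, h4⟩, h5⟩, h6⟩, h7⟩, h8⟩ := h
  exact ⟨⟨h1, h2, h3, h4, fun i => ⟨h5 i, h6 i⟩, h7⟩, h8⟩

section
variable {V : ℕ → ℕ} {mem : ℕ → ℕ → Prop} {m : ℕ} {q : ℕ → ℕ} {s : ℕ → Bool} {f : ℕ → ℕ}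

def stp (m : ℕ) (q : ℕ → ℕ) : ℕ → ℕ := fun w => if w = 0 then m else q (w - 1)

theorem stp_succ (i : ℕ) : stp m q (i + 1) = q i := by simp [stp]

theorem sta_x {px : List (ℕ × ℕ)} (h2 : (px.map Prod.fst).Pairwise (fun i j => q i < q j))
    (hs : ∀ e ∈ px, s e.2 = true → q e.1 < m) (hs' : ∀ e ∈ px, s e.2 = false → m < q e.1) :
    (sxs s px).Pairwise (fun i j => stp m q i < stp m q j) := by
  unfold sxs
  rw [List.pairwise_map] at h2
  rw [List.pairwise_append, List.pairwise_cons, List.pairwise_map, List.pairwise_map]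
  simp only [stp_succ]
  refine ⟨h2.filter _, ⟨?_, h2.filter _⟩, ?_⟩
  · intro w hw
    obtain ⟨e, he, rfl⟩ := List.mem_map.1 hw
    rw [List.mem_filter] at he
    rw [stp_succ]
    exact hs' e he.1 (by simpa using he.2)
  · intro w hw w' hw'
    obtain ⟨e, he, rfl⟩ := List.mem_map.1 hw
    rw [List.mem_filter] at he
    have h3 := hs e he.1 (by simpa using he.2)
    rw [stp_succ]
    rcases List.mem_cons.1 hw' with rfl | hw'
    · exact h3
    · obtain ⟨e', he', rfl⟩ := List.mem_map.1 hw'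
      rw [List.mem_filter] at he'
      rw [stp_succ]
      exact lt_trans h3 (hs' e' he'.1 (by simpa using he'.2))

theorem sta_y {px : List (ℕ × ℕ)} {py : List ℕ}
    (h3 : py.Pairwise (fun i j => V (q i) < V (q j))) (hv : ∀ e ∈ px, V (q e.1) < V m)
    (hpy : ∀ i ∈ py, ∃ e ∈ px, e.1 = i) :
    (sys py).Pairwise (fun i j => V (stp m q i) < V (stp m q j)) := by
  unfold sys
  rw [List.pairwise_append, List.pairwise_map]
  simp only [stp_succ]
  refine ⟨h3, by simp, ?_⟩
  intro w hw w' hw'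
  obtain ⟨i, hi, rfl⟩ := List.mem_map.1 hw
  rw [List.mem_singleton] at hw'
  subst hw'
  obtain ⟨e, he, rfl⟩ := hpy i hi
  rw [stp_succ]
  exact hv e he

theorem sta_mem_iff {px : List (ℕ × ℕ)} {w : ℕ} (hw : w ∈ sxs s px) :
    w = 0 ∨ ∃ e ∈ px, w = e.1 + 1 := by
  unfold sxs at hw
  simp only [List.mem_append, List.mem_map, List.mem_filter, List.mem_cons] at hw
  rcases hw with ⟨e, he, rfl⟩ | rfl | ⟨e, he, rfl⟩
  · exact Or.inr ⟨e, he.1, rfl⟩
  · exact Or.inl rfl
  · exact Or.inr ⟨e, he.1, rfl⟩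

theorem sta_m {px : List (ℕ × ℕ)} (h1 : ∀ e ∈ px, mem (f e.2) (q e.1)) (hm : mem 2 m)
    (hnd : (px.map Prod.fst).Nodup) : ∀ w ∈ sxs s px, mem (slab f px w) (stp m q w) := by
  have hnd2 : (((0, 2) :: px.map (fun e => (e.1 + 1, f e.2))).map Prod.fst).Nodup := by
    rw [List.map_cons, List.map_map, List.nodup_cons]
    constructor
    · simp
    · have : (Prod.fst ∘ fun e : ℕ × ℕ => (e.1 + 1, f e.2)) = (fun i => i + 1) ∘ Prod.fst := rfl
      rw [this, ← List.map_map]
      exact hnd.map (fun a b h => by simpa using h)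
  intro w hw
  unfold slab
  rcases sta_mem_iff hw with rfl | ⟨e, he, rfl⟩
  · have h5 := labOf_px (P := []) hnd2 (0, 2) (by simp)
    rw [h5]
    exact hm
  · have h5 := labOf_px (P := []) hnd2 (e.1 + 1, f e.2)
      (List.mem_cons_of_mem _ (List.mem_map.2 ⟨e, he, rfl⟩))
    rw [h5, stp_succ]
    exact h1 e he

/-- an occurrence found by the check -/
theorem wcl_sound {lab : ℕ → ℕ} {xs ys : List ℕ} {js : ℕ} {px : List (ℕ × ℕ)} {py : List ℕ}
    {p : ℕ → ℕ} (hlx : xs.Pairwise (fun i j => p i < p j))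
    (hly : ys.Pairwise (fun i j => V (p i) < V (p j))) (hmem : ∀ u ∈ xs, mem (lab u) (p u))
    (hc : wcl lab xs ys js px py = true) :
    Emb mem V px py (fun i => p (dig js i)) ∧ ∀ e ∈ px, dig js e.1 ∈ xs := by
  obtain ⟨c1, c2⟩ := cond_ff hc
  obtain ⟨s1, s2⟩ := walkx_sound _ _ _ _ c1
  obtain ⟨r, _, s3⟩ := walky_sound _ _ _ _ c2
  have hin : ∀ e ∈ px, dig js e.1 ∈ xs := fun e he => s1.subset (List.mem_map.2 ⟨e, he, rfl⟩)
  refine ⟨⟨?_, ?_, ?_⟩, hin⟩
  · intro e he
    have h4 : lab (dig js e.1) = e.2 := Nat.eq_of_beq_eq_true (s2 e he)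
    rw [← h4]
    exact hmem _ (hin e he)
  · have := hlx.sublist s1
    rw [List.pairwise_map] at this ⊢
    exact this
  · have h3 := hly.sublist ((List.sublist_append_left _ _).trans s3)
    rw [List.pairwise_map] at h3
    exact h3

theorem pok_of_emb {bd : ℕ} {R : List PE × List ℕ} (hR : R ∈ PS)
    (h : Emb mem V (R.1.map (fun e => (e.x, e.l))) R.2 q)
    (h1 : ∀ e ∈ R.1, e.f = 1 → bd ≤ V (q e.x)) (h2 : ∀ e ∈ R.1, e.f = 2 → V (q e.x) < bd) :
    POK V mem bd R.1 q := by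
  obtain ⟨r1, r2⟩ := rok hR
  obtain ⟨e1, e2, e3⟩ := h
  refine ⟨?_, h1, h2, ?_, ?_⟩
  · intro e he
    exact e1 (e.x, e.l) (List.mem_map.2 ⟨e, he, rfl⟩)
  · have e4 : R.1.Pairwise (fun a b => q a.x < q b.x ∧ a.x < b.x) := by
      rw [List.map_map, List.pairwise_map] at e2
      rw [List.pairwise_map] at r1
      exact e2.and r1
    intro e he e' he' hlt
    by_contra hc
    have e5 : R.1.Pairwise (fun a b => ¬ (a.x < b.x ∧ ¬ q a.x < q b.x) ∧
        ¬ (b.x < a.x ∧ ¬ q b.x < q a.x)) := e4.imp (fun {a b} hab => by omega)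
    exact absurd (⟨hlt, hc⟩ : e.x < e'.x ∧ ¬ q e.x < q e'.x) (by
      have := e5.forall_of_forall_of_flip (fun a _ => by omega)
        (by exact e5.imp (fun {a b} hab => ⟨hab.2, hab.1⟩)) he he'
      exact this.1)
  · intro e he e' he' hlt
    have := e3.sublist (r2 e he e' he' hlt)
    simpa using this

end

end Pool.Agent.H49.PQS
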